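import Pool.Agent.Lib.GemCW.Defs

/-!
# Finite Ramsey theorem for pairs

`ramsey`: for `q` colours and every `m` there is `N` such that every colouring of the pairs
`i < j` of natural numbers with colours `Fin q` has an increasing sequence
`f 0 < f 1 < … < f (m-1) < N` all of whose pairs have the same colour.

Proof (one of many).  Standard: first get a sequence of length `q * m + 1` such that the colour of
`(f i, f j)`, `i < j`, depends only on `i` (greedy choice: keep a set `A` of candidates, take its
minimum `a`, colour the rest by `c a b`, keep the largest colour class, `N = q ^ (q*m+1)` or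
so), then the pigeonhole principle.  (A compactness proof from an infinite Ramsey theorem is also
fine: there is one in `Pool/Agent/Lib/P7f6430/Ramsey.lean`, but the direct proof is short.)

`exists_homog`: graph version for sets, from `ramsey` with two colours, by enumerating `S`.
-/

namespace GemCW

open Finset

namespace RamseyAux

/-- greedy sequence: in every set of `(q+1)^L` numbers there is an increasing sequence of length
`L` such that the colour of a pair depends on the smaller element only -/
theorem greedy {q : ℕ} (c : ℕ → ℕ → Fin q) (L : ℕ) : ∀ A : Finset ℕ, (q + 1) ^ L ≤ A.card →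
    ∃ (f : ℕ → ℕ) (k : ℕ → Fin q), (∀ i < L, f i ∈ A) ∧ (∀ i j, i < j → j < L → f i < f j) ∧
      ∀ i j, i < j → j < L → c (f i) (f j) = k i := by
  induction L with
  | zero =>
    intro A _
    by_cases hq : q = 0
    · subst hq
      exact (c 0 0).elim0
    · exact ⟨id, fun _ => ⟨0, Nat.pos_of_ne_zero hq⟩, by intro i hi; omega, by intro i j _ hj; omega,
        by intro i j _ hj; omega⟩
  | succ L ih =>
    intro A hA
    have hne : A.Nonempty := by
      rw [← card_pos]
      exact lt_of_lt_of_le (by positivity) hA
    set a := A.min' hne with ha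
    -- the rest
    have hrest : (q + 1) ^ L * q ≤ (A.erase a).card := by
      rw [card_erase_of_mem (min'_mem _ _)]
      have h1 : 1 ≤ (q + 1) ^ L := Nat.one_le_pow _ _ (by omega)
      rw [pow_succ] at hA
      have h2 : (q + 1) ^ L * (q + 1) = (q + 1) ^ L * q + (q + 1) ^ L := by ring
      omega
    by_cases hq : q = 0
    · subst hq
      exact (c 0 0).elim0
    obtain ⟨k, -, hk⟩ : ∃ k ∈ (univ : Finset (Fin q)), (q + 1) ^ L ≤
        ((A.erase a).filter (fun b => c a b = k)).card := by
      by_contra hcon
      push Not at hcon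
      have h3 : (A.erase a).card = ∑ k : Fin q, ((A.erase a).filter (fun b => c a b = k)).card :=
        card_eq_sum_card_fiberwise (fun b _ => mem_univ _)
      have h4 : ∑ k : Fin q, ((A.erase a).filter (fun b => c a b = k)).card <
          ∑ k : Fin q, (q + 1) ^ L := by
        apply sum_lt_sum_of_nonempty
        · exact ⟨⟨0, Nat.pos_of_ne_zero hq⟩, mem_univ _⟩
        · intro k _
          exact hcon k (mem_univ _)
      rw [sum_const, card_univ, Fintype.card_fin, smul_eq_mul] at h4
      have h5 : (q + 1) ^ L * q = q * (q + 1) ^ L := by ring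
      omega
    obtain ⟨f, g, hf1, hf2, hf3⟩ := ih _ hk
    refine ⟨fun i => Nat.casesOn i a f, fun i => Nat.casesOn i k g, ?_, ?_, ?_⟩
    · intro i hi
      cases i with
      | zero => exact min'_mem _ _
      | succ i =>
        have := hf1 i (by omega)
        rw [mem_filter, mem_erase] at this
        exact this.1.2
    · intro i j hij hj
      cases j with
      | zero => omega
      | succ j =>
        have h6 := hf1 j (by omega)
        rw [mem_filter, mem_erase] at h6
        cases i with
        | zero => exact lt_of_le_of_ne (min'_le _ _ h6.1.2) (fun h => h6.1.1 h.symm)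
        | succ i => exact hf2 i j (by omega) (by omega)
    · intro i j hij hj
      cases j with
      | zero => omega
      | succ j =>
        have h6 := hf1 j (by omega)
        rw [mem_filter, mem_erase] at h6
        cases i with
        | zero => exact h6.2
        | succ i => exact hf3 i j (by omega) (by omega)

end RamseyAux

theorem ramsey (q m : ℕ) : ∃ N : ℕ, ∀ c : ℕ → ℕ → Fin q, ∃ f : ℕ → ℕ,
    (∀ i j, i < j → j < m → f i < f j) ∧ (∀ i < m, f i < N) ∧
    ∃ k : Fin q, ∀ i j, i < j → j < m → c (f i) (f j) = k := by
  classical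
  refine ⟨(q + 1) ^ (q * m + 1), fun c => ?_⟩
  obtain ⟨f, g, hf1, hf2, hf3⟩ := RamseyAux.greedy c (q * m + 1)
    (range ((q + 1) ^ (q * m + 1))) (by rw [card_range])
  by_cases hq : q = 0
  · subst hq
    exact (c 0 0).elim0
  have : ∃ k ∈ (univ : Finset (Fin q)), m < ((range (q * m + 1)).filter (fun i => g i = k)).card := by
    apply exists_lt_card_fiber_of_mul_lt_card_of_maps_to (fun i _ => mem_univ (g i))
    rw [card_univ, Fintype.card_fin, card_range]
    omega
  obtain ⟨k, -, hk⟩ := this
  set B := (range (q * m + 1)).filter (fun i => g i = k) with hB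
  let e : Fin B.card ≃o B := B.orderIsoOfFin rfl
  have he : ∀ i : Fin B.card, (e i : ℕ) < q * m + 1 ∧ g (e i) = k := by
    have hmem : ∀ x ∈ B, x < q * m + 1 ∧ g x = k := by
      intro x hx
      rw [hB, mem_filter, mem_range] at hx
      exact hx
    exact fun i => hmem _ (e i).2
  have hlt : ∀ i, i < m → i < B.card := fun i hi => hi.trans hk
  refine ⟨fun i => if h : i < B.card then f (e ⟨i, h⟩) else 0, ?_, ?_, k, ?_⟩
  · intro i j hij hj
    simp only
    rw [dif_pos (hlt i (hij.trans hj)), dif_pos (hlt j hj)]
    apply hf2 _ _ _ (he _).1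
    exact e.strictMono hij
  · intro i hi
    simp only
    rw [dif_pos (hlt i hi)]
    exact mem_range.1 (hf1 _ (he _).1)
  · intro i j hij hj
    simp only
    rw [dif_pos (hlt i (hij.trans hj)), dif_pos (hlt j hj)]
    rw [hf3 _ _ (e.strictMono hij) (he _).1, (he _).2]

/-- the same for a colouring by an arbitrary finite type -/
theorem ramsey' (α : Type) [Finite α] (m : ℕ) : ∃ N : ℕ, ∀ c : ℕ → ℕ → α, ∃ f : ℕ → ℕ,
    (∀ i j, i < j → j < m → f i < f j) ∧ (∀ i < m, f i < N) ∧
    ∃ k : α, ∀ i j, i < j → j < m → c (f i) (f j) = k := by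
  have : Fintype α := Fintype.ofFinite α
  let e : α ≃ Fin (Fintype.card α) := Fintype.equivFin α
  obtain ⟨N, hN⟩ := ramsey (Fintype.card α) m
  refine ⟨N, fun c => ?_⟩
  obtain ⟨f, h1, h2, k, h3⟩ := hN (fun i j => e (c i j))
  refine ⟨f, h1, h2, e.symm k, fun i j hij hj => ?_⟩
  rw [← h3 i j hij hj, e.symm_apply_apply]

/-- large sets contain large cliques or large independent sets -/
theorem exists_homog (n : ℕ) : ∃ N : ℕ, ∀ (V : Type) (G : SimpleGraph V) (S : Finset V),
    N ≤ S.card → ∃ T ⊆ S, T.card = n ∧ (Clq G T ∨ Indep G T) := by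
  classical
  obtain ⟨N, hN⟩ := ramsey' Bool n
  refine ⟨N + 1, fun V G S hS => ?_⟩
  let e : Fin S.card ≃ S := S.equivFin.symm
  let s : ℕ → V := fun i => if h : i < S.card then (e ⟨i, h⟩ : V) else (e ⟨0, by omega⟩ : V)
  have hs : ∀ i (h : i < S.card), s i = e ⟨i, h⟩ := fun i h => dif_pos h
  obtain ⟨f, h1, h2, k, h3⟩ := hN (fun i j => decide (G.Adj (s i) (s j)))
  have hinj : ∀ i < n, ∀ j < n, s (f i) = s (f j) → i = j := by
    intro i hi j hj h
    rw [hs _ (by have := h2 i hi; omega), hs _ (by have := h2 j hj; omega)] at h
    have h4 := e.injective (Subtype.ext h)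
    rw [Fin.mk.injEq] at h4
    rcases lt_trichotomy i j with h5 | h5 | h5
    · have := h1 i j h5 hj; omega
    · exact h5
    · have := h1 j i h5 hi; omega
  refine ⟨(range n).image (fun i => s (f i)), ?_, ?_, ?_⟩
  · intro v hv
    rw [mem_image] at hv
    obtain ⟨i, hi, rfl⟩ := hv
    rw [mem_range] at hi
    rw [hs _ (by have := h2 i hi; omega)]
    exact (e _).2
  · rw [card_image_of_injOn, card_range]
    intro i hi j hj h
    exact hinj i (by simpa using hi) j (by simpa using hj) h
  · cases k with
    | true =>
      left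
      intro a ha b hb hab
      rw [mem_image] at ha hb
      obtain ⟨i, hi, rfl⟩ := ha
      obtain ⟨j, hj, rfl⟩ := hb
      rw [mem_range] at hi hj
      rcases lt_trichotomy i j with h5 | h5 | h5
      · exact of_decide_eq_true (h3 i j h5 hj)
      · exact absurd (by rw [h5]) hab
      · exact (of_decide_eq_true (h3 j i h5 hi)).symm
    | false =>
      right
      intro a ha b hb hab
      rw [mem_image] at ha hb
      obtain ⟨i, hi, rfl⟩ := ha
      obtain ⟨j, hj, rfl⟩ := hb
      rw [mem_range] at hi hj
      rcases lt_trichotomy i j with h5 | h5 | h5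
      · exact of_decide_eq_false (h3 i j h5 hj) hab
      · rw [h5] at hab
        exact G.loopless.irrefl _ hab
      · exact of_decide_eq_false (h3 j i h5 hi) hab.symm

end GemCW
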