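import Pool.Agent.Lib.GemCW.CertA

/-!
# Finding a split by closure

Let `A` be a set and suppose `A = A₁ ∪ A₂`, disjoint, nonempty, both of cut rank `≤ W`.  A *guess* is
`(r, R, C)`, `(r', R', C')`, `x₀`.  `seed` is the set containing `x₀`, the `R k` (`k < r`) and the
`C' k` (`k < r'`) lying in `A`; `stepS X` adds to `X` all `x` such that `¬ OK r R C i x` for some `i ∈ X`, and all
`x ∈ A` such that `¬ OK r' R' C' x j` for some `j` with `j ∉ A` or `j ∈ X`.

`valid_sound`: a valid set `X` splits `A` (`cert_sound` twice: for `X` and for `A \ X`; note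
`j ∉ A \ X ↔ j ∉ A ∨ j ∈ X`).
`valid_complete`: for a suitable guess the set `stepS^[n] seed` is valid, `n ≥ |V|`.
Proof.  Take certificates `(r,R,C)` for `A₁` and `(r',R',C')` for `A₂` (`cert_complete`), `x₀ ∈ A₁`.
`seed ⊆ A₁`: `C' k ∉ A₂` and `∈ A`.  If `X ⊆ A₁` then `stepS X ⊆ A₁`: if `i ∈ X ⊆ A₁` and `¬ OK i x` then
`x ∈ A₁` (else `OK`); if `x ∈ A`, `j ∉ A` or `j ∈ X` (so `j ∉ A₂`) and `¬ OK' x j` then `x ∉ A₂`, so
`x ∈ A₁`.  So all iterates are `⊆ A₁`.  The iterates increase, so `stepS^[n] seed` is a fixed point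
(`n ≥ |V|`: as long as it is not fixed the cardinality grows by one).  For the fixed point `X`:
nonempty (`x₀`), `X ⊆ A₁ ⊆ A`, `X ≠ A` (`A₂` nonempty), `OK i j` for `i ∈ X`, `j ∉ X`; `OK' i j` for
`i ∈ A \ X` and `j ∉ A` or `j ∈ X`.
-/

namespace GemCW

open Finset

/-- a guess -/
structure Guess (V : Type*) (W : ℕ) where
  r : ℕ
  r' : ℕ
  R : Fin W → V
  C : Fin W → V
  R' : Fin W → V
  C' : Fin W → V
  x₀ : V

variable {V : Type*} [Fintype V] [DecidableEq V]

open scoped Classical in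
noncomputable def seedS {W : ℕ} (A : Finset V) (g : Guess V W) : Finset V :=
  univ.filter (fun x => x = g.x₀ ∨ (∃ k : Fin W, (k : ℕ) < g.r ∧ g.R k = x) ∨
    (x ∈ A ∧ ∃ k : Fin W, (k : ℕ) < g.r' ∧ g.C' k = x))

open scoped Classical in
noncomputable def stepS (G : SimpleGraph V) {W : ℕ} (A : Finset V) (g : Guess V W)
    (X : Finset V) : Finset V :=
  univ.filter (fun x => x ∈ X ∨ (∃ i ∈ X, ¬ OK G g.r g.R g.C i x) ∨
    (x ∈ A ∧ ∃ j, (j ∉ A ∨ j ∈ X) ∧ ¬ OK G g.r' g.R' g.C' x j))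

/-- validity of a set `X` for a guess -/
def ValidS (G : SimpleGraph V) {W : ℕ} (A : Finset V) (g : Guess V W) (X : Finset V) : Prop :=
  X.Nonempty ∧ X ⊆ A ∧ (∃ x ∈ A, x ∉ X) ∧ NS G g.r g.R g.C ∧ NS G g.r' g.R' g.C' ∧
    (∀ i ∈ X, ∀ j, j ∉ X → OK G g.r g.R g.C i j) ∧
    (∀ i, i ∈ A → i ∉ X → ∀ j, (j ∉ A ∨ j ∈ X) → OK G g.r' g.R' g.C' i j)

theorem valid_sound {G : SimpleGraph V} {W : ℕ} {A X : Finset V} {g : Guess V W}
    (hr : g.r ≤ W) (hr' : g.r' ≤ W) (h : ValidS G A g X) :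
    X.Nonempty ∧ X ⊆ A ∧ (A \ X).Nonempty ∧ cut G X ≤ W ∧ cut G (A \ X) ≤ W := by
  obtain ⟨h1, h2, ⟨x, hxA, hxX⟩, h4, h5, h6, h7⟩ := h
  refine ⟨h1, h2, ⟨x, mem_sdiff.2 ⟨hxA, hxX⟩⟩, (cert_sound hr h4 h6).trans hr,
    (cert_sound hr' h5 ?_).trans hr'⟩
  intro i hi j hj
  rw [mem_sdiff] at hi hj
  refine h7 i hi.1 hi.2 j ?_
  by_cases hA : j ∈ A
  · right
    by_contra hX
    exact hj ⟨hA, hX⟩
  · exact Or.inl hA

omit [Fintype V] in
private theorem iter_fix {f : Finset V → Finset V} (hf : ∀ X, X ⊆ f X) (S : Finset V) (k : ℕ) :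
    f (f^[k] S) = f^[k] S ∨ k + 1 ≤ (f^[k + 1] S).card := by
  have key : ∀ T : Finset V, f T = T ∨ T.card + 1 ≤ (f T).card := by
    intro T
    by_cases h : f T = T
    · exact Or.inl h
    · right
      exact card_lt_card (lt_of_le_of_ne (hf T) (Ne.symm h))
  induction k with
  | zero =>
    rcases key S with h | h
    · exact Or.inl h
    · right
      rw [Function.iterate_succ_apply', Function.iterate_zero, id]
      omega
  | succ k ih =>
    rcases key (f^[k + 1] S) with h | h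
    · exact Or.inl h
    · right
      rcases ih with h1 | h1
      · exfalso
        rw [Function.iterate_succ_apply', h1, h1] at h
        omega
      · rw [Function.iterate_succ_apply']
        omega

theorem valid_complete {G : SimpleGraph V} {W : ℕ} {A A₁ A₂ : Finset V}
    (h₁ : A₁.Nonempty) (h₂ : A₂.Nonempty) (hd : Disjoint A₁ A₂) (hu : A₁ ∪ A₂ = A)
    (c₁ : cut G A₁ ≤ W) (c₂ : cut G A₂ ≤ W) {n : ℕ} (hn : Fintype.card V ≤ n) :
    ∃ g : Guess V W, g.r ≤ W ∧ g.r' ≤ W ∧ ValidS G A g ((stepS G A g)^[n] (seedS A g)) := by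
  classical
  obtain ⟨x₀, hx₀⟩ := h₁
  obtain ⟨y₀, hy₀⟩ := h₂
  have : Nonempty V := ⟨x₀⟩
  obtain ⟨r, hr, R, C, hRC, hns, hok⟩ := cert_complete c₁
  obtain ⟨r', hr', R', C', hRC', hns', hok'⟩ := cert_complete c₂
  have hA : ∀ x, x ∈ A ↔ x ∈ A₁ ∨ x ∈ A₂ := by
    intro x; rw [← hu, mem_union]
  have hdj : ∀ x, x ∈ A₁ → x ∉ A₂ := fun x hx hx' => disjoint_left.1 hd hx hx'
  set g : Guess V W := ⟨r, r', R, C, R', C', x₀⟩ with hg
  have hmono : ∀ X, X ⊆ stepS G A g X := by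
    intro X x hx
    rw [stepS, mem_filter]
    exact ⟨mem_univ _, Or.inl hx⟩
  have hstep : ∀ X, X ⊆ A₁ → stepS G A g X ⊆ A₁ := by
    intro X hX x hx
    rw [stepS, mem_filter] at hx
    rcases hx.2 with hx | ⟨i, hi, hx⟩ | ⟨hxA, j, hj, hx⟩
    · exact hX hx
    · by_contra hcon
      exact hx (hok i (hX hi) x hcon)
    · rcases (hA x).1 hxA with h | h
      · exact h
      · exfalso
        apply hx
        refine hok' x h j ?_
        rcases hj with hj | hj
        · exact fun h' => hj ((hA j).2 (Or.inr h'))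
        · exact hdj j (hX hj)
  have hseed : seedS A g ⊆ A₁ := by
    intro x hx
    rw [seedS, mem_filter] at hx
    rcases hx.2 with rfl | ⟨k, hk, rfl⟩ | ⟨hxA, k, hk, rfl⟩
    · exact hx₀
    · exact (hRC k hk).1
    · rcases (hA _).1 hxA with h | h
      · exact h
      · exact absurd h (hRC' k hk).2
  have hit : ∀ m, (stepS G A g)^[m] (seedS A g) ⊆ A₁ := by
    intro m
    induction m with
    | zero => exact hseed
    | succ m ih =>
      rw [Function.iterate_succ_apply']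
      exact hstep _ ih
  have hit' : ∀ m, seedS A g ⊆ (stepS G A g)^[m] (seedS A g) := by
    intro m
    induction m with
    | zero => exact Subset.refl _
    | succ m ih =>
      rw [Function.iterate_succ_apply']
      exact ih.trans (hmono _)
  have hfix : stepS G A g ((stepS G A g)^[n] (seedS A g)) = (stepS G A g)^[n] (seedS A g) := by
    rcases iter_fix hmono (seedS A g) n with h | h
    · exact h
    · exfalso
      have := card_le_univ ((stepS G A g)^[n + 1] (seedS A g))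
      omega
  set X := (stepS G A g)^[n] (seedS A g) with hX
  have hXA : X ⊆ A₁ := hit n
  have hx₀X : x₀ ∈ X := by
    refine hit' n ?_
    rw [seedS, mem_filter]
    exact ⟨mem_univ _, Or.inl rfl⟩
  refine ⟨g, hr, hr', ⟨x₀, hx₀X⟩, ?_, ?_, hns, hns', ?_, ?_⟩
  · intro x hx
    exact (hA x).2 (Or.inl (hXA hx))
  · exact ⟨y₀, (hA y₀).2 (Or.inr hy₀), fun h => hdj y₀ (hXA h) hy₀⟩
  · intro i hi j hj
    by_contra hcon
    apply hj
    change j ∈ X
    rw [← hfix, stepS, mem_filter]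
    exact ⟨mem_univ _, Or.inr (Or.inl ⟨i, hi, hcon⟩)⟩
  · intro i hiA hiX j hj
    by_contra hcon
    apply hiX
    change i ∈ X
    rw [← hfix, stepS, mem_filter]
    exact ⟨mem_univ _, Or.inr (Or.inr ⟨hiA, j, hj, hcon⟩)⟩

end GemCW
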