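import Pool.Agent.Lib.GemCW.Merge

/-!
# The merge step, towards a partition of the union

The converse of `merge_fwd`: from the numbers `m S1 S2` and partitions of `X` and `Y` with matching
codes we obtain a partition of the union, by pairing the classes.
-/

namespace GemCW

open Finset

section lift

variable {α β γ δ : Type*}

theorem peel (g : α → γ) (e : γ) [DecidablePred (· ≠ e)] (a0 : α) (h0 : g a0 = e)
    (Z : Multiset α) (c : γ) (M : Multiset γ) (h : Z.map g = (c ::ₘ M).filter (· ≠ e)) :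
    ∃ (a : α) (Z' : Multiset α) (j : ℕ), g a = c ∧ Z'.map g = M.filter (· ≠ e) ∧
      a ::ₘ Z' = Z + Multiset.replicate j a0 := by
  by_cases hc : c = e
  · refine ⟨a0, Z, 1, by rw [h0, hc], ?_, ?_⟩
    · rw [h, Multiset.filter_cons_of_neg]
      simpa using hc
    · rw [Multiset.replicate_one, add_comm, Multiset.singleton_add]
  · rw [Multiset.filter_cons_of_pos _ (by simpa using hc)] at h
    have h1 : c ∈ Z.map g := by
      rw [h]
      exact Multiset.mem_cons_self _ _
    obtain ⟨a, ha, rfl⟩ := Multiset.mem_map.1 h1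
    obtain ⟨Z', rfl⟩ := Multiset.exists_cons_of_mem ha
    rw [Multiset.map_cons] at h
    exact ⟨a, Z', 0, rfl, Multiset.cons_inj_right _ |>.1 h, by simp⟩

theorem exists_lift (g1 : α → γ) (g2 : β → δ) (e1 : γ) (e2 : δ) [DecidablePred (· ≠ e1)]
    [DecidablePred (· ≠ e2)] (a0 : α) (b0 : β) (h1 : g1 a0 = e1) (h2 : g2 b0 = e2)
    (P : Multiset (γ × δ)) : ∀ (Z1 : Multiset α) (Z2 : Multiset β),
      Z1.map g1 = (P.map Prod.fst).filter (· ≠ e1) →
      Z2.map g2 = (P.map Prod.snd).filter (· ≠ e2) →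
      ∃ R : Multiset (α × β), R.map (fun r => (g1 r.1, g2 r.2)) = P ∧
        (∃ k, R.map Prod.fst = Z1 + Multiset.replicate k a0) ∧
        (∃ k, R.map Prod.snd = Z2 + Multiset.replicate k b0) := by
  induction P using Multiset.induction_on with
  | empty =>
    intro Z1 Z2 hZ1 hZ2
    rw [Multiset.map_zero, Multiset.filter_zero, Multiset.map_eq_zero] at hZ1 hZ2
    subst hZ1
    subst hZ2
    exact ⟨0, by simp, ⟨0, by simp⟩, ⟨0, by simp⟩⟩
  | cons p P ih =>
    intro Z1 Z2 hZ1 hZ2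
    rw [Multiset.map_cons] at hZ1 hZ2
    obtain ⟨a, Z1', j, ha, hZ1', hj⟩ := peel g1 e1 a0 h1 Z1 _ _ hZ1
    obtain ⟨b, Z2', j', hb, hZ2', hj'⟩ := peel g2 e2 b0 h2 Z2 _ _ hZ2
    obtain ⟨R, hR, ⟨k, hk⟩, ⟨k', hk'⟩⟩ := ih Z1' Z2' hZ1' hZ2'
    refine ⟨(a, b) ::ₘ R, ?_, ⟨j + k, ?_⟩, ⟨j' + k', ?_⟩⟩
    · rw [Multiset.map_cons, hR]
      simp only [ha, hb]
    · rw [Multiset.map_cons, hk, ← Multiset.cons_add, hj, Multiset.replicate_add, add_assoc]
    · rw [Multiset.map_cons, hk', ← Multiset.cons_add, hj', Multiset.replicate_add, add_assoc]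

end lift

section pairs

variable {ι : Type*} [Fintype ι] [DecidableEq ι]

/-- the multiset of pairs with multiplicities `m` -/
def PP (m : ι → ι → ℕ) : Multiset (ι × ι) := ∑ p : ι × ι, Multiset.replicate (m p.1 p.2) p

omit [DecidableEq ι] in
theorem map_PP {β : Type*} (m : ι → ι → ℕ) (f : ι × ι → β) :
    (PP m).map f = ∑ p : ι × ι, Multiset.replicate (m p.1 p.2) (f p) := by
  unfold PP
  have h : (∑ p : ι × ι, Multiset.replicate (m p.1 p.2) p).map f =
      ∑ p : ι × ι, (Multiset.replicate (m p.1 p.2) p).map f :=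
    map_sum (Multiset.mapAddMonoidHom f) (fun p : ι × ι => Multiset.replicate (m p.1 p.2) p) univ
  rw [h]
  simp only [Multiset.map_replicate]

omit [DecidableEq ι] in
theorem sum_map_PP (m : ι → ι → ℕ) (f : ι × ι → ℕ) :
    ((PP m).map f).sum = ∑ S1, ∑ S2, m S1 S2 * f (S1, S2) := by
  rw [map_PP]
  have h : (∑ p : ι × ι, Multiset.replicate (m p.1 p.2) (f p)).sum =
      ∑ p : ι × ι, (Multiset.replicate (m p.1 p.2) (f p)).sum :=
    map_sum (Multiset.sumAddMonoidHom) (fun p : ι × ι => Multiset.replicate (m p.1 p.2) (f p)) univ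
  rw [h]
  simp only [Multiset.sum_replicate, smul_eq_mul, Fintype.sum_prod_type]

omit [DecidableEq ι] in
theorem mem_PP {m : ι → ι → ℕ} {p : ι × ι} (h : p ∈ PP m) : m p.1 p.2 ≠ 0 := by
  unfold PP at h
  rw [Multiset.mem_sum] at h
  obtain ⟨q, _, hq⟩ := h
  rw [Multiset.mem_replicate] at hq
  obtain ⟨h1, rfl⟩ := hq
  exact h1

theorem count_fst_PP (m : ι → ι → ℕ) (S : ι) :
    ((PP m).map Prod.fst).count S = ∑ S2, m S S2 := by
  rw [map_PP, Multiset.count_sum']
  simp only [Multiset.count_replicate, Fintype.sum_prod_type]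
  rw [Finset.sum_comm]
  simp

theorem count_snd_PP (m : ι → ι → ℕ) (S : ι) :
    ((PP m).map Prod.snd).count S = ∑ S1, m S1 S := by
  rw [map_PP, Multiset.count_sum']
  simp only [Multiset.count_replicate, Fintype.sum_prod_type]
  simp

end pairs

variable {V : Type*} [DecidableEq V]

theorem map_types {b Q : ℕ} {H : SimpleGraph V} {X : Finset V} (hX : X.card < b)
    (τ : V → Fin Q) {Z : Multiset (Finset V)} (hZ : IsPart H X Z) (c : Finset (Fin Q) → ℕ)
    (hc : ∀ S, c S < b) (hp : pval b τ Z = ∑ S, if S = ∅ then 0 else c S * wt b S) (S : Finset (Fin Q)) :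
    (Z.map (fun K => K.image τ)).count S = if S = ∅ then 0 else c S := by
  have hb : 0 < b := by omega
  rw [pval_eq] at hp
  have h1 : (∑ S, if S = ∅ then 0 else c S * wt b S) =
      ∑ S, (if S = ∅ then 0 else c S) * wt b S := by
    apply Finset.sum_congr rfl
    intro S _
    split_ifs
    · rw [zero_mul]
    · rfl
  rw [h1] at hp
  have h2 := digits_unique (b := b) (fun S => by
    have h3 := Multiset.count_le_card S (Z.map (fun K => K.image τ))
    rw [Multiset.card_map] at h3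
    have h4 := hZ.card_le
    omega) (fun S => by
    split_ifs
    · exact hb
    · exact hc S) hp
  exact congrFun h2 S

theorem merge_rev (H : SimpleGraph V) {A X Y : Finset V} (hXY : Disjoint X Y) (hA : X ∪ Y = A)
    {b : ℕ} (hb : A.card < b) {Q : ℕ} (τ τ1 τ2 : V → Fin Q)
    (h1 : ∀ u ∈ X, ∀ u' ∈ X, τ1 u = τ1 u' →
      (∀ v ∈ Y, H.Adj u v ↔ H.Adj u' v) ∧ τ u = τ u')
    (h2 : ∀ v ∈ Y, ∀ v' ∈ Y, τ2 v = τ2 v' →
      (∀ u ∈ X, H.Adj u v ↔ H.Adj u v') ∧ τ v = τ v') (i : ℕ) 
    (h : ∃ m : Finset (Fin Q) → Finset (Fin Q) → ℕ,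
      (∑ S1, ∑ S2, m S1 S2 < b) ∧
      (∀ S1 S2, m S1 S2 ≠ 0 → (∀ u ∈ X, ∀ v ∈ Y, τ1 u ∈ S1 → τ2 v ∈ S2 → ¬ H.Adj u v) ∧
        ¬ (S1 = ∅ ∧ S2 = ∅)) ∧
      TS H b τ1 X (∑ S1, ∑ S2, if S1 = ∅ then 0 else m S1 S2 * wt b S1) ∧
      TS H b τ2 Y (∑ S1, ∑ S2, if S2 = ∅ then 0 else m S1 S2 * wt b S2) ∧
      i = ∑ S1, ∑ S2, m S1 S2 * wt b ((X.filter (fun u => τ1 u ∈ S1)).image τ ∪
        (Y.filter (fun u => τ2 u ∈ S2)).image τ)) :
    TS H b τ A i := by
  obtain ⟨m, hm, hadj, ⟨Z1, hZ1, hp1⟩, ⟨Z2, hZ2, hp2⟩, rfl⟩ := h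
  have hXA : X.card < b := lt_of_le_of_lt (card_le_card (by rw [← hA]; exact subset_union_left)) hb
  have hYA : Y.card < b :=
    lt_of_le_of_lt (card_le_card (by rw [← hA]; exact subset_union_right)) hb
  have hc1 : ∀ S, ∑ S2, m S S2 < b := fun S =>
    lt_of_le_of_lt (Finset.single_le_sum (f := fun S => ∑ S2, m S S2) (fun _ _ => Nat.zero_le _)
      (mem_univ S)) hm
  have hc2 : ∀ S, ∑ S1, m S1 S < b := fun S => by
    rw [Finset.sum_comm] at hm
    exact lt_of_le_of_lt (Finset.single_le_sum (f := fun S => ∑ S1, m S1 S)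
      (fun _ _ => Nat.zero_le _) (mem_univ S)) hm
  have e1 : Z1.map (fun K => K.image τ1) = ((PP m).map Prod.fst).filter (· ≠ ∅) := by
    ext S
    rw [map_types hXA τ1 hZ1 (fun S => ∑ S2, m S S2) hc1 (by
      rw [hp1]
      apply Finset.sum_congr rfl
      intro S _
      split_ifs
      · simp
      · rw [Finset.sum_mul]), Multiset.count_filter, count_fst_PP]
    by_cases hS : S = ∅ <;> simp [hS]
  have e2 : Z2.map (fun K => K.image τ2) = ((PP m).map Prod.snd).filter (· ≠ ∅) := by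
    ext S
    rw [map_types hYA τ2 hZ2 (fun S => ∑ S1, m S1 S) hc2 (by
      rw [hp2, Finset.sum_comm]
      apply Finset.sum_congr rfl
      intro S _
      split_ifs
      · simp
      · rw [Finset.sum_mul]), Multiset.count_filter, count_snd_PP]
    by_cases hS : S = ∅ <;> simp [hS]
  obtain ⟨R, hR, ⟨k1, hk1⟩, ⟨k2, hk2⟩⟩ := exists_lift (fun K : Finset V => K.image τ1)
    (fun K : Finset V => K.image τ2) ∅ ∅ ∅ ∅ (image_empty _) (image_empty _) (PP m) Z1 Z2 e1 e2
  have hR1 : ∀ r ∈ R, r.1 ⊆ X ∧ Indep H r.1 := by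
    intro r hr
    have h3 : r.1 ∈ R.map Prod.fst := Multiset.mem_map_of_mem _ hr
    rw [hk1, Multiset.mem_add] at h3
    rcases h3 with h3 | h3
    · exact ⟨hZ1.sub h3, (hZ1.1 _ h3).2⟩
    · rw [Multiset.eq_of_mem_replicate h3]
      exact ⟨empty_subset _, by simp [Indep]⟩
  have hR2 : ∀ r ∈ R, r.2 ⊆ Y ∧ Indep H r.2 := by
    intro r hr
    have h3 : r.2 ∈ R.map Prod.snd := Multiset.mem_map_of_mem _ hr
    rw [hk2, Multiset.mem_add] at h3
    rcases h3 with h3 | h3
    · exact ⟨hZ2.sub h3, (hZ2.1 _ h3).2⟩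
    · rw [Multiset.eq_of_mem_replicate h3]
      exact ⟨empty_subset _, by simp [Indep]⟩
  have hRm : ∀ r ∈ R, m (r.1.image τ1) (r.2.image τ2) ≠ 0 := by
    intro r hr
    have h3 : (r.1.image τ1, r.2.image τ2) ∈ PP m := by
      rw [← hR]
      exact Multiset.mem_map_of_mem (fun r : Finset V × Finset V => (r.1.image τ1, r.2.image τ2)) hr
    exact mem_PP h3
  refine ⟨R.map (fun r => r.1 ∪ r.2), ⟨?_, ?_⟩, ?_⟩
  · intro K hK
    obtain ⟨r, hr, rfl⟩ := Multiset.mem_map.1 hK
    obtain ⟨h3, h4⟩ := hadj _ _ (hRm r hr)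
    constructor
    · rw [Finset.union_nonempty]
      by_contra hcon
      push Not at hcon
      apply h4
      rw [hcon.1, hcon.2]
      simp
    · intro u hu v hv
      have hcross : ∀ u ∈ r.1, ∀ v ∈ r.2, ¬ H.Adj u v := fun u hu v hv =>
        h3 u ((hR1 r hr).1 hu) v ((hR2 r hr).1 hv) (mem_image_of_mem _ hu) (mem_image_of_mem _ hv)
      rcases mem_union.1 hu with hu | hu <;> rcases mem_union.1 hv with hv | hv
      · exact (hR1 r hr).2 u hu v hv
      · exact hcross u hu v hv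
      · exact fun huv => hcross v hv u hu huv.symm
      · exact (hR2 r hr).2 u hu v hv
  · rw [Multiset.map_map]
    have h5 : R.map (Finset.val ∘ fun r => r.1 ∪ r.2) = R.map (fun r => r.1.val + r.2.val) := by
      apply Multiset.map_congr rfl
      intro r hr
      have hd : Disjoint r.1 r.2 := disjoint_of_subset_left (hR1 r hr).1
        (disjoint_of_subset_right (hR2 r hr).1 hXY)
      simp only [Function.comp]
      rw [← Finset.disjUnion_eq_union _ _ hd]
      rfl
    rw [h5, Multiset.sum_map_add]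
    have h6 : (R.map (fun r => r.1.val)).sum = X.val := by
      have : R.map (fun r => r.1.val) = (R.map Prod.fst).map Finset.val := by
        rw [Multiset.map_map]
        rfl
      rw [this, hk1, Multiset.map_add, Multiset.sum_add, hZ1.2, Multiset.map_replicate,
        Multiset.sum_replicate]
      simp
    have h7 : (R.map (fun r => r.2.val)).sum = Y.val := by
      have : R.map (fun r => r.2.val) = (R.map Prod.snd).map Finset.val := by
        rw [Multiset.map_map]
        rfl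
      rw [this, hk2, Multiset.map_add, Multiset.sum_add, hZ2.2, Multiset.map_replicate,
        Multiset.sum_replicate]
      simp
    rw [h6, h7, ← hA, ← Finset.disjUnion_eq_union _ _ hXY]
    rfl
  · unfold pval
    rw [Multiset.map_map]
    have h5 : R.map ((fun K => wt b (K.image τ)) ∘ fun r => r.1 ∪ r.2) =
        (R.map (fun r => (r.1.image τ1, r.2.image τ2))).map
          (fun p => wt b ((X.filter (fun u => τ1 u ∈ p.1)).image τ ∪
            (Y.filter (fun u => τ2 u ∈ p.2)).image τ)) := by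
      rw [Multiset.map_map]
      apply Multiset.map_congr rfl
      intro r hr
      simp only [Function.comp]
      congr 1
      rw [image_union]
      congr 1
      · ext x
        simp only [mem_image, mem_filter]
        constructor
        · rintro ⟨u, hu, rfl⟩
          exact ⟨u, ⟨(hR1 r hr).1 hu, u, hu, rfl⟩, rfl⟩
        · rintro ⟨u, ⟨huX, u', hu', he⟩, rfl⟩
          exact ⟨u', hu', (h1 u' ((hR1 r hr).1 hu') u huX he).2⟩
      · ext x
        simp only [mem_image, mem_filter]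
        constructor
        · rintro ⟨u, hu, rfl⟩
          exact ⟨u, ⟨(hR2 r hr).1 hu, u, hu, rfl⟩, rfl⟩
        · rintro ⟨u, ⟨huX, u', hu', he⟩, rfl⟩
          exact ⟨u', hu', (h2 u' ((hR2 r hr).1 hu') u huX he).2⟩
    rw [h5, hR, sum_map_PP]

end GemCW
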