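import Pool.Agent.Lib.GemCW.MergeF
import Pool.Agent.Lib.GemCW.MergeR

/-!
# The merge step
-/

namespace GemCW

open Finset

variable {V : Type*} [DecidableEq V]

theorem merge_iff (H : SimpleGraph V) {A X Y : Finset V} (hXY : Disjoint X Y) (hA : X ∪ Y = A)
    {b : ℕ} (hb : A.card < b) {Q : ℕ} (τ τ1 τ2 : V → Fin Q)
    (h1 : ∀ u ∈ X, ∀ u' ∈ X, τ1 u = τ1 u' →
      (∀ v ∈ Y, H.Adj u v ↔ H.Adj u' v) ∧ τ u = τ u')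
    (h2 : ∀ v ∈ Y, ∀ v' ∈ Y, τ2 v = τ2 v' →
      (∀ u ∈ X, H.Adj u v ↔ H.Adj u v') ∧ τ v = τ v') (i : ℕ) :
    TS H b τ A i ↔ ∃ m : Finset (Fin Q) → Finset (Fin Q) → ℕ,
      (∑ S1, ∑ S2, m S1 S2 < b) ∧
      (∀ S1 S2, m S1 S2 ≠ 0 → (∀ u ∈ X, ∀ v ∈ Y, τ1 u ∈ S1 → τ2 v ∈ S2 → ¬ H.Adj u v) ∧
        ¬ (S1 = ∅ ∧ S2 = ∅)) ∧
      TS H b τ1 X (∑ S1, ∑ S2, if S1 = ∅ then 0 else m S1 S2 * wt b S1) ∧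
      TS H b τ2 Y (∑ S1, ∑ S2, if S2 = ∅ then 0 else m S1 S2 * wt b S2) ∧
      i = ∑ S1, ∑ S2, m S1 S2 * wt b ((X.filter (fun u => τ1 u ∈ S1)).image τ ∪
        (Y.filter (fun u => τ2 u ∈ S2)).image τ) :=
  ⟨merge_fwd H hXY hA hb τ τ1 τ2 h1 h2 i, merge_rev H hXY hA hb τ τ1 τ2 h1 h2 i⟩

end GemCW
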