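import Pool.Agent.Lib.GemCW.PTb
import Pool.Agent.Lib.GemCW.MergeI
import Pool.Agent.Lib.GemCW.CertB

/-!
# The algorithm: definitions

Graphs on `{0,…,n-1}` are given by the list `h` of the `n²` bits of the adjacency matrix.
`hb n h i j`: adjacency in the input graph `H = HG n h`; `gb n h i j`: adjacency in the complement
`CG n h`.  Sets of vertices are bit lists `A` of length `n` (`toS n A` the corresponding finset).
`W` is a constant (the bound for the cut rank), `Q` a constant (number of types), `N = 2 ^ Q`.
-/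

namespace GemCW

open Finset

/-! ### Graphs -/

def hb (n : ℕ) (h : List Bool) (i j : ℕ) : Bool :=
  !(decide (i = j)) && (h.getD (i * n + j) false && h.getD (j * n + i) false)

def gb (n : ℕ) (h : List Bool) (i j : ℕ) : Bool := !(decide (i = j)) && !(hb n h i j)

theorem hb_symm (n : ℕ) (h : List Bool) (i j : ℕ) : hb n h i j = hb n h j i := by
  unfold hb
  rw [Bool.and_comm (h.getD (i * n + j) false)]
  congr 2
  exact decide_eq_decide.2 eq_comm

theorem hb_irrefl (n : ℕ) (h : List Bool) (i : ℕ) : hb n h i i = false := by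
  simp [hb]

/-- the input graph -/
def HG (n : ℕ) (h : List Bool) : SimpleGraph (Fin n) where
  Adj i j := hb n h i j = true
  symm := ⟨fun i j hij => by rw [hb_symm]; exact hij⟩
  loopless := ⟨fun i hi => by simp [hb_irrefl] at hi⟩

/-- its complement -/
def CG (n : ℕ) (h : List Bool) : SimpleGraph (Fin n) := (HG n h)ᶜ

@[simp] theorem HG_adj {n : ℕ} {h : List Bool} {i j : Fin n} :
    (HG n h).Adj i j ↔ hb n h i j = true := Iff.rfl

theorem CG_adj {n : ℕ} {h : List Bool} {i j : Fin n} :
    (CG n h).Adj i j ↔ gb n h i j = true := by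
  simp [CG, gb, SimpleGraph.compl_adj, Fin.ext_iff]

/-- the set of a bit list -/
def toS (n : ℕ) (A : List Bool) : Finset (Fin n) :=
  univ.filter (fun i => A.getD i false = true)

@[simp] theorem mem_toS {n : ℕ} {A : List Bool} {i : Fin n} :
    i ∈ toS n A ↔ A.getD i false = true := by
  simp [toS]

/-! ### The split -/

/-- number of guesses -/
def GN (W n : ℕ) : ℕ := (W + 1) * (W + 1) * n ^ (4 * W + 1)

/-- value at row `i` of a combination of columns `dg n q (off + k)` -/
def linB (W n : ℕ) (h : List Bool) (q off : ℕ) (lam : Fin W → Bool) (i : ℕ) : Bool :=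
  decide ((∑ k : Fin W, if (lam k && gb n h i (dg n q (off + k))) = true then 1 else 0) % 2 = 1)

noncomputable def okB (W n : ℕ) (h : List Bool) (q r offR offC i j : ℕ) : Bool :=
  exF (fun lam : Fin W → Bool =>
    allF (fun k : Fin W => !(lam k) || decide ((k : ℕ) < r)) &&
    (allF (fun k : Fin W => !(decide ((k : ℕ) < r)) ||
      (linB W n h q offC lam (dg n q (offR + k)) == gb n h (dg n q (offR + k)) j)) &&
    (linB W n h q offC lam i == gb n h i j)))

noncomputable def nsB (W n : ℕ) (h : List Bool) (q r offR offC : ℕ) : Bool :=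
  allF (fun lam : Fin W → Bool =>
    !(allF (fun k : Fin W => !(lam k) || decide ((k : ℕ) < r))) ||
    (!(allF (fun k : Fin W => !(decide ((k : ℕ) < r)) ||
      !(linB W n h q offC lam (dg n q (offR + k))))) ||
    allF (fun k : Fin W => !(lam k))))

/-- the parts of a guess -/
def gR (W g : ℕ) : ℕ := g % (W + 1)
def gR' (W g : ℕ) : ℕ := g / (W + 1) % (W + 1)
def gQ (W g : ℕ) : ℕ := g / (W + 1) / (W + 1)

noncomputable def seedB (W n : ℕ) (A : List Bool) (g x : ℕ) : Bool :=
  decide (x = dg n (gQ W g) (4 * W)) ||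
  (exF (fun k : Fin W => decide ((k : ℕ) < gR W g) && decide (dg n (gQ W g) k = x)) ||
  (A.getD x false && exF (fun k : Fin W => decide ((k : ℕ) < gR' W g) &&
    decide (dg n (gQ W g) (3 * W + k) = x))))

noncomputable def stepB (W n : ℕ) (h A : List Bool) (g : ℕ) (X : List Bool) : List Bool :=
  tab n (fun x => X.getD x false ||
    (exB n (fun i => X.getD i false && !(okB W n h (gQ W g) (gR W g) 0 W i x)) ||
    (A.getD x false && exB n (fun j => (!(A.getD j false) || X.getD j false) &&
      !(okB W n h (gQ W g) (gR' W g) (2 * W) (3 * W) x j)))))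

/-- the closure -/
noncomputable def cloB (W n : ℕ) (h A : List Bool) (g : ℕ) : List Bool :=
  iterS (tab n (seedB W n A g)) (fun _ X => stepB W n h A g X) n

/-- validity of a set for a guess -/
noncomputable def validX (W n : ℕ) (h A : List Bool) (g : ℕ) (X : List Bool) : Bool :=
  exB n (fun x => X.getD x false) && (allB n (fun x => !(X.getD x false) || A.getD x false) &&
  (exB n (fun x => A.getD x false && !(X.getD x false)) &&
  (nsB W n h (gQ W g) (gR W g) 0 W && (nsB W n h (gQ W g) (gR' W g) (2 * W) (3 * W) &&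
  (allB n (fun i => allB n (fun j => !(X.getD i false) || (X.getD j false ||
    okB W n h (gQ W g) (gR W g) 0 W i j))) &&
  allB n (fun i => allB n (fun j => !(A.getD i false && !(X.getD i false)) ||
    (!(!(A.getD j false) || X.getD j false) ||
    okB W n h (gQ W g) (gR' W g) (2 * W) (3 * W) i j))))))))

noncomputable def validB (W n : ℕ) (h A : List Bool) (g : ℕ) : Bool :=
  validX W n h A g (cloB W n h A g)

/-- the split of `A`: the closure of the first valid guess -/
noncomputable def splitB (W n : ℕ) (h A : List Bool) : List Bool :=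
  cloB W n h A (mu (GN W n) (fun g => validB W n h A g))

/-! ### The refining sequence of partitions -/

/-- the first vertex whose class is not a singleton (or `n`) -/
def uB (n : ℕ) (E : List Bool) : ℕ :=
  mu n (fun u => exB n (fun v => !(decide (v = u)) && E.getD (u * n + v) false))

/-- its class -/
def clsL (n : ℕ) (E : List Bool) : List Bool :=
  tab n (fun v => E.getD (uB n E * n + v) false)

/-- one refinement -/
noncomputable def stepE (W n : ℕ) (h E : List Bool) : List Bool :=
  tab (n * n) (fun p => E.getD p false && (!((clsL n E).getD (p / n) false) ||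
    ((splitB W n h (clsL n E)).getD (p / n) false ==
      (splitB W n h (clsL n E)).getD (p % n) false)))

/-- the partition after `t` refinements -/
noncomputable def EB (W n : ℕ) (h : List Bool) (t : ℕ) : List Bool :=
  iterS (tab (n * n) (fun _ => true)) (fun _ E => stepE W n h E) t

/-! ### Types -/

def sameB (n : ℕ) (h A : List Bool) (u v : ℕ) : Bool :=
  allB n (fun z => A.getD z false || (hb n h u z == hb n h v z))

/-- the first vertex of the same type -/
def firstB (n : ℕ) (h A : List Bool) (u : ℕ) : ℕ :=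
  mu n (fun v => A.getD v false && sameB n h A v u)

/-- the number of the type of `u` -/
def tauB (n : ℕ) (h A : List Bool) (u : ℕ) : ℕ :=
  cnt (firstB n h A u) (fun v => A.getD v false && decide (firstB n h A v = v))

/-- the type of `u` lies in `S` -/
noncomputable def tinB {Q : ℕ} (S : Finset (Fin Q)) (n : ℕ) (h A : List Bool) (u : ℕ) : Bool :=
  exF (fun t : Fin Q => decide (t ∈ S) && decide (tauB n h A u = t))

/-! ### Tables -/

noncomputable def compatB {Q : ℕ} (S1 S2 : Finset (Fin Q)) (n : ℕ) (h X Y : List Bool) : Bool :=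
  allB n (fun u => allB n (fun v => !(X.getD u false) || (!(Y.getD v false) ||
    (!(tinB S1 n h X u) || (!(tinB S2 n h Y v) || !(hb n h u v))))))

/-- `FF S1 S2 = S` -/
noncomputable def ffB {Q : ℕ} (S1 S2 S : Finset (Fin Q)) (n : ℕ) (h A X Y : List Bool) : Bool :=
  allF (fun t : Fin Q => decide (t ∈ S) == exB n (fun u =>
    ((X.getD u false && tinB S1 n h X u) || (Y.getD u false && tinB S2 n h Y u)) &&
      decide (tauB n h A u = t)))

/-- the number `m S1 S2` coded in `μ` -/
noncomputable def mB (n : ℕ) {Q : ℕ} (μ : ℕ) (S1 S2 : Finset (Fin Q)) : ℕ :=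
  dg (n + 1) μ ((pos Q S1 : ℕ) * 2 ^ Q + (pos Q S2 : ℕ))

/-- merge formula: `Wl` is a table, `x1 * L`, `x2 * L` are offsets (`L = (n+1) ^ 2 ^ Q`) -/
noncomputable def mergeB (Q n : ℕ) (h A X Y Wl : List Bool) (x1 x2 i : ℕ) : Bool :=
  exB ((n + 1) ^ (2 ^ Q * 2 ^ Q)) (fun μ =>
    decide (∑ S1 : Finset (Fin Q), ∑ S2 : Finset (Fin Q), mB n μ S1 S2 ≤ n) &&
    (allF (fun S : Finset (Fin Q) × Finset (Fin Q) => decide (mB n μ S.1 S.2 = 0) ||
      (compatB S.1 S.2 n h X Y && !(decide (S.1 = ∅) && decide (S.2 = ∅)))) &&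
    (Wl.getD (x1 * (n + 1) ^ 2 ^ Q + ∑ S1 : Finset (Fin Q), ∑ S2 : Finset (Fin Q),
      if S1 = ∅ then 0 else mB n μ S1 S2 * wt (n + 1) S1) false &&
    (Wl.getD (x2 * (n + 1) ^ 2 ^ Q + ∑ S1 : Finset (Fin Q), ∑ S2 : Finset (Fin Q),
      if S2 = ∅ then 0 else mB n μ S1 S2 * wt (n + 1) S2) false &&
    decide (i = ∑ S1 : Finset (Fin Q), ∑ S2 : Finset (Fin Q), ∑ S : Finset (Fin Q),
      if ffB S1 S2 S n h A X Y = true then mB n μ S1 S2 * wt (n + 1) S else 0)))))

/-- tables of singletons -/
noncomputable def W0 (Q n : ℕ) : List Bool :=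
  tab (n * (n + 1) ^ 2 ^ Q) (fun p => exF (fun t : Fin Q => decide ((t : ℕ) = 0) &&
    decide (p % (n + 1) ^ 2 ^ Q = wt (n + 1) ({t} : Finset (Fin Q)))))

/-- the complement of `X` in `A` -/
def diffB (n : ℕ) (A X : List Bool) : List Bool :=
  tab n (fun v => A.getD v false && !(X.getD v false))

/-- one step up: from the tables of the partition `E'` to those of the partition `E` before -/
noncomputable def stepW (W Q n : ℕ) (h E Wl : List Bool) : List Bool :=
  tab (n * (n + 1) ^ 2 ^ Q) (fun p =>
    if (clsL n E).getD (p / (n + 1) ^ 2 ^ Q) false = true then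
      exB n (fun x1 => (splitB W n h (clsL n E)).getD x1 false && exB n (fun x2 =>
        (diffB n (clsL n E) (splitB W n h (clsL n E))).getD x2 false &&
        mergeB Q n h (clsL n E) (splitB W n h (clsL n E))
          (diffB n (clsL n E) (splitB W n h (clsL n E))) Wl x1 x2 (p % (n + 1) ^ 2 ^ Q)))
    else Wl.getD p false)

/-- the tables of the partition after `n*n - s` refinements -/
noncomputable def WB (W Q n : ℕ) (h : List Bool) (s : ℕ) : List Bool :=
  iterS (W0 Q n) (fun k Wl => stepW W Q n h (EB W n h (n * n - k - 1)) Wl) s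

/-- the decision -/
noncomputable def colB (W Q n : ℕ) (h : List Bool) (k : ℕ) : Bool :=
  decide (n = 0) || exB ((n + 1) ^ 2 ^ Q) (fun i => (WB W Q n h (n * n)).getD i false &&
    decide (∑ j : Fin (2 ^ Q), dg (n + 1) i j ≤ k))

/-! ### The class -/

def clsB (n : ℕ) (h : List Bool) : Bool :=
  allB n (fun a => allB n (fun b => allB n (fun c => allB n (fun d => allB n (fun e =>
    !(gb n h a b && gb n h b c && gb n h c d && !(gb n h a c) && !(gb n h b d) &&
      !(gb n h a d) && gb n h e a && gb n h e b && gb n h e c && gb n h e d) &&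
    !(gb n h a b && gb n h c d && gb n h d e && !(gb n h c e) && !(decide (c = e)) &&
      !(gb n h a c) && !(gb n h a d) && !(gb n h a e) && !(gb n h b c) && !(gb n h b d) &&
      !(gb n h b e)))))))

end GemCW
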