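import Pool.Agent.Lib.GemCW.Dec

/-!
# Clique-width

`Expr k` is the type of clique-width expressions with labels `Fin k`; `Expr.graph e` is the graph
built by `e` (on the vertex type `Expr.Vert e`), `Expr.label e` the final labelling.
`CliqueWidthLE G k`: some `k`-expression builds (a graph isomorphic to) `G`.

`cw_of_dec`: if `Dec G w univ` then `CliqueWidthLE G (3 * 2 ^ w)`.

Proof.  Let `Q = 2 ^ w`, `K = 3 * Q`; the labels are split in three regions
`r = 0, 1, 2` (labels `r*Q, …, r*Q + Q - 1`).  For `A` with `Dec G w A`, two vertices of `A` have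
the same *type* if they have the same neighbours outside `A`; there are at most `Q` types
(`card_traces_le`).  Claim, by induction on `Dec G w A`:
  for every region `r` and every `ℓ : V → Fin K` which maps `A` to region `r` and such that
  `ℓ u = ℓ u'` implies `u, u'` of the same type in `A` (`u, u' ∈ A`), there are `e : Expr K` and an
  equivalence `φ : e.Vert ≃ A` with `e.adj x y ↔ G.Adj (φ x) (φ y)` and `e.label x = ℓ (φ x)`.
Leaf: `vertex (ℓ v)`.
Node `A ∪ B`: let `r₁, r₂` be the two other regions, `ℓ₁` an injective numbering of the types of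
`A` by labels of region `r₁` and `ℓ₂` of the types of `B` by labels of region `r₂`.  Take
`e₁, e₂` from the induction hypothesis, `union e₁ e₂`, then for every pair `(i, j)` with `i` in
region `r₁`, `j` in region `r₂` such that the vertices of `A` with label `i` are adjacent to the
vertices of `B` with label `j` (well defined: all vertices of `A` with label `i` have the same
neighbours in `B ⊆ Aᶜ`, and symmetrically), a `join i j`; this creates exactly the edges between
`A` and `B`.  Finally `relabel`: all vertices of `A` with the same `ℓ₁`-label `i` have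
the same type in `A`, hence the same type in `A ∪ B`; but `ℓ` may give them different labels!
To avoid this, prove the claim only for labellings `ℓ` with `ℓ u = ℓ u' ↔ ` same type in `A`
(`u, u' ∈ A`), i.e. injective numberings of the types: then `u, u' ∈ A` with the same `ℓ₁`-label
have the same type in `A ∪ B`, so the same `ℓ`-label, and one relabels
`i ↦ ℓ(..)` for all labels `i` of the regions `r₁, r₂` one after the other; as the new labels lie
in region `r`, the relabellings do not interfere.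
-/

namespace GemCW

open Finset

/-- clique-width expressions with labels `Fin k` -/
inductive Expr (k : ℕ) : Type
  | vertex (i : Fin k) : Expr k
  | union (a b : Expr k) : Expr k
  | join (i j : Fin k) (h : i ≠ j) (a : Expr k) : Expr k
  | relabel (i j : Fin k) (a : Expr k) : Expr k

namespace Expr

/-- vertex type of the graph built by an expression -/
def Vert {k : ℕ} : Expr k → Type
  | vertex _ => Unit
  | union a b => a.Vert ⊕ b.Vert
  | join _ _ _ a => a.Vert
  | relabel _ _ a => a.Vert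

/-- labelling of the graph built by an expression -/
def label {k : ℕ} : (e : Expr k) → e.Vert → Fin k
  | vertex i, _ => i
  | union a _, Sum.inl x => a.label x
  | union _ b, Sum.inr x => b.label x
  | join _ _ _ a, x => a.label x
  | relabel i j a, x => if a.label x = i then j else a.label x

/-- adjacency of the graph built by an expression -/
def adj {k : ℕ} : (e : Expr k) → e.Vert → e.Vert → Prop
  | vertex _, _, _ => False
  | union a _, Sum.inl x, Sum.inl y => a.adj x y
  | union _ b, Sum.inr x, Sum.inr y => b.adj x y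
  | union _ _, _, _ => False
  | join i j _ a, x, y => a.adj x y ∨ (a.label x = i ∧ a.label y = j) ∨
      (a.label x = j ∧ a.label y = i)
  | relabel _ _ a, x, y => a.adj x y

theorem adj_symm {k : ℕ} : (e : Expr k) → (x y : e.Vert) → e.adj x y → e.adj y x := by
  intro e
  induction e with
  | vertex i => exact fun x y h => h
  | union a b iha ihb =>
    rintro (x | x) (y | y) h
    · exact iha x y h
    · exact h
    · exact h
    · exact ihb x y h
  | join i j hij a ih =>
    rintro x y (h | ⟨h1, h2⟩ | ⟨h1, h2⟩)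
    · exact Or.inl (ih x y h)
    · exact Or.inr (Or.inr ⟨h2, h1⟩)
    · exact Or.inr (Or.inl ⟨h2, h1⟩)
  | relabel i j a ih => exact fun x y h => ih x y h

theorem adj_irrefl {k : ℕ} : (e : Expr k) → (x : e.Vert) → ¬ e.adj x x := by
  intro e
  induction e with
  | vertex i => exact fun x h => h
  | union a b iha ihb =>
    rintro (x | x) h
    · exact iha x h
    · exact ihb x h
  | join i j hij a ih =>
    rintro x (h | ⟨h1, h2⟩ | ⟨h1, h2⟩)
    · exact ih x h
    · exact hij (h1.symm.trans h2)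
    · exact hij (h2.symm.trans h1)
  | relabel i j a ih => exact fun x h => ih x h

/-- the graph built by an expression -/
def graph {k : ℕ} (e : Expr k) : SimpleGraph e.Vert where
  Adj x y := e.adj x y
  symm := ⟨fun x y h => e.adj_symm x y h⟩
  loopless := ⟨fun x h => e.adj_irrefl x h⟩

end Expr

/-- `G` has clique-width at most `k`. -/
def CliqueWidthLE {V : Type*} (G : SimpleGraph V) (k : ℕ) : Prop :=
  ∃ e : Expr k, Nonempty (G ≃g e.graph)

/-- add joins for all pairs of labels in a list -/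
private theorem exists_joins {k : ℕ} (e : Expr k) (l : List (Fin k × Fin k))
    (hl : ∀ p ∈ l, p.1 ≠ p.2) :
    ∃ (e' : Expr k) (ψ : e'.Vert ≃ e.Vert), (∀ x, e'.label x = e.label (ψ x)) ∧
      ∀ x y, e'.adj x y ↔ e.adj (ψ x) (ψ y) ∨ ∃ p ∈ l,
        (e.label (ψ x) = p.1 ∧ e.label (ψ y) = p.2) ∨
        (e.label (ψ x) = p.2 ∧ e.label (ψ y) = p.1) := by
  induction l with
  | nil =>
    refine ⟨e, Equiv.refl _, fun x => rfl, fun x y => ⟨fun h => Or.inl h, ?_⟩⟩
    rintro (h | ⟨p, hp, -⟩)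
    · exact h
    · exact absurd hp (List.not_mem_nil)
  | cons p l ih =>
    obtain ⟨e', ψ, h1, h2⟩ := ih fun q hq => hl q (List.mem_cons_of_mem _ hq)
    refine ⟨Expr.join p.1 p.2 (hl p List.mem_cons_self) e', ψ, fun x => h1 x, fun x y => ?_⟩
    have e1 : (Expr.join p.1 p.2 (hl p List.mem_cons_self) e').adj x y ↔
      (e'.adj x y ∨ (e'.label x = p.1 ∧ e'.label y = p.2) ∨
        (e'.label x = p.2 ∧ e'.label y = p.1)) := Iff.rfl
    rw [e1, h2 x y, h1 x, h1 y]
    constructor
    · rintro ((h | ⟨q, hq, h⟩) | h)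
      · exact Or.inl h
      · exact Or.inr ⟨q, List.mem_cons_of_mem _ hq, h⟩
      · exact Or.inr ⟨p, List.mem_cons_self, h⟩
    · rintro (h | ⟨q, hq, h⟩)
      · exact Or.inl (Or.inl h)
      · rcases List.mem_cons.1 hq with rfl | hq
        · exact Or.inr h
        · exact Or.inl (Or.inr ⟨q, hq, h⟩)

private theorem exists_joinRel {k : ℕ} (e : Expr k) (R : Fin k → Fin k → Prop)
    (hR : ∀ i j, R i j → i ≠ j) :
    ∃ (e' : Expr k) (ψ : e'.Vert ≃ e.Vert), (∀ x, e'.label x = e.label (ψ x)) ∧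
      ∀ x y, e'.adj x y ↔ e.adj (ψ x) (ψ y) ∨ R (e.label (ψ x)) (e.label (ψ y)) ∨
        R (e.label (ψ y)) (e.label (ψ x)) := by
  classical
  obtain ⟨e', ψ, h1, h2⟩ := exists_joins e
    ((univ : Finset (Fin k × Fin k)).filter (fun p => R p.1 p.2)).toList (by
      intro p hp
      exact hR _ _ (mem_filter.1 (mem_toList.1 hp)).2)
  refine ⟨e', ψ, h1, fun x y => ?_⟩
  rw [h2 x y]
  constructor
  · rintro (h | ⟨p, hp, h⟩)
    · exact Or.inl h
    · have hRp := (mem_filter.1 (mem_toList.1 hp)).2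
      rcases h with ⟨h3, h4⟩ | ⟨h3, h4⟩
      · right; left; rw [h3, h4]; exact hRp
      · right; right; rw [h3, h4]; exact hRp
  · rintro (h | h | h)
    · exact Or.inl h
    · exact Or.inr ⟨(_, _), mem_toList.2 (mem_filter.2 ⟨mem_univ _, h⟩), Or.inl ⟨rfl, rfl⟩⟩
    · exact Or.inr ⟨(_, _), mem_toList.2 (mem_filter.2 ⟨mem_univ _, h⟩), Or.inr ⟨rfl, rfl⟩⟩

private theorem exists_relabels {k : ℕ} (e : Expr k) (g : Fin k → Fin k) (S : Finset (Fin k))
    (hg : ∀ i ∈ S, g i ∉ S) :
    ∃ (e' : Expr k) (ψ : e'.Vert ≃ e.Vert),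
      (∀ x, e.label (ψ x) ∈ S → e'.label x = g (e.label (ψ x))) ∧
      (∀ x, e.label (ψ x) ∉ S → e'.label x = e.label (ψ x)) ∧
      ∀ x y, e'.adj x y ↔ e.adj (ψ x) (ψ y) := by
  induction S using Finset.induction_on with
  | empty =>
    exact ⟨e, Equiv.refl _, fun x hx => absurd hx (notMem_empty _), fun x _ => rfl,
      fun x y => Iff.rfl⟩
  | insert a S ha ih =>
    obtain ⟨e', ψ, h1, h2, h3⟩ := ih fun i hi hgi =>
      hg i (mem_insert_of_mem hi) (mem_insert_of_mem hgi)
    refine ⟨Expr.relabel a (g a) e', ψ, fun (x : e'.Vert) (hx : e.label (ψ x) ∈ insert a S) => ?_,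
      fun (x : e'.Vert) (hx : e.label (ψ x) ∉ insert a S) => ?_, fun x y => h3 x y⟩
    · show (if e'.label x = a then g a else e'.label x) = g (e.label (ψ x))
      rcases mem_insert.1 hx with hx | hx
      · have h4 : e.label (ψ x) ∉ S := by rw [hx]; exact ha
        rw [h2 x h4, if_pos hx, hx]
      · rw [h1 x hx, if_neg]
        intro h5
        exact hg _ (mem_insert_of_mem hx) (by rw [h5]; exact mem_insert_self a S)
    · show (if e'.label x = a then g a else e'.label x) = e.label (ψ x)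
      have h4 : e.label (ψ x) ∉ S := fun h => hx (mem_insert_of_mem h)
      rw [h2 x h4, if_neg]
      intro h5
      exact hx (by rw [h5]; exact mem_insert_self a S)

private theorem exists_num {V : Type*} [Fintype V] [DecidableEq V] (G : SimpleGraph V) (w : ℕ) (A : Finset V) (h : cut G A ≤ w) :
    ∃ τ : V → Fin (2 ^ w), ∀ u ∈ A, ∀ u' ∈ A, (τ u = τ u' ↔ nb G u Aᶜ = nb G u' Aᶜ) := by
  have hc : (A.image (fun u => nb G u Aᶜ)).card ≤ 2 ^ w :=
    (card_traces_le G A Aᶜ).trans (Nat.pow_le_pow_right (by norm_num) h)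
  have hn : Nonempty ({x // x ∈ A.image (fun u => nb G u Aᶜ)} ↪ Fin (2 ^ w)) := by
    apply Function.Embedding.nonempty_of_card_le
    rw [Fintype.card_coe, Fintype.card_fin]
    exact hc
  obtain ⟨f⟩ := hn
  have hm : ∀ u ∈ A, nb G u Aᶜ ∈ A.image (fun u => nb G u Aᶜ) := fun u hu =>
    mem_image_of_mem _ hu
  refine ⟨fun u => if hu : u ∈ A then f ⟨_, hm u hu⟩ else ⟨0, by positivity⟩, fun u hu u' hu' => ?_⟩
  show (if hu : u ∈ A then f ⟨_, hm u hu⟩ else ⟨0, by positivity⟩) =
    (if hu : u' ∈ A then f ⟨_, hm u' hu⟩ else ⟨0, by positivity⟩) ↔ _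
  rw [dif_pos hu, dif_pos hu', f.injective.eq_iff, Subtype.mk.injEq]

private theorem exists_factor {V α β : Type*} [Nonempty β] (A : Finset V) (l : V → α) (τ : V → β)
    (h : ∀ u ∈ A, ∀ u' ∈ A, l u = l u' → τ u = τ u') : ∃ t : α → β, ∀ u ∈ A, t (l u) = τ u := by
  classical
  refine ⟨fun a => if ha : ∃ u ∈ A, l u = a then τ ha.choose else Classical.arbitrary β,
    fun u hu => ?_⟩
  have ha : ∃ u' ∈ A, l u' = l u := ⟨u, hu, rfl⟩
  show (if ha : ∃ u' ∈ A, l u' = l u then τ ha.choose else Classical.arbitrary β) = τ u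
  rw [dif_pos ha]
  exact h _ ha.choose_spec.1 _ hu ha.choose_spec.2

private def enc (Q : ℕ) (r : Fin 3) (q : Fin Q) : Fin (3 * Q) := finProdFinEquiv (r, q)

private theorem enc_inj {Q : ℕ} {r r' : Fin 3} {q q' : Fin Q} (h : enc Q r q = enc Q r' q') :
    r = r' ∧ q = q' := by
  have := finProdFinEquiv.injective h
  exact Prod.mk.inj this

private theorem nb_anti {V : Type*} {G : SimpleGraph V} {u v : V} {A B : Finset V} (hAB : B ⊆ A)
    (h : nb G u A = nb G v A) : nb G u B = nb G v B := by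
  ext x
  rw [mem_nb, mem_nb]
  constructor
  · rintro ⟨hx, hu⟩
    exact ⟨hx, (mem_nb.1 (h ▸ mem_nb.2 ⟨hAB hx, hu⟩ : x ∈ nb G v A)).2⟩
  · rintro ⟨hx, hu⟩
    exact ⟨hx, (mem_nb.1 (h.symm ▸ mem_nb.2 ⟨hAB hx, hu⟩ : x ∈ nb G u A)).2⟩

private theorem nb_adj {V : Type*} {G : SimpleGraph V} {u v x : V} {A : Finset V}
    (h : nb G u A = nb G v A) (hx : x ∈ A) (ha : G.Adj u x) : G.Adj v x :=
  (mem_nb.1 (h ▸ mem_nb.2 ⟨hx, ha⟩ : x ∈ nb G v A)).2

private theorem fin3 : ∀ r : Fin 3, r + 1 ≠ r + 2 ∧ r + 1 ≠ r ∧ r + 2 ≠ r := by decide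

private theorem claim {V : Type*} [Fintype V] [DecidableEq V] (G : SimpleGraph V) (w : ℕ) (A : Finset V) (h : Dec G w A) :
    ∀ (r : Fin 3) (τ : V → Fin (2 ^ w)),
      (∀ u ∈ A, ∀ u' ∈ A, (τ u = τ u' ↔ nb G u Aᶜ = nb G u' Aᶜ)) →
      ∃ (e : Expr (3 * 2 ^ w)) (φ : e.Vert ≃ {x // x ∈ A}),
        (∀ x, e.label x = enc (2 ^ w) r (τ (φ x))) ∧
        ∀ x y, e.adj x y ↔ G.Adj (φ x) (φ y) := by
  induction h with
  | leaf v hv =>
    intro r τ _
    let e1 : (Expr.vertex (enc (2 ^ w) r (τ v))).Vert ≃ {x // x ∈ ({v} : Finset V)} :=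
      { toFun := fun _ => ⟨v, mem_singleton_self v⟩
        invFun := fun _ => ()
        left_inv := fun _ => rfl
        right_inv := fun x => Subtype.ext (mem_singleton.1 x.2).symm }
    refine ⟨Expr.vertex (enc (2 ^ w) r (τ v)), e1, fun x => rfl, fun x y => ?_⟩
    exact ⟨fun h => h.elim, fun (h : G.Adj v v) => (G.loopless.irrefl v h).elim⟩
  | node A B hAB hcut hA hB ihA ihB =>
    intro r τ hτ
    obtain ⟨τ₁, hτ₁⟩ := exists_num G w A hA.cut_le
    obtain ⟨τ₂, hτ₂⟩ := exists_num G w B hB.cut_le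
    obtain ⟨e₁, φ₁, hl₁, ha₁⟩ := ihA (r + 1) τ₁ hτ₁
    obtain ⟨e₂, φ₂, hl₂, ha₂⟩ := ihB (r + 2) τ₂ hτ₂
    obtain ⟨hr12, hr1, hr2⟩ := fin3 r
    have hBA : ∀ x ∈ B, x ∉ A := fun x hx hx' => (Finset.disjoint_left.1 hAB hx') hx
    have hABc : ∀ x ∈ A, x ∈ Bᶜ := fun x hx => mem_compl.2 (Finset.disjoint_left.1 hAB hx)
    have hBAc : ∀ x ∈ B, x ∈ Aᶜ := fun x hx => mem_compl.2 (hBA x hx)
    set ℓ : V → Fin (3 * 2 ^ w) := fun x =>
      if x ∈ A then enc (2 ^ w) (r + 1) (τ₁ x) else enc (2 ^ w) (r + 2) (τ₂ x) with hℓ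
    have hℓA : ∀ x ∈ A, ℓ x = enc (2 ^ w) (r + 1) (τ₁ x) := fun x hx => if_pos hx
    have hℓB : ∀ x ∈ B, ℓ x = enc (2 ^ w) (r + 2) (τ₂ x) := fun x hx => if_neg (hBA x hx)
    -- the union
    let θ : {x // x ∈ A} ⊕ {x // x ∈ B} ≃ {x // x ∈ A ∪ B} :=
      { toFun := fun s => s.elim (fun x => ⟨x.1, mem_union_left _ x.2⟩)
          (fun x => ⟨x.1, mem_union_right _ x.2⟩)
        invFun := fun x => if hx : x.1 ∈ A then Sum.inl ⟨x.1, hx⟩ else
          Sum.inr ⟨x.1, (mem_union.1 x.2).resolve_left hx⟩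
        left_inv := by
          rintro (x | x)
          · exact dif_pos x.2
          · exact dif_neg (hBA x.1 x.2)
        right_inv := by
          intro x
          by_cases hx : x.1 ∈ A
          · simp only [hx, dite_true, Sum.elim_inl]
          · simp only [hx, dite_false, Sum.elim_inr] }
    let φ₀ : (Expr.union e₁ e₂).Vert ≃ {x // x ∈ A ∪ B} := (Equiv.sumCongr φ₁ φ₂).trans θ
    have hφl : ∀ x : e₁.Vert, (φ₀ (Sum.inl x) : V) = φ₁ x := fun x => rfl
    have hφr : ∀ x : e₂.Vert, (φ₀ (Sum.inr x) : V) = φ₂ x := fun x => rfl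
    have hlab0 : ∀ x, (Expr.union e₁ e₂).label x = ℓ (φ₀ x) := by
      rintro (x | x)
      · rw [hφl x, hℓA _ (φ₁ x).2]; exact hl₁ x
      · rw [hφr x, hℓB _ (φ₂ x).2]; exact hl₂ x
    -- the joins
    let R : Fin (3 * 2 ^ w) → Fin (3 * 2 ^ w) → Prop := fun i j =>
      ∃ u ∈ A, ∃ v ∈ B, i = ℓ u ∧ j = ℓ v ∧ G.Adj u v
    have hR : ∀ i j, R i j → i ≠ j := by
      rintro i j ⟨u, hu, v, hv, rfl, rfl, -⟩ h
      rw [hℓA u hu, hℓB v hv] at h
      exact hr12 (enc_inj h).1
    have hRA : ∀ x ∈ A, ∀ i, ¬ R i (ℓ x) := by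
      rintro x hx i ⟨u, hu, v, hv, -, h, -⟩
      rw [hℓA x hx, hℓB v hv] at h
      exact hr12 (enc_inj h).1
    have hRB : ∀ x ∈ B, ∀ i, ¬ R (ℓ x) i := by
      rintro x hx i ⟨u, hu, v, hv, h, -, -⟩
      rw [hℓB x hx, hℓA u hu] at h
      exact hr12 (enc_inj h).1.symm
    have hRAB : ∀ x ∈ A, ∀ y ∈ B, (R (ℓ x) (ℓ y) ↔ G.Adj x y) := by
      intro x hx y hy
      constructor
      · rintro ⟨u, hu, v, hv, h1, h2, h3⟩
        rw [hℓA x hx, hℓA u hu] at h1
        rw [hℓB y hy, hℓB v hv] at h2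
        have h4 := (hτ₁ x hx u hu).1 (enc_inj h1).2
        have h5 := (hτ₂ y hy v hv).1 (enc_inj h2).2
        have h6 : G.Adj x v := nb_adj h4.symm (hBAc v hv) h3
        exact (nb_adj h5.symm (hABc x hx) h6.symm).symm
      · intro h
        exact ⟨x, hx, y, hy, rfl, rfl, h⟩
    obtain ⟨e', ψ, hl', ha'⟩ := exists_joinRel (Expr.union e₁ e₂) R hR
    -- the relabelling
    have hfac : ∀ u ∈ A ∪ B, ∀ u' ∈ A ∪ B, ℓ u = ℓ u' → τ u = τ u' := by
      intro u hu u' hu' h
      rw [hτ u hu u' hu']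
      rcases mem_union.1 hu with h1 | h1 <;> rcases mem_union.1 hu' with h2 | h2
      · rw [hℓA u h1, hℓA u' h2] at h
        refine nb_anti ?_ ((hτ₁ u h1 u' h2).1 (enc_inj h).2)
        exact compl_subset_compl.2 subset_union_left
      · rw [hℓA u h1, hℓB u' h2] at h
        exact absurd (enc_inj h).1 hr12
      · rw [hℓB u h1, hℓA u' h2] at h
        exact absurd (enc_inj h).1 hr12.symm
      · rw [hℓB u h1, hℓB u' h2] at h
        refine nb_anti ?_ ((hτ₂ u h1 u' h2).1 (enc_inj h).2)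
        exact compl_subset_compl.2 subset_union_right
    have : Nonempty (Fin (2 ^ w)) := ⟨⟨0, by positivity⟩⟩
    obtain ⟨t, ht⟩ := exists_factor (A ∪ B) ℓ τ hfac
    let S : Finset (Fin (3 * 2 ^ w)) := univ.filter fun i => ∀ q, i ≠ enc (2 ^ w) r q
    obtain ⟨e'', ψ', hS, -, ha''⟩ := exists_relabels e' (fun i => enc (2 ^ w) r (t i)) S (by
      intro i _ hmem
      exact (mem_filter.1 hmem).2 (t i) rfl)
    refine ⟨e'', ψ'.trans (ψ.trans φ₀), fun x => ?_, fun x y => ?_⟩
    · have h1 : e'.label (ψ' x) = ℓ (φ₀ (ψ (ψ' x))) := by rw [hl', hlab0]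
      have h2 : e'.label (ψ' x) ∈ S := by
        rw [h1]
        refine mem_filter.2 ⟨mem_univ _, fun q hq => ?_⟩
        rcases mem_union.1 (φ₀ (ψ (ψ' x))).2 with h3 | h3
        · rw [hℓA _ h3] at hq
          exact hr1 (enc_inj hq).1
        · rw [hℓB _ h3] at hq
          exact hr2 (enc_inj hq).1
      rw [hS x h2, h1, ht _ (φ₀ (ψ (ψ' x))).2]
      rfl
    · have e3 : ∀ x, (ψ'.trans (ψ.trans φ₀)) x = φ₀ (ψ (ψ' x)) := fun x => rfl
      rw [ha'' x y, ha' (ψ' x) (ψ' y), hlab0, hlab0, e3, e3]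
      generalize ψ (ψ' x) = a
      generalize ψ (ψ' y) = b
      rcases a with a | a <;> rcases b with b | b
      · rw [hφl a, hφl b]
        constructor
        · rintro (h | h | h)
          · exact (ha₁ a b).1 h
          · exact (hRA _ (φ₁ b).2 _ h).elim
          · exact (hRA _ (φ₁ a).2 _ h).elim
        · intro h
          exact Or.inl ((ha₁ a b).2 h)
      · rw [hφl a, hφr b]
        constructor
        · rintro (h | h | h)
          · exact h.elim
          · exact (hRAB _ (φ₁ a).2 _ (φ₂ b).2).1 h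
          · exact (hRA _ (φ₁ a).2 _ h).elim
        · intro h
          exact Or.inr (Or.inl ((hRAB _ (φ₁ a).2 _ (φ₂ b).2).2 h))
      · rw [hφr a, hφl b]
        constructor
        · rintro (h | h | h)
          · exact h.elim
          · exact (hRA _ (φ₁ b).2 _ h).elim
          · exact ((hRAB _ (φ₁ b).2 _ (φ₂ a).2).1 h).symm
        · intro h
          exact Or.inr (Or.inr ((hRAB _ (φ₁ b).2 _ (φ₂ a).2).2 h.symm))
      · rw [hφr a, hφr b]
        constructor
        · rintro (h | h | h)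
          · exact (ha₂ a b).1 h
          · exact (hRB _ (φ₂ a).2 _ h).elim
          · exact (hRB _ (φ₂ b).2 _ h).elim
        · intro h
          exact Or.inl ((ha₂ a b).2 h)

theorem cw_of_dec {V : Type*} [Fintype V] [DecidableEq V] (G : SimpleGraph V) (w : ℕ)
    (h : Dec G w univ) : CliqueWidthLE G (3 * 2 ^ w) := by
  obtain ⟨τ, hτ⟩ := exists_num G w univ h.cut_le
  obtain ⟨e, φ, -, ha⟩ := claim G w univ h 0 τ hτ
  refine ⟨e, ⟨⟨(φ.trans (Equiv.subtypeUnivEquiv fun x => mem_univ x)).symm, ?_⟩⟩⟩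
  intro x y
  show e.adj (φ.symm ⟨x, mem_univ x⟩) (φ.symm ⟨y, mem_univ y⟩) ↔ G.Adj x y
  rw [ha, Equiv.apply_symm_apply, Equiv.apply_symm_apply]

end GemCW
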