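import Pool.Agent.Lib.GemCW.Defs

/-!
# Lower bounds for the rank

* `tri_le_rk`: Let `P` be a finite set of indices with `s i ∈ A`, `y i ∈ B`, and suppose that on
  `P` the pattern is triangular: `s j ~ y i` has the constant truth value `a` for `i < j`, and the
  opposite truth value for `i = j`.  Then `P.card ≤ rk G A B + 1`.
  Proof.  The `P × P` submatrix `N (i,j) = M (s j, y i)`: subtracting `a·J` (`J` the all-ones
  matrix, rank `≤ 1`) gives a triangular matrix with ones on the diagonal, hence of full rank
  `|P|`.  So `|P| = rank (N - aJ) ≤ rank N + 1` and `rank N ≤ rk G A B` (submatrix: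
  `Matrix.rank_submatrix_le` or product with 0/1 matrices).  (Note: `s` and `y` need not be assumed
  injective; `N` is `M` multiplied on both sides by 0/1 matrices.)
* `card_traces_le`: a matrix of rank `r` over `ZMod 2` has at most `2 ^ r` distinct rows (they lie
  in the row space, which has `2 ^ r` elements).
* `exists_basis`: choose a maximal linearly independent set of rows.
-/

namespace GemCW

open Finset

variable {V : Type*} [Fintype V]

namespace RkBAux

open scoped Classical in
/-- the matrix of `rk` -/
noncomputable def mat (G : SimpleGraph V) (A B : Finset V) : Matrix V V (ZMod 2) :=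
  Matrix.of (fun u v : V => if u ∈ A ∧ v ∈ B ∧ G.Adj u v then (1 : ZMod 2) else 0)

theorem row_pos {G : SimpleGraph V} {A B : Finset V} {u v : V} (h : u ∈ A ∧ v ∈ B ∧ G.Adj u v) :
    (mat G A B).row u v = 1 := if_pos h

theorem row_neg {G : SimpleGraph V} {A B : Finset V} {u v : V}
    (h : ¬ (u ∈ A ∧ v ∈ B ∧ G.Adj u v)) : (mat G A B).row u v = 0 := if_neg h

theorem rk_eq (G : SimpleGraph V) (A B : Finset V) : rk G A B = (mat G A B).rank := rfl

theorem rank_add_le {m n K : Type*} [Field K] [Fintype m] [Fintype n] (A B : Matrix m n K) :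
    (A + B).rank ≤ A.rank + B.rank := by
  unfold Matrix.rank
  rw [Matrix.mulVecLin_add]
  refine (Submodule.finrank_mono ?_).trans (Submodule.finrank_add_le_finrank_add_finrank _ _)
  rintro x ⟨y, rfl⟩
  exact Submodule.add_mem_sup (LinearMap.mem_range_self _ y) (LinearMap.mem_range_self _ y)

end RkBAux

open RkBAux

theorem tri_le_rk {G : SimpleGraph V} {A B : Finset V} (s y : ℕ → V) (P : Finset ℕ) (a : Prop)
    (hs : ∀ i ∈ P, s i ∈ A) (hy : ∀ i ∈ P, y i ∈ B)
    (hd : ∀ i ∈ P, ¬ (G.Adj (s i) (y i) ↔ a))
    (ht : ∀ i ∈ P, ∀ j ∈ P, i < j → (G.Adj (s j) (y i) ↔ a)) :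
    P.card ≤ rk G A B + 1 := by
  classical
  let N : Matrix P P (ZMod 2) := (mat G A B).submatrix (fun i => s i) (fun j => y j)
  let J : Matrix P P (ZMod 2) := Matrix.vecMulVec (fun _ => if a then 1 else 0) (fun _ => 1)
  have hN : ∀ i j : P, N i j = if G.Adj (s i) (y j) then 1 else 0 := by
    intro i j
    change (if s i ∈ A ∧ y j ∈ B ∧ G.Adj (s i) (y j) then (1 : ZMod 2) else 0) = _
    simp [hs i i.2, hy j j.2]
  have hJ : ∀ i j : P, J i j = if a then 1 else 0 := by
    intro i j
    simp [J, Matrix.vecMulVec_apply]
  have htri : (N + J).IsUpperTriangular := by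
    intro j i hij
    have hij' : (i : ℕ) < j := hij
    rw [Matrix.add_apply, hN, hJ]
    have := ht i i.2 j j.2 hij'
    by_cases ha : a
    · rw [if_pos (this.2 ha), if_pos ha]; decide
    · rw [if_neg (fun h => ha (this.1 h)), if_neg ha]; decide
  have hdiag : ∀ i : P, (N + J) i i = 1 := by
    intro i
    rw [Matrix.add_apply, hN, hJ]
    have := hd i i.2
    by_cases ha : a
    · rw [if_neg (fun h => this ⟨fun _ => ha, fun _ => h⟩), if_pos ha]; decide
    · rw [if_pos (by
        by_contra h
        exact this ⟨fun h' => absurd h' h, fun h' => absurd h' ha⟩), if_neg ha]; decide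
  have hdet : (N + J).det = 1 := by
    rw [Matrix.det_of_isUpperTriangular htri]
    exact Finset.prod_eq_one fun i _ => hdiag i
  have h1 : (N + J).rank = P.card := by
    rw [Matrix.rank_of_det_ne_zero (by rw [hdet]; decide), Fintype.card_coe]
  have h2 : J.rank ≤ 1 := Matrix.rank_vecMulVec_le _ _
  have h3 : N.rank ≤ rk G A B := Matrix.rank_submatrix_le _ _ _
  have h4 := rank_add_le N J
  omega

variable [DecidableEq V]

theorem card_traces_le (G : SimpleGraph V) (A B : Finset V) :
    (A.image (fun u => nb G u B)).card ≤ 2 ^ rk G A B := by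
  classical
  let W : Submodule (ZMod 2) (V → ZMod 2) := Submodule.span (ZMod 2) (Set.range (mat G A B).row)
  let ind : Finset V → V → ZMod 2 := fun T v => if v ∈ T then 1 else 0
  have hind : Function.Injective ind := by
    intro T T' h
    ext v
    have := congrFun h v
    by_cases h1 : v ∈ T <;> by_cases h2 : v ∈ T' <;> simp [ind, h1, h2] at this ⊢
  have h1 : ((A.image (fun u => nb G u B)).image ind) ⊆
      (univ : Finset (V → ZMod 2)).filter (· ∈ W) := by
    intro f hf
    rw [mem_image] at hf
    obtain ⟨T, hT, rfl⟩ := hf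
    rw [mem_image] at hT
    obtain ⟨u, hu, rfl⟩ := hT
    rw [mem_filter]
    refine ⟨mem_univ _, Submodule.subset_span ⟨u, ?_⟩⟩
    funext v
    change _ = if v ∈ nb G u B then (1 : ZMod 2) else 0
    by_cases h : v ∈ nb G u B
    · rw [if_pos h, row_pos ⟨hu, mem_nb.1 h⟩]
    · rw [if_neg h, row_neg fun h' => h (mem_nb.2 h'.2)]
  have h2 := card_le_card h1
  rw [card_image_of_injective _ hind, ← Fintype.card_subtype] at h2
  refine h2.trans (le_of_eq ?_)
  rw [rk_eq, Matrix.rank_eq_finrank_span_row]
  have h3 := Module.card_eq_pow_finrank (K := ZMod 2) (V := W)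
  rw [ZMod.card] at h3
  exact h3

/-- a basis of the rows: every subset of `B₀` has full row rank -/
theorem exists_basis (G : SimpleGraph V) (A B : Finset V) :
    ∃ B₀ ⊆ A, B₀.card = rk G A B ∧ ∀ C ⊆ B₀, rk G C B = C.card := by
  classical
  obtain ⟨κ, a, ha, hsp, hli⟩ := exists_linearIndependent' (ZMod 2) (mat G A B).row
  have : Finite κ := Finite.of_injective a ha
  have : Fintype κ := Fintype.ofFinite κ
  have hA : ∀ k, a k ∈ A := by
    intro k
    by_contra h
    apply hli.ne_zero k
    funext v
    exact row_neg (fun h' => h h'.1)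
  refine ⟨univ.image a, ?_, ?_, ?_⟩
  · intro u hu
    rw [mem_image] at hu
    obtain ⟨k, -, rfl⟩ := hu
    exact hA k
  · rw [card_image_of_injective _ ha, card_univ, rk_eq, Matrix.rank_eq_finrank_span_row, ← hsp,
      finrank_span_eq_card hli]
  · intro C hC
    have hCA : ∀ u ∈ C, u ∈ A := by
      intro u hu
      have := hC hu
      rw [mem_image] at this
      obtain ⟨k, -, rfl⟩ := this
      exact hA k
    have hrow : ∀ u ∈ C, (mat G C B).row u = (mat G A B).row u := by
      intro u hu
      funext v
      by_cases h : v ∈ B ∧ G.Adj u v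
      · rw [row_pos ⟨hu, h⟩, row_pos ⟨hCA u hu, h⟩]
      · rw [row_neg fun h' => h h'.2, row_neg fun h' => h h'.2]
    have hrow0 : ∀ u, u ∉ C → (mat G C B).row u = 0 := by
      intro u hu
      funext v
      exact row_neg (fun h' => hu h'.1)
    have hk : ∀ u : C, ∃ k, a k = u := by
      intro u
      have := hC u.2
      rw [mem_image] at this
      obtain ⟨k, -, hk⟩ := this
      exact ⟨k, hk⟩
    choose g hg using hk
    have hginj : Function.Injective g := by
      intro u u' h
      apply Subtype.ext
      rw [← hg u, ← hg u', h]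
    have hli2 : LinearIndependent (ZMod 2) (fun u : C => (mat G A B).row u) := by
      have := hli.comp g hginj
      have e : (fun u : C => (mat G A B).row u) = (((mat G A B).row ∘ a) ∘ g) := by
        funext u
        rw [Function.comp_apply, Function.comp_apply, hg]
      rw [e]
      exact this
    have hspan : Submodule.span (ZMod 2) (Set.range (mat G C B).row) =
        Submodule.span (ZMod 2) (Set.range (fun u : C => (mat G A B).row u)) := by
      apply le_antisymm
      · rw [Submodule.span_le]
        rintro _ ⟨u, rfl⟩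
        by_cases hu : u ∈ C
        · rw [hrow u hu]
          exact Submodule.subset_span ⟨⟨u, hu⟩, rfl⟩
        · rw [hrow0 u hu]
          exact Submodule.zero_mem _
      · rw [Submodule.span_le]
        rintro _ ⟨u, rfl⟩
        change (mat G A B).row u ∈ _
        rw [← hrow u u.2]
        exact Submodule.subset_span ⟨u, rfl⟩
    rw [rk_eq, Matrix.rank_eq_finrank_span_row, hspan, finrank_span_eq_card hli2,
      Fintype.card_coe]

end GemCW
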