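import Pool.Agent.Lib.GemCW.RkA
import Pool.Agent.Lib.GemCW.RkB

/-!
# Certificates for small cut rank

For `C : Fin W → V`, `lam : Fin W → Bool` let `linc G C lam i` be the value at the row `i` of the sum (over
`ZMod 2`) of the columns `C k` with `lam k`.  `OK G r R C i j`: some combination `lam` of the columns
`C k`, `k < r`, agrees with column `j` in the rows `R k`, `k < r`, and in the row `i`.
`NS G r R C`: the matrix (`R k`, `C l`), `k, l < r`, is nonsingular.

* `cert_sound`: if `NS` and `OK G r R C i j` for all `i ∈ X`, `j ∉ X` then `cut G X ≤ r`.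
  For `j ∉ X` the combination `lam` is unique (determined by the rows `R k`, by `NS`: the sum (xor)
  of two of them vanishes on the rows `R k`), so it does not depend on `i ∈ X`: column `j` restricted to `X` is in
  the span of the `r` columns `C k` restricted to `X`.  (If `X = ∅` the cut rank is `0`.)
* `cert_complete`: `exists_basis` for the rows of `X × Xᶜ` gives `R₀ ⊆ X`, `|R₀| = rk G R₀ Xᶜ = cut G X =: r`;
  `exists_basis` for `Xᶜ × R₀` (`rk_symm`) gives `C₀ ⊆ Xᶜ`, `|C₀| = r = rk G C₀ R₀`.  So the matrix
  `R₀ × C₀` is nonsingular.  Enumerate them (arbitrary values for `k ≥ r`).  For `j ∉ X` the column `j` on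
  `R₀` is a unique combination of the columns `C₀` on `R₀`; every row `i ∈ X` of `X × Xᶜ` is a
  combination of the rows `R₀` (they span the row space by cardinality), so the relation holds in
  the row `i`, too.
-/

namespace GemCW

open Finset

variable {V : Type*}

open scoped Classical in
/-- value at row `i` of the sum of the columns `C k` with `lam k` -/
noncomputable def linc (G : SimpleGraph V) {W : ℕ} (C : Fin W → V) (lam : Fin W → Bool) (i : V) :
    Bool :=
  decide ((∑ k : Fin W, if lam k = true ∧ G.Adj i (C k) then 1 else 0) % 2 = 1)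

/-- some combination of the columns agrees with column `j` in the rows `R k` and `i` -/
def OK (G : SimpleGraph V) {W : ℕ} (r : ℕ) (R C : Fin W → V) (i j : V) : Prop :=
  ∃ lam : Fin W → Bool, (∀ k : Fin W, lam k = true → (k : ℕ) < r) ∧
    (∀ k : Fin W, (k : ℕ) < r → (linc G C lam (R k) = true ↔ G.Adj (R k) j)) ∧
    (linc G C lam i = true ↔ G.Adj i j)

/-- nonsingularity -/
def NS (G : SimpleGraph V) {W : ℕ} (r : ℕ) (R C : Fin W → V) : Prop :=
  ∀ lam : Fin W → Bool, (∀ k : Fin W, lam k = true → (k : ℕ) < r) →
    (∀ k : Fin W, (k : ℕ) < r → linc G C lam (R k) = false) → ∀ k, lam k = false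

namespace CertAAux

open scoped Classical in
/-- entry of the adjacency matrix -/
noncomputable def av (G : SimpleGraph V) (u v : V) : ZMod 2 := if G.Adj u v then 1 else 0

/-- the sum of the chosen columns -/
noncomputable def sm (G : SimpleGraph V) {W : ℕ} (C : Fin W → V) (lam : Fin W → Bool) (i : V) :
    ZMod 2 := ∑ k : Fin W, if lam k = true then av G i (C k) else 0

theorem z2 (x : ZMod 2) : x = 0 ∨ x = 1 := by
  revert x; decide

theorem av_one {G : SimpleGraph V} {u v : V} : av G u v = 1 ↔ G.Adj u v := by
  unfold av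
  by_cases h : G.Adj u v <;> simp [h]

theorem linc_iff {G : SimpleGraph V} {W : ℕ} {C : Fin W → V} {lam : Fin W → Bool} {i : V} :
    linc G C lam i = true ↔ sm G C lam i = 1 := by
  classical
  unfold linc
  rw [decide_eq_true_eq]
  have h1 : sm G C lam i =
      ((∑ k : Fin W, if lam k = true ∧ G.Adj i (C k) then 1 else 0 : ℕ) : ZMod 2) := by
    unfold sm av
    rw [Nat.cast_sum]
    refine Finset.sum_congr rfl fun k _ => ?_
    by_cases h : lam k = true <;> by_cases h' : G.Adj i (C k) <;> simp [h, h']
  rw [h1]
  have h2 := ZMod.natCast_eq_natCast_iff'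
    (∑ k : Fin W, if lam k = true ∧ G.Adj i (C k) then 1 else 0 : ℕ) 1 2
  rw [Nat.cast_one] at h2
  rw [h2]

theorem agree_iff {G : SimpleGraph V} {W : ℕ} {C : Fin W → V} {lam : Fin W → Bool} {i j : V} :
    (linc G C lam i = true ↔ G.Adj i j) ↔ sm G C lam i = av G i j := by
  rw [linc_iff, ← av_one (G := G)]
  rcases z2 (sm G C lam i) with h | h <;> rcases z2 (av G i j) with h' | h' <;> simp [h, h']

theorem linc_false_iff {G : SimpleGraph V} {W : ℕ} {C : Fin W → V} {lam : Fin W → Bool} {i : V} :
    linc G C lam i = false ↔ sm G C lam i = 0 := by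
  rw [← Bool.not_eq_true, linc_iff]
  rcases z2 (sm G C lam i) with h | h <;> simp [h]

theorem sm_xor {G : SimpleGraph V} {W : ℕ} {C : Fin W → V} {lam lam' : Fin W → Bool} {i : V} :
    sm G C (fun k => xor (lam k) (lam' k)) i = sm G C lam i + sm G C lam' i := by
  unfold sm
  rw [← Finset.sum_add_distrib]
  refine Finset.sum_congr rfl fun k _ => ?_
  have h2 : ∀ x : ZMod 2, x + x = 0 := by decide
  rcases Bool.eq_false_or_eq_true (lam k) with h | h <;>
    rcases Bool.eq_false_or_eq_true (lam' k) with h' | h' <;> simp [h, h', h2]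

theorem sum_fin {W r : ℕ} (hr : r ≤ W) {f : Fin W → ZMod 2} (hf : ∀ k : Fin W, r ≤ (k : ℕ) → f k = 0) :
    ∑ k : Fin W, f k = ∑ k : Fin r, f (Fin.castLE hr k) := by
  classical
  rw [← Finset.sum_subset (Finset.subset_univ
    ((univ : Finset (Fin r)).map (Fin.castLEEmb hr)))]
  · rw [Finset.sum_map]
    rfl
  · intro k _ hk
    refine hf k ?_
    by_contra hcon
    apply hk
    rw [Finset.mem_map]
    exact ⟨⟨k, by omega⟩, mem_univ _, by ext; rfl⟩

theorem mat_av [Fintype V] {G : SimpleGraph V} {A B : Finset V} {u v : V} (hu : u ∈ A)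
    (hv : v ∈ B) : RkBAux.mat G A B u v = av G u v := by
  change (RkBAux.mat G A B).row u v = _
  unfold av
  by_cases h : G.Adj u v
  · rw [RkBAux.row_pos ⟨hu, hv, h⟩, if_pos h]
  · rw [RkBAux.row_neg (fun h' => h h'.2.2), if_neg h]

end CertAAux

open CertAAux RkBAux

variable [Fintype V] [DecidableEq V]

theorem cert_sound {G : SimpleGraph V} {W r : ℕ} (hr : r ≤ W) {R C : Fin W → V}
    (hns : NS G r R C) {X : Finset V} (h : ∀ i ∈ X, ∀ j, j ∉ X → OK G r R C i j) :
    cut G X ≤ r := by
  classical
  rcases X.eq_empty_or_nonempty with rfl | ⟨i₀, hi₀⟩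
  · unfold cut
    rw [rk_eq_zero]
    · exact Nat.zero_le _
    · intro u hu
      exact absurd hu (notMem_empty u)
  have h1 : ∀ j, ∃ lam : Fin W → Bool, (∀ k : Fin W, lam k = true → (k : ℕ) < r) ∧
      (j ∉ X → ∀ k : Fin W, (k : ℕ) < r → sm G C lam (R k) = av G (R k) j) := by
    intro j
    by_cases hj : j ∈ X
    · exact ⟨fun _ => false, fun k hk => by simp at hk, fun h => absurd hj h⟩
    · obtain ⟨lam, hl1, hl2, -⟩ := h i₀ hi₀ j hj
      exact ⟨lam, hl1, fun _ k hk => agree_iff.1 (hl2 k hk)⟩
  choose lam hl1 hl2 using h1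
  have h2 : ∀ i ∈ X, ∀ j, j ∉ X → sm G C (lam j) i = av G i j := by
    intro i hi j hj
    obtain ⟨mu, hm1, hm2, hm3⟩ := h i hi j hj
    have h3 : ∀ k, xor (lam j k) (mu k) = false := by
      refine hns _ ?_ ?_
      · intro k hk
        rcases Bool.eq_false_or_eq_true (lam j k) with h4 | h4
        · exact hl1 j k h4
        · rw [h4, Bool.false_xor] at hk
          exact hm1 k hk
      · intro k hk
        rw [linc_false_iff, sm_xor, hl2 j hj k hk, agree_iff.1 (hm2 k hk)]
        have : ∀ x : ZMod 2, x + x = 0 := by decide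
        exact this _
    have h4 : lam j = mu := by
      funext k
      have := h3 k
      simpa using this
    rw [h4]
    exact agree_iff.1 hm3
  unfold cut
  rw [rk_eq]
  have hfac : mat G X Xᶜ = (Matrix.of fun (u : V) (k : Fin r) =>
        if u ∈ X then av G u (C (Fin.castLE hr k)) else 0) *
      (Matrix.of fun (k : Fin r) (v : V) =>
        if v ∉ X ∧ lam v (Fin.castLE hr k) = true then (1 : ZMod 2) else 0) := by
    ext u v
    rw [Matrix.mul_apply]
    simp only [Matrix.of_apply]
    by_cases hu : u ∈ X
    · by_cases hv : v ∈ X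
      · rw [Finset.sum_eq_zero]
        · exact row_neg (fun h => by
            have := h.2.1
            rw [mem_compl] at this
            exact this hv)
        · intro k _
          simp [hv]
      · have h3 := h2 u hu v hv
        have h4 : mat G X Xᶜ u v = av G u v := mat_av hu (by simpa using hv)
        rw [h4, ← h3]
        unfold sm
        rw [sum_fin hr]
        · refine Finset.sum_congr rfl fun k _ => ?_
          rw [if_pos hu]
          by_cases h5 : lam v (Fin.castLE hr k) = true <;> simp [h5, hv]
        · intro k hk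
          rw [if_neg]
          intro h5
          have := hl1 v k h5
          omega
    · rw [Finset.sum_eq_zero]
      · exact row_neg (fun h => hu h.1)
      · intro k _
        rw [if_neg hu, zero_mul]
  rw [hfac]
  refine (Matrix.rank_mul_le_left _ _).trans ?_
  refine (Matrix.rank_le_card_width _).trans ?_
  rw [Fintype.card_fin]

theorem cert_complete [Nonempty V] {G : SimpleGraph V} {W : ℕ} {X : Finset V}
    (hX : cut G X ≤ W) : ∃ r ≤ W, ∃ R C : Fin W → V,
      (∀ k : Fin W, (k : ℕ) < r → R k ∈ X ∧ C k ∉ X) ∧ NS G r R C ∧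
      ∀ i ∈ X, ∀ j, j ∉ X → OK G r R C i j := by
  classical
  obtain ⟨R₀, hR1, hR2, hR3⟩ := exists_basis G X Xᶜ
  obtain ⟨C₀, hC1, hC2, hC3⟩ := exists_basis G Xᶜ R₀
  set r := cut G X with hr
  have hRr : R₀.card = r := hR2
  have hRX : rk G R₀ Xᶜ = r := by rw [hR3 R₀ (Subset.refl _), hRr]
  have hCr : C₀.card = r := by rw [hC2, rk_symm, hRX]
  have hRC : rk G R₀ C₀ = r := by rw [rk_symm, hC3 C₀ (Subset.refl _), hCr]
  let eR : Fin r ≃ R₀ := (Fin.castOrderIso hRr.symm).toEquiv.trans R₀.equivFin.symm
  let eC : Fin r ≃ C₀ := (Fin.castOrderIso hCr.symm).toEquiv.trans C₀.equivFin.symm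
  let N : Matrix (Fin r) (Fin r) (ZMod 2) := Matrix.of fun k l => av G (eR k) (eC l)
  have hN : r ≤ N.rank := by
    have hfac : mat G R₀ C₀ = (Matrix.of fun (u : V) (k : Fin r) =>
        if (eR k : V) = u then (1 : ZMod 2) else 0) * N * (Matrix.of fun (l : Fin r) (v : V) =>
        if (eC l : V) = v then (1 : ZMod 2) else 0) := by
      ext u v
      rw [Matrix.mul_apply]
      simp only [Matrix.mul_apply, Matrix.of_apply]
      by_cases hu : u ∈ R₀
      · by_cases hv : v ∈ C₀
        · rw [Finset.sum_eq_single (eC.symm ⟨v, hv⟩)]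
          · rw [Finset.sum_eq_single (eR.symm ⟨u, hu⟩)]
            · simp only [Equiv.apply_symm_apply, if_true, one_mul, mul_one]
              rw [mat_av hu hv]
              change _ = av G (eR (eR.symm ⟨u, hu⟩)) (eC (eC.symm ⟨v, hv⟩))
              rw [Equiv.apply_symm_apply, Equiv.apply_symm_apply]
            · intro k _ hk
              rw [if_neg, zero_mul]
              intro h
              apply hk
              rw [Equiv.eq_symm_apply]
              exact Subtype.ext h
            · intro h; exact absurd (mem_univ _) h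
          · intro l _ hl
            rw [if_neg, mul_zero]
            intro h
            apply hl
            rw [Equiv.eq_symm_apply]
            exact Subtype.ext h
          · intro h; exact absurd (mem_univ _) h
        · rw [Finset.sum_eq_zero]
          · exact row_neg (fun h => hv h.2.1)
          · intro l _
            rw [if_neg, mul_zero]
            intro h
            exact hv (h ▸ (eC l).2)
      · rw [Finset.sum_eq_zero]
        · exact row_neg (fun h => hu h.1)
        · intro l _
          rw [Finset.sum_eq_zero, zero_mul]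
          intro k _
          rw [if_neg, zero_mul]
          intro h
          exact hu (h ▸ (eR k).2)
    have h1 : rk G R₀ C₀ ≤ N.rank := by
      rw [rk_eq, hfac]
      exact (Matrix.rank_mul_le_left _ _).trans (Matrix.rank_mul_le_right _ _)
    rwa [hRC] at h1
  have hsurj : Function.Surjective N.mulVecLin := by
    rw [← LinearMap.range_eq_top]
    apply Submodule.eq_top_of_finrank_eq
    have h1 : N.rank ≤ r := by
      have := Matrix.rank_le_card_width N
      rwa [Fintype.card_fin] at this
    rw [Module.finrank_fintype_fun_eq_card, Fintype.card_fin]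
    exact le_antisymm h1 hN
  have hinj : Function.Injective N.mulVecLin := LinearMap.injective_iff_surjective.2 hsurj
  -- rows
  have hrow : ∀ i ∈ X, ∃ y : Fin r → ZMod 2, ∀ v, v ∉ X → av G i v = ∑ k, y k * av G (eR k) v := by
    intro i hi
    have hs1 : Submodule.span (ZMod 2) (Set.range (fun k : Fin r => (mat G X Xᶜ).row (eR k))) ≤
        Submodule.span (ZMod 2) (Set.range (mat G X Xᶜ).row) := by
      apply Submodule.span_mono
      rintro _ ⟨k, rfl⟩
      exact ⟨_, rfl⟩
    have hs2 : Submodule.span (ZMod 2) (Set.range (mat G R₀ Xᶜ).row) ≤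
        Submodule.span (ZMod 2) (Set.range (fun k : Fin r => (mat G X Xᶜ).row (eR k))) := by
      rw [Submodule.span_le]
      rintro _ ⟨u, rfl⟩
      by_cases hu : u ∈ R₀
      · have : (mat G R₀ Xᶜ).row u = (mat G X Xᶜ).row (eR (eR.symm ⟨u, hu⟩)) := by
          rw [Equiv.apply_symm_apply]
          funext v
          by_cases h : v ∈ Xᶜ ∧ G.Adj u v
          · rw [row_pos ⟨hu, h⟩, row_pos ⟨hR1 hu, h⟩]
          · rw [row_neg fun h' => h h'.2, row_neg fun h' => h h'.2]
        change (mat G R₀ Xᶜ).row u ∈ _
        rw [this]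
        exact Submodule.subset_span ⟨_, rfl⟩
      · have : (mat G R₀ Xᶜ).row u = 0 := by
          funext v
          exact row_neg (fun h' => hu h'.1)
        change (mat G R₀ Xᶜ).row u ∈ _
        rw [this]
        exact Submodule.zero_mem _
    have hd1 : Module.finrank (ZMod 2) (Submodule.span (ZMod 2) (Set.range (mat G R₀ Xᶜ).row)) = r := by
      rw [← Matrix.rank_eq_finrank_span_row, ← rk_eq, hRX]
    have hd2 : Module.finrank (ZMod 2) (Submodule.span (ZMod 2) (Set.range (mat G X Xᶜ).row)) = r := by
      rw [← Matrix.rank_eq_finrank_span_row, ← rk_eq]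
      rfl
    have heq : Submodule.span (ZMod 2) (Set.range (fun k : Fin r => (mat G X Xᶜ).row (eR k))) =
        Submodule.span (ZMod 2) (Set.range (mat G X Xᶜ).row) := by
      exact Submodule.eq_of_le_of_finrank_le hs1
        (hd2.le.trans (hd1.symm.le.trans (Submodule.finrank_mono hs2)))
    have hmem : (mat G X Xᶜ).row i ∈
        Submodule.span (ZMod 2) (Set.range (fun k : Fin r => (mat G X Xᶜ).row (eR k))) := by
      rw [heq]
      exact Submodule.subset_span ⟨i, rfl⟩
    obtain ⟨y, hy⟩ := (Submodule.mem_span_range_iff_exists_fun (ZMod 2)).1 hmem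
    refine ⟨y, fun v hv => ?_⟩
    have h1 := congrFun hy v
    rw [Finset.sum_apply] at h1
    have h2 : ∀ u ∈ X, (mat G X Xᶜ).row u v = av G u v := fun u hu =>
      mat_av hu (by simpa using hv)
    rw [h2 i hi] at h1
    rw [← h1]
    refine Finset.sum_congr rfl fun k _ => ?_
    rw [Pi.smul_apply, smul_eq_mul, h2 _ (hR1 (eR k).2)]
  -- the enumerations
  obtain ⟨v₀⟩ := ‹Nonempty V›
  let R : Fin W → V := fun k => if h : (k : ℕ) < r then eR ⟨k, h⟩ else v₀
  let C : Fin W → V := fun k => if h : (k : ℕ) < r then eC ⟨k, h⟩ else v₀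
  have hRk : ∀ k : Fin r, R (Fin.castLE hX k) = eR k := by
    intro k
    have h : ((Fin.castLE hX k : Fin W) : ℕ) < r := k.2
    simp only [R, dif_pos h]
    rfl
  have hCk : ∀ k : Fin r, C (Fin.castLE hX k) = eC k := by
    intro k
    have h : ((Fin.castLE hX k : Fin W) : ℕ) < r := k.2
    simp only [C, dif_pos h]
    rfl
  have hsm : ∀ (lam : Fin W → Bool), (∀ k : Fin W, lam k = true → (k : ℕ) < r) → ∀ i,
      sm G C lam i = ∑ l : Fin r, av G i (eC l) * (if lam (Fin.castLE hX l) = true then 1 else 0) := by
    intro lam hlam i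
    unfold sm
    rw [sum_fin hX]
    · refine Finset.sum_congr rfl fun l _ => ?_
      rw [hCk]
      by_cases h : lam (Fin.castLE hX l) = true <;> simp [h]
    · intro k hk
      rw [if_neg]
      intro h
      have := hlam k h
      omega
  refine ⟨r, hX, R, C, ?_, ?_, ?_⟩
  · intro k hk
    have h1 : k = Fin.castLE hX ⟨k, hk⟩ := by ext; rfl
    rw [h1, hRk, hCk]
    refine ⟨hR1 (eR _).2, ?_⟩
    have := hC1 (eC ⟨k, hk⟩).2
    rwa [mem_compl] at this
  · intro lam hlam hz k
    have h1 : N.mulVecLin (fun l => if lam (Fin.castLE hX l) = true then 1 else 0) =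
        N.mulVecLin 0 := by
      rw [map_zero]
      funext k'
      have h2 := hz (Fin.castLE hX k') k'.2
      rw [linc_false_iff, hRk, hsm lam hlam] at h2
      rw [Matrix.mulVecLin_apply]
      exact h2
    have h3 := hinj h1
    rcases Bool.eq_false_or_eq_true (lam k) with h4 | h4
    · have h5 := hlam k h4
      have h6 := congrFun h3 ⟨k, h5⟩
      have h7 : k = Fin.castLE hX ⟨k, h5⟩ := by ext; rfl
      rw [← h7] at h6
      simp [h4] at h6
    · exact h4
  · intro i hi j hj
    obtain ⟨x, hx⟩ := hsurj (fun k => av G (eR k) j)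
    obtain ⟨y, hy⟩ := hrow i hi
    let lam : Fin W → Bool := fun k => if h : (k : ℕ) < r then decide (x ⟨k, h⟩ = 1) else false
    have hlam : ∀ k : Fin W, lam k = true → (k : ℕ) < r := by
      intro k hk
      by_contra h
      simp only [lam, dif_neg h] at hk
      cases hk
    have hx' : ∀ l : Fin r, (if lam (Fin.castLE hX l) = true then (1 : ZMod 2) else 0) = x l := by
      intro l
      have h : ((Fin.castLE hX l : Fin W) : ℕ) < r := l.2
      simp only [lam, dif_pos h, decide_eq_true_eq]
      change (if x l = 1 then (1 : ZMod 2) else 0) = x l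
      rcases z2 (x l) with h | h <;> simp [h]
    have hk : ∀ k : Fin r, sm G C lam (eR k) = av G (eR k) j := by
      intro k
      rw [hsm lam hlam]
      have h1 := congrFun hx k
      rw [← h1, Matrix.mulVecLin_apply]
      simp only [hx']
      rfl
    refine ⟨lam, hlam, ?_, ?_⟩
    · intro k hk'
      rw [agree_iff]
      have h1 : k = Fin.castLE hX ⟨k, hk'⟩ := by ext; rfl
      rw [h1, hRk]
      exact hk _
    · rw [agree_iff, hsm lam hlam, hy j hj]
      have h1 : ∀ l : Fin r, av G i (eC l) = ∑ k, y k * av G (eR k) (eC l) := by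
        intro l
        refine hy _ ?_
        have := hC1 (eC l).2
        rwa [mem_compl] at this
      simp only [h1, Finset.sum_mul]
      rw [Finset.sum_comm]
      refine Finset.sum_congr rfl fun k _ => ?_
      rw [← hk k, hsm lam hlam, Finset.mul_sum]
      refine Finset.sum_congr rfl fun l _ => ?_
      ring

end GemCW
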