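import Pool.Agent.Lib.GemCW.Defs

/-!
# Co-components

Let `C ⊆ N(v)` (so `C` induces a `P₄`-free graph, as `G` is gem-free) and `y ∈ C`.  Then there is a
co-component `L ∋ y` of `C`, and every `u ∈ L` is `y`, or a non-neighbour of `y`, or there is
`p ∈ C` nonadjacent to (and different from) both `y` and `u`.

Proof.  Call `D ⊆ C` closed if every `p ∈ C \ D` is adjacent to all of `D`.  `C` is closed, the
intersection of two closed sets is closed.  Let `L` be a closed set containing `y` of smallest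
cardinality; then `L ⊆ D` for every closed `D ∋ y`.
* `conn`: let `A ⊆ L`, `A ≠ ∅`, `A ≠ L`, and suppose that all `x ∈ A`, `z ∈ L \ A` are adjacent.  Then
  `A` and `L \ A` are both closed (in `C`), one of them contains `y` and is smaller than `L`.
* `D := {u ∈ C : u = y ∨ ¬ u ~ y ∨ ∃ p ∈ C, p ≠ y, p ≠ u, ¬ p ~ y, ¬ p ~ u}` is closed: let
  `z ∈ C \ D`, `x ∈ D` with `z ≁ x`.  `z ~ y`.  If `x = y` or `x ≁ y` then `z ∈ D` (directly, or
  with `p = x`).  Otherwise `x ~ y` and there is `p ∈ C` with `p ≁ y`, `p ≁ x`, and `p ~ z` as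
  `z ∉ D` (`p ≠ z` since `z ~ y`, `p ≁ y`).  Then `x - y - z - p` is an induced path in `N(v)`:
  `x ~ y`, `y ~ z`, `z ~ p`, `x ≁ z`, `y ≁ p`, `x ≁ p`; with `v` it is a gem.
-/

namespace GemCW

open Finset

variable {V : Type*} [Fintype V] [DecidableEq V]

theorem exists_coComp {G : SimpleGraph V} (hG : Cls G) (v : V) (C : Finset V)
    (hC : ∀ p ∈ C, G.Adj v p) (y : V) (hy : y ∈ C) :
    ∃ L : Finset V, y ∈ L ∧ CoComp G C L ∧
      ∀ u ∈ L, u = y ∨ ¬ G.Adj u y ∨ ∃ p ∈ C, p ≠ y ∧ p ≠ u ∧ ¬ G.Adj p y ∧ ¬ G.Adj p u := by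
  classical
  have hne : (C.powerset.filter
      (fun D => y ∈ D ∧ ∀ p ∈ C, p ∉ D → ∀ x ∈ D, G.Adj p x)).Nonempty := by
    refine ⟨C, ?_⟩
    rw [mem_filter, mem_powerset]
    exact ⟨Subset.refl C, hy, fun p hp hp' => absurd hp hp'⟩
  obtain ⟨L, hL, hmin⟩ := exists_min_image _ card hne
  rw [mem_filter, mem_powerset] at hL
  obtain ⟨hLC, hyL, hfull⟩ := hL
  have hsub : ∀ D : Finset V, y ∈ D → (∀ p ∈ C, p ∉ D → ∀ x ∈ D, G.Adj p x) → L ⊆ D := by
    intro D hyD hD
    have h1 : L ∩ D ∈ C.powerset.filter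
        (fun D => y ∈ D ∧ ∀ p ∈ C, p ∉ D → ∀ x ∈ D, G.Adj p x) := by
      rw [mem_filter, mem_powerset]
      refine ⟨inter_subset_left.trans hLC, mem_inter.2 ⟨hyL, hyD⟩, ?_⟩
      intro p hp hpn x hx
      rw [mem_inter] at hx
      by_cases hpL : p ∈ L
      · have hpD : p ∉ D := fun h => hpn (mem_inter.2 ⟨hpL, h⟩)
        exact hD p hp hpD x hx.2
      · exact hfull p hp hpL x hx.1
    have h2 := hmin _ h1
    have h3 : L ∩ D = L := eq_of_subset_of_card_le inter_subset_left h2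
    exact inter_eq_left.1 h3
  refine ⟨L, hyL, ⟨hLC, hfull, ?_⟩, ?_⟩
  · intro A hA hAne hAL
    by_contra hcon
    push Not at hcon
    by_cases hyA : y ∈ A
    · have h1 : L ⊆ A := by
        refine hsub A hyA ?_
        intro p hp hpA x hx
        by_cases hpL : p ∈ L
        · exact (hcon x hx p hpL hpA).symm
        · exact hfull p hp hpL x (hA hx)
      exact hAL (Subset.antisymm hA h1)
    · have h1 : L ⊆ L \ A := by
        refine hsub (L \ A) (mem_sdiff.2 ⟨hyL, hyA⟩) ?_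
        intro p hp hpn x hx
        rw [mem_sdiff] at hx
        by_cases hpL : p ∈ L
        · have hpA : p ∈ A := by
            by_contra h
            exact hpn (mem_sdiff.2 ⟨hpL, h⟩)
          exact hcon p hpA x hx.1 hx.2
        · exact hfull p hp hpL x hx.1
      obtain ⟨a, ha⟩ := hAne
      exact (mem_sdiff.1 (h1 (hA ha))).2 ha
  · have h1 : L ⊆ C.filter (fun u => u = y ∨ ¬ G.Adj u y ∨
        ∃ p ∈ C, p ≠ y ∧ p ≠ u ∧ ¬ G.Adj p y ∧ ¬ G.Adj p u) := by
      refine hsub _ (mem_filter.2 ⟨hy, Or.inl rfl⟩) ?_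
      intro z hz hzD x hx
      rw [mem_filter] at hzD hx
      obtain ⟨hxC, hx⟩ := hx
      have hzD' : ¬ (z = y ∨ ¬ G.Adj z y ∨
        ∃ p ∈ C, p ≠ y ∧ p ≠ z ∧ ¬ G.Adj p y ∧ ¬ G.Adj p z) := fun h => hzD ⟨hz, h⟩
      push Not at hzD'
      obtain ⟨hzy, hzy', hzp⟩ := hzD'
      by_contra hzx
      by_cases hxy0 : x = y
      · rw [hxy0] at hzx
        exact hzx hzy'
      by_cases hxy : G.Adj x y
      · rcases hx with h | h | ⟨p, hp, hpy, hpx, hpy', hpx'⟩
        · exact hxy0 h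
        · exact h hxy
        · have hpz : p ≠ z := by
            intro h
            rw [h] at hpy'
            exact hpy' hzy'
          have hpz' := hzp p hp hpy hpz hpy'
          exact hG.gem x y z p v hxy hzy'.symm hpz'.symm (fun h => hzx h.symm)
            (fun h => hpy' h.symm) (fun h => hpx' h.symm) (hC x hxC) (hC y hy) (hC z hz)
            (hC p hp)
      · have hxz : x ≠ z := by
          intro h
          rw [h] at hxy
          exact hxy hzy'
        exact hzx (hzp x hxC hxy0 hxz hxy).symm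
    intro u hu
    exact (mem_filter.1 (h1 hu)).2

end GemCW
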