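import Pool.Agent.Lib.GemCW.TCc
import Pool.Agent.Lib.GemCW.CoComp

/-!
# Traces of two vertices on an independent set

* `f1`: `S` independent, `w ≁ w'`: not both `|A_w \ A_{w'}| ≥ 2` and `|A_{w'} \ A_w| ≥ 1`
  (`A_w = nb G w S`).  Else `a, b ∈ A_w \ A_{w'}` distinct, `c ∈ A_{w'} \ A_w`: the path `a - w - b` and
  the edge `w' c` form `P₂+P₃`.
* `f4`: `S` independent and `WL G c`, `w ~ w'`: `|A_w ∩ A_{w'}| ≤ 31 c + 1` or
  `|A_w Δ A_{w'}| ≤ 31 c + 1`.
  Proof.  Suppose `|A_w ∩ A_{w'}| ≥ 2`, `y` in it.  Let `L` be the co-component of `cn G w w'` containing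
  `y` (`exists_coComp`, with `v = w`).  Every other element of `A_w ∩ A_{w'}` is in `cn G w w'` and
  nonadjacent to `y`, so it is in `L` (`CoComp.full`).  `thin_cut` gives `X ⊇ L` with all elements
  in `L` or nonadjacent to both `w, w'`; so `A_w ∩ A_{w'} ⊆ X` and `(A_w Δ A_{w'}) ∩ X = ∅`.  `WL` for
  `X`: `min (|A_w ∩ A_{w'}|) (|A_w Δ A_{w'}|) ≤ min (|S ∩ X|) (|S \ X|) ≤ c (30 + 1)`.
-/

namespace GemCW

open Finset

variable {V : Type*} [Fintype V] [DecidableEq V]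

theorem f1 {G : SimpleGraph V} (hG : Cls G) {S : Finset V} (hS : Indep G S) {w w' : V}
    (hww : ¬ G.Adj w w') (h2 : 2 ≤ (nb G w S \ nb G w' S).card)
    (h1 : 1 ≤ (nb G w' S \ nb G w S).card) : False := by
  obtain ⟨a, ha, b, hb, hab⟩ := Finset.one_lt_card.1 h2
  obtain ⟨c, hc⟩ := Finset.card_pos.1 h1
  simp only [mem_sdiff, mem_nb, not_and] at ha hb hc
  obtain ⟨⟨haS, hwa⟩, ha'⟩ := ha
  obtain ⟨⟨hbS, hwb⟩, hb'⟩ := hb
  obtain ⟨⟨hcS, hwc⟩, hc'⟩ := hc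
  exact hG.pp w' c a w b hwc hwa.symm hwb (hS a haS b hbS) hab (ha' haS)
    (fun h => hww h.symm) (hb' hbS) (hS c hcS a haS) (fun h => hc' hcS h.symm) (hS c hcS b hbS)

theorem f4 {G : SimpleGraph V} (hG : Cls G) {S : Finset V} (hS : Indep G S) {c : ℕ}
    (hW : WL G c S) {w w' : V} (hww : G.Adj w w') :
    (nb G w S ∩ nb G w' S).card ≤ 31 * c + 1 ∨
      (symmDiff (nb G w S) (nb G w' S)).card ≤ 31 * c + 1 := by
  rcases Nat.lt_or_ge (nb G w S ∩ nb G w' S).card 1 with hlt | hge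
  · left
    omega
  obtain ⟨y, hy⟩ := Finset.card_pos.1 hge
  have hy' : y ∈ S ∧ G.Adj w y ∧ G.Adj w' y := by
    simp only [mem_inter, mem_nb] at hy
    exact ⟨hy.1.1, hy.1.2, hy.2.2⟩
  obtain ⟨hyS, hwy, hw'y⟩ := hy'
  obtain ⟨L, hyL, hco, _⟩ := exists_coComp hG w (cn G w w') (fun p hp => (mem_cn.1 hp).1) y
    (mem_cn.2 ⟨hwy, hw'y⟩)
  have hT : TCx G w w' L := ⟨hG, hww, hco⟩
  obtain ⟨X, hLX, hX, hcut⟩ := thin_cut hT
  have hsub1 : nb G w S ∩ nb G w' S ⊆ S ∩ X := by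
    intro z hz
    simp only [mem_inter, mem_nb] at hz
    obtain ⟨⟨hzS, hwz⟩, _, hw'z⟩ := hz
    refine mem_inter.2 ⟨hzS, hLX ?_⟩
    by_contra hzL
    exact hS z hzS y hyS (hco.full z (mem_cn.2 ⟨hwz, hw'z⟩) hzL y hyL)
  have hsub2 : symmDiff (nb G w S) (nb G w' S) ⊆ S \ X := by
    intro z hz
    rw [Finset.mem_symmDiff] at hz
    simp only [mem_nb, not_and] at hz
    rw [mem_sdiff]
    refine ⟨?_, fun hzX => ?_⟩
    · rcases hz with h | h
      · exact h.1.1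
      · exact h.1.1
    · rcases hX z hzX with hL | hW'
      · have := mem_cn.1 (hco.sub hL)
        rcases hz with ⟨h1, h2⟩ | ⟨h1, h2⟩
        · exact h2 h1.1 this.2
        · exact h2 h1.1 this.1
      · rcases hz with ⟨h1, h2⟩ | ⟨h1, h2⟩
        · exact hW'.1 h1.2
        · exact hW'.2 h1.2
  have h1 := card_le_card hsub1
  have h2 := card_le_card hsub2
  have h3 := hW X
  have h4 : c * (cut G X + 1) ≤ 31 * c := by
    calc c * (cut G X + 1) ≤ c * 31 := Nat.mul_le_mul_left _ (by omega)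
      _ = 31 * c := by ring
  rcases le_total (S ∩ X).card (S \ X).card with h | h
  · left
    rw [min_eq_left h] at h3
    omega
  · right
    rw [min_eq_right h] at h3
    omega

end GemCW
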