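import Pool.Agent.Lib.GemCW.Hfour
import Pool.Agent.Lib.GemCW.Pair

/-!
# Cleaning a well-linked independent set

`clean`: for `c, n` there is `N` such that every independent `WL G c` set `S` with `|S| ≥ N` contains
`T`, `|T| = n`, such that every vertex `w` has at most one neighbour in `T` or at most one
non-neighbour in `T`.

Proof.  Let `M` be large (below), `N = 2 ^ M * (n + 4)`.  Suppose no subset `T` of `S` of cardinality
`≥ n` has the property (if a larger `T` has it, its subsets of cardinality `n` do, too).  Then for every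
`T ⊆ S`, `|T| ≥ n`, there is `w` with at least two neighbours and at least two non-neighbours in `T`.
Build `T₀ = S ⊇ T₁ ⊇ …`: given `T_k` with `|T_k| ≥ n`, take such a `w = w_k`; let `T_{k+1}` be the larger of
`nb G w T_k` and `T_k \ nb G w T_k`, so `|T_{k+1}| ≥ |T_k| / 2`, and let `d_k ≠ d'_k` be two elements of the
other part.  So there are `w, d, d' : ℕ → V`, `τ : ℕ → Bool` with, for `k < M`:
`d k, d' k ∈ S`, `d k ≠ d' k`, `w k ~ d k ↔ ¬ τ k`, `w k ~ d' k ↔ ¬ τ k`, and for `k < j < M`: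
`w k ~ d j ↔ τ k`, `w k ~ d' j ↔ τ k` (as `d j, d' j ∈ T_{k+1}`), in particular `d k ≠ d j`, `d' k ≠ d' j`.
(State this as a separate lemma `exists_seq`, by induction on `M`, for all `S` with
`|S| ≥ 2 ^ M * (n+4)`: first step and induction hypothesis for `T₁`.)
`ramsey'` with colours `Bool × Bool × Bool × Bool`, colour of `k < j`:
`(τ k, w j ~ d k, w j ~ d' k, w k ~ w j)`; get a homogeneous subsequence of length `m`, where
`m - 1` is at least `2`, `H_main c`'s bound, `K_main (c+1)`'s bound.  Drop its last element, so that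
`τ k = τ` for all `k < m`.  Let `w j ~ d k ↔ α`, `w j ~ d' k ↔ α'` (`k < j`).
* If `α ≠ τ`: `s = d`, `y = w` : `s i ~ y j ↔ α` (`i < j`), `s j ~ y i ↔ τ` (`i < j`), `τ = ¬ α`: `H_main`
  (`{d i} ⊆ S` is `WL G c`) is contradicted.  Same if `α' ≠ τ`, with `d'`.
* `α = α' = τ`.  `w` is injective: for `k < j`, `w k ~ d k ↔ ¬ τ`, `w j ~ d k ↔ τ`.  `transfer` with `s = d`,
  `y = w`, `a = τ`: `{w k}` is `WL G (c+1)`.  If the `w k` form a clique: contradiction to `K_main (c+1)`.
  Otherwise `w 0 ≁ w 1`.  `τ` false: `d 0, d' 0 ∈ A_{w 0} \ A_{w 1}`, `d 1 ∈ A_{w 1} \ A_{w 0}`: contradiction to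
  `f1`.  `τ` true: `d 0, d' 0 ∈ A_{w 1} \ A_{w 0}`, `d 1 ∈ A_{w 0} \ A_{w 1}`: contradiction to `f1`.
-/

namespace GemCW

open Finset

/-- one step of the construction -/
theorem Clean_step {V : Type} (G : SimpleGraph V) (M : ℕ) (S T : Finset V) (hT : T ⊆ S)
    (w₀ x x' : V) (b : Bool) (hx : x ∈ S) (hx' : x' ∈ S) (hne : x ≠ x')
    (h1 : G.Adj w₀ x ↔ ¬ b = true) (h2 : G.Adj w₀ x' ↔ ¬ b = true)
    (h3 : ∀ v ∈ T, (G.Adj w₀ v ↔ b = true))
    (ih : ∃ (w d d' : ℕ → V) (τ : ℕ → Bool), ∀ k < M, d k ∈ T ∧ d' k ∈ T ∧ d k ≠ d' k ∧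
      (G.Adj (w k) (d k) ↔ ¬ τ k = true) ∧ (G.Adj (w k) (d' k) ↔ ¬ τ k = true) ∧
      ∀ j, k < j → j < M → (G.Adj (w k) (d j) ↔ τ k = true) ∧ (G.Adj (w k) (d' j) ↔ τ k = true)) :
    ∃ (w d d' : ℕ → V) (τ : ℕ → Bool), ∀ k < M + 1, d k ∈ S ∧ d' k ∈ S ∧ d k ≠ d' k ∧
      (G.Adj (w k) (d k) ↔ ¬ τ k = true) ∧ (G.Adj (w k) (d' k) ↔ ¬ τ k = true) ∧
      ∀ j, k < j → j < M + 1 →
        (G.Adj (w k) (d j) ↔ τ k = true) ∧ (G.Adj (w k) (d' j) ↔ τ k = true) := by
  obtain ⟨w, d, d', τ, hk⟩ := ih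
  refine ⟨fun k => Nat.casesOn k w₀ w, fun k => Nat.casesOn k x d, fun k => Nat.casesOn k x' d',
    fun k => Nat.casesOn k b τ, ?_⟩
  intro k hkM
  cases k with
  | zero =>
    refine ⟨hx, hx', hne, h1, h2, fun j hj hjM => ?_⟩
    cases j with
    | zero => omega
    | succ j =>
      have := hk j (by omega)
      exact ⟨h3 _ this.1, h3 _ this.2.1⟩
  | succ k =>
    obtain ⟨a1, a2, a3, a4, a5, a6⟩ := hk k (by omega)
    refine ⟨hT a1, hT a2, a3, a4, a5, fun j hj hjM => ?_⟩
    cases j with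
    | zero => omega
    | succ j => exact a6 j (by omega) (by omega)

theorem exists_seq {V : Type} [Fintype V] [DecidableEq V] (G : SimpleGraph V) (n : ℕ) (M : ℕ)
    (S : Finset V) (hS : 2 ^ M * (n + 4) ≤ S.card)
    (h : ∀ T ⊆ S, n ≤ T.card → ∃ w, 2 ≤ (nb G w T).card ∧ 2 ≤ (T \ nb G w T).card) :
    ∃ (w d d' : ℕ → V) (τ : ℕ → Bool), ∀ k < M, d k ∈ S ∧ d' k ∈ S ∧ d k ≠ d' k ∧
      (G.Adj (w k) (d k) ↔ ¬ τ k = true) ∧ (G.Adj (w k) (d' k) ↔ ¬ τ k = true) ∧
      ∀ j, k < j → j < M → (G.Adj (w k) (d j) ↔ τ k = true) ∧ (G.Adj (w k) (d' j) ↔ τ k = true) := by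
  induction M generalizing S with
  | zero =>
    have : S.Nonempty := by
      rw [← card_pos]
      omega
    obtain ⟨v, -⟩ := this
    exact ⟨fun _ => v, fun _ => v, fun _ => v, fun _ => true, by intro k hk; omega⟩
  | succ M ih =>
    have hpos : 1 ≤ 2 ^ M := Nat.one_le_two_pow
    have hpow : 2 ^ (M + 1) * (n + 4) = 2 ^ M * (n + 4) + 2 ^ M * (n + 4) := by ring
    have hn : n + 4 ≤ 2 ^ M * (n + 4) := Nat.le_mul_of_pos_left _ (by omega)
    obtain ⟨w₀, hw1, hw2⟩ := h S Subset.rfl (by omega)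
    have hcard : (S \ nb G w₀ S).card + (nb G w₀ S).card = S.card :=
      card_sdiff_add_card_eq_card nb_sub
    by_cases hA : 2 ^ M * (n + 4) ≤ (nb G w₀ S).card
    · obtain ⟨x, hx, x', hx', hne⟩ := one_lt_card.1 (show 1 < (S \ nb G w₀ S).card by omega)
      rw [mem_sdiff, mem_nb] at hx hx'
      exact Clean_step G M S (nb G w₀ S) nb_sub w₀ x x' true hx.1 hx'.1 hne
        (by simpa using fun h' => hx.2 ⟨hx.1, h'⟩) (by simpa using fun h' => hx'.2 ⟨hx'.1, h'⟩)
        (fun v hv => by simpa using (mem_nb.1 hv).2)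
        (ih _ hA (fun T hT hc => h T (hT.trans nb_sub) hc))
    · obtain ⟨x, hx, x', hx', hne⟩ := one_lt_card.1 (show 1 < (nb G w₀ S).card by omega)
      rw [mem_nb] at hx hx'
      exact Clean_step G M S (S \ nb G w₀ S) sdiff_subset w₀ x x' false hx.1 hx'.1 hne
        (by simpa using hx.2) (by simpa using hx'.2)
        (fun v hv => by
          rw [mem_sdiff, mem_nb] at hv
          simpa using fun h' => hv.2 ⟨hv.1, h'⟩)
        (ih _ (by omega) (fun T hT hc => h T (hT.trans sdiff_subset) hc))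

theorem clean (c n : ℕ) : ∃ N : ℕ, ∀ (V : Type) [Fintype V] [DecidableEq V] (G : SimpleGraph V),
    Cls G → ∀ S : Finset V, WL G c S → Indep G S → N ≤ S.card →
      ∃ T ⊆ S, T.card = n ∧ ∀ w, (nb G w T).card ≤ 1 ∨ (T \ nb G w T).card ≤ 1 := by
  obtain ⟨NH, hNH⟩ := H_main c
  obtain ⟨NK, hNK⟩ := K_main (c + 1)
  set m₁ := max 2 (max NH NK) with hm₁
  have hm2 : 2 ≤ m₁ := le_max_left _ _
  have hmH : NH ≤ m₁ := (le_max_left _ _).trans (le_max_right _ _)
  have hmK : NK ≤ m₁ := (le_max_right _ _).trans (le_max_right _ _)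
  obtain ⟨M, hM⟩ := ramsey' (Bool × Bool × Bool × Bool) (m₁ + 1)
  refine ⟨2 ^ M * (n + 4), ?_⟩
  intro V _ _ G hG S hW hI hS
  classical
  by_contra hcon
  have h : ∀ T ⊆ S, n ≤ T.card → ∃ w, 2 ≤ (nb G w T).card ∧ 2 ≤ (T \ nb G w T).card := by
    intro T hT hn
    by_contra hno
    push Not at hno
    obtain ⟨T', hT', hc⟩ := exists_subset_card_eq hn
    refine hcon ⟨T', hT'.trans hT, hc, fun w => ?_⟩
    have h1 : nb G w T' ⊆ nb G w T := fun x hx => by
      rw [mem_nb] at hx ⊢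
      exact ⟨hT' hx.1, hx.2⟩
    have h2 : T' \ nb G w T' ⊆ T \ nb G w T := fun x hx => by
      rw [mem_sdiff, mem_nb] at hx ⊢
      exact ⟨hT' hx.1, fun h' => hx.2 ⟨hx.1, h'.2⟩⟩
    have h3 := card_le_card h1
    have h4 := card_le_card h2
    by_cases h5 : 2 ≤ (nb G w T).card
    · right
      have := hno w h5
      omega
    · left
      omega
  obtain ⟨w, d, d', τ, hk⟩ := exists_seq G n M S hS h
  obtain ⟨f, hf1, hf2, ⟨t, α, α', β⟩, hf3⟩ := hM (fun k j =>
    (τ k, decide (G.Adj (w j) (d k)), decide (G.Adj (w j) (d' k)), decide (G.Adj (w k) (w j))))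
  -- the subsequence
  have ht : ∀ i < m₁, τ (f i) = t := by
    intro i hi
    have := hf3 i m₁ hi (by omega)
    simp only [Prod.mk.injEq] at this
    exact this.1
  have hα : ∀ i j, i < j → j < m₁ → (G.Adj (w (f j)) (d (f i)) ↔ α = true) := by
    intro i j hij hj
    have := hf3 i j hij (by omega)
    simp only [Prod.mk.injEq] at this
    rw [← this.2.1, decide_eq_true_iff]
  have hα' : ∀ i j, i < j → j < m₁ → (G.Adj (w (f j)) (d' (f i)) ↔ α' = true) := by
    intro i j hij hj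
    have := hf3 i j hij (by omega)
    simp only [Prod.mk.injEq] at this
    rw [← this.2.2.1, decide_eq_true_iff]
  have hβ : ∀ i j, i < j → j < m₁ → (G.Adj (w (f i)) (w (f j)) ↔ β = true) := by
    intro i j hij hj
    have := hf3 i j hij (by omega)
    simp only [Prod.mk.injEq] at this
    rw [← this.2.2.2, decide_eq_true_iff]
  have hfM : ∀ i < m₁, f i < M := fun i hi => hf2 i (by omega)
  have hff : ∀ i j, i < j → j < m₁ → f i < f j := fun i j hij hj => hf1 i j hij (by omega)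
  have hdS : ∀ i < m₁, d (f i) ∈ S := fun i hi => (hk _ (hfM i hi)).1
  have hdS' : ∀ i < m₁, d' (f i) ∈ S := fun i hi => (hk _ (hfM i hi)).2.1
  have hdne : ∀ i < m₁, d (f i) ≠ d' (f i) := fun i hi => (hk _ (hfM i hi)).2.2.1
  have hwd : ∀ i < m₁, (G.Adj (w (f i)) (d (f i)) ↔ ¬ t = true) := by
    intro i hi
    rw [← ht i hi]
    exact (hk _ (hfM i hi)).2.2.2.1
  have hwd' : ∀ i < m₁, (G.Adj (w (f i)) (d' (f i)) ↔ ¬ t = true) := by
    intro i hi
    rw [← ht i hi]
    exact (hk _ (hfM i hi)).2.2.2.2.1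
  have hwj : ∀ i j, i < j → j < m₁ → (G.Adj (w (f i)) (d (f j)) ↔ t = true) := by
    intro i j hij hj
    rw [← ht i (by omega)]
    exact ((hk _ (hfM i (by omega))).2.2.2.2.2 _ (hff i j hij hj) (hfM j hj)).1
  have hwj' : ∀ i j, i < j → j < m₁ → (G.Adj (w (f i)) (d' (f j)) ↔ t = true) := by
    intro i j hij hj
    rw [← ht i (by omega)]
    exact ((hk _ (hfM i (by omega))).2.2.2.2.2 _ (hff i j hij hj) (hfM j hj)).2
  -- a half graph is impossible
  have key : ∀ (D : ℕ → V) (γ : Bool), (∀ i < m₁, D i ∈ S) →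
      (∀ i j, i < j → j < m₁ → (G.Adj (w (f j)) (D i) ↔ γ = true)) →
      (∀ i j, i < j → j < m₁ → (G.Adj (w (f i)) (D j) ↔ t = true)) → γ = t := by
    intro D γ hD h1 h2
    by_contra hne
    have hbool : t = true ↔ ¬ γ = true := by
      clear * - hne
      cases γ <;> cases t <;> simp at hne ⊢
    have hsub : (range m₁).image D ⊆ S := by
      intro x hx
      rw [mem_image] at hx
      obtain ⟨i, hi, rfl⟩ := hx
      exact hD i (mem_range.1 hi)
    have := hNH V G hG m₁ D (fun i => w (f i)) (γ = true) (hW.sub hsub)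
      (fun i j hij hj => by rw [G.adj_comm]; exact h1 i j hij hj)
      (fun i j hij hj => by
        rw [G.adj_comm, h2 i j hij hj]
        exact hbool)
    omega
  have e1 : α = t := key (fun i => d (f i)) α hdS hα hwj
  have e2 : α' = t := key (fun i => d' (f i)) α' hdS' hα' hwj'
  subst e1
  subst e2
  -- injectivity
  have hwinj : ∀ i < m₁, ∀ j < m₁, w (f i) = w (f j) → i = j := by
    have aux : ∀ i j, i < j → j < m₁ → w (f i) ≠ w (f j) := by
      intro i j hij hj he
      have h1 := hwd i (by omega)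
      have h2 := hα i j hij hj
      rw [he, h2] at h1
      exact iff_not_self h1
    intro i hi j hj he
    rcases lt_trichotomy i j with h5 | h5 | h5
    · exact absurd he (aux i j h5 hj)
    · exact h5
    · exact absurd he.symm (aux j i h5 hi)
  have hdinj : ∀ i < m₁, ∀ j < m₁, d (f i) = d (f j) → i = j := by
    have aux : ∀ i j, i < j → j < m₁ → d (f i) ≠ d (f j) := by
      intro i j hij hj he
      have h1 := hwd i (by omega)
      have h2 := hwj i j hij hj
      rw [he, h2] at h1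
      exact iff_not_self h1
    intro i hi j hj he
    rcases lt_trichotomy i j with h5 | h5 | h5
    · exact absurd he (aux i j h5 hj)
    · exact h5
    · exact absurd he.symm (aux j i h5 hi)
  cases β with
  | true =>
    have hsub : (range m₁).image (fun i => d (f i)) ⊆ S := by
      intro x hx
      rw [mem_image] at hx
      obtain ⟨i, hi, rfl⟩ := hx
      exact hdS i (mem_range.1 hi)
    have hWL := transfer (G := G) (c := c) (m := m₁) (fun i => d (f i)) (fun i => w (f i))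
      (α' = true) hdinj hwinj
      (fun i hi => by
        rw [G.adj_comm, hwd i hi]
        exact not_iff_self)
      (fun i j hij hj => by
        rw [G.adj_comm]
        exact hwj i j hij hj) (hW.sub hsub)
    have hclq : Clq G ((range m₁).image (fun i => w (f i))) := by
      intro a ha b hb hab
      rw [mem_image] at ha hb
      obtain ⟨i, hi, rfl⟩ := ha
      obtain ⟨j, hj, rfl⟩ := hb
      rw [mem_range] at hi hj
      rcases lt_trichotomy i j with h5 | h5 | h5
      · exact (hβ i j h5 hj).2 rfl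
      · exact absurd (by rw [h5]) hab
      · exact ((hβ j i h5 hi).2 rfl).symm
    have h6 := hNK V G hG _ hWL hclq
    rw [card_image_of_injOn, card_range] at h6
    · omega
    · intro i hi j hj he
      exact hwinj i (by simpa using hi) j (by simpa using hj) he
  | false =>
    have hww : ¬ G.Adj (w (f 0)) (w (f 1)) := by
      rw [hβ 0 1 (by omega) (by omega)]
      simp
    have b1 := hwd 0 (by omega)
    have b2 := hwd' 0 (by omega)
    have b3 := hwd 1 (by omega)
    have b4 := hα 0 1 (by omega) (by omega)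
    have b5 := hα' 0 1 (by omega) (by omega)
    have b6 := hwj 0 1 (by omega) (by omega)
    have s0 := hdS 0 (by omega)
    have s0' := hdS' 0 (by omega)
    have s1 := hdS 1 (by omega)
    cases α' with
    | false =>
      refine f1 hG hI hww (one_lt_card.2 ⟨d (f 0), ?_, d' (f 0), ?_, hdne 0 (by omega)⟩)
        (card_pos.2 ⟨d (f 1), ?_⟩)
      · rw [mem_sdiff, mem_nb, mem_nb]
        exact ⟨⟨s0, b1.2 (by simp)⟩, fun h' => by simpa using b4.1 h'.2⟩
      · rw [mem_sdiff, mem_nb, mem_nb]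
        exact ⟨⟨s0', b2.2 (by simp)⟩, fun h' => by simpa using b5.1 h'.2⟩
      · rw [mem_sdiff, mem_nb, mem_nb]
        exact ⟨⟨s1, b3.2 (by simp)⟩, fun h' => by simpa using b6.1 h'.2⟩
    | true =>
      refine f1 hG hI (fun h' => hww h'.symm)
        (one_lt_card.2 ⟨d (f 0), ?_, d' (f 0), ?_, hdne 0 (by omega)⟩)
        (card_pos.2 ⟨d (f 1), ?_⟩)
      · rw [mem_sdiff, mem_nb, mem_nb]
        exact ⟨⟨s0, b4.2 rfl⟩, fun h' => (b1.1 h'.2) rfl⟩
      · rw [mem_sdiff, mem_nb, mem_nb]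
        exact ⟨⟨s0', b5.2 rfl⟩, fun h' => (b2.1 h'.2) rfl⟩
      · rw [mem_sdiff, mem_nb, mem_nb]
        exact ⟨⟨s1, b6.2 rfl⟩, fun h' => (b3.1 h'.2) rfl⟩

end GemCW
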