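import Pool.Agent.Lib.GemCW.SplitPT

/-!
# Membership in the class

`clsB n h` is the elementwise definition of `Cls (CG n h)` (`CG_adj`; quantifiers over `Fin n` versus
numbers `< n`), and is computable in polynomial time.
-/

namespace GemCW

theorem clsB_iff (n : ℕ) (h : List Bool) : clsB n h = true ↔ Cls (CG n h) := by
  unfold clsB
  simp only [allB_iff]
  constructor
  · intro H
    refine ⟨fun a b c d e h1 h2 h3 h4 h5 h6 h7 h8 h9 h10 => ?_,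
      fun a b c d e h1 h2 h3 h4 h5 h6 h7 h8 h9 h10 h11 => ?_⟩
    · have key := H a a.2 b b.2 c c.2 d d.2 e e.2
      rw [CG_adj] at h1 h2 h3 h7 h8 h9 h10
      rw [CG_adj, Bool.not_eq_true] at h4 h5 h6
      simp [h1, h2, h3, h4, h5, h6, h7, h8, h9, h10] at key
    · have key := H a a.2 b b.2 c c.2 d d.2 e e.2
      rw [CG_adj] at h1 h2 h3
      rw [CG_adj, Bool.not_eq_true] at h4 h6 h7 h8 h9 h10 h11
      have h5' : ¬ (c : ℕ) = e := fun h => h5 (Fin.ext h)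
      simp [h1, h2, h3, h4, h5', h6, h7, h8, h9, h10, h11] at key
  · intro H a ha b hb c hc d hd e he
    rw [Bool.and_eq_true, Bool.not_eq_true', Bool.not_eq_true']
    constructor
    · rw [← Bool.not_eq_true]
      intro hcon
      simp only [Bool.and_eq_true, Bool.not_eq_true'] at hcon
      obtain ⟨⟨⟨⟨⟨⟨⟨⟨⟨h1, h2⟩, h3⟩, h4⟩, h5⟩, h6⟩, h7⟩, h8⟩, h9⟩, h10⟩ := hcon
      refine H.gem ⟨a, ha⟩ ⟨b, hb⟩ ⟨c, hc⟩ ⟨d, hd⟩ ⟨e, he⟩ ?_ ?_ ?_ ?_ ?_ ?_ ?_ ?_ ?_ ?_ <;>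
        rw [CG_adj] <;> simp only [Bool.not_eq_true] <;> assumption
    · rw [← Bool.not_eq_true]
      intro hcon
      simp only [Bool.and_eq_true, Bool.not_eq_true', decide_eq_false_iff_not] at hcon
      obtain ⟨⟨⟨⟨⟨⟨⟨⟨⟨⟨h1, h2⟩, h3⟩, h4⟩, h5⟩, h6⟩, h7⟩, h8⟩, h9⟩, h10⟩, h11⟩ := hcon
      refine H.pp ⟨a, ha⟩ ⟨b, hb⟩ ⟨c, hc⟩ ⟨d, hd⟩ ⟨e, he⟩ ?_ ?_ ?_ ?_ ?_ ?_ ?_ ?_ ?_ ?_ ?_
      · rw [CG_adj]; exact h1
      · rw [CG_adj]; exact h2
      · rw [CG_adj]; exact h3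
      · rw [CG_adj, Bool.not_eq_true]; exact h4
      · intro h; exact h5 (congrArg Fin.val h)
      · rw [CG_adj, Bool.not_eq_true]; exact h6
      · rw [CG_adj, Bool.not_eq_true]; exact h7
      · rw [CG_adj, Bool.not_eq_true]; exact h8
      · rw [CG_adj, Bool.not_eq_true]; exact h9
      · rw [CG_adj, Bool.not_eq_true]; exact h10
      · rw [CG_adj, Bool.not_eq_true]; exact h11

theorem PB_clsB {α : Type} [Ctx α] {n : α → ℕ} {h : α → List Bool} (hn : PN n) (hh : PC h) :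
    PB (fun a => clsB (n a) (h a)) := by
  unfold clsB
  refine PB.allB hn (PB.allB hn.fst (PB.allB hn.fst.fst (PB.allB hn.fst.fst.fst
    (PB.allB hn.fst.fst.fst.fst ?_))))
  have va : PN (fun p : ((((α × ℕ) × ℕ) × ℕ) × ℕ) × ℕ => p.1.1.1.1.2) :=
    PN.snd.fst.fst.fst.fst
  have vb : PN (fun p : ((((α × ℕ) × ℕ) × ℕ) × ℕ) × ℕ => p.1.1.1.2) := PN.snd.fst.fst.fst
  have vc : PN (fun p : ((((α × ℕ) × ℕ) × ℕ) × ℕ) × ℕ => p.1.1.2) := PN.snd.fst.fst
  have vd : PN (fun p : ((((α × ℕ) × ℕ) × ℕ) × ℕ) × ℕ => p.1.2) := PN.snd.fst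
  have ve : PN (fun p : ((((α × ℕ) × ℕ) × ℕ) × ℕ) × ℕ => p.2) := PN.snd
  have vn : PN (fun p : ((((α × ℕ) × ℕ) × ℕ) × ℕ) × ℕ => n p.1.1.1.1.1) :=
    hn.fst.fst.fst.fst.fst
  have vh : PC (fun p : ((((α × ℕ) × ℕ) × ℕ) × ℕ) × ℕ => h p.1.1.1.1.1) :=
    hh.fst.fst.fst.fst.fst
  have hab := PB_gb vn vh va vb
  have hbc := PB_gb vn vh vb vc
  have hcd := PB_gb vn vh vc vd
  have hac := (PB_gb vn vh va vc).not
  have hbd := (PB_gb vn vh vb vd).not
  have had := (PB_gb vn vh va vd).not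
  have hea := PB_gb vn vh ve va
  have heb := PB_gb vn vh ve vb
  have hec := PB_gb vn vh ve vc
  have hed := PB_gb vn vh ve vd
  have hde := PB_gb vn vh vd ve
  have hce := (PB_gb vn vh vc ve).not
  have hae := (PB_gb vn vh va ve).not
  have hbc' := (PB_gb vn vh vb vc).not
  have hbe := (PB_gb vn vh vb ve).not
  have hq := (PB.eq vc ve).not
  exact ((((((((((hab.and hbc).and hcd).and hac).and hbd).and had).and hea).and heb).and
    hec).and hed).not).and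
    (((((((((((hab.and hcd).and hde).and hce).and hq).and hac).and had).and hae).and
      hbc').and hbd).and hbe).not)

end GemCW
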