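import Pool.Agent.Lib.GemCW.Tseven

/-!
# No large well-linked co-matching pattern

Context `CoM G S x`: `S` independent, `x(S)` independent, `s ~ x t ↔ s ≠ t` for `s, t ∈ S`, `5 ≤ |S|`.
For a vertex `v` outside `S ∪ x(S)` let `K = {s ∈ S : v ~ s}`, `T = {s ∈ S : v ~ x s}`.

Rules.
(R1) `i ∈ K \ T` ⇒ `|S \ K| ≤ 1`: for `j ≠ k ∈ S \ K`: edge `v i`, path `j - x i - k`: `P₂+P₃` (`v ≁ x i`,
     `i ≁ x i`).  (R1') `i ∈ T \ K` ⇒ `|S \ T| ≤ 1`: edge `v (x i)`, path `x j - i - x k`.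
(R2) `i ≠ j`, `i ∉ K`, `j ∉ T` ⇒ (`j ∈ K ↔ i ∈ T`): edge `i (x j)` and the path formed by `v, j, x i`
     (`j ~ x i`; `i ≁ j`, `i ≁ x i`, `x j ≁ j`, `x j ≁ x i`; `v ≁ i`, `v ≁ x j`).
(R3) there are no distinct `a, b, c` with `a ∈ K ∩ T`, `c ∈ K`, `b ∈ T`: the path
     `a - x b - c - x a` (`a ~ x b`, `x b ~ c`, `c ~ x a`, `a ≁ c`, `a ≁ x a`, `x b ≁ x a`) is dominated by `v`.
Conclusion `types`: one of
 (0) `K = T = ∅`; (1) `K = T = {i}`; (2) `K = T = {i, j}`; (3) `K = S`, `|T| ≤ 1`; (4) `T = S`, `|K| ≤ 1`.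
Proof.  If `i ∈ K \ T`: by R1 `|K| ≥ |S| - 1 ≥ 4`; by R2 every `k ∈ S \ K` is in `T`
  (`k ≠ i`, `k ∉ K`, `i ∉ T`, `i ∈ K` ⇒ `k ∈ T`).  If there is `k ∈ S \ K` then `k ∈ T \ K`, so by R1'
  `|S \ T| ≤ 1`; then `|K ∩ T| ≥ |S| - 2 ≥ 3` contradicting R3.  So `K = S`.  `|T| ≤ 1`: if `a ≠ b ∈ T`, take
  `c ∈ K` other than `a, b`: R3.  If `i ∈ T \ K`: symmetric.  If `K = T`: R3 gives `|K| ≤ 2`.

`touched`: for cleaned `S` (every vertex has at most one neighbour or at most one non-neighbour in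
`S`), case (2) does not occur.  Call `i ∈ S` touched by `v ∉ S ∪ x(S)` if (1) with this `i`, or (3) with `T = {i}`, or
(4) with `K = {i}`.  If at least `3 N` elements of `S` are touched then for one of the three kinds at
least `N` elements are touched by a `v_i` of this kind: kinds (1), (4): `s ~ v_i ↔ s = i`: pattern with
`S`; kind (3): `x s ~ v_i ↔ s = i`: pattern with `x(S)`.

`C_main`: for `c` there is `N` such that there are no `WL G c` set `S`, `|S| ≥ N`, `x : V → V` with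
`s ~ x t ↔ s ≠ t` for `s, t ∈ S`.
Proof.  Pass to independent `S` (`exists_indep`), `x` is injective on `S` (for `|S| ≥ 3`..: `x s = x t`,
`s ≠ t`: `s ~ x t` but `s ≁ x s`), `x(S)` is `WL G (c+1)` (`transfer_set`, `a = True`), pass to a subset
where `x(S)` is independent (`exists_indep (c+1)`), then to a cleaned subset (`clean c`).
`x(S) ∩ S = ∅` since each `x t` has a neighbour in `S`.
By `T_main c` (kinds (1), (4)) and `T_main (c+1)` (kind (3), set `x(S)`), fewer than `3 N_T` elements of `S` are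
touched.  Let `I₀ ⊆ S` be the untouched ones.  For `I ⊆ I₀` let `X = I ∪ x(I)`.  Every vertex outside `X` is constant
on `I` and on `x(I)`, and not complete to both: (`v ∉ S ∪ x(S)`: types; `v = s ∈ S \ I`: none of `I`, all
of `x(I)`; `v = x s`: all of `I`, none of `x(I)`).  So `cut G X ≤ 2` (`rk_le_cols` with `{I, x(I)}`; the type
`K = T = S` does not occur).  With `|I| = ⌊|I₀|/2⌋` `WL` is violated: `⌊|I₀|/2⌋ ≤ 3 c`.
-/

namespace GemCW

open Finset

section
variable {V : Type*} [Fintype V] [DecidableEq V]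

structure CoM (G : SimpleGraph V) (S : Finset V) (x : V → V) : Prop where
  cls : Cls G
  card : 5 ≤ S.card
  indS : ∀ s ∈ S, ∀ t ∈ S, ¬ G.Adj s t
  indX : ∀ s ∈ S, ∀ t ∈ S, ¬ G.Adj (x s) (x t)
  adj : ∀ s ∈ S, ∀ t ∈ S, (G.Adj s (x t) ↔ s ≠ t)

namespace ConeAux

variable {G : SimpleGraph V} {S : Finset V} {x : V → V} {v : V}

theorem r1 (h : CoM G S x) {i j k : V} (hi : i ∈ S) (hj : j ∈ S) (hk : k ∈ S) (hjk : j ≠ k)
    (hvi : G.Adj v i) (hvxi : ¬ G.Adj v (x i)) (hvj : ¬ G.Adj v j) (hvk : ¬ G.Adj v k) : False := by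
  have hji : j ≠ i := by rintro rfl; exact hvj hvi
  have hki : k ≠ i := by rintro rfl; exact hvk hvi
  refine h.cls.pp v i j (x i) k hvi ((h.adj j hj i hi).2 hji) ((h.adj k hk i hi).2 hki).symm
    (h.indS j hj k hk) hjk hvj hvxi hvk (h.indS i hi j hj) ?_ (h.indS i hi k hk)
  intro hc
  exact (h.adj i hi i hi).1 hc rfl

theorem r1' (h : CoM G S x) {i j k : V} (hi : i ∈ S) (hj : j ∈ S) (hk : k ∈ S) (hjk : j ≠ k)
    (hvi : G.Adj v (x i)) (hvxi : ¬ G.Adj v i) (hvj : ¬ G.Adj v (x j)) (hvk : ¬ G.Adj v (x k)) :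
    False := by
  have hji : i ≠ j := by rintro rfl; exact hvj hvi
  have hki : i ≠ k := by rintro rfl; exact hvk hvi
  have hxx : x j ≠ x k := by
    intro he
    have h1 := (h.adj j hj k hk).2 hjk
    rw [← he] at h1
    exact (h.adj j hj j hj).1 h1 rfl
  refine h.cls.pp v (x i) (x j) i (x k) hvi ((h.adj i hi j hj).2 hji).symm ((h.adj i hi k hk).2 hki)
    (h.indX j hj k hk) hxx hvj hvxi hvk (h.indX i hi j hj) ?_ (h.indX i hi k hk)
  intro hc
  exact (h.adj i hi i hi).1 hc.symm rfl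

theorem r2 (h : CoM G S x) (hv : v ∉ S) (hvx : v ∉ S.image x) {i j : V} (hi : i ∈ S) (hj : j ∈ S)
    (hij : i ≠ j) (hvi : ¬ G.Adj v i) (hvj : ¬ G.Adj v (x j)) : G.Adj v j ↔ G.Adj v (x i) := by
  have hii : ¬ G.Adj i (x i) := fun hc => (h.adj i hi i hi).1 hc rfl
  have hjj : ¬ G.Adj j (x j) := fun hc => (h.adj j hj j hj).1 hc rfl
  constructor
  · intro hvj'
    by_contra hvi'
    refine h.cls.pp i (x j) v j (x i) ((h.adj i hi j hj).2 hij) hvj' ((h.adj j hj i hi).2 hij.symm)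
      hvi' ?_ (fun hc => hvi hc.symm) (h.indS i hi j hj) hii (fun hc => hvj hc.symm)
      (fun hc => hjj hc.symm) (h.indX j hj i hi)
    rintro rfl
    exact hvx (mem_image_of_mem x hi)
  · intro hvi'
    by_contra hvj'
    refine h.cls.pp i (x j) j (x i) v ((h.adj i hi j hj).2 hij) ((h.adj j hj i hi).2 hij.symm)
      hvi'.symm (fun hc => hvj' hc.symm) ?_ (h.indS i hi j hj) hii (fun hc => hvi hc.symm)
      (fun hc => hjj hc.symm) (h.indX j hj i hi) (fun hc => hvj hc.symm)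
    rintro rfl
    exact hv hj

theorem r3 (h : CoM G S x) {a b c : V} (ha : a ∈ S) (hb : b ∈ S) (hc : c ∈ S) (hab : a ≠ b)
    (hac : a ≠ c) (hbc : b ≠ c) (h1 : G.Adj v a) (h2 : G.Adj v (x a)) (h3 : G.Adj v c)
    (h4 : G.Adj v (x b)) : False := by
  refine h.cls.gem a (x b) c (x a) v ((h.adj a ha b hb).2 hab) ((h.adj c hc b hb).2 hbc.symm).symm
    ((h.adj c hc a ha).2 hac.symm) (h.indS a ha c hc) (h.indX b hb a ha) ?_ h1 h4 h3 h2
  intro hc
  exact (h.adj a ha a ha).1 hc rfl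

theorem three {A : Finset V} (h : 3 ≤ A.card) : ∃ a ∈ A, ∃ b ∈ A, ∃ c ∈ A, a ≠ b ∧ a ≠ c ∧ b ≠ c := by
  obtain ⟨a, b, c, ha, hb, hc, hab, hac, hbc⟩ := Finset.two_lt_card_iff.1 (show 2 < A.card by omega)
  exact ⟨a, ha, b, hb, c, hc, hab, hac, hbc⟩

theorem exists_third {A : Finset V} (h : 3 ≤ A.card) (a b : V) : ∃ c ∈ A, c ≠ a ∧ c ≠ b := by
  have h1 : ((A.erase a).erase b).Nonempty := by
    rw [← card_pos]
    have h2 := pred_card_le_card_erase (s := A) (a := a)
    have h3 := pred_card_le_card_erase (s := A.erase a) (a := b)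
    omega
  obtain ⟨c, hc⟩ := h1
  rw [mem_erase, mem_erase] at hc
  exact ⟨c, hc.2.2, hc.2.1, hc.1⟩

end ConeAux

open scoped Classical in
theorem CoM.types {G : SimpleGraph V} {S : Finset V} {x : V → V} (h : CoM G S x) {v : V}
    (hv : v ∉ S) (hvx : v ∉ S.image x) {K T : Finset V}
    (hK : K = S.filter (fun s => G.Adj v s)) (hT : T = S.filter (fun s => G.Adj v (x s))) :
    (K = T ∧ K.card ≤ 2) ∨ (K = S ∧ T.card ≤ 1) ∨ (T = S ∧ K.card ≤ 1) := by
  have mK : ∀ s, s ∈ K ↔ s ∈ S ∧ G.Adj v s := fun s => by rw [hK, mem_filter]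
  have mT : ∀ s, s ∈ T ↔ s ∈ S ∧ G.Adj v (x s) := fun s => by rw [hT, mem_filter]
  have hKS : K ⊆ S := fun s hs => ((mK s).1 hs).1
  have hTS : T ⊆ S := fun s hs => ((mT s).1 hs).1
  clear hK hT
  -- no element of `S \ K` and of `S \ T` simultaneously with mixed ones
  have key : ∀ i ∈ S, i ∈ K → i ∉ T → ∀ k ∈ S, k ∉ K → False := by
    intro i hi hiK hiT k hk hkK
    have hvi := ((mK i).1 hiK).2
    have hvxi : ¬ G.Adj v (x i) := fun hc => hiT ((mT i).2 ⟨hi, hc⟩)
    have hvk : ¬ G.Adj v k := fun hc => hkK ((mK k).2 ⟨hk, hc⟩)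
    have hki : k ≠ i := by rintro rfl; exact hkK hiK
    have hvxk : G.Adj v (x k) := (ConeAux.r2 h hv hvx hk hi hki hvk hvxi).1 hvi
    have c1 : (S \ K).card ≤ 1 := by
      rw [card_le_one]
      intro a ha b hb
      by_contra hab
      rw [mem_sdiff] at ha hb
      exact ConeAux.r1 h hi ha.1 hb.1 hab hvi hvxi (fun hc => ha.2 ((mK a).2 ⟨ha.1, hc⟩))
        (fun hc => hb.2 ((mK b).2 ⟨hb.1, hc⟩))
    have c2 : (S \ T).card ≤ 1 := by
      rw [card_le_one]
      intro a ha b hb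
      by_contra hab
      rw [mem_sdiff] at ha hb
      exact ConeAux.r1' h hk ha.1 hb.1 hab hvxk hvk (fun hc => ha.2 ((mT a).2 ⟨ha.1, hc⟩))
        (fun hc => hb.2 ((mT b).2 ⟨hb.1, hc⟩))
    have c3 : 3 ≤ (K ∩ T).card := by
      have h1 : S \ (K ∩ T) = (S \ K) ∪ (S \ T) := by
        ext a; simp only [mem_sdiff, mem_inter, mem_union]; tauto
      have h2 := card_sdiff_add_card_eq_card (s := K ∩ T) (t := S)
        (fun a ha => hKS (mem_inter.1 ha).1)
      have h3 := card_union_le (S \ K) (S \ T)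
      rw [← h1] at h3
      have h4 := h.card
      omega
    obtain ⟨a, ha, b, hb, c, hc, hab, hac, hbc⟩ := ConeAux.three c3
    rw [mem_inter] at ha hb hc
    exact ConeAux.r3 h (hKS ha.1) (hKS hb.1) (hKS hc.1) hab hac hbc ((mK a).1 ha.1).2
      ((mT a).1 ha.2).2 ((mK c).1 hc.1).2 ((mT b).1 hb.2).2
  have key' : ∀ i ∈ S, i ∈ T → i ∉ K → ∀ k ∈ S, k ∉ T → False := by
    intro i hi hiT hiK k hk hkT
    have hvi : ¬ G.Adj v i := fun hc => hiK ((mK i).2 ⟨hi, hc⟩)
    have hvxi := ((mT i).1 hiT).2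
    have hvxk : ¬ G.Adj v (x k) := fun hc => hkT ((mT k).2 ⟨hk, hc⟩)
    have hki : i ≠ k := by rintro rfl; exact hkT hiT
    have hvk : G.Adj v k := (ConeAux.r2 h hv hvx hi hk hki hvi hvxk).2 hvxi
    exact key k hk ((mK k).2 ⟨hk, hvk⟩) hkT i hi hiK
  have hS3 : 3 ≤ S.card := by have := h.card; omega
  by_cases c1 : K ⊆ T
  · by_cases c2 : T ⊆ K
    · left
      have hKT : K = T := Subset.antisymm c1 c2
      refine ⟨hKT, ?_⟩
      by_contra hc
      obtain ⟨a, ha, b, hb, c, hc, hab, hac, hbc⟩ := ConeAux.three (A := K) (by omega)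
      exact ConeAux.r3 h (hKS ha) (hKS hb) (hKS hc) hab hac hbc ((mK a).1 ha).2
        ((mT a).1 (c1 ha)).2 ((mK c).1 hc).2 ((mT b).1 (c1 hb)).2
    · right; right
      obtain ⟨i, hiT, hiK⟩ := not_subset.1 c2
      have hTS' : T = S := by
        refine Subset.antisymm hTS fun k hk => ?_
        by_contra hkT
        exact key' i (hTS hiT) hiT hiK k hk hkT
      refine ⟨hTS', ?_⟩
      rw [card_le_one]
      intro a ha b hb
      by_contra hab
      obtain ⟨c, hc, hca, hcb⟩ := ConeAux.exists_third hS3 a b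
      have haT : a ∈ T := by rw [hTS']; exact hKS ha
      have hcT : c ∈ T := by rw [hTS']; exact hc
      exact ConeAux.r3 h (hKS ha) hc (hKS hb) hca.symm hab hcb ((mK a).1 ha).2 ((mT a).1 haT).2
        ((mK b).1 hb).2 ((mT c).1 hcT).2
  · right; left
    obtain ⟨i, hiK, hiT⟩ := not_subset.1 c1
    have hKS' : K = S := by
      refine Subset.antisymm hKS fun k hk => ?_
      by_contra hkK
      exact key i (hKS hiK) hiK hiT k hk hkK
    refine ⟨hKS', ?_⟩
    rw [card_le_one]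
    intro a ha b hb
    by_contra hab
    obtain ⟨c, hc, hca, hcb⟩ := ConeAux.exists_third hS3 a b
    have haK : a ∈ K := by rw [hKS']; exact hTS ha
    have hcK : c ∈ K := by rw [hKS']; exact hc
    exact ConeAux.r3 h (hTS ha) (hTS hb) hc hab hca.symm hcb.symm ((mK a).1 haK).2 ((mT a).1 ha).2
      ((mK c).1 hcK).2 ((mT b).1 hb).2

end

namespace ConeAux

open scoped Classical in
/-- the case of an independent cleaned set -/
theorem core {c : ℕ} {V : Type} [Fintype V] [DecidableEq V] (G : SimpleGraph V) (S : Finset V)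
    (x : V → V) (h : CoM G S x) (hWL : WL G c S) (hWL' : WL G (c + 1) (S.image x))
    (hcl : ∀ w, (nb G w S).card ≤ 1 ∨ (S \ nb G w S).card ≤ 1)
    {N₁ N₂ : ℕ}
    (hN₁ : ∀ (A : Finset V) (y : V → V), WL G c A →
      (∀ s ∈ A, ∀ t ∈ A, (G.Adj s (y t) ↔ s = t)) → A.card < N₁)
    (hN₂ : ∀ (A : Finset V) (y : V → V), WL G (c + 1) A →
      (∀ s ∈ A, ∀ t ∈ A, (G.Adj s (y t) ↔ s = t)) → A.card < N₂)
    (hS : N₁ + N₂ + 6 * c + 2 ≤ S.card) : False := by
  have hinj : ∀ s ∈ S, ∀ t ∈ S, x s = x t → s = t := by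
    intro s hs t ht he
    by_contra hst
    have h1 := (h.adj s hs t ht).2 hst
    rw [← he] at h1
    exact (h.adj s hs s hs).1 h1 rfl
  -- touched elements
  set A₁ : Finset V := S.filter (fun s => ∃ v, ∀ t ∈ S, (G.Adj t v ↔ t = s)) with hA₁
  set A₂ : Finset V := S.filter (fun s => ∃ v, ∀ t ∈ S, (G.Adj (x t) v ↔ t = s)) with hA₂
  have cA₁ : A₁.card < N₁ := by
    have hch : ∀ s, ∃ v, s ∈ A₁ → ∀ t ∈ S, (G.Adj t v ↔ t = s) := by
      intro s
      by_cases hs : s ∈ A₁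
      · obtain ⟨v, hv⟩ := (mem_filter.1 hs).2
        exact ⟨v, fun _ => hv⟩
      · exact ⟨s, fun h => absurd h hs⟩
    choose y hy using hch
    exact hN₁ A₁ y (hWL.sub (filter_subset _ _))
      (fun s hs t ht => hy t ht s (mem_filter.1 hs).1)
  have cA₂ : A₂.card < N₂ := by
    have hch : ∀ s, ∃ v, s ∈ A₂.image x → ∀ t ∈ S, (G.Adj (x t) v ↔ x t = s) := by
      intro s
      by_cases hs : s ∈ A₂.image x
      · obtain ⟨r, hr, rfl⟩ := mem_image.1 hs
        obtain ⟨v, hv⟩ := (mem_filter.1 hr).2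
        refine ⟨v, fun _ t ht => ?_⟩
        rw [hv t ht]
        constructor
        · rintro rfl; rfl
        · intro he; exact hinj t ht r (mem_filter.1 hr).1 he
      · exact ⟨s, fun h => absurd h hs⟩
    choose y hy using hch
    have h1 := hN₂ (A₂.image x) y (hWL'.sub (image_subset_image (filter_subset _ _))) (by
      intro s hs t ht
      obtain ⟨r, hr, rfl⟩ := mem_image.1 hs
      exact hy t ht r (mem_filter.1 hr).1)
    rwa [card_image_of_injOn] at h1
    intro s hs t ht he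
    exact hinj s (mem_filter.1 hs).1 t (mem_filter.1 ht).1 he
  -- the untouched ones
  have cI₀ : 3 * c + 1 ≤ (S \ (A₁ ∪ A₂)).card := by
    have h1 := le_card_sdiff (A₁ ∪ A₂) S
    have h2 := card_union_le A₁ A₂
    omega
  obtain ⟨I, hI, hIc⟩ := exists_subset_card_eq cI₀
  have hIS : I ⊆ S := fun s hs => (mem_sdiff.1 (hI hs)).1
  have hI1 : ∀ s ∈ I, s ∉ A₁ := fun s hs hc => (mem_sdiff.1 (hI hs)).2 (mem_union_left _ hc)
  have hI2 : ∀ s ∈ I, s ∉ A₂ := fun s hs hc => (mem_sdiff.1 (hI hs)).2 (mem_union_right _ hc)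
  have hxS : ∀ t ∈ S, x t ∉ S := by
    intro t ht hc
    obtain ⟨s, hs, hst, -⟩ := exists_third (A := S) (by have := h.card; omega) t t
    exact h.indS s hs (x t) hc ((h.adj s hs t ht).2 hst)
  -- the cut
  set X : Finset V := I ∪ I.image x with hX
  have hcut : cut G X ≤ 2 := by
    unfold cut
    refine le_trans (rk_le_cols (({I, I.image x} : Finset (Finset V))) ?_) (card_le_two)
    intro v hv
    rw [mem_compl, hX, mem_union, not_or] at hv
    -- constant traces
    have nbX : ∀ (P Q : Prop), (∀ s ∈ I, (G.Adj v s ↔ P)) → (∀ s ∈ I, (G.Adj v (x s) ↔ Q)) →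
        ¬ (P ∧ Q) → nb G v X = ∅ ∨ nb G v X ∈ ({I, I.image x} : Finset (Finset V)) := by
      intro P Q hP hQ hPQ
      by_cases p : P
      · have q : ¬ Q := fun q => hPQ ⟨p, q⟩
        right
        rw [mem_insert]; left
        ext a
        rw [mem_nb, hX, mem_union, mem_image]
        constructor
        · rintro ⟨ha | ⟨s, hs, rfl⟩, hva⟩
          · exact ha
          · exact absurd ((hQ s hs).1 hva) q
        · intro ha
          exact ⟨Or.inl ha, (hP a ha).2 p⟩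
      · by_cases q : Q
        · right
          rw [mem_insert, mem_singleton]; right
          ext a
          rw [mem_nb, hX, mem_union, mem_image]
          constructor
          · rintro ⟨ha | ha, hva⟩
            · exact absurd ((hP a ha).1 hva) p
            · exact ha
          · rintro ⟨s, hs, rfl⟩
            exact ⟨Or.inr ⟨s, hs, rfl⟩, (hQ s hs).2 q⟩
        · left
          rw [eq_empty_iff_forall_notMem]
          intro a ha
          rw [mem_nb, hX, mem_union, mem_image] at ha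
          rcases ha with ⟨ha | ⟨s, hs, rfl⟩, hva⟩
          · exact p ((hP a ha).1 hva)
          · exact q ((hQ s hs).1 hva)
    by_cases hvS : v ∈ S
    · -- `v ∈ S \ I`
      refine nbX False True ?_ ?_ (fun h => h.1)
      · intro s hs
        simp only [iff_false]
        exact h.indS v hvS s (hIS hs)
      · intro s hs
        simp only [iff_true]
        exact (h.adj v hvS s (hIS hs)).2 (by rintro rfl; exact hv.1 hs)
    by_cases hvx : v ∈ S.image x
    · obtain ⟨r, hr, rfl⟩ := mem_image.1 hvx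
      have hrI : r ∉ I := fun hc => hv.2 (mem_image_of_mem x hc)
      refine nbX True False ?_ ?_ (fun h => h.2)
      · intro s hs
        simp only [iff_true]
        exact ((h.adj s (hIS hs) r hr).2 (by rintro rfl; exact hrI hs)).symm
      · intro s hs
        simp only [iff_false]
        exact h.indX r hr s (hIS hs)
    -- the types
    obtain ⟨K, hK⟩ : ∃ K, K = S.filter (fun s => G.Adj v s) := ⟨_, rfl⟩
    obtain ⟨T, hT⟩ : ∃ T, T = S.filter (fun s => G.Adj v (x s)) := ⟨_, rfl⟩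
    have mK : ∀ s, s ∈ K ↔ s ∈ S ∧ G.Adj v s := fun s => by rw [hK, mem_filter]
    have mT : ∀ s, s ∈ T ↔ s ∈ S ∧ G.Adj v (x s) := fun s => by rw [hT, mem_filter]
    have hKI : K.card ≤ 1 → ∀ s ∈ I, ¬ G.Adj v s := by
      intro hc s hs hvs
      apply hI1 s hs
      rw [hA₁, mem_filter]
      refine ⟨hIS hs, v, fun t ht => ?_⟩
      constructor
      · intro htv
        exact card_le_one.1 hc t ((mK t).2 ⟨ht, htv.symm⟩) s ((mK s).2 ⟨hIS hs, hvs⟩)
      · rintro rfl; exact hvs.symm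
    have hTI : T.card ≤ 1 → ∀ s ∈ I, ¬ G.Adj v (x s) := by
      intro hc s hs hvs
      apply hI2 s hs
      rw [hA₂, mem_filter]
      refine ⟨hIS hs, v, fun t ht => ?_⟩
      constructor
      · intro htv
        exact card_le_one.1 hc t ((mT t).2 ⟨ht, htv.symm⟩) s ((mT s).2 ⟨hIS hs, hvs⟩)
      · rintro rfl; exact hvs.symm
    rcases h.types hvS hvx hK hT with ⟨hKT, hK2⟩ | ⟨hKS, hT1⟩ | ⟨hTS, hK1⟩
    · have hK1 : K.card ≤ 1 := by
        have e1 : nb G v S = K := by ext a; rw [mem_nb, mK]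
        rcases hcl v with h1 | h1
        · rwa [e1] at h1
        · rw [e1] at h1
          have h2 := le_card_sdiff K S
          have h3 := h.card
          omega
      refine nbX False False ?_ ?_ (fun h => h.1)
      · intro s hs
        simp only [iff_false]
        exact hKI hK1 s hs
      · intro s hs
        simp only [iff_false]
        exact hTI (hKT ▸ hK1) s hs
    · refine nbX True False ?_ ?_ (fun h => h.2)
      · intro s hs
        simp only [iff_true]
        exact ((mK s).1 (hKS ▸ hIS hs)).2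
      · intro s hs
        simp only [iff_false]
        exact hTI hT1 s hs
    · refine nbX False True ?_ ?_ (fun h => h.1)
      · intro s hs
        simp only [iff_false]
        exact hKI hK1 s hs
      · intro s hs
        simp only [iff_true]
        exact ((mT s).1 (hTS ▸ hIS hs)).2
  have hw := hWL X
  have h1 : I.card ≤ (S ∩ X).card := card_le_card fun s hs =>
    mem_inter.2 ⟨hIS hs, mem_union_left _ hs⟩
  have h2 : (S \ I).card ≤ (S \ X).card := by
    refine card_le_card fun s hs => ?_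
    rw [mem_sdiff] at hs ⊢
    refine ⟨hs.1, fun hc => ?_⟩
    rcases mem_union.1 hc with hc | hc
    · exact hs.2 hc
    · obtain ⟨t, ht, rfl⟩ := mem_image.1 hc
      exact hxS t (hIS ht) hs.1
  have h3 := le_card_sdiff I S
  have h4 : c * (cut G X + 1) ≤ c * 3 := Nat.mul_le_mul_left c (by omega)
  have h5 : 3 * c + 1 ≤ min (S ∩ X).card (S \ X).card := by
    rw [le_min_iff]
    omega
  omega

end ConeAux

theorem C_main (c : ℕ) : ∃ N : ℕ, ∀ (V : Type) [Fintype V] [DecidableEq V] (G : SimpleGraph V),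
    Cls G → ∀ (S : Finset V) (x : V → V), WL G c S →
      (∀ s ∈ S, ∀ t ∈ S, (G.Adj s (x t) ↔ s ≠ t)) → S.card < N := by
  obtain ⟨N₁, hN₁⟩ := T_main c
  obtain ⟨N₂, hN₂⟩ := T_main (c + 1)
  obtain ⟨N₃, hN₃⟩ := clean c (N₁ + N₂ + 6 * c + 5)
  obtain ⟨N₄, hN₄⟩ := exists_indep (c + 1) N₃
  obtain ⟨N₅, hN₅⟩ := exists_indep c N₄
  refine ⟨N₅, fun V _ _ G hG S x hWL hadj => ?_⟩
  by_contra hcon
  push Not at hcon
  obtain ⟨S₁, hS₁, hS₁c, hS₁i⟩ := hN₅ V G hG S hWL hcon
  have hinj : ∀ s ∈ S, ∀ t ∈ S, x s = x t → s = t := by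
    intro s hs t ht he
    by_contra hst
    have h1 := (hadj s hs t ht).2 hst
    rw [← he] at h1
    exact (hadj s hs s hs).1 h1 rfl
  have hWL₁ : WL G (c + 1) (S₁.image x) := by
    refine transfer_set S₁ x True (fun s hs t ht => hinj s (hS₁ hs) t (hS₁ ht)) ?_ ?_
      (hWL.sub hS₁)
    · intro s hs
      simp only [iff_true]
      intro h
      exact (hadj s (hS₁ hs) s (hS₁ hs)).1 h rfl
    · intro s hs t ht hst
      simp only [iff_true]
      exact (hadj s (hS₁ hs) t (hS₁ ht)).2 hst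
  have hc₁ : (S₁.image x).card = N₄ := by
    rw [card_image_of_injOn, hS₁c]
    intro s hs t ht he
    exact hinj s (hS₁ hs) t (hS₁ ht) he
  obtain ⟨X₂, hX₂, hX₂c, hX₂i⟩ := hN₄ V G hG (S₁.image x) hWL₁ hc₁.ge
  set S₂ : Finset V := S₁.filter (fun s => x s ∈ X₂) with hS₂
  have hS₂S₁ : S₂ ⊆ S₁ := filter_subset _ _
  have himg : S₂.image x = X₂ := by
    ext a
    rw [mem_image]
    constructor
    · rintro ⟨s, hs, rfl⟩
      exact (mem_filter.1 hs).2
    · intro ha
      obtain ⟨s, hs, rfl⟩ := mem_image.1 (hX₂ ha)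
      exact ⟨s, mem_filter.2 ⟨hs, ha⟩, rfl⟩
  have hS₂c : S₂.card = N₃ := by
    rw [← hX₂c, ← himg, card_image_of_injOn]
    intro s hs t ht he
    exact hinj s (hS₁ (hS₂S₁ hs)) t (hS₁ (hS₂S₁ ht)) he
  obtain ⟨S₃, hS₃, hS₃c, hcl⟩ := hN₃ V G hG S₂ (hWL.sub (hS₂S₁.trans hS₁)) (hS₁i.sub hS₂S₁)
    hS₂c.ge
  have hS₃S : S₃ ⊆ S := hS₃.trans (hS₂S₁.trans hS₁)
  have hxX : ∀ s ∈ S₃, x s ∈ X₂ := fun s hs => (mem_filter.1 (hS₃ hs)).2
  have hCM : CoM G S₃ x :=
    { cls := hG
      card := by omega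
      indS := fun s hs t ht => hS₁i s (hS₂S₁ (hS₃ hs)) t (hS₂S₁ (hS₃ ht))
      indX := fun s hs t ht => hX₂i (x s) (hxX s hs) (x t) (hxX t ht)
      adj := fun s hs t ht => hadj s (hS₃S hs) t (hS₃S ht) }
  refine ConeAux.core G S₃ x hCM (hWL.sub hS₃S) (hWL₁.sub ?_) hcl
    (N₁ := N₁) (N₂ := N₂) (fun A y => hN₁ V G hG A y) (fun A y => hN₂ V G hG A y) (by omega)
  intro a ha
  obtain ⟨s, hs, rfl⟩ := mem_image.1 ha
  exact hX₂ (hxX s hs)

end GemCW
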