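import Pool.Agent.Lib.GemCW.Submod
import Pool.Agent.Lib.GemCW.RkB

/-!
# Rank decompositions from the absence of well-linked sets

`Dec G w A`: the set `A` has a hierarchical decomposition all of whose parts have cut rank `≤ w`.

`exists_split`: Suppose every `WL G 2`-set has size `< w` (`1 ≤ w`), `2 ≤ |A|`, `cut G A ≤ w`.
Then `A = A₁ ∪ A₂`, disjoint, nonempty, with `cut G A₁ ≤ w`, `cut G A₂ ≤ w`.

Proof.  If `cut G A < w`, peel off a vertex `v ∈ A`: `cut {v} ≤ 1 ≤ w`,
`cut (A \ {v}) ≤ cut A + 1 ≤ w`.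
If `cut G A = w`, let `B ⊆ A` with `|B| = w`, all `C ⊆ B` having `rk G C Aᶜ = |C|`
(`exists_basis`).  `B` is not `WL G 2`, so there is `X` with
`|B ∩ X| > 2 (ρ+1)` and `|B \ X| > 2 (ρ+1)`, `ρ = cut G X`.  Put `A₁ = A ∩ X`, `A₂ = A \ X`.
Both are nonempty.  Claim `cut G (A ∪ X) > cut G X`: rows `B \ X`, columns `Aᶜ \ X`:
`|B \ X| = rk (B \ X) Aᶜ ≤ rk (B \ X) (Aᶜ ∩ X) + rk (B \ X) (Aᶜ \ X)
  ≤ rk Xᶜ X + rk (A ∪ X) (A ∪ X)ᶜ = ρ + cut (A ∪ X)`, so `cut (A ∪ X) ≥ 2ρ+3-ρ > ρ`.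
By submodularity `cut (A ∩ X) ≤ cut A + cut X - cut (A ∪ X) < w`.
In the same way, with `Xᶜ` in place of `X` (`cut G Xᶜ = cut G X`), `cut (A ∩ Xᶜ) < w`.

`dec_of_no_WL`: strong induction on `|A|`.
-/

namespace GemCW

open Finset

variable {V : Type*} [Fintype V] [DecidableEq V]

/-- `A` has a hierarchical decomposition into parts of cut rank at most `w`. -/
inductive Dec (G : SimpleGraph V) (w : ℕ) : Finset V → Prop
  | leaf (v : V) : cut G {v} ≤ w → Dec G w {v}
  | node (A B : Finset V) : Disjoint A B → cut G (A ∪ B) ≤ w → Dec G w A → Dec G w B →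
      Dec G w (A ∪ B)

theorem Dec.cut_le {G : SimpleGraph V} {w : ℕ} {A : Finset V} (h : Dec G w A) : cut G A ≤ w := by
  cases h <;> assumption

theorem Dec.nonempty {G : SimpleGraph V} {w : ℕ} {A : Finset V} (h : Dec G w A) :
    A.Nonempty := by
  induction h with
  | leaf v _ => exact singleton_nonempty v
  | node A B _ _ _ _ hA _ => exact hA.mono subset_union_left

theorem cut_peel {G : SimpleGraph V} {w : ℕ} (h : ∀ S : Finset V, WL G 2 S → S.card < w)
    (A : Finset V) (hc : cut G A = w) :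
    ∃ X : Finset V, (A ∩ X).Nonempty ∧ (A \ X).Nonempty ∧ cut G (A ∩ X) ≤ w ∧
      cut G (A \ X) ≤ w := by
  obtain ⟨B, hBA, hBc, hB⟩ := exists_basis G A Aᶜ
  have hBw : B.card = w := by rw [hBc, ← hc]; rfl
  have hnot : ¬ WL G 2 B := by
    intro hwl
    have := h B hwl
    omega
  unfold WL at hnot
  push Not at hnot
  obtain ⟨X, hX⟩ := hnot
  -- the key estimate
  have key : ∀ Y : Finset V, 2 * (cut G Y + 1) < (B \ Y).card → cut G (A ∩ Y) ≤ w := by
    intro Y hY
    have h1 : rk G (B \ Y) Aᶜ = (B \ Y).card := hB _ sdiff_subset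
    have h2 : rk G (B \ Y) Aᶜ ≤ rk G (B \ Y) (Aᶜ ∩ Y) + rk G (B \ Y) (Aᶜ \ Y) := by
      calc rk G (B \ Y) Aᶜ ≤ rk G (B \ Y) ((Aᶜ ∩ Y) ∪ (Aᶜ \ Y)) :=
            rk_mono (Subset.refl _) (by
              intro x hx
              by_cases hxY : x ∈ Y
              · exact mem_union_left _ (mem_inter.mpr ⟨hx, hxY⟩)
              · exact mem_union_right _ (mem_sdiff.mpr ⟨hx, hxY⟩))
        _ ≤ _ := rk_union_right G _ _ _
    have h3 : rk G (B \ Y) (Aᶜ ∩ Y) ≤ cut G Y := by
      calc rk G (B \ Y) (Aᶜ ∩ Y) ≤ rk G Yᶜ Y :=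
            rk_mono (fun x hx => mem_compl.mpr (mem_sdiff.mp hx).2) inter_subset_right
        _ = rk G Y Yᶜ := rk_symm G _ _
        _ = cut G Y := rfl
    have h4 : rk G (B \ Y) (Aᶜ \ Y) ≤ cut G (A ∪ Y) := by
      refine rk_mono (fun x hx => mem_union_left _ (hBA (mem_sdiff.mp hx).1)) ?_
      intro x hx
      rw [mem_sdiff, mem_compl] at hx
      rw [mem_compl, mem_union]
      tauto
    have h5 := cut_submod G A Y
    omega
  have hmin := lt_min_iff.mp hX
  refine ⟨X, ?_, ?_, ?_, ?_⟩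
  · have : (B ∩ X).Nonempty := card_pos.mp (by omega)
    exact this.mono (inter_subset_inter_right hBA)
  · have : (B \ X).Nonempty := card_pos.mp (by omega)
    exact this.mono (sdiff_subset_sdiff hBA (Subset.refl X))
  · exact key X hmin.2
  · have := key Xᶜ (by
      rw [cut_compl]
      have e : B \ Xᶜ = B ∩ X := by
        ext x; simp
      rw [e]
      exact hmin.1)
    have e : A ∩ Xᶜ = A \ X := by
      ext x; simp
    rwa [e] at this

theorem exists_split {G : SimpleGraph V} {w : ℕ} (hw : 1 ≤ w)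
    (h : ∀ S : Finset V, WL G 2 S → S.card < w) (A : Finset V) (hA : 2 ≤ A.card)
    (hc : cut G A ≤ w) :
    ∃ A₁ A₂ : Finset V, A₁.Nonempty ∧ A₂.Nonempty ∧ Disjoint A₁ A₂ ∧ A₁ ∪ A₂ = A ∧
      cut G A₁ ≤ w ∧ cut G A₂ ≤ w := by
  rcases hc.lt_or_eq with hlt | heq
  · obtain ⟨v, hv⟩ : A.Nonempty := card_pos.mp (by omega)
    refine ⟨{v}, A.erase v, singleton_nonempty v, ?_, ?_, ?_, ?_, ?_⟩
    · rw [← card_pos, card_erase_of_mem hv]
      omega
    · rw [disjoint_singleton_left]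
      exact notMem_erase v A
    · rw [← insert_eq, insert_erase hv]
    · exact (cut_singleton_le G v).trans hw
    · exact (cut_erase_le G A v).trans hlt
  · obtain ⟨X, h1, h2, h3, h4⟩ := cut_peel h A heq
    refine ⟨A ∩ X, A \ X, h1, h2, ?_, ?_, h3, h4⟩
    · exact disjoint_sdiff.mono_left inter_subset_right
    · ext x; by_cases hx : x ∈ X <;> simp [hx]

theorem dec_of_no_WL {G : SimpleGraph V} {w : ℕ} (hw : 1 ≤ w)
    (h : ∀ S : Finset V, WL G 2 S → S.card < w) (A : Finset V) (hA : A.Nonempty)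
    (hc : cut G A ≤ w) : Dec G w A := by
  induction' hn : A.card using Nat.strong_induction_on with n ih generalizing A
  rcases Nat.lt_or_ge A.card 2 with hlt | hge
  · have h1 : A.card = 1 := by
      have := card_pos.mpr hA
      omega
    obtain ⟨v, rfl⟩ := card_eq_one.mp h1
    exact Dec.leaf v hc
  · obtain ⟨A₁, A₂, n1, n2, hd, hu, c1, c2⟩ := exists_split hw h A hge hc
    have hcard : A₁.card + A₂.card = A.card := by
      rw [← hu, card_union_of_disjoint hd]
    have p1 := card_pos.mpr n1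
    have p2 := card_pos.mpr n2
    have d1 := ih A₁.card (by omega) A₁ n1 c1 rfl
    have d2 := ih A₂.card (by omega) A₂ n2 c2 rfl
    have := Dec.node A₁ A₂ hd (by rw [hu]; exact hc) d1 d2
    rwa [hu] at this

end GemCW
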