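import Mathlib

/-!
# (gem, P₂+P₃)-free graphs: basic definitions

All graphs are finite (`[Fintype V]`).  `Cls G` says that `G` is (gem, P₂+P₃)-free, written
elementwise.  `nb G v A` is the trace of the vertex `v` on the set `A`.  `rk G A B` is the rank over
`ZMod 2` of the adjacency matrix between `A` and `B`, `cut G X = rk G X Xᶜ` is the cut rank.
`WL G c S` says that `S` is well linked: no cut of small rank splits `S` in two large parts.
-/

namespace GemCW

open Finset

variable {V : Type*}

/-- `G` has no induced gem (path `a b c d` plus a vertex `e` adjacent to all four). -/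
def GemFree (G : SimpleGraph V) : Prop :=
  ∀ a b c d e : V, G.Adj a b → G.Adj b c → G.Adj c d → ¬ G.Adj a c → ¬ G.Adj b d → ¬ G.Adj a d →
    G.Adj e a → G.Adj e b → G.Adj e c → G.Adj e d → False

/-- `G` has no induced `P₂+P₃` (edge `u v`, path `x y z`). -/
def P2P3Free (G : SimpleGraph V) : Prop :=
  ∀ u v x y z : V, G.Adj u v → G.Adj x y → G.Adj y z → ¬ G.Adj x z → x ≠ z →
    ¬ G.Adj u x → ¬ G.Adj u y → ¬ G.Adj u z → ¬ G.Adj v x → ¬ G.Adj v y → ¬ G.Adj v z → False

/-- The class of (gem, `P₂+P₃`)-free graphs. -/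
structure Cls (G : SimpleGraph V) : Prop where
  gem : GemFree G
  pp : P2P3Free G

/-- independent set -/
def Indep (G : SimpleGraph V) (S : Finset V) : Prop := ∀ a ∈ S, ∀ b ∈ S, ¬ G.Adj a b

/-- clique -/
def Clq (G : SimpleGraph V) (S : Finset V) : Prop := ∀ a ∈ S, ∀ b ∈ S, a ≠ b → G.Adj a b

open scoped Classical in
/-- the trace of `v` on `A` -/
noncomputable def nb (G : SimpleGraph V) (v : V) (A : Finset V) : Finset V :=
  A.filter (fun a => G.Adj v a)

@[simp] theorem mem_nb {G : SimpleGraph V} {v a : V} {A : Finset V} :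
    a ∈ nb G v A ↔ a ∈ A ∧ G.Adj v a := by
  simp [nb]

theorem nb_sub {G : SimpleGraph V} {v : V} {A : Finset V} : nb G v A ⊆ A := by
  intro a ha; exact (mem_nb.1 ha).1

theorem Indep.sub {G : SimpleGraph V} {S T : Finset V} (h : Indep G S) (hT : T ⊆ S) : Indep G T :=
  fun a ha b hb => h a (hT ha) b (hT hb)

theorem Clq.sub {G : SimpleGraph V} {S T : Finset V} (h : Clq G S) (hT : T ⊆ S) : Clq G T :=
  fun a ha b hb => h a (hT ha) b (hT hb)

variable [Fintype V]

open scoped Classical in
/-- rank over `ZMod 2` of the adjacency matrix between `A` and `B` -/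
noncomputable def rk (G : SimpleGraph V) (A B : Finset V) : ℕ :=
  (Matrix.of (fun u v : V => if u ∈ A ∧ v ∈ B ∧ G.Adj u v then (1 : ZMod 2) else 0)).rank

open scoped Classical in
/-- common neighbourhood -/
noncomputable def cn (G : SimpleGraph V) (v d : V) : Finset V :=
  univ.filter (fun x => G.Adj v x ∧ G.Adj d x)

@[simp] theorem mem_cn {G : SimpleGraph V} {v d x : V} :
    x ∈ cn G v d ↔ G.Adj v x ∧ G.Adj d x := by
  simp [cn]

variable [DecidableEq V]

/-- the cut rank -/
noncomputable def cut (G : SimpleGraph V) (X : Finset V) : ℕ := rk G X Xᶜ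

/-- `S` is well linked with constant `c` -/
def WL (G : SimpleGraph V) (c : ℕ) (S : Finset V) : Prop :=
  ∀ X : Finset V, min (S ∩ X).card (S \ X).card ≤ c * (cut G X + 1)

theorem WL.sub {G : SimpleGraph V} {c : ℕ} {S T : Finset V} (h : WL G c S) (hT : T ⊆ S) :
    WL G c T := by
  intro X
  refine le_trans (min_le_min ?_ ?_) (h X)
  · exact card_le_card (inter_subset_inter_right hT)
  · exact card_le_card (sdiff_subset_sdiff hT (Subset.refl X))

theorem WL.mono {G : SimpleGraph V} {c c' : ℕ} {S : Finset V} (h : WL G c S) (hc : c ≤ c') :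
    WL G c' S := fun X => (h X).trans (Nat.mul_le_mul_right _ hc)

/-- `L` is (a union of co-components with connected complement, i.e.) a co-component of `C`. -/
structure CoComp (G : SimpleGraph V) (C L : Finset V) : Prop where
  sub : L ⊆ C
  full : ∀ p ∈ C, p ∉ L → ∀ x ∈ L, G.Adj p x
  conn : ∀ A ⊆ L, A.Nonempty → A ≠ L → ∃ x ∈ A, ∃ y ∈ L, y ∉ A ∧ ¬ G.Adj x y

end GemCW
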