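import Mathlib

/-!
# Digits

`dg b i k` is the `k`-th digit of `i` in base `b`.  Elementary facts; all by induction on `K`
(`Fin.sum_univ_succ`, `Nat.add_mul_div_left`, …).
-/

namespace GemCW

open Finset

/-- the `k`-th digit of `i` in base `b` -/
def dg (b i k : ℕ) : ℕ := i / b ^ k % b

theorem dg_lt {b : ℕ} (hb : 0 < b) (i k : ℕ) : dg b i k < b := Nat.mod_lt _ hb

theorem digAux_add {b K k s q : ℕ} (hb : 0 < b) (hk : k < K) :
    dg b (s + q * b ^ K) k = dg b s k := by
  unfold dg
  obtain ⟨m, rfl⟩ := Nat.exists_eq_add_of_lt hk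
  have e : s + q * b ^ (k + m + 1) = s + b ^ k * (b * (q * b ^ m)) := by
    rw [pow_succ, pow_add]
    ring
  rw [e, Nat.add_mul_div_left _ _ (Nat.pow_pos hb), Nat.add_mul_mod_self_left]

theorem digAux_top {b K s q : ℕ} (hs : s < b ^ K) (hq : q < b) :
    dg b (s + q * b ^ K) K = q := by
  unfold dg
  have hb : 0 < b := by omega
  rw [mul_comm q, Nat.add_mul_div_left _ _ (Nat.pow_pos hb), Nat.div_eq_of_lt hs, zero_add,
    Nat.mod_eq_of_lt hq]

theorem sum_dg_lt {b K : ℕ} (c : Fin K → ℕ) (h : ∀ k, c k < b) :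
    ∑ j, c j * b ^ (j : ℕ) < b ^ K := by
  induction K with
  | zero => simp
  | succ K ih =>
    rw [Fin.sum_univ_castSucc]
    have h1 := ih (fun j => c j.castSucc) (fun j => h _)
    have h2 := h (Fin.last K)
    simp only [Fin.val_castSucc, Fin.val_last]
    calc _ < b ^ K + c (Fin.last K) * b ^ K := by
          simpa using h1
      _ = (c (Fin.last K) + 1) * b ^ K := by ring
      _ ≤ b * b ^ K := by gcongr; omega
      _ = b ^ (K + 1) := by ring

theorem dg_sum {b K : ℕ} (c : Fin K → ℕ) (h : ∀ k, c k < b) (k : Fin K) :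
    dg b (∑ j, c j * b ^ (j : ℕ)) k = c k := by
  induction K with
  | zero => exact k.elim0
  | succ K ih =>
    have hb : 0 < b := lt_of_le_of_lt (Nat.zero_le _) (h k)
    rw [Fin.sum_univ_castSucc]
    simp only [Fin.val_castSucc, Fin.val_last]
    induction k using Fin.lastCases with
    | last => exact digAux_top (sum_dg_lt _ fun j => h _) (h _)
    | cast k =>
      rw [Fin.val_castSucc, digAux_add hb k.2]
      exact ih (fun j => c j.castSucc) (fun j => h _) k

theorem exists_dg {b K : ℕ} (c : Fin K → ℕ) (h : ∀ k, c k < b) :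
    ∃ i < b ^ K, ∀ k : Fin K, dg b i k = c k := by
  exact ⟨_, sum_dg_lt c h, dg_sum c h⟩

/-- every number below `b ^ K` is the sum of its digits -/
theorem sum_dg {b K i : ℕ} (hi : i < b ^ K) : ∑ j : Fin K, dg b i j * b ^ (j : ℕ) = i := by
  induction K generalizing i with
  | zero =>
    simp only [pow_zero, Nat.lt_one_iff] at hi
    simp [hi]
  | succ K ih =>
    have hb : 0 < b := by
      rcases Nat.eq_zero_or_pos b with h | h
      · rw [h, pow_succ, mul_zero] at hi
        omega
      · exact h
    have hr : i % b ^ K < b ^ K := Nat.mod_lt _ (Nat.pow_pos hb)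
    have hq : i / b ^ K < b := by
      rw [Nat.div_lt_iff_lt_mul (Nat.pow_pos hb), ← pow_succ']
      exact hi
    have hdecomp : i = i % b ^ K + i / b ^ K * b ^ K := by
      rw [mul_comm]
      exact (Nat.mod_add_div _ _).symm
    have h1 : ∀ j : Fin K, dg b i (j : ℕ) = dg b (i % b ^ K) j := by
      intro j
      conv_lhs => rw [hdecomp]
      exact digAux_add hb j.2
    have h2 : dg b i K = i / b ^ K := by
      conv_lhs => rw [hdecomp]
      exact digAux_top hr hq
    rw [Fin.sum_univ_castSucc]
    simp only [Fin.val_castSucc, Fin.val_last]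
    rw [h2]
    simp only [h1]
    rw [ih hr]
    exact hdecomp.symm

end GemCW
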