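import Pool.Agent.Lib.GemCW.Main

/-!
# The class in terms of induced subgraphs, and the complement class
-/

namespace GemCW

open SimpleGraph

/-- `P₁ + P₄` -/
abbrev P1P4 : SimpleGraph (Fin 1 ⊕ Fin 4) := (⊥ : SimpleGraph (Fin 1)) ⊕g pathGraph 4

/-- the complement of `P₂ + P₃` -/
abbrev coP2P3 : SimpleGraph (Fin 2 ⊕ Fin 3) := (pathGraph 2 ⊕g pathGraph 3)ᶜ

section emb
variable {V : Type*} {G : SimpleGraph V}

theorem Emb_mk1 {a b c d e : V} (gab : G.Adj a b) (gbc : G.Adj b c) (gcd : G.Adj c d)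
    (nac : ¬ G.Adj a c) (nbd : ¬ G.Adj b d) (nad : ¬ G.Adj a d) (nea : ¬ G.Adj e a)
    (neb : ¬ G.Adj e b) (nec : ¬ G.Adj e c) (ned : ¬ G.Adj e d) (ea : e ≠ a) (eb : e ≠ b)
    (ec : e ≠ c) (ed : e ≠ d) : Nonempty (P1P4 ↪g G) := by
  have ac : a ≠ c := by rintro rfl; exact nad gcd
  have bd : b ≠ d := by rintro rfl; exact nad gab
  have ad : a ≠ d := by rintro rfl; exact nac gcd.symm
  have nca : ¬ G.Adj c a := fun h => nac h.symm
  have ndb : ¬ G.Adj d b := fun h => nbd h.symm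
  have nda : ¬ G.Adj d a := fun h => nad h.symm
  have nae : ¬ G.Adj a e := fun h => nea h.symm
  have nbe : ¬ G.Adj b e := fun h => neb h.symm
  have nce : ¬ G.Adj c e := fun h => nec h.symm
  have nde : ¬ G.Adj d e := fun h => ned h.symm
  let F : Fin 1 ⊕ Fin 4 → V := Sum.elim (fun _ => e) ![a, b, c, d]
  have inj : Function.Injective F := by
    rintro (x | x) (y | y) hxy
    · congr 1; exact Subsingleton.elim _ _
    · exfalso
      fin_cases y <;> simp [F, ea, eb, ec, ed] at hxy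
    · exfalso
      fin_cases x <;> simp [F, ea.symm, eb.symm, ec.symm, ed.symm] at hxy
    · fin_cases x <;> fin_cases y <;>
        simp [F, gab.ne, gbc.ne, gcd.ne, gab.ne', gbc.ne', gcd.ne', ac, bd, ad, ac.symm, bd.symm,
          ad.symm] at hxy ⊢
  have key : ∀ p q, G.Adj (F p) (F q) ↔ P1P4.Adj p q := by
    rintro (x | x) (y | y)
    · simp [F]
    · fin_cases y <;> simp [F, nea, neb, nec, ned]
    · fin_cases x <;> simp [F, nae, nbe, nce, nde]
    · fin_cases x <;> fin_cases y <;>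
        simp [F, pathGraph_adj, gab, gbc, gcd, gab.symm, gbc.symm, gcd.symm, nac, nbd, nad, nca,
          ndb, nda]
  exact ⟨⟨⟨F, inj⟩, fun {p q} => key p q⟩⟩

theorem Emb_mk2 {u v x y z : V} (nuv : ¬ G.Adj u v) (uv : u ≠ v) (nxy : ¬ G.Adj x y)
    (xy : x ≠ y) (nyz : ¬ G.Adj y z) (yz : y ≠ z) (gxz : G.Adj x z) (gux : G.Adj u x)
    (guy : G.Adj u y) (guz : G.Adj u z) (gvx : G.Adj v x) (gvy : G.Adj v y) (gvz : G.Adj v z) :
    Nonempty (coP2P3 ↪g G) := by
  have nvu : ¬ G.Adj v u := fun h => nuv h.symm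
  have nyx : ¬ G.Adj y x := fun h => nxy h.symm
  have nzy : ¬ G.Adj z y := fun h => nyz h.symm
  let F : Fin 2 ⊕ Fin 3 → V := Sum.elim ![u, v] ![x, y, z]
  have inj : Function.Injective F := by
    rintro (p | p) (q | q) hpq
    · fin_cases p <;> fin_cases q <;> simp [F, uv, uv.symm] at hpq ⊢
    · exfalso
      fin_cases p <;> fin_cases q <;>
        simp [F, gux.ne, guy.ne, guz.ne, gvx.ne, gvy.ne, gvz.ne] at hpq
    · exfalso
      fin_cases p <;> fin_cases q <;>
        simp [F, gux.ne', guy.ne', guz.ne', gvx.ne', gvy.ne', gvz.ne'] at hpq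
    · fin_cases p <;> fin_cases q <;>
        simp [F, xy, xy.symm, yz, yz.symm, gxz.ne, gxz.ne'] at hpq ⊢
  have key : ∀ p q, G.Adj (F p) (F q) ↔ coP2P3.Adj p q := by
    rintro (p | p) (q | q)
    · fin_cases p <;> fin_cases q <;> simp [F, pathGraph_adj, nuv, nvu]
    · fin_cases p <;> fin_cases q <;> simp [F, pathGraph_adj, gux, guy, guz, gvx, gvy, gvz]
    · fin_cases p <;> fin_cases q <;>
        simp [F, pathGraph_adj, gux.symm, guy.symm, guz.symm, gvx.symm, gvy.symm, gvz.symm]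
    · fin_cases p <;> fin_cases q <;>
        simp [F, pathGraph_adj, gxz, gxz.symm, nxy, nyz, nyx, nzy]
  exact ⟨⟨⟨F, inj⟩, fun {p q} => key p q⟩⟩

end emb

theorem cls_compl_iff {V : Type*} (G : SimpleGraph V) :
    (IsEmpty (P1P4 ↪g G) ∧ IsEmpty (coP2P3 ↪g G)) ↔ Cls Gᶜ := by
  classical
  constructor
  · rintro ⟨h1, h2⟩
    constructor
    · intro a b c d e hab hbc hcd hac hbd had hea heb hec hed
      simp only [compl_adj, not_and, not_not] at *
      have ac : a ≠ c := by rintro rfl; exact hcd.2 (had hcd.1)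
      have bd : b ≠ d := by rintro rfl; exact hab.2 (had hab.1)
      have ad : a ≠ d := by rintro rfl; exact hcd.2 (hac hcd.1.symm).symm
      have gac := hac ac
      have gbd := hbd bd
      have gad := had ad
      exact (not_nonempty_iff.2 h1) (Emb_mk1 gbd gad.symm gac (fun h => hab.2 h.symm)
        (fun h => hcd.2 h.symm) hbc.2 heb.2 hed.2 hea.2 hec.2 heb.1 hed.1 hea.1 hec.1)
    · intro u v x y z huv hxy hyz hxz hne hux huy huz hvx hvy hvz
      simp only [compl_adj, not_and, not_not] at *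
      have ux : u ≠ x := by rintro rfl; exact hxy.2 (huy hxy.1)
      have uy : u ≠ y := by rintro rfl; exact hxy.2 (hux hxy.1.symm).symm
      have uz : u ≠ z := by rintro rfl; exact hyz.2 (huy hyz.1.symm).symm
      have vx : v ≠ x := by rintro rfl; exact hxy.2 (hvy hxy.1)
      have vy : v ≠ y := by rintro rfl; exact hxy.2 (hvx hxy.1.symm).symm
      have vz : v ≠ z := by rintro rfl; exact hyz.2 (hvy hyz.1.symm).symm
      exact (not_nonempty_iff.2 h2) (Emb_mk2 huv.2 huv.1 hxy.2 hxy.1 hyz.2 hyz.1 (hxz hne)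
        (hux ux) (huy uy) (huz uz) (hvx vx) (hvy vy) (hvz vz))
  · intro h
    constructor
    · refine ⟨fun f => ?_⟩
      have A : ∀ p q, G.Adj (f p) (f q) ↔ P1P4.Adj p q := fun p q => f.map_rel_iff
      have N : ∀ p q, p ≠ q → f p ≠ f q := fun p q hpq e => hpq (f.injective e)
      have C : ∀ p q, p ≠ q → ¬ P1P4.Adj p q → Gᶜ.Adj (f p) (f q) := fun p q h1 h2 =>
        (compl_adj _ _ _).2 ⟨N p q h1, fun h3 => h2 ((A p q).1 h3)⟩
      have D : ∀ p q, P1P4.Adj p q → ¬ Gᶜ.Adj (f p) (f q) := fun p q h1 h2 =>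
        ((compl_adj _ _ _).1 h2).2 ((A p q).2 h1)
      refine h.gem (f (.inr 2)) (f (.inr 0)) (f (.inr 3)) (f (.inr 1)) (f (.inl 0))
        (C _ _ ?_ ?_) (C _ _ ?_ ?_) (C _ _ ?_ ?_) (D _ _ ?_) (D _ _ ?_) (D _ _ ?_)
        (C _ _ ?_ ?_) (C _ _ ?_ ?_) (C _ _ ?_ ?_) (C _ _ ?_ ?_) <;>
        simp [pathGraph_adj]
    · refine ⟨fun f => ?_⟩
      have A : ∀ p q, G.Adj (f p) (f q) ↔ coP2P3.Adj p q := fun p q => f.map_rel_iff
      have N : ∀ p q, p ≠ q → f p ≠ f q := fun p q hpq e => hpq (f.injective e)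
      have C : ∀ p q, p ≠ q → ¬ coP2P3.Adj p q → Gᶜ.Adj (f p) (f q) := fun p q h1 h2 =>
        (compl_adj _ _ _).2 ⟨N p q h1, fun h3 => h2 ((A p q).1 h3)⟩
      have D : ∀ p q, coP2P3.Adj p q → ¬ Gᶜ.Adj (f p) (f q) := fun p q h1 h2 =>
        ((compl_adj _ _ _).1 h2).2 ((A p q).2 h1)
      refine h.pp (f (.inl 0)) (f (.inl 1)) (f (.inr 0)) (f (.inr 1)) (f (.inr 2))
        (C _ _ ?_ ?_) (C _ _ ?_ ?_) (C _ _ ?_ ?_) (D _ _ ?_) (N _ _ ?_) (D _ _ ?_) (D _ _ ?_)
        (D _ _ ?_) (D _ _ ?_) (D _ _ ?_) (D _ _ ?_) <;>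
        simp [pathGraph_adj]

theorem cut_compl_graph {V : Type*} [Fintype V] [DecidableEq V] (G : SimpleGraph V)
    (X : Finset V) : cut Gᶜ X ≤ cut G X + 1 := by
  classical
  set M : Matrix V V (ZMod 2) := Matrix.of (fun u v : V =>
    if u ∈ X ∧ v ∈ Xᶜ ∧ G.Adj u v then (1 : ZMod 2) else 0) with hM
  set J : Matrix V V (ZMod 2) := Matrix.vecMulVec (fun u => if u ∈ X then (1 : ZMod 2) else 0)
    (fun v => if v ∈ Xᶜ then (1 : ZMod 2) else 0) with hJ
  have e0 : cut G X = M.rank := by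
    unfold cut rk
    congr 1
    ext u v
    simp only [hM, Matrix.of_apply]
    congr 1
  have e : cut Gᶜ X = (M + J).rank := by
    unfold cut rk
    congr 1
    ext u v
    simp only [hM, hJ, Matrix.of_apply, Matrix.add_apply, Matrix.vecMulVec_apply]
    by_cases hu : u ∈ X
    · by_cases hv : v ∈ Xᶜ
      · have huv : u ≠ v := by
          rintro rfl
          exact (Finset.mem_compl.1 hv) hu
        by_cases ha : G.Adj u v
        · simp only [hu, hv, compl_adj, ha, not_true_eq_false, and_false, if_false, and_self,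
            if_true, mul_one]
          decide
        · simp [hu, hv, compl_adj, ha, huv]
      · simp [hv]
    · simp [hu]
  rw [e, e0]
  have h1 : (M + J).rank ≤ M.rank + J.rank := RkA_rank_add_le M J
  have h2 : J.rank ≤ 1 := Matrix.rank_vecMulVec_le _ _
  omega

theorem Dec.mono {V : Type*} [Fintype V] [DecidableEq V] {G : SimpleGraph V} {w w' : ℕ}
    (hw : w ≤ w') {A : Finset V} (h : Dec G w A) : Dec G w' A := by
  induction h with
  | leaf v hv => exact Dec.leaf v (hv.trans hw)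
  | node A B hAB hc _ _ ihA ihB => exact Dec.node A B hAB (hc.trans hw) ihA ihB

theorem Dec.compl {V : Type*} [Fintype V] [DecidableEq V] {G : SimpleGraph V} {w : ℕ}
    {A : Finset V} (h : Dec G w A) : Dec Gᶜ (w + 1) A := by
  induction h with
  | leaf v hv => exact Dec.leaf v ((cut_compl_graph G _).trans (by omega))
  | node A B hAB hc _ _ ihA ihB =>
    exact Dec.node A B hAB ((cut_compl_graph G _).trans (by omega)) ihA ihB

theorem bounded_cw_compl : ∃ k : ℕ, ∀ (V : Type) [Fintype V] [Nonempty V] (G : SimpleGraph V),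
    IsEmpty (P1P4 ↪g G) → IsEmpty (coP2P3 ↪g G) → CliqueWidthLE G k ∧ CliqueWidthLE Gᶜ k := by
  classical
  obtain ⟨w, _, hw⟩ := bounded_dec
  refine ⟨3 * 2 ^ (w + 1), ?_⟩
  intro V _ _ G h1 h2
  have hc : Cls Gᶜ := (cls_compl_iff G).1 ⟨h1, h2⟩
  have hd : Dec Gᶜ w Finset.univ :=
    hw V Gᶜ hc Finset.univ Finset.univ_nonempty (by rw [cut_univ]; exact Nat.zero_le _)
  have hd' : Dec G (w + 1) Finset.univ := by
    have := hd.compl
    rwa [compl_compl] at this
  exact ⟨cw_of_dec G (w + 1) hd', cw_of_dec Gᶜ (w + 1) (hd.mono (by omega))⟩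

end GemCW
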