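import Pool.Agent.Lib.GemCW.SplitPT

/-!
# Encoding of instances

An instance `(G, k)`, `G : SimpleGraph (Fin n)`, is encoded as `1ⁿ 0`, the `n²` bits of the adjacency
matrix (row by row), and the binary digits of `k` (`Nat.bits k`, least significant first, no leading
zero).

`nW w`, `hW w`, `kW w`: the parts of the string `w`.  (`hW w` is the whole rest; the functions of
`AlgDefs` read only its first `n²` bits.)  `wfB w`: `w` is a well formed encoding.
`kcapB n bits`: `min n` (value of `bits`), by Horner's rule from the most significant bit
(`min n (2 * min n c + b) = min n (2 c + b)`).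

* `encode_parts`: for `w = encode G k`: `nW w = n`, `HG n (hW w) = G`, `kW w = Nat.bits k`, `wfB w`.
* `decode`: if `wfB w` then `w = encode (HG (nW w) (hW w)) k` for some `k` with `Nat.bits k = kW w`.
  (A bit list which is empty or ends in `true` is `Nat.bits` of its value.)
* `kcapB_bits`: `kcapB n (Nat.bits k) = min n k`.
* `colorable_min`: a graph on `Fin n` is `k`-colourable iff it is `min n k`-colourable
  (`SimpleGraph.Colorable.mono`, the identity is an `n`-colouring).
-/

namespace GemCW

open Pool.Agent.Lib.PolyTime

open Classical in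
/-- the encoding of the instance `(G, k)` -/
noncomputable def encode {n : ℕ} (G : SimpleGraph (Fin n)) (k : ℕ) : List Bool :=
  List.replicate n true ++ false ::
    ((List.ofFn fun i => List.ofFn fun j => decide (G.Adj i j)).flatten ++ Nat.bits k)

/-- number of vertices -/
def nW (w : List Bool) : ℕ := (w.takeWhile id).length

/-- adjacency bits (and more) -/
def hW (w : List Bool) : List Bool := afterTrue w

/-- bits of `k` -/
def kW (w : List Bool) : List Bool := (afterTrue w).drop (nW w * nW w)

/-- well formed encodings -/
def wfB (w : List Bool) : Bool :=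
  decide (nW w < w.length) && (decide (nW w * nW w ≤ (hW w).length) &&
  (allB (nW w) (fun i => allB (nW w) (fun j =>
    (hW w).getD (i * nW w + j) false == (hW w).getD (j * nW w + i) false)) &&
  (allB (nW w) (fun i => !((hW w).getD (i * nW w + i) false)) &&
  (decide ((kW w).length = 0) || (kW w).getD ((kW w).length - 1) false))))

/-- the value of a bit list, capped at `n` -/
def kcapB (n : ℕ) (l : List Bool) : ℕ :=
  (iterS [] (fun k st => tab (min n (2 * st.length +
    (if l.getD (l.length - 1 - k) false = true then 1 else 0))) (fun _ => true)) l.length).length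

/-! ### Values of bit lists -/

/-- the value of a bit list, least significant bit first -/
def valB : List Bool → ℕ
  | [] => 0
  | b :: l => Nat.bit b (valB l)

theorem valB_bits (k : ℕ) : valB (Nat.bits k) = k := by
  induction k using Nat.binaryRec' with
  | zero => simp [valB]
  | bit b n hn ih => rw [Nat.bits_append_bit n b hn, valB, ih]

/-- the last bit of `Nat.bits` is `true` -/
theorem bits_last (k : ℕ) : (Nat.bits k).length = 0 ∨
    (Nat.bits k).getD ((Nat.bits k).length - 1) false = true := by
  induction k using Nat.binaryRec' with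
  | zero => left; simp
  | bit b n hn ih =>
    right
    rw [Nat.bits_append_bit n b hn]
    rcases ih with h | h
    · have h0 : Nat.bits n = [] := List.length_eq_zero_iff.1 h
      have hn0 : n = 0 := by rw [← valB_bits n, h0]; rfl
      rw [h0, hn hn0]
      rfl
    · have hpos : 0 < (Nat.bits n).length := by
        by_contra h0
        have h1 : (Nat.bits n).length = 0 := by omega
        rw [List.length_eq_zero_iff.1 h1] at h
        simp at h
      obtain ⟨m, hm⟩ : ∃ m, (Nat.bits n).length = m + 1 := ⟨(Nat.bits n).length - 1, by omega⟩
      rw [hm] at h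
      rw [List.length_cons, hm]
      simpa using h

theorem bits_valB : ∀ l : List Bool, (l.length = 0 ∨ l.getD (l.length - 1) false = true) →
    Nat.bits (valB l) = l := by
  intro l
  induction l with
  | nil => intro _; simp [valB]
  | cons b l ih =>
    intro h
    rcases h with h | h
    · simp at h
    · cases l with
      | nil =>
        have hb : b = true := by simpa using h
        subst hb
        rw [valB, valB, Nat.bits_append_bit 0 true (fun _ => rfl)]
        simp
      | cons c l' =>
        have h1 : (c :: l').getD ((c :: l').length - 1) false = true := by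
          simpa using h
        have h2 := ih (Or.inr h1)
        rw [valB, Nat.bits_append_bit, h2]
        intro h0
        rw [h0] at h2
        simp at h2

/-! ### Decomposition of strings -/

theorem afterTrue_decomp : ∀ w : List Bool, (w.takeWhile id).length < w.length →
    w = List.replicate (w.takeWhile id).length true ++
      false :: Pool.Agent.Lib.PolyTime.afterTrue w := by
  intro w
  induction w with
  | nil => intro h; simp at h
  | cons b w ih =>
    intro h
    cases b with
    | false => simp [Pool.Agent.Lib.PolyTime.afterTrue]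
    | true =>
      have h1 : (w.takeWhile id).length < w.length := by
        simpa using h
      have h2 := ih h1
      have h3 : (true :: w).takeWhile id = true :: w.takeWhile id := by simp
      rw [h3, List.length_cons, List.replicate_succ, List.cons_append]
      exact congrArg (List.cons true) h2

/-- the adjacency bits -/
theorem flatten_eq {n : ℕ} (f : Fin n → Fin n → Bool) :
    (List.ofFn fun i => List.ofFn fun j => f i j).flatten =
      List.ofFn (fun p : Fin (n * n) => f p.divNat p.modNat) := by
  rw [List.ofFn_mul]
  congr 1
  congr 1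
  funext i
  congr 1
  funext j
  congr 1
  · apply Fin.ext
    simp only [Fin.coe_divNat]
    have : (i : ℕ) * n + j = j + n * i := by ring
    rw [this, Nat.add_mul_div_left _ _ (Nat.pos_of_ne_zero (by rintro rfl; exact i.elim0)),
      Nat.div_eq_of_lt j.2, zero_add]
  · apply Fin.ext
    simp only [Fin.coe_modNat]
    have : (i : ℕ) * n + j = j + n * i := by ring
    rw [this, Nat.add_mul_mod_self_left, Nat.mod_eq_of_lt j.2]

theorem idx_lt {n : ℕ} (i j : Fin n) : (i : ℕ) * n + j < n * n := by
  have h1 := i.2
  have h2 := j.2
  calc (i : ℕ) * n + j < i * n + n := by omega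
    _ = (i + 1) * n := by ring
    _ ≤ n * n := Nat.mul_le_mul_right n h1

theorem flatten_getD {n : ℕ} (f : Fin n → Fin n → Bool) (l : List Bool) (i j : Fin n) :
    ((List.ofFn fun i => List.ofFn fun j => f i j).flatten ++ l).getD ((i : ℕ) * n + j) false =
      f i j := by
  have hlen : (List.ofFn (fun p : Fin (n * n) => f p.divNat p.modNat)).length = n * n := by simp
  have h := idx_lt i j
  rw [flatten_eq, List.getD_append _ _ _ _ (by rw [hlen]; exact h),
    List.getD_eq_getElem _ _ (by rw [hlen]; exact h), List.getElem_ofFn]
  congr 1
  · apply Fin.ext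
    simp only [Fin.coe_divNat]
    have : (i : ℕ) * n + j = j + n * i := by ring
    rw [this, Nat.add_mul_div_left _ _ (Nat.pos_of_ne_zero (by rintro rfl; exact i.elim0)),
      Nat.div_eq_of_lt j.2, zero_add]
  · apply Fin.ext
    simp only [Fin.coe_modNat]
    have : (i : ℕ) * n + j = j + n * i := by ring
    rw [this, Nat.add_mul_mod_self_left, Nat.mod_eq_of_lt j.2]

theorem flatten_length {n : ℕ} (f : Fin n → Fin n → Bool) :
    (List.ofFn fun i => List.ofFn fun j => f i j).flatten.length = n * n := by
  rw [flatten_eq]
  simp

theorem nW_encode {n : ℕ} (G : SimpleGraph (Fin n)) (k : ℕ) : nW (encode G k) = n := by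
  have := takeWhile_un n ((List.ofFn fun i => List.ofFn fun j =>
    @decide (G.Adj i j) (Classical.propDecidable _)).flatten ++ Nat.bits k)
  unfold nW encode
  rw [show List.replicate n true = un n from rfl, this]
  simp

theorem hW_encode {n : ℕ} (G : SimpleGraph (Fin n)) (k : ℕ) : hW (encode G k) =
    (List.ofFn fun i => List.ofFn fun j =>
      @decide (G.Adj i j) (Classical.propDecidable _)).flatten ++ Nat.bits k := by
  unfold hW encode
  rw [show List.replicate n true = un n from rfl, afterTrue_un]

theorem hb_encode {n : ℕ} (G : SimpleGraph (Fin n)) (k : ℕ) (i j : Fin n) :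
    hb n (hW (encode G k)) i j = true ↔ G.Adj i j := by
  rw [hW_encode]
  unfold hb
  rw [flatten_getD, flatten_getD]
  simp only [Bool.and_eq_true, Bool.not_eq_true', decide_eq_false_iff_not, decide_eq_true_eq]
  constructor
  · rintro ⟨_, h, _⟩
    exact h
  · intro h
    exact ⟨fun e => G.ne_of_adj h (Fin.ext e), h, h.symm⟩

theorem encode_parts {n : ℕ} (G : SimpleGraph (Fin n)) (k : ℕ) :
    nW (encode G k) = n ∧ HG n (hW (encode G k)) = G ∧ kW (encode G k) = Nat.bits k ∧
      wfB (encode G k) = true := by
  have h1 := nW_encode G k
  have hk : kW (encode G k) = Nat.bits k := by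
    unfold kW
    rw [h1]
    have := hW_encode G k
    unfold hW at this
    rw [this]
    rw [List.drop_append, List.drop_of_length_le (by rw [flatten_length]), flatten_length]
    simp
  refine ⟨h1, ?_, hk, ?_⟩
  · ext i j
    rw [HG_adj]
    exact hb_encode G k i j
  · unfold wfB
    rw [h1, hk]
    simp only [Bool.and_eq_true, decide_eq_true_eq, allB_iff, Bool.or_eq_true, beq_iff_eq,
      Bool.not_eq_true']
    refine ⟨?_, ?_, ?_, ?_, bits_last k⟩
    · unfold encode
      simp
    · rw [hW_encode, List.length_append, flatten_length]
      omega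
    · intro i hi j hj
      rw [hW_encode]
      have e1 := flatten_getD (fun i j => @decide (G.Adj i j) (Classical.propDecidable _))
        (Nat.bits k) ⟨i, hi⟩ ⟨j, hj⟩
      have e2 := flatten_getD (fun i j => @decide (G.Adj i j) (Classical.propDecidable _))
        (Nat.bits k) ⟨j, hj⟩ ⟨i, hi⟩
      simp only at e1 e2
      rw [e1, e2]
      exact decide_eq_decide.2 (G.adj_comm _ _)
    · intro i hi
      rw [hW_encode]
      have e1 := flatten_getD (fun i j => @decide (G.Adj i j) (Classical.propDecidable _))
        (Nat.bits k) ⟨i, hi⟩ ⟨i, hi⟩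
      simp only at e1
      rw [e1]
      simp

theorem decode {w : List Bool} (hw : wfB w = true) :
    ∃ k, encode (HG (nW w) (hW w)) k = w ∧ kW w = Nat.bits k := by
  unfold wfB at hw
  simp only [Bool.and_eq_true, decide_eq_true_eq, allB_iff, Bool.or_eq_true, beq_iff_eq,
    Bool.not_eq_true'] at hw
  obtain ⟨h1, h2, h3, h4, h5⟩ := hw
  refine ⟨valB (kW w), ?_, (bits_valB _ h5).symm⟩
  obtain ⟨n, hn⟩ : ∃ n, n = nW w := ⟨_, rfl⟩
  obtain ⟨h, hh⟩ : ∃ h, h = hW w := ⟨_, rfl⟩
  have hk : kW w = h.drop (n * n) := by rw [hn, hh]; rfl
  have hw' : w = List.replicate n true ++ false :: h := by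
    rw [hn, hh]
    exact afterTrue_decomp w h1
  rw [← hn, ← hh] at h2 h3
  rw [← hn, ← hh] at h4
  unfold encode
  rw [← hn, ← hh, bits_valB _ h5, hk]
  conv_rhs => rw [hw']
  congr 2
  have e : (List.ofFn fun i => List.ofFn fun j =>
      @decide ((HG n h).Adj i j) (Classical.propDecidable _)).flatten = h.take (n * n) := by
    rw [flatten_eq]
    apply List.ext_getElem
    · rw [List.length_ofFn, List.length_take, min_eq_left h2]
    · intro p hp hp'
      rw [List.getElem_ofFn, List.getElem_take]
      have hp1 : p < n * n := by simpa using hp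
      have hn0 : 0 < n := Nat.pos_of_ne_zero (by rintro rfl; simp at hp1)
      have hi : p / n < n := Nat.div_lt_of_lt_mul hp1
      have hj : p % n < n := Nat.mod_lt _ hn0
      have hidx : p / n * n + p % n = p := Nat.div_add_mod' p n
      have hph : p < h.length := lt_of_lt_of_le hp1 h2
      have e1 : h[p] = h.getD (p / n * n + p % n) false := by
        rw [hidx, List.getD_eq_getElem _ _ hph]
      rw [e1]
      have e2 := h3 (p / n) hi (p % n) hj
      apply Bool.eq_iff_iff.2
      refine (@decide_eq_true_iff _ (Classical.propDecidable _)).trans ?_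
      rw [HG_adj]
      simp only [Fin.coe_divNat, Fin.coe_modNat]
      unfold hb
      rw [← e2]
      simp only [Bool.and_self, Bool.and_eq_true, Bool.not_eq_true', decide_eq_false_iff_not]
      constructor
      · exact fun h => h.2
      · intro h6
        refine ⟨fun e3 => ?_, h6⟩
        rw [← e3, h4 (p / n) hi] at h6
        exact Bool.false_ne_true h6
  rw [e, List.take_append_drop]

theorem kcapB_aux (n : ℕ) (l : List Bool) : ∀ j, j ≤ l.length →
    (iterS [] (fun k st => tab (min n (2 * st.length +
      (if l.getD (l.length - 1 - k) false = true then 1 else 0))) (fun _ => true)) j).length =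
      min n (valB (l.drop (l.length - j))) := by
  intro j
  induction j with
  | zero => intro _; simp [iterS, valB]
  | succ j ih =>
    intro hj
    have hj' : l.length - (j + 1) < l.length := by omega
    have h1 := ih (by omega)
    have h2 : l.drop (l.length - (j + 1)) =
        l[l.length - (j + 1)] :: l.drop (l.length - j) := by
      rw [List.drop_eq_getElem_cons hj']
      congr 2
      omega
    rw [h2, valB, iterS, tab_length, h1]
    have h3 : l.getD (l.length - 1 - j) false = l[l.length - (j + 1)] := by
      rw [show l.length - 1 - j = l.length - (j + 1) by omega, List.getD_eq_getElem _ _ hj']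
    rw [h3]
    cases l[l.length - (j + 1)] with
    | false =>
      simp only [Nat.bit_val, Bool.toNat_false, Bool.false_eq_true, if_false]
      omega
    | true =>
      simp only [Nat.bit_val, Bool.toNat_true, if_true]
      omega

theorem kcapB_bits (n k : ℕ) : kcapB n (Nat.bits k) = min n k := by
  unfold kcapB
  rw [kcapB_aux n _ _ le_rfl]
  simp [valB_bits]

theorem colorable_min {n : ℕ} (G : SimpleGraph (Fin n)) (k : ℕ) :
    G.Colorable (min n k) ↔ G.Colorable k := by
  constructor
  · exact fun h => h.mono (min_le_right _ _)
  · intro h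
    rcases le_total n k with h1 | h1
    · rw [min_eq_left h1]
      have := G.colorable_of_fintype
      simpa using this
    · rw [min_eq_right h1]
      exact h

section
variable {α : Type} [Ctx α]

theorem PN_nW {w : α → List Bool} (hw : PC w) : PN (fun a => nW (w a)) :=
  PN.length (PC.takeTrue hw)

theorem PC_hW {w : α → List Bool} (hw : PC w) : PC (fun a => hW (w a)) :=
  PC.afterTrue hw

theorem PC_kW {w : α → List Bool} (hw : PC w) : PC (fun a => kW (w a)) :=
  PC.drop (PC.afterTrue hw) (PN.mul (PN_nW hw) (PN_nW hw))

theorem PB_wfB {w : α → List Bool} (hw : PC w) : PB (fun a => wfB (w a)) := by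
  have hn := PN_nW hw
  have hh := PC_hW hw
  have hk := PC_kW hw
  unfold wfB
  refine PB.and (PB.lt hn (PN.length hw)) (PB.and (PB.le (PN.mul hn hn) (PN.length hh))
    (PB.and ?_ (PB.and ?_ ?_)))
  · refine PB.allB hn (φ := fun a i => allB (nW (w a)) (fun j =>
      (hW (w a)).getD (i * nW (w a) + j) false == (hW (w a)).getD (j * nW (w a) + i) false)) ?_
    refine PB.allB (α := α × ℕ) hn.fst (φ := fun p j =>
      (hW (w p.1)).getD (p.2 * nW (w p.1) + j) false ==
        (hW (w p.1)).getD (j * nW (w p.1) + p.2) false) ?_
    exact PB.beq (PB.getD hh.fst.fst (PN.add (PN.mul PN.snd.fst hn.fst.fst) PN.snd))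
      (PB.getD hh.fst.fst (PN.add (PN.mul PN.snd hn.fst.fst) PN.snd.fst))
  · refine PB.allB hn (φ := fun a i => !((hW (w a)).getD (i * nW (w a) + i) false)) ?_
    exact PB.not (PB.getD hh.fst (PN.add (PN.mul PN.snd hn.fst) PN.snd))
  · exact PB.or (PB.eq (PN.length hk) (PN.const 0))
      (PB.getD hk (PN.sub (PN.length hk) (PN.const 1)))

theorem PN_kcapB {n : α → ℕ} {l : α → List Bool} (hn : PN n) (hl : PC l) :
    PN (fun a => kcapB (n a) (l a)) := by
  unfold kcapB
  refine PN.length (PC.iter (n := fun a => (l a).length) (m := n) (f₀ := fun _ => [])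
    (s := fun a k st => tab (min (n a) (2 * st.length +
      (if (l a).getD ((l a).length - 1 - k) false = true then 1 else 0))) (fun _ => true))
    (PN.length hl) hn (PC.const []) ?_ ?_)
  · have hn' := hn.fst.fstL
    have hl' := hl.fst.fstL
    refine PC.tab (α := (α × ℕ) × List Bool) (n := fun p => min (n p.1.1) (2 * p.2.length +
      (if (l p.1.1).getD ((l p.1.1).length - 1 - p.1.2) false = true then 1 else 0)))
      (φ := fun _ _ => true) ?_ (PB.const true)
    exact PN.min hn' (PN.add (PN.mul (PN.const 2) (PN.length PC.snd))
      (PN.ite (PB.getD hl' (PN.sub (PN.sub (PN.length hl') (PN.const 1)) PN.snd.fstL))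
        (PN.const 1) (PN.const 0)))
  · intro a k _
    cases k with
    | zero => simp [iterS]
    | succ k =>
      rw [iterS, tab_length]
      exact min_le_left _ _

end

end GemCW
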