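import Pool.Agent.Lib.GemCW.RefPT

/-!
# The dynamic programme in polynomial time

Follow the definitions in `AlgDefs` (`compatB`, `ffB`, `mB`, `mergeB`, `W0`, `diffB`, `stepW`, `WB`,
`colB`) with the closure lemmas of `PT` and the lemmas of `SplitPT`, `RefPT`.  All exponents are
constants (`Q`, `W`, `pos Q S` are fixed): `PN.pow`.  Sums over `Finset (Fin Q)`: `PN.sumF`; `wt b S` is
`b ^ constant`.  `if c then x else y` with a constant condition `S1 = ∅`: `split_ifs`.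
`WB`: `PC.iter` with `m = n * (n+1) ^ 2 ^ Q`; the step at counter `k` uses
`EB W n h (n * n - k - 1)`: `PC_EB` with `t = n * n - k - 1`.  It is convenient to prove first
`PC (fun a => stepW W Q (n a) (h a) (E a) (Wl a))` for all `PC` functions `E`, `Wl`, introducing
`clsL`, `splitB`, `diffB` as `PC` functions before the binders.
-/

namespace GemCW

variable {α : Type} [Ctx α]

namespace TabAux

theorem PN_wt {Q : ℕ} (S : Finset (Fin Q)) {b : α → ℕ} (hb : PN b) :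
    PN (fun a => wt (b a) S) := by
  unfold wt
  exact PN.pow hb _

theorem PN_succ {n : α → ℕ} (hn : PN n) : PN (fun a => n a + 1) := PN.add hn (PN.const 1)

theorem PN_mB {Q : ℕ} (S1 S2 : Finset (Fin Q)) {n μ : α → ℕ} (hn : PN n) (hμ : PN μ) :
    PN (fun a => mB (n a) (μ a) S1 S2) := by
  unfold mB
  exact PN_dg (PN_succ hn) hμ _

theorem PB_compatB {Q : ℕ} (S1 S2 : Finset (Fin Q)) {n : α → ℕ} {h X Y : α → List Bool}
    (hn : PN n) (hh : PC h) (hX : PC X) (hY : PC Y) :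
    PB (fun a => compatB S1 S2 (n a) (h a) (X a) (Y a)) := by
  unfold compatB
  refine PB.allB hn (PB.allB hn.fst ?_)
  refine PB.or (PB.not (PB.getD hX.fst.fst PN.snd.fst)) ?_
  refine PB.or (PB.not (PB.getD hY.fst.fst PN.snd)) ?_
  refine PB.or (PB.not (PB_tinB S1 hn.fst.fst hh.fst.fst hX.fst.fst PN.snd.fst)) ?_
  refine PB.or (PB.not (PB_tinB S2 hn.fst.fst hh.fst.fst hY.fst.fst PN.snd)) ?_
  exact PB.not (PB_hb hn.fst.fst hh.fst.fst PN.snd.fst PN.snd)

theorem PB_ffB {Q : ℕ} (S1 S2 S : Finset (Fin Q)) {n : α → ℕ} {h A X Y : α → List Bool}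
    (hn : PN n) (hh : PC h) (hA : PC A) (hX : PC X) (hY : PC Y) :
    PB (fun a => ffB S1 S2 S (n a) (h a) (A a) (X a) (Y a)) := by
  unfold ffB
  refine PB.allF fun t => PB.beq (PB.const _) (PB.exB hn ?_)
  refine PB.and (PB.or (PB.and (PB.getD hX.fst PN.snd) ?_) (PB.and (PB.getD hY.fst PN.snd) ?_)) ?_
  · exact PB_tinB S1 hn.fst hh.fst hX.fst PN.snd
  · exact PB_tinB S2 hn.fst hh.fst hY.fst PN.snd
  · exact PB.eq (PN_tauB hn.fst hh.fst hA.fst PN.snd) (PN.const _)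

theorem PN_iteC {c : Prop} [Decidable c] {f g : α → ℕ} (hf : PN f) (hg : PN g) :
    PN (fun a => if c then f a else g a) := by
  by_cases h : c
  · simp only [if_pos h]; exact hf
  · simp only [if_neg h]; exact hg

end TabAux

open TabAux

theorem PB_mergeB (Q : ℕ) {n x1 x2 i : α → ℕ} {h A X Y Wl : α → List Bool} (hn : PN n)
    (hh : PC h) (hA : PC A) (hX : PC X) (hY : PC Y) (hW : PC Wl) (h1 : PN x1) (h2 : PN x2)
    (hi : PN i) : PB (fun a => mergeB Q (n a) (h a) (A a) (X a) (Y a) (Wl a) (x1 a) (x2 a) (i a)) := by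
  unfold mergeB
  have hn1 := PN_succ hn
  refine PB.exB (PN.pow hn1 _) ?_
  refine PB.and (PB.le (PN.sumF fun S1 => PN.sumF fun S2 => PN_mB S1 S2 hn.fst PN.snd) hn.fst) ?_
  refine PB.and (PB.allF fun S => PB.or (PB.eq (PN_mB S.1 S.2 hn.fst PN.snd) (PN.const 0))
    (PB.and (PB_compatB S.1 S.2 hn.fst hh.fst hX.fst hY.fst) (PB.const _))) ?_
  refine PB.and (PB.getD hW.fst (PN.add (PN.mul h1.fst (PN.pow hn1.fst _))
    (PN.sumF fun S1 => PN.sumF fun S2 => PN_iteC (PN.const 0)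
      (PN.mul (PN_mB S1 S2 hn.fst PN.snd) (PN_wt S1 hn1.fst))))) ?_
  refine PB.and (PB.getD hW.fst (PN.add (PN.mul h2.fst (PN.pow hn1.fst _))
    (PN.sumF fun S1 => PN.sumF fun S2 => PN_iteC (PN.const 0)
      (PN.mul (PN_mB S1 S2 hn.fst PN.snd) (PN_wt S2 hn1.fst))))) ?_
  exact PB.eq hi.fst (PN.sumF fun S1 => PN.sumF fun S2 => PN.sumF fun S =>
    PN.ite (PB_ffB S1 S2 S hn.fst hh.fst hA.fst hX.fst hY.fst)
      (PN.mul (PN_mB S1 S2 hn.fst PN.snd) (PN_wt S hn1.fst)) (PN.const 0))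

theorem PC_W0 (Q : ℕ) {n : α → ℕ} (hn : PN n) : PC (fun a => W0 Q (n a)) := by
  unfold W0
  have hn1 := PN_succ hn
  refine PC.tab (PN.mul hn (PN.pow hn1 _)) ?_
  exact PB.exF fun t => PB.and (PB.const _)
    (PB.eq (PN.mod PN.snd (PN.pow hn1.fst _)) (PN_wt {t} hn1.fst))

theorem PC_diffB {n : α → ℕ} {A X : α → List Bool} (hn : PN n) (hA : PC A) (hX : PC X) :
    PC (fun a => diffB (n a) (A a) (X a)) := by
  unfold diffB
  exact PC.tab hn (PB.and (PB.getD hA.fst PN.snd) (PB.not (PB.getD hX.fst PN.snd)))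

theorem PC_stepW (W Q : ℕ) {n : α → ℕ} {h E Wl : α → List Bool} (hn : PN n) (hh : PC h)
    (hE : PC E) (hW : PC Wl) : PC (fun a => stepW W Q (n a) (h a) (E a) (Wl a)) := by
  unfold stepW
  have hn1 := PN_succ hn
  have hC := PC_clsL hn hE
  have hS := PC_splitB W hn hh hC
  have hD := PC_diffB hn hC hS
  refine PC.tab (PN.mul hn (PN.pow hn1 _)) ?_
  refine PB.ite (PB.getD hC.fst (PN.div PN.snd (PN.pow hn1.fst _))) ?_ (PB.getD hW.fst PN.snd)
  refine PB.exB hn.fst (PB.and (PB.getD hS.fst.fst PN.snd) ?_)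
  refine PB.exB hn.fst.fst (PB.and (PB.getD hD.fst.fst.fst PN.snd) ?_)
  exact PB_mergeB Q hn.fst.fst.fst hh.fst.fst.fst hC.fst.fst.fst hS.fst.fst.fst hD.fst.fst.fst
    hW.fst.fst.fst PN.snd.fst PN.snd
    (PN.mod PN.snd.fst.fst (PN.pow hn1.fst.fst.fst _))

theorem PC_WB (W Q : ℕ) {n s : α → ℕ} {h : α → List Bool} (hn : PN n) (hh : PC h)
    (hs : PN s) : PC (fun a => WB W Q (n a) (h a) (s a)) := by
  unfold WB
  have hn1 := PN_succ hn
  refine PC.iter (s := fun a k Wl => stepW W Q (n a) (h a)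
    (EB W (n a) (h a) (n a * n a - k - 1)) Wl)
    hs (PN.mul hn (PN.pow hn1 (2 ^ Q))) (PC_W0 Q hn) ?_ ?_
  · exact PC_stepW W Q hn.fst.fstL hh.fst.fstL
      (PC_EB W hn.fst.fstL hh.fst.fstL
        (PN.sub (PN.sub (PN.mul hn.fst.fstL hn.fst.fstL) PN.snd.fstL) (PN.const 1))) PC.snd
  · intro a k _
    cases k with
    | zero =>
      change (W0 Q (n a)).length ≤ _
      unfold W0
      rw [tab_length]
    | succ k =>
      change (stepW W Q (n a) (h a) _ _).length ≤ _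
      unfold stepW
      rw [tab_length]

theorem PB_colB (W Q : ℕ) {n k : α → ℕ} {h : α → List Bool} (hn : PN n) (hh : PC h)
    (hk : PN k) : PB (fun a => colB W Q (n a) (h a) (k a)) := by
  unfold colB
  have hn1 := PN_succ hn
  refine PB.or (PB.eq hn (PN.const 0)) (PB.exB (PN.pow hn1 _) ?_)
  refine PB.and (PB.getD (PC_WB W Q hn hh (PN.mul hn hn)).fst PN.snd) ?_
  exact PB.le (PN.sumF fun j => PN_dg hn1.fst PN.snd _) hk.fst

end GemCW
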