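import Pool.Agent.Lib.GemCW.SplitSpec

/-!
# The refining sequence of partitions is correct

`Er n E u v`: the relation on `Fin n` coded by `E`; `clsS n E u` its class.
`Good W n h E`: `Er n E` is an equivalence relation and all classes have cut rank `≤ W` (in `CG n h`).
`Splits W n h`: every set of at least two vertices of cut rank `≤ W` can be split.

* `EB_zero`: `Er n (EB … 0) u v` always; `Good` for `EB 0` (the class is `univ`, cut rank `0`:
  `cut_univ`).
* `stepE_spec`: if `Good E`, `Splits`, and some class is not a singleton: let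
  `A = toS n (clsL n E)` (it is the class of the vertex `uB n E`, `mu_spec`),
  `X = toS n (splitB W n h (clsL n E))`.  Then `X ≠ ∅`, `X ⊆ A`, `A \ X ≠ ∅`, and the new relation is
  `u ~ v` and (`u ∉ A` or (`u ∈ X ↔ v ∈ X`)); the classes: for `u ∉ A` unchanged, for `u ∈ X` it is `X`, for
  `u ∈ A \ X` it is `A \ X`.  (Index arithmetic: `(u*n+v)/n = u`, `(u*n+v)%n = v`, `u*n+v < n*n`.)
* `stepE_disc`: if all classes are singletons, nothing changes and `clsL n E` is the empty set
  (`uB n E = n`; `E.getD (n*n+v)` is `false` because `E.length = n*n`).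
* `EB_disc`: after `n*n` steps all classes are singletons: the number of pairs `(u,v)`, `u ≠ v`, in
  the relation is at most `n*n - n` and drops by at least one as long as it is positive.
-/

namespace GemCW

open Finset

def Er (n : ℕ) (E : List Bool) (u v : Fin n) : Prop := E.getD (u * n + v) false = true

open scoped Classical in
noncomputable def clsS (n : ℕ) (E : List Bool) (u : Fin n) : Finset (Fin n) :=
  univ.filter (fun v => Er n E u v)

structure Good (W n : ℕ) (h E : List Bool) : Prop where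
  len : E.length = n * n
  eqv : Equivalence (Er n E)
  cutle : ∀ u, cut (CG n h) (clsS n E u) ≤ W

def Splits (W n : ℕ) (h : List Bool) : Prop :=
  ∀ A : Finset (Fin n), 2 ≤ A.card → cut (CG n h) A ≤ W →
    ∃ A₁ A₂ : Finset (Fin n), A₁.Nonempty ∧ A₂.Nonempty ∧ Disjoint A₁ A₂ ∧
      A₁ ∪ A₂ = A ∧ cut (CG n h) A₁ ≤ W ∧ cut (CG n h) A₂ ≤ W

namespace RefSpecAux

theorem idx_lt {n : ℕ} (u v : Fin n) : (u : ℕ) * n + v < n * n := by
  have h1 := u.2
  have h2 := v.2
  calc (u : ℕ) * n + v < u * n + n := by omega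
    _ = (u + 1) * n := by ring
    _ ≤ n * n := Nat.mul_le_mul_right _ h1

theorem idx_div {n : ℕ} (u v : Fin n) : ((u : ℕ) * n + v) / n = u := by
  have hn : 0 < n := lt_of_le_of_lt (Nat.zero_le _) v.2
  rw [Nat.add_comm, Nat.add_mul_div_right _ _ hn, Nat.div_eq_of_lt v.2, Nat.zero_add]

theorem idx_mod {n : ℕ} (u v : Fin n) : ((u : ℕ) * n + v) % n = v := by
  rw [Nat.add_comm, Nat.add_mul_mod_self_right, Nat.mod_eq_of_lt v.2]

theorem mem_clsS {n : ℕ} {E : List Bool} {u v : Fin n} : v ∈ clsS n E u ↔ Er n E u v := by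
  simp [clsS]

theorem Er_stepE {W n : ℕ} {h E : List Bool} {u v : Fin n} :
    Er n (stepE W n h E) u v ↔ Er n E u v ∧ (u ∉ toS n (clsL n E) ∨
      (u ∈ toS n (splitB W n h (clsL n E)) ↔ v ∈ toS n (splitB W n h (clsL n E)))) := by
  unfold Er stepE
  rw [tab_getD (idx_lt u v), idx_div, idx_mod]
  simp only [mem_toS, Bool.and_eq_true, Bool.or_eq_true, Bool.not_eq_true', beq_iff_eq,
    Bool.not_eq_true]
  refine and_congr_right fun _ => or_congr_right ?_
  constructor
  · intro h
    rw [h]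
  · intro h
    exact Bool.eq_iff_iff.2 h

theorem Er_of_stepE {W n : ℕ} {h E : List Bool} {u v : Fin n}
    (hh : Er n (stepE W n h E) u v) : Er n E u v := (Er_stepE.1 hh).1

/-- the vertex `uB` if some class is not a singleton -/
theorem uB_spec {n : ℕ} {E : List Bool} (hne : ∃ u v : Fin n, u ≠ v ∧ Er n E u v) :
    ∃ u₀ : Fin n, uB n E = u₀ ∧ (∃ v, v ≠ u₀ ∧ Er n E u₀ v) ∧
      toS n (clsL n E) = clsS n E u₀ := by
  obtain ⟨u, v, huv, hE⟩ := hne
  have h1 := mu_spec (n := n) (φ := fun u => exB n (fun v => !(decide (v = u)) &&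
    E.getD (u * n + v) false)) ⟨u, u.2, exB_iff.2 ⟨v, v.2, by
      simp only [Bool.and_eq_true, Bool.not_eq_true', decide_eq_false_iff_not]
      exact ⟨fun h => huv (Fin.ext h.symm), hE⟩⟩⟩
  refine ⟨⟨uB n E, h1.1⟩, rfl, ?_, ?_⟩
  · obtain ⟨v, hv, h2⟩ := exB_iff.1 h1.2
    simp only [Bool.and_eq_true, Bool.not_eq_true', decide_eq_false_iff_not] at h2
    exact ⟨⟨v, hv⟩, fun h => h2.1 (congrArg Fin.val h), h2.2⟩
  · ext v
    rw [mem_toS, mem_clsS]
    unfold clsL
    rw [tab_getD v.2]
    rfl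

theorem uB_eq {n : ℕ} {E : List Bool} (hne : ∀ u v : Fin n, Er n E u v → u = v) :
    uB n E = n := by
  unfold uB mu
  rw [List.takeWhile_eq_self_iff.2, List.length_range]
  intro u hu
  rw [List.mem_range] at hu
  rw [Bool.not_eq_true', ← Bool.not_eq_true, exB_iff]
  rintro ⟨v, hv, h2⟩
  simp only [Bool.and_eq_true, Bool.not_eq_true', decide_eq_false_iff_not] at h2
  exact h2.1 (congrArg Fin.val (hne ⟨u, hu⟩ ⟨v, hv⟩ h2.2)).symm

theorem clsL_empty {n : ℕ} {E : List Bool} (hlen : E.length = n * n)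
    (hne : ∀ u v : Fin n, Er n E u v → u = v) : toS n (clsL n E) = ∅ := by
  ext v
  rw [mem_toS]
  unfold clsL
  rw [tab_getD v.2, uB_eq hne, List.getD_eq_default _ _ (by omega)]
  simp

/-- the set `clsL` is saturated -/
theorem sat {W n : ℕ} {h E : List Bool} (hE : Good W n h E) {u v : Fin n} (huv : Er n E u v) :
    u ∈ toS n (clsL n E) ↔ v ∈ toS n (clsL n E) := by
  by_cases hne : ∃ u v : Fin n, u ≠ v ∧ Er n E u v
  · obtain ⟨u₀, _, _, h2⟩ := uB_spec hne
    rw [h2, mem_clsS, mem_clsS]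
    exact ⟨fun h => hE.eqv.trans h huv, fun h => hE.eqv.trans h (hE.eqv.symm huv)⟩
  · push Not at hne
    rw [clsL_empty hE.len (fun a b hab => by
      by_contra hn
      exact hne a b hn hab)]
    simp

end RefSpecAux

open RefSpecAux

theorem EB_length (W n : ℕ) (h : List Bool) (t : ℕ) : (EB W n h t).length = n * n := by
  cases t with
  | zero => exact tab_length _ _
  | succ t => exact tab_length _ _

theorem EB_zero {W n : ℕ} {h : List Bool} (u v : Fin n) : Er n (EB W n h 0) u v := by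
  unfold Er
  show (tab (n * n) (fun _ => true)).getD _ false = true
  rw [tab_getD (idx_lt u v)]

theorem EB_zero_cls {W n : ℕ} {h : List Bool} (u : Fin n) : clsS n (EB W n h 0) u = univ := by
  ext v
  rw [mem_clsS]
  simp [EB_zero]

theorem stepE_spec {W n : ℕ} {h E : List Bool} (hs : Splits W n h) (hE : Good W n h E)
    (hne : ∃ u v : Fin n, u ≠ v ∧ Er n E u v) :
    (toS n (splitB W n h (clsL n E))).Nonempty ∧
    toS n (splitB W n h (clsL n E)) ⊆ toS n (clsL n E) ∧
    (toS n (clsL n E) \ toS n (splitB W n h (clsL n E))).Nonempty ∧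
    cut (CG n h) (toS n (splitB W n h (clsL n E))) ≤ W ∧
    cut (CG n h) (toS n (clsL n E) \ toS n (splitB W n h (clsL n E))) ≤ W ∧
    (∀ u ∈ toS n (clsL n E), clsS n E u = toS n (clsL n E)) ∧
    (∀ u, u ∉ toS n (clsL n E) → clsS n (stepE W n h E) u = clsS n E u) ∧
    (∀ u ∈ toS n (splitB W n h (clsL n E)),
      clsS n (stepE W n h E) u = toS n (splitB W n h (clsL n E))) ∧
    (∀ u ∈ toS n (clsL n E) \ toS n (splitB W n h (clsL n E)),
      clsS n (stepE W n h E) u = toS n (clsL n E) \ toS n (splitB W n h (clsL n E))) := by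
  classical
  obtain ⟨u₀, _, ⟨v₀, hv₀, hE₀⟩, hA⟩ := uB_spec hne
  have hcard : 2 ≤ (toS n (clsL n E)).card := by
    rw [hA]
    have : ({u₀, v₀} : Finset (Fin n)) ⊆ clsS n E u₀ := by
      intro x hx
      rw [Finset.mem_insert, Finset.mem_singleton] at hx
      rcases hx with rfl | rfl
      · exact mem_clsS.2 (hE.eqv.refl _)
      · exact mem_clsS.2 hE₀
    calc 2 = ({u₀, v₀} : Finset (Fin n)).card := (Finset.card_pair hv₀.symm).symm
      _ ≤ _ := Finset.card_le_card this
  have hcut : cut (CG n h) (toS n (clsL n E)) ≤ W := by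
    rw [hA]
    exact hE.cutle u₀
  obtain ⟨h1, h2, h3, h4, h5⟩ := splitB_spec (hs _ hcard hcut)
  have hcls : ∀ u ∈ toS n (clsL n E), clsS n E u = toS n (clsL n E) := by
    intro u hu
    rw [hA, mem_clsS] at hu
    rw [hA]
    ext v
    rw [mem_clsS, mem_clsS]
    exact ⟨fun hh => hE.eqv.trans hu hh, fun hh => hE.eqv.trans (hE.eqv.symm hu) hh⟩
  refine ⟨h1, h2, h3, h4, h5, hcls, ?_, ?_, ?_⟩
  · intro u hu
    ext v
    rw [mem_clsS, mem_clsS, Er_stepE]
    exact ⟨fun hh => hh.1, fun hh => ⟨hh, Or.inl hu⟩⟩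
  · intro u hu
    ext v
    rw [mem_clsS, Er_stepE]
    have h6 : Er n E u v ↔ v ∈ toS n (clsL n E) := by rw [← mem_clsS, hcls u (h2 hu)]
    rw [h6]
    constructor
    · rintro ⟨_, hh | hh⟩
      · exact absurd (h2 hu) hh
      · exact hh.1 hu
    · intro hv
      exact ⟨h2 hv, Or.inr ⟨fun _ => hv, fun _ => hu⟩⟩
  · intro u hu
    rw [Finset.mem_sdiff] at hu
    ext v
    rw [mem_clsS, Er_stepE, Finset.mem_sdiff]
    have h6 : Er n E u v ↔ v ∈ toS n (clsL n E) := by rw [← mem_clsS, hcls u hu.1]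
    rw [h6]
    constructor
    · rintro ⟨h7, hh | hh⟩
      · exact absurd hu.1 hh
      · exact ⟨h7, fun h8 => hu.2 (hh.2 h8)⟩
    · intro hv
      exact ⟨hv.1, Or.inr ⟨fun h8 => absurd h8 hu.2, fun h8 => absurd h8 hv.2⟩⟩

theorem stepE_disc {W n : ℕ} {h E : List Bool} (hE : Good W n h E)
    (hne : ∀ u v : Fin n, Er n E u v → u = v) :
    toS n (clsL n E) = ∅ ∧ ∀ u, clsS n (stepE W n h E) u = clsS n E u := by
  have h0 := clsL_empty hE.len hne
  refine ⟨h0, fun u => ?_⟩
  ext v
  rw [mem_clsS, mem_clsS, Er_stepE, h0]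
  simp

theorem stepE_good {W n : ℕ} {h E : List Bool} (hs : Splits W n h) (hE : Good W n h E) :
    Good W n h (stepE W n h E) := by
  refine ⟨tab_length _ _, ⟨fun u => ?_, fun {u v} huv => ?_, fun {u v w} huv hvw => ?_⟩, ?_⟩
  · exact Er_stepE.2 ⟨hE.eqv.refl u, Or.inr Iff.rfl⟩
  · rw [Er_stepE] at huv ⊢
    refine ⟨hE.eqv.symm huv.1, ?_⟩
    rcases huv.2 with h1 | h1
    · exact Or.inl fun h2 => h1 ((sat hE huv.1).2 h2)
    · exact Or.inr h1.symm
  · rw [Er_stepE] at huv hvw ⊢
    refine ⟨hE.eqv.trans huv.1 hvw.1, ?_⟩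
    rcases huv.2 with h1 | h1
    · exact Or.inl h1
    · rcases hvw.2 with h2 | h2
      · exact Or.inl fun h3 => h2 ((sat hE huv.1).1 h3)
      · exact Or.inr (h1.trans h2)
  · intro u
    by_cases hne : ∃ u v : Fin n, u ≠ v ∧ Er n E u v
    · obtain ⟨_, _, _, h4, h5, h6, h7, h8, h9⟩ := stepE_spec hs hE hne
      by_cases hu : u ∈ toS n (clsL n E)
      · by_cases hu' : u ∈ toS n (splitB W n h (clsL n E))
        · rw [h8 u hu']
          exact h4
        · rw [h9 u (Finset.mem_sdiff.2 ⟨hu, hu'⟩)]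
          exact h5
      · rw [h7 u hu]
        exact hE.cutle u
    · push Not at hne
      rw [(stepE_disc hE (fun a b hab => by
        by_contra hn
        exact hne a b hn hab)).2 u]
      exact hE.cutle u

theorem EB_good {W n : ℕ} {h : List Bool} (hs : Splits W n h) (t : ℕ) :
    Good W n h (EB W n h t) := by
  induction t with
  | zero =>
    refine ⟨EB_length _ _ _ _, ⟨fun u => EB_zero u u, fun {u v} _ => EB_zero v u,
      fun {u v w} _ _ => EB_zero u w⟩, fun u => ?_⟩
    rw [EB_zero_cls, cut_univ]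
    exact Nat.zero_le _
  | succ t ih => exact stepE_good hs ih

theorem EB_disc {W n : ℕ} {h : List Bool} (hs : Splits W n h) (u : Fin n) :
    clsS n (EB W n h (n * n)) u = {u} := by
  classical
  set P : ℕ → Finset (Fin n × Fin n) := fun t =>
    univ.filter (fun p => p.1 ≠ p.2 ∧ Er n (EB W n h t) p.1 p.2) with hP
  have hmem : ∀ t (p : Fin n × Fin n), p ∈ P t ↔ p.1 ≠ p.2 ∧ Er n (EB W n h t) p.1 p.2 := by
    intro t p
    simp [hP]
  have hsub : ∀ t, P (t + 1) ⊆ P t := by
    intro t p hp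
    rw [hmem] at hp ⊢
    exact ⟨hp.1, Er_of_stepE hp.2⟩
  have key : ∀ t, (P t).card = 0 ∨ (P t).card + t ≤ n * n := by
    intro t
    induction t with
    | zero =>
      right
      have := Finset.card_le_univ (P 0)
      simpa using this
    | succ t ih =>
      by_cases h0 : (P t).card = 0
      · left
        have := Finset.card_le_card (hsub t)
        omega
      · right
        have h1 : (P t).card + t ≤ n * n := ih.resolve_left h0
        have h2 : P (t + 1) ⊂ P t := by
          refine Finset.ssubset_iff_subset_ne.2 ⟨hsub t, fun heq => ?_⟩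
          obtain ⟨p, hp⟩ := Finset.card_pos.1 (Nat.pos_of_ne_zero h0)
          rw [hmem] at hp
          obtain ⟨h3, h4, h5, _, _, h6, _, _, h7⟩ :=
            stepE_spec hs (EB_good hs t) ⟨p.1, p.2, hp.1, hp.2⟩
          obtain ⟨a, ha⟩ := h3
          obtain ⟨b, hb⟩ := h5
          have hb' := Finset.mem_sdiff.1 hb
          have hab : (b, a) ∈ P t := by
            rw [hmem]
            refine ⟨fun hh => hb'.2 (by rw [show b = a from hh]; exact ha), ?_⟩
            rw [← mem_clsS, h6 b hb'.1]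
            exact h4 ha
          rw [← heq, hmem] at hab
          have h8 : a ∈ clsS n (stepE W n h (EB W n h t)) b := mem_clsS.2 hab.2
          rw [h7 b hb, Finset.mem_sdiff] at h8
          exact h8.2 ha
        have := Finset.card_lt_card h2
        omega
  have h0 : (P (n * n)).card = 0 := by
    rcases key (n * n) with h1 | h1
    · exact h1
    · omega
  rw [Finset.card_eq_zero] at h0
  ext v
  rw [mem_clsS, Finset.mem_singleton]
  constructor
  · intro hv
    by_contra hne
    have : (u, v) ∈ P (n * n) := (hmem _ _).2 ⟨fun hh => hne (show v = u from hh.symm), hv⟩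
    rw [h0] at this
    simp at this
  · rintro rfl
    exact (EB_good hs (n * n)).eqv.refl _

end GemCW
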