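import Pool.Agent.Lib.GemCW.MergeSpec
import Pool.Agent.Lib.GemCW.RefSpec

/-!
# The dynamic programme is correct

Let `L = (n+1) ^ 2 ^ 2 ^ W`, `T = n * n`.  `WB_spec`: the entry `v * L + i` of the table after `s` steps is
`true` iff `i` is an achievable code (`TS`) for the class of `v` in the partition `EB (T - s)`.
Induction on `s ≤ T`.
* `s = 0`: `EB_disc`: the class is `{v}`; `IsPart.singleton`: the only partition is `{{v}}`, its
  code is `wt b ({v}.image τ) = wt b {τ v}`, `τ v = 0` (`tauS_singleton`); `p % L = i`.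
* `s + 1`: let `E = EB (T - s - 1)`, so `EB (T - s) = stepE E` (`T - s = (T - s - 1) + 1`,
  `iterS` unfolds).  `E` is `Good` (`EB_good`).  If all classes of `E` are singletons nothing changes
  (`stepE_disc`).  Otherwise `stepE_spec`: `A = toS (clsL E)`, `X = toS (splitB …)`,
  `toS (diffB …) = A \ X`.  For `v ∉ A`: the class of `v` is the same in `stepE E`.  For `v ∈ A`: the class of
  `v` in `E` is `A`; for `x1 ∈ X` the entries of row `x1` of the old table describe `X`, for
  `x2 ∈ A \ X` they describe `A \ X`; `mergeB_spec`.  (`exB` over `x1`, `x2`: such `x1`, `x2` exist.)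
  (`p / L = v`, `p % L = i` for `p = v * L + i`, `i < L`.)
`colB_spec`: `n = 0`: colourable with any `k` (`Fin 0` is empty).  `n > 0`: the class of `0` in `EB 0` is
`univ`; `WB_spec` for `s = T`; by `colorable_iff` there is a partition `Z` of `univ` with `card Z ≤ k`;
`card Z ≤ n < n + 1`, its code `i = pval … Z` is `< L` (`pval_lt`) and has digit sum `card Z` (`digit_sum`).
-/

namespace GemCW

open Finset

theorem tabIdx_lt {n L : ℕ} (v : Fin n) {i : ℕ} (hi : i < L) : (v : ℕ) * L + i < n * L := by
  calc (v : ℕ) * L + i < v * L + L := by omega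
    _ = (v + 1) * L := by ring
    _ ≤ n * L := Nat.mul_le_mul_right _ v.2

theorem tabIdx_div {L v i : ℕ} (hi : i < L) : (v * L + i) / L = v := by
  rw [Nat.add_comm, Nat.add_mul_div_right _ _ (by omega), Nat.div_eq_of_lt hi, zero_add]

theorem tabIdx_mod {L v i : ℕ} (hi : i < L) : (v * L + i) % L = i := by
  rw [Nat.add_comm, Nat.add_mul_mod_self_right, Nat.mod_eq_of_lt hi]

theorem toS_diffB (n : ℕ) (A X : List Bool) : toS n (diffB n A X) = toS n A \ toS n X := by
  ext u
  rw [mem_toS, diffB, tab_getD u.2, mem_sdiff, mem_toS, mem_toS]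
  simp

theorem WB_spec {W n : ℕ} {h : List Bool} (hs : Splits W n h) {s : ℕ} (hsT : s ≤ n * n)
    (v : Fin n) {i : ℕ} (hi : i < (n + 1) ^ 2 ^ 2 ^ W) :
    (WB W (2 ^ W) n h s).getD (v * (n + 1) ^ 2 ^ 2 ^ W + i) false = true ↔
      TS (HG n h) (n + 1) (tauS W n h (clsS n (EB W n h (n * n - s)) v))
        (clsS n (EB W n h (n * n - s)) v) i := by
  induction s generalizing v i with
  | zero =>
    rw [Nat.sub_zero, EB_disc hs v]
    change (W0 (2 ^ W) n).getD _ false = true ↔ _
    rw [W0, tab_getD (tabIdx_lt v hi), exF_iff, tabIdx_mod hi]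
    unfold TS
    constructor
    · rintro ⟨t, ht⟩
      rw [Bool.and_eq_true, decide_eq_true_iff, decide_eq_true_iff] at ht
      obtain ⟨ht0, hti⟩ := ht
      refine ⟨{{v}}, IsPart.singleton.2 rfl, ?_⟩
      rw [pval, Multiset.map_singleton, Multiset.sum_singleton, image_singleton, hti]
      congr 2
      apply Fin.ext
      rw [tauS_singleton, ht0]
    · rintro ⟨Z, hZ, hp⟩
      rw [IsPart.singleton] at hZ
      subst hZ
      rw [pval, Multiset.map_singleton, Multiset.sum_singleton, image_singleton] at hp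
      refine ⟨tauS W n h {v} v, ?_⟩
      rw [Bool.and_eq_true, decide_eq_true_iff, decide_eq_true_iff]
      exact ⟨tauS_singleton v, hp.symm⟩
  | succ s ih =>
    have hsT' : s ≤ n * n := by omega
    have ih := fun (v : Fin n) {i : ℕ} (hi : i < (n + 1) ^ 2 ^ 2 ^ W) => ih hsT' v hi
    have e1 : n * n - s = (n * n - s - 1) + 1 := by omega
    have e2 : n * n - (s + 1) = n * n - s - 1 := by omega
    have e3 : EB W n h (n * n - s) = stepE W n h (EB W n h (n * n - s - 1)) := by
      conv_lhs => rw [e1]
      rfl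
    rw [e2]
    rw [e3] at ih
    have hW : WB W (2 ^ W) n h (s + 1) =
        stepW W (2 ^ W) n h (EB W n h (n * n - s - 1)) (WB W (2 ^ W) n h s) := rfl
    rw [hW]
    clear hW e3 e1 e2
    have hE := EB_good hs (n * n - s - 1)
    generalize EB W n h (n * n - s - 1) = E at ih hE ⊢
    generalize WB W (2 ^ W) n h s = Wl at ih ⊢
    rw [stepW, tab_getD (tabIdx_lt v hi), tabIdx_div hi, tabIdx_mod hi]
    by_cases hne : ∃ u v : Fin n, u ≠ v ∧ Er n E u v
    · obtain ⟨h1, h2, h3, h4, h5, h6, h7, h8, h9⟩ := stepE_spec hs hE hne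
      by_cases hv : v ∈ toS n (clsL n E)
      · rw [if_pos (mem_toS.1 hv), h6 v hv]
        have hcA : cut (CG n h) (toS n (clsL n E)) ≤ W := by
          have := hE.cutle v
          rwa [h6 v hv] at this
        have hD := toS_diffB n (clsL n E) (splitB W n h (clsL n E))
        have key : ∀ x1 x2 : Fin n, x1 ∈ toS n (splitB W n h (clsL n E)) →
            x2 ∈ toS n (diffB n (clsL n E) (splitB W n h (clsL n E))) →
            (mergeB (2 ^ W) n h (clsL n E) (splitB W n h (clsL n E))
              (diffB n (clsL n E) (splitB W n h (clsL n E))) Wl x1 x2 i = true ↔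
              TS (HG n h) (n + 1) (tauS W n h (toS n (clsL n E))) (toS n (clsL n E)) i) := by
          intro x1 x2 hx1 hx2
          apply mergeB_spec hcA h4
          · rw [hD]; exact h5
          · rw [hD]; exact disjoint_sdiff
          · rw [hD]; exact union_sdiff_of_subset h2
          · intro j hj
            rw [ih x1 hj, h8 x1 hx1]
          · intro j hj
            rw [ih x2 hj, h9 x2 (by rw [← hD]; exact hx2), hD]
        rw [exB_iff]
        constructor
        · rintro ⟨x1, hx1, hx⟩
          rw [Bool.and_eq_true, exB_iff] at hx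
          obtain ⟨hx1', x2, hx2, hx⟩ := hx
          rw [Bool.and_eq_true] at hx
          exact (key ⟨x1, hx1⟩ ⟨x2, hx2⟩ (mem_toS.2 hx1') (mem_toS.2 hx.1)).1 hx.2
        · intro hT
          obtain ⟨x1, hx1⟩ := h1
          obtain ⟨x2, hx2⟩ := h3
          rw [← hD] at hx2
          refine ⟨x1, x1.2, ?_⟩
          rw [Bool.and_eq_true, exB_iff]
          refine ⟨mem_toS.1 hx1, x2, x2.2, ?_⟩
          rw [Bool.and_eq_true]
          exact ⟨mem_toS.1 hx2, (key x1 x2 hx1 hx2).2 hT⟩
      · rw [if_neg (fun hc => hv (mem_toS.2 hc)), ih v hi, h7 v hv]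
    · have hne' : ∀ u v : Fin n, Er n E u v → u = v := by
        intro u v huv
        by_contra hc
        exact hne ⟨u, v, hc, huv⟩
      obtain ⟨h1, h2⟩ := stepE_disc hE hne'
      have hv : v ∉ toS n (clsL n E) := by rw [h1]; exact notMem_empty v
      rw [if_neg (fun hc => hv (mem_toS.2 hc)), ih v hi, h2 v]

theorem colB_spec {W n : ℕ} {h : List Bool} (hs : Splits W n h) (k : ℕ) :
    colB W (2 ^ W) n h k = true ↔ (HG n h).Colorable k := by
  rw [colB, Bool.or_eq_true, decide_eq_true_iff]
  rcases Nat.eq_zero_or_pos n with hn | hn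
  · subst hn
    refine ⟨fun _ => ?_, fun _ => Or.inl rfl⟩
    exact ⟨SimpleGraph.Coloring.mk (fun v => v.elim0) (fun {v} => v.elim0)⟩
  · have hn0 : n ≠ 0 := by omega
    have hT := fun {i : ℕ} (hi : i < (n + 1) ^ 2 ^ 2 ^ W) =>
      WB_spec hs (le_refl (n * n)) (⟨0, hn⟩ : Fin n) hi
    simp only [Nat.sub_self, EB_zero_cls, zero_mul, zero_add] at hT
    rw [exB_iff, colorable_iff]
    constructor
    · rintro (h0 | ⟨i, hi, hx⟩)
      · exact absurd h0 hn0
      · rw [Bool.and_eq_true, decide_eq_true_iff] at hx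
        obtain ⟨hx1, hx2⟩ := hx
        obtain ⟨Z, hZ, hp⟩ := (hT hi).1 hx1
        refine ⟨Z, hZ, ?_⟩
        have hc : Z.card < n + 1 := by
          have := hZ.card_le
          rw [card_univ, Fintype.card_fin] at this
          omega
        rw [← digit_sum (tauS W n h univ) Z hc, hp]
        exact hx2
    · rintro ⟨Z, hZ, hk⟩
      right
      have hc : Z.card < n + 1 := by
        have := hZ.card_le
        rw [card_univ, Fintype.card_fin] at this
        omega
      have hi := pval_lt (tauS W n h univ) Z hc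
      refine ⟨_, hi, ?_⟩
      rw [Bool.and_eq_true, decide_eq_true_iff]
      refine ⟨(hT hi).2 ⟨Z, hZ, rfl⟩, ?_⟩
      rw [digit_sum (tauS W n h univ) Z hc]
      exact hk

end GemCW
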