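import Pool.Agent.Lib.GemCW.Emb
import Pool.Agent.Lib.GemCW.TabSpec
import Pool.Agent.Lib.GemCW.TabPT
import Pool.Agent.Lib.GemCW.ClsB
import Pool.Agent.Lib.GemCW.Enc

/-!
# COLOURING of `(P₁+P₄, co-(P₂+P₃))`-free graphs is in P
-/

namespace GemCW

open Pool.Agent.Lib.PolyTime Pool.Agent.Lib.Pa698a1

/-- the COLOURING problem restricted to a class of graphs, as a language -/
def ColouringLanguage (P : ∀ n : ℕ, SimpleGraph (Fin n) → Prop) : Set (List Bool) :=
  {w | ∃ (n : ℕ) (G : SimpleGraph (Fin n)) (k : ℕ), P n G ∧ G.Colorable k ∧ encode G k = w}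

/-- the decision procedure -/
noncomputable def decB (W : ℕ) (w : List Bool) : Bool :=
  wfB w && (clsB (nW w) (hW w) && colB W (2 ^ W) (nW w) (hW w) (kcapB (nW w) (kW w)))

theorem PB_decB (W : ℕ) : PB (decB W) := by
  unfold decB
  have hid : PC (fun w : List Bool => w) := PC.ident
  exact (PB_wfB hid).and ((PB_clsB (PN_nW hid) (PC_hW hid)).and
    (PB_colB W (2 ^ W) (PN_nW hid) (PC_hW hid) (PN_kcapB (PN_nW hid) (PC_kW hid))))

theorem decB_iff {W : ℕ} (hSp : ∀ (n : ℕ) (h : List Bool), Cls (CG n h) → Splits W n h)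
    (w : List Bool) : decB W w = true ↔
      w ∈ ColouringLanguage (fun _ G => IsEmpty (P1P4 ↪g G) ∧ IsEmpty (coP2P3 ↪g G)) := by
  unfold decB
  simp only [Bool.and_eq_true]
  constructor
  · rintro ⟨h1, h2, h3⟩
    have hc : Cls (CG (nW w) (hW w)) := (clsB_iff _ _).1 h2
    obtain ⟨k, hk, hk'⟩ := decode h1
    refine ⟨nW w, HG (nW w) (hW w), k, (cls_compl_iff _).2 hc, ?_, hk⟩
    rw [hk', kcapB_bits, colB_spec (hSp _ _ hc), colorable_min] at h3
    exact h3
  · rintro ⟨n, G, k, hP, hcol, rfl⟩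
    obtain ⟨e1, e2, e3, e4⟩ := encode_parts G k
    have hc : Cls (CG n (hW (encode G k))) := by
      unfold CG
      rw [e2]
      exact (cls_compl_iff _).1 hP
    refine ⟨e4, ?_, ?_⟩
    · rw [e1]
      exact (clsB_iff _ _).2 hc
    · rw [e1, e3, kcapB_bits, colB_spec (hSp _ _ hc), colorable_min, e2]
      exact hcol

theorem colouring_inP :
    InP (ColouringLanguage (fun _ G => IsEmpty (P1P4 ↪g G) ∧ IsEmpty (coP2P3 ↪g G))) := by
  obtain ⟨W, _, hW⟩ := bounded_split
  exact (PB_decB W).inP (decB_iff (W := W) (fun n h hc A hA hcut => hW (Fin n) (CG n h) hc A hA hcut))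

end GemCW
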