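import Mathlib

/-!
# Exact cuts in a nearly nested family of sets

Let `𝓕` be a finite family of finite sets such that for all `A, B ∈ 𝓕` not both `|A \ B| ≥ 2` and
`|B \ A| ≥ 1`.  Let `A₀ ∈ 𝓕`.  Then there is a set `P` with `|A₀ \ P| + |P \ A₀| ≤ 1` such that every
member of `𝓕` is contained in `P` or contains `P`.

Proof.  For `A, B ∈ 𝓕`: if `|A| < |B|` then `A ⊆ B` (else `|A \ B| ≥ 1`, `|B \ A| > |A \ B|`, so
`|B \ A| ≥ 2`); if `|A| = |B|`, `A ≠ B` then `|A \ B| = |B \ A| = 1`.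
Let `k = |A₀|`, `𝓕_k` the members of cardinality `k`.  If `𝓕_k = {A₀}` take `P = A₀`.  Otherwise let
`A₁ ∈ 𝓕_k`, `A₁ ≠ A₀`, `A₁ = A₀ \ {a} ∪ {b}`.
Claim: all members of `𝓕_k` contain `A₀ \ {a} = A₀ ∩ A₁`, or all are contained in
`A₀ ∪ {b} = A₀ ∪ A₁`.  Suppose `A₂ ∈ 𝓕_k` does not contain `A₀ ∩ A₁`: `A₂ = A₀ \ {a'} ∪ {b'}` with
`a' ∈ A₀ ∩ A₁`; `a' ∈ A₁ \ A₂` and `|A₁ \ A₂| = 1` so `b ∈ A₂`, i.e. `b' = b`.  Suppose `A₃ ∈ 𝓕_k` is not contained
in `A₀ ∪ {b}`: `A₃ = A₀ \ {a₃} ∪ {b₃}`, `b₃ ≠ b`; `b ∈ A₁ \ A₃`, so `a₃ ∉ A₁`, i.e. `a₃ = a`;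
`b ∈ A₂ \ A₃`, and `a ∈ A₂` (`a ≠ a'`), `a ∉ A₃`: `|A₂ \ A₃| ≥ 2`, contradiction.
In the first case `P = A₀ ∩ A₁`: members of `𝓕_k` contain `P`; larger members contain `A₀ ⊇ P`;
smaller members are contained in `A₀` and `A₁`, so in `P`.  In the second case `P = A₀ ∪ A₁`:
members of `𝓕_k` are contained in `P`, smaller ones in `A₀ ⊆ P`, larger ones contain `A₀` and `A₁`.
-/

namespace GemCW

open Finset

namespace HcutAux

variable {α : Type*} [DecidableEq α] {F : Finset (Finset α)}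

/-- smaller members are contained in larger ones -/
theorem sub_of_lt
    (h : ∀ A ∈ F, ∀ B ∈ F, 2 ≤ (A \ B).card → 1 ≤ (B \ A).card → False)
    {A B : Finset α} (hA : A ∈ F) (hB : B ∈ F) (hlt : A.card < B.card) : A ⊆ B := by
  by_contra hcon
  have h1 : 1 ≤ (A \ B).card := Finset.card_pos.2 (Finset.sdiff_nonempty.2 hcon)
  have h2 := Finset.card_sdiff_add_card_inter A B
  have h3 := Finset.card_sdiff_add_card_inter B A
  rw [Finset.inter_comm] at h3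
  exact h B hB A hA (by omega) h1

/-- different members of the same cardinality differ by one exchange -/
theorem one_of_eq
    (h : ∀ A ∈ F, ∀ B ∈ F, 2 ≤ (A \ B).card → 1 ≤ (B \ A).card → False)
    {A B : Finset α} (hA : A ∈ F) (hB : B ∈ F) (he : A.card = B.card) (hne : A ≠ B) :
    (A \ B).card = 1 ∧ (B \ A).card = 1 := by
  have h2 := Finset.card_sdiff_add_card_inter A B
  have h3 := Finset.card_sdiff_add_card_inter B A
  rw [Finset.inter_comm] at h3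
  have h1 : 1 ≤ (A \ B).card := by
    rcases Nat.eq_zero_or_pos (A \ B).card with h0 | h0
    · exfalso
      rw [Finset.card_eq_zero, Finset.sdiff_eq_empty_iff_subset] at h0
      exact hne (Finset.eq_of_subset_of_card_le h0 he.ge)
    · exact h0
  have h4 : ¬ 2 ≤ (A \ B).card := fun h5 => h A hA B hB h5 (by omega)
  omega

theorem key
    (h : ∀ A ∈ F, ∀ B ∈ F, 2 ≤ (A \ B).card → 1 ≤ (B \ A).card → False)
    {A₀ A₁ A₂ A₃ : Finset α} (h0 : A₀ ∈ F) (h1 : A₁ ∈ F) (h2 : A₂ ∈ F) (h3 : A₃ ∈ F)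
    (c1 : A₁.card = A₀.card) (c2 : A₂.card = A₀.card) (c3 : A₃.card = A₀.card) (hne : A₁ ≠ A₀)
    (e2 : ¬ A₀ ∩ A₁ ⊆ A₂) (e3 : ¬ A₃ ⊆ A₀ ∪ A₁) : False := by
  obtain ⟨p, hp, hp2⟩ := Finset.not_subset.1 e2
  obtain ⟨q, hq, hq2⟩ := Finset.not_subset.1 e3
  rw [Finset.mem_inter] at hp
  rw [Finset.mem_union, not_or] at hq2
  -- A₁ \ A₂ = {p}
  have n20 : A₂ ≠ A₀ := fun e => hp2 (e ▸ hp.1)
  have n21 : A₂ ≠ A₁ := fun e => hp2 (e ▸ hp.2)
  have n30 : A₃ ≠ A₀ := fun e => hq2.1 (e ▸ hq)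
  have n31 : A₃ ≠ A₁ := fun e => hq2.2 (e ▸ hq)
  have k10 := one_of_eq h h1 h0 c1 hne
  have k12 := one_of_eq h h1 h2 (c1.trans c2.symm) n21.symm
  have k02 := one_of_eq h h0 h2 c2.symm n20.symm
  have k31 := one_of_eq h h3 h1 (c3.trans c1.symm) n31
  have k30 := one_of_eq h h3 h0 c3 n30
  obtain ⟨b, hb⟩ := Finset.card_eq_one.1 k10.1
  obtain ⟨a, ha⟩ := Finset.card_eq_one.1 k10.2
  have hb' : b ∈ A₁ \ A₀ := hb ▸ Finset.mem_singleton_self b
  have ha' : a ∈ A₀ \ A₁ := ha ▸ Finset.mem_singleton_self a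
  rw [Finset.mem_sdiff] at hb' ha'
  -- unique elements
  have u : ∀ {X Y : Finset α} {x y : α}, (X \ Y).card = 1 → x ∈ X → x ∉ Y → y ∈ X → y ∉ Y → x = y := by
    intro X Y x y hc hx hx' hy hy'
    obtain ⟨z, hz⟩ := Finset.card_eq_one.1 hc
    have e1 : x ∈ ({z} : Finset α) := hz ▸ Finset.mem_sdiff.2 ⟨hx, hx'⟩
    have e2 : y ∈ ({z} : Finset α) := hz ▸ Finset.mem_sdiff.2 ⟨hy, hy'⟩
    rw [Finset.mem_singleton] at e1 e2
    rw [e1, e2]
  -- b ∈ A₂
  have b2 : b ∈ A₂ := by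
    by_contra hcon
    have : p = b := u k12.1 hp.2 hp2 hb'.1 hcon
    exact hb'.2 (this ▸ hp.1)
  -- a ∈ A₂
  have a2 : a ∈ A₂ := by
    by_contra hcon
    have : p = a := u k02.1 hp.1 hp2 ha'.1 hcon
    exact ha'.2 (this ▸ hp.2)
  -- b ∉ A₃
  have b3 : b ∉ A₃ := by
    intro hcon
    have : q = b := u k30.1 hq hq2.1 hcon hb'.2
    exact hq2.2 (this ▸ hb'.1)
  have a3 : a ∉ A₃ := by
    intro hcon
    have : q = a := u k31.1 hq hq2.2 hcon ha'.2
    exact hq2.1 (this ▸ ha'.1)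
  have hab : a ≠ b := fun e => ha'.2 (e ▸ hb'.1)
  have two : 2 ≤ (A₂ \ A₃).card := by
    have : ({a, b} : Finset α) ⊆ A₂ \ A₃ := by
      intro x hx
      rw [Finset.mem_insert, Finset.mem_singleton] at hx
      rw [Finset.mem_sdiff]
      rcases hx with rfl | rfl
      · exact ⟨a2, a3⟩
      · exact ⟨b2, b3⟩
    calc 2 = ({a, b} : Finset α).card := (Finset.card_pair hab).symm
      _ ≤ _ := Finset.card_le_card this
  refine h A₂ h2 A₃ h3 two ?_
  have h4 := Finset.card_sdiff_add_card_inter A₂ A₃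
  have h5 := Finset.card_sdiff_add_card_inter A₃ A₂
  rw [Finset.inter_comm] at h5
  omega

end HcutAux

theorem exact_cut {α : Type*} [DecidableEq α] (F : Finset (Finset α))
    (h : ∀ A ∈ F, ∀ B ∈ F, 2 ≤ (A \ B).card → 1 ≤ (B \ A).card → False)
    (A₀ : Finset α) (h₀ : A₀ ∈ F) :
    ∃ P : Finset α, (A₀ \ P).card + (P \ A₀).card ≤ 1 ∧ ∀ A ∈ F, A ⊆ P ∨ P ⊆ A := by
  by_cases hex : ∃ A₁ ∈ F, A₁.card = A₀.card ∧ A₁ ≠ A₀
  · obtain ⟨A₁, h1, c1, hne⟩ := hex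
    have k := HcutAux.one_of_eq h h1 h₀ c1 hne
    by_cases hc : ∀ A ∈ F, A.card = A₀.card → A₀ ∩ A₁ ⊆ A
    · refine ⟨A₀ ∩ A₁, ?_, fun A hA => ?_⟩
      · have e1 : A₀ \ (A₀ ∩ A₁) = A₀ \ A₁ := by
          ext x; simp only [Finset.mem_sdiff, Finset.mem_inter]; tauto
        have e2 : (A₀ ∩ A₁) \ A₀ = ∅ := by
          ext x; simp only [Finset.mem_sdiff, Finset.mem_inter, Finset.notMem_empty]; tauto
        rw [e1, e2, k.2, Finset.card_empty]
      · rcases lt_trichotomy A.card A₀.card with hlt | heq | hgt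
        · left
          exact Finset.subset_inter (HcutAux.sub_of_lt h hA h₀ hlt)
            (HcutAux.sub_of_lt h hA h1 (by omega))
        · right; exact hc A hA heq
        · right
          exact Finset.inter_subset_left.trans (HcutAux.sub_of_lt h h₀ hA hgt)
    · push Not at hc
      obtain ⟨A₂, h2, c2, e2⟩ := hc
      refine ⟨A₀ ∪ A₁, ?_, fun A hA => ?_⟩
      · have e1 : A₀ \ (A₀ ∪ A₁) = ∅ := by
          ext x; simp only [Finset.mem_sdiff, Finset.mem_union, Finset.notMem_empty]; tauto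
        have e2 : (A₀ ∪ A₁) \ A₀ = A₁ \ A₀ := by
          ext x; simp only [Finset.mem_sdiff, Finset.mem_union]; tauto
        rw [e1, e2, k.1, Finset.card_empty]
      · rcases lt_trichotomy A.card A₀.card with hlt | heq | hgt
        · left
          exact (HcutAux.sub_of_lt h hA h₀ hlt).trans Finset.subset_union_left
        · left
          by_contra e3
          exact HcutAux.key h h₀ h1 h2 hA c1 c2 heq hne e2 e3
        · right
          exact Finset.union_subset (HcutAux.sub_of_lt h h₀ hA hgt)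
            (HcutAux.sub_of_lt h h1 hA (by omega))
  · push Not at hex
    refine ⟨A₀, by simp, fun A hA => ?_⟩
    rcases lt_trichotomy A.card A₀.card with hlt | heq | hgt
    · left; exact HcutAux.sub_of_lt h hA h₀ hlt
    · left; rw [hex A hA heq]
    · right; exact HcutAux.sub_of_lt h h₀ hA hgt

end GemCW
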