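import Pool.Agent.Lib.GemCW.Kthree

/-!
# Well-linked cliques, IV: there is no large well-linked clique

`clique_bound`: in context `KCtx G K S e` there is a saturated set `A` with `|S ∩ A| ≤ 4e` such that
for every saturated `T` disjoint from `A`: `rk G (YT T) (YR T) ≤ 1`.

Proof.  The sparse vertices induce a cluster graph (`sp_cluster`).
Case 1: any two edges `a b`, `c d` between sparse vertices lie in the same clique (i.e. `a = c` or
`a ~ c`).  Take `A = ∅`.  If `y ∈ YT` has a neighbour in `YR`, then its trace on `YR` is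
`{x ∈ YR : x ~ y}` = (the unique nontrivial clique) `∩ YR`, the same for all such `y`: at most one
nonempty row.
Case 2: there are sparse `a₁ ~ a₂` and `b₁ ~ b₂` in different cliques (so pairwise nonadjacent and
distinct).  For each `q ∈ {a₁, a₂, b₁, b₂}` define a saturated set `A_q` with `|S ∩ A_q| ≤ e`:
  if `C_q ≠ ∅`: the hull (`exists_hull`) of an element of `C_q`; it contains `C_q` (a member which
  intersects a saturated set is contained in it);
  if `C_q = ∅` and `q ~ z` for some dense `z`: the hull of an element of `D_z`; it contains `D_{z'}` for every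
  dense `z' ~ q`, by `zero_de` (`D_z ∩ D_{z'} ≠ ∅`, `D_z ⊆ A_q`, so `D_{z'}` meets `A_q`);
  else `∅`.
`A = A_{a₁} ∪ A_{a₂} ∪ A_{b₁} ∪ A_{b₂}`.
Claim 1: every sparse `y` has `C_y ⊆ A`.  `y` is nonadjacent to and different from `a₁, a₂` or
  from `b₁, b₂` (cluster!); say `a₁, a₂`.  If `k ∈ C_y` were nonadjacent to `a₁, a₂`: choose `k' ∈ S`
  nonadjacent to `y, a₁, a₂` (cardinality `3e < |S|`); `y - k - k'` is a path and `a₁ a₂` an edge:
  `P₂+P₃`.  So `C_y ⊆ C_{a₁} ∪ C_{a₂} ⊆ A`.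
Claim 2: every dense `z` adjacent to some sparse `u` with `C_u = ∅` has `D_z ⊆ A`.  Say `u` is nonadjacent
  to and different from `a₁, a₂`.  If `z ≁ a₁, a₂`: choose `k ∈ S` with `k ~ z`, `k ≁ a₁, a₂`
  (cardinality); path `u - z - k` (`u ≁ k`) and edge `a₁ a₂`: `P₂+P₃`.  So `z ~ q` for some
  `q ∈ {a₁, a₂}`.  If `C_q = ∅` then `D_z ⊆ A_q`.  If `C_q ≠ ∅` then `C_q ⊆ D_z` or `D_z ⊆ C_q` (`sp_de`);
  in both cases `D_z` meets `C_q ⊆ A_q`, so `D_z ⊆ A_q` (saturated).
Hence for saturated `T` disjoint from `A`, `YT T = ∅` (a nonempty `C_y ⊆ T ∩ A`, or `D_z ⊆ T ∩ A`, is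
impossible), and the rank is `0`.

`K_main`: for every `c` there is `N` such that no `WL G c` clique has `N` elements.
Proof.  `e = 31 c + 1`, `N = 40 * e` (say; larger if convenient).  Extend `S` to a maximal clique `K`
(`exists_maxClq`); `sparse_or_dense` gives `KCtx G K S e`.  Take `A` from `clique_bound`, and `T` from
`exists_balanced`: `|S \ A| ≥ |S| - 4e`, `|S ∩ T| ≥ (|S| - 4e - 2e)/2`, `|S \ T| ≥ |S|/2`.  `clique_cut_sat`
gives `X` with `X ∩ K = T`, so `S ∩ X = S ∩ T`, `cut G X ≤ 2`.  `WL` gives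
`(|S| - 6e)/2 ≤ min ≤ 3 c`, contradiction for `|S| ≥ 40 e`.
-/

namespace GemCW

open Finset

namespace KfourAux

section
variable {V : Type*} [Fintype V] [DecidableEq V] {G : SimpleGraph V} {K S : Finset V} {e : ℕ}

/-- same clique of the cluster graph -/
def R (G : SimpleGraph V) (u v : V) : Prop := u = v ∨ G.Adj u v

theorem R.symm {u v : V} (h : R G u v) : R G v u := by
  rcases h with h | h
  · exact Or.inl h.symm
  · exact Or.inr h.symm

theorem R.trans (h : KCtx G K S e) {u v w : V} (hu : Sp G K S e u) (hv : Sp G K S e v)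
    (hw : Sp G K S e w) (h1 : R G u v) (h2 : R G v w) : R G u w := by
  by_cases huw : u = w
  · exact Or.inl huw
  · rcases h1 with rfl | h1
    · exact h2
    · rcases h2 with rfl | h2
      · exact Or.inr h1
      · exact Or.inr (h.sp_cluster hu hv hw h1 h2 huw)

theorem sat_sub {A F : Finset V} (hA : Sat G K S e A) (hF : Mem G K S e F)
    (hi : (F ∩ A).Nonempty) : F ⊆ A := by
  rcases hA.2 F hF with h1 | h1
  · exact h1
  · exfalso
    rw [disjoint_iff_inter_eq_empty] at h1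
    rw [h1] at hi
    exact not_nonempty_empty hi

theorem exists_Aq (h : KCtx G K S e) {q : V} (hq : Sp G K S e q) :
    ∃ A, Sat G K S e A ∧ (S ∩ A).card ≤ e ∧ nb G q K ⊆ A ∧
      (nb G q K = ∅ → ∀ z, De G K S e z → G.Adj q z → DD G K z ⊆ A) := by
  by_cases hne : (nb G q K).Nonempty
  · obtain ⟨k, hk⟩ := hne
    obtain ⟨M, hkM, hM, hMs⟩ := h.exists_hull (mem_nb.1 hk).1
    refine ⟨M, hMs, h.mem_card hM, ?_, fun h0 => ?_⟩
    · exact sat_sub hMs (Or.inl ⟨q, hq, rfl, ⟨k, hk⟩⟩) ⟨k, mem_inter.2 ⟨hk, hkM⟩⟩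
    · rw [h0] at hk
      exact absurd hk (notMem_empty _)
  · rw [not_nonempty_iff_eq_empty] at hne
    by_cases hz : ∃ z, De G K S e z ∧ G.Adj q z
    · obtain ⟨z, hz, hqz⟩ := hz
      obtain ⟨k, hk⟩ := h.dd_nonempty hz.1
      have hkK : k ∈ K := (mem_sdiff.1 hk).1
      obtain ⟨M, hkM, hM, hMs⟩ := h.exists_hull hkK
      have hzM : DD G K z ⊆ M :=
        sat_sub hMs (Or.inr (Or.inl ⟨z, hz, rfl⟩)) ⟨k, mem_inter.2 ⟨hk, hkM⟩⟩
      refine ⟨M, hMs, h.mem_card hM, by rw [hne]; exact empty_subset _, fun _ z' hz' hqz' => ?_⟩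
      obtain ⟨a, ha⟩ := h.zero_de hq hne hz hz' hqz hqz'
      rw [mem_inter] at ha
      exact sat_sub hMs (Or.inr (Or.inl ⟨z', hz', rfl⟩)) ⟨a, mem_inter.2 ⟨ha.2, hzM ha.1⟩⟩
    · refine ⟨∅, h.sat_empty, by simp, by rw [hne], fun _ z' hz' hqz' => ?_⟩
      exact absurd ⟨z', hz', hqz'⟩ hz

/-- Claim 1 -/
theorem claim1 (h : KCtx G K S e) {a b y : V} (ha : Sp G K S e a) (hb : Sp G K S e b)
    (hab : G.Adj a b) (hy : Sp G K S e y) (hya : ¬ G.Adj y a) (hyb : ¬ G.Adj y b) :
    nb G y K ⊆ nb G a K ∪ nb G b K := by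
  intro k hk
  by_contra hcon
  rw [mem_union, not_or, mem_nb, mem_nb] at hcon
  have hk' := mem_nb.1 hk
  have hka : ¬ G.Adj a k := fun hh => hcon.1 ⟨hk'.1, hh⟩
  have hkb : ¬ G.Adj b k := fun hh => hcon.2 ⟨hk'.1, hh⟩
  obtain ⟨k', hkS, hkB⟩ := exists_mem_notMem_of_card_lt_card
    (s := nb G y S ∪ nb G a S ∪ nb G b S) (t := S) (by
      have h1 := card_union_le (nb G y S ∪ nb G a S) (nb G b S)
      have h2 := card_union_le (nb G y S) (nb G a S)
      have h3 := hy.2
      have h4 := ha.2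
      have h5 := hb.2
      have h6 := h.big
      omega)
  rw [mem_union, mem_union, not_or, not_or, mem_nb, mem_nb, mem_nb] at hkB
  have h1 : ¬ G.Adj y k' := fun hh => hkB.1.1 ⟨hkS, hh⟩
  have h2 : ¬ G.Adj a k' := fun hh => hkB.1.2 ⟨hkS, hh⟩
  have h3 : ¬ G.Adj b k' := fun hh => hkB.2 ⟨hkS, hh⟩
  have hkk : k ≠ k' := fun hh => h1 (by rw [← hh]; exact hk'.2)
  have hyk : y ≠ k' := fun hh => hy.1 (by rw [hh]; exact h.sub hkS)
  exact h.cls.pp a b y k k' hab hk'.2 (h.max.1 _ hk'.1 _ (h.sub hkS) hkk) h1 hyk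
    (fun hh => hya hh.symm) hka h2 (fun hh => hyb hh.symm) hkb h3

/-- Claim 2 -/
theorem claim2 (h : KCtx G K S e) {a b u z : V} (ha : Sp G K S e a) (hb : Sp G K S e b)
    (hab : G.Adj a b) (hu : Sp G K S e u) (hu0 : nb G u K = ∅) (hua : ¬ G.Adj u a)
    (hub : ¬ G.Adj u b) (hz : De G K S e z) (huz : G.Adj u z) : G.Adj a z ∨ G.Adj b z := by
  by_contra hcon
  rw [not_or] at hcon
  obtain ⟨k, hkS, hkB⟩ := exists_mem_notMem_of_card_lt_card
    (s := (S \ nb G z S) ∪ nb G a S ∪ nb G b S) (t := S) (by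
      have h1 := card_union_le ((S \ nb G z S) ∪ nb G a S) (nb G b S)
      have h2 := card_union_le (S \ nb G z S) (nb G a S)
      have h3 := hz.2
      have h4 := ha.2
      have h5 := hb.2
      have h6 := h.big
      omega)
  rw [mem_union, mem_union, not_or, not_or, mem_sdiff, mem_nb, mem_nb, mem_nb] at hkB
  have h1 : G.Adj z k := by
    by_contra hh
    exact hkB.1.1 ⟨hkS, fun h2 => hh h2.2⟩
  have h2 : ¬ G.Adj a k := fun hh => hkB.1.2 ⟨hkS, hh⟩
  have h3 : ¬ G.Adj b k := fun hh => hkB.2 ⟨hkS, hh⟩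
  have h4 : ¬ G.Adj u k := by
    intro hh
    have : k ∈ nb G u K := mem_nb.2 ⟨h.sub hkS, hh⟩
    rw [hu0] at this
    exact notMem_empty _ this
  have h5 : u ≠ k := fun hh => hu.1 (by rw [hh]; exact h.sub hkS)
  exact h.cls.pp a b u z k hab huz h1 h4 h5 (fun hh => hua hh.symm) hcon.1 h2
    (fun hh => hub hh.symm) hcon.2 h3

/-- the two claims for one pair -/
theorem pair_claim (h : KCtx G K S e) {a b : V} (ha : Sp G K S e a) (hb : Sp G K S e b)
    (hab : G.Adj a b) {A Aa Ab : Finset V} (hAa : Sat G K S e Aa) (hAb : Sat G K S e Ab)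
    (hsa : Aa ⊆ A) (hsb : Ab ⊆ A) (ca : nb G a K ⊆ Aa) (cb : nb G b K ⊆ Ab)
    (da : nb G a K = ∅ → ∀ z, De G K S e z → G.Adj a z → DD G K z ⊆ Aa)
    (db : nb G b K = ∅ → ∀ z, De G K S e z → G.Adj b z → DD G K z ⊆ Ab)
    {y : V} (hy : Sp G K S e y) (hya : ¬ R G y a) (hyb : ¬ R G y b) :
    nb G y K ⊆ A ∧ (nb G y K = ∅ → ∀ z, De G K S e z → G.Adj y z → DD G K z ⊆ A) := by
  have hya' : ¬ G.Adj y a := fun hh => hya (Or.inr hh)
  have hyb' : ¬ G.Adj y b := fun hh => hyb (Or.inr hh)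
  refine ⟨?_, ?_⟩
  · intro k hk
    have h1 := claim1 h ha hb hab hy hya' hyb' hk
    rw [mem_union] at h1
    rcases h1 with h1 | h1
    · exact hsa (ca h1)
    · exact hsb (cb h1)
  · intro hy0 z hz hyz
    have key : ∀ (q : V) (Aq : Finset V), Sp G K S e q → Sat G K S e Aq → Aq ⊆ A →
        nb G q K ⊆ Aq → (nb G q K = ∅ → ∀ z, De G K S e z → G.Adj q z → DD G K z ⊆ Aq) →
        G.Adj q z → DD G K z ⊆ A := by
      intro q Aq hq hs hsub hc hd hqz
      by_cases hne : (nb G q K).Nonempty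
      · rcases (h.sp_de hq hz).2 hqz with h1 | h1
        · obtain ⟨k, hk⟩ := hne
          exact (sat_sub hs (Or.inr (Or.inl ⟨z, hz, rfl⟩))
            ⟨k, mem_inter.2 ⟨h1 hk, hc hk⟩⟩).trans hsub
        · exact (h1.trans hc).trans hsub
      · rw [not_nonempty_iff_eq_empty] at hne
        exact (hd hne z hz hqz).trans hsub
    rcases claim2 h ha hb hab hy hy0 hya' hyb' hz hyz with h1 | h1
    · exact key a Aa ha hAa hsa ca da h1
    · exact key b Ab hb hAb hsb cb db h1

end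

end KfourAux

open KfourAux in
theorem clique_bound {V : Type*} [Fintype V] [DecidableEq V] {G : SimpleGraph V}
    {K S : Finset V} {e : ℕ} (h : KCtx G K S e) :
    ∃ A : Finset V, Sat G K S e A ∧ (S ∩ A).card ≤ 4 * e ∧
      ∀ T, Sat G K S e T → Disjoint T A → rk G (YT G K S e T) (YR G K S e T) ≤ 1 := by
  classical
  by_cases hcase : ∀ a b c d, Sp G K S e a → Sp G K S e b → Sp G K S e c → Sp G K S e d →
      G.Adj a b → G.Adj c d → R G a c
  · refine ⟨∅, h.sat_empty, by simp, fun T _ _ => ?_⟩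
    have hYT : ∀ y, y ∈ YT G K S e T → Sp G K S e y := by
      intro y hy
      unfold YT at hy
      have hy := (@Finset.mem_filter _ _ _ _ _).1 hy
      exact hy.2.1
    have hYR : ∀ y, y ∈ YR G K S e T → Sp G K S e y ∧ y ∉ YT G K S e T := by
      intro y hy
      unfold YR at hy
      have hy := (@Finset.mem_filter _ _ _ _ _).1 hy
      exact hy.2
    by_cases hex : ∃ u ∈ YT G K S e T, nb G u (YR G K S e T) ≠ ∅
    · obtain ⟨u₀, hu₀, hne₀⟩ := hex
      obtain ⟨x₀, hx₀⟩ := nonempty_iff_ne_empty.2 hne₀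
      have hx₀' := mem_nb.1 hx₀
      have h1 : rk G (YT G K S e T) (YR G K S e T) ≤
          ({nb G u₀ (YR G K S e T)} : Finset (Finset V)).card := by
        apply rk_le_rows
        intro u hu
        by_cases hue : nb G u (YR G K S e T) = ∅
        · exact Or.inl hue
        · right
          obtain ⟨x₁, hx₁⟩ := nonempty_iff_ne_empty.2 hue
          have hx₁' := mem_nb.1 hx₁
          rw [mem_singleton]
          ext x
          rw [mem_nb, mem_nb]
          refine and_congr_right fun hx => ⟨fun hux => ?_, fun hux => ?_⟩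
          · rcases hcase x u u₀ x₀ (hYR x hx).1 (hYT u hu) (hYT u₀ hu₀) (hYR x₀ hx₀'.1).1
              hux.symm hx₀'.2 with h2 | h2
            · exact absurd (by rw [h2]; exact hu₀) (hYR x hx).2
            · exact h2.symm
          · rcases hcase x u₀ u x₁ (hYR x hx).1 (hYT u₀ hu₀) (hYT u hu) (hYR x₁ hx₁'.1).1
              hux.symm hx₁'.2 with h2 | h2
            · exact absurd (by rw [h2]; exact hu) (hYR x hx).2
            · exact h2.symm
      rwa [card_singleton] at h1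
    · push Not at hex
      have h1 : rk G (YT G K S e T) (YR G K S e T) ≤ (∅ : Finset (Finset V)).card :=
        rk_le_rows ∅ fun u hu => Or.inl (hex u hu)
      rw [card_empty] at h1
      omega
  · push Not at hcase
    obtain ⟨a₁, a₂, b₁, b₂, ha₁, ha₂, hb₁, hb₂, haa, hbb, hab⟩ := hcase
    obtain ⟨A1, s1, c1, n1, d1⟩ := exists_Aq h ha₁
    obtain ⟨A2, s2, c2, n2, d2⟩ := exists_Aq h ha₂
    obtain ⟨B1, s3, c3, n3, d3⟩ := exists_Aq h hb₁
    obtain ⟨B2, s4, c4, n4, d4⟩ := exists_Aq h hb₂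
    obtain ⟨A, hA⟩ : ∃ A, A = (A1 ∪ A2) ∪ (B1 ∪ B2) := ⟨_, rfl⟩
    have hAs : Sat G K S e A := by
      rw [hA]
      exact h.sat_union (h.sat_union s1 s2) (h.sat_union s3 s4)
    have hAc : (S ∩ A).card ≤ 4 * e := by
      rw [hA, inter_union_distrib_left, inter_union_distrib_left, inter_union_distrib_left]
      have h1 := card_union_le ((S ∩ A1) ∪ (S ∩ A2)) ((S ∩ B1) ∪ (S ∩ B2))
      have h2 := card_union_le (S ∩ A1) (S ∩ A2)
      have h3 := card_union_le (S ∩ B1) (S ∩ B2)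
      omega
    have q1 : A1 ⊆ A := by rw [hA]; exact subset_union_left.trans subset_union_left
    have q2 : A2 ⊆ A := by rw [hA]; exact subset_union_right.trans subset_union_left
    have q3 : B1 ⊆ A := by rw [hA]; exact subset_union_left.trans subset_union_right
    have q4 : B2 ⊆ A := by rw [hA]; exact subset_union_right.trans subset_union_right
    have hall : ∀ y, Sp G K S e y → nb G y K ⊆ A ∧
        (nb G y K = ∅ → ∀ z, De G K S e z → G.Adj y z → DD G K z ⊆ A) := by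
      intro y hy
      by_cases hya : R G y a₁
      · have hyb : ¬ R G y b₁ := fun hh => hab (R.trans h ha₁ hy hb₁ hya.symm hh)
        have hyb' : ¬ R G y b₂ := fun hh => hyb (R.trans h hy hb₂ hb₁ hh (Or.inr hbb.symm))
        exact pair_claim h hb₁ hb₂ hbb s3 s4 q3 q4 n3 n4 d3 d4 hy hyb hyb'
      · have hya' : ¬ R G y a₂ := fun hh => hya (R.trans h hy ha₂ ha₁ hh (Or.inr haa.symm))
        exact pair_claim h ha₁ ha₂ haa s1 s2 q1 q2 n1 n2 d1 d2 hy hya hya'
    refine ⟨A, hAs, hAc, fun T hT hTA => ?_⟩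
    have hYT : YT G K S e T = ∅ := by
      rw [eq_empty_iff_forall_notMem]
      intro y hy
      unfold YT at hy
      have hy := (@Finset.mem_filter _ _ _ _ _).1 hy
      obtain ⟨_, hsp, hy⟩ := hy
      obtain ⟨h1, h2⟩ := hall y hsp
      rcases hy with ⟨⟨k, hk⟩, hsub⟩ | ⟨h0, z, hz, hyz, hsub⟩
      · exact disjoint_left.1 hTA (hsub hk) (h1 hk)
      · obtain ⟨k, hk⟩ := h.dd_nonempty hz.1
        exact disjoint_left.1 hTA (hsub hk) (h2 h0 z hz hyz hk)
    rw [hYT, rk_eq_zero]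
    · omega
    · intro u hu
      exact absurd hu (notMem_empty _)

theorem K_main (c : ℕ) : ∃ N : ℕ, ∀ (V : Type) [Fintype V] [DecidableEq V] (G : SimpleGraph V),
    Cls G → ∀ S : Finset V, WL G c S → Clq G S → S.card < N := by
  refine ⟨40 * (31 * c + 1), fun V _ _ G hG S hS hcl => ?_⟩
  by_contra hcon
  push Not at hcon
  obtain ⟨e, he⟩ : ∃ e, e = 31 * c + 1 := ⟨_, rfl⟩
  rw [← he] at hcon
  obtain ⟨K, hSK, hK⟩ := exists_maxClq G S hcl
  have h : KCtx G K S e :=
    { cls := hG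
      max := hK
      sub := hSK
      one := by omega
      big := by omega
      dich := fun y hy => by
        rw [he]
        exact sparse_or_dense hG hK hSK hS hy }
  obtain ⟨A, hA, hAc, hrk⟩ := clique_bound h
  obtain ⟨T, hT, hTA, hT1, hT2⟩ := h.exists_balanced hA
  obtain ⟨X, hX, hcut⟩ := clique_cut_sat h hT
  have hr := hrk T hT hTA
  have hw := hS X
  have hSX : S ∩ X = S ∩ T := by
    rw [← hX]
    ext a
    rw [mem_inter, mem_inter, mem_inter]
    exact ⟨fun hh => ⟨hh.1, hh.2, hSK hh.1⟩, fun hh => ⟨hh.1, hh.2.1⟩⟩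
  have h1 : (S ∩ A).card + (S \ A).card = S.card := card_inter_add_card_sdiff S A
  have h2 : (S ∩ X).card + (S \ X).card = S.card := card_inter_add_card_sdiff S X
  rw [hSX] at hw h2
  have h3 : c * (cut G X + 1) ≤ c * 3 := Nat.mul_le_mul_left _ (by omega)
  have h4 := hw.trans h3
  rcases min_le_iff.1 h4 with h5 | h5
  · omega
  · omega

end GemCW
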