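import Pool.Agent.Lib.GemCW.RkA
import Pool.Agent.Lib.GemCW.RkB

/-!
# Well-linkedness is transferred along triangular patterns

Let `s i`, `y i` (`i < m`) be vertices, both sequences injective, with
`s j ~ y i` of constant truth value `a` for `i < j < m` and `¬ (s i ~ y i ↔ a)`.
If `{s i}` is `WL G c` then `{y i}` is `WL G (c+1)`.

Proof.  Let `X ⊆ V`, `ρ = cut G X = rk G X Xᶜ`.  Put `P = {i < m : s i ∈ X, y i ∉ X}`,
`Q = {i < m : s i ∉ X, y i ∈ X}`.  `tri_le_rk` with `A = X`, `B = Xᶜ` gives `|P| ≤ ρ + 1`, with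
`A = Xᶜ`, `B = X` (`rk_symm`) gives `|Q| ≤ ρ + 1`.
`|{y i} ∩ X| ≤ |{s i} ∩ X| + |Q|` and `|{y i} \ X| ≤ |{s i} \ X| + |P|` (count indices `i < m`).
Hence `min (|Y ∩ X|) (|Y \ X|) ≤ c (ρ+1) + (ρ+1) = (c+1)(ρ+1)`.

`transfer_set`: the unordered version for matching (`a = False`) and co-matching (`a = True`)
patterns: enumerate `S`.
-/

namespace GemCW

open Finset

variable {V : Type*} [Fintype V] [DecidableEq V]

theorem TransferAux.card_inter {m : ℕ} (s : ℕ → V) (hs : ∀ i < m, ∀ j < m, s i = s j → i = j)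
    (X : Finset V) :
    ((range m).image s ∩ X).card = ((range m).filter fun i => s i ∈ X).card := by
  rw [← Finset.filter_mem_eq_inter, Finset.filter_image, Finset.card_image_of_injOn]
  intro i hi j hj hij
  rw [Finset.mem_coe, Finset.mem_filter, Finset.mem_range] at hi hj
  exact hs i hi.1 j hj.1 hij

theorem TransferAux.card_sdiff {m : ℕ} (s : ℕ → V) (hs : ∀ i < m, ∀ j < m, s i = s j → i = j)
    (X : Finset V) :
    ((range m).image s \ X).card = ((range m).filter fun i => s i ∉ X).card := by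
  rw [← Finset.filter_notMem_eq_sdiff, Finset.filter_image, Finset.card_image_of_injOn]
  intro i hi j hj hij
  rw [Finset.mem_coe, Finset.mem_filter, Finset.mem_range] at hi hj
  exact hs i hi.1 j hj.1 hij

theorem transfer {G : SimpleGraph V} {c m : ℕ} (s y : ℕ → V) (a : Prop)
    (hs : ∀ i < m, ∀ j < m, s i = s j → i = j) (hy : ∀ i < m, ∀ j < m, y i = y j → i = j)
    (hd : ∀ i < m, ¬ (G.Adj (s i) (y i) ↔ a))
    (ht : ∀ i j, i < j → j < m → (G.Adj (s j) (y i) ↔ a))
    (hS : WL G c ((range m).image s)) : WL G (c + 1) ((range m).image y) := by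
  intro X
  have h0 := hS X
  rw [TransferAux.card_inter s hs, TransferAux.card_sdiff s hs] at h0
  rw [TransferAux.card_inter y hy, TransferAux.card_sdiff y hy]
  have hP := tri_le_rk (G := G) (A := X) (B := Xᶜ) s y
    ((range m).filter fun i => s i ∈ X ∧ y i ∉ X) a
    (fun i hi => (Finset.mem_filter.1 hi).2.1)
    (fun i hi => Finset.mem_compl.2 (Finset.mem_filter.1 hi).2.2)
    (fun i hi => hd i (Finset.mem_range.1 (Finset.mem_filter.1 hi).1))
    (fun i _ j hj hij => ht i j hij (Finset.mem_range.1 (Finset.mem_filter.1 hj).1))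
  have hQ := tri_le_rk (G := G) (A := Xᶜ) (B := X) s y
    ((range m).filter fun i => s i ∉ X ∧ y i ∈ X) a
    (fun i hi => Finset.mem_compl.2 (Finset.mem_filter.1 hi).2.1)
    (fun i hi => (Finset.mem_filter.1 hi).2.2)
    (fun i hi => hd i (Finset.mem_range.1 (Finset.mem_filter.1 hi).1))
    (fun i _ j hj hij => ht i j hij (Finset.mem_range.1 (Finset.mem_filter.1 hj).1))
  rw [rk_symm] at hQ
  change _ ≤ cut G X + 1 at hP
  change _ ≤ cut G X + 1 at hQ
  have h1 : ((range m).filter fun i => y i ∈ X).card ≤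
      ((range m).filter fun i => s i ∈ X).card +
        ((range m).filter fun i => s i ∉ X ∧ y i ∈ X).card := by
    refine le_trans (Finset.card_le_card ?_) (Finset.card_union_le _ _)
    intro i hi
    rw [Finset.mem_filter] at hi
    rw [Finset.mem_union, Finset.mem_filter, Finset.mem_filter]
    by_cases h : s i ∈ X
    · exact Or.inl ⟨hi.1, h⟩
    · exact Or.inr ⟨hi.1, h, hi.2⟩
  have h2 : ((range m).filter fun i => y i ∉ X).card ≤
      ((range m).filter fun i => s i ∉ X).card +
        ((range m).filter fun i => s i ∈ X ∧ y i ∉ X).card := by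
    refine le_trans (Finset.card_le_card ?_) (Finset.card_union_le _ _)
    intro i hi
    rw [Finset.mem_filter] at hi
    rw [Finset.mem_union, Finset.mem_filter, Finset.mem_filter]
    by_cases h : s i ∈ X
    · exact Or.inr ⟨hi.1, h, hi.2⟩
    · exact Or.inl ⟨hi.1, h⟩
  rw [add_mul, one_mul]
  rcases min_le_iff.1 h0 with h | h
  · exact min_le_iff.2 (Or.inl (by omega))
  · exact min_le_iff.2 (Or.inr (by omega))

theorem transfer_set {G : SimpleGraph V} {c : ℕ} (S : Finset V) (x : V → V) (a : Prop)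
    (hx : ∀ s ∈ S, ∀ t ∈ S, x s = x t → s = t)
    (hd : ∀ s ∈ S, ¬ (G.Adj s (x s) ↔ a))
    (ht : ∀ s ∈ S, ∀ t ∈ S, s ≠ t → (G.Adj s (x t) ↔ a))
    (hS : WL G c S) : WL G (c + 1) (S.image x) := by
  classical
  rcases S.eq_empty_or_nonempty with rfl | ⟨v0, hv0⟩
  · intro X
    simp
  · let e := S.equivFin
    let s : ℕ → V := fun i => if h : i < S.card then (e.symm ⟨i, h⟩ : V) else v0
    have hsval : ∀ i (h : i < S.card), s i = (e.symm ⟨i, h⟩ : V) := fun i h => dif_pos h
    have hsm : ∀ i < S.card, s i ∈ S := by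
      intro i h
      rw [hsval i h]
      exact (e.symm ⟨i, h⟩).2
    have hsi : ∀ i < S.card, ∀ j < S.card, s i = s j → i = j := by
      intro i hi j hj hij
      rw [hsval i hi, hsval j hj] at hij
      have h1 := e.symm.injective (Subtype.ext hij)
      exact congrArg Fin.val h1
    have himg : (range S.card).image s = S := by
      ext v
      rw [Finset.mem_image]
      constructor
      · rintro ⟨i, hi, rfl⟩
        exact hsm i (Finset.mem_range.1 hi)
      · intro hv
        refine ⟨(e ⟨v, hv⟩ : Fin S.card), Finset.mem_range.2 (e ⟨v, hv⟩).2, ?_⟩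
        rw [hsval _ (e ⟨v, hv⟩).2, Fin.eta, Equiv.symm_apply_apply]
    have himg2 : (range S.card).image (fun i => x (s i)) = S.image x := by
      conv_rhs => rw [← himg]
      rw [Finset.image_image]
      rfl
    rw [← himg2]
    refine transfer s (fun i => x (s i)) a hsi ?_ ?_ ?_ (himg.symm ▸ hS)
    · intro i hi j hj hij
      exact hsi i hi j hj (hx _ (hsm i hi) _ (hsm j hj) hij)
    · intro i hi
      exact hd _ (hsm i hi)
    · intro i j hij hj
      exact ht _ (hsm j hj) _ (hsm i (hij.trans hj)) fun h => by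
        have := hsi j hj i (hij.trans hj) h
        omega

end GemCW
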