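import Pool.Agent.Lib.GemCW.Hthree
import Pool.Agent.Lib.GemCW.Kfour
import Pool.Agent.Lib.GemCW.Ramsey
import Pool.Agent.Lib.GemCW.Transfer

/-!
# No well-linked half graphs (general form), and homogeneous subsets

`exists_indep`: a large `WL G c` set contains a large independent subset (`exists_homog`, `K_main`).

`H_main`: for `c` there is `N` such that there are no `m ≥ N`, `s, y : ℕ → V`, with
`{s i : i < m}` `WL G c`, and a truth value `a` with
`s i ~ y j ↔ a` for `i < j < m`, `s j ~ y i ↔ ¬ a` for `i < j < m`.  (Nothing is assumed on the diagonal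
and no injectivity.)
Proof.  If `a` is true: `s' i = s (2i)`, `y' j = y (2j+1)`: `s' i ~ y' j ↔ i ≤ j` (`2i < 2j+1` iff
`i ≤ j`), for `i, j < m/2`.  If `a` is false: with `M = m - 1`, `s' i = s (M - 2i)`,
`y' j = y (M - 2j - 1)` (`i, j < (m-1)/2`): `s' i ~ y' j` iff `M - 2i > M - 2j - 1` iff `i ≤ j`.
`s'`, `y'` are injective on the index range (distinct adjacencies).  `{s' i}` is `WL G c` as a subset,
`{y' i}` is `WL G (c+1)` by `transfer` applied suitably: `transfer` wants
`s j ~ y i ↔ a` for `i < j` and the opposite on the diagonal: here `s' j ~ y' i` is false for `i < j` and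
true for `i = j`: `a = False`.
By `ramsey'` with `α = Prop × Prop` or `Bool × Bool` (colour of `i < j`: truth values of
`s' i ~ s' j`, `y' i ~ y' j`) there is a subsequence of length `m''` on which both are homogeneous;
cliques of size `≥ N_K(c+1)` are impossible by `K_main (c+1)`.  So both independent:
`HCtx G (c+1) m'' ..` and `m'' < N` by `half_bound (c+1)`.
-/

namespace GemCW

open Finset

theorem exists_indep (c n : ℕ) : ∃ N : ℕ, ∀ (V : Type) [Fintype V] [DecidableEq V]
    (G : SimpleGraph V), Cls G → ∀ S : Finset V, WL G c S → N ≤ S.card →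
      ∃ T ⊆ S, T.card = n ∧ Indep G T := by
  obtain ⟨NK, hK⟩ := K_main c
  obtain ⟨N, hN⟩ := exists_homog (max n NK)
  refine ⟨N, fun V _ _ G hG S hS hc => ?_⟩
  obtain ⟨T, hTS, hT, h | h⟩ := hN V G S hc
  · have h1 := hK V G hG T (hS.sub hTS) h
    have h2 := le_max_right n NK
    omega
  · obtain ⟨T', hT', hc'⟩ := Finset.exists_subset_card_eq (s := T) (n := n) (by
      rw [hT]
      exact le_max_left _ _)
    exact ⟨T', hT'.trans hTS, hc', h.sub hT'⟩

namespace HfourAux

/-- the symmetric relation is homogeneous on a sequence -/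
theorem clq_of {V : Type} [DecidableEq V] (G : SimpleGraph V) {n : ℕ} {s : ℕ → V}
    (h : ∀ i j, i < j → j < n → G.Adj (s i) (s j)) : Clq G ((range n).image s) := by
  intro a ha b hb hab
  rw [mem_image] at ha hb
  obtain ⟨i, hi, rfl⟩ := ha
  obtain ⟨j, hj, rfl⟩ := hb
  rw [mem_range] at hi hj
  rcases lt_trichotomy i j with hij | hij | hij
  · exact h i j hij hj
  · exact absurd (congrArg s hij) hab
  · exact (h j i hij hi).symm

theorem ind_of {V : Type} (G : SimpleGraph V) {n : ℕ} {s : ℕ → V}
    (h : ∀ i j, i < j → j < n → ¬ G.Adj (s i) (s j)) : ∀ i < n, ∀ j < n, ¬ G.Adj (s i) (s j) := by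
  intro i hi j hj hadj
  rcases lt_trichotomy i j with hij | hij | hij
  · exact h i j hij hj hadj
  · rw [hij] at hadj
    exact G.loopless.irrefl _ hadj
  · exact h j i hij hi hadj.symm

theorem core (c : ℕ) : ∃ R : ℕ, ∀ (V : Type) [Fintype V] [DecidableEq V] (G : SimpleGraph V),
    Cls G → ∀ s y : ℕ → V, WL G c ((range R).image s) →
      (∀ i < R, ∀ j < R, (G.Adj (s i) (y j) ↔ i ≤ j)) → False := by
  classical
  obtain ⟨NK, hK⟩ := K_main (c + 1)
  obtain ⟨NH, hH⟩ := half_bound (c + 1)
  obtain ⟨R, hR⟩ := ramsey' (Bool × Bool) (max NK NH)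
  refine ⟨R, fun V _ _ G hG s y hS hadj => ?_⟩
  obtain ⟨f, hf, hfR, k, hk⟩ := hR fun i j =>
    (decide (G.Adj (s i) (s j)), decide (G.Adj (y i) (y j)))
  set n := max NK NH with hn
  have hnK : NK ≤ n := le_max_left _ _
  have hnH : NH ≤ n := le_max_right _ _
  have hadj' : ∀ i < n, ∀ j < n, (G.Adj (s (f i)) (y (f j)) ↔ i ≤ j) := by
    intro i hi j hj
    rw [hadj _ (hfR i hi) _ (hfR j hj)]
    constructor
    · intro h
      by_contra hcon
      have := hf j i (by omega) hi
      omega
    · intro h
      rcases Nat.lt_or_eq_of_le h with h | h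
      · exact (hf i j h hj).le
      · rw [h]
  have hinjs : ∀ i < n, ∀ j < n, s (f i) = s (f j) → i = j := by
    intro i hi j hj h
    have h1 := hadj' i hi i hi
    have h2 := hadj' j hj i hi
    have h3 := hadj' i hi j hj
    have h4 := hadj' j hj j hj
    rw [h] at h1 h3
    have h5 : j ≤ i := h2.1 (h1.2 le_rfl)
    have h6 : i ≤ j := h3.1 (h4.2 le_rfl)
    omega
  have hinjy : ∀ i < n, ∀ j < n, y (f i) = y (f j) → i = j := by
    intro i hi j hj h
    have h1 := hadj' i hi i hi
    have h2 := hadj' j hj i hi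
    have h3 := hadj' i hi j hj
    have h4 := hadj' j hj j hj
    rw [h] at h1 h2
    have h5 : j ≤ i := h2.1 (h4.2 le_rfl)
    have h6 : i ≤ j := h3.1 (h1.2 le_rfl)
    omega
  have hWs : WL G c ((range n).image fun i => s (f i)) := by
    refine hS.sub ?_
    intro x hx
    rw [mem_image] at hx ⊢
    obtain ⟨i, hi, rfl⟩ := hx
    rw [mem_range] at hi
    exact ⟨f i, mem_range.2 (hfR i hi), rfl⟩
  have hWy : WL G (c + 1) ((range n).image fun i => y (f i)) := by
    refine transfer (fun i => s (f i)) (fun i => y (f i)) False hinjs hinjy ?_ ?_ hWs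
    · intro i hi h
      exact h.1 ((hadj' i hi i hi).2 le_rfl)
    · intro i j hij hj
      rw [hadj' j hj i (by omega)]
      exact ⟨fun h => by omega, fun h => h.elim⟩
  have hWs' : WL G (c + 1) ((range n).image fun i => s (f i)) := hWs.mono (Nat.le_succ c)
  have hcs : ((range n).image fun i => s (f i)).card = n := by
    rw [Finset.card_image_of_injOn, card_range]
    intro i hi j hj h
    exact hinjs i (mem_range.1 hi) j (mem_range.1 hj) h
  have hcy : ((range n).image fun i => y (f i)).card = n := by
    rw [Finset.card_image_of_injOn, card_range]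
    intro i hi j hj h
    exact hinjy i (mem_range.1 hi) j (mem_range.1 hj) h
  have h1 : k.1 = false := by
    rcases h : k.1 with _ | _
    · rfl
    exfalso
    have h2 : Clq G ((range n).image fun i => s (f i)) := by
      refine clq_of G fun i j hij hj => ?_
      have h3 := congrArg Prod.fst (hk i j hij hj)
      rw [h] at h3
      exact of_decide_eq_true h3
    have h3 := hK V G hG _ hWs' h2
    rw [hcs] at h3
    omega
  have h2 : k.2 = false := by
    rcases h : k.2 with _ | _
    · rfl
    exfalso
    have h2 : Clq G ((range n).image fun i => y (f i)) := by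
      refine clq_of G fun i j hij hj => ?_
      have h3 := congrArg Prod.snd (hk i j hij hj)
      rw [h] at h3
      exact of_decide_eq_true h3
    have h3 := hK V G hG _ hWy h2
    rw [hcy] at h3
    omega
  have hctx : HCtx G (c + 1) n (fun i => s (f i)) (fun i => y (f i)) :=
    { cls := hG
      adj := hadj'
      indS := by
        refine ind_of G fun i j hij hj => ?_
        have h3 := congrArg Prod.fst (hk i j hij hj)
        rw [h1] at h3
        exact of_decide_eq_false h3
      indY := by
        refine ind_of G fun i j hij hj => ?_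
        have h3 := congrArg Prod.snd (hk i j hij hj)
        rw [h2] at h3
        exact of_decide_eq_false h3
      wlS := hWs'
      wlY := hWy }
  have h3 := hH V G n _ _ hctx
  omega

end HfourAux

theorem H_main (c : ℕ) : ∃ N : ℕ, ∀ (V : Type) [Fintype V] [DecidableEq V] (G : SimpleGraph V),
    Cls G → ∀ (m : ℕ) (s y : ℕ → V) (a : Prop), WL G c ((range m).image s) →
      (∀ i j, i < j → j < m → (G.Adj (s i) (y j) ↔ a)) →
      (∀ i j, i < j → j < m → (G.Adj (s j) (y i) ↔ ¬ a)) → m < N := by
  obtain ⟨R, hR⟩ := HfourAux.core c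
  refine ⟨2 * R + 1, fun V _ _ G hG m s y a hS h1 h2 => ?_⟩
  by_contra hcon
  have hm : 2 * R + 1 ≤ m := not_lt.1 hcon
  by_cases ha : a
  · refine hR V G hG (fun i => s (2 * i)) (fun j => y (2 * j + 1)) (hS.sub ?_) ?_
    · intro x hx
      rw [mem_image] at hx ⊢
      obtain ⟨i, hi, rfl⟩ := hx
      rw [mem_range] at hi
      exact ⟨2 * i, mem_range.2 (by omega), rfl⟩
    · intro i hi j hj
      rcases Nat.lt_or_ge j i with hij | hij
      · rw [h2 (2 * j + 1) (2 * i) (by omega) (by omega)]
        exact ⟨fun h => absurd ha h, fun h => by omega⟩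
      · rw [h1 (2 * i) (2 * j + 1) (by omega) (by omega)]
        exact ⟨fun _ => hij, fun _ => ha⟩
  · refine hR V G hG (fun i => s (m - 1 - 2 * i)) (fun j => y (m - 1 - 2 * j - 1))
      (hS.sub ?_) ?_
    · intro x hx
      rw [mem_image] at hx ⊢
      obtain ⟨i, hi, rfl⟩ := hx
      rw [mem_range] at hi
      exact ⟨m - 1 - 2 * i, mem_range.2 (by omega), rfl⟩
    · intro i hi j hj
      rcases Nat.lt_or_ge j i with hij | hij
      · rw [h1 (m - 1 - 2 * i) (m - 1 - 2 * j - 1) (by omega) (by omega)]
        exact ⟨fun h => absurd h ha, fun h => by omega⟩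
      · rw [h2 (m - 1 - 2 * j - 1) (m - 1 - 2 * i) (by omega) (by omega)]
        exact ⟨fun _ => hij, fun _ => ha⟩

end GemCW
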