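import Pool.Agent.Lib.GemCW.Pair

/-!
# Well-linked half graphs, I: positions of the other vertices

Context `HCtx G c m s y`: `s i ~ y j ↔ i ≤ j` (`i, j < m`), `{s i}` and `{y j}` independent and
`WL G c`.  For a vertex `w`: `ia w = {i < m : w ~ s i}`, `ib w = {j < m : w ~ y j}`.
Put `e = 31 c + 1`.

Index forms of `f1`, `f4` (`s`, `y` are injective on `[0,m)`, which follows from the adjacencies):
`ia_f1`, `ia_f4`, `ib_f1`, `ib_f4`.

`dual`: `s' i = y (m-1-i)`, `y' i = s (m-1-i)` is again such a system, with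
`ia' w = {i : m-1-i ∈ ib w}` and `ib' w = {j : m-1-j ∈ ia w}`.

`pos`: let `α = |ia w| > 3e+3`, `E = e + 2`.  Then
 (1) `i + E ≤ α → i ∈ ia w`; (2) `α + E ≤ i → i ∉ ia w`; (3) `E ≤ j → j + E ≤ α → j ∉ ib w`;
 (4) `α + E ≤ j → j ∉ ib w`.
Proof.  If `w = s k` then `ia w = ∅`.  If `w = y k` then `ia w = [0,k]`, `α = k+1`, `ib w = ∅`: fine.
Otherwise, for `j < m` let `[j] = {i ≤ j} = ia (y j)` and `g j = |ia w ∩ [j]|` (steps `0` or `1`).
 If `j ∉ ib w` (`w ≁ y j`): `ia_f1` (both ways): not (`|ia w \ [j]| ≥ 2` and `|[j] \ ia w| ≥ 1`), not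
 (`|[j] \ ia w| ≥ 2` and `|ia w \ [j]| ≥ 1`).  If `j ∈ ib w`: `ia_f4`: `g j ≤ e` or
 `|ia w Δ [j]| ≤ e`.
 * Let `e < g j < α - e` (so `α - g j ≥ 2`, as `e ≥ 1`).  `j ∈ ib w` is impossible, as `|ia w \ [j]| = α - g j > e`
   and `g j > e`.  So `w ≁ y j` and `[j] ⊆ ia w`, so `g j = j + 1`.
   Take the largest `j` with `g j = α - e - 1` (`> e`): so `[α - e - 2] ⊆ ia w` , which is (1) (even
   with `E = e + 1`); and (3): for `e ≤ j`, `j + 1 < α - e`: `g j = j+1`, so `j ∉ ib w`.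
 * (2): suppose `i ∈ ia w`, `i ≥ α + e + 1`; let `j = i - 1`: `|ia w \ [j]| ≥ 1`,
   `|[j] \ ia w| ≥ j + 1 - (α - 1) ≥ e + 2`.  If `w ≁ y j`: `ia_f1` is violated.  If `w ~ y j`:
   `|ia w ∩ [j]| ≥ α - e - 1 > e` by (1), `|ia w Δ [j]| ≥ e + 2`: `ia_f4` is violated.
 * (4): `j ≥ α + e + 1`: `ia w ⊆ [j]` by (2), so `|ia w ∩ [j]| = α > e`, `|ia w Δ [j]| = j + 1 - α > e`: so
   `w ≁ y j`.
`pos_dual`: the dual statement, for `β = |ib w| > 3e+3`, `γ = m - β`, `E' = e + 3`:
 (1) `γ + E' ≤ j → j < m → j ∈ ib w`; (2) `j + E' ≤ γ → j ∉ ib w`; (3) `γ + E' ≤ i → i + E' ≤ m → i ∉ ia w`;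
 (4) `i + E' ≤ γ → i ∉ ia w`.
`sparse`: if `|ia w| ≤ 3e+3` and `|ib w| ≤ 3e+3` then `ia w ⊆ [0, 6e+12)` and `ib w ⊆ [m-6e-12, m)`.
Proof.  Let `i ∈ ia w`, `i ≥ 6e+12`.  For every `j` with `3e+5 ≤ j < i` : `|[j] \ ia w| ≥ 2`,
`i ∈ ia w \ [j]`, so `w ~ y j` by `ia_f1`: so `|ib w| ≥ i - (3e+5) ≥ 3e+7`, contradiction.  (Also covers
`w = y k`; `w = s k` has `ia w = ∅`.)  The second by duality.
-/

namespace GemCW

open Finset

variable {V : Type*} [Fintype V] [DecidableEq V]

structure HCtx (G : SimpleGraph V) (c m : ℕ) (s y : ℕ → V) : Prop where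
  cls : Cls G
  adj : ∀ i < m, ∀ j < m, (G.Adj (s i) (y j) ↔ i ≤ j)
  indS : ∀ i < m, ∀ j < m, ¬ G.Adj (s i) (s j)
  indY : ∀ i < m, ∀ j < m, ¬ G.Adj (y i) (y j)
  wlS : WL G c ((range m).image s)
  wlY : WL G c ((range m).image y)

open scoped Classical in
/-- indices of the neighbours among the `s i` (or, with `y` for `s`, among the `y i`) -/
noncomputable def ix (G : SimpleGraph V) (m : ℕ) (s : ℕ → V) (w : V) : Finset ℕ :=
  (range m).filter (fun i => G.Adj w (s i))

omit [Fintype V] [DecidableEq V] in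
@[simp] theorem mem_ix {G : SimpleGraph V} {m : ℕ} {s : ℕ → V} {w : V} {i : ℕ} :
    i ∈ ix G m s w ↔ i < m ∧ G.Adj w (s i) := by
  simp [ix]

section
variable {G : SimpleGraph V} {c m : ℕ} {s y : ℕ → V}

theorem HCtx.inj_s (h : HCtx G c m s y) : ∀ i < m, ∀ j < m, s i = s j → i = j := by
  intro i hi j hj hij
  have h1 : i ≤ j := by
    have := (h.adj j hj j hj).2 le_rfl
    rw [← hij] at this
    exact (h.adj i hi j hj).1 this
  have h2 : j ≤ i := by
    have := (h.adj i hi i hi).2 le_rfl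
    rw [hij] at this
    exact (h.adj j hj i hi).1 this
  exact le_antisymm h1 h2

theorem HCtx.inj_y (h : HCtx G c m s y) : ∀ i < m, ∀ j < m, y i = y j → i = j := by
  intro i hi j hj hij
  have h1 : i ≤ j := by
    have := (h.adj i hi i hi).2 le_rfl
    rw [hij] at this
    exact (h.adj i hi j hj).1 this
  have h2 : j ≤ i := by
    have := (h.adj j hj j hj).2 le_rfl
    rw [← hij] at this
    exact (h.adj j hj i hi).1 this
  exact le_antisymm h1 h2

omit [Fintype V] in
theorem Hone_image_rev (f : ℕ → V) (m : ℕ) :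
    (range m).image (fun i => f (m - 1 - i)) = (range m).image f := by
  ext x
  simp only [mem_image, mem_range]
  constructor
  · rintro ⟨i, hi, rfl⟩
    exact ⟨m - 1 - i, by omega, rfl⟩
  · rintro ⟨i, hi, rfl⟩
    refine ⟨m - 1 - i, by omega, ?_⟩
    congr 1
    omega

theorem HCtx.dual (h : HCtx G c m s y) :
    HCtx G c m (fun i => y (m - 1 - i)) (fun i => s (m - 1 - i)) where
  cls := h.cls
  adj i hi j hj := by
    rw [G.adj_comm, h.adj (m - 1 - j) (by omega) (m - 1 - i) (by omega)]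
    omega
  indS i hi j hj := h.indY (m - 1 - i) (by omega) (m - 1 - j) (by omega)
  indY i hi j hj := h.indS (m - 1 - i) (by omega) (m - 1 - j) (by omega)
  wlS := by rw [Hone_image_rev]; exact h.wlY
  wlY := by rw [Hone_image_rev]; exact h.wlS

/-- initial segments -/
theorem HCtx.initial (h : HCtx G c m s y) {m' : ℕ} (hm : m' ≤ m) : HCtx G c m' s y where
  cls := h.cls
  adj i hi j hj := h.adj i (hi.trans_le hm) j (hj.trans_le hm)
  indS i hi j hj := h.indS i (hi.trans_le hm) j (hj.trans_le hm)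
  indY i hi j hj := h.indY i (hi.trans_le hm) j (hj.trans_le hm)
  wlS := h.wlS.sub (image_subset_image (range_subset_range.2 hm))
  wlY := h.wlY.sub (image_subset_image (range_subset_range.2 hm))

omit [Fintype V] in
theorem Hone_nb (w : V) : nb G w ((range m).image s) = (ix G m s w).image s := by
  ext x
  simp only [mem_nb, mem_image, mem_range, mem_ix]
  constructor
  · rintro ⟨⟨i, hi, rfl⟩, hx⟩
    exact ⟨i, ⟨hi, hx⟩, rfl⟩
  · rintro ⟨i, ⟨hi, hx⟩, rfl⟩
    exact ⟨⟨i, hi, rfl⟩, hx⟩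

theorem HCtx.Hone_indep (h : HCtx G c m s y) : Indep G ((range m).image s) := by
  intro a ha b hb
  simp only [mem_image, mem_range] at ha hb
  obtain ⟨i, hi, rfl⟩ := ha
  obtain ⟨j, hj, rfl⟩ := hb
  exact h.indS i hi j hj

omit [Fintype V] [DecidableEq V] in
theorem Hone_ix_sub (w : V) : ix G m s w ⊆ range m := by
  intro i hi
  exact mem_range.2 (mem_ix.1 hi).1

theorem HCtx.Hone_mem_image (h : HCtx G c m s y) {w : V} {i : ℕ} (hi : i < m) :
    s i ∈ (ix G m s w).image s ↔ i ∈ ix G m s w := by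
  constructor
  · intro hx
    obtain ⟨j, hj, hji⟩ := mem_image.1 hx
    rw [← h.inj_s j (mem_ix.1 hj).1 i hi hji]
    exact hj
  · intro hx
    exact mem_image_of_mem _ hx

theorem HCtx.Hone_card_sdiff (h : HCtx G c m s y) (w w' : V) :
    ((ix G m s w).image s \ (ix G m s w').image s).card = (ix G m s w \ ix G m s w').card := by
  have e1 : (ix G m s w).image s \ (ix G m s w').image s = (ix G m s w \ ix G m s w').image s := by
    ext x
    rw [mem_sdiff, mem_image, mem_image (s := ix G m s w \ ix G m s w')]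
    constructor
    · rintro ⟨⟨i, hi, rfl⟩, hx⟩
      refine ⟨i, mem_sdiff.2 ⟨hi, fun h2 => hx ?_⟩, rfl⟩
      exact mem_image_of_mem _ h2
    · rintro ⟨i, hi, rfl⟩
      rw [mem_sdiff] at hi
      refine ⟨⟨i, hi.1, rfl⟩, fun h2 => hi.2 ?_⟩
      exact (h.Hone_mem_image (mem_ix.1 hi.1).1).1 h2
  rw [e1, card_image_of_injOn]
  intro i hi j hj hij
  have hi' := (mem_ix.1 (mem_sdiff.1 (mem_coe.1 hi)).1).1
  have hj' := (mem_ix.1 (mem_sdiff.1 (mem_coe.1 hj)).1).1
  exact h.inj_s i hi' j hj' hij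

theorem HCtx.Hone_card_inter (h : HCtx G c m s y) (w w' : V) :
    ((ix G m s w).image s ∩ (ix G m s w').image s).card = (ix G m s w ∩ ix G m s w').card := by
  have e1 : (ix G m s w).image s ∩ (ix G m s w').image s = (ix G m s w ∩ ix G m s w').image s := by
    ext x
    rw [mem_inter, mem_image, mem_image (s := ix G m s w ∩ ix G m s w')]
    constructor
    · rintro ⟨⟨i, hi, rfl⟩, hx⟩
      exact ⟨i, mem_inter.2 ⟨hi, (h.Hone_mem_image (mem_ix.1 hi).1).1 hx⟩, rfl⟩
    · rintro ⟨i, hi, rfl⟩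
      rw [mem_inter] at hi
      exact ⟨⟨i, hi.1, rfl⟩, mem_image_of_mem _ hi.2⟩
  rw [e1, card_image_of_injOn]
  intro i hi j hj hij
  have hi' := (mem_ix.1 (mem_inter.1 (mem_coe.1 hi)).1).1
  have hj' := (mem_ix.1 (mem_inter.1 (mem_coe.1 hj)).1).1
  exact h.inj_s i hi' j hj' hij

omit [Fintype V] in
theorem Hone_card_symm {α : Type*} [DecidableEq α] (A B : Finset α) :
    (symmDiff A B).card = (A \ B).card + (B \ A).card := by
  rw [symmDiff_def, sup_eq_union, card_union_of_disjoint]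
  exact disjoint_sdiff_sdiff

theorem HCtx.ia_f1 (h : HCtx G c m s y) {w w' : V} (hww : ¬ G.Adj w w')
    (h2 : 2 ≤ (ix G m s w \ ix G m s w').card) (h1 : 1 ≤ (ix G m s w' \ ix G m s w).card) :
    False := by
  refine f1 h.cls h.Hone_indep hww ?_ ?_
  · rw [Hone_nb, Hone_nb, h.Hone_card_sdiff]; exact h2
  · rw [Hone_nb, Hone_nb, h.Hone_card_sdiff]; exact h1

theorem HCtx.ia_f4 (h : HCtx G c m s y) {w w' : V} (hww : G.Adj w w') :
    (ix G m s w ∩ ix G m s w').card ≤ 31 * c + 1 ∨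
      (symmDiff (ix G m s w) (ix G m s w')).card ≤ 31 * c + 1 := by
  have h1 := f4 h.cls h.Hone_indep h.wlS hww
  rw [Hone_nb, Hone_nb, h.Hone_card_inter, Hone_card_symm, h.Hone_card_sdiff,
    h.Hone_card_sdiff, ← Hone_card_symm] at h1
  exact h1

theorem HCtx.Hone_ix_y (h : HCtx G c m s y) {j : ℕ} (hj : j < m) :
    ix G m s (y j) = range (j + 1) := by
  ext i
  rw [mem_ix, mem_range]
  constructor
  · rintro ⟨hi, hx⟩
    rw [G.adj_comm, h.adj i hi j hj] at hx
    omega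
  · intro hi
    refine ⟨by omega, ?_⟩
    rw [G.adj_comm, h.adj i (by omega) j hj]
    omega

/-- counting function -/
theorem Hone_cards (A : Finset ℕ) (t : ℕ) :
    (A \ range t).card + (A ∩ range t).card = A.card ∧
    (range t \ A).card + (A ∩ range t).card = t := by
  constructor
  · exact card_sdiff_add_card_inter A (range t)
  · rw [inter_comm]
    have := card_sdiff_add_card_inter (range t) A
    rw [card_range] at this
    exact this

theorem HCtx.Hone_N1 (h : HCtx G c m s y) {w : V} {j : ℕ} (hj : j < m)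
    (hw : j ∉ ix G m y w) :
    ¬ (2 ≤ (ix G m s w \ range (j + 1)).card ∧ 1 ≤ (range (j + 1) \ ix G m s w).card) ∧
    ¬ (2 ≤ (range (j + 1) \ ix G m s w).card ∧ 1 ≤ (ix G m s w \ range (j + 1)).card) := by
  have hna : ¬ G.Adj w (y j) := fun hx => hw (mem_ix.2 ⟨hj, hx⟩)
  constructor
  · rintro ⟨h2, h1⟩
    rw [← h.Hone_ix_y hj] at h2 h1
    exact h.ia_f1 hna h2 h1
  · rintro ⟨h2, h1⟩
    rw [← h.Hone_ix_y hj] at h2 h1
    exact h.ia_f1 (fun hx => hna hx.symm) h2 h1

theorem HCtx.Hone_N2 (h : HCtx G c m s y) {w : V} {j : ℕ}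
    (hw : j ∈ ix G m y w) :
    (ix G m s w ∩ range (j + 1)).card ≤ 31 * c + 1 ∨
    (ix G m s w \ range (j + 1)).card + (range (j + 1) \ ix G m s w).card ≤ 31 * c + 1 := by
  obtain ⟨hj, hx⟩ := mem_ix.1 hw
  have h1 := h.ia_f4 hx
  rw [h.Hone_ix_y hj, Hone_card_symm] at h1
  exact h1

theorem HCtx.pos (h : HCtx G c m s y) {e : ℕ} (he : e = 31 * c + 1) {w : V} {α : ℕ}
    (hα : (ix G m s w).card = α) (hb : 3 * e + 3 < α) :
    (∀ i, i + (e + 2) ≤ α → i ∈ ix G m s w) ∧ (∀ i, α + (e + 2) ≤ i → i ∉ ix G m s w) ∧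
    (∀ j, e + 2 ≤ j → j + (e + 2) ≤ α → j ∉ ix G m y w) ∧
    (∀ j, α + (e + 2) ≤ j → j ∉ ix G m y w) := by
  set A := ix G m s w with hA
  have hAm : A ⊆ range m := Hone_ix_sub w
  have hαm : α ≤ m := by
    rw [← hα, ← card_range m]
    exact card_le_card hAm
  -- the key claim
  have claim : ∀ j < m, e < (A ∩ range (j + 1)).card → (A ∩ range (j + 1)).card + e < α →
      j ∉ ix G m y w ∧ (A ∩ range (j + 1)).card = j + 1 := by
    intro j hj h1 h2
    obtain ⟨c1, c2⟩ := Hone_cards A (j + 1)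
    have hn : j ∉ ix G m y w := by
      intro hw
      rcases h.Hone_N2 hw with h3 | h3
      · rw [← hA] at h3; omega
      · rw [← hA] at h3; omega
    refine ⟨hn, ?_⟩
    have h3 := (h.Hone_N1 hj hn).1
    rw [← hA] at h3
    by_contra h4
    apply h3
    constructor <;> omega
  -- the prefix is contained in A
  have hpre : range (α - e - 1) ⊆ A := by
    classical
    have hex : ∃ t, α - e - 1 ≤ (A ∩ range t).card := ⟨m, by
      rw [inter_eq_left.2 hAm, hα]; omega⟩
    set t := Nat.find hex with ht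
    have ht1 : α - e - 1 ≤ (A ∩ range t).card := Nat.find_spec hex
    have ht0 : t ≠ 0 := by
      intro h0
      rw [h0, range_zero, inter_empty, card_empty] at ht1
      omega
    obtain ⟨j, hj⟩ : ∃ j, t = j + 1 := ⟨t - 1, by omega⟩
    have hmin : ¬ α - e - 1 ≤ (A ∩ range j).card := Nat.find_min hex (by omega)
    have hle : t ≤ m := Nat.find_min' hex (by
      rw [inter_eq_left.2 hAm, hα]; omega)
    have hstep : (A ∩ range (j + 1)).card ≤ (A ∩ range j).card + 1 := by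
      have hsub : A ∩ range (j + 1) ⊆ insert j (A ∩ range j) := by
        intro i hi
        rw [mem_inter, mem_range] at hi
        rw [mem_insert, mem_inter, mem_range]
        rcases Nat.lt_or_ge i j with h6 | h6
        · exact Or.inr ⟨hi.1, h6⟩
        · exact Or.inl (by omega)
      exact (card_le_card hsub).trans (card_insert_le _ _)
    rw [hj] at ht1
    have hc := (claim j (by omega) (by omega) (by omega)).2
    have hcard : j + 1 = α - e - 1 := by omega
    rw [← hcard]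
    have h5 : A ∩ range (j + 1) = range (j + 1) := by
      apply eq_of_subset_of_card_le inter_subset_right
      rw [hc, card_range]
    rw [← h5]
    exact inter_subset_left
  have hcount : ∀ t, t ≤ α - e - 1 → (A ∩ range t).card = t := by
    intro t ht
    have : A ∩ range t = range t :=
      inter_eq_right.2 ((range_subset_range.2 ht).trans hpre)
    rw [this, card_range]
  have hge : ∀ t, α - e - 1 ≤ t → α - e - 1 ≤ (A ∩ range t).card := by
    intro t ht
    calc α - e - 1 = (A ∩ range (α - e - 1)).card := (hcount _ le_rfl).symm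
      _ ≤ _ := card_le_card (inter_subset_inter_left (range_subset_range.2 ht))
  have h2 : ∀ i, α + (e + 2) ≤ i → i ∉ A := by
    intro i hi hiA
    have him : i < m := mem_range.1 (hAm hiA)
    obtain ⟨j, rfl⟩ : ∃ j, i = j + 1 := ⟨i - 1, by omega⟩
    obtain ⟨c1, c2⟩ := Hone_cards A (j + 1)
    have h3 : 1 ≤ (A \ range (j + 1)).card := by
      rw [Nat.one_le_iff_ne_zero, card_ne_zero]
      exact ⟨j + 1, mem_sdiff.2 ⟨hiA, by simp⟩⟩
    have h4 := hge (j + 1) (by omega)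
    by_cases hw : j ∈ ix G m y w
    · rcases h.Hone_N2 hw with h5 | h5
      · rw [← hA] at h5; omega
      · rw [← hA] at h5; omega
    · have h5 := (h.Hone_N1 (by omega) hw).2
      rw [← hA] at h5
      apply h5
      constructor <;> omega
  refine ⟨?_, h2, ?_, ?_⟩
  · intro i hi
    exact hpre (mem_range.2 (by omega))
  · intro j hj1 hj2
    have h3 := hcount (j + 1) (by omega)
    exact (claim j (by omega) (by omega) (by omega)).1
  · intro j hj hw
    have hjm : j < m := (mem_ix.1 hw).1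
    obtain ⟨c1, c2⟩ := Hone_cards A (j + 1)
    have h3 : A ⊆ range (j + 1) := by
      intro i hi
      rw [mem_range]
      by_contra h4
      exact h2 i (by omega) hi
    have h4 : (A ∩ range (j + 1)).card = α := by rw [inter_eq_left.2 h3, hα]
    rcases h.Hone_N2 hw with h5 | h5
    · rw [← hA] at h5; omega
    · rw [← hA] at h5; omega

omit [Fintype V] [DecidableEq V] in
theorem Hone_mem_rev (f : ℕ → V) {w : V} {i : ℕ} (hi : i < m) :
    (m - 1 - i) ∈ ix G m (fun i => f (m - 1 - i)) w ↔ i ∈ ix G m f w := by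
  rw [mem_ix, mem_ix]
  have h1 : m - 1 - (m - 1 - i) = i := by omega
  rw [h1]
  constructor
  · rintro ⟨_, h2⟩; exact ⟨hi, h2⟩
  · rintro ⟨_, h2⟩; exact ⟨by omega, h2⟩

omit [Fintype V] [DecidableEq V] in
theorem Hone_card_rev (f : ℕ → V) {w : V} :
    (ix G m (fun i => f (m - 1 - i)) w).card = (ix G m f w).card := by
  symm
  apply card_bij (fun i _ => m - 1 - i)
  · intro i hi
    exact (Hone_mem_rev f (mem_ix.1 hi).1).2 hi
  · intro i hi j hj hij
    have h1 := (mem_ix.1 hi).1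
    have h2 := (mem_ix.1 hj).1
    omega
  · intro i hi
    have h1 := (mem_ix.1 hi)
    refine ⟨m - 1 - i, mem_ix.2 ⟨by omega, h1.2⟩, by omega⟩

theorem HCtx.pos_dual (h : HCtx G c m s y) {e : ℕ} (he : e = 31 * c + 1) {w : V} {γ : ℕ}
    (hγ : (ix G m y w).card + γ = m) (hb : 3 * e + 3 < (ix G m y w).card) :
    (∀ j, γ + (e + 3) ≤ j → j < m → j ∈ ix G m y w) ∧ (∀ j, j + (e + 3) ≤ γ → j ∉ ix G m y w) ∧
    (∀ i, γ + (e + 3) ≤ i → i + (e + 3) ≤ m → i ∉ ix G m s w) ∧
    (∀ i, i + (e + 3) ≤ γ → i ∉ ix G m s w) := by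
  obtain ⟨h1, h2, h3, h4⟩ := h.dual.pos he (w := w) (α := (ix G m y w).card)
    (Hone_card_rev y) hb
  refine ⟨?_, ?_, ?_, ?_⟩
  · intro j hj hjm
    exact (Hone_mem_rev y hjm).1 (h1 (m - 1 - j) (by omega))
  · intro j hj hx
    exact h2 (m - 1 - j) (by omega) ((Hone_mem_rev y (by omega)).2 hx)
  · intro i hi him hx
    exact h3 (m - 1 - i) (by omega) (by omega) ((Hone_mem_rev s (by omega)).2 hx)
  · intro i hi hx
    exact h4 (m - 1 - i) (by omega) ((Hone_mem_rev s (by omega)).2 hx)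

theorem HCtx.Hone_sparse (h : HCtx G c m s y) {e : ℕ} {w : V}
    (ha : (ix G m s w).card ≤ 3 * e + 3) (hb : (ix G m y w).card ≤ 3 * e + 3) :
    ∀ i ∈ ix G m s w, i < 6 * e + 12 := by
  intro i hi
  by_contra hlt
  have him : i < m := (mem_ix.1 hi).1
  have hsub : Ico (3 * e + 5) i ⊆ ix G m y w := by
    intro j hj
    rw [mem_Ico] at hj
    by_contra hw
    obtain ⟨c1, c2⟩ := Hone_cards (ix G m s w) (j + 1)
    apply (h.Hone_N1 (by omega) hw).2
    refine ⟨by omega, ?_⟩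
    rw [Nat.one_le_iff_ne_zero, card_ne_zero]
    exact ⟨i, mem_sdiff.2 ⟨hi, by simp; omega⟩⟩
  have h1 := card_le_card hsub
  rw [Nat.card_Ico] at h1
  omega

theorem HCtx.sparse (h : HCtx G c m s y) {e : ℕ} (he : e = 31 * c + 1) {w : V}
    (ha : (ix G m s w).card ≤ 3 * e + 3) (hb : (ix G m y w).card ≤ 3 * e + 3) :
    (∀ i ∈ ix G m s w, i < 6 * e + 12) ∧ (∀ j ∈ ix G m y w, m < j + (6 * e + 13)) := by
  refine ⟨h.Hone_sparse ha hb, ?_⟩
  intro j hj
  have hjm : j < m := (mem_ix.1 hj).1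
  have h1 := h.dual.Hone_sparse (e := e) (w := w) (by rw [Hone_card_rev y]; exact hb)
    (by rw [Hone_card_rev s]; exact ha) (m - 1 - j) ((Hone_mem_rev y hjm).2 hj)
  omega

end

end GemCW
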