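import Pool.Agent.Lib.GemCW.Defs

/-!
# Upper bounds for the rank of a bipartite adjacency matrix

`rk G A B` is the rank over `ZMod 2` of the `V × V` matrix whose entry `(u,v)` is `1` iff
`u ∈ A`, `v ∈ B` and `u ~ v`.

Proof sketches.
* `rk_symm`: the matrix of `(B,A)` is the transpose (`Matrix.rank_transpose`), `G.Adj` symmetric.
* `rk_mono`: `M_{A,B} = D_A * M_{A',B'} * D_B` with `0/1` diagonal matrices
  (`Matrix.rank_mul_le_left/right`).
* `rk_union_left`: `M_{A ∪ A',B} = M_{A,B} + M_{A' \ A,B}`, subadditivity of the rank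
  (`Matrix.rank_add_le`?; otherwise via ranges of `mulVecLin`/`LinearMap.rank_add_le`) and
  `rk_mono`.
* `rk_le_rows`: every row of the matrix lies in the span of the `F.card` indicator vectors of the
  members of `F` (`Matrix.rank_eq_finrank_span_row`, `finrank_span_finset_le_card`).
* `rk_le_cols` follows from `rk_le_rows` and `rk_symm`.
-/

namespace GemCW

open Finset

variable {V : Type*} [Fintype V]

open scoped Classical in
/-- the matrix behind `rk` -/
noncomputable def RkA_mat (G : SimpleGraph V) (A B : Finset V) : Matrix V V (ZMod 2) :=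
  Matrix.of (fun u v : V => if u ∈ A ∧ v ∈ B ∧ G.Adj u v then (1 : ZMod 2) else 0)

theorem RkA_eq_rank (G : SimpleGraph V) (A B : Finset V) : rk G A B = (RkA_mat G A B).rank := rfl

omit [Fintype V] in
theorem RkA_mat_transpose (G : SimpleGraph V) (A B : Finset V) :
    (RkA_mat G A B).transpose = RkA_mat G B A := by
  classical
  ext u v
  simp only [RkA_mat, Matrix.transpose_apply, Matrix.of_apply]
  congr 1
  rw [G.adj_comm]
  apply propext
  tauto

theorem rk_symm (G : SimpleGraph V) (A B : Finset V) : rk G A B = rk G B A := by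
  rw [RkA_eq_rank, RkA_eq_rank, ← RkA_mat_transpose G A B, Matrix.rank_transpose]

theorem rk_mono {G : SimpleGraph V} {A A' B B' : Finset V} (hA : A ⊆ A') (hB : B ⊆ B') :
    rk G A B ≤ rk G A' B' := by
  classical
  have h : RkA_mat G A B = Matrix.diagonal (fun u => if u ∈ A then (1 : ZMod 2) else 0) *
      RkA_mat G A' B' * Matrix.diagonal (fun v => if v ∈ B then (1 : ZMod 2) else 0) := by
    ext u v
    rw [Matrix.mul_diagonal, Matrix.diagonal_mul]
    simp only [RkA_mat, Matrix.of_apply]
    by_cases hu : u ∈ A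
    · by_cases hv : v ∈ B
      · simp [hu, hv, hA hu, hB hv]
      · simp [hu, hv]
    · simp [hu]
  rw [RkA_eq_rank, RkA_eq_rank, h]
  exact (Matrix.rank_mul_le_left _ _).trans (Matrix.rank_mul_le_right _ _)

variable [DecidableEq V]

omit [DecidableEq V] in
theorem RkA_rank_add_le (M N : Matrix V V (ZMod 2)) : (M + N).rank ≤ M.rank + N.rank := by
  classical
  have h1 : LinearMap.range (M + N).mulVecLin ≤
      LinearMap.range M.mulVecLin ⊔ LinearMap.range N.mulVecLin := by
    rintro _ ⟨x, rfl⟩
    rw [Matrix.mulVecLin_add, LinearMap.add_apply]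
    exact Submodule.add_mem_sup ⟨x, rfl⟩ ⟨x, rfl⟩
  rw [Matrix.rank, Matrix.rank, Matrix.rank]
  exact (Submodule.finrank_mono h1).trans (Submodule.finrank_add_le_finrank_add_finrank _ _)

theorem rk_union_left (G : SimpleGraph V) (A A' B : Finset V) :
    rk G (A ∪ A') B ≤ rk G A B + rk G A' B := by
  classical
  have h : RkA_mat G (A ∪ A') B = RkA_mat G A B + RkA_mat G (A' \ A) B := by
    ext u v
    simp only [RkA_mat, Matrix.of_apply, Matrix.add_apply, mem_union, mem_sdiff]
    by_cases hu : u ∈ A
    · simp [hu]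
    · simp [hu]
  have h1 : rk G (A ∪ A') B ≤ rk G A B + rk G (A' \ A) B := by
    rw [RkA_eq_rank, h]
    exact RkA_rank_add_le _ _
  exact h1.trans (Nat.add_le_add_left (rk_mono sdiff_subset (Subset.refl B)) _)

theorem rk_union_right (G : SimpleGraph V) (A B B' : Finset V) :
    rk G A (B ∪ B') ≤ rk G A B + rk G A B' := by
  rw [rk_symm G A (B ∪ B'), rk_symm G A B, rk_symm G A B']
  exact rk_union_left G B B' A

/-- indicator vector -/
noncomputable def RkA_ind (P : Finset V) : V → ZMod 2 := fun v => if v ∈ P then 1 else 0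

omit [Fintype V] in
theorem RkA_mat_row (G : SimpleGraph V) (A B : Finset V) (u : V) :
    RkA_mat G A B u = if u ∈ A then RkA_ind (nb G u B) else 0 := by
  classical
  funext v
  by_cases hu : u ∈ A
  · rw [if_pos hu]
    simp [RkA_mat, RkA_ind, hu, mem_nb]
  · rw [if_neg hu]
    simp [RkA_mat, hu]

omit [Fintype V] in
theorem RkA_ind_symmDiff (P Q : Finset V) : RkA_ind (symmDiff P Q) = RkA_ind P + RkA_ind Q := by
  funext v
  simp only [RkA_ind, Pi.add_apply, mem_symmDiff]
  by_cases hp : v ∈ P
  · by_cases hq : v ∈ Q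
    · simp only [hp, hq]
      decide
    · simp [hp, hq]
  · by_cases hq : v ∈ Q
    · simp [hp, hq]
    · simp [hp, hq]

/-- every row is a sum of members of `F` (rows as indicator vectors): used with `F` a set of
subsets and rows `T` which are `∅`, a member of `F`, or a symmetric difference of two members. -/
theorem RkA_le_rows_aux {G : SimpleGraph V} {A B : Finset V} (F : Finset (Finset V))
    (h : ∀ u ∈ A, nb G u B = ∅ ∨ nb G u B ∈ F ∨ ∃ P ∈ F, ∃ Q ∈ F, nb G u B = symmDiff P Q) :
    rk G A B ≤ F.card := by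
  classical
  rw [RkA_eq_rank, Matrix.rank_eq_finrank_span_row]
  have hsub : Submodule.span (ZMod 2) (Set.range (RkA_mat G A B).row) ≤
      Submodule.span (ZMod 2) ((F.image RkA_ind : Finset (V → ZMod 2)) : Set (V → ZMod 2)) := by
    rw [Submodule.span_le]
    rintro _ ⟨u, rfl⟩
    have hmem : ∀ P ∈ F, RkA_ind P ∈ Submodule.span (ZMod 2)
        ((F.image RkA_ind : Finset (V → ZMod 2)) : Set (V → ZMod 2)) := by
      intro P hP
      exact Submodule.subset_span (mem_coe.2 (mem_image_of_mem _ hP))
    change RkA_mat G A B u ∈ Submodule.span (ZMod 2)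
        ((F.image RkA_ind : Finset (V → ZMod 2)) : Set (V → ZMod 2))
    rw [RkA_mat_row]
    split_ifs with hu
    · rcases h u hu with h0 | h1 | ⟨P, hP, Q, hQ, h2⟩
      · rw [h0]
        have : RkA_ind (∅ : Finset V) = 0 := by
          funext v
          simp [RkA_ind]
        rw [this]
        exact Submodule.zero_mem _
      · exact hmem _ h1
      · rw [h2, RkA_ind_symmDiff]
        exact Submodule.add_mem _ (hmem P hP) (hmem Q hQ)
    · exact Submodule.zero_mem _
  refine (Submodule.finrank_mono hsub).trans ?_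
  exact (finrank_span_finset_le_card _).trans card_image_le

/-- few distinct nonempty rows -/
theorem rk_le_rows {G : SimpleGraph V} {A B : Finset V} (F : Finset (Finset V))
    (h : ∀ u ∈ A, nb G u B = ∅ ∨ nb G u B ∈ F) : rk G A B ≤ F.card := by
  refine RkA_le_rows_aux F ?_
  intro u hu
  rcases h u hu with h0 | h1
  · exact Or.inl h0
  · exact Or.inr (Or.inl h1)

/-- few distinct nonempty columns -/
theorem rk_le_cols {G : SimpleGraph V} {A B : Finset V} (F : Finset (Finset V))
    (h : ∀ u ∈ B, nb G u A = ∅ ∨ nb G u A ∈ F) : rk G A B ≤ F.card := by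
  rw [rk_symm]
  exact rk_le_rows F h

/-- every row is a sum of members of `F` (rows as indicator vectors): used with `F` a set of
subsets and rows `T` which are `∅`, a member of `F`, or a symmetric difference of two members. -/
theorem rk_le_rows' {G : SimpleGraph V} {A B : Finset V} (F : Finset (Finset V))
    (h : ∀ u ∈ A, nb G u B = ∅ ∨ nb G u B ∈ F ∨ ∃ P ∈ F, ∃ Q ∈ F, nb G u B = symmDiff P Q) :
    rk G A B ≤ F.card :=
  RkA_le_rows_aux F h

theorem rk_eq_zero {G : SimpleGraph V} {A B : Finset V}
    (h : ∀ u ∈ A, ∀ v ∈ B, ¬ G.Adj u v) : rk G A B = 0 := by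
  have h1 : rk G A B ≤ (∅ : Finset (Finset V)).card := by
    refine rk_le_rows ∅ ?_
    intro u hu
    left
    ext v
    simp only [mem_nb, notMem_empty, iff_false, not_and]
    exact h u hu v
  simpa using h1

theorem rk_le_card (G : SimpleGraph V) (A B : Finset V) : rk G A B ≤ A.card := by
  have h1 : rk G A B ≤ (A.image (fun u => nb G u B)).card := by
    refine rk_le_rows _ ?_
    intro u hu
    right
    exact mem_image_of_mem _ hu
  exact h1.trans card_image_le

theorem cut_compl (G : SimpleGraph V) (X : Finset V) : cut G Xᶜ = cut G X := by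
  rw [cut, cut, compl_compl, rk_symm]

theorem cut_singleton_le (G : SimpleGraph V) (v : V) : cut G {v} ≤ 1 := by
  have h := rk_le_card G {v} ({v} : Finset V)ᶜ
  rw [card_singleton] at h
  exact h

theorem cut_univ (G : SimpleGraph V) : cut G univ = 0 := by
  rw [cut]
  refine rk_eq_zero ?_
  intro u _ v hv
  rw [compl_univ] at hv
  exact absurd hv (notMem_empty v)

/-- removing a vertex raises the cut rank by at most one -/
theorem cut_erase_le (G : SimpleGraph V) (X : Finset V) (v : V) :
    cut G (X.erase v) ≤ cut G X + 1 := by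
  have hsub : (X.erase v)ᶜ ⊆ Xᶜ ∪ {v} := by
    intro x hx
    rw [mem_compl, mem_erase, not_and] at hx
    rw [mem_union, mem_compl, mem_singleton]
    by_cases hxv : x = v
    · exact Or.inr hxv
    · exact Or.inl (hx hxv)
  calc cut G (X.erase v) ≤ rk G (X.erase v) (Xᶜ ∪ {v}) := rk_mono (Subset.refl _) hsub
    _ ≤ rk G (X.erase v) Xᶜ + rk G (X.erase v) {v} := rk_union_right _ _ _ _
    _ ≤ cut G X + 1 := by
        refine Nat.add_le_add (rk_mono (erase_subset v X) (Subset.refl _)) ?_
        rw [rk_symm]
        exact (rk_le_card G {v} _).trans_eq (card_singleton v)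

end GemCW
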