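import Pool.Agent.Lib.GemCW.Htwo
import Pool.Agent.Lib.GemCW.Hcut
import Pool.Agent.Lib.GemCW.RkA

/-!
# Well-linked half graphs, III: the balanced cut

`half_bound`: in `HCtx G c m s y` we have `m < N` for an explicit `N = N(c)`.

Proof.  Let `e = 31 c + 1`, `E = e + 3`, `C = 20 e + 100` and suppose `m ≥ 3 t` where
`t = 100 e + 1000 + 100 c` (any large value is fine).  By `HCtx.initial` let `m = 3 t`.
Let `J = {w : YL w α for some α, t - C ≤ α ≤ 2t + C}`, `I = {u : SL u γ for some γ, t - C ≤ γ ≤ 2t + C}`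
(note `t - C > 3e+3`).  Every vertex is `YL`, `SL` or `SP`.
* `J` is independent (`yl_yl_mid`), `I` is independent (`sl_sl_mid`), `I ∩ J = ∅` (`not_yl_sl`).
* `y t, y (2t) ∈ J` (`ia (y j) = [0,j]`); `s i ∈ I` iff `t - C ≤ i ≤ 2t + C` (`ib (s i) = [i,m)`,
  `γ = i`); `s i ∉ J`.
Let `A w = nb G w I` for `w ∈ J`, `a₁ = A (y t)`, `a₂ = A (y (2t))`.  By `f1` (with the independent set `I`) the
family `{A w : w ∈ J}` satisfies the hypothesis of `exact_cut`; get `P₁` for `a₁` and `P₂` for `a₂`.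
`a₁ ⊆ a₂`: `a₂ \ a₁` contains the `s i`, `t < i ≤ 2t`, so `a₁ \ a₂ = ∅` (`f1`).
Let `D = a₂ \ a₁`, `JM = {w ∈ J : P₁ ⊆ A w ∧ A w ⊆ P₂}`, `X = D ∪ JM`.
Positions: `u ∈ D` has `t - E ≤ γ_u ≤ 2t + E`: (`u ~ y (2t)`, `u ≁ y t`, `pos_dual` (1),(2)).
`w ∈ JM` has `t - E - 3 ≤ α_w ≤ 2t + E + 3`:  if `α_w + E + 3 ≤ t`, then `s (t-1), s t ∈ a₁`, one of them is in
`P₁ ⊆ A w` (as `|a₁ \ P₁| ≤ 1`), but `α_w + E ≤ t - 1`: contradiction to `pos` (2).  If `2t + E + 3 ≤ α_w` then
`s (2t+1), s (2t+2) ∈ A w ⊆ P₂` (`pos` (1)), not in `a₂`: contradiction to `|P₂ \ a₂| ≤ 1`.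
Rank of `X` against `Xᶜ`:
* rows `D`: columns in `I`: zero.  Columns `w ∈ J \ JM`: `A w ⊆ P₁` or `P₂ ⊆ A w` (exact cut), so the trace of
  `w` on `D` is contained in `P₁ \ a₁` (at most one element) or contains `D ∩ P₂` (all but at most one
  element of `D`): it is `∅`, `P₁ ∩ D`, `D ∩ P₂` or `D`.  Columns `z ∉ I ∪ J`: trace `∅` or `D`:
  `YL z α` with `α < t - C`: `∅` (`yl_sl_low`); `α > 2t + C`: `D` (`yl_sl_high`); `SL z`: `∅` (`sl_sl`);
  `SP z`: `∅` (`sp_sl`).  So `rk D Xᶜ ≤ 3` (`rk_le_cols`).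
* rows `w ∈ JM`: on `J`: zero; on `I \ D = a₁ ∪ (I \ a₂)`: `A w ∩ a₁` is `a₁` or `a₁ ∩ P₁` (as
  `a₁ ∩ P₁ ⊆ A w` misses at most one element of `a₁`), `A w \ a₂` is `∅` or `P₂ \ a₂` (contained in `P₂ \ a₂`, at
  most one element): four possibilities; on `z ∉ I ∪ J`: the same for all `w ∈ JM`: `YL z`: `≁`
  (`yl_yl`), `SP z`: `≁` (`sp_yl`), `SL z γ` with `γ < t - C`: `~` (`yl_sl_high`), `γ > 2t + C`: `≁`.
  So `rk JM Xᶜ ≤ 4`.
`cut G X ≤ 7`.  `S ∩ X` contains the `s i`, `t < i ≤ 2t` (`t` of them), `S \ X` contains the `s i`,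
`i < t - C` (`s i ∉ I`, `∉ J`).  `WL`: `t - C ≤ 8 c`, contradiction.
-/

namespace GemCW

open Finset

namespace Hth

variable {V : Type*} [Fintype V] [DecidableEq V]

/-- parameters -/
structure Ct (G : SimpleGraph V) (c m : ℕ) (s y : ℕ → V) (e t lo hi : ℕ) : Prop where
  h : HCtx G c m s y
  he : e = 31 * c + 1
  ht : t = 100 * e + 1000 + 100 * c
  hm : m = 3 * t
  hlo : lo + (20 * e + 100) = t
  hhi : hi = 2 * t + (20 * e + 100)

open scoped Classical in
/-- y-like vertices in the middle -/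
noncomputable def JJ (G : SimpleGraph V) (m : ℕ) (s : ℕ → V) (e lo hi : ℕ) : Finset V :=
  univ.filter (fun w => ∃ α, YL G e m s w α ∧ lo ≤ α ∧ α ≤ hi)

open scoped Classical in
/-- s-like vertices in the middle -/
noncomputable def II (G : SimpleGraph V) (m : ℕ) (y : ℕ → V) (e lo hi : ℕ) : Finset V :=
  univ.filter (fun u => ∃ γ, SL G e m y u γ ∧ lo ≤ γ ∧ γ ≤ hi)

section
variable {G : SimpleGraph V} {c m e t lo hi : ℕ} {s y : ℕ → V}

omit [DecidableEq V] in
theorem mem_JJ {w : V} : w ∈ JJ G m s e lo hi ↔ ∃ α, YL G e m s w α ∧ lo ≤ α ∧ α ≤ hi := by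
  simp [JJ]

omit [DecidableEq V] in
theorem mem_II {w : V} : w ∈ II G m y e lo hi ↔ ∃ α, SL G e m y w α ∧ lo ≤ α ∧ α ≤ hi := by
  simp [II]

theorem ix_y (h : HCtx G c m s y) {j : ℕ} (hj : j < m) : ix G m s (y j) = range (j + 1) := by
  ext i
  rw [mem_ix, mem_range, SimpleGraph.adj_comm]
  constructor
  · rintro ⟨h1, h2⟩
    have := (h.adj i h1 j hj).1 h2
    omega
  · intro h1
    exact ⟨by omega, (h.adj i (by omega) j hj).2 (by omega)⟩

theorem ix_s (h : HCtx G c m s y) {i : ℕ} (hi : i < m) : ix G m y (s i) = Ico i m := by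
  ext j
  rw [mem_ix, mem_Ico]
  constructor
  · rintro ⟨h1, h2⟩
    exact ⟨(h.adj i hi j h1).1 h2, h1⟩
  · rintro ⟨h1, h2⟩
    exact ⟨h2, (h.adj i hi j h2).2 h1⟩

theorem ix_ss (h : HCtx G c m s y) {i : ℕ} (hi : i < m) : ix G m s (s i) = ∅ := by
  ext j
  rw [mem_ix]
  constructor
  · rintro ⟨h1, h2⟩
    exact absurd h2 (h.indS i hi j h1)
  · intro h1
    simp at h1

theorem yl_y (h : HCtx G c m s y) {j : ℕ} (hj : j < m) (h1 : 3 * e + 3 < j + 1) :
    YL G e m s (y j) (j + 1) := by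
  refine ⟨?_, h1⟩
  rw [ix_y h hj, card_range]

theorem sl_s (h : HCtx G c m s y) {i : ℕ} (hi : i < m) (h1 : i + (3 * e + 3) < m) :
    SL G e m y (s i) i := by
  unfold SL
  rw [ix_s h hi, Nat.card_Ico]
  omega

omit [DecidableEq V] in
theorem three (z : V) : (∃ α, YL G e m s z α) ∨ (∃ γ, SL G e m y z γ) ∨ SP G e m s y z := by
  by_cases h1 : 3 * e + 3 < (ix G m s z).card
  · exact Or.inl ⟨_, rfl, h1⟩
  · by_cases h2 : 3 * e + 3 < (ix G m y z).card
    · refine Or.inr (Or.inl ⟨m - (ix G m y z).card, ?_, h2⟩)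
      have : (ix G m y z).card ≤ m := by
        calc (ix G m y z).card ≤ (range m).card := card_le_card (by
              intro i hi
              rw [mem_range]
              exact (mem_ix.1 hi).1)
          _ = m := card_range m
      omega
    · exact Or.inr (Or.inr ⟨by omega, by omega⟩)

theorem Ct.indJ (K : Ct G c m s y e t lo hi) : Indep G (JJ G m s e lo hi) := by
  obtain ⟨h, he, ht, hm, hlo, hhi⟩ := K
  intro a ha b hb
  obtain ⟨α, h1, h2, h3⟩ := mem_JJ.1 ha
  obtain ⟨β, h4, h5, h6⟩ := mem_JJ.1 hb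
  exact h.yl_yl_mid he h1 h4 h3 h6 (by omega)

theorem Ct.indI (K : Ct G c m s y e t lo hi) : Indep G (II G m y e lo hi) := by
  obtain ⟨h, he, ht, hm, hlo, hhi⟩ := K
  intro a ha b hb
  obtain ⟨α, h1, h2, h3⟩ := mem_II.1 ha
  obtain ⟨β, h4, h5, h6⟩ := mem_II.1 hb
  exact h.sl_sl_mid he h1 h4 h2 h5 (by omega)

theorem Ct.disj (K : Ct G c m s y e t lo hi) {w : V} (h1 : w ∈ II G m y e lo hi)
    (h2 : w ∈ JJ G m s e lo hi) : False := by
  obtain ⟨h, he, ht, hm, hlo, hhi⟩ := K
  obtain ⟨α, h3, -, -⟩ := mem_II.1 h1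
  obtain ⟨β, h4, -, -⟩ := mem_JJ.1 h2
  exact h.not_yl_sl he (by omega) h4 h3

theorem Ct.sI (K : Ct G c m s y e t lo hi) {i : ℕ} (h1 : lo ≤ i) (h2 : i ≤ hi) :
    s i ∈ II G m y e lo hi := by
  obtain ⟨h, he, ht, hm, hlo, hhi⟩ := K
  exact mem_II.2 ⟨i, sl_s h (by omega) (by omega), h1, h2⟩

theorem Ct.s_notI (K : Ct G c m s y e t lo hi) {i : ℕ} (h1 : i < lo) :
    s i ∉ II G m y e lo hi := by
  obtain ⟨h, he, ht, hm, hlo, hhi⟩ := K
  intro h2
  obtain ⟨γ, h3, h4, h5⟩ := mem_II.1 h2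
  have h6 := h3.1
  rw [ix_s h (by omega), Nat.card_Ico] at h6
  omega

theorem Ct.s_notJ (K : Ct G c m s y e t lo hi) {i : ℕ} (h1 : i < m) :
    s i ∉ JJ G m s e lo hi := by
  obtain ⟨h, he, ht, hm, hlo, hhi⟩ := K
  intro h2
  obtain ⟨γ, h3, h4, h5⟩ := mem_JJ.1 h2
  have h6 := h3.1
  rw [ix_ss h h1, card_empty] at h6
  have := h3.2
  omega

theorem Ct.yJ (K : Ct G c m s y e t lo hi) {j : ℕ} (h1 : lo ≤ j + 1) (h2 : j + 1 ≤ hi) :
    y j ∈ JJ G m s e lo hi := by
  obtain ⟨h, he, ht, hm, hlo, hhi⟩ := K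
  exact mem_JJ.2 ⟨j + 1, yl_y h (by omega) (by omega), h1, h2⟩

/-- subsets of a small set -/
theorem small {α : Type*} [DecidableEq α] {A B : Finset α} (h : A ⊆ B) (hB : B.card ≤ 1) :
    A = ∅ ∨ A = B := by
  by_cases h1 : A = B
  · exact Or.inr h1
  · left
    have := card_lt_card (h.ssubset_of_ne h1)
    exact card_eq_zero.1 (by omega)

/-- sets between `B` and `A`, where `|A \ B| ≤ 1` -/
theorem small' {α : Type*} [DecidableEq α] {A B M : Finset α} (h1 : B ⊆ M) (h2 : M ⊆ A)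
    (h : (A \ B).card ≤ 1) : M = B ∨ M = A := by
  rcases small (A := M \ B) (B := A \ B) (sdiff_subset_sdiff h2 (Subset.refl B)) h with h3 | h3
  · left
    exact Subset.antisymm (sdiff_eq_empty_iff_subset.1 h3) h1
  · right
    refine Subset.antisymm h2 fun x hx => ?_
    by_cases hxB : x ∈ B
    · exact h1 hxB
    · have : x ∈ M \ B := by rw [h3]; exact mem_sdiff.2 ⟨hx, hxB⟩
      exact (mem_sdiff.1 this).1

theorem Ct.false (K : Ct G c m s y e t lo hi) : False := by
  classical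
  obtain ⟨h, he, ht, hm, hlo, hhi⟩ := id K
  set I := II G m y e lo hi with hI
  set J := JJ G m s e lo hi with hJ
  have hF : ∀ A ∈ J.image (fun w => nb G w I), ∀ B ∈ J.image (fun w => nb G w I),
      2 ≤ (A \ B).card → 1 ≤ (B \ A).card → False := by
    intro A hA B hB h2 h1
    obtain ⟨w, hw, rfl⟩ := mem_image.1 hA
    obtain ⟨w', hw', rfl⟩ := mem_image.1 hB
    exact f1 h.cls K.indI (K.indJ w hw w' hw') h2 h1
  have hy1 : y t ∈ J := K.yJ (by omega) (by omega)
  have hy2 : y (2 * t) ∈ J := K.yJ (by omega) (by omega)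
  obtain ⟨P1, hP1, hF1⟩ := exact_cut _ hF (nb G (y t) I) (mem_image_of_mem _ hy1)
  obtain ⟨P2, hP2, hF2⟩ := exact_cut _ hF (nb G (y (2 * t)) I) (mem_image_of_mem _ hy2)
  set a1 := nb G (y t) I with ha1
  set a2 := nb G (y (2 * t)) I with ha2
  have hc1 : (a1 \ P1).card ≤ 1 := by omega
  have hc1' : (P1 \ a1).card ≤ 1 := by omega
  have hc2 : (a2 \ P2).card ≤ 1 := by omega
  have hc2' : (P2 \ a2).card ≤ 1 := by omega
  -- the vertices `s i`
  have hs1 : ∀ i, lo ≤ i → i ≤ hi → (s i ∈ a1 ↔ i ≤ t) := by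
    intro i h1 h2
    rw [ha1, mem_nb, SimpleGraph.adj_comm, h.adj i (by omega) t (by omega)]
    exact ⟨fun h3 => h3.2, fun h3 => ⟨K.sI h1 h2, h3⟩⟩
  have hs2 : ∀ i, lo ≤ i → i ≤ hi → (s i ∈ a2 ↔ i ≤ 2 * t) := by
    intro i h1 h2
    rw [ha2, mem_nb, SimpleGraph.adj_comm, h.adj i (by omega) (2 * t) (by omega)]
    exact ⟨fun h3 => h3.2, fun h3 => ⟨K.sI h1 h2, h3⟩⟩
  have hinj := h.inj_s
  have h12 : a1 ⊆ a2 := by
    by_contra hn
    have h1 : 1 ≤ (a1 \ a2).card := by
      rw [Nat.one_le_iff_ne_zero, Ne, card_eq_zero, sdiff_eq_empty_iff_subset]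
      exact hn
    have h2 : 2 ≤ (a2 \ a1).card := by
      have h3 : ({s (t + 1), s (t + 2)} : Finset V) ⊆ a2 \ a1 := by
        intro x hx
        rw [mem_insert, mem_singleton] at hx
        rw [mem_sdiff]
        rcases hx with rfl | rfl
        · rw [hs1 _ (by omega) (by omega), hs2 _ (by omega) (by omega)]
          omega
        · rw [hs1 _ (by omega) (by omega), hs2 _ (by omega) (by omega)]
          omega
      have h4 : s (t + 1) ≠ s (t + 2) := fun h5 => by
        have := hinj _ (by omega) _ (by omega) h5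
        omega
      rw [← card_pair h4]
      exact card_le_card h3
    exact f1 h.cls K.indI (K.indJ _ hy2 _ hy1) h2 h1
  set D := a2 \ a1 with hD
  set JM := J.filter (fun w => P1 ⊆ nb G w I ∧ nb G w I ⊆ P2) with hJM
  set X := D ∪ JM with hX
  have hDI : D ⊆ I := fun x hx => nb_sub (mem_sdiff.1 hx).1
  have hJMJ : JM ⊆ J := filter_subset _ _
  -- positions
  have posD : ∀ u ∈ D, ∃ γ, SL G e m y u γ ∧ t < γ + (e + 3) ∧ γ < 2 * t + (e + 3) := by
    intro u hu
    obtain ⟨γ, h1, -, -⟩ := mem_II.1 (hDI hu)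
    obtain ⟨q1, q2, -, -⟩ := h.pos_dual he h1.1 h1.2
    obtain ⟨hu2, hu1⟩ := mem_sdiff.1 hu
    refine ⟨γ, h1, ?_, ?_⟩
    · by_contra hn
      have h2 := q1 t (by omega) (by omega)
      exact hu1 (mem_nb.2 ⟨hDI hu, ((mem_ix.1 h2).2).symm⟩)
    · by_contra hn
      exact q2 (2 * t) (by omega) (mem_ix.2 ⟨by omega, ((mem_nb.1 hu2).2).symm⟩)
  have posJ : ∀ w ∈ JM, ∃ α, YL G e m s w α ∧ t < α + (e + 6) ∧ α < 2 * t + (e + 6) := by
    intro w hw
    obtain ⟨hwJ, hw1, hw2⟩ := mem_filter.1 hw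
    obtain ⟨α, h1, -, -⟩ := mem_JJ.1 hwJ
    obtain ⟨q1, q2, -, -⟩ := h.pos he h1.1 h1.2
    refine ⟨α, h1, ?_, ?_⟩
    · by_contra hn
      have h3 : ({s (t - 1), s t} : Finset V) ⊆ a1 \ P1 := by
        intro x hx
        rw [mem_insert, mem_singleton] at hx
        rw [mem_sdiff]
        rcases hx with rfl | rfl
        · refine ⟨(hs1 _ (by omega) (by omega)).2 (by omega), fun h4 => ?_⟩
          exact q2 (t - 1) (by omega) (mem_ix.2 ⟨by omega, (mem_nb.1 (hw1 h4)).2⟩)
        · refine ⟨(hs1 _ (by omega) (by omega)).2 (by omega), fun h4 => ?_⟩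
          exact q2 t (by omega) (mem_ix.2 ⟨by omega, (mem_nb.1 (hw1 h4)).2⟩)
      have h4 : s (t - 1) ≠ s t := fun h5 => by
        have := hinj _ (by omega) _ (by omega) h5
        omega
      have h5 := card_le_card h3
      rw [card_pair h4] at h5
      omega
    · by_contra hn
      have h3 : ({s (2 * t + 1), s (2 * t + 2)} : Finset V) ⊆ P2 \ a2 := by
        intro x hx
        rw [mem_insert, mem_singleton] at hx
        rw [mem_sdiff]
        rcases hx with rfl | rfl
        · refine ⟨hw2 (mem_nb.2 ⟨K.sI (by omega) (by omega), (mem_ix.1 (q1 _ (by omega))).2⟩), ?_⟩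
          rw [hs2 _ (by omega) (by omega)]
          omega
        · refine ⟨hw2 (mem_nb.2 ⟨K.sI (by omega) (by omega), (mem_ix.1 (q1 _ (by omega))).2⟩), ?_⟩
          rw [hs2 _ (by omega) (by omega)]
          omega
      have h4 : s (2 * t + 1) ≠ s (2 * t + 2) := fun h5 => by
        have := hinj _ (by omega) _ (by omega) h5
        omega
      have h5 := card_le_card h3
      rw [card_pair h4] at h5
      omega
  -- rank of the rows in `D`
  have rD : rk G D Xᶜ ≤ 3 := by
    have h1 : rk G D Xᶜ ≤ ({P1 ∩ D, D ∩ P2, D} : Finset (Finset V)).card := by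
      refine rk_le_cols _ fun z hz => ?_
      rw [mem_compl, hX, mem_union, not_or] at hz
      by_cases hzI : z ∈ I
      · left
        ext u
        simp only [mem_nb, notMem_empty, iff_false, not_and]
        intro hu
        exact K.indI z hzI u (hDI hu)
      by_cases hzJ : z ∈ J
      · have hAz : nb G z I ∈ J.image (fun w => nb G w I) := mem_image_of_mem _ hzJ
        have h5 : nb G z I ⊆ P1 ∨ P2 ⊆ nb G z I := by
          rcases hF1 _ hAz with h3 | h3
          · exact Or.inl h3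
          · rcases hF2 _ hAz with h4 | h4
            · exact absurd (mem_filter.2 ⟨hzJ, h3, h4⟩) hz.2
            · exact Or.inr h4
        rcases h5 with h5 | h5
        · have h6 : nb G z D ⊆ P1 ∩ D := fun u hu => by
            have h7 := mem_nb.1 hu
            exact mem_inter.2 ⟨h5 (mem_nb.2 ⟨hDI h7.1, h7.2⟩), h7.1⟩
          have h7 : (P1 ∩ D).card ≤ 1 := by
            refine (card_le_card ?_).trans hc1'
            intro u hu
            obtain ⟨h8, h9⟩ := mem_inter.1 hu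
            exact mem_sdiff.2 ⟨h8, (mem_sdiff.1 h9).2⟩
          rcases small h6 h7 with h8 | h8
          · exact Or.inl h8
          · right
            rw [h8]
            simp
        · right
          have h6 : (D \ (D ∩ P2)).card ≤ 1 := by
            refine (card_le_card ?_).trans hc2
            intro u hu
            obtain ⟨h8, h9⟩ := mem_sdiff.1 hu
            exact mem_sdiff.2 ⟨(mem_sdiff.1 h8).1, fun h10 => h9 (mem_inter.2 ⟨h8, h10⟩)⟩
          have h7 : D ∩ P2 ⊆ nb G z D := fun u hu => by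
            obtain ⟨h8, h9⟩ := mem_inter.1 hu
            exact mem_nb.2 ⟨h8, (mem_nb.1 (h5 h9)).2⟩
          rcases small' h7 nb_sub h6 with h8 | h8
          · rw [h8]
            simp
          · rw [h8]
            simp
      rcases three (G := G) (e := e) (m := m) (s := s) (y := y) z with ⟨α, hα⟩ | ⟨γ, hγ⟩ | hsp
      · have h3 : ¬ (lo ≤ α ∧ α ≤ hi) := fun h4 => hzJ (mem_JJ.2 ⟨α, hα, h4⟩)
        by_cases h4 : α < lo
        · left
          ext u
          simp only [mem_nb, notMem_empty, iff_false, not_and]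
          intro hu
          obtain ⟨δ, hδ, h5, h6⟩ := posD u hu
          exact h.yl_sl_low he hα hδ (by omega)
        · right
          have h7 : nb G z D = D := by
            ext u
            simp only [mem_nb, and_iff_left_iff_imp]
            intro hu
            obtain ⟨δ, hδ, h5, h6⟩ := posD u hu
            exact h.yl_sl_high he hα hδ (by omega)
          rw [h7]
          simp
      · have h3 : ¬ (lo ≤ γ ∧ γ ≤ hi) := fun h4 => hzI (mem_II.2 ⟨γ, hγ, h4⟩)
        left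
        ext u
        simp only [mem_nb, notMem_empty, iff_false, not_and]
        intro hu
        obtain ⟨δ, hδ, h5, h6⟩ := posD u hu
        by_cases h4 : γ < lo
        · exact h.sl_sl he hγ hδ (by omega)
        · rw [SimpleGraph.adj_comm]
          exact h.sl_sl he hδ hγ (by omega)
      · left
        ext u
        simp only [mem_nb, notMem_empty, iff_false, not_and]
        intro hu
        obtain ⟨δ, hδ, h5, h6⟩ := posD u hu
        exact h.sp_sl he hsp hδ (by omega) (by omega)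
    exact h1.trans card_le_three
  -- rank of the rows in `JM`
  have rJ : rk G JM Xᶜ ≤ 4 := by
    set H : Finset V := (univ : Finset V).filter
      (fun z => z ∉ I ∧ z ∉ J ∧ ∃ γ, SL G e m y z γ ∧ γ < lo) with hH
    have h1 : rk G JM Xᶜ ≤ ({a1 ∪ ∅ ∪ H, a1 ∪ (P2 \ a2) ∪ H, (a1 ∩ P1) ∪ ∅ ∪ H,
        (a1 ∩ P1) ∪ (P2 \ a2) ∪ H} : Finset (Finset V)).card := by
      refine rk_le_rows _ fun w hw => Or.inr ?_
      obtain ⟨hwJ, hw1, hw2⟩ := mem_filter.1 hw
      obtain ⟨α, hα, h5, h6⟩ := posJ w hw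
      have h7 : nb G w Xᶜ = (nb G w I ∩ a1) ∪ (nb G w I \ a2) ∪ H := by
        ext z
        simp only [mem_union, mem_inter, mem_sdiff, mem_nb, mem_compl, hX, not_or, hH,
          mem_filter, mem_univ, true_and]
        constructor
        · rintro ⟨⟨hzD, hzJM⟩, hwz⟩
          by_cases hzI : z ∈ I
          · left
            by_cases hz2 : z ∈ a2
            · left
              refine ⟨⟨hzI, hwz⟩, ?_⟩
              by_contra hz1
              exact hzD (mem_sdiff.2 ⟨hz2, hz1⟩)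
            · right
              exact ⟨⟨hzI, hwz⟩, hz2⟩
          · right
            have hzJ : z ∉ J := fun hzJ => K.indJ w hwJ z hzJ hwz
            refine ⟨hzI, hzJ, ?_⟩
            rcases three (G := G) (e := e) (m := m) (s := s) (y := y) z with
              ⟨β, hβ⟩ | ⟨γ, hγ⟩ | hsp
            · exfalso
              have h3 : ¬ (lo ≤ β ∧ β ≤ hi) := fun h4 => hzJ (mem_JJ.2 ⟨β, hβ, h4⟩)
              by_cases h4 : β < lo
              · exact h.yl_yl he hβ hα (by omega) hwz.symm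
              · exact h.yl_yl he hα hβ (by omega) hwz
            · have h3 : ¬ (lo ≤ γ ∧ γ ≤ hi) := fun h4 => hzI (mem_II.2 ⟨γ, hγ, h4⟩)
              by_cases h4 : γ < lo
              · exact ⟨γ, hγ, h4⟩
              · exact absurd hwz (h.yl_sl_low he hα hγ (by omega))
            · exact absurd hwz.symm (h.sp_yl he hsp hα (by omega) (by omega))
        · rintro ((⟨⟨hzI, hwz⟩, hz1⟩ | ⟨⟨hzI, hwz⟩, hz2⟩) | ⟨hzI, hzJ, γ, hγ, h8⟩)
          · exact ⟨⟨fun h9 => (mem_sdiff.1 h9).2 hz1, fun h9 => K.disj hzI (hJMJ h9)⟩, hwz⟩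
          · exact ⟨⟨fun h9 => hz2 (mem_sdiff.1 h9).1, fun h9 => K.disj hzI (hJMJ h9)⟩, hwz⟩
          · exact ⟨⟨fun h9 => hzI (hDI h9), fun h9 => hzJ (hJMJ h9)⟩,
              h.yl_sl_high he hα hγ (by omega)⟩
      rw [h7]
      have h8 : nb G w I ∩ a1 = a1 ∩ P1 ∨ nb G w I ∩ a1 = a1 := by
        refine small' ?_ inter_subset_right ?_
        · intro u hu
          obtain ⟨h9, h10⟩ := mem_inter.1 hu
          exact mem_inter.2 ⟨hw1 h10, h9⟩
        · refine (card_le_card ?_).trans hc1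
          intro u hu
          obtain ⟨h8, h9⟩ := mem_sdiff.1 hu
          exact mem_sdiff.2 ⟨h8, fun h10 => h9 (mem_inter.2 ⟨h8, h10⟩)⟩
      have h9 : nb G w I \ a2 = ∅ ∨ nb G w I \ a2 = P2 \ a2 :=
        small (sdiff_subset_sdiff hw2 (Subset.refl _)) hc2'
      rcases h8 with h8 | h8 <;> rcases h9 with h9 | h9 <;> rw [h8, h9] <;> simp
    exact h1.trans card_le_four
  have hcut : cut G X ≤ 7 := by
    have := rk_union_left G D JM Xᶜ
    unfold cut
    rw [← hX] at this
    omega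
  -- well-linkedness
  have hW := h.wlS X
  have hA : t ≤ ((range m).image s ∩ X).card := by
    have h1 : (Ioc t (2 * t)).image s ⊆ (range m).image s ∩ X := by
      intro x hx
      obtain ⟨i, hi, rfl⟩ := mem_image.1 hx
      rw [mem_Ioc] at hi
      refine mem_inter.2 ⟨mem_image_of_mem _ (mem_range.2 (by omega)), mem_union_left _ ?_⟩
      rw [hD, mem_sdiff, hs1 _ (by omega) (by omega), hs2 _ (by omega) (by omega)]
      omega
    refine le_trans ?_ (card_le_card h1)
    rw [card_image_of_injOn, Nat.card_Ioc]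
    · omega
    · intro i hi j hj hij
      rw [mem_coe, mem_Ioc] at hi hj
      exact hinj _ (by omega) _ (by omega) hij
  have hB : lo ≤ ((range m).image s \ X).card := by
    have h1 : (range lo).image s ⊆ (range m).image s \ X := by
      intro x hx
      obtain ⟨i, hi, rfl⟩ := mem_image.1 hx
      rw [mem_range] at hi
      refine mem_sdiff.2 ⟨mem_image_of_mem _ (mem_range.2 (by omega)), fun h2 => ?_⟩
      rcases mem_union.1 h2 with h3 | h3
      · exact K.s_notI hi (hDI h3)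
      · exact K.s_notJ (by omega) (hJMJ h3)
    refine le_trans ?_ (card_le_card h1)
    rw [card_image_of_injOn, card_range]
    intro i hi j hj hij
    rw [mem_coe, mem_range] at hi hj
    exact hinj _ (by omega) _ (by omega) hij
  have hC : lo ≤ c * 8 := by
    calc lo ≤ min ((range m).image s ∩ X).card ((range m).image s \ X).card :=
          le_min (by omega) hB
      _ ≤ c * (cut G X + 1) := hW
      _ ≤ c * 8 := Nat.mul_le_mul_left _ (by omega)
  omega

end

end Hth

theorem half_bound (c : ℕ) : ∃ N : ℕ, ∀ (V : Type) [Fintype V] [DecidableEq V]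
    (G : SimpleGraph V) (m : ℕ) (s y : ℕ → V), HCtx G c m s y → m < N := by
  refine ⟨3 * (100 * (31 * c + 1) + 1000 + 100 * c), ?_⟩
  intro V _ _ G m s y h
  by_contra hm
  have h' := h.initial (m' := 3 * (100 * (31 * c + 1) + 1000 + 100 * c)) (by omega)
  exact Hth.Ct.false (G := G) (c := c) (s := s) (y := y) (e := 31 * c + 1)
    (t := 100 * (31 * c + 1) + 1000 + 100 * c)
    (lo := 100 * (31 * c + 1) + 1000 + 100 * c - (20 * (31 * c + 1) + 100))
    (hi := 2 * (100 * (31 * c + 1) + 1000 + 100 * c) + (20 * (31 * c + 1) + 100))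
    ⟨h', rfl, rfl, rfl, by omega, rfl⟩

end GemCW
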