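import Pool.Agent.Lib.GemCW.Hone

/-!
# Well-linked half graphs, II: forced adjacencies

Context `HCtx G c m s y`, `e = 31 c + 1`, `E = e + 3` (both `pos` and `pos_dual` hold with `E`).
`YL w α`: `|ia w| = α > 3e+3` (y-like at position `α`).
`SL u γ`: `|ib u| + γ = m`, `|ib u| > 3e+3` (s-like at position `γ`).
`SP z`: `|ia z| ≤ 3e+3`, `|ib z| ≤ 3e+3`.

* `not_yl_sl`: `w` both y-like at `α` and s-like at `γ`: by `pos_dual` (3),(4) `ia w` is contained in
  `(γ-e-3, γ+e+3) ∪ (m-e-3, m)`, so `α ≤ 3e+7`; by `pos_dual` (1) `m - 1 ∈ ib w`, so by `pos` (4)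
  `m - 1 < α + e + 2`: so `m < 4e + 10`, contradiction.
* `yl_sl_low`: `YL z α`, `SL u γ`, `α + 2E + 3 ≤ γ`: `z ≁ u`.
  Else the edge `z u` and the path `s a - y b - s (a+1)`, `a = α + E`, `b = a + 1`:
  `a, a+1, b ≥ α + E`, so nonadjacent to `z` (`pos` (2),(4)); `a + 1 + E ≤ γ`, so nonadjacent to
  `u` (`pos_dual` (2),(4)); `s a ~ y b`, `s (a+1) ~ y b` (`≤`), `s a ≁ s (a+1)`.  `P₂+P₃`.
* `yl_sl_high`: `YL z α`, `SL u γ`, `γ + 2E + 3 ≤ α`: `z ~ u`.
  Else with `j = γ + E`: `y j ~ u` (`pos_dual` (1), `j < m`), `y j ≁ z` (`pos` (3): `E ≤ j`, `j + E ≤ α`);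
  `i = j+1, j+2`: `s i ~ z` (`pos` (1): `i + E ≤ α`), `s i ≁ y j`, `s i ≁ u` (`pos_dual` (3):
  `γ + E ≤ i`, `i + E ≤ α ≤ m`).  Edge `u (y j)`, path `s (j+1) - z - s (j+2)`.  `P₂+P₃`.
* `yl_yl`: `YL z α`, `YL w α'`, `α + e < α'`: `z ≁ w`: otherwise `ia_f4` is violated:
  `|ia z ∩ ia w| ≥ |{i : i + (e+2) ≤ α}| = α - e - 1 > e`, `|ia z Δ ia w| ≥ α' - α > e`.
* `yl_yl_mid`: `YL z α`, `YL w α'`, `α, α' ≤ A`, `A + E + 3 ≤ m`: `z ≁ w`: otherwise the edge `z w` and
  the path `s a - y (a+1) - s (a+1)`, `a = A + E`.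
* `sp_yl`: `SP z`, `YL w α`, `α + E + 6e + 20 ≤ m`, `12 e + 40 ≤ m`: `z ≁ w`: otherwise the edge
  `z w` and the path `s a - y (a+1) - s (a+1)` with `a = max (α + E) (6e+12)`, `a + 1 + 6e + 13 ≤ m`.
* the duals `sl_sl`, `sl_sl_mid`, `sp_sl` (apply the above to `HCtx.dual`; `ix` of the dual system is the
  image of `ix` under `i ↦ m-1-i`, so it has the same cardinality; or prove them directly).
-/

namespace GemCW

open Finset

variable {V : Type*} [Fintype V] [DecidableEq V]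

def YL (G : SimpleGraph V) (e m : ℕ) (s : ℕ → V) (w : V) (α : ℕ) : Prop :=
  (ix G m s w).card = α ∧ 3 * e + 3 < α

def SL (G : SimpleGraph V) (e m : ℕ) (y : ℕ → V) (u : V) (γ : ℕ) : Prop :=
  (ix G m y u).card + γ = m ∧ 3 * e + 3 < (ix G m y u).card

def SP (G : SimpleGraph V) (e m : ℕ) (s y : ℕ → V) (z : V) : Prop :=
  (ix G m s z).card ≤ 3 * e + 3 ∧ (ix G m y z).card ≤ 3 * e + 3

section
variable {G : SimpleGraph V} {c m e : ℕ} {s y : ℕ → V}

namespace HtwoAux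

omit [Fintype V] [DecidableEq V] in
theorem card_ix_le (w : V) : (ix G m s w).card ≤ m := by
  classical
  unfold ix
  exact (card_filter_le _ _).trans (by simp)

omit [Fintype V] [DecidableEq V] in
theorem card_ix_dual (w : V) :
    (ix G m (fun i => s (m - 1 - i)) w).card = (ix G m s w).card := by
  apply Finset.card_nbij' (fun i => m - 1 - i) (fun i => m - 1 - i)
  · intro i hi
    simp only [mem_coe, mem_ix] at hi ⊢
    exact ⟨by omega, hi.2⟩
  · intro i hi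
    simp only [mem_coe, mem_ix] at hi ⊢
    refine ⟨by omega, ?_⟩
    have : m - 1 - (m - 1 - i) = i := by omega
    rw [this]; exact hi.2
  · intro i hi
    simp only [mem_coe, mem_ix] at hi
    change m - 1 - (m - 1 - i) = i
    omega
  · intro i hi
    simp only [mem_coe, mem_ix] at hi
    change m - 1 - (m - 1 - i) = i
    omega

omit [Fintype V] [DecidableEq V] in
theorem yl_dual {w : V} {γ : ℕ} (h : SL G e m y w γ) :
    YL G e m (fun i => y (m - 1 - i)) w (m - γ) := by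
  obtain ⟨h1, h2⟩ := h
  refine ⟨?_, by omega⟩
  rw [card_ix_dual]; omega

omit [Fintype V] [DecidableEq V] in
theorem sp_dual {z : V} (h : SP G e m s y z) :
    SP G e m (fun i => y (m - 1 - i)) (fun i => s (m - 1 - i)) z := by
  obtain ⟨h1, h2⟩ := h
  exact ⟨by rw [card_ix_dual]; exact h2, by rw [card_ix_dual]; exact h1⟩

/-- an edge `z w` is not anticomplete to `s a - y (a+1) - s (a+1)` -/
theorem no_edge (h : HCtx G c m s y) {z w : V} {a : ℕ} (ha : a + 1 < m)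
    (hzs : a ∉ ix G m s z) (hzs' : a + 1 ∉ ix G m s z) (hzy : a + 1 ∉ ix G m y z)
    (hws : a ∉ ix G m s w) (hws' : a + 1 ∉ ix G m s w) (hwy : a + 1 ∉ ix G m y w) :
    ¬ G.Adj z w := by
  intro hzw
  have ha' : a < m := by omega
  simp only [mem_ix, not_and] at hzs hzs' hzy hws hws' hwy
  exact h.cls.pp z w (s a) (y (a + 1)) (s (a + 1)) hzw
    ((h.adj a ha' (a + 1) ha).2 (by omega)) ((h.adj (a + 1) ha (a + 1) ha).2 le_rfl).symm
    (h.indS a ha' (a + 1) ha) (fun he => by have := h.inj_s a ha' (a + 1) ha he; omega)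
    (hzs ha') (hzy ha) (hzs' ha) (hws ha') (hwy ha) (hws' ha)

end HtwoAux

open HtwoAux

theorem HCtx.not_yl_sl (h : HCtx G c m s y) (he : e = 31 * c + 1) {w : V} {α γ : ℕ}
    (hm : 12 * e + 40 ≤ m) (h1 : YL G e m s w α) (h2 : SL G e m y w γ) : False := by
  obtain ⟨h1a, h1b⟩ := h1
  obtain ⟨h2a, h2b⟩ := h2
  have hp := h.pos he h1a h1b
  have hd := h.pos_dual he h2a h2b
  have hsub : ix G m s w ⊆ Ico (γ + 1 - (e + 3)) (γ + (e + 3)) ∪ Ico (m + 1 - (e + 3)) m := by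
    intro i hi
    have him : i < m := (mem_ix.1 hi).1
    rw [mem_union, mem_Ico, mem_Ico]
    by_contra hcon
    have h3 := hd.2.2.1 i
    have h4 := hd.2.2.2 i
    by_cases hlow : i + (e + 3) ≤ γ
    · exact h4 hlow hi
    · by_cases hmid : γ + (e + 3) ≤ i
      · refine h3 hmid ?_ hi
        omega
      · omega
  have hcard := card_le_card hsub
  have hcard2 := card_union_le (Ico (γ + 1 - (e + 3)) (γ + (e + 3))) (Ico (m + 1 - (e + 3)) m)
  rw [Nat.card_Ico, Nat.card_Ico] at hcard2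
  rw [h1a] at hcard
  have hαle : α ≤ 3 * e + 7 := by omega
  have hmem : m - 1 ∈ ix G m y w := hd.1 (m - 1) (by omega) (by omega)
  exact hp.2.2.2 (m - 1) (by omega) hmem

theorem HCtx.yl_sl_low (h : HCtx G c m s y) (he : e = 31 * c + 1) {z u : V} {α γ : ℕ}
    (hz : YL G e m s z α) (hu : SL G e m y u γ) (hp : α + (2 * e + 9) ≤ γ) : ¬ G.Adj z u := by
  obtain ⟨h1a, h1b⟩ := hz
  obtain ⟨h2a, h2b⟩ := hu
  have hpo := h.pos he h1a h1b
  have hd := h.pos_dual he h2a h2b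
  apply no_edge h (a := α + (e + 3)) (by omega)
  · exact hpo.2.1 _ (by omega)
  · exact hpo.2.1 _ (by omega)
  · exact hpo.2.2.2 _ (by omega)
  · exact hd.2.2.2 _ (by omega)
  · exact hd.2.2.2 _ (by omega)
  · exact hd.2.1 _ (by omega)

theorem HCtx.yl_sl_high (h : HCtx G c m s y) (he : e = 31 * c + 1) {z u : V} {α γ : ℕ}
    (hz : YL G e m s z α) (hu : SL G e m y u γ) (hp : γ + (2 * e + 9) ≤ α) : G.Adj z u := by
  obtain ⟨h1a, h1b⟩ := hz
  obtain ⟨h2a, h2b⟩ := hu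
  have hαm : α ≤ m := by rw [← h1a]; exact card_ix_le z
  have hpo := h.pos he h1a h1b
  have hd := h.pos_dual he h2a h2b
  by_contra hzu
  set j := γ + (e + 3) with hj
  have hjm : j < m := by omega
  have hj1 : j + 1 < m := by omega
  have hj2 : j + 2 < m := by omega
  have huj : G.Adj u (y j) := (mem_ix.1 (hd.1 j le_rfl hjm)).2
  have hzj : ¬ G.Adj z (y j) := fun hh =>
    hpo.2.2.1 j (by omega) (by omega) (mem_ix.2 ⟨hjm, hh⟩)
  have hz1 : G.Adj z (s (j + 1)) := (mem_ix.1 (hpo.1 (j + 1) (by omega))).2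
  have hz2 : G.Adj z (s (j + 2)) := (mem_ix.1 (hpo.1 (j + 2) (by omega))).2
  have hu1 : ¬ G.Adj u (s (j + 1)) := fun hh =>
    hd.2.2.1 (j + 1) (by omega) (by omega) (mem_ix.2 ⟨hj1, hh⟩)
  have hu2 : ¬ G.Adj u (s (j + 2)) := fun hh =>
    hd.2.2.1 (j + 2) (by omega) (by omega) (mem_ix.2 ⟨hj2, hh⟩)
  have hy1 : ¬ G.Adj (y j) (s (j + 1)) := fun hh => by
    have := (h.adj (j + 1) hj1 j hjm).1 hh.symm
    omega
  have hy2 : ¬ G.Adj (y j) (s (j + 2)) := fun hh => by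
    have := (h.adj (j + 2) hj2 j hjm).1 hh.symm
    omega
  exact h.cls.pp u (y j) (s (j + 1)) z (s (j + 2)) huj hz1.symm hz2
    (h.indS _ hj1 _ hj2) (fun hh => by have := h.inj_s _ hj1 _ hj2 hh; omega)
    hu1 (fun hh => hzu hh.symm) hu2 hy1 (fun hh => hzj hh.symm) hy2

theorem HCtx.yl_yl (h : HCtx G c m s y) (he : e = 31 * c + 1) {z w : V} {α α' : ℕ}
    (hz : YL G e m s z α) (hw : YL G e m s w α') (hp : α + e < α') : ¬ G.Adj z w := by
  intro hzw
  obtain ⟨h1a, h1b⟩ := hz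
  obtain ⟨h2a, h2b⟩ := hw
  have hpz := h.pos he h1a h1b
  have hpw := h.pos he h2a h2b
  rcases h.ia_f4 hzw with hh | hh
  · have hsub : range (α - e - 1) ⊆ ix G m s z ∩ ix G m s w := by
      intro i hi
      rw [mem_range] at hi
      exact mem_inter.2 ⟨hpz.1 i (by omega), hpw.1 i (by omega)⟩
    have := card_le_card hsub
    rw [card_range] at this
    omega
  · have hsub : ix G m s w \ ix G m s z ⊆ symmDiff (ix G m s z) (ix G m s w) := by
      intro i hi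
      rw [mem_sdiff] at hi
      rw [mem_symmDiff]
      exact Or.inr hi
    have h3 := card_le_card hsub
    have h4 := le_card_sdiff (ix G m s z) (ix G m s w)
    omega

theorem HCtx.yl_yl_mid (h : HCtx G c m s y) (he : e = 31 * c + 1) {z w : V} {α α' A : ℕ}
    (hz : YL G e m s z α) (hw : YL G e m s w α') (hA : α ≤ A) (hA' : α' ≤ A)
    (hm : A + (e + 6) ≤ m) : ¬ G.Adj z w := by
  obtain ⟨h1a, h1b⟩ := hz
  obtain ⟨h2a, h2b⟩ := hw
  have hpz := h.pos he h1a h1b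
  have hpw := h.pos he h2a h2b
  apply no_edge h (a := A + (e + 3)) (by omega)
  · exact hpz.2.1 _ (by omega)
  · exact hpz.2.1 _ (by omega)
  · exact hpz.2.2.2 _ (by omega)
  · exact hpw.2.1 _ (by omega)
  · exact hpw.2.1 _ (by omega)
  · exact hpw.2.2.2 _ (by omega)

theorem HCtx.sp_yl (h : HCtx G c m s y) (he : e = 31 * c + 1) {z w : V} {α : ℕ}
    (hz : SP G e m s y z) (hw : YL G e m s w α) (hm : α + (7 * e + 30) ≤ m)
    (hm' : 12 * e + 40 ≤ m) : ¬ G.Adj z w := by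
  obtain ⟨h2a, h2b⟩ := hw
  have hpw := h.pos he h2a h2b
  have hsp := h.sparse he hz.1 hz.2
  have ha1 : α + (e + 3) ≤ max (α + (e + 3)) (6 * e + 12) := le_max_left _ _
  have ha2 : 6 * e + 12 ≤ max (α + (e + 3)) (6 * e + 12) := le_max_right _ _
  have ha3 : max (α + (e + 3)) (6 * e + 12) + (6 * e + 14) ≤ m := by
    rcases max_cases (α + (e + 3)) (6 * e + 12) with hh | hh <;> omega
  generalize max (α + (e + 3)) (6 * e + 12) = a at ha1 ha2 ha3
  apply no_edge h (a := a) (by omega)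
  · intro hh; have := hsp.1 _ hh; omega
  · intro hh; have := hsp.1 _ hh; omega
  · intro hh; have := hsp.2 _ hh; omega
  · exact hpw.2.1 _ (by omega)
  · exact hpw.2.1 _ (by omega)
  · exact hpw.2.2.2 _ (by omega)

theorem HCtx.sl_sl (h : HCtx G c m s y) (he : e = 31 * c + 1) {z w : V} {γ γ' : ℕ}
    (hz : SL G e m y z γ) (hw : SL G e m y w γ') (hp : γ + e < γ') : ¬ G.Adj z w := by
  have h1 := hz.1
  have h2 := hw.1
  intro hh
  exact h.dual.yl_yl he (yl_dual hw) (yl_dual hz) (by omega) hh.symm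

theorem HCtx.sl_sl_mid (h : HCtx G c m s y) (he : e = 31 * c + 1) {z w : V} {γ γ' A : ℕ}
    (hz : SL G e m y z γ) (hw : SL G e m y w γ') (hA : A ≤ γ) (hA' : A ≤ γ')
    (hm : e + 7 ≤ A) : ¬ G.Adj z w := by
  have h1 := hz.1
  have h2 := hw.1
  exact h.dual.yl_yl_mid he (yl_dual hz) (yl_dual hw) (A := m - A) (by omega) (by omega)
    (by omega)

theorem HCtx.sp_sl (h : HCtx G c m s y) (he : e = 31 * c + 1) {z w : V} {γ : ℕ}
    (hz : SP G e m s y z) (hw : SL G e m y w γ) (hm : 7 * e + 30 ≤ γ)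
    (hm' : 12 * e + 40 ≤ m) : ¬ G.Adj z w := by
  have h1 := hw.1
  exact h.dual.sp_yl he (sp_dual hz) (yl_dual hw) (by omega) hm'

end

end GemCW
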