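import Pool.Agent.Lib.GemCW.TCc
import Pool.Agent.Lib.GemCW.CoComp

/-!
# Traces on a maximal clique

`K` is a maximal clique: `Clq G K` and every `y ∉ K` has a non-neighbour in `K`.  `C_y = nb G y K`.

* `nested_or_disj` (K1): `y ≁ y'`, `y ≠ y'`, both outside `K`, `a ∈ C_y ∩ C_{y'}`: then `C_y ⊆ C_{y'}` or
  `C_{y'} ⊆ C_y`.  Else `b ∈ C_y \ C_{y'}`, `b' ∈ C_{y'} \ C_y`, and `y - b - b' - y'` dominated by
  `a` is a gem.
* `adj_traces` (K1'): `y ~ y'` both outside `K`, `a ∈ C_y ∩ C_{y'}`: `C_y = C_{y'}` or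
  `C_y ∪ C_{y'} = K`.  Else, after swapping, `b ∈ C_y \ C_{y'}` and `e ∈ K` in neither; then
  `y' - y - b - e` dominated by `a` is a gem.
* `clique_cut` (K2): for `y ∉ K` with `2 ≤ |C_y|` there is `X` with `X ∩ K = K \ C_y` and
  `cut G X ≤ 30`.
  Proof.  Choose `v, a ∈ C_y` distinct such that there is no `w ∉ K` with
  `v, a ∈ C_w`, `C_w ⊆ C_y`, `C_w ≠ C_y`:  call `D` a proper subtrace if `D = C_w ⊊ C_y` for some
  `w ∉ K`.  Two proper subtraces which intersect are nested (K1, K1'; `C_w ∪ C_{w'} = K` is impossible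
  since both are in `C_y ≠ K`).  Take any `v ∈ C_y`.  If no proper subtrace contains `v`, take any
  other `a ∈ C_y`.  Otherwise let `D ∋ v` be a proper subtrace of largest cardinality and
  `a ∈ C_y \ D`; a proper subtrace `D'` containing `v, a` would be nested with `D`, so `D ⊊ D'`:
  contradiction.
  Let `L` be the co-component of `cn G v a` containing `y` (`exists_coComp`).
  `K \ C_y ⊆ L`: `z ∈ K \ C_y` is in `cn G v a` and nonadjacent to `y ∈ L`; use `CoComp.full`.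
  `L ∩ C_y = ∅`: let `u ∈ L ∩ C_y` (`u ∈ K`, `u ~ y`).  By `exists_coComp` there is `p ∈ cn G v a`, `p ≠ y, u`,
  `p ≁ y`, `p ≁ u`.  `p ∉ K` (as `u ∈ K`, `p ≠ u`, `p ≁ u`).  `C_p ∋ v, a`, `u ∈ C_y \ C_p`; by K1,
  `C_p ⊆ C_y`, proper: contradiction to the choice of `v, a`.
  `thin_cut` gives `X` with `L ⊆ X ⊆ L ∪ {x : x ≁ v, x ≁ a}`; no element of `K` other than possibly
  `v, a` is nonadjacent to `v`; and `v ~ a`, so `InW` excludes `v` and `a`.  So `X ∩ K = L ∩ K = K \ C_y`.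
-/

namespace GemCW

open Finset

variable {V : Type*} [Fintype V] [DecidableEq V]

/-- maximal clique -/
def MaxClq (G : SimpleGraph V) (K : Finset V) : Prop :=
  Clq G K ∧ ∀ y, y ∉ K → ∃ k ∈ K, ¬ G.Adj y k

theorem exists_maxClq (G : SimpleGraph V) (S : Finset V) (hS : Clq G S) :
    ∃ K, S ⊆ K ∧ MaxClq G K := by
  classical
  obtain ⟨K, hK, hmax⟩ := Finset.exists_max_image
    ((univ : Finset (Finset V)).filter (fun K => S ⊆ K ∧ Clq G K)) Finset.card
    ⟨S, by simp [hS]⟩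
  rw [Finset.mem_filter] at hK
  refine ⟨K, hK.2.1, hK.2.2, fun y hy => ?_⟩
  by_contra hne
  push Not at hne
  have h1 : insert y K ∈ (univ : Finset (Finset V)).filter (fun K => S ⊆ K ∧ Clq G K) := by
    rw [Finset.mem_filter]
    refine ⟨mem_univ _, hK.2.1.trans (subset_insert _ _), ?_⟩
    intro a ha b hb hab
    rcases mem_insert.1 ha with h3 | h3
    · rcases mem_insert.1 hb with h4 | h4
      · exact absurd (h3.trans h4.symm) hab
      · rw [h3]; exact hne b h4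
    · rcases mem_insert.1 hb with h4 | h4
      · rw [h4]; exact (hne a h3).symm
      · exact hK.2.2 a h3 b h4 hab
  have h2 := hmax _ h1
  rw [card_insert_of_notMem hy] at h2
  omega

section
variable {G : SimpleGraph V} {K : Finset V}

omit [Fintype V] in
theorem nested_or_disj (hG : Cls G) (hK : MaxClq G K) {y y' a : V} (hy : y ∉ K) (hy' : y' ∉ K)
    (hyy : ¬ G.Adj y y') (ha : a ∈ nb G y K) (ha' : a ∈ nb G y' K) :
    nb G y K ⊆ nb G y' K ∨ nb G y' K ⊆ nb G y K := by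
  by_contra hne
  push Not at hne
  obtain ⟨h1, h2⟩ := hne
  rw [Finset.not_subset] at h1 h2
  obtain ⟨b, hb, hb'⟩ := h1
  obtain ⟨b', hc, hc'⟩ := h2
  have e1 : b ≠ b' := fun h => hc' (h ▸ hb)
  have e2 : a ≠ b := fun h => hb' (h ▸ ha')
  have e3 : a ≠ b' := fun h => hc' (h ▸ ha)
  rw [mem_nb] at ha ha' hb hc
  have hb2 : ¬ G.Adj y' b := fun h => hb' (mem_nb.2 ⟨hb.1, h⟩)
  have hc2 : ¬ G.Adj y b' := fun h => hc' (mem_nb.2 ⟨hc.1, h⟩)
  exact hG.gem y b b' y' a hb.2 (hK.1 b hb.1 b' hc.1 e1) hc.2.symm hc2 (fun h => hb2 h.symm) hyy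
    ha.2.symm (hK.1 a ha.1 b hb.1 e2) (hK.1 a ha.1 b' hc.1 e3) ha'.2.symm

omit [Fintype V] in
theorem adj_traces (hG : Cls G) (hK : MaxClq G K) {y y' a : V} (hy : y ∉ K) (hy' : y' ∉ K)
    (hyy : G.Adj y y') (ha : a ∈ nb G y K) (ha' : a ∈ nb G y' K) :
    nb G y K = nb G y' K ∨ nb G y K ∪ nb G y' K = K := by
  by_contra hne
  push Not at hne
  obtain ⟨h1, h2⟩ := hne
  have h3 : ∃ e ∈ K, e ∉ nb G y K ∧ e ∉ nb G y' K := by
    by_contra h4
    push Not at h4
    apply h2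
    apply Finset.Subset.antisymm
    · exact union_subset nb_sub nb_sub
    · intro e he
      rw [mem_union]
      by_cases h5 : e ∈ nb G y K
      · exact Or.inl h5
      · exact Or.inr (h4 e he h5)
  obtain ⟨e, he, hey, hey'⟩ := h3
  have key : ∀ z z' : V, z ∉ K → z' ∉ K → G.Adj z z' → a ∈ nb G z K → a ∈ nb G z' K →
      e ∉ nb G z K → e ∉ nb G z' K → nb G z K ⊆ nb G z' K := by
    intro z z' _ _ hzz haz haz' hez hez' b hb
    by_contra hb'
    have e1 : b ≠ e := fun h => hez (h ▸ hb)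
    have e2 : a ≠ b := fun h => hb' (h ▸ haz')
    have e3 : a ≠ e := fun h => hez (h ▸ haz)
    rw [mem_nb] at haz haz' hb
    have hb2 : ¬ G.Adj z' b := fun h => hb' (mem_nb.2 ⟨hb.1, h⟩)
    have he1 : ¬ G.Adj z e := fun h => hez (mem_nb.2 ⟨he, h⟩)
    have he2 : ¬ G.Adj z' e := fun h => hez' (mem_nb.2 ⟨he, h⟩)
    exact hG.gem z' z b e a hzz.symm hb.2 (hK.1 b hb.1 e he e1) hb2 he1 he2 haz'.2.symm
      haz.2.symm (hK.1 a haz.1 b hb.1 e2) (hK.1 a haz.1 e he e3)
  exact h1 (Finset.Subset.antisymm (key y y' hy hy' hyy ha ha' hey hey')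
    (key y' y hy' hy hyy.symm ha' ha hey' hey))

/-- the choice of the two vertices of the trace -/
private theorem choose_pair (hG : Cls G) (hK : MaxClq G K) {y : V} (hy : y ∉ K)
    (h2 : 2 ≤ (nb G y K).card) :
    ∃ v a, v ∈ nb G y K ∧ a ∈ nb G y K ∧ v ≠ a ∧ ∀ w, w ∉ K → v ∈ nb G w K → a ∈ nb G w K →
      nb G w K ⊆ nb G y K → nb G w K = nb G y K := by
  classical
  obtain ⟨k, hk, hyk⟩ := hK.2 y hy
  have hKne : nb G y K ≠ K := fun h => hyk (by rw [← h] at hk; exact (mem_nb.1 hk).2)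
  have nest : ∀ w w' v, w ∉ K → w' ∉ K → v ∈ nb G w K → v ∈ nb G w' K →
      nb G w K ⊆ nb G y K → nb G w' K ⊆ nb G y K →
      nb G w K ⊆ nb G w' K ∨ nb G w' K ⊆ nb G w K := by
    intro w w' v hw hw' hv hv' h3 h4
    by_cases hww : G.Adj w w'
    · rcases adj_traces hG hK hw hw' hww hv hv' with h5 | h5
      · exact Or.inl h5.subset
      · exfalso
        apply hKne
        apply Finset.Subset.antisymm nb_sub
        have h6 := union_subset h3 h4
        rwa [h5] at h6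
    · exact nested_or_disj hG hK hw hw' hww hv hv'
  obtain ⟨v, hv⟩ : (nb G y K).Nonempty := card_pos.1 (by omega)
  by_cases hex : ∃ w, w ∉ K ∧ v ∈ nb G w K ∧ nb G w K ⊆ nb G y K ∧ nb G w K ≠ nb G y K
  · obtain ⟨w, hw, hmax⟩ := Finset.exists_max_image
      ((univ : Finset V).filter (fun w => w ∉ K ∧ v ∈ nb G w K ∧ nb G w K ⊆ nb G y K ∧
        nb G w K ≠ nb G y K)) (fun w => (nb G w K).card)
      (by obtain ⟨w, hw⟩ := hex; exact ⟨w, by rw [mem_filter]; exact ⟨mem_univ _, hw⟩⟩)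
    rw [mem_filter] at hw
    obtain ⟨_, hw1, hw2, hw3, hw4⟩ := hw
    obtain ⟨a, ha, ha'⟩ : ∃ a ∈ nb G y K, a ∉ nb G w K := by
      by_contra h5
      push Not at h5
      exact hw4 (Finset.Subset.antisymm hw3 h5)
    refine ⟨v, a, hv, ha, fun h => ha' (h ▸ hw2), fun w' hw' hv' haw' hsub => ?_⟩
    by_contra hne
    rcases nest w w' v hw1 hw' hw2 hv' hw3 hsub with h5 | h5
    · have h6 : (nb G w K).card < (nb G w' K).card :=
        card_lt_card (Finset.ssubset_iff_subset_ne.2 ⟨h5, fun h => ha' (h ▸ haw')⟩)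
      have h7 := hmax w' (by rw [mem_filter]; exact ⟨mem_univ _, hw', hv', hsub, hne⟩)
      omega
    · exact ha' (h5 haw')
  · push Not at hex
    obtain ⟨a, ha, hav⟩ := exists_mem_ne (by omega : 1 < (nb G y K).card) v
    exact ⟨v, a, hv, ha, hav.symm, fun w hw hvw _ hsub => hex w hw hvw hsub⟩

theorem clique_cut (hG : Cls G) (hK : MaxClq G K) {y : V} (hy : y ∉ K)
    (h2 : 2 ≤ (nb G y K).card) :
    ∃ X : Finset V, (∀ k ∈ K, k ∈ X ↔ ¬ G.Adj y k) ∧ cut G X ≤ 30 := by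
  obtain ⟨v, a, hv, ha, hva, hmin⟩ := choose_pair hG hK hy h2
  have hv' := mem_nb.1 hv
  have ha' := mem_nb.1 ha
  have hyC : y ∈ cn G v a := mem_cn.2 ⟨hv'.2.symm, ha'.2.symm⟩
  obtain ⟨L, hyL, hco, hL⟩ := exists_coComp hG v (cn G v a) (fun p hp => (mem_cn.1 hp).1) y hyC
  obtain ⟨X, hLX, hX, hcut⟩ := thin_cut (G := G) (v := v) (d := a) (L := L)
    ⟨hG, hK.1 v hv'.1 a ha'.1 hva, hco⟩
  refine ⟨X, fun k hk => ⟨fun hkX hyk => ?_, fun hyk => ?_⟩, hcut⟩
  · have hkL : k ∈ L := by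
      rcases hX k hkX with h | h
      · exact h
      · exfalso
        have e1 : k = v := by
          by_contra hne
          exact h.1 (hK.1 v hv'.1 k hk (Ne.symm hne))
        have e2 : k = a := by
          by_contra hne
          exact h.2 (hK.1 a ha'.1 k hk (Ne.symm hne))
        exact hva (e1.symm.trans e2)
    rcases hL k hkL with h | h | ⟨p, hp, hpy, hpk, hpy', hpk'⟩
    · exact hy (h ▸ hk)
    · exact h hyk.symm
    · have hpK : p ∉ K := fun h => hpk' (hK.1 p h k hk hpk)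
      have hp' := mem_cn.1 hp
      have hvp : v ∈ nb G p K := mem_nb.2 ⟨hv'.1, hp'.1.symm⟩
      have hap : a ∈ nb G p K := mem_nb.2 ⟨ha'.1, hp'.2.symm⟩
      have hkp : k ∉ nb G p K := fun h => hpk' (mem_nb.1 h).2
      have hky : k ∈ nb G y K := mem_nb.2 ⟨hk, hyk⟩
      rcases nested_or_disj hG hK hy hpK (fun h => hpy' h.symm) hv hvp with h | h
      · exact hkp (h hky)
      · rw [hmin p hpK hvp hap h] at hkp
        exact hkp hky
  · apply hLX
    have hvk : v ≠ k := fun h => hyk (h ▸ hv'.2)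
    have hak : a ≠ k := fun h => hyk (h ▸ ha'.2)
    by_contra hkL
    exact hyk (hco.full k (mem_cn.2 ⟨hK.1 v hv'.1 k hk hvk, hK.1 a ha'.1 k hk hak⟩) hkL y hyL).symm

/-- every vertex outside `K` is sparse or dense on a well-linked subset of `K` -/
theorem sparse_or_dense (hG : Cls G) (hK : MaxClq G K) {S : Finset V} {c : ℕ} (hSK : S ⊆ K)
    (hS : WL G c S) {y : V} (hy : y ∉ K) :
    (nb G y S).card ≤ 31 * c + 1 ∨ (S \ nb G y S).card ≤ 31 * c + 1 := by
  by_cases h2 : 2 ≤ (nb G y K).card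
  · obtain ⟨X, hX, hcut⟩ := clique_cut hG hK hy h2
    have h3 := hS X
    have e1 : S ∩ X = S \ nb G y S := by
      ext k
      rw [mem_inter, mem_sdiff, mem_nb]
      constructor
      · rintro ⟨h4, h5⟩
        exact ⟨h4, fun h6 => (hX k (hSK h4)).1 h5 h6.2⟩
      · rintro ⟨h4, h5⟩
        exact ⟨h4, (hX k (hSK h4)).2 fun h6 => h5 ⟨h4, h6⟩⟩
    have e2 : S \ X = nb G y S := by
      ext k
      rw [mem_sdiff, mem_nb]
      constructor
      · rintro ⟨h4, h5⟩
        refine ⟨h4, ?_⟩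
        by_contra h6
        exact h5 ((hX k (hSK h4)).2 h6)
      · rintro ⟨h4, h5⟩
        exact ⟨h4, fun h6 => (hX k (hSK h4)).1 h6 h5⟩
    rw [e1, e2] at h3
    have h4 : c * (cut G X + 1) ≤ 31 * c := by
      rw [Nat.mul_comm]
      exact Nat.mul_le_mul_right _ (by omega)
    rcases min_le_iff.1 (h3.trans h4) with h5 | h5
    · right; omega
    · left; omega
  · left
    have h3 : (nb G y S).card ≤ (nb G y K).card := by
      apply card_le_card
      intro k hk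
      rw [mem_nb] at hk ⊢
      exact ⟨hSK hk.1, hk.2⟩
    omega

end

end GemCW
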