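import Pool.Agent.Lib.GemCW.Ktwo
import Pool.Agent.Lib.GemCW.RkA

/-!
# Well-linked cliques, III: cuts from saturated sets

For a saturated set `T ⊆ K` put (`C_y = nb G y K`, `D_z = DD G K z`)
`YT = {y sparse : (C_y ≠ ∅ and C_y ⊆ T) or (C_y = ∅ and y ~ z for some dense z with D_z ⊆ T)}`,
`ZT = {z dense : D_z ⊆ T}`, `X = T ∪ ZT ∪ YT`, `Y' = {y sparse} \ YT`.

Claim: `cut G X ≤ 1 + rk G YT Y'`.

Proof.  `Xᶜ = (K \ T) ∪ Z' ∪ Y'`, `Z' = {z dense : ¬ D_z ⊆ T}`; for `z ∈ Z'`, `D_z ∩ T = ∅` by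
saturation; for `y ∈ Y'` with `C_y ≠ ∅`: `C_y ∩ T = ∅`.
* `T ∪ ZT` versus `(K \ T) ∪ Z'` is complete: `T`-`K \ T` clique; `t ∈ T`, `z ∈ Z'`: `t ∉ D_z`;
  `z ∈ ZT`, `k ∈ K \ T`: `k ∉ D_z`; `z ∈ ZT`, `z' ∈ Z'`: `D_z ∩ D_{z'} = ∅`, so `z ~ z'` by `de_de`.
* `T ∪ ZT` versus `Y'` is empty: `t ∈ T`, `y ∈ Y'`: `C_y ∩ T = ∅`; `z ∈ ZT`, `y ∈ Y'`: if `C_y ≠ ∅`, `y ~ z`
  would give `C_y ⊆ D_z` or `D_z ⊆ C_y` (`sp_de`), impossible since `D_z ⊆ T` nonempty and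
  `C_y ∩ T = ∅`, `C_y ≠ ∅`; if `C_y = ∅`, `y ~ z` would put `y` in `YT`.
* `YT` versus `(K \ T) ∪ Z'` is empty: `y ∈ YT`: `C_y ⊆ T`, so nonadjacent to `K \ T`.  `z' ∈ Z'`: if
  `C_y ≠ ∅`: `sp_de` again (`C_y ⊆ T`, `D_{z'} ∩ T = ∅`).  If `C_y = ∅`: `y ~ z` with `D_z ⊆ T`, and
  `y ~ z'` would give `D_z ∩ D_{z'} ≠ ∅` (`zero_de`), but `D_{z'} ∩ T = ∅`.
So `rk X Xᶜ ≤ rk (T ∪ ZT) ((K\T) ∪ Z') + 0 + 0 + rk YT Y' ≤ 1 + rk YT Y'`.

`clique_cut_sat` packages: for every saturated `T` there is `X` with `X ∩ K = T`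
and `cut G X ≤ 1 + rk G (YT ..) (YR ..)`.
-/

namespace GemCW

open Finset

variable {V : Type*} [Fintype V] [DecidableEq V]

open scoped Classical in
/-- sparse vertices attached to `T` -/
noncomputable def YT (G : SimpleGraph V) (K S : Finset V) (e : ℕ) (T : Finset V) : Finset V :=
  univ.filter (fun y => Sp G K S e y ∧ (((nb G y K).Nonempty ∧ nb G y K ⊆ T) ∨
    (nb G y K = ∅ ∧ ∃ z, De G K S e z ∧ G.Adj y z ∧ DD G K z ⊆ T)))

open scoped Classical in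
/-- the other sparse vertices -/
noncomputable def YR (G : SimpleGraph V) (K S : Finset V) (e : ℕ) (T : Finset V) : Finset V :=
  univ.filter (fun y => Sp G K S e y ∧ y ∉ YT G K S e T)

namespace KthreeAux

variable {G : SimpleGraph V} {K S : Finset V} {e : ℕ} {T : Finset V}

theorem mem_YT {y : V} : y ∈ YT G K S e T ↔ Sp G K S e y ∧ (((nb G y K).Nonempty ∧ nb G y K ⊆ T) ∨
    (nb G y K = ∅ ∧ ∃ z, De G K S e z ∧ G.Adj y z ∧ DD G K z ⊆ T)) := by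
  simp [YT]

theorem mem_YR {y : V} : y ∈ YR G K S e T ↔ Sp G K S e y ∧ y ∉ YT G K S e T := by
  simp [YR]

omit [Fintype V] in
/-- a dense vertex whose co-trace is not inside `T` has its co-trace disjoint from `T` -/
theorem de_disj (hT : Sat G K S e T) {z : V} (hz : De G K S e z) (h : ¬ DD G K z ⊆ T) :
    Disjoint (DD G K z) T := by
  rcases hT.2 _ (Or.inr (Or.inl ⟨z, hz, rfl⟩)) with h1 | h1
  · exact absurd h1 h
  · exact h1

omit [Fintype V] in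
theorem sp_disj (hT : Sat G K S e T) {y : V} (hy : Sp G K S e y) (hne : (nb G y K).Nonempty)
    (h : ¬ nb G y K ⊆ T) : Disjoint (nb G y K) T := by
  rcases hT.2 _ (Or.inl ⟨y, hy, rfl, hne⟩) with h1 | h1
  · exact absurd h1 h
  · exact h1

omit [Fintype V] in
theorem adj_of_not_mem_DD {z k : V} (hk : k ∈ K) (h : k ∉ DD G K z) : G.Adj z k := by
  by_contra hn
  exact h (mem_sdiff.2 ⟨hk, fun hh => hn (mem_nb.1 hh).2⟩)

theorem dense_dense (h : KCtx G K S e) {u v : V} (hu : De G K S e u)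
    (huT : DD G K u ⊆ T) (hv : De G K S e v) (hvT : Disjoint (DD G K v) T) : G.Adj u v := by
  by_contra hn
  have hne : u ≠ v := by
    rintro rfl
    obtain ⟨x, hx⟩ := h.dd_nonempty hu.1
    exact disjoint_left.1 hvT hx (huT hx)
  obtain ⟨x, hx⟩ := (h.de_de hu hv).2 hn hne
  rw [mem_inter] at hx
  exact disjoint_left.1 hvT hx.2 (huT hx.1)

theorem zt_yr (h : KCtx G K S e) (hT : Sat G K S e T) {z y : V} (hz : De G K S e z)
    (hzT : DD G K z ⊆ T) (hy : y ∈ YR G K S e T) : ¬ G.Adj z y := by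
  intro hzy
  obtain ⟨hys, hyn⟩ := mem_YR.1 hy
  rcases (nb G y K).eq_empty_or_nonempty with h0 | h0
  · exact hyn (mem_YT.2 ⟨hys, Or.inr ⟨h0, z, hz, hzy.symm, hzT⟩⟩)
  · have hns : ¬ nb G y K ⊆ T := fun hh => hyn (mem_YT.2 ⟨hys, Or.inl ⟨h0, hh⟩⟩)
    have hd := sp_disj hT hys h0 hns
    rcases (h.sp_de hys hz).2 hzy.symm with h1 | h1
    · exact hns (h1.trans hzT)
    · obtain ⟨x, hx⟩ := h.dd_nonempty hz.1
      exact disjoint_left.1 hd (h1 hx) (hzT hx)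

theorem t_yr (hT : Sat G K S e T) {t y : V} (ht : t ∈ T) (hy : y ∈ YR G K S e T) :
    ¬ G.Adj t y := by
  intro hty
  obtain ⟨hys, hyn⟩ := mem_YR.1 hy
  have hmem : t ∈ nb G y K := mem_nb.2 ⟨hT.1 ht, hty.symm⟩
  have h0 : (nb G y K).Nonempty := ⟨t, hmem⟩
  have hns : ¬ nb G y K ⊆ T := fun hh => hyn (mem_YT.2 ⟨hys, Or.inl ⟨h0, hh⟩⟩)
  exact disjoint_left.1 (sp_disj hT hys h0 hns) hmem ht

theorem yt_k {y k : V} (hy : y ∈ YT G K S e T) (hk : k ∈ K) (hkT : k ∉ T) : ¬ G.Adj y k := by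
  intro hyk
  have hmem : k ∈ nb G y K := mem_nb.2 ⟨hk, hyk⟩
  obtain ⟨-, h1 | h1⟩ := mem_YT.1 hy
  · exact hkT (h1.2 hmem)
  · rw [h1.1] at hmem
    simp at hmem

theorem yt_z (h : KCtx G K S e) {y z : V} (hy : y ∈ YT G K S e T)
    (hz : De G K S e z) (hzT : ¬ DD G K z ⊆ T) (hzd : Disjoint (DD G K z) T) : ¬ G.Adj y z := by
  intro hyz
  obtain ⟨hys, ⟨hne, hsub⟩ | ⟨h0, w, hw, hyw, hwT⟩⟩ := mem_YT.1 hy
  · rcases (h.sp_de hys hz).2 hyz with h1 | h1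
    · obtain ⟨x, hx⟩ := hne
      exact disjoint_left.1 hzd (h1 hx) (hsub hx)
    · exact hzT (h1.trans hsub)
  · obtain ⟨x, hx⟩ := h.zero_de hys h0 hw hz hyw hyz
    rw [mem_inter] at hx
    exact disjoint_left.1 hzd hx.2 (hwT hx.1)

end KthreeAux

open KthreeAux

theorem clique_cut_sat {G : SimpleGraph V} {K S : Finset V} {e : ℕ} (h : KCtx G K S e)
    {T : Finset V} (hT : Sat G K S e T) :
    ∃ X : Finset V, X ∩ K = T ∧ cut G X ≤ 1 + rk G (YT G K S e T) (YR G K S e T) := by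
  classical
  set ZT : Finset V := univ.filter (fun z => De G K S e z ∧ DD G K z ⊆ T) with hZT
  set Z' : Finset V := univ.filter (fun z => De G K S e z ∧ ¬ DD G K z ⊆ T) with hZ'
  have mZT : ∀ z, z ∈ ZT ↔ De G K S e z ∧ DD G K z ⊆ T := fun z => by simp [hZT]
  have mZ' : ∀ z, z ∈ Z' ↔ De G K S e z ∧ ¬ DD G K z ⊆ T := fun z => by simp [hZ']
  refine ⟨(T ∪ ZT) ∪ YT G K S e T, ?_, ?_⟩
  · ext k
    simp only [mem_inter, mem_union]
    constructor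
    · rintro ⟨(h1 | h1) | h1, hk⟩
      · exact h1
      · exact absurd hk ((mZT k).1 h1).1.1
      · exact absurd hk (mem_YT.1 h1).1.1
    · intro hk
      exact ⟨Or.inl (Or.inl hk), hT.1 hk⟩
  · have hcompl : ((T ∪ ZT) ∪ YT G K S e T)ᶜ ⊆ ((K \ T) ∪ Z') ∪ YR G K S e T := by
      intro v hv
      simp only [mem_compl, mem_union, not_or] at hv
      obtain ⟨⟨hvT, hvZ⟩, hvY⟩ := hv
      by_cases hvK : v ∈ K
      · exact mem_union_left _ (mem_union_left _ (mem_sdiff.2 ⟨hvK, hvT⟩))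
      · rcases h.dich v hvK with h1 | h1
        · exact mem_union_right _ (mem_YR.2 ⟨⟨hvK, h1⟩, hvY⟩)
        · refine mem_union_left _ (mem_union_right _ ((mZ' v).2 ⟨⟨hvK, h1⟩, fun hh => ?_⟩))
          exact hvZ ((mZT v).2 ⟨⟨hvK, h1⟩, hh⟩)
    have hfull : ∀ u ∈ T ∪ ZT, ∀ v ∈ (K \ T) ∪ Z', G.Adj u v := by
      intro u hu v hv
      rcases mem_union.1 hu with hu | hu <;> rcases mem_union.1 hv with hv | hv
      · obtain ⟨hvK, hvT⟩ := mem_sdiff.1 hv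
        exact h.max.1 u (hT.1 hu) v hvK (fun hh => hvT (hh ▸ hu))
      · obtain ⟨hvD, hvn⟩ := (mZ' v).1 hv
        have hd := de_disj hT hvD hvn
        exact (adj_of_not_mem_DD (hT.1 hu) (fun hh => disjoint_left.1 hd hh hu)).symm
      · obtain ⟨hvK, hvT⟩ := mem_sdiff.1 hv
        exact adj_of_not_mem_DD hvK (fun hh => hvT (((mZT u).1 hu).2 hh))
      · obtain ⟨hvD, hvn⟩ := (mZ' v).1 hv
        obtain ⟨huD, huT⟩ := (mZT u).1 hu
        exact dense_dense h huD huT hvD (de_disj hT hvD hvn)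
    have h1 : rk G (T ∪ ZT) ((K \ T) ∪ Z') ≤ 1 := by
      have := rk_le_rows (G := G) (A := T ∪ ZT) (B := (K \ T) ∪ Z') {(K \ T) ∪ Z'} (by
        intro u hu
        right
        rw [mem_singleton]
        ext v
        rw [mem_nb]
        exact ⟨fun hh => hh.1, fun hh => ⟨hh, hfull u hu v hh⟩⟩)
      simpa using this
    have h2 : rk G (T ∪ ZT) (YR G K S e T) = 0 := by
      apply rk_eq_zero
      intro u hu v hv
      rcases mem_union.1 hu with hu | hu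
      · exact t_yr hT hu hv
      · exact zt_yr h hT ((mZT u).1 hu).1 ((mZT u).1 hu).2 hv
    have h3 : rk G (YT G K S e T) ((K \ T) ∪ Z') = 0 := by
      apply rk_eq_zero
      intro u hu v hv
      rcases mem_union.1 hv with hv | hv
      · obtain ⟨hvK, hvT⟩ := mem_sdiff.1 hv
        exact yt_k hu hvK hvT
      · obtain ⟨hvD, hvn⟩ := (mZ' v).1 hv
        exact yt_z h hu hvD hvn (de_disj hT hvD hvn)
    have h4 := rk_mono (G := G) (Subset.refl ((T ∪ ZT) ∪ YT G K S e T)) hcompl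
    have h5 := rk_union_left G (T ∪ ZT) (YT G K S e T) (((K \ T) ∪ Z') ∪ YR G K S e T)
    have h6 := rk_union_right G (T ∪ ZT) ((K \ T) ∪ Z') (YR G K S e T)
    have h7 := rk_union_right G (YT G K S e T) ((K \ T) ∪ Z') (YR G K S e T)
    change rk G _ _ ≤ _
    omega

end GemCW
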