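import Pool.Agent.Lib.GemCW.Kone

/-!
# Well-linked cliques, II: the laminar family of traces

Context `KCtx G K S e`: `K` a maximal clique, `S ⊆ K`, `1 ≤ e`, `10 * e < |S|`, and every `y ∉ K` is
*sparse* (`|N(y) ∩ S| ≤ e`) or *dense* (`|S \ N(y)| ≤ e`).  `C_y = nb G y K`,
`D_z = K \ nb G z K` (nonempty, as `K` is maximal).

* `sp_cluster`: the sparse vertices induce no `P₃`: if `y - y' - y''` is one, at least
  `|S| - 3e ≥ 2` vertices of `S` are nonadjacent to all three: an edge of the clique `K`; `P₂+P₃`.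
* `sp_sp`: `y, y'` sparse, `C_y ∩ C_{y'} ≠ ∅`: nested; if moreover `y ~ y'`: equal.  (K1, K1';
  `C_y ∪ C_{y'} = K` is impossible by cardinality: `|S| ≤ 2e`.)
* `de_de`: `z, z'` dense: (i) if `D_z ∩ D_{z'} ≠ ∅` then nested; (ii) if `z ≁ z'`, `z ≠ z'` then
  `D_z ∩ D_{z'} ≠ ∅`.
  (`C_z ∩ C_{z'} ≠ ∅` by cardinality; if `z ≁ z'` then `C` nested by K1, hence `D` nested, and `D`'s are
  nonempty; if `z ~ z'` then `C_z = C_{z'}` or `C_z ∪ C_{z'} = K`, i.e. `D`'s disjoint.)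
* `sp_de`: `y` sparse, `z` dense: (i) `C_y ∩ D_z ≠ ∅` implies nested; (ii) `y ~ z` implies
  `C_y ⊆ D_z` or `D_z ⊆ C_y`.
  (`y ≁ z`: `C_y ∩ C_z = ∅`, i.e. `C_y ⊆ D_z`, or nested, `C_z ⊆ C_y` impossible by cardinality, so
  `C_y ⊆ C_z`, i.e. `C_y ∩ D_z = ∅`.  `y ~ z`: `C_y ∩ C_z = ∅`, i.e. `C_y ⊆ D_z`, or equal (impossible by
  cardinality) or `C_y ∪ C_z = K`, i.e. `D_z ⊆ C_y`.)
* `zero_de`: `u` sparse with `C_u = ∅`, `z, z'` dense, `u ~ z`, `u ~ z'`: then `D_z ∩ D_{z'} ≠ ∅`.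
  Otherwise `z ≠ z'`, `z ~ z'` (by `de_de`), take `k ∈ D_{z'}` (so `k ~ z`, `k ≁ z'`) and `k' ∈ K` adjacent
  to both `z, z'` (cardinality); the path `u - z' - k' - k` dominated by `z` is a gem.

`Mem F` : `F` is a nonempty `C_y` (`y` sparse), or a `D_z` (`z` dense), or a singleton `{k}`, `k ∈ K`.
* `mem_nested`: two intersecting members are nested.
* `mem_card`: `|F ∩ S| ≤ e`.
`Sat T` : `T ⊆ K` and every member is contained in `T` or disjoint from `T`.
* `exists_hull`: for `k ∈ K` there is a member `M ∋ k` which is saturated (a member containing `k` of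
  largest cardinality).
* `sat_union`, `sat_compl`.
* `exists_balanced`: if `A` is saturated, there is a saturated `T` disjoint from `A` with
  `|S \ A| ≤ 2 |T ∩ S| + 2e` and `2 |T ∩ S| ≤ |S \ A|`.  Proof: `T` saturated, disjoint from `A`, with
  `2 |T ∩ S| ≤ |S \ A|` and of largest cardinality `|T ∩ S|`... (`T = ∅` is allowed).  If
  `2 |T ∩ S| + 2 e < |S \ A|` there is `k ∈ S \ (A ∪ T)`; with the hull `M` of `k`, `T ∪ M` is saturated,
  disjoint from `A`, and `2 |(T ∪ M) ∩ S| ≤ 2 |T ∩ S| + 2e ≤ |S \ A|`: contradiction.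
-/

namespace GemCW

open Finset

variable {V : Type*} [Fintype V] [DecidableEq V]

structure KCtx (G : SimpleGraph V) (K S : Finset V) (e : ℕ) : Prop where
  cls : Cls G
  max : MaxClq G K
  sub : S ⊆ K
  one : 1 ≤ e
  big : 10 * e < S.card
  dich : ∀ y, y ∉ K → (nb G y S).card ≤ e ∨ (S \ nb G y S).card ≤ e

/-- sparse vertices -/
def Sp (G : SimpleGraph V) (K S : Finset V) (e : ℕ) (y : V) : Prop :=
  y ∉ K ∧ (nb G y S).card ≤ e

/-- dense vertices -/
def De (G : SimpleGraph V) (K S : Finset V) (e : ℕ) (z : V) : Prop :=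
  z ∉ K ∧ (S \ nb G z S).card ≤ e

/-- co-trace -/
noncomputable def DD (G : SimpleGraph V) (K : Finset V) (z : V) : Finset V := K \ nb G z K

/-- members of the laminar family -/
def Mem (G : SimpleGraph V) (K S : Finset V) (e : ℕ) (F : Finset V) : Prop :=
  (∃ y, Sp G K S e y ∧ F = nb G y K ∧ F.Nonempty) ∨ (∃ z, De G K S e z ∧ F = DD G K z) ∨
    ∃ k ∈ K, F = {k}

/-- saturated sets -/
def Sat (G : SimpleGraph V) (K S : Finset V) (e : ℕ) (T : Finset V) : Prop :=
  T ⊆ K ∧ ∀ F, Mem G K S e F → F ⊆ T ∨ Disjoint F T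

section
variable {G : SimpleGraph V} {K S : Finset V} {e : ℕ}

namespace KtwoAux

theorem mem_dd {z k : V} : k ∈ DD G K z ↔ k ∈ K ∧ ¬ G.Adj z k := by
  unfold DD
  rw [mem_sdiff, mem_nb]
  tauto

theorem split (z : V) : (nb G z S).card + (S \ nb G z S).card = S.card := by
  have h := card_sdiff_add_card_eq_card (nb_sub (G := G) (v := z) (A := S))
  omega

theorem nbS_sub (hS : S ⊆ K) {y z : V} (h : nb G y K ⊆ nb G z K) : nb G y S ⊆ nb G z S := by
  intro k hk
  have hk' := mem_nb.1 hk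
  have := mem_nb.1 (h (mem_nb.2 ⟨hS hk'.1, hk'.2⟩))
  exact mem_nb.2 ⟨hk'.1, this.2⟩

end KtwoAux

open KtwoAux

theorem KCtx.not_both (h : KCtx G K S e) {y : V} (hs : Sp G K S e y) : ¬ De G K S e y := by
  intro hd
  have h1 := hs.2
  have h2 := hd.2
  have h3 := split (G := G) (S := S) y
  have h4 := h.big
  omega

theorem KCtx.dd_nonempty (h : KCtx G K S e) {z : V} (hz : z ∉ K) : (DD G K z).Nonempty := by
  obtain ⟨k, hk, hk'⟩ := h.max.2 z hz
  exact ⟨k, mem_dd.2 ⟨hk, hk'⟩⟩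

theorem KCtx.sp_cluster (h : KCtx G K S e) {a b c : V} (ha : Sp G K S e a) (hb : Sp G K S e b)
    (hc : Sp G K S e c) (hab : G.Adj a b) (hbc : G.Adj b c) (hac : a ≠ c) : G.Adj a c := by
  by_contra hcon
  have hbig := h.big
  have h1 := h.one
  obtain ⟨B, hB⟩ : ∃ B, B = nb G a S ∪ nb G b S ∪ nb G c S := ⟨_, rfl⟩
  have hBc : B.card ≤ 3 * e := by
    rw [hB]
    have h2 := card_union_le (nb G a S ∪ nb G b S) (nb G c S)
    have h3 := card_union_le (nb G a S) (nb G b S)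
    have h4 := ha.2
    have h5 := hb.2
    have h6 := hc.2
    omega
  obtain ⟨k, hk, hkB⟩ := exists_mem_notMem_of_card_lt_card (s := B) (t := S) (by omega)
  have hi := card_insert_le k B
  obtain ⟨k', hk', hkB'⟩ := exists_mem_notMem_of_card_lt_card (s := insert k B) (t := S)
    (by omega)
  rw [mem_insert, not_or] at hkB'
  have key : ∀ x ∈ S, x ∉ B → ¬ G.Adj x a ∧ ¬ G.Adj x b ∧ ¬ G.Adj x c := by
    intro x hx hxB
    rw [hB, mem_union, mem_union, not_or, not_or] at hxB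
    refine ⟨fun hh => hxB.1.1 (mem_nb.2 ⟨hx, hh.symm⟩), fun hh => hxB.1.2 (mem_nb.2 ⟨hx, hh.symm⟩),
      fun hh => hxB.2 (mem_nb.2 ⟨hx, hh.symm⟩)⟩
  obtain ⟨a1, a2, a3⟩ := key k hk hkB
  obtain ⟨b1, b2, b3⟩ := key k' hk' hkB'.2
  exact h.cls.pp k k' a b c (h.max.1 _ (h.sub hk) _ (h.sub hk') (fun hh => hkB'.1 hh.symm)) hab hbc
    hcon hac a1 a2 a3 b1 b2 b3

theorem KCtx.sp_sp (h : KCtx G K S e) {y y' : V} (hy : Sp G K S e y) (hy' : Sp G K S e y')
    (hi : (nb G y K ∩ nb G y' K).Nonempty) :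
    (nb G y K ⊆ nb G y' K ∨ nb G y' K ⊆ nb G y K) ∧ (G.Adj y y' → nb G y K = nb G y' K) := by
  obtain ⟨a, ha⟩ := hi
  rw [mem_inter] at ha
  have hadj : G.Adj y y' → nb G y K = nb G y' K := by
    intro hyy
    rcases adj_traces h.cls h.max hy.1 hy'.1 hyy ha.1 ha.2 with h1 | h1
    · exact h1
    · exfalso
      have h2 : S ⊆ nb G y S ∪ nb G y' S := by
        intro k hk
        have h3 : k ∈ nb G y K ∪ nb G y' K := by rw [h1]; exact h.sub hk
        rw [mem_union] at h3 ⊢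
        rcases h3 with h3 | h3
        · exact Or.inl (mem_nb.2 ⟨hk, (mem_nb.1 h3).2⟩)
        · exact Or.inr (mem_nb.2 ⟨hk, (mem_nb.1 h3).2⟩)
      have h3 := card_le_card h2
      have h4 := card_union_le (nb G y S) (nb G y' S)
      have h5 := hy.2
      have h6 := hy'.2
      have h7 := h.big
      omega
  refine ⟨?_, hadj⟩
  by_cases hyy : G.Adj y y'
  · left; rw [hadj hyy]
  · exact nested_or_disj h.cls h.max hy.1 hy'.1 hyy ha.1 ha.2

theorem KCtx.de_de (h : KCtx G K S e) {z z' : V} (hz : De G K S e z) (hz' : De G K S e z') :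
    ((DD G K z ∩ DD G K z').Nonempty → (DD G K z ⊆ DD G K z' ∨ DD G K z' ⊆ DD G K z)) ∧
      (¬ G.Adj z z' → z ≠ z' → (DD G K z ∩ DD G K z').Nonempty) := by
  obtain ⟨a, haS, haB⟩ := exists_mem_notMem_of_card_lt_card
    (s := (S \ nb G z S) ∪ (S \ nb G z' S)) (t := S) (by
      have h1 := card_union_le (S \ nb G z S) (S \ nb G z' S)
      have h2 := hz.2
      have h3 := hz'.2
      have h4 := h.big
      omega)
  rw [mem_union, not_or, mem_sdiff, mem_sdiff, not_and_not_right, not_and_not_right] at haB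
  have ha : a ∈ nb G z K := mem_nb.2 ⟨h.sub haS, (mem_nb.1 (haB.1 haS)).2⟩
  have ha' : a ∈ nb G z' K := mem_nb.2 ⟨h.sub haS, (mem_nb.1 (haB.2 haS)).2⟩
  have hnest : ¬ G.Adj z z' → (DD G K z ⊆ DD G K z' ∨ DD G K z' ⊆ DD G K z) := by
    intro hn
    rcases nested_or_disj h.cls h.max hz.1 hz'.1 hn ha ha' with h1 | h1
    · right; exact sdiff_subset_sdiff (Subset.refl K) h1
    · left; exact sdiff_subset_sdiff (Subset.refl K) h1
  constructor
  · rintro ⟨k, hk⟩
    rw [mem_inter, mem_dd, mem_dd] at hk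
    by_cases hn : G.Adj z z'
    · rcases adj_traces h.cls h.max hz.1 hz'.1 hn ha ha' with h1 | h1
      · left
        unfold DD
        rw [h1]
      · exfalso
        have h2 : k ∈ nb G z K ∪ nb G z' K := by rw [h1]; exact hk.1.1
        rw [mem_union] at h2
        rcases h2 with h2 | h2
        · exact hk.1.2 (mem_nb.1 h2).2
        · exact hk.2.2 (mem_nb.1 h2).2
    · exact hnest hn
  · intro hn _
    obtain ⟨k, hk⟩ := h.dd_nonempty hz.1
    obtain ⟨k', hk'⟩ := h.dd_nonempty hz'.1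
    rcases hnest hn with h1 | h1
    · exact ⟨k, mem_inter.2 ⟨hk, h1 hk⟩⟩
    · exact ⟨k', mem_inter.2 ⟨h1 hk', hk'⟩⟩

theorem KCtx.sp_de (h : KCtx G K S e) {y z : V} (hy : Sp G K S e y) (hz : De G K S e z) :
    ((nb G y K ∩ DD G K z).Nonempty → (nb G y K ⊆ DD G K z ∨ DD G K z ⊆ nb G y K)) ∧
      (G.Adj y z → (nb G y K ⊆ DD G K z ∨ DD G K z ⊆ nb G y K)) := by
  have himp : ¬ nb G z K ⊆ nb G y K := by
    intro h1
    have h2 := card_le_card (nbS_sub h.sub h1)
    have h3 := hy.2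
    have h4 := hz.2
    have h5 := split (G := G) (S := S) z
    have h6 := h.big
    omega
  by_cases hi : (nb G y K ∩ nb G z K).Nonempty
  · obtain ⟨a, ha⟩ := hi
    rw [mem_inter] at ha
    have hii : G.Adj y z → (nb G y K ⊆ DD G K z ∨ DD G K z ⊆ nb G y K) := by
      intro hyz
      rcases adj_traces h.cls h.max hy.1 hz.1 hyz ha.1 ha.2 with h1 | h1
      · exact absurd (by rw [h1]) himp
      · right
        intro k hk
        rw [mem_dd] at hk
        have h2 : k ∈ nb G y K ∪ nb G z K := by rw [h1]; exact hk.1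
        rw [mem_union] at h2
        rcases h2 with h2 | h2
        · exact h2
        · exact absurd (mem_nb.1 h2).2 hk.2
    refine ⟨?_, hii⟩
    rintro ⟨k, hk⟩
    by_cases hyz : G.Adj y z
    · exact hii hyz
    · exfalso
      rw [mem_inter, mem_dd] at hk
      rcases nested_or_disj h.cls h.max hy.1 hz.1 hyz ha.1 ha.2 with h1 | h1
      · exact hk.2.2 (mem_nb.1 (h1 hk.1)).2
      · exact himp h1
  · have hsub : nb G y K ⊆ DD G K z := by
      intro k hk
      rw [mem_dd]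
      refine ⟨(mem_nb.1 hk).1, fun hh => hi ⟨k, mem_inter.2 ⟨hk, mem_nb.2 ⟨(mem_nb.1 hk).1, hh⟩⟩⟩⟩
    exact ⟨fun _ => Or.inl hsub, fun _ => Or.inl hsub⟩

theorem KCtx.zero_de (h : KCtx G K S e) {u z z' : V} (hu : Sp G K S e u) (hu0 : nb G u K = ∅)
    (hz : De G K S e z) (hz' : De G K S e z') (huz : G.Adj u z) (huz' : G.Adj u z') :
    (DD G K z ∩ DD G K z').Nonempty := by
  by_contra hcon
  have hu1 : ∀ k ∈ K, ¬ G.Adj u k := by
    intro k hk hh
    have : k ∈ nb G u K := mem_nb.2 ⟨hk, hh⟩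
    rw [hu0] at this
    exact notMem_empty _ this
  have hne : z ≠ z' := by
    intro hh
    rw [← hh, inter_self] at hcon
    exact hcon (h.dd_nonempty hz.1)
  have hadj : G.Adj z z' := by
    by_contra hn
    exact hcon ((h.de_de hz hz').2 hn hne)
  obtain ⟨k, hk⟩ := h.dd_nonempty hz'.1
  have hk' := mem_dd.1 hk
  have hkz : G.Adj z k := by
    by_contra hn
    exact hcon ⟨k, mem_inter.2 ⟨mem_dd.2 ⟨hk'.1, hn⟩, hk⟩⟩
  obtain ⟨a, haS, haB⟩ := exists_mem_notMem_of_card_lt_card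
    (s := (S \ nb G z S) ∪ (S \ nb G z' S)) (t := S) (by
      have h1 := card_union_le (S \ nb G z S) (S \ nb G z' S)
      have h2 := hz.2
      have h3 := hz'.2
      have h4 := h.big
      omega)
  rw [mem_union, not_or, mem_sdiff, mem_sdiff, not_and_not_right, not_and_not_right] at haB
  have ha : G.Adj z a := (mem_nb.1 (haB.1 haS)).2
  have ha' : G.Adj z' a := (mem_nb.1 (haB.2 haS)).2
  have hak : a ≠ k := fun hh => hk'.2 (by rw [← hh]; exact ha')
  exact h.cls.gem u z' a k z huz' ha' (h.max.1 _ (h.sub haS) _ hk'.1 hak) (hu1 _ (h.sub haS))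
    hk'.2 (hu1 _ hk'.1) huz.symm hadj ha hkz

theorem KCtx.mem_sub (h : KCtx G K S e) {F : Finset V} (hF : Mem G K S e F) : F ⊆ K := by
  rcases hF with ⟨y, _, rfl, _⟩ | ⟨z, _, rfl⟩ | ⟨k, hk, rfl⟩
  · exact nb_sub
  · exact sdiff_subset
  · exact singleton_subset_iff.2 hk

theorem KCtx.mem_nonempty (h : KCtx G K S e) {F : Finset V} (hF : Mem G K S e F) :
    F.Nonempty := by
  rcases hF with ⟨y, _, _, h1⟩ | ⟨z, hz, rfl⟩ | ⟨k, hk, rfl⟩
  · exact h1
  · exact h.dd_nonempty hz.1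
  · exact singleton_nonempty _

theorem KCtx.mem_nested (h : KCtx G K S e) {F F' : Finset V} (hF : Mem G K S e F)
    (hF' : Mem G K S e F') (hi : (F ∩ F').Nonempty) : F ⊆ F' ∨ F' ⊆ F := by
  rcases hF with ⟨y, hy, rfl, _⟩ | ⟨z, hz, rfl⟩ | ⟨k, hk, rfl⟩
  · rcases hF' with ⟨y', hy', rfl, _⟩ | ⟨z', hz', rfl⟩ | ⟨k', hk', rfl⟩
    · exact (h.sp_sp hy hy' hi).1
    · exact (h.sp_de hy hz').1 hi
    · obtain ⟨a, ha⟩ := hi
      rw [mem_inter, mem_singleton] at ha
      right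
      rw [singleton_subset_iff, ← ha.2]
      exact ha.1
  · rcases hF' with ⟨y', hy', rfl, _⟩ | ⟨z', hz', rfl⟩ | ⟨k', hk', rfl⟩
    · rw [inter_comm] at hi
      exact ((h.sp_de hy' hz).1 hi).symm
    · exact (h.de_de hz hz').1 hi
    · obtain ⟨a, ha⟩ := hi
      rw [mem_inter, mem_singleton] at ha
      right
      rw [singleton_subset_iff, ← ha.2]
      exact ha.1
  · obtain ⟨a, ha⟩ := hi
    rw [mem_inter, mem_singleton] at ha
    left
    rw [singleton_subset_iff, ← ha.1]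
    exact ha.2

theorem KCtx.mem_card (h : KCtx G K S e) {F : Finset V} (hF : Mem G K S e F) :
    (S ∩ F).card ≤ e := by
  rcases hF with ⟨y, hy, rfl, _⟩ | ⟨z, hz, rfl⟩ | ⟨k, hk, rfl⟩
  · refine le_trans (card_le_card ?_) hy.2
    intro a ha
    rw [mem_inter, mem_nb] at ha
    exact mem_nb.2 ⟨ha.1, ha.2.2⟩
  · refine le_trans (card_le_card ?_) hz.2
    intro a ha
    rw [mem_inter, mem_dd] at ha
    rw [mem_sdiff, mem_nb]
    exact ⟨ha.1, fun hh => ha.2.2 hh.2⟩
  · refine le_trans (card_le_card inter_subset_right) ?_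
    rw [card_singleton]
    exact h.one

theorem KCtx.exists_hull (h : KCtx G K S e) {k : V} (hk : k ∈ K) :
    ∃ M, k ∈ M ∧ Mem G K S e M ∧ Sat G K S e M := by
  classical
  have hne : ((univ : Finset (Finset V)).filter (fun F => Mem G K S e F ∧ k ∈ F)).Nonempty :=
    ⟨{k}, by
      rw [mem_filter]
      exact ⟨mem_univ _, Or.inr (Or.inr ⟨k, hk, rfl⟩), mem_singleton_self k⟩⟩
  obtain ⟨M, hM, hmax⟩ := exists_max_image _ (fun F : Finset V => F.card) hne
  rw [mem_filter] at hM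
  refine ⟨M, hM.2.2, hM.2.1, h.mem_sub hM.2.1, fun F hF => ?_⟩
  by_cases hi : (F ∩ M).Nonempty
  · left
    rcases h.mem_nested hF hM.2.1 hi with h1 | h1
    · exact h1
    · have h2 := hmax F (by
        rw [mem_filter]
        exact ⟨mem_univ _, hF, h1 hM.2.2⟩)
      rw [eq_of_subset_of_card_le h1 h2]
  · right
    rw [disjoint_iff_inter_eq_empty]
    exact not_nonempty_iff_eq_empty.1 hi

theorem KCtx.sat_union (h : KCtx G K S e) {T T' : Finset V} (hT : Sat G K S e T)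
    (hT' : Sat G K S e T') : Sat G K S e (T ∪ T') := by
  refine ⟨union_subset hT.1 hT'.1, fun F hF => ?_⟩
  rcases hT.2 F hF with h1 | h1
  · exact Or.inl (h1.trans subset_union_left)
  · rcases hT'.2 F hF with h2 | h2
    · exact Or.inl (h2.trans subset_union_right)
    · exact Or.inr (disjoint_union_right.2 ⟨h1, h2⟩)

theorem KCtx.sat_empty (h : KCtx G K S e) : Sat G K S e ∅ :=
  ⟨empty_subset _, fun _ _ => Or.inr (disjoint_empty_right _)⟩

theorem KCtx.exists_balanced (h : KCtx G K S e) {A : Finset V} (hA : Sat G K S e A) :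
    ∃ T, Sat G K S e T ∧ Disjoint T A ∧ (S \ A).card ≤ 2 * (S ∩ T).card + 2 * e ∧
      2 * (S ∩ T).card ≤ (S \ A).card := by
  classical
  have hne : ((univ : Finset (Finset V)).filter (fun T => Sat G K S e T ∧ Disjoint T A ∧
      2 * (S ∩ T).card ≤ (S \ A).card)).Nonempty :=
    ⟨∅, by
      rw [mem_filter]
      refine ⟨mem_univ _, h.sat_empty, disjoint_empty_left _, ?_⟩
      rw [inter_empty, card_empty]
      omega⟩
  obtain ⟨T, hT, hmax⟩ := exists_max_image _ (fun T : Finset V => (S ∩ T).card) hne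
  rw [mem_filter] at hT
  obtain ⟨_, hTs, hTA, hTc⟩ := hT
  refine ⟨T, hTs, hTA, ?_, hTc⟩
  by_contra hcon
  push Not at hcon
  obtain ⟨k, hk, hkT⟩ := exists_mem_notMem_of_card_lt_card (s := S ∩ T) (t := S \ A) (by omega)
  rw [mem_sdiff] at hk
  have hkT' : k ∉ T := fun hh => hkT (mem_inter.2 ⟨hk.1, hh⟩)
  obtain ⟨M, hkM, hM, hMs⟩ := h.exists_hull (h.sub hk.1)
  have hMA : Disjoint M A := by
    rcases hA.2 M hM with h1 | h1
    · exact absurd (h1 hkM) hk.2
    · exact h1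
  have hMc := h.mem_card hM
  have hcard : (S ∩ (T ∪ M)).card ≤ (S ∩ T).card + (S ∩ M).card := by
    rw [inter_union_distrib_left]
    exact card_union_le _ _
  have h1 := hmax (T ∪ M) (by
    rw [mem_filter]
    refine ⟨mem_univ _, h.sat_union hTs hMs, disjoint_union_left.2 ⟨hTA, hMA⟩, ?_⟩
    omega)
  have h2 : (S ∩ T).card < (S ∩ (T ∪ M)).card := by
    apply card_lt_card
    rw [ssubset_iff_of_subset (inter_subset_inter_left subset_union_left)]
    exact ⟨k, mem_inter.2 ⟨hk.1, mem_union_right _ hkM⟩, hkT⟩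
  have h3 : (S ∩ (T ∪ M)).card ≤ (S ∩ T).card := h1
  omega

end

end GemCW
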