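import Pool.Agent.Lib.GemCW.Cone
import Pool.Agent.Lib.GemCW.CW

/-!
# (gem, P₂+P₃)-free graphs have bounded clique-width

`no_WL`: for every `c` there is `N` such that no `WL G c` set has `N` elements.
Proof.  Let `S` be `WL G c`, large.  By `exists_indep` and `clean` pass to a large independent cleaned
subset `T`.  Let `S₁ ⊆ T` with `|S₁| = ⌊|T|/2⌋`.  `WL` for `X = S₁` (and the set `T`):
`⌊|T|/2⌋ ≤ c (cut G S₁ + 1)`, so `cut G S₁` is large.  Every `w ∉ S₁` has trace on `S₁` equal to `∅`,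
`{s}`, `S₁` or `S₁ \ {s}`.  Let `Z = {s ∈ S₁ : some w ∉ S₁ has trace {s} or S₁ \ {s} on S₁}`; then
`cut G S₁ = rk G S₁ S₁ᶜ ≤ |Z| + 1` (all columns are sums of members of
`{ {s} : s ∈ Z } ∪ {S₁}`: `rk_le_rows'` with `rk_symm`).  So `Z` is large.  For `s ∈ Z` choose `x s`; for at least
half of the `s ∈ Z` (the set `Z'`) the trace is of the same kind: if `{s}`: `s ~ x t ↔ s = t` on `Z'`,
contradiction to `T_main c`; if `S₁ \ {s}`: `s ~ x t ↔ s ≠ t`: contradiction to `C_main c`.
(`Z' ⊆ S` is `WL G c`.)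

`bounded_dec`, `bounded_cw`: by `dec_of_no_WL` and `cw_of_dec`.
-/

namespace GemCW

open Finset

theorem no_WL (c : ℕ) : ∃ N : ℕ, ∀ (V : Type) [Fintype V] [DecidableEq V] (G : SimpleGraph V),
    Cls G → ∀ S : Finset V, WL G c S → S.card < N := by
  classical
  obtain ⟨NT, hNT⟩ := T_main c
  obtain ⟨NC, hNC⟩ := C_main c
  obtain ⟨N₁, hN₁⟩ := clean c (2 * (c * (NT + NC + 2) + 1))
  obtain ⟨N₂, hN₂⟩ := exists_indep c N₁
  refine ⟨N₂, ?_⟩
  intro V _ _ G hG S hS
  by_contra hlt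
  rw [not_lt] at hlt
  obtain ⟨T₀, hT₀S, hT₀c, hT₀i⟩ := hN₂ V G hG S hS hlt
  obtain ⟨T, hTT₀, hTc, hTcl⟩ := hN₁ V G hG T₀ (hS.sub hT₀S) hT₀i hT₀c.ge
  have hTS : T ⊆ S := hTT₀.trans hT₀S
  obtain ⟨S₁, hS₁T, hS₁c⟩ := Finset.exists_subset_card_eq (s := T)
    (n := c * (NT + NC + 2) + 1) (by rw [hTc]; omega)
  -- the singular vertices
  set ZT : Finset V := S₁.filter (fun s => ∃ w, nb G w S₁ = {s}) with hZT
  set ZC : Finset V := S₁.filter (fun s => ∃ w, nb G w S₁ = S₁ \ {s}) with hZC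
  have hZTc : ZT.card < NT := by
    have hx : ∀ s : V, ∃ w, s ∈ ZT → nb G w S₁ = {s} := by
      intro s
      by_cases hs : s ∈ ZT
      · obtain ⟨w, hw⟩ := (mem_filter.1 hs).2
        exact ⟨w, fun _ => hw⟩
      · exact ⟨s, fun h => absurd h hs⟩
    choose x hx using hx
    refine hNT V G hG ZT x (hS.sub (((filter_subset _ _).trans hS₁T).trans hTS)) ?_
    intro s hs t ht
    have h1 : s ∈ nb G (x t) S₁ ↔ s = t := by rw [hx t ht, mem_singleton]
    rw [← h1, mem_nb, G.adj_comm]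
    exact ⟨fun h => ⟨(mem_filter.1 hs).1, h⟩, fun h => h.2⟩
  have hZCc : ZC.card < NC := by
    have hx : ∀ s : V, ∃ w, s ∈ ZC → nb G w S₁ = S₁ \ {s} := by
      intro s
      by_cases hs : s ∈ ZC
      · obtain ⟨w, hw⟩ := (mem_filter.1 hs).2
        exact ⟨w, fun _ => hw⟩
      · exact ⟨s, fun h => absurd h hs⟩
    choose x hx using hx
    refine hNC V G hG ZC x (hS.sub (((filter_subset _ _).trans hS₁T).trans hTS)) ?_
    intro s hs t ht
    have hsS : s ∈ S₁ := (mem_filter.1 hs).1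
    have h1 : s ∈ nb G (x t) S₁ ↔ s ≠ t := by
      rw [hx t ht, mem_sdiff, mem_singleton]
      exact ⟨fun h => h.2, fun h => ⟨hsS, h⟩⟩
    rw [← h1, mem_nb, G.adj_comm]
    exact ⟨fun h => ⟨hsS, h⟩, fun h => h.2⟩
  -- the cut of `S₁` is small
  have hcut : cut G S₁ ≤ NT + NC + 1 := by
    have h1 : rk G S₁ᶜ S₁ ≤ ((ZT ∪ ZC).image (fun s => ({s} : Finset V)) ∪ {S₁}).card := by
      refine rk_le_rows' _ ?_
      intro w _
      rcases hTcl w with h | h
      · have h2 : (nb G w S₁).card ≤ 1 := by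
          refine (card_le_card ?_).trans h
          intro a ha
          rw [mem_nb] at ha ⊢
          exact ⟨hS₁T ha.1, ha.2⟩
        rcases Nat.lt_or_ge (nb G w S₁).card 1 with h3 | h3
        · left
          exact card_eq_zero.1 (by omega)
        · obtain ⟨s, hs⟩ := card_eq_one.1 (le_antisymm h2 h3)
          right; left
          rw [hs]
          refine mem_union_left _ (mem_image.2 ⟨s, mem_union_left _ ?_, rfl⟩)
          refine mem_filter.2 ⟨?_, w, hs⟩
          have : s ∈ nb G w S₁ := by rw [hs]; exact mem_singleton_self s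
          exact nb_sub this
      · have h2 : (S₁ \ nb G w S₁).card ≤ 1 := by
          refine (card_le_card ?_).trans h
          intro a ha
          rw [mem_sdiff, mem_nb] at ha ⊢
          exact ⟨hS₁T ha.1, fun h' => ha.2 ⟨ha.1, h'.2⟩⟩
        rcases Nat.lt_or_ge (S₁ \ nb G w S₁).card 1 with h3 | h3
        · have h4 : S₁ \ nb G w S₁ = ∅ := card_eq_zero.1 (by omega)
          have h5 : nb G w S₁ = S₁ := Subset.antisymm nb_sub (sdiff_eq_empty_iff_subset.1 h4)
          right; left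
          exact mem_union_right _ (mem_singleton.2 h5)
        · obtain ⟨s, hs⟩ := card_eq_one.1 (le_antisymm h2 h3)
          have hsS : s ∈ S₁ := by
            have : s ∈ S₁ \ nb G w S₁ := by rw [hs]; exact mem_singleton_self s
            exact (mem_sdiff.1 this).1
          have h4 : nb G w S₁ = S₁ \ {s} := by
            rw [← hs, sdiff_sdiff_right_self]
            exact (inter_eq_right.2 nb_sub).symm
          right; right
          refine ⟨S₁, mem_union_right _ (mem_singleton_self _), {s},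
            mem_union_left _ (mem_image.2 ⟨s, mem_union_right _ (mem_filter.2 ⟨hsS, w, h4⟩), rfl⟩), ?_⟩
          rw [h4]
          ext a
          rw [mem_symmDiff, mem_sdiff, mem_singleton]
          constructor
          · intro h; exact Or.inl h
          · rintro (h | ⟨rfl, h⟩)
            · exact h
            · exact absurd hsS h
    have h2 : ((ZT ∪ ZC).image (fun s => ({s} : Finset V)) ∪ {S₁}).card ≤ NT + NC + 1 := by
      refine (card_union_le _ _).trans ?_
      rw [card_singleton]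
      have h3 : ((ZT ∪ ZC).image (fun s => ({s} : Finset V))).card ≤ ZT.card + ZC.card :=
        card_image_le.trans (card_union_le _ _)
      omega
    show rk G S₁ S₁ᶜ ≤ _
    rw [rk_symm]
    exact h1.trans h2
  have hW := (hS.sub hTS) S₁
  have e1 : T ∩ S₁ = S₁ := inter_eq_right.2 hS₁T
  have e2 : (T \ S₁).card = c * (NT + NC + 2) + 1 := by
    rw [card_sdiff_of_subset hS₁T, hTc, hS₁c]; omega
  rw [e1, e2, hS₁c, min_self] at hW
  have h3 : c * (cut G S₁ + 1) ≤ c * (NT + NC + 2) := Nat.mul_le_mul_left _ (by omega)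
  omega

theorem bounded_dec : ∃ w : ℕ, 1 ≤ w ∧ ∀ (V : Type) [Fintype V] [DecidableEq V]
    (G : SimpleGraph V), Cls G → ∀ A : Finset V, A.Nonempty → cut G A ≤ w → Dec G w A := by
  obtain ⟨N, hN⟩ := no_WL 2
  refine ⟨N + 1, by omega, ?_⟩
  intro V _ _ G hG A hA hc
  exact dec_of_no_WL (by omega) (fun S hS => (hN V G hG S hS).trans (by omega)) A hA hc

theorem bounded_split : ∃ w : ℕ, 1 ≤ w ∧ ∀ (V : Type) [Fintype V] [DecidableEq V]
    (G : SimpleGraph V), Cls G → ∀ A : Finset V, 2 ≤ A.card → cut G A ≤ w →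
      ∃ A₁ A₂ : Finset V, A₁.Nonempty ∧ A₂.Nonempty ∧ Disjoint A₁ A₂ ∧ A₁ ∪ A₂ = A ∧
        cut G A₁ ≤ w ∧ cut G A₂ ≤ w := by
  obtain ⟨N, hN⟩ := no_WL 2
  refine ⟨N + 1, by omega, ?_⟩
  intro V _ _ G hG A hA hc
  exact exists_split (by omega) (fun S hS => (hN V G hG S hS).trans (by omega)) A hA hc

theorem bounded_cw : ∃ k : ℕ, ∀ (V : Type) [Fintype V] [Nonempty V] (G : SimpleGraph V),
    Cls G → CliqueWidthLE G k := by
  classical
  obtain ⟨w, _, hw⟩ := bounded_dec
  refine ⟨3 * 2 ^ w, ?_⟩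
  intro V _ _ G hG
  exact cw_of_dec G w (hw V G hG univ univ_nonempty (by rw [cut_univ]; exact Nat.zero_le _))

end GemCW
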