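import Pool.Agent.Lib.GemCW.Part
import Pool.Agent.Lib.GemCW.Dig

/-!
# Codes of partitions

Types are elements of `Fin Q`; `pos Q` numbers the sets of types.  For a labelling `τ : V → Fin Q` and
a multiset `Z` of sets, `pval b τ Z = ∑_{K ∈ Z} b ^ pos (τ(K))`; if `card Z < b` its base `b` digits
are the numbers of members of `Z` with given type set.  `TS H b τ A i`: some partition `Z` of `A` into
independent sets has `pval b τ Z = i`.

`pval_eq`: group the members of `Z` by their type set (`Finset.sum_multiset_map_count` or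
`Multiset.induction`).  `digits_unique`: reindex by `pos Q` and use `dg_sum`.  `digit_sum`, `pval_lt`: from
`pval_eq` (counts are at most `card Z < b`), `dg_sum`, `sum_dg_lt`, reindexing by `pos Q`;
the sum of all counts is `card Z`.
-/

namespace GemCW

open Finset

/-- numbering of the sets of types -/
noncomputable def pos (Q : ℕ) : Finset (Fin Q) ≃ Fin (2 ^ Q) :=
  Fintype.equivFinOfCardEq (by simp)

/-- weight of a set of types -/
noncomputable def wt (b : ℕ) {Q : ℕ} (S : Finset (Fin Q)) : ℕ := b ^ (pos Q S : ℕ)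

variable {V : Type*} [DecidableEq V]

/-- the code of a multiset of classes -/
noncomputable def pval (b : ℕ) {Q : ℕ} (τ : V → Fin Q) (Z : Multiset (Finset V)) : ℕ :=
  (Z.map (fun K => wt b (K.image τ))).sum

/-- achievable codes -/
def TS (H : SimpleGraph V) (b : ℕ) {Q : ℕ} (τ : V → Fin Q) (A : Finset V) (i : ℕ) : Prop :=
  ∃ Z, IsPart H A Z ∧ pval b τ Z = i

theorem TS_congr {H : SimpleGraph V} {b Q : ℕ} {τ τ' : V → Fin Q} {A : Finset V}
    (h : ∀ v ∈ A, τ v = τ' v) (i : ℕ) : TS H b τ A i ↔ TS H b τ' A i := by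
  have key : ∀ Z, IsPart H A Z → pval b τ Z = pval b τ' Z := by
    intro Z hZ
    unfold pval
    congr 1
    refine Multiset.map_congr rfl (fun K hK => ?_)
    congr 1
    exact Finset.image_congr (fun v hv => h v (hZ.sub hK hv))
  constructor
  · rintro ⟨Z, hZ, rfl⟩
    exact ⟨Z, hZ, (key Z hZ).symm⟩
  · rintro ⟨Z, hZ, rfl⟩
    exact ⟨Z, hZ, key Z hZ⟩

/-- reindexing of a sum over the sets of types -/
theorem Merge_reidx (b : ℕ) {Q : ℕ} (c : Finset (Fin Q) → ℕ) :
    ∑ S : Finset (Fin Q), c S * wt b S =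
      ∑ j : Fin (2 ^ Q), c ((pos Q).symm j) * b ^ (j : ℕ) := by
  refine Fintype.sum_equiv (pos Q) _ _ (fun S => ?_)
  unfold wt
  rw [Equiv.symm_apply_apply]

theorem Merge_pval_eq (b : ℕ) {Q : ℕ} (τ : V → Fin Q) (Z : Multiset (Finset V)) :
    pval b τ Z = ∑ S : Finset (Fin Q), (Z.map (fun K => K.image τ)).count S * wt b S := by
  unfold pval
  induction Z using Multiset.induction_on with
  | empty => simp
  | cons K Z ih =>
    rw [Multiset.map_cons, Multiset.sum_cons, ih, Multiset.map_cons]
    simp only [Multiset.count_cons, add_mul, Finset.sum_add_distrib]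
    rw [add_comm]
    congr 1
    simp

theorem Merge_count_lt {b Q : ℕ} (τ : V → Fin Q) (Z : Multiset (Finset V)) (hZ : Z.card < b)
    (S : Finset (Fin Q)) : (Z.map (fun K => K.image τ)).count S < b := by
  refine lt_of_le_of_lt (Multiset.count_le_card S _) ?_
  rw [Multiset.card_map]
  exact hZ

/-- the digit sum of a code is the number of classes -/
theorem digit_sum {b Q : ℕ} (τ : V → Fin Q) (Z : Multiset (Finset V)) (hZ : Z.card < b) :
    ∑ j : Fin (2 ^ Q), dg b (pval b τ Z) j = Z.card := by
  rw [Merge_pval_eq, Merge_reidx]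
  have h1 : ∀ j : Fin (2 ^ Q), dg b (∑ j : Fin (2 ^ Q),
      (Z.map (fun K => K.image τ)).count ((pos Q).symm j) * b ^ (j : ℕ)) j =
      (Z.map (fun K => K.image τ)).count ((pos Q).symm j) := fun j =>
    dg_sum (fun j => (Z.map (fun K => K.image τ)).count ((pos Q).symm j))
      (fun j => Merge_count_lt τ Z hZ _) j
  rw [Finset.sum_congr rfl (fun j _ => h1 j)]
  rw [Equiv.sum_comp (pos Q).symm (fun S => (Z.map (fun K => K.image τ)).count S)]
  rw [Multiset.sum_count_eq_card (fun a _ => Finset.mem_univ a), Multiset.card_map]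

/-- the digits of a code are the numbers of classes with given type set -/
theorem pval_eq (b : ℕ) {Q : ℕ} (τ : V → Fin Q) (Z : Multiset (Finset V)) :
    pval b τ Z = ∑ S : Finset (Fin Q), (Z.map (fun K => K.image τ)).count S * wt b S :=
  Merge_pval_eq b τ Z

/-- uniqueness of digits -/
theorem digits_unique {b Q : ℕ} {c c' : Finset (Fin Q) → ℕ} (hc : ∀ S, c S < b)
    (hc' : ∀ S, c' S < b) (h : ∑ S, c S * wt b S = ∑ S, c' S * wt b S) : c = c' := by
  funext S
  rw [Merge_reidx, Merge_reidx] at h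
  have h1 := dg_sum (fun j => c ((pos Q).symm j)) (fun j => hc _) (pos Q S)
  have h2 := dg_sum (fun j => c' ((pos Q).symm j)) (fun j => hc' _) (pos Q S)
  rw [h, h2] at h1
  simpa using h1.symm

theorem pval_lt {b Q : ℕ} (τ : V → Fin Q) (Z : Multiset (Finset V)) (hZ : Z.card < b) :
    pval b τ Z < b ^ (2 ^ Q) := by
  rw [pval_eq, Merge_reidx]
  exact sum_dg_lt (fun j => (Z.map (fun K => K.image τ)).count ((pos Q).symm j))
    (fun j => Merge_count_lt τ Z hZ _)

end GemCW
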