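import Pool.Agent.Lib.GemCW.Merge

/-!
# The merge step, from a partition of the union

Let `A = X ∪ Y` (disjoint), `A.card < b`, and suppose the adjacency of `u ∈ X` to `Y` and
its label `τ u` depend only on `τ1 u`, and the same for `Y`, `τ2`.  If `TS H b τ A i` then there is
`m : Finset (Fin Q) → Finset (Fin Q) → ℕ` with
 (i) `∑ m < b`; (ii) `m S1 S2 ≠ 0` implies that there is no edge between a vertex of `X` with type in `S1`
 and a vertex of `Y` with type in `S2`, and not `S1 = S2 = ∅`;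
 (iii) `TS H b τ1 X (∑_{S1 ≠ ∅, S2} m S1 S2 * b ^ pos S1)`, (iv) the same for `Y`,
 (v) `i = ∑ m S1 S2 * b ^ pos (FF S1 S2)`, where `FF S1 S2` is the set of all `τ u`, `u ∈ X` with
 `τ1 u ∈ S1` or `u ∈ Y` with `τ2 u ∈ S2`.

Proof.  Let `Z` be a partition of `A` with code `i`.  `m S1 S2` = number (`Multiset.countP`) of `K ∈ Z` with
`(K ∩ X).image τ1 = S1`, `(K ∩ Y).image τ2 = S2`.  (i) the sum is `card Z ≤ |A| < b`.  (ii) `K` is
independent: if `u ∈ X`, `v ∈ Y`, `τ1 u ∈ S1`, `τ2 v ∈ S2`, there are `u' ∈ K ∩ X`, `v' ∈ K ∩ Y` of the same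
types, `u' ≁ v'`, so `u ≁ v`.  `K ≠ ∅`.  (iii) `Z1` = the nonempty members of `Z.map (· ∩ X)`: the sum of its
members is `A.val.filter (· ∈ X) = X.val`.  (v) `K.image τ = FF S1 S2`.
-/

namespace GemCW

open Finset

variable {V : Type*} [DecidableEq V]

/-- Sum of a function of the two type sets over the members. -/
theorem MergeF_sum {Q : ℕ} (f1 f2 : Finset V → Finset (Fin Q)) (G : Finset (Fin Q) →
    Finset (Fin Q) → ℕ) (Z : Multiset (Finset V)) :
    (Z.map (fun K => G (f1 K) (f2 K))).sum =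
      ∑ S1, ∑ S2, (Z.map (fun K => (f1 K, f2 K))).count (S1, S2) * G S1 S2 := by
  induction Z using Multiset.induction_on with
  | empty => simp
  | cons K Z ih =>
    rw [Multiset.map_cons, Multiset.sum_cons, ih, Multiset.map_cons]
    simp only [Multiset.count_cons, add_mul, Finset.sum_add_distrib]
    rw [add_comm]
    congr 1
    rw [Finset.sum_eq_single (f1 K), Finset.sum_eq_single (f2 K)]
    · simp
    · intro S2 _ h2
      rw [if_neg, zero_mul]
      intro h
      exact h2 (Prod.mk.inj h).2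
    · intro h
      exact absurd (Finset.mem_univ _) h
    · intro S1 _ h1
      refine Finset.sum_eq_zero (fun S2 _ => ?_)
      rw [if_neg, zero_mul]
      intro h
      exact h1 (Prod.mk.inj h).1
    · intro h
      exact absurd (Finset.mem_univ _) h

theorem MergeF_nonempty {β : Type*} [AddCommMonoid β] (F : Finset V → β) (hF : F ∅ = 0)
    (Z : Multiset (Finset V)) :
    ((Z.filter (fun K => K.Nonempty)).map F).sum = (Z.map F).sum := by
  induction Z using Multiset.induction_on with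
  | empty => simp
  | cons K Z ih =>
    by_cases hK : K.Nonempty
    · rw [Multiset.filter_cons_of_pos (p := fun K : Finset V => K.Nonempty) _ hK, Multiset.map_cons,
        Multiset.map_cons, Multiset.sum_cons, Multiset.sum_cons, ih]
    · rw [Multiset.filter_cons_of_neg (p := fun K : Finset V => K.Nonempty) _ hK, Multiset.map_cons,
        Multiset.sum_cons, ih, Finset.not_nonempty_iff_eq_empty.1 hK, hF, zero_add]

theorem MergeF_inter (X : Finset V) (Z : Multiset (Finset V)) :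
    (Z.map (fun K => (K ∩ X).val)).sum = (Z.map Finset.val).sum.filter (fun v => v ∈ X) := by
  induction Z using Multiset.induction_on with
  | empty => simp
  | cons K Z ih =>
    rw [Multiset.map_cons, Multiset.map_cons, Multiset.sum_cons, Multiset.sum_cons, ih,
      Multiset.filter_add, ← Finset.filter_mem_eq_inter, Finset.filter_val]

/-- The trace of a partition on a subset. -/
theorem MergeF_part {H : SimpleGraph V} {A X : Finset V} (hX : X ⊆ A) {Z : Multiset (Finset V)}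
    (hZ : IsPart H A Z) :
    IsPart H X ((Z.map (fun K => K ∩ X)).filter (fun K => K.Nonempty)) := by
  constructor
  · intro K hK
    obtain ⟨hK1, hK2⟩ := Multiset.mem_filter.1 hK
    obtain ⟨L, hL, rfl⟩ := Multiset.mem_map.1 hK1
    exact ⟨hK2, (hZ.1 L hL).2.sub Finset.inter_subset_left⟩
  · rw [MergeF_nonempty Finset.val rfl, Multiset.map_map]
    have h1 := MergeF_inter X Z
    have h2 : (Finset.val ∘ fun K : Finset V => K ∩ X) = fun K => (K ∩ X).val := rfl
    rw [h2, h1, hZ.2, ← Finset.filter_val, Finset.filter_mem_eq_inter,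
      Finset.inter_eq_right.2 hX]

theorem MergeF_code {b Q : ℕ} (τ1 : V → Fin Q) (X : Finset V) (Z : Multiset (Finset V)) :
    pval b τ1 ((Z.map (fun K => K ∩ X)).filter (fun K => K.Nonempty)) =
      (Z.map (fun K => if (K ∩ X).image τ1 = ∅ then 0 else wt b ((K ∩ X).image τ1))).sum := by
  have h1 : pval b τ1 ((Z.map (fun K => K ∩ X)).filter (fun K => K.Nonempty)) =
      (((Z.map (fun K => K ∩ X)).filter (fun K => K.Nonempty)).map
        (fun K => if K.image τ1 = ∅ then 0 else wt b (K.image τ1))).sum := by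
    unfold pval
    congr 1
    refine Multiset.map_congr rfl (fun K hK => ?_)
    have hK2 := (Multiset.mem_filter.1 hK).2
    rw [if_neg]
    exact (hK2.image τ1).ne_empty
  rw [h1, MergeF_nonempty (fun K => if K.image τ1 = ∅ then 0 else wt b (K.image τ1)) (by simp),
    Multiset.map_map]
  rfl

theorem merge_fwd (H : SimpleGraph V) {A X Y : Finset V} (hXY : Disjoint X Y) (hA : X ∪ Y = A)
    {b : ℕ} (hb : A.card < b) {Q : ℕ} (τ τ1 τ2 : V → Fin Q)
    (h1 : ∀ u ∈ X, ∀ u' ∈ X, τ1 u = τ1 u' →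
      (∀ v ∈ Y, H.Adj u v ↔ H.Adj u' v) ∧ τ u = τ u')
    (h2 : ∀ v ∈ Y, ∀ v' ∈ Y, τ2 v = τ2 v' →
      (∀ u ∈ X, H.Adj u v ↔ H.Adj u v') ∧ τ v = τ v') (i : ℕ) 
    (h : TS H b τ A i) : ∃ m : Finset (Fin Q) → Finset (Fin Q) → ℕ,
      (∑ S1, ∑ S2, m S1 S2 < b) ∧
      (∀ S1 S2, m S1 S2 ≠ 0 → (∀ u ∈ X, ∀ v ∈ Y, τ1 u ∈ S1 → τ2 v ∈ S2 → ¬ H.Adj u v) ∧
        ¬ (S1 = ∅ ∧ S2 = ∅)) ∧
      TS H b τ1 X (∑ S1, ∑ S2, if S1 = ∅ then 0 else m S1 S2 * wt b S1) ∧
      TS H b τ2 Y (∑ S1, ∑ S2, if S2 = ∅ then 0 else m S1 S2 * wt b S2) ∧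
      i = ∑ S1, ∑ S2, m S1 S2 * wt b ((X.filter (fun u => τ1 u ∈ S1)).image τ ∪
        (Y.filter (fun u => τ2 u ∈ S2)).image τ) := by
  obtain ⟨Z, hZ, hi⟩ := h
  have hXA : X ⊆ A := hA ▸ Finset.subset_union_left
  have hYA : Y ⊆ A := hA ▸ Finset.subset_union_right
  set f1 : Finset V → Finset (Fin Q) := fun K => (K ∩ X).image τ1 with hf1
  set f2 : Finset V → Finset (Fin Q) := fun K => (K ∩ Y).image τ2 with hf2
  refine ⟨fun S1 S2 => (Z.map (fun K => (f1 K, f2 K))).count (S1, S2), ?_, ?_, ?_, ?_, ?_⟩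
  · have h3 := MergeF_sum f1 f2 (fun _ _ => 1) Z
    simp only [mul_one, Multiset.map_const', Multiset.sum_replicate, smul_eq_mul] at h3
    rw [← h3]
    exact lt_of_le_of_lt hZ.card_le hb
  · intro S1 S2 hm
    have hmem : (S1, S2) ∈ Z.map (fun K => (f1 K, f2 K)) := by
      rw [← Multiset.one_le_count_iff_mem]
      exact Nat.one_le_iff_ne_zero.2 hm
    obtain ⟨K, hK, hKe⟩ := Multiset.mem_map.1 hmem
    obtain ⟨e1, e2⟩ := Prod.mk.inj hKe
    obtain ⟨hKne, hKi⟩ := hZ.1 K hK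
    constructor
    · intro u hu v hv hu1 hv2 huv
      rw [← e1, hf1] at hu1
      rw [← e2, hf2] at hv2
      obtain ⟨u', hu', hue⟩ := Finset.mem_image.1 hu1
      obtain ⟨v', hv', hve⟩ := Finset.mem_image.1 hv2
      rw [Finset.mem_inter] at hu' hv'
      have h3 := ((h1 u hu u' hu'.2 hue.symm).1 v hv).1 huv
      have h4 := ((h2 v hv v' hv'.2 hve.symm).1 u' hu'.2).1 h3
      exact hKi u' hu'.1 v' hv'.1 h4
    · rintro ⟨rfl, rfl⟩
      obtain ⟨x, hx⟩ := hKne
      have hxA : x ∈ X ∪ Y := hA ▸ hZ.sub hK hx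
      rcases Finset.mem_union.1 hxA with hxX | hxY
      · have : τ1 x ∈ f1 K := Finset.mem_image_of_mem τ1 (Finset.mem_inter.2 ⟨hx, hxX⟩)
        rw [e1] at this
        exact absurd this (Finset.notMem_empty _)
      · have : τ2 x ∈ f2 K := Finset.mem_image_of_mem τ2 (Finset.mem_inter.2 ⟨hx, hxY⟩)
        rw [e2] at this
        exact absurd this (Finset.notMem_empty _)
  · refine ⟨_, MergeF_part hXA hZ, ?_⟩
    rw [MergeF_code]
    have h3 := MergeF_sum f1 f2 (fun S1 _ => if S1 = ∅ then 0 else wt b S1) Z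
    refine h3.trans ?_
    refine Finset.sum_congr rfl (fun S1 _ => Finset.sum_congr rfl (fun S2 _ => ?_))
    by_cases hS : S1 = ∅
    · rw [if_pos hS, if_pos hS, mul_zero]
    · rw [if_neg hS, if_neg hS]
  · refine ⟨_, MergeF_part hYA hZ, ?_⟩
    rw [MergeF_code]
    have h3 := MergeF_sum f1 f2 (fun _ S2 => if S2 = ∅ then 0 else wt b S2) Z
    refine h3.trans ?_
    refine Finset.sum_congr rfl (fun S1 _ => Finset.sum_congr rfl (fun S2 _ => ?_))
    by_cases hS : S2 = ∅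
    · rw [if_pos hS, if_pos hS, mul_zero]
    · rw [if_neg hS, if_neg hS]
  · rw [← hi]
    have h3 := MergeF_sum f1 f2 (fun S1 S2 => wt b ((X.filter (fun u => τ1 u ∈ S1)).image τ ∪
        (Y.filter (fun u => τ2 u ∈ S2)).image τ)) Z
    refine Eq.trans ?_ h3
    unfold pval
    congr 1
    refine Multiset.map_congr rfl (fun K hK => ?_)
    congr 1
    ext t
    simp only [Finset.mem_image, Finset.mem_union, Finset.mem_filter, hf1, hf2, Finset.mem_inter]
    constructor
    · rintro ⟨x, hx, rfl⟩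
      have hxA : x ∈ X ∪ Y := hA ▸ hZ.sub hK hx
      rcases Finset.mem_union.1 hxA with hxX | hxY
      · exact Or.inl ⟨x, ⟨hxX, x, ⟨hx, hxX⟩, rfl⟩, rfl⟩
      · exact Or.inr ⟨x, ⟨hxY, x, ⟨hx, hxY⟩, rfl⟩, rfl⟩
    · rintro (⟨u, ⟨hu, u', ⟨hu'K, hu'X⟩, hue⟩, rfl⟩ | ⟨u, ⟨hu, u', ⟨hu'K, hu'Y⟩, hue⟩, rfl⟩)
      · exact ⟨u', hu'K, ((h1 u hu u' hu'X hue.symm).2).symm⟩
      · exact ⟨u', hu'K, ((h2 u hu u' hu'Y hue.symm).2).symm⟩

end GemCW
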