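import Pool.Agent.Lib.GemCW.TauSpec

/-!
# The concrete merge formula is correct
-/

namespace GemCW

open Finset

theorem compatB_iff {W n : ℕ} {h X Y : List Bool} (hX : cut (CG n h) (toS n X) ≤ W)
    (hY : cut (CG n h) (toS n Y) ≤ W) (S1 S2 : Finset (Fin (2 ^ W))) :
    compatB S1 S2 n h X Y = true ↔ ∀ u ∈ toS n X, ∀ v ∈ toS n Y,
      tauS W n h (toS n X) u ∈ S1 → tauS W n h (toS n Y) v ∈ S2 → ¬ (HG n h).Adj u v := by
  unfold compatB
  rw [allB_iff]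
  constructor
  · intro H u hu v hv h1 h2 hadj
    have h3 := H u u.2
    rw [allB_iff] at h3
    have h4 := h3 v v.2
    rw [← tinB_iff hX hu] at h1
    rw [← tinB_iff hY hv] at h2
    rw [HG_adj] at hadj
    rw [mem_toS] at hu hv
    rw [hu, hv, h1, h2, hadj] at h4
    exact absurd h4 (by decide)
  · intro H u hu
    rw [allB_iff]
    intro v hv
    by_cases hu' : X.getD u false = true
    · by_cases hv' : Y.getD v false = true
      · by_cases h1 : tinB S1 n h X u = true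
        · by_cases h2 : tinB S2 n h Y v = true
          · have huX : (⟨u, hu⟩ : Fin n) ∈ toS n X := mem_toS.2 hu'
            have hvY : (⟨v, hv⟩ : Fin n) ∈ toS n Y := mem_toS.2 hv'
            have := H ⟨u, hu⟩ huX ⟨v, hv⟩ hvY ((tinB_iff hX huX S1).1 h1) ((tinB_iff hY hvY S2).1 h2)
            rw [HG_adj, Bool.not_eq_true] at this
            simp only at this
            rw [this]; simp
          · rw [Bool.not_eq_true] at h2
            rw [h2]; simp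
        · rw [Bool.not_eq_true] at h1
          rw [h1]; simp
      · rw [Bool.not_eq_true] at hv'
        rw [hv']; simp
    · rw [Bool.not_eq_true] at hu'
      rw [hu']; simp

theorem ffB_iff {W n : ℕ} {h A X Y : List Bool}
    (hA : cut (CG n h) (toS n A) ≤ W) (hX : cut (CG n h) (toS n X) ≤ W)
    (hY : cut (CG n h) (toS n Y) ≤ W) (hu : toS n X ∪ toS n Y = toS n A)
    (S1 S2 S : Finset (Fin (2 ^ W))) :
    ffB S1 S2 S n h A X Y = true ↔
      S = ((toS n X).filter (fun u => tauS W n h (toS n X) u ∈ S1)).image (tauS W n h (toS n A)) ∪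
        ((toS n Y).filter (fun u => tauS W n h (toS n Y) u ∈ S2)).image (tauS W n h (toS n A)) := by
  unfold ffB
  rw [allF_iff, Finset.ext_iff]
  refine forall_congr' fun t => ?_
  rw [beq_iff_eq, Bool.eq_iff_iff, decide_eq_true_eq, exB_iff]
  refine iff_congr Iff.rfl ?_
  have hXA : toS n X ⊆ toS n A := by rw [← hu]; exact subset_union_left
  have hYA : toS n Y ⊆ toS n A := by rw [← hu]; exact subset_union_right
  rw [mem_union, mem_image, mem_image]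
  constructor
  · rintro ⟨u, hun, h1⟩
    rw [Bool.and_eq_true, Bool.or_eq_true, Bool.and_eq_true, Bool.and_eq_true, decide_eq_true_eq] at h1
    obtain ⟨h1, h2⟩ := h1
    rcases h1 with ⟨h1, h3⟩ | ⟨h1, h3⟩
    · left
      have huX : (⟨u, hun⟩ : Fin n) ∈ toS n X := mem_toS.2 h1
      refine ⟨⟨u, hun⟩, mem_filter.2 ⟨huX, (tinB_iff hX huX S1).1 h3⟩, ?_⟩
      apply Fin.ext
      rw [tauS_val hA (hXA huX)]
      exact h2
    · right
      have huY : (⟨u, hun⟩ : Fin n) ∈ toS n Y := mem_toS.2 h1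
      refine ⟨⟨u, hun⟩, mem_filter.2 ⟨huY, (tinB_iff hY huY S2).1 h3⟩, ?_⟩
      apply Fin.ext
      rw [tauS_val hA (hYA huY)]
      exact h2
  · rintro (⟨u, hu1, hu2⟩ | ⟨u, hu1, hu2⟩)
    · rw [mem_filter] at hu1
      refine ⟨u, u.2, ?_⟩
      rw [Bool.and_eq_true, Bool.or_eq_true, Bool.and_eq_true, decide_eq_true_eq]
      refine ⟨Or.inl ⟨mem_toS.1 hu1.1, (tinB_iff hX hu1.1 S1).2 hu1.2⟩, ?_⟩
      rw [← tauS_val hA (hXA hu1.1), hu2]
    · rw [mem_filter] at hu1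
      refine ⟨u, u.2, ?_⟩
      rw [Bool.and_eq_true, Bool.or_eq_true, Bool.and_eq_true, Bool.and_eq_true, decide_eq_true_eq]
      refine ⟨Or.inr ⟨mem_toS.1 hu1.1, (tinB_iff hY hu1.1 S2).2 hu1.2⟩, ?_⟩
      rw [← tauS_val hA (hYA hu1.1), hu2]

/-- codes are small -/
theorem mergeS_code_lt {b Q : ℕ} (c : Finset (Fin Q) → ℕ) (h : ∀ S, c S < b) :
    ∑ S, c S * wt b S < b ^ 2 ^ Q := by
  have h1 : ∑ S, c S * wt b S = ∑ j : Fin (2 ^ Q), c ((pos Q).symm j) * b ^ (j : ℕ) := by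
    rw [← (pos Q).sum_comp]
    refine Finset.sum_congr rfl fun S _ => ?_
    rw [Equiv.symm_apply_apply]
    rfl
  rw [h1]
  exact sum_dg_lt _ fun k => h _

theorem mergeS_code1_lt {n Q : ℕ} (m : Finset (Fin Q) → Finset (Fin Q) → ℕ)
    (h : ∑ S1, ∑ S2, m S1 S2 ≤ n) :
    ∑ S1, ∑ S2, (if S1 = ∅ then 0 else m S1 S2 * wt (n + 1) S1) < (n + 1) ^ 2 ^ Q := by
  have h1 : ∑ S1, ∑ S2, (if S1 = ∅ then 0 else m S1 S2 * wt (n + 1) S1) =
      ∑ S1, (if S1 = ∅ then 0 else ∑ S2, m S1 S2) * wt (n + 1) S1 := by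
    refine Finset.sum_congr rfl fun S1 _ => ?_
    split_ifs with h0
    · simp
    · rw [Finset.sum_mul]
  rw [h1]
  refine mergeS_code_lt _ fun S1 => ?_
  have h2 : ∑ S2, m S1 S2 ≤ ∑ S1, ∑ S2, m S1 S2 :=
    Finset.single_le_sum (f := fun S1 => ∑ S2, m S1 S2) (fun _ _ => Nat.zero_le _) (mem_univ S1)
  split_ifs <;> omega

theorem mergeS_code2_lt {n Q : ℕ} (m : Finset (Fin Q) → Finset (Fin Q) → ℕ)
    (h : ∑ S1, ∑ S2, m S1 S2 ≤ n) :
    ∑ S1, ∑ S2, (if S2 = ∅ then 0 else m S1 S2 * wt (n + 1) S2) < (n + 1) ^ 2 ^ Q := by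
  rw [Finset.sum_comm] at h ⊢
  exact mergeS_code1_lt (fun S2 S1 => m S1 S2) h

/-- all small families of numbers are coded -/
theorem exists_mB {n Q : ℕ} (m : Finset (Fin Q) → Finset (Fin Q) → ℕ)
    (h : ∀ S1 S2, m S1 S2 < n + 1) :
    ∃ μ < (n + 1) ^ (2 ^ Q * 2 ^ Q), ∀ S1 S2, mB n μ S1 S2 = m S1 S2 := by
  have hQ : 0 < 2 ^ Q := by positivity
  set c : Fin (2 ^ Q * 2 ^ Q) → ℕ := fun k =>
    m ((pos Q).symm ⟨(k : ℕ) / 2 ^ Q, Nat.div_lt_of_lt_mul k.2⟩)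
      ((pos Q).symm ⟨(k : ℕ) % 2 ^ Q, Nat.mod_lt _ hQ⟩) with hc
  obtain ⟨μ, hμ, hd⟩ := exists_dg (b := n + 1) c fun k => h _ _
  refine ⟨μ, hμ, fun S1 S2 => ?_⟩
  unfold mB
  have h1 : (pos Q S1 : ℕ) < 2 ^ Q := (pos Q S1).2
  have h2 : (pos Q S2 : ℕ) < 2 ^ Q := (pos Q S2).2
  have hlt : (pos Q S1 : ℕ) * 2 ^ Q + (pos Q S2 : ℕ) < 2 ^ Q * 2 ^ Q := by
    calc (pos Q S1 : ℕ) * 2 ^ Q + (pos Q S2 : ℕ) < (pos Q S1 : ℕ) * 2 ^ Q + 2 ^ Q := by omega
      _ = ((pos Q S1 : ℕ) + 1) * 2 ^ Q := by ring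
      _ ≤ 2 ^ Q * 2 ^ Q := Nat.mul_le_mul_right _ h1
  have h3 := hd ⟨_, hlt⟩
  simp only at h3
  rw [h3]
  simp only [hc]
  have e1 : ((pos Q S1 : ℕ) * 2 ^ Q + (pos Q S2 : ℕ)) / 2 ^ Q = (pos Q S1 : ℕ) := by
    rw [Nat.add_comm, Nat.add_mul_div_right _ _ hQ, Nat.div_eq_of_lt h2, zero_add]
  have e2 : ((pos Q S1 : ℕ) * 2 ^ Q + (pos Q S2 : ℕ)) % 2 ^ Q = (pos Q S2 : ℕ) := by
    rw [Nat.add_comm, Nat.add_mul_mod_self_right, Nat.mod_eq_of_lt h2]
  have f1 : (pos Q).symm ⟨((pos Q S1 : ℕ) * 2 ^ Q + (pos Q S2 : ℕ)) / 2 ^ Q,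
      Nat.div_lt_of_lt_mul hlt⟩ = S1 := by
    rw [Equiv.symm_apply_eq]
    apply Fin.ext
    exact e1
  have f2 : (pos Q).symm ⟨((pos Q S1 : ℕ) * 2 ^ Q + (pos Q S2 : ℕ)) % 2 ^ Q,
      Nat.mod_lt _ hQ⟩ = S2 := by
    rw [Equiv.symm_apply_eq]
    apply Fin.ext
    exact e2
  rw [f1, f2]

theorem mergeB_spec {W n : ℕ} {h A X Y Wl : List Bool} {x1 x2 i : ℕ}
    (hA : cut (CG n h) (toS n A) ≤ W) (hX : cut (CG n h) (toS n X) ≤ W)
    (hY : cut (CG n h) (toS n Y) ≤ W) (hd : Disjoint (toS n X) (toS n Y))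
    (hu : toS n X ∪ toS n Y = toS n A)
    (hT1 : ∀ j < (n + 1) ^ 2 ^ 2 ^ W, Wl.getD (x1 * (n + 1) ^ 2 ^ 2 ^ W + j) false = true ↔
      TS (HG n h) (n + 1) (tauS W n h (toS n X)) (toS n X) j)
    (hT2 : ∀ j < (n + 1) ^ 2 ^ 2 ^ W, Wl.getD (x2 * (n + 1) ^ 2 ^ 2 ^ W + j) false = true ↔
      TS (HG n h) (n + 1) (tauS W n h (toS n Y)) (toS n Y) j) :
    mergeB (2 ^ W) n h A X Y Wl x1 x2 i = true ↔
      TS (HG n h) (n + 1) (tauS W n h (toS n A)) (toS n A) i := by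
  have hXA : toS n X ⊆ toS n A := by rw [← hu]; exact subset_union_left
  have hYA : toS n Y ⊆ toS n A := by rw [← hu]; exact subset_union_right
  have hdis : ∀ {z}, z ∈ toS n X → z ∈ toS n Y → False := fun h1 h2 => Finset.disjoint_left.1 hd h1 h2
  have hcard : (toS n A).card < n + 1 := by
    have := Finset.card_le_univ (toS n A)
    rw [Fintype.card_fin] at this
    omega
  rw [merge_iff (HG n h) hd hu hcard (tauS W n h (toS n A)) (tauS W n h (toS n X))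
    (tauS W n h (toS n Y))
    (fun u hu1 u' hu2 he => by
      rw [tauS_eq_iff hX hu1 hu2] at he
      refine ⟨fun v hv => he v fun hc => hdis hc hv, ?_⟩
      rw [tauS_eq_iff hA (hXA hu1) (hXA hu2)]
      exact fun z hz => he z fun hc => hz (hXA hc))
    (fun v hv1 v' hv2 he => by
      rw [tauS_eq_iff hY hv1 hv2] at he
      refine ⟨fun u hu => ?_, ?_⟩
      · have := he u fun hc => hdis hu hc
        rw [(HG n h).adj_comm u v, (HG n h).adj_comm u v']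
        exact this
      · rw [tauS_eq_iff hA (hYA hv1) (hYA hv2)]
        exact fun z hz => he z fun hc => hz (hYA hc)) i]
  -- the body of the formula
  have hbody : ∀ (μ : ℕ) (m : Finset (Fin (2 ^ W)) → Finset (Fin (2 ^ W)) → ℕ),
      (∀ S1 S2, mB n μ S1 S2 = m S1 S2) →
      ((decide (∑ S1 : Finset (Fin (2 ^ W)), ∑ S2 : Finset (Fin (2 ^ W)), mB n μ S1 S2 ≤ n) &&
    (allF (fun S : Finset (Fin (2 ^ W)) × Finset (Fin (2 ^ W)) => decide (mB n μ S.1 S.2 = 0) ||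
      (compatB S.1 S.2 n h X Y && !(decide (S.1 = ∅) && decide (S.2 = ∅)))) &&
    (Wl.getD (x1 * (n + 1) ^ 2 ^ (2 ^ W) + ∑ S1 : Finset (Fin (2 ^ W)), ∑ S2 : Finset (Fin (2 ^ W)),
      if S1 = ∅ then 0 else mB n μ S1 S2 * wt (n + 1) S1) false &&
    (Wl.getD (x2 * (n + 1) ^ 2 ^ (2 ^ W) + ∑ S1 : Finset (Fin (2 ^ W)), ∑ S2 : Finset (Fin (2 ^ W)),
      if S2 = ∅ then 0 else mB n μ S1 S2 * wt (n + 1) S2) false &&
    decide (i = ∑ S1 : Finset (Fin (2 ^ W)), ∑ S2 : Finset (Fin (2 ^ W)), ∑ S : Finset (Fin (2 ^ W)),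
      if ffB S1 S2 S n h A X Y = true then mB n μ S1 S2 * wt (n + 1) S else 0))))) = true ↔
      ((∑ S1, ∑ S2, m S1 S2 < n + 1) ∧
      (∀ S1 S2, m S1 S2 ≠ 0 → (∀ u ∈ toS n X, ∀ v ∈ toS n Y, tauS W n h (toS n X) u ∈ S1 →
        tauS W n h (toS n Y) v ∈ S2 → ¬ (HG n h).Adj u v) ∧
        ¬ (S1 = ∅ ∧ S2 = ∅)) ∧
      TS (HG n h) (n + 1) (tauS W n h (toS n X)) (toS n X)
        (∑ S1, ∑ S2, if S1 = ∅ then 0 else m S1 S2 * wt (n + 1) S1) ∧
      TS (HG n h) (n + 1) (tauS W n h (toS n Y)) (toS n Y)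
        (∑ S1, ∑ S2, if S2 = ∅ then 0 else m S1 S2 * wt (n + 1) S2) ∧
      i = ∑ S1, ∑ S2, m S1 S2 * wt (n + 1)
        (((toS n X).filter (fun u => tauS W n h (toS n X) u ∈ S1)).image (tauS W n h (toS n A)) ∪
        ((toS n Y).filter (fun u => tauS W n h (toS n Y) u ∈ S2)).image (tauS W n h (toS n A))))) := by
    intro μ m hm
    simp only [hm]
    rw [Bool.and_eq_true, Bool.and_eq_true, Bool.and_eq_true, Bool.and_eq_true, decide_eq_true_eq,
      decide_eq_true_eq, ← Nat.lt_succ_iff]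
    refine and_congr_right fun hsum => ?_
    have hsum' : ∑ S1, ∑ S2, m S1 S2 ≤ n := Nat.lt_succ_iff.1 hsum
    refine and_congr ?_ (and_congr (hT1 _ (mergeS_code1_lt m hsum'))
      (and_congr (hT2 _ (mergeS_code2_lt m hsum')) ?_))
    · rw [allF_iff]
      constructor
      · intro H S1 S2 hne
        have h1 := H (S1, S2)
        simp only at h1
        rw [Bool.or_eq_true, decide_eq_true_eq, Bool.and_eq_true, Bool.not_eq_true',
          Bool.and_eq_false_iff, decide_eq_false_iff_not, decide_eq_false_iff_not] at h1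
        rcases h1 with h1 | ⟨h1, h2⟩
        · exact absurd h1 hne
        · refine ⟨(compatB_iff hX hY S1 S2).1 h1, ?_⟩
          rintro ⟨h3, h4⟩
          rcases h2 with h2 | h2
          · exact h2 h3
          · exact h2 h4
      · rintro H ⟨S1, S2⟩
        simp only
        rw [Bool.or_eq_true, decide_eq_true_eq, Bool.and_eq_true, Bool.not_eq_true',
          Bool.and_eq_false_iff, decide_eq_false_iff_not, decide_eq_false_iff_not]
        by_cases h0 : m S1 S2 = 0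
        · left; exact h0
        · right
          obtain ⟨h1, h2⟩ := H S1 S2 h0
          exact ⟨(compatB_iff hX hY S1 S2).2 h1, not_and_or.1 h2⟩
    · have h1 : ∀ S1 S2 : Finset (Fin (2 ^ W)),
          (∑ S : Finset (Fin (2 ^ W)), if ffB S1 S2 S n h A X Y = true then m S1 S2 * wt (n + 1) S else 0) =
          m S1 S2 * wt (n + 1)
          (((toS n X).filter (fun u => tauS W n h (toS n X) u ∈ S1)).image (tauS W n h (toS n A)) ∪
          ((toS n Y).filter (fun u => tauS W n h (toS n Y) u ∈ S2)).image (tauS W n h (toS n A))) := by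
        intro S1 S2
        simp only [ffB_iff hA hX hY hu]
        rw [Finset.sum_ite_eq' univ]
        simp
      simp only [h1]
  unfold mergeB
  rw [exB_iff]
  constructor
  · rintro ⟨μ, _, hμ⟩
    exact ⟨mB n μ, (hbody μ (mB n μ) fun _ _ => rfl).1 hμ⟩
  · rintro ⟨m, hm⟩
    have hlt : ∀ S1 S2, m S1 S2 < n + 1 := by
      intro S1 S2
      refine lt_of_le_of_lt ?_ hm.1
      calc m S1 S2 ≤ ∑ S2, m S1 S2 :=
            Finset.single_le_sum (f := fun S2 => m S1 S2) (fun _ _ => Nat.zero_le _) (mem_univ S2)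
        _ ≤ ∑ S1, ∑ S2, m S1 S2 :=
            Finset.single_le_sum (f := fun S1 => ∑ S2, m S1 S2) (fun _ _ => Nat.zero_le _) (mem_univ S1)
    obtain ⟨μ, hμ, hmB⟩ := exists_mB m hlt
    exact ⟨μ, hμ, (hbody μ m hmB).2 hm⟩

end GemCW
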