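import Pool.Agent.Lib.PolyTime.Comb
import Pool.Agent.Lib.Pa698a1.Defs

/-!
# A `Primrec`-style interface to polynomial time

`Ctx α`: a parameter type `α` with a list of observable bit strings.  `PC f`, `PN f`, `PB f`: the
function `f` on `α` with values in `List Bool`, `ℕ` (unary), `Bool` is computable in polynomial time
(in the framework `Pool.Agent.Lib.PolyTime`, with domain `True` and context `Ctx.ctx`).
All lemmas are thin wrappers of `PolyTime.Basic` / `PolyTime.Comb`; look at
`Pool/Agent/Lib/Pa698a1/Algo.lean` for typical uses.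

Hints.
* `substN` (substitution of a number for the last variable) is `PolyC.comp` after `PolyC.reindex`:
  reindex along `π a = (a, k a)`: the context of `α × ℕ` becomes `(lift ctx ++ [un ∘ snd]) ∘ π`, all of
  whose members are computable from `ctx`.
* `iter`: `PolyC.natRec` with `F a k = iterS (f₀ a) (s a) k`; the step is `hs` after the substitution of
  `F p.1 p.2` for the last (list) variable: reindex along `π p = (p, F p.1 p.2)`; the bound
  comes from `hm : PN m` (`PolyC.length_le`).
* `mu`: the least `i < n` with `φ i`, or `n`: it is the length of the leading block of `true`s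
  of the table of `!φ i` (`map_range`, `takeTrue`, `PolyN.length`).
* `cnt`: recursion (`PolyC.natRec` with unary values bounded by `n`).
* `sub`: `un (m - k)` is `(un m).drop k`.  `div`: `mu (x+1) (fun i => x < (i+1) * d)` for `d > 0`
  (`x / 0 = 0`).  `mod`: `x - d * (x / d)`.  `pow`: induction on the exponent.
-/

namespace GemCW

open Pool.Agent.Lib.PolyTime

/-- parameter types with a list of observable bit strings -/
class Ctx (α : Type) where
  ctx : List (α → List Bool)

instance : Ctx (List Bool) := ⟨[id]⟩

instance instCtxNat {α : Type} [Ctx α] : Ctx (α × ℕ) :=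
  ⟨Pool.Agent.Lib.PolyTime.lift Ctx.ctx ++ [fun p => un p.2]⟩

instance instCtxList {α : Type} [Ctx α] : Ctx (α × List Bool) :=
  ⟨Pool.Agent.Lib.PolyTime.lift Ctx.ctx ++ [fun p => p.2]⟩

/-- iteration with a counter -/
def iterS (x : List Bool) (s : ℕ → List Bool → List Bool) : ℕ → List Bool
  | 0 => x
  | k + 1 => s k (iterS x s k)

/-- bounded existential quantifier -/
def exB (n : ℕ) (φ : ℕ → Bool) : Bool := (List.range n).any φ

/-- bounded universal quantifier -/
def allB (n : ℕ) (φ : ℕ → Bool) : Bool := (List.range n).all φ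

/-- the least `i < n` with `φ i`, or `n` if there is none -/
def mu (n : ℕ) (φ : ℕ → Bool) : ℕ := ((List.range n).takeWhile (fun i => !φ i)).length

/-- the number of `i < n` with `φ i` -/
def cnt (n : ℕ) (φ : ℕ → Bool) : ℕ := (List.range n).countP φ

/-- bit table -/
def tab (n : ℕ) (φ : ℕ → Bool) : List Bool := (List.range n).map φ

open Classical in
/-- existential quantifier over a fixed finite type -/
noncomputable def exF {ι : Type} (φ : ι → Bool) : Bool := decide (∃ i, φ i = true)

open Classical in
/-- universal quantifier over a fixed finite type -/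
noncomputable def allF {ι : Type} (φ : ι → Bool) : Bool := decide (∀ i, φ i = true)

@[simp] theorem exB_iff {n : ℕ} {φ : ℕ → Bool} : exB n φ = true ↔ ∃ i < n, φ i = true := by
  simp [exB]

@[simp] theorem allB_iff {n : ℕ} {φ : ℕ → Bool} : allB n φ = true ↔ ∀ i < n, φ i = true := by
  simp [allB]

@[simp] theorem exF_iff {ι : Type} {φ : ι → Bool} : exF φ = true ↔ ∃ i, φ i = true := by
  simp [exF]

@[simp] theorem allF_iff {ι : Type} {φ : ι → Bool} : allF φ = true ↔ ∀ i, φ i = true := by
  simp [allF]

@[simp] theorem tab_length (n : ℕ) (φ : ℕ → Bool) : (tab n φ).length = n := by simp [tab]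

theorem tab_getD {n i : ℕ} {φ : ℕ → Bool} (h : i < n) : (tab n φ).getD i false = φ i := by
  simp [tab, h]

theorem mu_le (n : ℕ) (φ : ℕ → Bool) : mu n φ ≤ n := by
  unfold mu
  have h := (List.takeWhile_prefix (fun i => !φ i) (l := List.range n)).length_le
  simpa using h

theorem mu_min {n : ℕ} {φ : ℕ → Bool} {i : ℕ} (h : i < mu n φ) : φ i = false := by
  unfold mu at h
  have h1 := List.getElem_mem h
  have h2 := List.mem_takeWhile_imp h1
  have hpre := List.takeWhile_prefix (fun i => !φ i) (l := List.range n)
  have h3 := hpre.getElem h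
  rw [h3, List.getElem_range] at h2
  simpa using h2

theorem mu_spec {n : ℕ} {φ : ℕ → Bool} (h : ∃ i < n, φ i = true) :
    mu n φ < n ∧ φ (mu n φ) = true := by
  have hlt : mu n φ < n := by
    refine lt_of_le_of_ne (mu_le n φ) fun he => ?_
    obtain ⟨i, hi, hφ⟩ := h
    have := mu_min (n := n) (φ := φ) (i := i) (by omega)
    rw [hφ] at this
    exact Bool.noConfusion this
  refine ⟨hlt, ?_⟩
  clear hlt
  induction n with
  | zero => obtain ⟨i, hi, -⟩ := h; omega
  | succ n ih =>
    have e : mu (n + 1) φ = if mu n φ = n then n + (if φ n then 0 else 1) else mu n φ := by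
      unfold mu
      rw [List.range_succ, List.takeWhile_append, List.length_range]
      split_ifs with h1 h2
      · simp [h2]
      · simp [h2]
      · rfl
    by_cases h1 : mu n φ = n
    · by_cases h2 : φ n = true
      · rw [e, if_pos h1, if_pos h2]; simpa using h2
      · exfalso
        obtain ⟨i, hi, hφ⟩ := h
        rcases Nat.lt_succ_iff_lt_or_eq.1 hi with h3 | h3
        · have := mu_min (n := n) (φ := φ) (i := i) (by omega)
          rw [hφ] at this
          exact Bool.noConfusion this
        · exact h2 (h3 ▸ hφ)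
    · rw [e, if_neg h1]
      refine ih ?_
      by_contra hcon
      push Not at hcon
      apply h1
      unfold mu
      rw [List.takeWhile_eq_self_iff.2, List.length_range]
      intro i hi
      have := hcon i (List.mem_range.1 hi)
      simpa using this

/-- polynomial-time string function -/
def PC {α : Type} [Ctx α] (f : α → List Bool) : Prop := PolyC (fun _ => True) Ctx.ctx f

/-- polynomial-time function with unary values -/
def PN {α : Type} [Ctx α] (f : α → ℕ) : Prop := PolyN (fun _ => True) Ctx.ctx f

/-- polynomial-time predicate -/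
def PB {α : Type} [Ctx α] (f : α → Bool) : Prop := PolyB (fun _ => True) Ctx.ctx f

variable {α : Type} [Ctx α]

omit [Ctx α] in
/-- substitution for the last variable -/
theorem PTAux.subst {β : Type} {ctx : List (α → List Bool)} (E : α × β → List Bool) (π : α → β)
    {t : α × β → List Bool}
    (h : PolyC (fun _ => True) (Pool.Agent.Lib.PolyTime.lift ctx ++ [E]) t)
    (hE : PolyC (fun _ => True) ctx (fun a => E (a, π a))) :
    PolyC (fun _ => True) ctx (fun a => t (a, π a)) := by
  have h1 := h.reindex (D' := fun _ => True) (fun a => (a, π a)) (fun _ _ => trivial)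
  refine PolyC.comp h1 ?_
  intro f hf
  simp only [List.map_append, List.map_cons, List.map_nil, List.mem_append, List.mem_map,
    List.mem_cons, List.not_mem_nil, or_false, Pool.Agent.Lib.PolyTime.lift] at hf
  rcases hf with ⟨g, ⟨g', hg', rfl⟩, rfl⟩ | rfl
  · exact PolyC.var hg'
  · exact hE

omit [Ctx α] in
/-- weakening -/
theorem PTAux.wk {β : Type} {ctx : List (α → List Bool)} (E : α × β → List Bool)
    {t : α → List Bool} (h : PolyC (fun _ => True) ctx t) :
    PolyC (fun _ => True) (Pool.Agent.Lib.PolyTime.lift ctx ++ [E]) (fun p => t p.1) :=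
  (PolyC.lift (D' := fun _ : α × β => True) h (fun _ _ => trivial)).weakenRight _

theorem PC.ident : PC (id : List Bool → List Bool) := by
  exact PolyC.var (by simp [Ctx.ctx])

theorem PC.fst {f : α → List Bool} (h : PC f) : PC (fun p : α × ℕ => f p.1) := by
  exact PTAux.wk _ h

theorem PN.fst {f : α → ℕ} (h : PN f) : PN (fun p : α × ℕ => f p.1) := by
  exact PTAux.wk _ h

theorem PB.fst {f : α → Bool} (h : PB f) : PB (fun p : α × ℕ => f p.1) := by
  exact PTAux.wk _ h

theorem PC.fstL {f : α → List Bool} (h : PC f) : PC (fun p : α × List Bool => f p.1) := by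
  exact PTAux.wk _ h

theorem PN.fstL {f : α → ℕ} (h : PN f) : PN (fun p : α × List Bool => f p.1) := by
  exact PTAux.wk _ h

theorem PB.fstL {f : α → Bool} (h : PB f) : PB (fun p : α × List Bool => f p.1) := by
  exact PTAux.wk _ h

theorem PN.snd : PN (fun p : α × ℕ => p.2) := by
  exact PolyC.var (by simp [Ctx.ctx])

theorem PC.snd : PC (fun p : α × List Bool => p.2) := by
  exact PolyC.var (by simp [Ctx.ctx])

/-- substitution for the last variable (number) -/
theorem PC.substN {f : α → ℕ → List Bool} {k : α → ℕ}
    (h : PC (fun p : α × ℕ => f p.1 p.2)) (hk : PN k) : PC (fun a => f a (k a)) := by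
  exact PTAux.subst (t := fun p => f p.1 p.2) _ k h hk

theorem PN.substN {f : α → ℕ → ℕ} {k : α → ℕ}
    (h : PN (fun p : α × ℕ => f p.1 p.2)) (hk : PN k) : PN (fun a => f a (k a)) := by
  exact PTAux.subst (t := fun p => un (f p.1 p.2)) _ k h hk

theorem PB.substN {f : α → ℕ → Bool} {k : α → ℕ}
    (h : PB (fun p : α × ℕ => f p.1 p.2)) (hk : PN k) : PB (fun a => f a (k a)) := by
  exact PTAux.subst (t := fun p => [f p.1 p.2]) _ k h hk

/-- substitution for the last variable (string) -/
theorem PC.substL {f : α → List Bool → List Bool} {k : α → List Bool}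
    (h : PC (fun p : α × List Bool => f p.1 p.2)) (hk : PC k) : PC (fun a => f a (k a)) := by
  exact PTAux.subst (t := fun p => f p.1 p.2) _ k h hk

theorem PN.substL {f : α → List Bool → ℕ} {k : α → List Bool}
    (h : PN (fun p : α × List Bool => f p.1 p.2)) (hk : PC k) : PN (fun a => f a (k a)) := by
  exact PTAux.subst (t := fun p => un (f p.1 p.2)) _ k h hk

theorem PB.substL {f : α → List Bool → Bool} {k : α → List Bool}
    (h : PB (fun p : α × List Bool => f p.1 p.2)) (hk : PC k) : PB (fun a => f a (k a)) := by
  exact PTAux.subst (t := fun p => [f p.1 p.2]) _ k h hk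

theorem PC.const (l : List Bool) : PC (fun _ : α => l) := by
  exact PolyC.const l

theorem PN.const (n : ℕ) : PN (fun _ : α => n) := by
  exact PolyN.const n

theorem PB.const (b : Bool) : PB (fun _ : α => b) := by
  exact PolyB.const b

theorem PN.add {f g : α → ℕ} (hf : PN f) (hg : PN g) : PN (fun a => f a + g a) := by
  exact PolyN.add hf hg

theorem PN.mul {f g : α → ℕ} (hf : PN f) (hg : PN g) : PN (fun a => f a * g a) := by
  exact PolyN.mul hf hg

theorem PN.length {f : α → List Bool} (hf : PC f) : PN (fun a => (f a).length) := by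
  exact PolyN.length hf

theorem PN.ite {φ : α → Bool} {f g : α → ℕ} (h : PB φ) (hf : PN f) (hg : PN g) :
    PN (fun a => if φ a = true then f a else g a) := by
  refine (PolyC.ite (φ := φ) h (PolyC.mono hf fun _ _ => trivial)
    (PolyC.mono hg fun _ _ => trivial)).congr fun a _ => ?_
  change (if φ a = true then un (f a) else un (g a)) = un (if φ a = true then f a else g a)
  split <;> rfl

theorem PC.ite {φ : α → Bool} {f g : α → List Bool} (h : PB φ) (hf : PC f) (hg : PC g) :
    PC (fun a => if φ a = true then f a else g a) := by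
  exact PolyC.ite (φ := φ) h (PolyC.mono hf fun _ _ => trivial)
    (PolyC.mono hg fun _ _ => trivial)

theorem PB.ite {φ f g : α → Bool} (h : PB φ) (hf : PB f) (hg : PB g) :
    PB (fun a => if φ a = true then f a else g a) := by
  exact PolyB.ite (φ := φ) h (PolyC.mono hf fun _ _ => trivial)
    (PolyC.mono hg fun _ _ => trivial)

theorem PC.append {f g : α → List Bool} (hf : PC f) (hg : PC g) :
    PC (fun a => f a ++ g a) := by
  exact PolyC.append hf hg

theorem PC.takeTrue {f : α → List Bool} (hf : PC f) : PC (fun a => (f a).takeWhile id) := by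
  exact PolyC.takeTrue hf

theorem PC.afterTrue {f : α → List Bool} (hf : PC f) :
    PC (fun a => Pool.Agent.Lib.PolyTime.afterTrue (f a)) := by
  exact PolyC.afterTrue hf

theorem PC.drop {f : α → List Bool} {k : α → ℕ} (hf : PC f) (hk : PN k) :
    PC (fun a => (f a).drop (k a)) := by
  exact PolyC.drop hf hk

theorem PB.and {f g : α → Bool} (hf : PB f) (hg : PB g) : PB (fun a => f a && g a) := by
  exact PolyB.and hf hg

theorem PB.or {f g : α → Bool} (hf : PB f) (hg : PB g) : PB (fun a => f a || g a) := by
  exact PolyB.or hf hg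

theorem PB.not {f : α → Bool} (hf : PB f) : PB (fun a => !f a) := by
  exact PolyB.not hf

theorem PB.beq {f g : α → Bool} (hf : PB f) (hg : PB g) : PB (fun a => f a == g a) := by
  refine (PolyB.or (PolyB.and hf hg) (PolyB.and (PolyB.not hf) (PolyB.not hg))).congr
    fun a _ => ?_
  cases f a <;> cases g a <;> rfl

theorem PB.eq {f g : α → ℕ} (hf : PN f) (hg : PN g) : PB (fun a => decide (f a = g a)) := by
  exact PolyB.natEq hf hg

theorem PB.le {f g : α → ℕ} (hf : PN f) (hg : PN g) : PB (fun a => decide (f a ≤ g a)) := by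
  exact PolyB.le hf hg

theorem PB.lt {f g : α → ℕ} (hf : PN f) (hg : PN g) : PB (fun a => decide (f a < g a)) := by
  exact PolyB.lt hf hg

theorem PB.getD {f : α → List Bool} {k : α → ℕ} (hf : PC f) (hk : PN k) :
    PB (fun a => (f a).getD (k a) false) := by
  exact PolyB.getD hf hk

theorem PB.exB {n : α → ℕ} {φ : α → ℕ → Bool} (hn : PN n)
    (h : PB (fun p : α × ℕ => φ p.1 p.2)) : PB (fun a => exB (n a) (φ a)) := by
  refine (PolyB.exists_lt (φ := fun p : α × ℕ => φ p.1 p.2) hn
    (PolyC.mono h fun _ _ => trivial)).congr fun a _ => ?_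
  rw [Bool.eq_iff_iff, exB_iff, decide_eq_true_iff]

theorem PB.allB {n : α → ℕ} {φ : α → ℕ → Bool} (hn : PN n)
    (h : PB (fun p : α × ℕ => φ p.1 p.2)) : PB (fun a => allB (n a) (φ a)) := by
  refine (PolyB.forall_lt (φ := fun p : α × ℕ => φ p.1 p.2) hn
    (PolyC.mono h fun _ _ => trivial)).congr fun a _ => ?_
  rw [Bool.eq_iff_iff, allB_iff, decide_eq_true_iff]

theorem PC.tab {n : α → ℕ} {φ : α → ℕ → Bool} (hn : PN n)
    (h : PB (fun p : α × ℕ => φ p.1 p.2)) : PC (fun a => tab (n a) (φ a)) := by
  exact PolyC.map_range (φ := fun p : α × ℕ => φ p.1 p.2) hn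
    (PolyC.mono h fun _ _ => trivial)

end GemCW
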