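import Pool.Agent.Lib.GemCW.PT

/-!
# A `Primrec`-style interface to polynomial time, II

Hints.
* `sub`: `un (m - k) = (un m).drop k`.  `min f g = f - (f - g)`.
* `mu`: the least `i < n` with `φ i`, or `n`: the length of the leading block of `true`s
  of the table of `!φ i` (`PC.tab`, `PC.takeTrue`, `PN.length`).
* `cnt`: `PolyC.natRec` with unary values bounded by `n` (or `PC.iter` with the state in unary).
* `div`: `mu (x+1) (fun i => decide (x < (i+1) * d))` for `d > 0` (`x / 0 = 0`).
  `mod`: `x - d * (x / d)`.  `pow`: induction on the exponent.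
* `exF`, `allF`, `sumF`: induction on the finite type (e.g. transfer to `Fin n`, or
  `Finset.induction_on univ`).
* `iter`: `PolyC.natRec` with `F a k = iterS (f₀ a) (s a) k`; the step is `hs` after the substitution
  of `F p.1 p.2` for the last (list) variable; careful: the context of the step of `PolyC.natRec` is
  `lift ctx ++ [un p.2, F p.1 p.2]` = `vals` of `((a,k), F a k)` in the context of `(α × ℕ) × List Bool`
  (`PolyC.reindex` along `p ↦ (p, F p.1 p.2)`, `PolyC.changeCtx`); the bound comes from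
  `hm : PN m` (`PolyC.length_le`).
* `inP`: `PolyC.toTM2` as in `Pool/Agent/Results/MP_a698a1_lc/PolynomialTime.lean`.
-/

namespace GemCW

open Pool.Agent.Lib.PolyTime

variable {α : Type} [Ctx α]

theorem PN.sub {f g : α → ℕ} (hf : PN f) (hg : PN g) : PN (fun a => f a - g a) := by
  refine (PolyC.drop hf hg).congr (fun a _ => ?_)
  simp only [un, List.drop_replicate]

theorem PN.min {f g : α → ℕ} (hf : PN f) (hg : PN g) : PN (fun a => Min.min (f a) (g a)) :=
  PolyN.congr (PN.sub hf (PN.sub hf hg)) (fun a _ => by omega)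

theorem PN.mu {n : α → ℕ} {φ : α → ℕ → Bool} (hn : PN n)
    (h : PB (fun p : α × ℕ => φ p.1 p.2)) : PN (fun a => mu (n a) (φ a)) := by
  have h1 : PC (fun a => tab (n a) (fun i => !φ a i)) :=
    PC.tab (φ := fun a i => !φ a i) hn (PB.not h)
  refine PolyN.congr (PN.length (PC.takeTrue h1)) (fun a _ => ?_)
  unfold tab GemCW.mu
  rw [List.takeWhile_map, List.length_map]
  rfl

theorem PN.div {f g : α → ℕ} (hf : PN f) (hg : PN g) : PN (fun a => f a / g a) := by
  have h1 : PN (fun a => GemCW.mu (f a + 1) (fun i => decide (f a < (i + 1) * g a))) :=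
    PN.mu (φ := fun a i => decide (f a < (i + 1) * g a)) (PN.add hf (PN.const 1))
      (PB.lt (PN.fst hf) (PN.mul (PN.add PN.snd (PN.const 1)) (PN.fst hg)))
  refine PolyN.congr (PN.ite (PB.eq hg (PN.const 0)) (PN.const 0) h1) (fun a _ => ?_)
  by_cases hg0 : g a = 0
  · rw [if_pos (by simp [hg0]), hg0, Nat.div_zero]
  · rw [if_neg (by simp [hg0])]
    have hpos : 0 < g a := Nat.pos_of_ne_zero hg0
    have hex : ∃ i < f a + 1, (fun i => decide (f a < (i + 1) * g a)) i = true := by
      refine ⟨f a, Nat.lt_succ_self _, ?_⟩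
      simp only [decide_eq_true_eq]
      calc f a < f a + 1 := Nat.lt_succ_self _
        _ = (f a + 1) * 1 := (mul_one _).symm
        _ ≤ (f a + 1) * g a := Nat.mul_le_mul_left _ hpos
    obtain ⟨_, h3⟩ := mu_spec hex
    simp only [decide_eq_true_eq] at h3
    symm
    apply Nat.div_eq_of_lt_le _ h3
    rcases Nat.eq_zero_or_pos
      (GemCW.mu (f a + 1) (fun i => decide (f a < (i + 1) * g a))) with h0 | h0
    · rw [h0, zero_mul]
      exact Nat.zero_le _
    · have h4 := mu_min (Nat.sub_lt h0 Nat.one_pos)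
      simp only [decide_eq_false_iff_not, not_lt] at h4
      rwa [Nat.sub_add_cancel h0] at h4

theorem PN.mod {f g : α → ℕ} (hf : PN f) (hg : PN g) : PN (fun a => f a % g a) :=
  PolyN.congr (PN.sub hf (PN.mul hg (PN.div hf hg))) (fun a _ => by
    have := Nat.div_add_mod (f a) (g a)
    omega)

theorem PN.pow {f : α → ℕ} (hf : PN f) (k : ℕ) : PN (fun a => f a ^ k) := by
  induction k with
  | zero => exact PolyN.congr (PN.const 1) (fun a _ => (pow_zero _).symm)
  | succ k ih => exact PolyN.congr (PN.mul ih hf) (fun a _ => (pow_succ _ _).symm)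

theorem PN.cnt {n : α → ℕ} {φ : α → ℕ → Bool} (hn : PN n)
    (h : PB (fun p : α × ℕ => φ p.1 p.2)) : PN (fun a => cnt (n a) (φ a)) := by
  obtain ⟨pn, hpn⟩ := PolyC.length_le hn
  refine PolyC.natRec (fun a k => un (GemCW.cnt k (φ a))) hn
    (PolyC.nil.congr (fun a _ => by simp [GemCW.cnt])) ?_ ⟨pn, fun a ha k hk => ?_⟩
  · have h1 : PolyN (fun p : α × ℕ => True ∧ p.2 < n p.1)
        (Pool.Agent.Lib.PolyTime.lift Ctx.ctx ++ [fun p => un p.2, fun p => un (GemCW.cnt p.2 (φ p.1))])
        (fun p => GemCW.cnt p.2 (φ p.1)) := PolyC.var (by simp)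
    have h2 : PolyB (fun p : α × ℕ => True ∧ p.2 < n p.1)
        (Pool.Agent.Lib.PolyTime.lift Ctx.ctx ++ [fun p => un p.2, fun p => un (GemCW.cnt p.2 (φ p.1))])
        (fun p => φ p.1 p.2) := by
      refine PolyC.subset (PolyC.mono h (fun _ _ => trivial)) ?_
      intro f hf
      simp only [Ctx.ctx, List.mem_append, List.mem_cons, List.not_mem_nil, or_false] at hf ⊢
      tauto
    refine (PolyC.ite h2 (PolyC.mono (PolyN.succ h1) (fun _ h => h.1))
      (PolyC.mono h1 (fun _ h => h.1))).congr (fun p _ => ?_)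
    have e : GemCW.cnt (p.2 + 1) (φ p.1) = GemCW.cnt p.2 (φ p.1) +
        (if φ p.1 p.2 = true then 1 else 0) := by
      unfold GemCW.cnt
      rw [List.range_succ, List.countP_append, List.countP_singleton]
    rw [e]
    by_cases hφ : φ p.1 p.2 = true
    · rw [if_pos hφ, if_pos hφ]
    · rw [if_neg hφ, if_neg hφ, add_zero]
  · have h2 := hpn a ha
    have h3 : GemCW.cnt k (φ a) ≤ k := by
      unfold GemCW.cnt
      exact List.countP_le_length.trans (by simp)
    simp only [un_length] at h2 ⊢
    omega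

theorem PB.anyL {ι : Type} {φ : α → ι → Bool} (h : ∀ i, PB (fun a => φ a i)) (l : List ι) :
    PB (fun a => l.any (φ a)) := by
  induction l with
  | nil => exact PolyB.congr (PB.const false) (fun a _ => rfl)
  | cons i l ih => exact PolyB.congr (PB.or (h i) ih) (fun a _ => rfl)

theorem PB.allL {ι : Type} {φ : α → ι → Bool} (h : ∀ i, PB (fun a => φ a i)) (l : List ι) :
    PB (fun a => l.all (φ a)) := by
  induction l with
  | nil => exact PolyB.congr (PB.const true) (fun a _ => rfl)
  | cons i l ih => exact PolyB.congr (PB.and (h i) ih) (fun a _ => rfl)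

theorem PB.exF {ι : Type} [Finite ι] {φ : α → ι → Bool} (h : ∀ i, PB (fun a => φ a i)) :
    PB (fun a => exF (φ a)) := by
  have := Fintype.ofFinite ι
  refine PolyB.congr (PB.anyL h (Finset.univ : Finset ι).toList) (fun a _ => ?_)
  rw [Bool.eq_iff_iff, exF_iff]
  simp

theorem PB.allF {ι : Type} [Finite ι] {φ : α → ι → Bool} (h : ∀ i, PB (fun a => φ a i)) :
    PB (fun a => allF (φ a)) := by
  have := Fintype.ofFinite ι
  refine PolyB.congr (PB.allL h (Finset.univ : Finset ι).toList) (fun a _ => ?_)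
  rw [Bool.eq_iff_iff, allF_iff]
  simp

theorem PN.sumF {ι : Type} [Fintype ι] {f : α → ι → ℕ} (h : ∀ i, PN (fun a => f a i)) :
    PN (fun a => ∑ i, f a i) := by
  have key : ∀ l : List ι, PN (fun a => (l.map (f a)).sum) := by
    intro l
    induction l with
    | nil => exact PolyN.congr (PN.const 0) (fun a _ => rfl)
    | cons i l ih => exact PolyN.congr (PN.add (h i) ih) (fun a _ => by simp)
  exact PolyN.congr (key (Finset.univ : Finset ι).toList)
    (fun a _ => Finset.sum_map_toList _ _)

theorem PC.iter {n m : α → ℕ} {f₀ : α → List Bool} {s : α → ℕ → List Bool → List Bool}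
    (hn : PN n) (hm : PN m) (h₀ : PC f₀)
    (hs : PC (fun p : (α × ℕ) × List Bool => s p.1.1 p.1.2 p.2))
    (hb : ∀ a k, k ≤ n a → (iterS (f₀ a) (s a) k).length ≤ m a) :
    PC (fun a => iterS (f₀ a) (s a) (n a)) := by
  obtain ⟨pm, hpm⟩ := PolyC.length_le hm
  refine PolyC.natRec (fun a k => iterS (f₀ a) (s a) k) hn h₀ ?_ ⟨pm, fun a ha k hk => ?_⟩
  · have h1 := PolyC.reindex (β := α × ℕ) (D' := fun p => True ∧ p.2 < n p.1) hs
      (fun p => (p, iterS (f₀ p.1) (s p.1) p.2)) (fun _ _ => trivial)
    refine (h1.changeCtx ?_).congr (fun p _ => rfl)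
    intro f hf
    simp only [Ctx.ctx, Pool.Agent.Lib.PolyTime.lift, List.map_append, List.map_cons, List.map_nil,
      List.mem_append, List.mem_map, List.mem_cons, List.not_mem_nil, or_false, List.map_map] at hf
    simp only [Pool.Agent.Lib.PolyTime.lift, List.mem_append, List.mem_map, List.mem_cons, List.not_mem_nil,
      or_false]
    rcases hf with (⟨g, hg, rfl⟩ | rfl) | rfl
    · exact ⟨fun p => g p.1, Or.inl ⟨g, hg, rfl⟩, fun _ _ => rfl⟩
    · exact ⟨fun p => un p.2, Or.inr (Or.inl rfl), fun _ _ => rfl⟩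
    · exact ⟨fun p => iterS (f₀ p.1) (s p.1) p.2, Or.inr (Or.inr rfl), fun _ _ => rfl⟩
  · have h1 := hb a k hk
    have h2 := hpm a ha
    simp only [un_length] at h2
    omega

open Pool.Agent.Lib.Pa698a1 in
/-- a polynomial-time predicate on strings decides a language in P -/
theorem PB.inP {f : List Bool → Bool} (hf : PB f) {L : Set (List Bool)}
    (h : ∀ w, f w = true ↔ w ∈ L) : InP L := by
  classical
  have h1 := PolyC.toTM2 (α := List Bool) (γ := Bool) id (D := fun _ => True) f
    Computability.encodeBool (PolyC.congr hf (fun _ _ => rfl))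
  obtain ⟨⟨tm, time, hout⟩⟩ := h1
  refine ⟨⟨tm, time, fun w => ?_⟩⟩
  have e : decide (w ∈ L) = f w := by
    rw [Bool.eq_iff_iff, decide_eq_true_eq, h w]
  rw [e]
  exact hout ⟨w, trivial⟩

end GemCW
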