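import Pool.Agent.Lib.GemCW.Defs

/-!
# Partitions into independent sets

`IsPart H A Z`: the multiset `Z` of finsets consists of nonempty independent sets and the multiset
sum of its members is `A` (so they are disjoint and cover `A`).

* `colorable_iff`: `H` is `k`-colourable iff there is `Z` with `IsPart H univ Z` and `card Z ≤ k`.
  →: `Z` = the nonempty colour classes of `c : V → Fin k`, i.e. the image of
  `{i : Fin k | class nonempty}` under `i ↦ class i` (`Finset.val` of a finset of colours mapped).
  ←: enumerate `Z = ↑l` (`Quot.exists_rep`), `l : List (Finset V)`, every `v` lies in exactly one (at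
  least one suffices) member; colour `v` by an index `i < l.length ≤ k` with `v ∈ l[i]`.
* `IsPart.card_le`: each member contributes at least one element.
* `IsPart.add`: partitions of disjoint sets may be added... (used in `Merge`).
-/

namespace GemCW

open Finset

variable {V : Type*} [DecidableEq V]

/-- `Z` is a partition of `A` into nonempty independent sets -/
def IsPart (H : SimpleGraph V) (A : Finset V) (Z : Multiset (Finset V)) : Prop :=
  (∀ K ∈ Z, K.Nonempty ∧ Indep H K) ∧ (Z.map Finset.val).sum = A.val

theorem IsPart.card_le {H : SimpleGraph V} {A : Finset V} {Z : Multiset (Finset V)}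
    (h : IsPart H A Z) : Z.card ≤ A.card := by
  have key : ∀ Z : Multiset (Finset V), (∀ K ∈ Z, K.Nonempty) →
      Z.card ≤ Multiset.card (Z.map Finset.val).sum := by
    intro Z
    induction Z using Multiset.induction_on with
    | empty => simp
    | cons K Z ih =>
      intro hZ
      have h1 := ih (fun L hL => hZ L (Multiset.mem_cons_of_mem hL))
      have h2 : 0 < K.card := Finset.card_pos.2 (hZ K (Multiset.mem_cons_self K Z))
      rw [Multiset.map_cons, Multiset.sum_cons, Multiset.card_add, Multiset.card_cons]
      have h3 : Multiset.card K.val = K.card := rfl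
      omega
  have h1 := key Z (fun K hK => (h.1 K hK).1)
  rw [h.2] at h1
  exact h1

theorem Part_mem_sum {Z : Multiset (Finset V)} {a : V} :
    a ∈ (Z.map Finset.val).sum ↔ ∃ K ∈ Z, a ∈ K := by
  induction Z using Multiset.induction_on with
  | empty => simp
  | cons K Z ih =>
    rw [Multiset.map_cons, Multiset.sum_cons, Multiset.mem_add, ih]
    simp

theorem IsPart.sub {H : SimpleGraph V} {A : Finset V} {Z : Multiset (Finset V)}
    (h : IsPart H A Z) {K : Finset V} (hK : K ∈ Z) : K ⊆ A := by
  intro a ha
  have h1 : a ∈ (Z.map Finset.val).sum := Part_mem_sum.2 ⟨K, hK, ha⟩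
  rw [h.2] at h1
  exact h1

theorem IsPart.singleton {H : SimpleGraph V} {v : V} {Z : Multiset (Finset V)} :
    IsPart H {v} Z ↔ Z = {{v}} := by
  constructor
  · intro h
    have h1 := h.card_le
    rw [Finset.card_singleton] at h1
    have h2 : Z.card ≠ 0 := by
      intro h0
      rw [Multiset.card_eq_zero] at h0
      have h3 := h.2
      rw [h0] at h3
      simp at h3
    obtain ⟨K, rfl⟩ := Multiset.card_eq_one.1 (show Z.card = 1 by omega)
    have h3 := h.2
    rw [Multiset.map_singleton, Multiset.sum_singleton] at h3
    rw [Finset.val_inj.1 h3]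
  · rintro rfl
    refine ⟨?_, by simp⟩
    intro K hK
    rw [Multiset.mem_singleton] at hK
    subst hK
    refine ⟨Finset.singleton_nonempty v, ?_⟩
    intro a ha b hb hab
    rw [Finset.mem_singleton] at ha hb
    subst ha hb
    exact H.loopless.irrefl _ hab

theorem colorable_iff [Fintype V] (H : SimpleGraph V) (k : ℕ) :
    H.Colorable k ↔ ∃ Z, IsPart H univ Z ∧ Z.card ≤ k := by
  classical
  constructor
  · rintro ⟨c⟩
    set cls : Fin k → Finset V := fun i => univ.filter (fun v => c v = i) with hcls
    set F : Finset (Fin k) := univ.filter (fun i => (cls i).Nonempty) with hF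
    refine ⟨F.val.map cls, ⟨?_, ?_⟩, ?_⟩
    · intro K hK
      obtain ⟨i, hi, rfl⟩ := Multiset.mem_map.1 hK
      have hi' : i ∈ F := hi
      rw [hF, Finset.mem_filter] at hi'
      refine ⟨hi'.2, ?_⟩
      intro a ha b hb hab
      rw [hcls, Finset.mem_filter] at ha hb
      exact c.valid hab (ha.2.trans hb.2.symm)
    · rw [Multiset.map_map]
      ext v
      have h1 : (Multiset.map (Finset.val ∘ cls) F.val).sum = ∑ i ∈ F, (cls i).val := rfl
      rw [h1, Multiset.count_sum']
      have h2 : ∀ i ∈ F, Multiset.count v (cls i).val = if i = c v then 1 else 0 := by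
        intro i _
        have h3 : v ∈ (cls i).val ↔ i = c v := by
          rw [Finset.mem_val, hcls, Finset.mem_filter]
          simp only [Finset.mem_univ, true_and]
          exact eq_comm
        rw [Multiset.count_eq_of_nodup (cls i).nodup]
        simp only [h3]
      rw [Finset.sum_congr rfl h2, Finset.sum_ite_eq', if_pos, Multiset.count_eq_one_of_mem]
      · exact (Finset.univ : Finset V).nodup
      · exact Finset.mem_univ v
      · rw [hF, Finset.mem_filter]
        refine ⟨Finset.mem_univ _, v, ?_⟩
        rw [hcls, Finset.mem_filter]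
        exact ⟨Finset.mem_univ _, rfl⟩
    · rw [Multiset.card_map]
      exact (Finset.card_le_univ F).trans (by simp)
  · rintro ⟨Z, hZ, hc⟩
    have hex : ∀ v : V, ∃ K, K ∈ Z.toFinset ∧ v ∈ K := by
      intro v
      have h1 : v ∈ (Z.map Finset.val).sum := by
        rw [hZ.2]
        exact Finset.mem_univ v
      obtain ⟨K, hK, hv⟩ := Part_mem_sum.1 h1
      exact ⟨K, Multiset.mem_toFinset.2 hK, hv⟩
    choose K hK hvK using hex
    have col : H.Coloring {L // L ∈ Z.toFinset} := by
      refine SimpleGraph.Coloring.mk (fun v => ⟨K v, hK v⟩) ?_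
      intro u v huv he
      have he' : K u = K v := congrArg Subtype.val he
      have h1 := (hZ.1 (K u) (Multiset.mem_toFinset.1 (hK u))).2
      exact h1 u (hvK u) v (he' ▸ hvK v) huv
    refine col.colorable.mono ?_
    rw [Fintype.card_coe]
    exact (Multiset.toFinset_card_le Z).trans hc

end GemCW
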