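import Pool.Agent.Lib.GemCW.SplitPT

/-!
# Refinement and types in polynomial time

`PC_EB`: `PC.iter` with `m = n * n` (`tab_length`); the step uses `PC_splitB`, `PC_clsL`; introduce the
values `clsL n E` and `splitB W n h (clsL n E)` before the binder (they are `PC` functions, lifted by
`.fst`).  All other statements follow the definitions in `AlgDefs`.
-/

namespace GemCW

variable {α : Type} [Ctx α]

theorem RefPTAux.PN_uB {n : α → ℕ} {E : α → List Bool} (hn : PN n) (hE : PC E) :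
    PN (fun a => uB (n a) (E a)) := by
  unfold uB
  exact PN.mu hn (PB.exB hn.fst (PB.and (PB.not (PB.eq PN.snd (PN.fst PN.snd)))
    (PB.getD hE.fst.fst (PN.add (PN.mul (PN.fst PN.snd) hn.fst.fst) PN.snd))))

theorem PC_clsL {n : α → ℕ} {E : α → List Bool} (hn : PN n) (hE : PC E) :
    PC (fun a => clsL (n a) (E a)) := by
  unfold clsL
  exact PC.tab hn (PB.getD hE.fst (PN.add (PN.mul (RefPTAux.PN_uB hn hE).fst hn.fst) PN.snd))

theorem RefPTAux.PC_stepE (W : ℕ) {n : α → ℕ} {h E : α → List Bool} (hn : PN n) (hh : PC h)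
    (hE : PC E) : PC (fun a => stepE W (n a) (h a) (E a)) := by
  have hc : PC (fun a => clsL (n a) (E a)) := PC_clsL hn hE
  have hs : PC (fun a => splitB W (n a) (h a) (clsL (n a) (E a))) := PC_splitB W hn hh hc
  unfold stepE
  refine PC.tab (PN.mul hn hn) (PB.and (PB.getD hE.fst PN.snd) (PB.or (PB.not ?_) ?_))
  · exact PB.getD hc.fst (PN.div PN.snd hn.fst)
  · exact PB.beq (PB.getD hs.fst (PN.div PN.snd hn.fst)) (PB.getD hs.fst (PN.mod PN.snd hn.fst))

theorem PC_EB (W : ℕ) {n t : α → ℕ} {h : α → List Bool} (hn : PN n) (hh : PC h)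
    (ht : PN t) : PC (fun a => EB W (n a) (h a) (t a)) := by
  unfold EB
  refine PC.iter (m := fun a => n a * n a) (s := fun a _ E => stepE W (n a) (h a) E) ht
    (PN.mul hn hn) (PC.tab (PN.mul hn hn) (PB.const true)) ?_ ?_
  · exact RefPTAux.PC_stepE W hn.fst.fstL hh.fst.fstL PC.snd
  · intro a k _
    cases k with
    | zero => simp [iterS]
    | succ k => simp [iterS, stepE]

theorem RefPTAux.PB_sameB {n u v : α → ℕ} {h A : α → List Bool} (hn : PN n) (hh : PC h)
    (hA : PC A) (hu : PN u) (hv : PN v) :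
    PB (fun a => sameB (n a) (h a) (A a) (u a) (v a)) := by
  unfold sameB
  exact PB.allB hn (PB.or (PB.getD hA.fst PN.snd) (PB.beq
    (PB_hb hn.fst hh.fst hu.fst PN.snd) (PB_hb hn.fst hh.fst hv.fst PN.snd)))

theorem RefPTAux.PN_firstB {n u : α → ℕ} {h A : α → List Bool} (hn : PN n) (hh : PC h)
    (hA : PC A) (hu : PN u) : PN (fun a => firstB (n a) (h a) (A a) (u a)) := by
  unfold firstB
  exact PN.mu hn (PB.and (PB.getD hA.fst PN.snd)
    (RefPTAux.PB_sameB hn.fst hh.fst hA.fst PN.snd hu.fst))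

theorem PN_tauB {n u : α → ℕ} {h A : α → List Bool} (hn : PN n) (hh : PC h) (hA : PC A)
    (hu : PN u) : PN (fun a => tauB (n a) (h a) (A a) (u a)) := by
  unfold tauB
  exact PN.cnt (RefPTAux.PN_firstB hn hh hA hu) (PB.and (PB.getD hA.fst PN.snd)
    (PB.eq (RefPTAux.PN_firstB hn.fst hh.fst hA.fst PN.snd) PN.snd))

theorem PB_tinB {Q : ℕ} (S : Finset (Fin Q)) {n u : α → ℕ} {h A : α → List Bool} (hn : PN n)
    (hh : PC h) (hA : PC A) (hu : PN u) : PB (fun a => tinB S (n a) (h a) (A a) (u a)) := by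
  unfold tinB
  exact PB.exF (fun t => PB.and (PB.const _) (PB.eq (PN_tauB hn hh hA hu) (PN.const _)))

end GemCW
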