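import Pool.Agent.Lib.GemCW.AlgDefs

/-!
# The split is computable in polynomial time

Follow the definitions in `AlgDefs` with the closure lemmas of `PT`.  For a binder
(`exB n (fun i => …)`, `tab n (fun x => …)`, `mu n (fun g => …)`) use `PB.exB hn (…)` etc.; inside, the
old ingredients are lifted by `.fst`, the new variable is `PN.snd`.  `W` and the offsets are constants;
`dg b i k` with constant `k`: `PN.div`, `PN.pow`, `PN.mod`.  `cloB`: `PC.iter` with `m = n`
(`tab_length`).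
-/

namespace GemCW

variable {α : Type} [Ctx α]

theorem PN_dg {b i : α → ℕ} (hb : PN b) (hi : PN i) (k : ℕ) : PN (fun a => dg (b a) (i a) k) := by
  unfold dg
  exact (hi.div (hb.pow k)).mod hb

theorem PB_hb {n i j : α → ℕ} {h : α → List Bool} (hn : PN n) (hh : PC h) (hi : PN i)
    (hj : PN j) : PB (fun a => hb (n a) (h a) (i a) (j a)) := by
  unfold hb
  exact ((PB.eq hi hj).not).and ((PB.getD hh ((hi.mul hn).add hj)).and
    (PB.getD hh ((hj.mul hn).add hi)))

theorem PB_gb {n i j : α → ℕ} {h : α → List Bool} (hn : PN n) (hh : PC h) (hi : PN i)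
    (hj : PN j) : PB (fun a => gb (n a) (h a) (i a) (j a)) := by
  unfold gb
  exact ((PB.eq hi hj).not).and ((PB_hb hn hh hi hj).not)

private theorem PB_linB (W : ℕ) {n q i : α → ℕ} {h : α → List Bool} (off : ℕ)
    (lam : Fin W → Bool) (hn : PN n) (hh : PC h) (hq : PN q) (hi : PN i) :
    PB (fun a => linB W (n a) (h a) (q a) off lam (i a)) := by
  unfold linB
  refine PB.eq (PN.mod (PN.sumF (fun k => ?_)) (PN.const 2)) (PN.const 1)
  exact PN.ite ((PB.const (lam k)).and (PB_gb hn hh hi (PN_dg hn hq (off + k))))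
    (PN.const 1) (PN.const 0)

private theorem PB_okB (W : ℕ) {n q r i j : α → ℕ} {h : α → List Bool} (offR offC : ℕ)
    (hn : PN n) (hh : PC h) (hq : PN q) (hr : PN r) (hi : PN i) (hj : PN j) :
    PB (fun a => okB W (n a) (h a) (q a) (r a) offR offC (i a) (j a)) := by
  unfold okB
  refine PB.exF (fun lam => ?_)
  refine PB.and (PB.allF (fun k => ?_)) (PB.and (PB.allF (fun k => ?_)) ?_)
  · exact (PB.const (!(lam k))).or (PB.lt (PN.const k) hr)
  · exact ((PB.lt (PN.const k) hr).not).or (PB.beq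
      (PB_linB W offC lam hn hh hq (PN_dg hn hq (offR + k)))
      (PB_gb hn hh (PN_dg hn hq (offR + k)) hj))
  · exact PB.beq (PB_linB W offC lam hn hh hq hi) (PB_gb hn hh hi hj)

private theorem PB_nsB (W : ℕ) {n q r : α → ℕ} {h : α → List Bool} (offR offC : ℕ)
    (hn : PN n) (hh : PC h) (hq : PN q) (hr : PN r) :
    PB (fun a => nsB W (n a) (h a) (q a) (r a) offR offC) := by
  unfold nsB
  refine PB.allF (fun lam => ?_)
  refine PB.or (PB.not (PB.allF (fun k => ?_)))
    (PB.or (PB.not (PB.allF (fun k => ?_))) (PB.allF (fun k => ?_)))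
  · exact (PB.const (!(lam k))).or (PB.lt (PN.const k) hr)
  · exact ((PB.lt (PN.const k) hr).not).or
      ((PB_linB W offC lam hn hh hq (PN_dg hn hq (offR + k))).not)
  · exact PB.const (!(lam k))

private theorem PN_gR (W : ℕ) {g : α → ℕ} (hg : PN g) : PN (fun a => gR W (g a)) := by
  unfold gR
  exact hg.mod (PN.const (W + 1))

private theorem PN_gR' (W : ℕ) {g : α → ℕ} (hg : PN g) : PN (fun a => gR' W (g a)) := by
  unfold gR'
  exact (hg.div (PN.const (W + 1))).mod (PN.const (W + 1))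

private theorem PN_gQ (W : ℕ) {g : α → ℕ} (hg : PN g) : PN (fun a => gQ W (g a)) := by
  unfold gQ
  exact (hg.div (PN.const (W + 1))).div (PN.const (W + 1))

private theorem PB_seedB (W : ℕ) {n g x : α → ℕ} {A : α → List Bool}
    (hn : PN n) (hA : PC A) (hg : PN g) (hx : PN x) :
    PB (fun a => seedB W (n a) (A a) (g a) (x a)) := by
  unfold seedB
  refine PB.or (PB.eq hx (PN_dg hn (PN_gQ W hg) (4 * W))) (PB.or (PB.exF (fun k => ?_))
    (PB.and (PB.getD hA hx) (PB.exF (fun k => ?_))))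
  · exact PB.and (PB.lt (PN.const k) (PN_gR W hg)) (PB.eq (PN_dg hn (PN_gQ W hg) k) hx)
  · exact PB.and (PB.lt (PN.const k) (PN_gR' W hg))
      (PB.eq (PN_dg hn (PN_gQ W hg) (3 * W + k)) hx)

private theorem PC_stepB (W : ℕ) {n g : α → ℕ} {h A X : α → List Bool}
    (hn : PN n) (hh : PC h) (hA : PC A) (hg : PN g) (hX : PC X) :
    PC (fun a => stepB W (n a) (h a) (A a) (g a) (X a)) := by
  unfold stepB
  refine PC.tab hn ?_
  refine PB.or (PB.getD hX.fst PN.snd) (PB.or (PB.exB hn.fst ?_)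
    (PB.and (PB.getD hA.fst PN.snd) (PB.exB hn.fst ?_)))
  · exact PB.and (PB.getD hX.fst.fst PN.snd) (PB.not (PB_okB W 0 W hn.fst.fst hh.fst.fst
      (PN_gQ W hg.fst.fst) (PN_gR W hg.fst.fst) PN.snd PN.snd.fst))
  · exact PB.and (PB.or (PB.not (PB.getD hA.fst.fst PN.snd)) (PB.getD hX.fst.fst PN.snd))
      (PB.not (PB_okB W (2 * W) (3 * W) hn.fst.fst hh.fst.fst
      (PN_gQ W hg.fst.fst) (PN_gR' W hg.fst.fst) PN.snd.fst PN.snd))

private theorem PC_cloB (W : ℕ) {n g : α → ℕ} {h A : α → List Bool}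
    (hn : PN n) (hh : PC h) (hA : PC A) (hg : PN g) :
    PC (fun a => cloB W (n a) (h a) (A a) (g a)) := by
  unfold cloB
  refine PC.iter (s := fun a _ X => stepB W (n a) (h a) (A a) (g a) X) hn hn
    (PC.tab hn (PB_seedB W hn.fst hA.fst hg.fst PN.snd)) ?_ ?_
  · exact PC_stepB W hn.fst.fstL hh.fst.fstL hA.fst.fstL hg.fst.fstL PC.snd
  · intro a k _
    cases k with
    | zero => simp [iterS]
    | succ k => simp [iterS, stepB]

private theorem PB_validX (W : ℕ) {n g : α → ℕ} {h A X : α → List Bool}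
    (hn : PN n) (hh : PC h) (hA : PC A) (hg : PN g) (hX : PC X) :
    PB (fun a => validX W (n a) (h a) (A a) (g a) (X a)) := by
  unfold validX
  refine PB.and (PB.exB hn (PB.getD hX.fst PN.snd)) (PB.and
    (PB.allB hn (PB.or (PB.not (PB.getD hX.fst PN.snd)) (PB.getD hA.fst PN.snd)))
    (PB.and (PB.exB hn (PB.and (PB.getD hA.fst PN.snd) (PB.not (PB.getD hX.fst PN.snd))))
    (PB.and (PB_nsB W 0 W hn hh (PN_gQ W hg) (PN_gR W hg))
    (PB.and (PB_nsB W (2 * W) (3 * W) hn hh (PN_gQ W hg) (PN_gR' W hg))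
    (PB.and (PB.allB hn (PB.allB hn.fst ?_)) (PB.allB hn (PB.allB hn.fst ?_)))))))
  · exact PB.or (PB.not (PB.getD hX.fst.fst PN.snd.fst)) (PB.or (PB.getD hX.fst.fst PN.snd)
      (PB_okB W 0 W hn.fst.fst hh.fst.fst (PN_gQ W hg.fst.fst) (PN_gR W hg.fst.fst)
        PN.snd.fst PN.snd))
  · exact PB.or (PB.not (PB.and (PB.getD hA.fst.fst PN.snd.fst)
      (PB.not (PB.getD hX.fst.fst PN.snd.fst))))
      (PB.or (PB.not (PB.or (PB.not (PB.getD hA.fst.fst PN.snd)) (PB.getD hX.fst.fst PN.snd)))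
      (PB_okB W (2 * W) (3 * W) hn.fst.fst hh.fst.fst (PN_gQ W hg.fst.fst)
        (PN_gR' W hg.fst.fst) PN.snd.fst PN.snd))

private theorem PN_GN (W : ℕ) {n : α → ℕ} (hn : PN n) : PN (fun a => GN W (n a)) := by
  unfold GN
  exact (PN.const ((W + 1) * (W + 1))).mul (hn.pow (4 * W + 1))

theorem PC_splitB (W : ℕ) {n : α → ℕ} {h A : α → List Bool} (hn : PN n) (hh : PC h)
    (hA : PC A) : PC (fun a => splitB W (n a) (h a) (A a)) := by
  unfold splitB
  refine PC_cloB W hn hh hA (PN.mu (PN_GN W hn) ?_)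
  unfold validB
  exact PB_validX W hn.fst hh.fst hA.fst PN.snd (PC_cloB W hn.fst hh.fst hA.fst PN.snd)

end GemCW
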