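import Pool.Agent.Lib.GemCW.AlgDefs

/-!
# The split is correct

Bridge between the concrete functions of `AlgDefs` and the finsets of `CertB`.
-/

namespace GemCW

open Finset

theorem splitB_iter_length (W n : ℕ) (h A : List Bool) (g k : ℕ) :
    (iterS (tab n (seedB W n A g)) (fun _ X => stepB W n h A g X) k).length = n := by
  cases k with
  | zero => simp [iterS]
  | succ k => simp [iterS, stepB]

theorem splitB_length (W n : ℕ) (h A : List Bool) : (splitB W n h A).length = n := by
  unfold splitB cloB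
  exact splitB_iter_length W n h A _ n

/-- the vertex coded by a digit -/
def vtx {n : ℕ} (hn : 0 < n) (q k : ℕ) : Fin n := ⟨dg n q k, dg_lt hn q k⟩

theorem vtx_val {n : ℕ} (hn : 0 < n) (q k : ℕ) : ((vtx hn q k : Fin n) : ℕ) = dg n q k := rfl

/-- the guess coded by a number -/
def gs (W : ℕ) {n : ℕ} (hn : 0 < n) (g : ℕ) : Guess (Fin n) W where
  r := gR W g
  r' := gR' W g
  R k := vtx hn (gQ W g) (0 + k)
  C k := vtx hn (gQ W g) (W + k)
  R' k := vtx hn (gQ W g) (2 * W + k)
  C' k := vtx hn (gQ W g) (3 * W + k)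
  x₀ := vtx hn (gQ W g) (4 * W)

theorem linB_eq (W : ℕ) {n : ℕ} (hn : 0 < n) (h : List Bool) (q off : ℕ) (lam : Fin W → Bool)
    (i : Fin n) :
    linB W n h q off lam i = linc (CG n h) (fun k : Fin W => vtx hn q (off + k)) lam i := by
  classical
  unfold linB linc
  rw [decide_eq_decide]
  have : (∑ k : Fin W, if (lam k && gb n h i (dg n q (off + k))) = true then 1 else 0) =
      ∑ k : Fin W, if lam k = true ∧ (CG n h).Adj i (vtx hn q (off + k)) then 1 else 0 := by
    refine Finset.sum_congr rfl fun k _ => ?_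
    refine if_congr ?_ rfl rfl
    rw [CG_adj, vtx_val, Bool.and_eq_true]
  rw [this]

theorem okB_iff (W : ℕ) {n : ℕ} (hn : 0 < n) (h : List Bool) (q r offR offC : ℕ) (i j : Fin n) :
    okB W n h q r offR offC i j = true ↔ OK (CG n h) r (fun k : Fin W => vtx hn q (offR + k))
      (fun k : Fin W => vtx hn q (offC + k)) i j := by
  unfold okB OK
  rw [exF_iff]
  refine exists_congr fun lam => ?_
  rw [Bool.and_eq_true, Bool.and_eq_true, allF_iff, allF_iff, linB_eq W hn]
  refine and_congr ?_ (and_congr ?_ ?_)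
  · refine forall_congr' fun k => ?_
    cases lam k <;> simp
  · refine forall_congr' fun k => ?_
    have h1 := linB_eq W hn h q offC lam (vtx hn q (offR + k))
    rw [vtx_val] at h1
    rw [h1, CG_adj, vtx_val]
    by_cases hk : (k : ℕ) < r
    · rw [decide_eq_true hk, Bool.not_true, Bool.false_or, beq_iff_eq, Bool.eq_iff_iff]
      exact ⟨fun h2 _ => h2, fun h2 => h2 hk⟩
    · simp [hk]
  · rw [CG_adj, beq_iff_eq, Bool.eq_iff_iff]

theorem nsB_iff (W : ℕ) {n : ℕ} (hn : 0 < n) (h : List Bool) (q r offR offC : ℕ) :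
    nsB W n h q r offR offC = true ↔ NS (CG n h) r (fun k : Fin W => vtx hn q (offR + k))
      (fun k : Fin W => vtx hn q (offC + k)) := by
  unfold nsB NS
  rw [allF_iff]
  refine forall_congr' fun lam => ?_
  have e1 : (allF (fun k : Fin W => !(lam k) || decide ((k : ℕ) < r)) = true) ↔
      ∀ k : Fin W, lam k = true → (k : ℕ) < r := by
    rw [allF_iff]
    refine forall_congr' fun k => ?_
    cases lam k <;> simp
  have e2 : (allF (fun k : Fin W => !(decide ((k : ℕ) < r)) ||
      !(linB W n h q offC lam (dg n q (offR + k)))) = true) ↔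
      ∀ k : Fin W, (k : ℕ) < r →
        linc (CG n h) (fun k : Fin W => vtx hn q (offC + k)) lam (vtx hn q (offR + k)) = false := by
    rw [allF_iff]
    refine forall_congr' fun k => ?_
    have h1 := linB_eq W hn h q offC lam (vtx hn q (offR + k))
    rw [vtx_val] at h1
    rw [h1]
    by_cases hk : (k : ℕ) < r <;> simp [hk]
  have e3 : (allF (fun k : Fin W => !(lam k)) = true) ↔ ∀ k, lam k = false := by
    rw [allF_iff]
    refine forall_congr' fun k => ?_
    simp
  rw [← e1, ← e2, ← e3]
  cases allF (fun k : Fin W => !(lam k) || decide ((k : ℕ) < r)) <;>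
  cases allF (fun k : Fin W => !(decide ((k : ℕ) < r)) ||
      !(linB W n h q offC lam (dg n q (offR + k)))) <;> simp

theorem seedB_iff (W : ℕ) {n : ℕ} (hn : 0 < n) (A : List Bool) (g : ℕ) (x : Fin n) :
    seedB W n A g x = true ↔ x ∈ seedS (toS n A) (gs W hn g) := by
  unfold seedB seedS gs
  simp only [Bool.or_eq_true, Bool.and_eq_true, decide_eq_true_eq, exF_iff, mem_filter, mem_univ,
    true_and, mem_toS, Fin.ext_iff, vtx_val, zero_add]

theorem stepB_toS (W : ℕ) {n : ℕ} (hn : 0 < n) (h A : List Bool) (g : ℕ) (X : List Bool) :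
    toS n (stepB W n h A g X) = stepS (CG n h) (toS n A) (gs W hn g) (toS n X) := by
  ext x
  rw [mem_toS]
  unfold stepB
  rw [tab_getD x.2]
  unfold stepS
  simp only [Bool.or_eq_true, Bool.and_eq_true, exB_iff, mem_filter, mem_univ, true_and, mem_toS,
    Bool.not_eq_true']
  refine or_congr Iff.rfl (or_congr ?_ (and_congr Iff.rfl ?_))
  · constructor
    · rintro ⟨i, hi, h1, h2⟩
      refine ⟨⟨i, hi⟩, h1, fun h3 => ?_⟩
      have := (okB_iff W hn h (gQ W g) (gR W g) 0 W ⟨i, hi⟩ x).2 h3
      rw [this] at h2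
      exact absurd h2 (by simp)
    · rintro ⟨i, h1, h2⟩
      refine ⟨i, i.2, h1, ?_⟩
      rw [← Bool.not_eq_true]
      exact fun h3 => h2 ((okB_iff W hn h (gQ W g) (gR W g) 0 W i x).1 h3)
  · constructor
    · rintro ⟨i, hi, h1, h2⟩
      refine ⟨⟨i, hi⟩, ?_, fun h3 => ?_⟩
      · rcases h1 with h1 | h1
        · left; rw [Bool.not_eq_true]; exact h1
        · right; exact h1
      · have := (okB_iff W hn h (gQ W g) (gR' W g) (2 * W) (3 * W) x ⟨i, hi⟩).2 h3
        rw [this] at h2
        exact absurd h2 (by simp)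
    · rintro ⟨i, h1, h2⟩
      refine ⟨i, i.2, ?_, ?_⟩
      · rcases h1 with h1 | h1
        · left; rw [← Bool.not_eq_true]; exact h1
        · right; exact h1
      · rw [← Bool.not_eq_true]
        exact fun h3 => h2 ((okB_iff W hn h (gQ W g) (gR' W g) (2 * W) (3 * W) x i).1 h3)

theorem cloB_toS (W : ℕ) {n : ℕ} (hn : 0 < n) (h A : List Bool) (g : ℕ) :
    toS n (cloB W n h A g) =
      (stepS (CG n h) (toS n A) (gs W hn g))^[n] (seedS (toS n A) (gs W hn g)) := by
  unfold cloB
  have key : ∀ k, toS n (iterS (tab n (seedB W n A g)) (fun _ X => stepB W n h A g X) k) =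
      (stepS (CG n h) (toS n A) (gs W hn g))^[k] (seedS (toS n A) (gs W hn g)) := by
    intro k
    induction k with
    | zero =>
      simp only [iterS, Function.iterate_zero, id_eq]
      ext x
      rw [mem_toS, tab_getD x.2, seedB_iff W hn]
    | succ k ih =>
      simp only [iterS]
      rw [stepB_toS W hn, ih, Function.iterate_succ_apply']
  exact key n

theorem validX_iff (W : ℕ) {n : ℕ} (hn : 0 < n) (h A : List Bool) (g : ℕ) (X : List Bool) :
    validX W n h A g X = true ↔ ValidS (CG n h) (toS n A) (gs W hn g) (toS n X) := by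
  unfold validX ValidS
  rw [Bool.and_eq_true, Bool.and_eq_true, Bool.and_eq_true, Bool.and_eq_true, Bool.and_eq_true,
    Bool.and_eq_true, nsB_iff W hn, nsB_iff W hn]
  refine and_congr ?_ (and_congr ?_ (and_congr ?_ (and_congr Iff.rfl (and_congr Iff.rfl
    (and_congr ?_ ?_)))))
  · rw [exB_iff]
    constructor
    · rintro ⟨i, hi, h1⟩
      exact ⟨⟨i, hi⟩, mem_toS.2 h1⟩
    · rintro ⟨i, h1⟩
      exact ⟨i, i.2, mem_toS.1 h1⟩
  · rw [allB_iff]
    constructor
    · intro h1 i hi
      have := h1 i i.2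
      rw [mem_toS] at hi ⊢
      rw [hi, Bool.not_true, Bool.false_or] at this
      exact this
    · intro h1 i hi
      by_cases h2 : X.getD i false = true
      · have := @h1 ⟨i, hi⟩ (mem_toS.2 h2)
        rw [mem_toS] at this
        simp only at this
        rw [h2, this]; rfl
      · rw [Bool.not_eq_true] at h2
        rw [h2]; rfl
  · rw [exB_iff]
    constructor
    · rintro ⟨i, hi, h1⟩
      rw [Bool.and_eq_true, Bool.not_eq_true'] at h1
      refine ⟨⟨i, hi⟩, mem_toS.2 h1.1, ?_⟩
      rw [mem_toS, Bool.not_eq_true]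
      exact h1.2
    · rintro ⟨i, h1, h2⟩
      rw [mem_toS] at h1 h2
      rw [Bool.not_eq_true] at h2
      refine ⟨i, i.2, ?_⟩
      rw [h1, h2]; rfl
  · rw [allB_iff]
    constructor
    · intro h1 i hi j hj
      have h2 := h1 i i.2
      rw [allB_iff] at h2
      have h3 := h2 j j.2
      rw [mem_toS] at hi hj
      rw [Bool.not_eq_true] at hj
      rw [hi, hj] at h3
      simp only [Bool.not_true, Bool.false_or] at h3
      exact (okB_iff W hn h (gQ W g) (gR W g) 0 W i j).1 h3
    · intro h1 i hi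
      rw [allB_iff]
      intro j hj
      by_cases h2 : X.getD i false = true
      · by_cases h3 : X.getD j false = true
        · rw [h3]; simp
        · have := (okB_iff W hn h (gQ W g) (gR W g) 0 W ⟨i, hi⟩ ⟨j, hj⟩).2
            (h1 ⟨i, hi⟩ (mem_toS.2 h2) ⟨j, hj⟩ (by rw [mem_toS]; exact h3))
          simp only at this
          rw [this]; simp
      · rw [Bool.not_eq_true] at h2
        rw [h2]; rfl
  · rw [allB_iff]
    constructor
    · intro h1 i hi hi' j hj
      have h2 := h1 i i.2
      rw [allB_iff] at h2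
      have h3 := h2 j j.2
      rw [mem_toS] at hi hi'
      rw [Bool.not_eq_true] at hi'
      rw [hi, hi'] at h3
      have h4 : (!(A.getD (j : ℕ) false) || X.getD (j : ℕ) false) = true := by
        rcases hj with hj | hj
        · rw [mem_toS, Bool.not_eq_true] at hj
          rw [hj]; rfl
        · rw [mem_toS] at hj
          rw [hj]; simp
      rw [h4] at h3
      simp only [Bool.not_false, Bool.and_true, Bool.not_true, Bool.false_or] at h3
      exact (okB_iff W hn h (gQ W g) (gR' W g) (2 * W) (3 * W) i j).1 h3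
    · intro h1 i hi
      rw [allB_iff]
      intro j hj
      by_cases h2 : (A.getD i false && !(X.getD i false)) = true
      · by_cases h3 : (!(A.getD j false) || X.getD j false) = true
        · have h4 : (⟨j, hj⟩ : Fin n) ∉ toS n A ∨ (⟨j, hj⟩ : Fin n) ∈ toS n X := by
            rw [Bool.or_eq_true, Bool.not_eq_true'] at h3
            rcases h3 with h3 | h3
            · left; rw [mem_toS, Bool.not_eq_true]; exact h3
            · right; rw [mem_toS]; exact h3
          rw [Bool.and_eq_true, Bool.not_eq_true'] at h2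
          have := (okB_iff W hn h (gQ W g) (gR' W g) (2 * W) (3 * W) ⟨i, hi⟩ ⟨j, hj⟩).2
            (h1 ⟨i, hi⟩ (mem_toS.2 h2.1) (by rw [mem_toS, Bool.not_eq_true]; exact h2.2) ⟨j, hj⟩ h4)
          simp only at this
          rw [this]; simp
        · rw [Bool.not_eq_true] at h3
          rw [h3]; simp
      · rw [Bool.not_eq_true] at h2
        rw [h2]; rfl

theorem exists_gs (W : ℕ) {n : ℕ} (hn : 0 < n) (g₀ : Guess (Fin n) W) (hr : g₀.r ≤ W)
    (hr' : g₀.r' ≤ W) : ∃ g < GN W n, gs W hn g = g₀ := by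
  classical
  set c : Fin (4 * W + 1) → ℕ := fun k =>
    if h1 : (k : ℕ) < W then (g₀.R ⟨k, h1⟩ : ℕ)
    else if h2 : (k : ℕ) - W < W then (g₀.C ⟨k - W, h2⟩ : ℕ)
    else if h3 : (k : ℕ) - 2 * W < W then (g₀.R' ⟨k - 2 * W, h3⟩ : ℕ)
    else if h4 : (k : ℕ) - 3 * W < W then (g₀.C' ⟨k - 3 * W, h4⟩ : ℕ)
    else (g₀.x₀ : ℕ) with hc
  have hcn : ∀ k, c k < n := by
    intro k
    simp only [hc]
    split_ifs <;> exact Fin.isLt _
  obtain ⟨q, hq, hdg⟩ := exists_dg c hcn
  set g := g₀.r + (W + 1) * (g₀.r' + (W + 1) * q) with hg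
  have e1 : gR W g = g₀.r := by
    unfold gR
    rw [hg, Nat.add_mul_mod_self_left]
    exact Nat.mod_eq_of_lt (by omega)
  have e2 : g / (W + 1) = g₀.r' + (W + 1) * q := by
    rw [hg, Nat.add_mul_div_left _ _ (by omega), Nat.div_eq_of_lt (by omega), zero_add]
  have e3 : gR' W g = g₀.r' := by
    unfold gR'
    rw [e2, Nat.add_mul_mod_self_left]
    exact Nat.mod_eq_of_lt (by omega)
  have e4 : gQ W g = q := by
    unfold gQ
    rw [e2, Nat.add_mul_div_left _ _ (by omega), Nat.div_eq_of_lt (by omega), zero_add]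
  refine ⟨g, ?_, ?_⟩
  · unfold GN
    have h1 : g₀.r' + (W + 1) * q < (W + 1) * n ^ (4 * W + 1) := by
      calc g₀.r' + (W + 1) * q < (W + 1) + (W + 1) * q := by omega
        _ = (W + 1) * (q + 1) := by ring
        _ ≤ (W + 1) * n ^ (4 * W + 1) := Nat.mul_le_mul_left _ hq
    calc g < (W + 1) + (W + 1) * (g₀.r' + (W + 1) * q) := by omega
      _ = (W + 1) * (g₀.r' + (W + 1) * q + 1) := by ring
      _ ≤ (W + 1) * ((W + 1) * n ^ (4 * W + 1)) := Nat.mul_le_mul_left _ h1
      _ = _ := by ring
  · have hR : ∀ k : Fin W, dg n q (0 + k) = (g₀.R k : ℕ) := by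
      intro k
      have hk : ((k : ℕ)) < 4 * W + 1 := by have := k.2; omega
      have := hdg ⟨k, hk⟩
      simp only [hc] at this
      rw [dif_pos k.2] at this
      rw [zero_add]; exact this
    have hC : ∀ k : Fin W, dg n q (W + k) = (g₀.C k : ℕ) := by
      intro k
      have hk2 := k.2
      have hk : (W + (k : ℕ)) < 4 * W + 1 := by omega
      have := hdg ⟨W + k, hk⟩
      simp only [hc] at this
      rw [dif_neg (by omega), dif_pos (by omega)] at this
      rw [this]
      congr 2
      apply Fin.ext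
      simp
    have hR' : ∀ k : Fin W, dg n q (2 * W + k) = (g₀.R' k : ℕ) := by
      intro k
      have hk2 := k.2
      have hk : (2 * W + (k : ℕ)) < 4 * W + 1 := by omega
      have := hdg ⟨2 * W + k, hk⟩
      simp only [hc] at this
      rw [dif_neg (by omega), dif_neg (by omega), dif_pos (by omega)] at this
      rw [this]
      congr 2
      apply Fin.ext
      simp
    have hC' : ∀ k : Fin W, dg n q (3 * W + k) = (g₀.C' k : ℕ) := by
      intro k
      have hk2 := k.2
      have hk : (3 * W + (k : ℕ)) < 4 * W + 1 := by omega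
      have := hdg ⟨3 * W + k, hk⟩
      simp only [hc] at this
      rw [dif_neg (by omega), dif_neg (by omega), dif_neg (by omega), dif_pos (by omega)] at this
      rw [this]
      congr 2
      apply Fin.ext
      simp
    have hx : dg n q (4 * W) = (g₀.x₀ : ℕ) := by
      have hk : (4 * W) < 4 * W + 1 := by omega
      have := hdg ⟨4 * W, hk⟩
      simp only [hc] at this
      rcases Nat.eq_zero_or_pos W with h0 | h0
      · rw [dif_neg (by omega), dif_neg (by omega), dif_neg (by omega), dif_neg (by omega)] at this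
        exact this
      · rw [dif_neg (by omega), dif_neg (by omega), dif_neg (by omega), dif_neg (by omega)] at this
        exact this
    unfold gs
    rw [e1, e3, e4]
    cases g₀ with
    | mk r r' R C R' C' x₀ =>
      simp only [Guess.mk.injEq, true_and]
      refine ⟨?_, ?_, ?_, ?_, ?_⟩
      · funext k; apply Fin.ext; rw [vtx_val]; exact hR k
      · funext k; apply Fin.ext; rw [vtx_val]; exact hC k
      · funext k; apply Fin.ext; rw [vtx_val]; exact hR' k
      · funext k; apply Fin.ext; rw [vtx_val]; exact hC' k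
      · apply Fin.ext; rw [vtx_val]; exact hx

theorem splitB_spec {W n : ℕ} {h A : List Bool}
    (hs : ∃ A₁ A₂ : Finset (Fin n), A₁.Nonempty ∧ A₂.Nonempty ∧ Disjoint A₁ A₂ ∧
      A₁ ∪ A₂ = toS n A ∧ cut (CG n h) A₁ ≤ W ∧ cut (CG n h) A₂ ≤ W) :
    (toS n (splitB W n h A)).Nonempty ∧ toS n (splitB W n h A) ⊆ toS n A ∧
      (toS n A \ toS n (splitB W n h A)).Nonempty ∧
      cut (CG n h) (toS n (splitB W n h A)) ≤ W ∧
      cut (CG n h) (toS n A \ toS n (splitB W n h A)) ≤ W := by
  obtain ⟨A₁, A₂, h1, h2, hd, hu, c1, c2⟩ := hs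
  have hn : 0 < n := by
    obtain ⟨x, _⟩ := h1
    exact lt_of_le_of_lt (Nat.zero_le _) x.2
  obtain ⟨g₀, hr, hr', hv⟩ := valid_complete (G := CG n h) h1 h2 hd hu c1 c2 (n := n) (by simp)
  obtain ⟨g, hg, hgs⟩ := exists_gs W hn g₀ hr hr'
  have hvB : validB W n h A g = true := by
    unfold validB
    rw [validX_iff W hn, cloB_toS W hn, hgs]
    exact hv
  obtain ⟨hm1, hm2⟩ := mu_spec (n := GN W n) (φ := fun g => validB W n h A g) ⟨g, hg, hvB⟩
  unfold validB at hm2
  rw [validX_iff W hn] at hm2
  have hres := valid_sound (G := CG n h) (W := W) (A := toS n A) (g := gs W hn (mu (GN W n) (fun g => validB W n h A g)))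
    (Nat.lt_succ_iff.1 (Nat.mod_lt _ (Nat.succ_pos W))) (Nat.lt_succ_iff.1 (Nat.mod_lt _ (Nat.succ_pos W))) hm2
  exact hres

end GemCW
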