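import Pool.Agent.Lib.GemCW.RkA

/-!
# Submodularity of the cut rank

`cut G (X ∩ Y) + cut G (X ∪ Y) ≤ cut G X + cut G Y`.

Proof.  Let `M` be the `V × V` adjacency matrix over `ZMod 2`.  Consider the vectors
`r_u` (`u ∈ V`, the rows of `M`) and `e_v` (`v ∈ V`, the standard basis) in `V → ZMod 2`.  For
`X ⊆ V` let `f X` be the dimension of the span of `{r_u : u ∈ X} ∪ {e_v : v ∈ X}`.  Modulo the span
of the `e_v`, `v ∈ X`, the row `r_u` becomes its restriction to `Xᶜ`, so
`f X = |X| + cut G X` .
For subspaces, `f` is submodular: `span (S ∩ T) ⊆ span S ⊓ span T` and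
`span (S ∪ T) = span S ⊔ span T`, and `dim (A ⊔ B) + dim (A ⊓ B) = dim A + dim B`
(`Submodule.finrank_sup_add_finrank_inf_eq`).  Together with `|X ∩ Y| + |X ∪ Y| = |X| + |Y|` this
gives the claim.

Key step `f X = |X| + cut G X`: the subspace `W = span {e_v : v ∈ X}` has dimension `|X|`; the
linear map `π : (V → ZMod 2) → (V → ZMod 2)` which kills the coordinates in `X` has kernel `W`;
apply rank-nullity to the restriction of `π` to `span(..)`, whose kernel is `W` (as
`W ⊆ span(..)`) and whose range is the span of the `π r_u`, `u ∈ X`, i.e. the row space of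
the matrix defining `rk G X Xᶜ`  (`Matrix.rank_eq_finrank_span_row`).
-/

namespace GemCW

open Finset

variable {V : Type*} [Fintype V] [DecidableEq V]

namespace SubmodAux

set_option linter.unusedSectionVars false

variable (K : Type*) [Field K]

/-- rows of the adjacency matrix -/
noncomputable def row (G : SimpleGraph V) (u : V) : V → K :=
  open scoped Classical in fun v => if G.Adj u v then 1 else 0

open scoped Classical in
/-- the cut rank over `K` -/
noncomputable def cutK (G : SimpleGraph V) (X : Finset V) : ℕ :=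
  (Matrix.of (fun u v : V => if u ∈ X ∧ v ∈ Xᶜ ∧ G.Adj u v then (1 : K) else 0)).rank

/-- the span of the unit vectors in `X` -/
def W (X : Finset V) : Submodule K (V → K) :=
  Submodule.span K (Set.range (fun v : X => (Pi.single (v : V) (1 : K) : V → K)))

/-- the span of the rows in `X` -/
noncomputable def R (G : SimpleGraph V) (X : Finset V) : Submodule K (V → K) :=
  Submodule.span K (Set.range (fun v : X => row K G (v : V)))

theorem finrank_W (X : Finset V) : Module.finrank K (W K X) = X.card := by
  have h : LinearIndependent K (fun v : X => (Pi.single (v : V) (1 : K) : V → K)) := by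
    have h1 := (Pi.basisFun K V).linearIndependent.comp (fun v : X => (v : V))
      Subtype.val_injective
    convert h1 using 1
    funext v
    simp
  rw [W, finrank_span_eq_card h, Fintype.card_coe]

/-- kills the coordinates in `X` -/
def pr (X : Finset V) : (V → K) →ₗ[K] (V → K) where
  toFun f := fun v => if v ∈ X then 0 else f v
  map_add' f g := by
    funext v
    by_cases h : v ∈ X <;> simp [h]
  map_smul' c f := by
    funext v
    by_cases h : v ∈ X <;> simp [h]

theorem pr_apply (X : Finset V) (f : V → K) (v : V) : pr K X f v = if v ∈ X then 0 else f v := rfl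

theorem ker_pr (X : Finset V) : LinearMap.ker (pr K X) = W K X := by
  apply le_antisymm
  · intro f hf
    rw [LinearMap.mem_ker] at hf
    have h0 : ∀ v ∉ X, f v = 0 := by
      intro v hv
      have := congrFun hf v
      rw [pr_apply, if_neg hv] at this
      exact this
    have hs : f = ∑ v ∈ X, f v • (Pi.single v (1 : K) : V → K) := by
      funext w
      rw [Finset.sum_apply]
      simp only [Pi.smul_apply, smul_eq_mul, Pi.single_apply, mul_ite, mul_one, mul_zero]
      rw [Finset.sum_ite_eq]
      by_cases hw : w ∈ X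
      · rw [if_pos hw]
      · rw [if_neg hw, h0 w hw]
    rw [hs]
    refine Submodule.sum_mem _ fun v hv => Submodule.smul_mem _ _ ?_
    exact Submodule.subset_span ⟨⟨v, hv⟩, rfl⟩
  · rw [W, Submodule.span_le]
    rintro _ ⟨v, rfl⟩
    show (Pi.single (v : V) (1 : K) : V → K) ∈ LinearMap.ker (pr K X)
    rw [LinearMap.mem_ker]
    funext w
    rw [pr_apply]
    by_cases hw : w ∈ X
    · rw [if_pos hw]; rfl
    · rw [if_neg hw, Pi.single_apply, if_neg]
      · rfl
      · rintro rfl
        exact hw v.2

theorem map_R (G : SimpleGraph V) (X : Finset V) :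
    Module.finrank K ((R K G X).map (pr K X)) = cutK K G X := by
  classical
  have key : (R K G X).map (pr K X) = Submodule.span K (Set.range (Matrix.of (fun u v : V =>
      if u ∈ X ∧ v ∈ Xᶜ ∧ G.Adj u v then (1 : K) else 0)).row) := ?_
  · rw [cutK, Matrix.rank_eq_finrank_span_row, key]
  apply le_antisymm
  · rw [R, Submodule.map_span, Submodule.span_le]
    rintro _ ⟨_, ⟨u, rfl⟩, rfl⟩
    apply Submodule.subset_span
    refine ⟨(u : V), ?_⟩
    funext v
    rw [pr_apply]
    simp only [Matrix.row, Matrix.of_apply, row, Finset.mem_compl]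
    by_cases hv : v ∈ X <;> simp [hv]
  · rw [Submodule.span_le]
    rintro _ ⟨u, rfl⟩
    by_cases hu : u ∈ X
    · refine ⟨row K G u, Submodule.subset_span ⟨⟨u, hu⟩, rfl⟩, ?_⟩
      funext v
      rw [pr_apply]
      simp only [Matrix.row, Matrix.of_apply, row, Finset.mem_compl]
      by_cases hv : v ∈ X <;> simp [hv, hu]
    · have h0 : (Matrix.of (fun u v : V => if u ∈ X ∧ v ∈ Xᶜ ∧ G.Adj u v then (1 : K)
          else 0)).row u = 0 := by
        funext v
        simp [Matrix.row, hu]
      rw [h0]
      exact Submodule.zero_mem _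

theorem map_W (X : Finset V) : (W K X).map (pr K X) = ⊥ := by
  rw [← ker_pr]
  exact eq_bot_iff.mpr (Submodule.map_le_iff_le_comap.mpr (by rw [Submodule.comap_bot]))

theorem finrank_F (G : SimpleGraph V) (X : Finset V) :
    Module.finrank K ((R K G X ⊔ W K X : Submodule K (V → K))) = cutK K G X + X.card := by
  set F := R K G X ⊔ W K X with hF
  have h1 := LinearMap.finrank_range_add_finrank_ker ((pr K X).domRestrict F)
  rw [LinearMap.range_domRestrict, LinearMap.ker_domRestrict] at h1
  have h2 : F.map (pr K X) = (R K G X).map (pr K X) := by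
    rw [hF, Submodule.map_sup, map_W, sup_bot_eq]
  rw [h2, map_R, ker_pr] at h1
  have h3 : Module.finrank K ((W K X).comap F.subtype) = Module.finrank K (W K X) :=
    (Submodule.comapSubtypeEquivOfLe (le_sup_right : W K X ≤ R K G X ⊔ W K X)).finrank_eq
  rw [← h1]
  congr 1
  rw [← finrank_W K X, ← h3]

theorem R_mono (G : SimpleGraph V) {X Y : Finset V} (h : X ⊆ Y) : R K G X ≤ R K G Y := by
  apply Submodule.span_mono
  rintro _ ⟨u, rfl⟩
  exact ⟨⟨u, h u.2⟩, rfl⟩

theorem W_mono {X Y : Finset V} (h : X ⊆ Y) : W K X ≤ W K Y := by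
  apply Submodule.span_mono
  rintro _ ⟨u, rfl⟩
  exact ⟨⟨u, h u.2⟩, rfl⟩

theorem R_union (G : SimpleGraph V) (X Y : Finset V) : R K G (X ∪ Y) ≤ R K G X ⊔ R K G Y := by
  rw [R, Submodule.span_le]
  rintro _ ⟨⟨u, hu⟩, rfl⟩
  rcases Finset.mem_union.mp hu with h | h
  · exact Submodule.mem_sup_left (Submodule.subset_span ⟨⟨u, h⟩, rfl⟩)
  · exact Submodule.mem_sup_right (Submodule.subset_span ⟨⟨u, h⟩, rfl⟩)

theorem W_union (X Y : Finset V) : W K (X ∪ Y) ≤ W K X ⊔ W K Y := by
  rw [W, Submodule.span_le]
  rintro _ ⟨⟨u, hu⟩, rfl⟩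
  rcases Finset.mem_union.mp hu with h | h
  · exact Submodule.mem_sup_left (Submodule.subset_span ⟨⟨u, h⟩, rfl⟩)
  · exact Submodule.mem_sup_right (Submodule.subset_span ⟨⟨u, h⟩, rfl⟩)

theorem cutK_submod (G : SimpleGraph V) (X Y : Finset V) :
    cutK K G (X ∩ Y) + cutK K G (X ∪ Y) ≤ cutK K G X + cutK K G Y := by
  have e1 := finrank_F K G (X ∩ Y)
  have e2 := finrank_F K G (X ∪ Y)
  have e3 := finrank_F K G X
  have e4 := finrank_F K G Y
  have hc := Finset.card_union_add_card_inter X Y
  have hd := Submodule.finrank_sup_add_finrank_inf_eq (R K G X ⊔ W K X) (R K G Y ⊔ W K Y)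
  have hi : Module.finrank K ((R K G (X ∩ Y) ⊔ W K (X ∩ Y) : Submodule K (V → K))) ≤
      Module.finrank K
        (((R K G X ⊔ W K X) ⊓ (R K G Y ⊔ W K Y) : Submodule K (V → K))) := by
    apply Submodule.finrank_mono
    apply le_inf
    · exact sup_le_sup (R_mono K G Finset.inter_subset_left) (W_mono K Finset.inter_subset_left)
    · exact sup_le_sup (R_mono K G Finset.inter_subset_right) (W_mono K Finset.inter_subset_right)
  have hu : Module.finrank K ((R K G (X ∪ Y) ⊔ W K (X ∪ Y) : Submodule K (V → K))) ≤
      Module.finrank K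
        (((R K G X ⊔ W K X) ⊔ (R K G Y ⊔ W K Y) : Submodule K (V → K))) := by
    apply Submodule.finrank_mono
    apply sup_le
    · exact (R_union K G X Y).trans (sup_le_sup le_sup_left le_sup_left)
    · exact (W_union K X Y).trans (sup_le_sup le_sup_right le_sup_right)
  omega

end SubmodAux

theorem cut_submod (G : SimpleGraph V) (X Y : Finset V) :
    cut G (X ∩ Y) + cut G (X ∪ Y) ≤ cut G X + cut G Y := by
  have h : ∀ Z : Finset V, cut G Z = SubmodAux.cutK (ZMod 2) G Z := by
    intro Z
    unfold cut rk SubmodAux.cutK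
    congr!
  rw [h, h, h, h]
  exact SubmodAux.cutK_submod (ZMod 2) G X Y

end GemCW
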