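import Pool.Agent.Lib.GemCW.Defs

/-!
# Thin cuts, I: local facts

Situation (`TCx G v d L`): `G` is (gem, P₂+P₃)-free, `v ~ d`, `L` is a co-component of
`N(v) ∩ N(d)`.  `InW x` : `x ≁ v`, `x ≁ d` (so `x ≠ v, d`).  `Mixed r`: `InW r` and `r` has a neighbour
and a non-neighbour in `L`.  `Tail p`: `p ≠ v, d` is adjacent to exactly one of `v`, `d`.

Proofs.
* `W_cluster`: `P₃` `a - b - c` in `W` and the edge `v d`.
* `out_const`: let `t ∉ L`, not `InW t`.  If `t = v` or `t = d`: complete to `L`.  If `t ~ v` and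
  `t ~ d`: `t ∈ C \ L` is complete to `L` (`full`).  If `t ~ v`, `t ≁ d`, `t ≠ d` and `t` is mixed on
  `L`: by `conn` (with `A = nb G t L`) there are `y, x ∈ L`, `t ~ y`, `t ≁ x`, `y ≁ x`; then
  `x - d - y - t` is an induced path inside `N(v)`: gem.  Symmetrically for `t ~ d`, `t ≁ v`.
* `mixed_pair`: for mixed `r` there are `y, x ∈ L` with `r ~ y`, `r ≁ x`, `y ≁ x` (`conn` for
  `A = nb G r L`).
* `mixed_no_cn`: `r` mixed, `p ∈ N(v) ∩ N(d)`, `p ∉ L`: if `r ~ p` then with the pair `y, x` from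
  `mixed_pair` the path `r - y - v - x` (`r ~ y`, `y ~ v`, `v ~ x`; `r ≁ v`, `y ≁ x`, `r ≁ x`) is
  dominated by `p`: gem.
* `mixed_tail_empty`: `r` mixed, `p` a tail (say `p ~ v`, `p ≁ d`), `r ~ p`.  By `out_const` `p` is
  complete or empty on `L`.  If complete: the path `r - y - v - x` is dominated by `p`
  (`p ~ r, y, v, x`): gem.  So `p` is empty on `L`.
* `g1`: `a, b ∈ W`, `a ~ b`, `p` a tail empty on `L`, `p ~ a`, `p ≁ b`, `p ≠ b`.  If `x ∈ L` were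
  nonadjacent to `a, b`: the path `b - a - p` and the edge `x d` (if `p ~ v`; else `x v`) form
  `P₂+P₃`.
* `f3`: `a, b ∈ W`, `a ≁ b`, `a ≠ b`, `p ~ a`, `p ~ b`: same with the path `a - p - b`.
* `b3`: `a, b ∈ W`, `a ≁ b`, `p ~ a`, `p ≁ b`, `x ∈ L`, `b ~ x`: if `a ≁ x` then the edge
  `a p` and the path `d - x - b` (if `p ~ v`; else `v - x - b`) form `P₂+P₃`.
* `g3`: `a, b ∈ W`, `a ~ b`, `x, y ∈ L`, `a ~ x`, `b ~ x`, `a ~ y`, `b ≁ y`: if `x ~ y` then the path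
  `b - a - y - v` is dominated by `x`: gem.
* `b1`: `a, b ∈ W`, `a ~ b`, `c ∈ W` nonadjacent to `a, b`, `x ∈ L`, `c ~ x`: then `x ~ a` or `x ~ b`:
  otherwise path `v - x - c` and edge `a b`.
* `b2`: `r` mixed, `b ∈ W`, `r ~ b`, `w ∈ W` nonadjacent to `r` and `b`, `p ∉ L`, `¬ InW p`, `p ~ w`,
  `p ≁ b`: then `p` is a tail, `p ~ r`, `p` is empty on `L`.  Proof: `p ≠ v, d` (`p ~ w`).
  If `p ≁ r`: `p` is adjacent to `v` or `d`, say `v`; the path `w - p - v` and the edge `r b` form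
  `P₂+P₃`.  So `p ~ r`; by `mixed_no_cn` `p` is not adjacent to both `v, d`; so it is a tail and
  `mixed_tail_empty` applies.
(All need `w ≠ v` etc.; these follow from the adjacencies.)
-/

namespace GemCW

open Finset

variable {V : Type*} [Fintype V] [DecidableEq V]

/-- the situation of the thin cut lemma -/
structure TCx (G : SimpleGraph V) (v d : V) (L : Finset V) : Prop where
  cls : Cls G
  vd : G.Adj v d
  co : CoComp G (cn G v d) L

/-- `x` lies in `W = M(v) ∩ M(d)` -/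
def InW (G : SimpleGraph V) (v d x : V) : Prop := ¬ G.Adj v x ∧ ¬ G.Adj d x

/-- mixed vertices of `W` -/
def Mixed (G : SimpleGraph V) (v d : V) (L : Finset V) (r : V) : Prop :=
  InW G v d r ∧ (∃ x ∈ L, G.Adj r x) ∧ ∃ x ∈ L, ¬ G.Adj r x

/-- adjacent to exactly one of `v`, `d` -/
def Tail (G : SimpleGraph V) (v d p : V) : Prop :=
  p ≠ v ∧ p ≠ d ∧ ((G.Adj v p ∧ ¬ G.Adj d p) ∨ (G.Adj d p ∧ ¬ G.Adj v p))

section
variable {G : SimpleGraph V} {v d : V} {L : Finset V}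

theorem TCx.symm (h : TCx G v d L) : TCx G d v L := by
  have hc : cn G d v = cn G v d := by
    ext x
    rw [mem_cn, mem_cn, and_comm]
  exact ⟨h.cls, h.vd.symm, by rw [hc]; exact h.co⟩

theorem TCx.adjL (h : TCx G v d L) {x : V} (hx : x ∈ L) : G.Adj v x ∧ G.Adj d x :=
  mem_cn.1 (h.co.sub hx)

theorem InW.symm {x : V} (hx : InW G v d x) : InW G d v x := ⟨hx.2, hx.1⟩

theorem Mixed.symm {x : V} (hx : Mixed G v d L x) : Mixed G d v L x := ⟨hx.1.symm, hx.2⟩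

theorem Tail.symm {x : V} (hx : Tail G v d x) : Tail G d v x := by
  obtain ⟨h1, h2, h3⟩ := hx
  exact ⟨h2, h1, h3.symm⟩

theorem TCx.ne_v (_h : TCx G v d L) {x : V} (hx : InW G v d x) : x ≠ v ∧ x ≠ d := by
  constructor
  · rintro rfl
    exact hx.2 _h.vd.symm
  · rintro rfl
    exact hx.1 _h.vd

theorem TCx.w_cluster (h : TCx G v d L) {a b c : V} (ha : InW G v d a) (hb : InW G v d b)
    (hc : InW G v d c) (hab : G.Adj a b) (hbc : G.Adj b c) (hac : a ≠ c) : G.Adj a c := by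
  by_contra hn
  exact h.cls.pp v d a b c h.vd hab hbc hn hac ha.1 hb.1 hc.1 ha.2 hb.2 hc.2

/-- a vertex `y ∈ L` adjacent to `t` and a vertex `x ∈ L` not adjacent to `t`, `y ≁ x` -/
theorem TCx.split (h : TCx G v d L) {t : V} (h1 : ∃ x ∈ L, G.Adj t x) (h2 : ∃ x ∈ L, ¬ G.Adj t x) :
    ∃ y ∈ L, ∃ x ∈ L, G.Adj t y ∧ ¬ G.Adj t x ∧ ¬ G.Adj y x := by
  obtain ⟨x1, hx1, hx1'⟩ := h1
  obtain ⟨x2, hx2, hx2'⟩ := h2
  obtain ⟨y, hy, x, hx, hxn, hyx⟩ := h.co.conn (nb G t L) nb_sub ⟨x1, mem_nb.2 ⟨hx1, hx1'⟩⟩ (by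
    intro he
    apply hx2'
    rw [← he] at hx2
    exact (mem_nb.1 hx2).2)
  refine ⟨y, (mem_nb.1 hy).1, x, hx, (mem_nb.1 hy).2, ?_, hyx⟩
  intro hc
  exact hxn (mem_nb.2 ⟨hx, hc⟩)

private theorem TCx.out_const_aux (h : TCx G v d L) {t : V} (h1 : G.Adj v t)
    (h2 : ¬ G.Adj d t) :
    (∀ x ∈ L, G.Adj t x) ∨ (∀ x ∈ L, ¬ G.Adj t x) := by
  by_contra hcon
  push Not at hcon
  obtain ⟨⟨x2, hx2, hx2'⟩, x1, hx1, hx1'⟩ := hcon
  obtain ⟨y, hy, x, hx, hty, htx, hyx⟩ := h.split ⟨x1, hx1, hx1'⟩ ⟨x2, hx2, hx2'⟩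
  exact h.cls.gem x d y t v (h.adjL hx).2.symm (h.adjL hy).2 hty.symm (fun hh => hyx hh.symm) h2
    (fun hh => htx hh.symm) (h.adjL hx).1 h.vd (h.adjL hy).1 h1

theorem TCx.out_const (h : TCx G v d L) {t : V} (htL : t ∉ L) (htW : ¬ InW G v d t) :
    (∀ x ∈ L, G.Adj t x) ∨ (∀ x ∈ L, ¬ G.Adj t x) := by
  by_cases h1 : G.Adj v t
  · by_cases h2 : G.Adj d t
    · left
      exact h.co.full t (mem_cn.2 ⟨h1, h2⟩) htL
    · exact h.out_const_aux h1 h2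
  · by_cases h2 : G.Adj d t
    · exact h.symm.out_const_aux h2 h1
    · exact absurd ⟨h1, h2⟩ htW

theorem TCx.mixed_pair (h : TCx G v d L) {r : V} (hr : Mixed G v d L r) :
    ∃ y ∈ L, ∃ x ∈ L, G.Adj r y ∧ ¬ G.Adj r x ∧ ¬ G.Adj y x :=
  h.split hr.2.1 hr.2.2

theorem TCx.mixed_no_cn (h : TCx G v d L) {r p : V} (hr : Mixed G v d L r)
    (hp : G.Adj v p ∧ G.Adj d p) (hpL : p ∉ L) : ¬ G.Adj r p := by
  intro hrp
  obtain ⟨y, hy, x, hx, hry, hrx, hyx⟩ := h.mixed_pair hr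
  have hpf := h.co.full p (mem_cn.2 hp) hpL
  exact h.cls.gem r y v x p hry (h.adjL hy).1.symm (h.adjL hx).1 (fun hh => hr.1.1 hh.symm) hyx hrx
    hrp.symm (hpf y hy) hp.1.symm (hpf x hx)

private theorem TCx.mixed_tail_empty_aux (h : TCx G v d L) {r p : V} (hr : Mixed G v d L r)
    (hvp : G.Adj v p) (hdp : ¬ G.Adj d p) (hrp : G.Adj r p) : ∀ x ∈ L, ¬ G.Adj p x := by
  have hpL : p ∉ L := fun hh => hdp (h.adjL hh).2
  have hpW : ¬ InW G v d p := fun hh => hh.1 hvp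
  rcases h.out_const hpL hpW with h1 | h1
  · exfalso
    obtain ⟨y, hy, x, hx, hry, hrx, hyx⟩ := h.mixed_pair hr
    exact h.cls.gem r y v x p hry (h.adjL hy).1.symm (h.adjL hx).1 (fun hh => hr.1.1 hh.symm) hyx
      hrx hrp.symm (h1 y hy) hvp.symm (h1 x hx)
  · exact h1

theorem TCx.mixed_tail_empty (h : TCx G v d L) {r p : V} (hr : Mixed G v d L r)
    (hp : Tail G v d p) (hrp : G.Adj r p) : ∀ x ∈ L, ¬ G.Adj p x := by
  rcases hp.2.2 with h1 | h1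
  · exact h.mixed_tail_empty_aux hr h1.1 h1.2 hrp
  · exact h.symm.mixed_tail_empty_aux hr.symm h1.1 h1.2 hrp

/-- a vertex outside `L ∪ W` adjacent to a mixed vertex is a tail, empty on `L` -/
theorem TCx.mixed_nbr (h : TCx G v d L) {r p : V} (hr : Mixed G v d L r)
    (hpL : p ∉ L) (hpW : ¬ InW G v d p) (hrp : G.Adj r p) :
    Tail G v d p ∧ ∀ x ∈ L, ¬ G.Adj p x := by
  have ht : Tail G v d p := by
    refine ⟨?_, ?_, ?_⟩
    · rintro rfl
      exact hr.1.1 hrp.symm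
    · rintro rfl
      exact hr.1.2 hrp.symm
    · by_cases h1 : G.Adj v p
      · by_cases h2 : G.Adj d p
        · exact absurd hrp (h.mixed_no_cn hr ⟨h1, h2⟩ hpL)
        · exact Or.inl ⟨h1, h2⟩
      · by_cases h2 : G.Adj d p
        · exact Or.inr ⟨h2, h1⟩
        · exact absurd ⟨h1, h2⟩ hpW
  exact ⟨ht, h.mixed_tail_empty hr ht hrp⟩

theorem TCx.tail_not_inW {p : V} (hp : Tail G v d p) : ¬ InW G v d p := by
  intro hh
  rcases hp.2.2 with h1 | h1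
  · exact hh.1 h1.1
  · exact hh.2 h1.1

private theorem TCx.g1_aux (h : TCx G v d L) {a b p : V} (ha : InW G v d a) (hb : InW G v d b)
    (hdp : ¬ G.Adj d p) (hbp' : b ≠ p) (hpe : ∀ x ∈ L, ¬ G.Adj p x) (hab : G.Adj a b)
    (hpa : G.Adj p a) (hpb : ¬ G.Adj p b) : ∀ x ∈ L, G.Adj a x ∨ G.Adj b x := by
  intro x hx
  by_contra hcon
  push Not at hcon
  exact h.cls.pp x d b a p (h.adjL hx).2.symm hab.symm hpa.symm (fun hh => hpb hh.symm) hbp'
    (fun hh => hcon.2 hh.symm) (fun hh => hcon.1 hh.symm) (fun hh => hpe x hx hh.symm)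
    hb.2 ha.2 hdp

theorem TCx.g1 (h : TCx G v d L) {a b p : V} (ha : InW G v d a) (hb : InW G v d b)
    (hp : Tail G v d p) (hpe : ∀ x ∈ L, ¬ G.Adj p x) (hab : G.Adj a b) (hpa : G.Adj p a)
    (hpb : ¬ G.Adj p b) : ∀ x ∈ L, G.Adj a x ∨ G.Adj b x := by
  have hbp : b ≠ p := by
    rintro rfl
    exact TCx.tail_not_inW hp hb
  rcases hp.2.2 with h1 | h1
  · exact h.g1_aux ha hb h1.2 hbp hpe hab hpa hpb
  · exact h.symm.g1_aux ha.symm hb.symm h1.2 hbp hpe hab hpa hpb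

private theorem TCx.f3_aux (h : TCx G v d L) {a b p : V} (ha : InW G v d a) (hb : InW G v d b)
    (hdp : ¬ G.Adj d p) (hpe : ∀ x ∈ L, ¬ G.Adj p x) (hab : ¬ G.Adj a b) (hne : a ≠ b)
    (hpa : G.Adj p a) (hpb : G.Adj p b) : ∀ x ∈ L, G.Adj a x ∨ G.Adj b x := by
  intro x hx
  by_contra hcon
  push Not at hcon
  exact h.cls.pp x d a p b (h.adjL hx).2.symm hpa.symm hpb hab hne
    (fun hh => hcon.1 hh.symm) (fun hh => hpe x hx hh.symm) (fun hh => hcon.2 hh.symm)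
    ha.2 hdp hb.2

theorem TCx.f3 (h : TCx G v d L) {a b p : V} (ha : InW G v d a) (hb : InW G v d b)
    (hp : Tail G v d p) (hpe : ∀ x ∈ L, ¬ G.Adj p x) (hab : ¬ G.Adj a b) (hne : a ≠ b)
    (hpa : G.Adj p a) (hpb : G.Adj p b) : ∀ x ∈ L, G.Adj a x ∨ G.Adj b x := by
  rcases hp.2.2 with h1 | h1
  · exact h.f3_aux ha hb h1.2 hpe hab hne hpa hpb
  · exact h.symm.f3_aux ha.symm hb.symm h1.2 hpe hab hne hpa hpb

private theorem TCx.b3_aux (h : TCx G v d L) {a b p : V} (ha : InW G v d a) (hb : InW G v d b)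
    (hdp : ¬ G.Adj d p) (hpe : ∀ x ∈ L, ¬ G.Adj p x) (hab : ¬ G.Adj a b)
    (hpa : G.Adj p a) (hpb : ¬ G.Adj p b) : ∀ x ∈ L, G.Adj b x → G.Adj a x := by
  intro x hx hbx
  by_contra hax
  exact h.cls.pp a p d x b hpa.symm (h.adjL hx).2 hbx.symm hb.2 (h.ne_v hb).2.symm
    (fun hh => ha.2 hh.symm) hax hab (fun hh => hdp hh.symm) (hpe x hx) hpb

theorem TCx.b3 (h : TCx G v d L) {a b p : V} (ha : InW G v d a) (hb : InW G v d b)
    (hp : Tail G v d p) (hpe : ∀ x ∈ L, ¬ G.Adj p x) (hab : ¬ G.Adj a b) (hne : a ≠ b)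
    (hpa : G.Adj p a) (hpb : ¬ G.Adj p b) : ∀ x ∈ L, G.Adj b x → G.Adj a x := by
  rcases hp.2.2 with h1 | h1
  · exact h.b3_aux ha hb h1.2 hpe hab hpa hpb
  · exact h.symm.b3_aux ha.symm hb.symm h1.2 hpe hab hpa hpb

theorem TCx.g3 (h : TCx G v d L) {a b x y : V} (ha : InW G v d a) (hb : InW G v d b)
    (hab : G.Adj a b) (hx : x ∈ L) (hy : y ∈ L) (hax : G.Adj a x) (hbx : G.Adj b x)
    (hay : G.Adj a y) (hby : ¬ G.Adj b y) : ¬ G.Adj x y := by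
  intro hxy
  exact h.cls.gem b a y v x hab.symm hay (h.adjL hy).1.symm hby (fun hh => ha.1 hh.symm)
    (fun hh => hb.1 hh.symm) hbx.symm hax.symm hxy (h.adjL hx).1.symm

theorem TCx.b1 (h : TCx G v d L) {a b c x : V} (ha : InW G v d a) (hb : InW G v d b)
    (hc : InW G v d c) (hab : G.Adj a b) (hca : ¬ G.Adj c a) (hcb : ¬ G.Adj c b)
    (hx : x ∈ L) (hcx : G.Adj c x) : G.Adj a x ∨ G.Adj b x := by
  by_contra hcon
  push Not at hcon
  exact h.cls.pp a b v x c hab (h.adjL hx).1 hcx.symm hc.1 (h.ne_v hc).1.symm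
    (fun hh => ha.1 hh.symm) hcon.1 (fun hh => hca hh.symm)
    (fun hh => hb.1 hh.symm) hcon.2 (fun hh => hcb hh.symm)

theorem TCx.b2 (h : TCx G v d L) {r b w p : V} (hr : Mixed G v d L r) (hb : InW G v d b)
    (hw : InW G v d w) (hrb : G.Adj r b) (hwr : ¬ G.Adj w r) (hwb : ¬ G.Adj w b)
    (hpL : p ∉ L) (hpW : ¬ InW G v d p) (hpw : G.Adj p w) (hpb : ¬ G.Adj p b) :
    Tail G v d p ∧ G.Adj p r ∧ ∀ x ∈ L, ¬ G.Adj p x := by
  have hpr : G.Adj p r := by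
    by_contra hpr
    by_cases h1 : G.Adj v p
    · exact h.cls.pp r b w p v hrb hpw.symm h1.symm (fun hh => hw.1 hh.symm) (h.ne_v hw).1
        (fun hh => hwr hh.symm) (fun hh => hpr hh.symm) (fun hh => hr.1.1 hh.symm)
        (fun hh => hwb hh.symm) (fun hh => hpb hh.symm) (fun hh => hb.1 hh.symm)
    · have h2 : G.Adj d p := by
        by_contra h2
        exact hpW ⟨h1, h2⟩
      exact h.cls.pp r b w p d hrb hpw.symm h2.symm (fun hh => hw.2 hh.symm) (h.ne_v hw).2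
        (fun hh => hwr hh.symm) (fun hh => hpr hh.symm) (fun hh => hr.1.2 hh.symm)
        (fun hh => hwb hh.symm) (fun hh => hpb hh.symm) (fun hh => hb.2 hh.symm)
  have := h.mixed_nbr hr hpL hpW hpr.symm
  exact ⟨this.1, hpr, this.2⟩

end

end GemCW
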