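import Pool.Agent.Lib.GemCW.TCa

/-!
# Thin cuts, II: three forbidden triples

`odiff a b`: some `p` outside `L ∪ W` distinguishes `a` and `b`; `idiff a b`: some `x ∈ L` does.

For `r` mixed write `A_r = N(r) ∩ L`.

* `no_S`: no three pairwise adjacent mixed `r₁, r₂, r₃` with pairwise `odiff`.
  Proof.  For each pair some `p ∉ L ∪ W` is adjacent to exactly one, which is mixed, so `p` is a
  tail, empty on `L` (`mixed_nbr`), and `g1` gives `A_i ∪ A_j = L` for all pairs.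
  As `r_i` is mixed there is `b_i ∈ L \ A_i`; so `b_1 ∈ A_2 ∩ A_3` etc.  `g3` for `(r₁,r₂)`:
  `b_3 ∈ A_1 ∩ A_2`, `b_2 ∈ A_1 \ A_2` are nonadjacent; similarly all `b_i ≁ b_j`.  The path
  `b_2 - r_1 - r_2 - b_1` is induced and dominated by `r_3`: gem.

* `no_A`: no three pairwise nonadjacent distinct mixed vertices with pairwise `idiff` and
  pairwise `odiff`.
  Proof.  Lemma (`pairA`): for two nonadjacent distinct mixed `r, r'` with `idiff` and `odiff`, one of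
  them has no neighbour at all outside `L ∪ W`.  Indeed let `p ∉ L ∪ W` be adjacent to
  `r`, not to `r'` (or vice versa; by symmetry this is the case).  `p` is a tail empty on `L`, so
  `A_{r'} ⊆ A_r` (`b3`).  If there were `q ∉ L ∪ W` adjacent to `r'` and not to `r`, then `A_r ⊆ A_{r'}`,
  contradicting `idiff`.  If there were `q ∉ L ∪ W` adjacent to both then
  `A_r ∪ A_{r'} = L` (`f3`), so `A_r = L`, contradicting that `r` is mixed.  So `r'` has no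
  neighbour outside `L ∪ W`.  Apply to the three pairs: two of the three vertices, say `r_i, r_j`,
  have no neighbour outside `L ∪ W` (if at most one had none, a pair would violate the lemma),
  contradicting `odiff` for this pair.

* `no_B`: no `r_i` mixed, `w_i ∈ W`, `r_i ~ w_i` (`i = 1,2,3`), the three edges `r_i w_i` pairwise
  anticomplete, with pairwise `idiff r_i r_j` and pairwise `odiff w_i w_j`.
  Proof.  Let `o(x) = {p ∉ L ∪ W : p ~ x}`.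
  (1) For `i ≠ j` and `p ∈ o(w_i) \ o(w_j)`: `p` is a tail, empty on `L`, `p ~ r_j` (`b2` with
  `r = r_j`, `b = w_j`, `w = w_i`).
  (2) For `i ≠ j`: if `p ∈ o(r_i) \ o(r_j)` then `A_j ⊆ A_i` (`mixed_nbr`, `b3`); so (as `A_i ≠ A_j`)
  `o(r_i) ⊆ o(r_j)` or `o(r_j) ⊆ o(r_i)`; and if `o(r_i) ⊊ o(r_j)` then `o(r_i) = ∅` (a common element
  gives `A_i ∪ A_j = L` by `f3`, while `A_i ⊆ A_j`, so `A_j = L`, contradiction).
  (3) If `p ∈ o(r_i)`, `p ∈ o(r_j)`: `A_i ∪ A_j = L`.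
  (4) at least one of `o(r_i)`, `o(r_j)` is nonempty for `i ≠ j` (by (1), as `o(w_i) ≠ o(w_j)`).
  So two of the sets `o(r_k)`, say `o(r_2)` and `o(r_3)`, are nonempty, hence equal by (2), to `O`;
  and `o(r_1)` is empty or equal to `O` (by (2)).
  (5) Key: let `{i,j} = {2,3}` and `q ∈ o(w_j) \ o(w_i)` (such a pair exists).  By (1) `q ~ r_i`, so
  `q ∈ O`.  By `g1` (`q ~ r_i`, `q ≁ w_i`): `A_i ∪ A_{w_i} = L`.  By `b3` (`q ~ w_j`, `q ≁ w_i`):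
  `A_{w_i} ⊆ A_{w_j}`.  If some `q' ∈ O` is not adjacent to `w_j`, then `b3` (`q' ~ r_i`, `q' ≁ w_j`):
  `A_{w_j} ⊆ A_i`, so `L = A_i ∪ A_{w_i} = A_i`: contradiction (`r_i` mixed).  So `w_j` is adjacent
  to all of `O`.
  (6) Compare `w_1` with `w_j`.  There is `q'` adjacent to exactly one of `w_1, w_j`.
  If `q' ~ w_1`, `q' ≁ w_j`: `q' ~ r_j` by (1), so `q' ∈ O`, contradiction to (5).
  If `q' ~ w_j`, `q' ≁ w_1`: then `q' ~ r_1` by (1), so `o(r_1) ≠ ∅`, `o(r_1) = O ∋ q'`.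
  Now all three `o(r_k) = O`, and the argument of (5) applies to every pair:
  for all `i ≠ j` and `q ∈ o(w_j) \ o(w_i)`, `w_j` is complete to `O`.  Compare `w_1` and `w_i`
  (`w_i` misses `q ∈ O`, `w_1` misses `q' ∈ O`): they are distinguished by some `q''`, and the one
  of them adjacent to `q''` is complete to `O`: contradiction.
-/

namespace GemCW

open Finset

variable {V : Type*} [Fintype V] [DecidableEq V]

/-- distinguished by a vertex outside `L ∪ W` -/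
def ODiff (G : SimpleGraph V) (v d : V) (L : Finset V) (a b : V) : Prop :=
  ∃ p, p ∉ L ∧ ¬ InW G v d p ∧ ¬ (G.Adj p a ↔ G.Adj p b)

/-- distinguished by a vertex of `L` -/
def IDiff (G : SimpleGraph V) (L : Finset V) (a b : V) : Prop :=
  ∃ x ∈ L, ¬ (G.Adj a x ↔ G.Adj b x)

section
variable {G : SimpleGraph V} {v d : V} {L : Finset V}

theorem ODiff.symm {a b : V} (h : ODiff G v d L a b) : ODiff G v d L b a := by
  obtain ⟨p, h1, h2, h3⟩ := h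
  exact ⟨p, h1, h2, fun hh => h3 hh.symm⟩

theorem IDiff.symm {a b : V} (h : IDiff G L a b) : IDiff G L b a := by
  obtain ⟨p, h1, h2⟩ := h
  exact ⟨p, h1, fun hh => h2 hh.symm⟩

theorem TCx.coverS (h : TCx G v d L) {r r' : V} (hr : Mixed G v d L r)
    (hr' : Mixed G v d L r') (ha : G.Adj r r') (ho : ODiff G v d L r r') :
    ∀ x ∈ L, G.Adj r x ∨ G.Adj r' x := by
  obtain ⟨p, hpL, hpW, hp⟩ := ho
  by_cases h1 : G.Adj p r
  · have h2 : ¬ G.Adj p r' := fun h2 => hp ⟨fun _ => h2, fun _ => h1⟩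
    have h3 := h.mixed_nbr hr hpL hpW h1.symm
    exact h.g1 hr.1 hr'.1 h3.1 h3.2 ha h1 h2
  · have h2 : G.Adj p r' := by
      by_contra h2
      exact hp ⟨fun hh => absurd hh h1, fun hh => absurd hh h2⟩
    have h3 := h.mixed_nbr hr' hpL hpW h2.symm
    intro x hx
    exact (h.g1 hr'.1 hr.1 h3.1 h3.2 ha.symm h2 h1 x hx).symm

theorem TCx.no_S (h : TCx G v d L) {r₁ r₂ r₃ : V} (h₁ : Mixed G v d L r₁)
    (h₂ : Mixed G v d L r₂) (h₃ : Mixed G v d L r₃) (a₁₂ : G.Adj r₁ r₂) (a₁₃ : G.Adj r₁ r₃)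
    (a₂₃ : G.Adj r₂ r₃) (o₁₂ : ODiff G v d L r₁ r₂) (o₁₃ : ODiff G v d L r₁ r₃)
    (o₂₃ : ODiff G v d L r₂ r₃) : False := by
  have c12 := h.coverS h₁ h₂ a₁₂ o₁₂
  have c13 := h.coverS h₁ h₃ a₁₃ o₁₃
  have c23 := h.coverS h₂ h₃ a₂₃ o₂₃
  obtain ⟨b₁, hb₁, n₁⟩ := h₁.2.2
  obtain ⟨b₂, hb₂, n₂⟩ := h₂.2.2
  have e21 : G.Adj r₂ b₁ := (c12 b₁ hb₁).resolve_left n₁
  have e31 : G.Adj r₃ b₁ := (c13 b₁ hb₁).resolve_left n₁
  have e12 : G.Adj r₁ b₂ := (c12 b₂ hb₂).resolve_right n₂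
  have e32 : G.Adj r₃ b₂ := (c23 b₂ hb₂).resolve_left n₂
  have hn : ¬ G.Adj b₂ b₁ := h.g3 h₃.1 h₁.1 a₁₃.symm hb₂ hb₁ e32 e12 e31 n₁
  exact h.cls.gem b₂ r₁ r₂ b₁ r₃ e12.symm a₁₂ e21 (fun hh => n₂ hh.symm) n₁ hn e32 a₁₃.symm
    a₂₃.symm e31

private theorem TCx.pairA_aux (h : TCx G v d L) {r r' p : V} (hr : Mixed G v d L r)
    (hr' : Mixed G v d L r') (hn : ¬ G.Adj r r') (hne : r ≠ r') (hi : IDiff G L r r')
    (hpL : p ∉ L) (hpW : ¬ InW G v d p) (hpr : G.Adj p r) (hpr' : ¬ G.Adj p r') :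
    ∀ q, q ∉ L → ¬ InW G v d q → ¬ G.Adj q r' := by
  intro q hqL hqW hq
  have h3 := h.mixed_nbr hr hpL hpW hpr.symm
  have h4 := h.mixed_nbr hr' hqL hqW hq.symm
  have hsub := h.b3 hr.1 hr'.1 h3.1 h3.2 hn hne hpr hpr'
  by_cases hqr : G.Adj q r
  · have hcov := h.f3 hr.1 hr'.1 h4.1 h4.2 hn hne hqr hq
    obtain ⟨x, hx, hx'⟩ := hr.2.2
    rcases hcov x hx with h5 | h5
    · exact hx' h5
    · exact hx' (hsub x hx h5)
  · have hsub' := h.b3 hr'.1 hr.1 h4.1 h4.2 (fun hh => hn hh.symm) hne.symm hq hqr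
    obtain ⟨x, hx, hx'⟩ := hi
    exact hx' ⟨hsub' x hx, hsub x hx⟩

theorem TCx.pairA (h : TCx G v d L) {r r' : V} (hr : Mixed G v d L r)
    (hr' : Mixed G v d L r') (hn : ¬ G.Adj r r') (hne : r ≠ r') (hi : IDiff G L r r')
    (ho : ODiff G v d L r r') :
    (∀ p, p ∉ L → ¬ InW G v d p → ¬ G.Adj p r) ∨ (∀ p, p ∉ L → ¬ InW G v d p → ¬ G.Adj p r') := by
  obtain ⟨p, hpL, hpW, hp⟩ := ho
  by_cases h1 : G.Adj p r
  · have h2 : ¬ G.Adj p r' := fun h2 => hp ⟨fun _ => h2, fun _ => h1⟩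
    right
    exact h.pairA_aux hr hr' hn hne hi hpL hpW h1 h2
  · have h2 : G.Adj p r' := by
      by_contra h2
      exact hp ⟨fun hh => absurd hh h1, fun hh => absurd hh h2⟩
    left
    exact h.pairA_aux hr' hr (fun hh => hn hh.symm) hne.symm hi.symm hpL hpW h2 h1

private theorem no_odiff {a b : V} (h1 : ∀ p, p ∉ L → ¬ InW G v d p → ¬ G.Adj p a)
    (h2 : ∀ p, p ∉ L → ¬ InW G v d p → ¬ G.Adj p b) : ¬ ODiff G v d L a b := by
  rintro ⟨p, hpL, hpW, hp⟩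
  exact hp ⟨fun hh => absurd hh (h1 p hpL hpW), fun hh => absurd hh (h2 p hpL hpW)⟩

theorem TCx.no_A (h : TCx G v d L) {r₁ r₂ r₃ : V} (h₁ : Mixed G v d L r₁)
    (h₂ : Mixed G v d L r₂) (h₃ : Mixed G v d L r₃)
    (n₁₂ : ¬ G.Adj r₁ r₂) (n₁₃ : ¬ G.Adj r₁ r₃) (n₂₃ : ¬ G.Adj r₂ r₃)
    (e₁₂ : r₁ ≠ r₂) (e₁₃ : r₁ ≠ r₃) (e₂₃ : r₂ ≠ r₃)
    (i₁₂ : IDiff G L r₁ r₂) (i₁₃ : IDiff G L r₁ r₃) (i₂₃ : IDiff G L r₂ r₃)
    (o₁₂ : ODiff G v d L r₁ r₂) (o₁₃ : ODiff G v d L r₁ r₃)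
    (o₂₃ : ODiff G v d L r₂ r₃) : False := by
  rcases h.pairA h₁ h₂ n₁₂ e₁₂ i₁₂ o₁₂ with k1 | k2
  · rcases h.pairA h₂ h₃ n₂₃ e₂₃ i₂₃ o₂₃ with k2 | k3
    · exact no_odiff k1 k2 o₁₂
    · exact no_odiff k1 k3 o₁₃
  · rcases h.pairA h₁ h₃ n₁₃ e₁₃ i₁₃ o₁₃ with k1 | k3
    · exact no_odiff k1 k2 o₁₂
    · exact no_odiff k2 k3 o₂₃

end

end GemCW
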