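import Pool.Agent.Lib.GemCW.TCd
import Pool.Agent.Lib.GemCW.RkA

/-!
# Thin cuts, IV: the thin cut lemma

For every edge `v d` and every co-component `L` of `N(v) ∩ N(d)` there is `X` with
`L ⊆ X ⊆ L ∪ W` and `cut G X ≤ 30`.

Proof.  `W` (the set of `x` with `InW G v d x`) induces a cluster graph (`w_cluster`); write
`x ≈ y` if `x = y` or `x ~ y` (`x, y ∈ W`), an equivalence relation on `W`.
For `x ∈ W` let `ι x = N(x) ∩ L` (`nb G x L`) and `o x = N(x) ∩ (V \ (L ∪ W))`.
Call a pair `(r, w)` *good* if `r` is mixed, `w ∈ W`, `r ≈ w`.  Let `F` be a set of good pairs, of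
largest cardinality, such that for any two distinct pairs `(r,w), (r',w')` of `F`:
`¬ r ≈ r'`, `ι r ≠ ι r'`, `o w ≠ o w'`.
* `|F| ≤ 4`: at most two pairs have `r = w` (`no_A`) and at most two have `r ≠ w` (`no_B`).
* maximality: if `(r,w)` is good, and `¬ r ≈ r'` for every `(r',w') ∈ F`, then `ι r = ι r'` or
  `o w = o w'` for some `(r',w') ∈ F`.
Let `W_F = {x ∈ W : x ≈ r' for some (r',w') ∈ F}`, `I = {ι r' : (r',w') ∈ F}`,
`O* = {o w' : (r',w') ∈ F}`.
Define `X = L ∪ X₁ ∪ X₂`, `X₁ = {x ∈ W \ W_F : ∀ y ≈ x, o y ∈ O*}`,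
`X₂ = {x ∈ W_F : x mixed}`.
Then for `x ∈ W \ X`: `ι x ∈ I ∪ {∅, L}`.
Rank of `X` versus `Xᶜ`:
* rows `L`: columns `p ∈ V \ (L ∪ W)` are constant on `L` (`out_const`); columns `x ∈ W \ X` have trace
  in `I ∪ {∅, L}`: `rk G L Xᶜ ≤ 5` (`rk_le_cols`).
* rows `X₁`: the trace is `o x ∈ O*`: rank `≤ 4`.
* rows `X₂`, columns outside `L ∪ W`: for each of the at most `4` classes of `W_F` the mixed elements
  have at most two distinct `o` (`no_S`): rank `≤ 8`; columns in `W \ X`: at most one nonempty row per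
  class: rank `≤ 4`.
Total `≤ 5 + 4 + 8 + 4 = 21 ≤ 30`.
-/

namespace GemCW

open Finset

variable {V : Type*} [Fintype V] [DecidableEq V]

/-- equal or adjacent -/
private def Eqv (G : SimpleGraph V) (x y : V) : Prop := x = y ∨ G.Adj x y

omit [Fintype V] [DecidableEq V] in
private theorem Eqv.symm {G : SimpleGraph V} {x y : V} (h : Eqv G x y) : Eqv G y x := by
  rcases h with h | h
  · exact Or.inl h.symm
  · exact Or.inr h.symm

private theorem TCx.eqv_trans {G : SimpleGraph V} {v d : V} {L : Finset V} (h : TCx G v d L)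
    {x y z : V} (hx : InW G v d x) (hy : InW G v d y) (hz : InW G v d z) (h1 : Eqv G x y)
    (h2 : Eqv G y z) : Eqv G x z := by
  rcases h1 with rfl | h1
  · exact h2
  · rcases h2 with rfl | h2
    · exact Or.inr h1
    · by_cases hxz : x = z
      · exact Or.inl hxz
      · exact Or.inr (h.w_cluster hx hy hz h1 h2 hxz)

open scoped Classical in
/-- the vertices outside `L ∪ W` -/
private noncomputable def OUT (G : SimpleGraph V) (v d : V) (L : Finset V) : Finset V :=
  univ.filter (fun p => p ∉ L ∧ ¬ InW G v d p)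

private theorem mem_OUT {G : SimpleGraph V} {v d : V} {L : Finset V} {p : V} :
    p ∈ OUT G v d L ↔ p ∉ L ∧ ¬ InW G v d p := by
  simp [OUT]

private theorem idiff_of_ne {G : SimpleGraph V} {L : Finset V} {a b : V}
    (h : nb G a L ≠ nb G b L) : IDiff G L a b := by
  by_contra hcon
  apply h
  ext x
  rw [mem_nb, mem_nb]
  constructor
  · rintro ⟨hx, hax⟩
    refine ⟨hx, ?_⟩
    by_contra hbx
    exact hcon ⟨x, hx, fun hh => hbx (hh.1 hax)⟩
  · rintro ⟨hx, hbx⟩
    refine ⟨hx, ?_⟩
    by_contra hax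
    exact hcon ⟨x, hx, fun hh => hax (hh.2 hbx)⟩

private theorem odiff_of_ne {G : SimpleGraph V} {v d : V} {L : Finset V} {a b : V}
    (h : nb G a (OUT G v d L) ≠ nb G b (OUT G v d L)) : ODiff G v d L a b := by
  by_contra hcon
  apply h
  ext x
  rw [mem_nb, mem_nb]
  constructor
  · rintro ⟨hx, hax⟩
    refine ⟨hx, ?_⟩
    by_contra hbx
    exact hcon ⟨x, (mem_OUT.1 hx).1, (mem_OUT.1 hx).2, fun hh => hbx (hh.1 hax.symm).symm⟩
  · rintro ⟨hx, hbx⟩
    refine ⟨hx, ?_⟩
    by_contra hax
    exact hcon ⟨x, (mem_OUT.1 hx).1, (mem_OUT.1 hx).2, fun hh => hax (hh.2 hbx.symm).symm⟩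

/-- admissible families of good pairs -/
private structure Adm (G : SimpleGraph V) (v d : V) (L : Finset V) (F : Finset (V × V)) : Prop where
  mixed : ∀ f ∈ F, Mixed G v d L f.1
  inW : ∀ f ∈ F, InW G v d f.2
  eqv : ∀ f ∈ F, Eqv G f.1 f.2
  sep : ∀ f ∈ F, ∀ g ∈ F, f ≠ g → ¬ Eqv G f.1 g.1
  iot : ∀ f ∈ F, ∀ g ∈ F, f ≠ g → nb G f.1 L ≠ nb G g.1 L
  out : ∀ f ∈ F, ∀ g ∈ F, f ≠ g → nb G f.2 (OUT G v d L) ≠ nb G g.2 (OUT G v d L)

open scoped Classical in
private theorem TCx.card_adm {G : SimpleGraph V} {v d : V} {L : Finset V} (h : TCx G v d L)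
    {F : Finset (V × V)} (hF : Adm G v d L F) : F.card ≤ 4 := by
  have h1 : (F.filter (fun f => f.1 = f.2)).card ≤ 2 := by
    by_contra hcon
    push Not at hcon
    obtain ⟨a, ha, b, hb, c, hc, hab, hac, hbc⟩ := Finset.two_lt_card.1 hcon
    rw [mem_filter] at ha hb hc
    have key : ∀ f g : V × V, f ∈ F ∧ f.1 = f.2 → g ∈ F ∧ g.1 = g.2 → f ≠ g →
        ¬ G.Adj f.1 g.1 ∧ f.1 ≠ g.1 ∧ IDiff G L f.1 g.1 ∧ ODiff G v d L f.1 g.1 := by
      intro f g hf hg hfg
      have h2 := hF.sep f hf.1 g hg.1 hfg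
      refine ⟨fun hh => h2 (Or.inr hh), fun hh => h2 (Or.inl hh),
        idiff_of_ne (hF.iot f hf.1 g hg.1 hfg), ?_⟩
      have h3 := odiff_of_ne (hF.out f hf.1 g hg.1 hfg)
      rwa [← hf.2, ← hg.2] at h3
    have kab := key a b ha hb hab
    have kac := key a c ha hc hac
    have kbc := key b c hb hc hbc
    exact h.no_A (hF.mixed a ha.1) (hF.mixed b hb.1) (hF.mixed c hc.1) kab.1 kac.1 kbc.1
      kab.2.1 kac.2.1 kbc.2.1 kab.2.2.1 kac.2.2.1 kbc.2.2.1 kab.2.2.2 kac.2.2.2 kbc.2.2.2
  have h2 : (F.filter (fun f => ¬ f.1 = f.2)).card ≤ 2 := by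
    by_contra hcon
    push Not at hcon
    obtain ⟨a, ha, b, hb, c, hc, hab, hac, hbc⟩ := Finset.two_lt_card.1 hcon
    rw [mem_filter] at ha hb hc
    let t : Fin 3 → V × V := ![a, b, c]
    have ht : ∀ i, t i ∈ F ∧ ¬ (t i).1 = (t i).2 := by
      intro i
      fin_cases i
      · exact ha
      · exact hb
      · exact hc
    have hne : ∀ i j, i ≠ j → t i ≠ t j := by
      intro i j hij
      fin_cases i <;> fin_cases j
      · exact absurd rfl hij
      · exact hab
      · exact hac
      · exact hab.symm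
      · exact absurd rfl hij
      · exact hbc
      · exact hac.symm
      · exact hbc.symm
      · exact absurd rfl hij
    refine h.no_B (fun i => (t i).1) (fun i => (t i).2) (fun i => hF.mixed _ (ht i).1)
      (fun i => hF.inW _ (ht i).1) (fun i => (hF.eqv _ (ht i).1).resolve_left (ht i).2) ?_ ?_ ?_
    · intro i j hij
      have hs := hF.sep _ (ht i).1 _ (ht j).1 (hne i j hij)
      have i1 := (hF.mixed _ (ht i).1).1
      have j1 := (hF.mixed _ (ht j).1).1
      have i2 := hF.inW _ (ht i).1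
      have j2 := hF.inW _ (ht j).1
      have ei := hF.eqv _ (ht i).1
      have ej := hF.eqv _ (ht j).1
      have s1 : ¬ Eqv G (t i).1 (t j).2 := fun hh => hs (h.eqv_trans i1 j2 j1 hh ej.symm)
      have s2 : ¬ Eqv G (t i).2 (t j).2 := fun hh => s1 (h.eqv_trans i1 i2 j2 ei hh)
      exact ⟨fun hh => hs (Or.inr hh), fun hh => s1 (Or.inr hh), fun hh => s2 (Or.inr hh),
        fun hh => hs (Or.inl hh), fun hh => s1 (Or.inl hh), fun hh => s2 (Or.inl hh)⟩
    · intro i j hij
      exact idiff_of_ne (hF.iot _ (ht i).1 _ (ht j).1 (hne i j hij))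
    · intro i j hij
      exact odiff_of_ne (hF.out _ (ht i).1 _ (ht j).1 (hne i j hij))
  have h3 := Finset.card_filter_add_card_filter_not (s := F) (fun f : V × V => f.1 = f.2)
  omega

open scoped Classical in
theorem thin_cut {G : SimpleGraph V} {v d : V} {L : Finset V} (h : TCx G v d L) :
    ∃ X : Finset V, L ⊆ X ∧ (∀ x ∈ X, x ∈ L ∨ InW G v d x) ∧ cut G X ≤ 30 := by
  obtain ⟨F, hFmem, hFmax⟩ := Finset.exists_max_image
    ((univ : Finset (Finset (V × V))).filter (fun F => Adm G v d L F)) Finset.card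
    ⟨∅, by
      rw [mem_filter]
      exact ⟨mem_univ _, ⟨by simp, by simp, by simp, by simp, by simp, by simp⟩⟩⟩
  have hF : Adm G v d L F := (mem_filter.1 hFmem).2
  have hcard := h.card_adm hF
  set O := OUT G v d L with hO
  set I := F.image (fun f => nb G f.1 L) with hI
  set Os := F.image (fun f => nb G f.2 O) with hOs
  have hIcard : I.card ≤ 4 := card_image_le.trans hcard
  have hOcard : Os.card ≤ 4 := card_image_le.trans hcard
  set X₁ := univ.filter (fun x => InW G v d x ∧ (∀ f ∈ F, ¬ Eqv G x f.1) ∧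
    ∀ y, InW G v d y → Eqv G y x → nb G y O ∈ Os) with hX₁
  set X₂ := univ.filter (fun x => Mixed G v d L x ∧ ∃ f ∈ F, Eqv G x f.1) with hX₂
  have mem₁ : ∀ x, x ∈ X₁ ↔ InW G v d x ∧ (∀ f ∈ F, ¬ Eqv G x f.1) ∧
      ∀ y, InW G v d y → Eqv G y x → nb G y O ∈ Os := by
    intro x
    rw [hX₁, mem_filter]
    simp
  have mem₂ : ∀ x, x ∈ X₂ ↔ Mixed G v d L x ∧ ∃ f ∈ F, Eqv G x f.1 := by
    intro x
    rw [hX₂, mem_filter]
    simp
  set X := L ∪ X₁ ∪ X₂ with hX
  have memX : ∀ x, x ∈ X ↔ x ∈ L ∨ x ∈ X₁ ∨ x ∈ X₂ := by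
    intro x
    rw [hX, mem_union, mem_union, or_assoc]
  have hLX : L ⊆ X := fun x hx => (memX x).2 (Or.inl hx)
  have hXW : ∀ x ∈ X, x ∈ L ∨ InW G v d x := by
    intro x hx
    rcases (memX x).1 hx with h1 | h1 | h1
    · exact Or.inl h1
    · exact Or.inr ((mem₁ x).1 h1).1
    · exact Or.inr ((mem₂ x).1 h1).1.1
  -- non mixed vertices
  have hnm : ∀ x, InW G v d x → ¬ Mixed G v d L x → nb G x L = ∅ ∨ nb G x L = L := by
    intro x hx hm
    by_cases h1 : ∃ y ∈ L, G.Adj x y
    · right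
      ext y
      rw [mem_nb]
      constructor
      · exact fun hh => hh.1
      · intro hy
        refine ⟨hy, ?_⟩
        by_contra hxy
        exact hm ⟨hx, h1, y, hy, hxy⟩
    · left
      rw [Finset.eq_empty_iff_forall_notMem]
      intro y hy
      exact h1 ⟨y, (mem_nb.1 hy).1, (mem_nb.1 hy).2⟩
  -- claim A
  have hA : ∀ x, InW G v d x → x ∉ X → nb G x L = ∅ ∨ nb G x L ∈ insert L I := by
    intro x hx hxX
    by_cases hm : Mixed G v d L x
    · have hF1 : ∀ f ∈ F, ¬ Eqv G x f.1 := by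
        intro f hf hh
        exact hxX ((memX x).2 (Or.inr (Or.inr ((mem₂ x).2 ⟨hm, f, hf, hh⟩))))
      have hx1 : ¬ ∀ y, InW G v d y → Eqv G y x → nb G y O ∈ Os := by
        intro hh
        exact hxX ((memX x).2 (Or.inr (Or.inl ((mem₁ x).2 ⟨hx, hF1, hh⟩))))
      push Not at hx1
      obtain ⟨y, hy, hyx, hyO⟩ := hx1
      right
      rw [mem_insert]
      right
      by_contra hxI
      have hiota : ∀ f ∈ F, nb G x L ≠ nb G f.1 L := by
        intro f hf hh
        exact hxI (mem_image.2 ⟨f, hf, hh.symm⟩)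
      have hout : ∀ f ∈ F, nb G y O ≠ nb G f.2 O := by
        intro f hf hh
        exact hyO (mem_image.2 ⟨f, hf, hh.symm⟩)
      have hnot : (x, y) ∉ F := by
        intro hh
        exact hF1 _ hh (Or.inl rfl)
      have hadm : Adm G v d L (insert (x, y) F) := by
        refine ⟨?_, ?_, ?_, ?_, ?_, ?_⟩
        · intro f hf
          rcases mem_insert.1 hf with rfl | hf
          · exact hm
          · exact hF.mixed f hf
        · intro f hf
          rcases mem_insert.1 hf with rfl | hf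
          · exact hy
          · exact hF.inW f hf
        · intro f hf
          rcases mem_insert.1 hf with rfl | hf
          · exact hyx.symm
          · exact hF.eqv f hf
        · intro f hf g hg hfg
          rcases mem_insert.1 hf with rfl | hf
          · rcases mem_insert.1 hg with rfl | hg
            · exact absurd rfl hfg
            · exact hF1 g hg
          · rcases mem_insert.1 hg with rfl | hg
            · exact fun hh => hF1 f hf hh.symm
            · exact hF.sep f hf g hg hfg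
        · intro f hf g hg hfg
          rcases mem_insert.1 hf with rfl | hf
          · rcases mem_insert.1 hg with rfl | hg
            · exact absurd rfl hfg
            · exact hiota g hg
          · rcases mem_insert.1 hg with rfl | hg
            · exact (hiota f hf).symm
            · exact hF.iot f hf g hg hfg
        · intro f hf g hg hfg
          rcases mem_insert.1 hf with rfl | hf
          · rcases mem_insert.1 hg with rfl | hg
            · exact absurd rfl hfg
            · exact hout g hg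
          · rcases mem_insert.1 hg with rfl | hg
            · exact (hout f hf).symm
            · exact hF.out f hf g hg hfg
      have hmax := hFmax (insert (x, y) F) (mem_filter.2 ⟨mem_univ _, hadm⟩)
      rw [card_insert_of_notMem hnot] at hmax
      omega
    · rcases hnm x hx hm with h1 | h1
      · exact Or.inl h1
      · right
        rw [h1]
        exact mem_insert_self _ _
  have hOX : O ⊆ Xᶜ := by
    intro p hp
    rw [mem_compl]
    intro hpX
    rw [hO, mem_OUT] at hp
    rcases hXW p hpX with h1 | h1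
    · exact hp.1 h1
    · exact hp.2 h1
  have r1 : rk G L Xᶜ ≤ 5 := by
    have h1 : rk G L Xᶜ ≤ (insert L I).card := by
      apply rk_le_cols
      intro u hu
      rw [mem_compl] at hu
      by_cases huW : InW G v d u
      · exact hA u huW hu
      · rcases h.out_const (fun hh => hu (hLX hh)) huW with h2 | h2
        · right
          have : nb G u L = L := by
            ext x
            rw [mem_nb]
            exact ⟨fun hh => hh.1, fun hx => ⟨hx, h2 x hx⟩⟩
          rw [this]
          exact mem_insert_self _ _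
        · left
          rw [Finset.eq_empty_iff_forall_notMem]
          intro y hy
          exact h2 y (mem_nb.1 hy).1 (mem_nb.1 hy).2
    have h2 := card_insert_le L I
    omega
  have r2 : rk G X₁ Xᶜ ≤ 4 := by
    refine (rk_le_rows Os ?_).trans hOcard
    intro u hu
    right
    have hu' := (mem₁ u).1 hu
    have h1 : nb G u Xᶜ = nb G u O := by
      ext p
      rw [mem_nb, mem_nb]
      constructor
      · rintro ⟨hp, hup⟩
        refine ⟨?_, hup⟩
        rw [mem_compl] at hp
        rw [hO, mem_OUT]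
        refine ⟨fun hh => hp (hLX hh), ?_⟩
        intro hpW
        apply hp
        refine (memX p).2 (Or.inr (Or.inl ((mem₁ p).2 ⟨hpW, ?_, ?_⟩)))
        · intro f hf hh
          exact hu'.2.1 f hf (h.eqv_trans hu'.1 hpW (hF.mixed f hf).1 (Or.inr hup) hh)
        · intro y hy hyp
          exact hu'.2.2 y hy (h.eqv_trans hy hpW hu'.1 hyp (Or.inr hup.symm))
      · rintro ⟨hp, hup⟩
        exact ⟨hOX hp, hup⟩
    rw [h1]
    exact hu'.2.2 u hu'.1 (Or.inl rfl)
  have r3 : rk G X₂ O ≤ 8 := by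
    have h1 : rk G X₂ O ≤ (X₂.image (fun x => nb G x O)).card := by
      apply rk_le_rows
      intro u hu
      exact Or.inr (mem_image_of_mem _ hu)
    let C : V × V → Finset V := fun f => univ.filter (fun x => Mixed G v d L x ∧ Eqv G x f.1)
    have h2 : X₂.image (fun x => nb G x O) ⊆ F.biUnion (fun f => (C f).image (fun x => nb G x O)) := by
      intro S hS
      obtain ⟨x, hx, rfl⟩ := mem_image.1 hS
      obtain ⟨hm, f, hf, hxf⟩ := (mem₂ x).1 hx
      exact mem_biUnion.2 ⟨f, hf, mem_image.2 ⟨x, mem_filter.2 ⟨mem_univ _, hm, hxf⟩, rfl⟩⟩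
    have h3 : ∀ f ∈ F, ((C f).image (fun x => nb G x O)).card ≤ 2 := by
      intro f hf
      by_contra hcon
      push Not at hcon
      obtain ⟨A₁, hA₁, A₂, hA₂, A₃, hA₃, h12, h13, h23⟩ := Finset.two_lt_card.1 hcon
      obtain ⟨x₁, hx₁, rfl⟩ := mem_image.1 hA₁
      obtain ⟨x₂, hx₂, rfl⟩ := mem_image.1 hA₂
      obtain ⟨x₃, hx₃, rfl⟩ := mem_image.1 hA₃
      obtain ⟨-, m₁, e₁⟩ := mem_filter.1 hx₁
      obtain ⟨-, m₂, e₂⟩ := mem_filter.1 hx₂
      obtain ⟨-, m₃, e₃⟩ := mem_filter.1 hx₃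
      have fW := (hF.mixed f hf).1
      have adj : ∀ x y, Mixed G v d L x → Mixed G v d L y → Eqv G x f.1 → Eqv G y f.1 →
          nb G x O ≠ nb G y O → G.Adj x y := by
        intro x y hx hy ex ey hne
        rcases h.eqv_trans hx.1 fW hy.1 ex ey.symm with h4 | h4
        · exact absurd (by rw [h4]) hne
        · exact h4
      exact h.no_S m₁ m₂ m₃ (adj _ _ m₁ m₂ e₁ e₂ h12) (adj _ _ m₁ m₃ e₁ e₃ h13)
        (adj _ _ m₂ m₃ e₂ e₃ h23) (odiff_of_ne h12) (odiff_of_ne h13) (odiff_of_ne h23)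
    have h4 := card_le_card h2
    have h5 := card_biUnion_le (s := F) (t := fun f => (C f).image (fun x => nb G x O))
    have h6 := sum_le_card_nsmul F (fun f => ((C f).image (fun x => nb G x O)).card) 2 h3
    rw [smul_eq_mul] at h6
    omega
  have r4 : rk G X₂ (Xᶜ \ O) ≤ 4 := by
    have h1 : rk G X₂ (Xᶜ \ O) ≤
        (F.image (fun f => (Xᶜ \ O).filter (fun y => Eqv G y f.1))).card := by
      apply rk_le_rows
      intro u hu
      right
      obtain ⟨hm, f, hf, huf⟩ := (mem₂ u).1 hu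
      refine mem_image.2 ⟨f, hf, ?_⟩
      have fW := (hF.mixed f hf).1
      ext y
      rw [mem_nb, mem_filter]
      constructor
      · rintro ⟨hy, hyf⟩
        refine ⟨hy, ?_⟩
        rw [mem_sdiff, mem_compl, hO, mem_OUT] at hy
        have hyL : y ∉ L := fun hh => hy.1 (hLX hh)
        have hyW : InW G v d y := by
          by_contra hh
          exact hy.2 ⟨hyL, hh⟩
        rcases h.eqv_trans hm.1 fW hyW huf hyf.symm with h2 | h2
        · exfalso
          rw [← h2] at hy
          exact hy.1 ((memX u).2 (Or.inr (Or.inr hu)))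
        · exact h2
      · rintro ⟨hy, hyu⟩
        refine ⟨hy, ?_⟩
        rw [mem_sdiff, mem_compl, hO, mem_OUT] at hy
        have hyL : y ∉ L := fun hh => hy.1 (hLX hh)
        have hyW : InW G v d y := by
          by_contra hh
          exact hy.2 ⟨hyL, hh⟩
        exact h.eqv_trans hyW hm.1 fW (Or.inr hyu.symm) huf
    exact h1.trans (card_image_le.trans hcard)
  refine ⟨X, hLX, hXW, ?_⟩
  have e1 : cut G X ≤ rk G L Xᶜ + rk G X₁ Xᶜ + rk G X₂ Xᶜ := by
    have h1 := rk_union_left G (L ∪ X₁) X₂ Xᶜ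
    have h2 := rk_union_left G L X₁ Xᶜ
    have h3 : cut G X = rk G (L ∪ X₁ ∪ X₂) Xᶜ := by rw [cut, hX]
    omega
  have e2 : rk G X₂ Xᶜ ≤ rk G X₂ O + rk G X₂ (Xᶜ \ O) := by
    have h1 := rk_union_right G X₂ O (Xᶜ \ O)
    rwa [union_sdiff_of_subset hOX] at h1
  omega

end GemCW
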