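import Pool.Agent.Lib.GemCW.TCb

/-!
# Thin cuts, III: the forbidden triple of edges `no_B`

See the header of `TCb.lean` for the proof (item `no_B`, steps (1)-(6)); repeated here.

`r i` mixed, `w i ∈ W`, `r i ~ w i` (`i : Fin 3`), the three edges pairwise anticomplete (and
disjoint), pairwise `IDiff (r i) (r j)` and `ODiff (w i) (w j)`.  Let `o(x) = {p ∉ L ∪ W : p ~ x}`
and `A_x = N(x) ∩ L`, `A_i = A_{r i}`.
  (1) For `i ≠ j` and `p ∈ o(w_i) \ o(w_j)`: `p` is a tail, empty on `L`, `p ~ r_j` (`b2` with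
  `r = r_j`, `b = w_j`, `w = w_i`).
  (2) For `i ≠ j`: if `p ∈ o(r_i) \ o(r_j)` then `A_j ⊆ A_i` (`mixed_nbr`, `b3`); so (as `A_i ≠ A_j`)
  `o(r_i) ⊆ o(r_j)` or `o(r_j) ⊆ o(r_i)`; and if `o(r_i) ⊊ o(r_j)` then `o(r_i) = ∅` (a common element
  gives `A_i ∪ A_j = L` by `f3`, while `A_i ⊆ A_j`, so `A_j = L`, contradiction to `r_j` mixed).
  So: if both are nonempty they are equal.
  (3) at least one of `o(r_i)`, `o(r_j)` is nonempty for `i ≠ j` (by (1), as `o(w_i) ≠ o(w_j)`).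
  (4) Key: let `i ≠ j`, `o(r_i) = o(r_j) =: O`, `q ∈ o(w_j) \ o(w_i)`.  By (1) `q ~ r_i`, so
  `q ∈ O`.  By `g1` (`q ~ r_i`, `q ≁ w_i`): `A_i ∪ A_{w_i} = L`.  By `b3` (`q ~ w_j`, `q ≁ w_i`):
  `A_{w_i} ⊆ A_{w_j}`.  If some `q' ∈ O` is not adjacent to `w_j`, then `b3` (`q' ~ r_i`, `q' ≁ w_j`)
  gives `A_{w_j} ⊆ A_i`, so `L = A_i ∪ A_{w_i} = A_i`: contradiction (`r_i` mixed).  So `w_j` is
  adjacent to all of `O`.  (And `w_i` misses `q ∈ O`.)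
  (5) By (3) two of the `o(r_k)` are nonempty, say `k = 2, 3`, hence equal to a set `O`, and
  `o(r_1)` is empty or equal to `O`.  Let `{i,j} = {2,3}`, `q ∈ o(w_j) \ o(w_i)`; by (4) `w_j` is
  complete to `O`, `w_i` misses `q ∈ O`.  Compare `w_1`, `w_j`: let `q'` be adjacent to exactly one.
  If `q' ~ w_1`, `q' ≁ w_j`: `q' ~ r_j` by (1), so `q' ∈ O`: contradiction.
  If `q' ~ w_j`, `q' ≁ w_1`: `q' ~ r_1` by (1), so `o(r_1) = O ∋ q'`.  Compare `w_1` and `w_i`: let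
  `q''` be adjacent to exactly one of them; by (4) (for the pair `1, i`) that one is complete to
  `O`; but `w_1` misses `q' ∈ O` and `w_i` misses `q ∈ O`.  Contradiction.
-/

namespace GemCW

open Finset

variable {V : Type*} [Fintype V] [DecidableEq V]

namespace TCdAux

/-- the data of `no_B` -/
structure Dat (G : SimpleGraph V) (v d : V) (L : Finset V) (r w : Fin 3 → V) : Prop where
  h : TCx G v d L
  hr : ∀ i, Mixed G v d L (r i)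
  hw : ∀ i, InW G v d (w i)
  hrw : ∀ i, G.Adj (r i) (w i)
  hn : ∀ i j, i ≠ j → ¬ G.Adj (r i) (r j) ∧ ¬ G.Adj (r i) (w j) ∧ ¬ G.Adj (w i) (w j) ∧
      r i ≠ r j ∧ r i ≠ w j ∧ w i ≠ w j
  hi : ∀ i j, i ≠ j → IDiff G L (r i) (r j)
  ho : ∀ i j, i ≠ j → ODiff G v d L (w i) (w j)

variable {G : SimpleGraph V} {v d : V} {L : Finset V} {r w : Fin 3 → V}

theorem Dat.one (D : Dat G v d L r w) {i j : Fin 3} (hij : i ≠ j) {p : V} (hpL : p ∉ L)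
    (hpW : ¬ InW G v d p) (h1 : G.Adj p (w i)) (h2 : ¬ G.Adj p (w j)) :
    Tail G v d p ∧ G.Adj p (r j) ∧ ∀ x ∈ L, ¬ G.Adj p x :=
  D.h.b2 (D.hr j) (D.hw j) (D.hw i) (D.hrw j) (fun hh => (D.hn j i hij.symm).2.1 hh.symm)
    (D.hn i j hij).2.2.1 hpL hpW h1 h2

theorem Dat.sub (D : Dat G v d L r w) {i j : Fin 3} (hij : i ≠ j) {p : V} (hpL : p ∉ L)
    (hpW : ¬ InW G v d p) (h1 : G.Adj p (r i)) (h2 : ¬ G.Adj p (r j)) :
    ∀ x ∈ L, G.Adj (r j) x → G.Adj (r i) x := by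
  have h3 := D.h.mixed_nbr (D.hr i) hpL hpW h1.symm
  exact D.h.b3 (D.hr i).1 (D.hr j).1 h3.1 h3.2 (D.hn i j hij).1 (D.hn i j hij).2.2.2.1 h1 h2

/-- if `r j` has an outside neighbour then outside neighbours of `r i` are neighbours of `r j` -/
theorem Dat.two (D : Dat G v d L r w) {i j : Fin 3} (hij : i ≠ j) {q : V} (hqL : q ∉ L)
    (hqW : ¬ InW G v d q) (hq : G.Adj q (r j)) {z : V} (hzL : z ∉ L) (hzW : ¬ InW G v d z)
    (hz : G.Adj z (r i)) : G.Adj z (r j) := by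
  by_contra hzj
  have hsub := D.sub hij hzL hzW hz hzj
  by_cases hqi : G.Adj q (r i)
  · have h3 := D.h.mixed_nbr (D.hr i) hqL hqW hqi.symm
    have hcov := D.h.f3 (D.hr i).1 (D.hr j).1 h3.1 h3.2 (D.hn i j hij).1
      (D.hn i j hij).2.2.2.1 hqi hq
    obtain ⟨x, hx, hx'⟩ := (D.hr i).2.2
    rcases hcov x hx with h5 | h5
    · exact hx' h5
    · exact hx' (hsub x hx h5)
  · have hsub' := D.sub hij.symm hqL hqW hq hqi
    obtain ⟨x, hx, hx'⟩ := D.hi i j hij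
    exact hx' ⟨hsub' x hx, hsub x hx⟩

theorem Dat.key (D : Dat G v d L r w) {i j : Fin 3} (hij : i ≠ j) {q : V} (hqL : q ∉ L)
    (hqW : ¬ InW G v d q) (h1 : G.Adj q (w j)) (h2 : ¬ G.Adj q (w i)) :
    G.Adj q (r i) ∧ ∀ q', q' ∉ L → ¬ InW G v d q' → G.Adj q' (r i) → G.Adj q' (w j) := by
  obtain ⟨ht, hqr, he⟩ := D.one hij.symm hqL hqW h1 h2
  refine ⟨hqr, fun q' hq'L hq'W hq' => ?_⟩
  by_contra hcon
  have c1 := D.h.g1 (D.hr i).1 (D.hw i) ht he (D.hrw i) hqr h2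
  have c2 := D.h.b3 (D.hw j) (D.hw i) ht he (D.hn j i hij.symm).2.2.1
    (D.hn j i hij.symm).2.2.2.2.2 h1 h2
  have h3 := D.h.mixed_nbr (D.hr i) hq'L hq'W hq'.symm
  have c3 := D.h.b3 (D.hr i).1 (D.hw j) h3.1 h3.2 (D.hn i j hij).2.1
    (D.hn i j hij).2.2.2.2.1 hq' hcon
  obtain ⟨x, hx, hx'⟩ := (D.hr i).2.2
  rcases c1 x hx with h5 | h5
  · exact hx' h5
  · exact hx' (c3 x hx (c2 x hx h5))

theorem Dat.core (D : Dat G v d L r w) {i j k : Fin 3} (hij : i ≠ j) (hik : i ≠ k) (hjk : j ≠ k)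
    {pi pj : V} (hpi : pi ∉ L ∧ ¬ InW G v d pi ∧ G.Adj pi (r i))
    (hpj : pj ∉ L ∧ ¬ InW G v d pj ∧ G.Adj pj (r j)) {q : V} (hqL : q ∉ L)
    (hqW : ¬ InW G v d q) (h1 : G.Adj q (w j)) (h2 : ¬ G.Adj q (w i)) : False := by
  obtain ⟨hqr, hcomp⟩ := D.key hij hqL hqW h1 h2
  obtain ⟨q', hq'L, hq'W, hq'⟩ := D.ho k j hjk.symm
  by_cases h3 : G.Adj q' (w k)
  · have h4 : ¬ G.Adj q' (w j) := fun h4 => hq' ⟨fun _ => h4, fun _ => h3⟩
    obtain ⟨_, h5, _⟩ := D.one hjk.symm hq'L hq'W h3 h4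
    have h6 := D.two hij.symm hpi.1 hpi.2.1 hpi.2.2 hq'L hq'W h5
    exact h4 (hcomp q' hq'L hq'W h6)
  · have h4 : G.Adj q' (w j) := by
      by_contra h4
      exact hq' ⟨fun hh => absurd hh h3, fun hh => absurd hh h4⟩
    obtain ⟨_, h5, _⟩ := D.one hjk hq'L hq'W h4 h3
    have h6 : G.Adj q' (r i) := D.two hik.symm hpi.1 hpi.2.1 hpi.2.2 hq'L hq'W h5
    obtain ⟨q'', hq''L, hq''W, hq''⟩ := D.ho k i hik.symm
    by_cases h7 : G.Adj q'' (w k)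
    · have h8 : ¬ G.Adj q'' (w i) := fun h8 => hq'' ⟨fun _ => h8, fun _ => h7⟩
      exact h3 ((D.key hik hq''L hq''W h7 h8).2 q' hq'L hq'W h6)
    · have h8 : G.Adj q'' (w i) := by
        by_contra h8
        exact hq'' ⟨fun hh => absurd hh h7, fun hh => absurd hh h8⟩
      have h9 : G.Adj q (r k) := D.two hik hq'L hq'W h5 hqL hqW hqr
      exact h2 ((D.key hik.symm hq''L hq''W h8 h7).2 q hqL hqW h9)

theorem Dat.core' (D : Dat G v d L r w) {i j k : Fin 3} (hij : i ≠ j) (hik : i ≠ k) (hjk : j ≠ k)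
    (hpi : ∃ p, p ∉ L ∧ ¬ InW G v d p ∧ G.Adj p (r i))
    (hpj : ∃ p, p ∉ L ∧ ¬ InW G v d p ∧ G.Adj p (r j)) : False := by
  obtain ⟨pi, hpi⟩ := hpi
  obtain ⟨pj, hpj⟩ := hpj
  obtain ⟨q, hqL, hqW, hq⟩ := D.ho i j hij
  by_cases h1 : G.Adj q (w i)
  · have h2 : ¬ G.Adj q (w j) := fun h2 => hq ⟨fun _ => h2, fun _ => h1⟩
    exact D.core hij.symm hjk hik hpj hpi hqL hqW h1 h2
  · have h2 : G.Adj q (w j) := by
      by_contra h2
      exact hq ⟨fun hh => absurd hh h1, fun hh => absurd hh h2⟩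
    exact D.core hij hik hjk hpi hpj hqL hqW h2 h1

theorem Dat.three (D : Dat G v d L r w) {i j : Fin 3} (hij : i ≠ j) :
    (∃ p, p ∉ L ∧ ¬ InW G v d p ∧ G.Adj p (r i)) ∨
      (∃ p, p ∉ L ∧ ¬ InW G v d p ∧ G.Adj p (r j)) := by
  obtain ⟨q, hqL, hqW, hq⟩ := D.ho i j hij
  by_cases h1 : G.Adj q (w i)
  · have h2 : ¬ G.Adj q (w j) := fun h2 => hq ⟨fun _ => h2, fun _ => h1⟩
    exact Or.inr ⟨q, hqL, hqW, (D.one hij hqL hqW h1 h2).2.1⟩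
  · have h2 : G.Adj q (w j) := by
      by_contra h2
      exact hq ⟨fun hh => absurd hh h1, fun hh => absurd hh h2⟩
    exact Or.inl ⟨q, hqL, hqW, (D.one hij.symm hqL hqW h2 h1).2.1⟩

end TCdAux

theorem TCx.no_B {G : SimpleGraph V} {v d : V} {L : Finset V} (h : TCx G v d L)
    (r w : Fin 3 → V) (hr : ∀ i, Mixed G v d L (r i)) (hw : ∀ i, InW G v d (w i))
    (hrw : ∀ i, G.Adj (r i) (w i))
    (hn : ∀ i j, i ≠ j → ¬ G.Adj (r i) (r j) ∧ ¬ G.Adj (r i) (w j) ∧ ¬ G.Adj (w i) (w j) ∧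
      r i ≠ r j ∧ r i ≠ w j ∧ w i ≠ w j)
    (hi : ∀ i j, i ≠ j → IDiff G L (r i) (r j))
    (ho : ∀ i j, i ≠ j → ODiff G v d L (w i) (w j)) : False := by
  have D : TCdAux.Dat G v d L r w := ⟨h, hr, hw, hrw, hn, hi, ho⟩
  have n01 : (0 : Fin 3) ≠ 1 := by decide
  have n02 : (0 : Fin 3) ≠ 2 := by decide
  have n12 : (1 : Fin 3) ≠ 2 := by decide
  rcases D.three n01 with h0 | h1
  · rcases D.three n12 with h1 | h2
    · exact D.core' n01 n02 n12 h0 h1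
    · exact D.core' n02 n01 n12.symm h0 h2
  · rcases D.three n02 with h0 | h2
    · exact D.core' n01 n02 n12 h0 h1
    · exact D.core' n12 n01.symm n02.symm h1 h2

end GemCW
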