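import Pool.Agent.Lib.GemCW.AlgDefs

/-!
# Types

For a set `A` (bit list) of cut rank `≤ W` (in `CG n h`) the function `tauB n h A` numbers the types of
the vertices of `A` (two vertices of `A` have the same type if they have the same neighbours outside
`A`) by `0, 1, …, < 2 ^ W`.
-/

namespace GemCW

open Finset

/-- indicator list -/
noncomputable def ind (n : ℕ) (A : Finset (Fin n)) : List Bool :=
  open Classical in tab n (fun i => decide (∃ u ∈ A, (u : ℕ) = i))

theorem toS_ind (n : ℕ) (A : Finset (Fin n)) : toS n (ind n A) = A := by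
  classical
  ext i
  rw [mem_toS, ind, tab_getD i.2, decide_eq_true_eq]
  constructor
  · rintro ⟨u, hu, he⟩
    rwa [← Fin.ext he]
  · intro hi
    exact ⟨i, hi, rfl⟩

/-! ### Congruence -/

theorem takeWhile_congr' {α : Type*} {p q : α → Bool} : ∀ l : List α, (∀ i ∈ l, p i = q i) →
    l.takeWhile p = l.takeWhile q := by
  intro l
  induction l with
  | nil => intro _; rfl
  | cons a l ih =>
    intro h
    rw [List.takeWhile_cons, List.takeWhile_cons, h a (by simp),
      ih (fun i hi => h i (by simp [hi]))]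

theorem mu_congr {n : ℕ} {φ ψ : ℕ → Bool} (h : ∀ i < n, φ i = ψ i) : mu n φ = mu n ψ := by
  unfold mu
  rw [takeWhile_congr']
  intro i hi
  rw [h i (List.mem_range.1 hi)]

theorem cnt_eq_card (n : ℕ) (φ : ℕ → Bool) :
    cnt n φ = ((range n).filter (fun i => φ i = true)).card := by
  unfold cnt
  induction n with
  | zero => simp
  | succ n ih =>
    rw [List.range_succ, List.countP_append, ih, Finset.range_add_one, Finset.filter_insert]
    by_cases hn : φ n = true
    · rw [if_pos hn, Finset.card_insert_of_notMem (by simp)]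
      simp [hn]
    · rw [if_neg hn]
      simp [hn]

theorem cnt_congr {n : ℕ} {φ ψ : ℕ → Bool} (h : ∀ i < n, φ i = ψ i) : cnt n φ = cnt n ψ := by
  rw [cnt_eq_card, cnt_eq_card]
  congr 1
  apply Finset.filter_congr
  intro i hi
  rw [h i (Finset.mem_range.1 hi)]

theorem cnt_lt {n m : ℕ} {φ : ℕ → Bool} (hnm : n < m) (h : φ n = true) : cnt n φ < cnt m φ := by
  rw [cnt_eq_card, cnt_eq_card]
  apply Finset.card_lt_card
  rw [Finset.ssubset_iff_of_subset]
  · exact ⟨n, by simp [hnm, h], by simp⟩
  · intro i hi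
    rw [Finset.mem_filter, Finset.mem_range] at hi ⊢
    exact ⟨by omega, hi.2⟩

theorem getD_congr {n : ℕ} {A A' : List Bool} (hA : toS n A = toS n A') {i : ℕ} (hi : i < n) :
    A.getD i false = A'.getD i false := by
  have h1 : (⟨i, hi⟩ : Fin n) ∈ toS n A ↔ (⟨i, hi⟩ : Fin n) ∈ toS n A' := by rw [hA]
  rw [mem_toS, mem_toS] at h1
  exact Bool.eq_iff_iff.2 h1

theorem sameB_congr {n : ℕ} {h A A' : List Bool} (hA : toS n A = toS n A') (u v : ℕ) :
    sameB n h A u v = sameB n h A' u v := by
  rw [Bool.eq_iff_iff]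
  unfold sameB
  rw [allB_iff, allB_iff]
  refine forall_congr' fun z => forall_congr' fun hz => ?_
  rw [getD_congr hA hz]

theorem firstB_congrA {n : ℕ} {h A A' : List Bool} (hA : toS n A = toS n A') (u : ℕ) :
    firstB n h A u = firstB n h A' u := by
  unfold firstB
  apply mu_congr
  intro i hi
  rw [getD_congr hA hi, sameB_congr hA]

theorem firstB_le {n : ℕ} {h A : List Bool} {u : ℕ} : firstB n h A u ≤ n := mu_le _ _

theorem tauB_congr {n : ℕ} {h A A' : List Bool} (hA : toS n A = toS n A') {u : ℕ} (hu : u < n) :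
    tauB n h A u = tauB n h A' u := by
  unfold tauB
  rw [firstB_congrA hA]
  apply cnt_congr
  intro i hi
  have hin : i < n := lt_of_lt_of_le hi firstB_le
  rw [getD_congr hA hin, firstB_congrA hA]

/-! ### The relation `sameB` -/

theorem sameB_iff {n : ℕ} {h A : List Bool} {u v : ℕ} :
    sameB n h A u v = true ↔ ∀ z < n, A.getD z false = true ∨ hb n h u z = hb n h v z := by
  unfold sameB
  rw [allB_iff]
  simp only [Bool.or_eq_true, beq_iff_eq]

theorem sameB_refl {n : ℕ} {h A : List Bool} {u : ℕ} : sameB n h A u u = true :=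
  sameB_iff.2 fun _ _ => Or.inr rfl

theorem sameB_symm {n : ℕ} {h A : List Bool} {u v : ℕ} (huv : sameB n h A u v = true) :
    sameB n h A v u = true := by
  rw [sameB_iff] at huv ⊢
  intro z hz
  rcases huv z hz with h1 | h1
  · exact Or.inl h1
  · exact Or.inr h1.symm

theorem sameB_trans {n : ℕ} {h A : List Bool} {u v w : ℕ} (huv : sameB n h A u v = true)
    (hvw : sameB n h A v w = true) : sameB n h A u w = true := by
  rw [sameB_iff] at huv hvw ⊢
  intro z hz
  rcases huv z hz with h1 | h1
  · exact Or.inl h1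
  · rcases hvw z hz with h2 | h2
    · exact Or.inl h2
    · exact Or.inr (h1.trans h2)

theorem firstB_of_same {n : ℕ} {h A : List Bool} {u v : ℕ} (huv : sameB n h A u v = true) :
    firstB n h A u = firstB n h A v := by
  unfold firstB
  apply mu_congr
  intro i _
  have : sameB n h A i u = sameB n h A i v := by
    rw [Bool.eq_iff_iff]
    exact ⟨fun h1 => sameB_trans h1 huv, fun h1 => sameB_trans h1 (sameB_symm huv)⟩
  rw [this]

theorem firstB_spec {n : ℕ} {h A : List Bool} {u : ℕ} (hu : u < n) (hA : A.getD u false = true) :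
    firstB n h A u < n ∧ A.getD (firstB n h A u) false = true ∧
      sameB n h A (firstB n h A u) u = true := by
  have h1 := mu_spec (n := n) (φ := fun v => A.getD v false && sameB n h A v u)
    ⟨u, hu, by simp only [hA, sameB_refl, Bool.and_self]⟩
  rw [Bool.and_eq_true] at h1
  exact h1

theorem firstB_le_self {n : ℕ} {h A : List Bool} {u : ℕ} (hA : A.getD u false = true) :
    firstB n h A u ≤ u := by
  by_contra hcon
  push Not at hcon
  have h1 := mu_min (n := n) (φ := fun v => A.getD v false && sameB n h A v u) hcon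
  simp only [hA, sameB_refl, Bool.and_self] at h1
  exact Bool.noConfusion h1

theorem same_of_firstB {n : ℕ} {h A : List Bool} {u v : ℕ} (hu : u < n)
    (hA : A.getD u false = true) (hv : v < n) (hA' : A.getD v false = true)
    (he : firstB n h A u = firstB n h A v) : sameB n h A u v = true := by
  have h1 := (firstB_spec (h := h) hu hA).2.2
  have h2 := (firstB_spec (h := h) hv hA').2.2
  rw [he] at h1
  exact sameB_trans (sameB_symm h1) h2

theorem firstB_idem {n : ℕ} {h A : List Bool} {u : ℕ} (hu : u < n)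
    (hA : A.getD u false = true) : firstB n h A (firstB n h A u) = firstB n h A u :=
  firstB_of_same (firstB_spec hu hA).2.2

theorem phi_first {n : ℕ} {h A : List Bool} {u : ℕ} (hu : u < n)
    (hA : A.getD u false = true) :
    (fun v => A.getD v false && decide (firstB n h A v = v)) (firstB n h A u) = true := by
  simp only [Bool.and_eq_true, decide_eq_true_eq]
  exact ⟨(firstB_spec hu hA).2.1, firstB_idem hu hA⟩

theorem tauB_eq_iff_first {n : ℕ} {h A : List Bool} {u v : ℕ} (hu : u < n)
    (hA : A.getD u false = true) (hv : v < n) (hA' : A.getD v false = true) :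
    tauB n h A u = tauB n h A v ↔ firstB n h A u = firstB n h A v := by
  constructor
  · intro he
    rcases lt_trichotomy (firstB n h A u) (firstB n h A v) with h1 | h1 | h1
    · have h2 : tauB n h A u < tauB n h A v := cnt_lt h1 (phi_first hu hA)
      omega
    · exact h1
    · have h2 : tauB n h A v < tauB n h A u := cnt_lt h1 (phi_first hv hA')
      omega
  · intro he
    unfold tauB
    rw [he]

theorem sameB_fin {n : ℕ} {h A : List Bool} {u v : Fin n} : sameB n h A u v = true ↔
    ∀ z : Fin n, z ∉ toS n A → ((HG n h).Adj u z ↔ (HG n h).Adj v z) := by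
  rw [sameB_iff]
  constructor
  · intro h1 z hz
    rw [mem_toS] at hz
    rw [HG_adj, HG_adj]
    rcases h1 z z.2 with h2 | h2
    · exact absurd h2 hz
    · rw [h2]
  · intro h1 z hz
    by_cases h2 : A.getD z false = true
    · exact Or.inl h2
    · have h3 := h1 ⟨z, hz⟩ (by rw [mem_toS]; exact h2)
      rw [HG_adj, HG_adj] at h3
      exact Or.inr (Bool.eq_iff_iff.2 h3)

theorem tauB_eq_iff {n : ℕ} {h A : List Bool} {u v : Fin n} (hu : u ∈ toS n A)
    (hv : v ∈ toS n A) : tauB n h A u = tauB n h A v ↔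
      ∀ z : Fin n, z ∉ toS n A → ((HG n h).Adj u z ↔ (HG n h).Adj v z) := by
  rw [mem_toS] at hu hv
  rw [tauB_eq_iff_first u.2 hu v.2 hv, ← sameB_fin]
  exact ⟨same_of_firstB u.2 hu v.2 hv, firstB_of_same⟩

theorem tauB_lt {W n : ℕ} {h A : List Bool} (hc : cut (CG n h) (toS n A) ≤ W) {u : Fin n}
    (hu : u ∈ toS n A) : tauB n h A u < 2 ^ W := by
  classical
  rw [mem_toS] at hu
  have h1 : tauB n h A u < cnt n (fun v => A.getD v false && decide (firstB n h A v = v)) :=
    cnt_lt (firstB_spec u.2 hu).1 (phi_first u.2 hu)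
  refine lt_of_lt_of_le h1 ?_
  refine le_trans ?_ ((card_traces_le (CG n h) (toS n A) (toS n A)ᶜ).trans
    (Nat.pow_le_pow_right (by norm_num) hc))
  rw [cnt_eq_card]
  have hmem : ∀ v, v ∈ (range n).filter
      (fun i => (A.getD i false && decide (firstB n h A i = i)) = true) →
      ∃ hv : v < n, A.getD v false = true ∧ firstB n h A v = v := by
    intro v hv
    rw [Finset.mem_filter, Finset.mem_range, Bool.and_eq_true, decide_eq_true_eq] at hv
    exact ⟨hv.1, hv.2⟩
  apply Finset.card_le_card_of_injOn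
    (fun v => if hv : v < n then nb (CG n h) (⟨v, hv⟩ : Fin n) (toS n A)ᶜ else ∅)
  · intro v hv
    obtain ⟨hvn, hvA, _⟩ := hmem v (Finset.mem_coe.1 hv)
    simp only [dif_pos hvn]
    exact Finset.mem_coe.2 (mem_image_of_mem (fun u => nb (CG n h) u (toS n A)ᶜ)
      (mem_toS.2 hvA))
  · intro v hv v' hv' he
    obtain ⟨hvn, hvA, hvf⟩ := hmem v (Finset.mem_coe.1 hv)
    obtain ⟨hvn', hvA', hvf'⟩ := hmem v' (Finset.mem_coe.1 hv')
    simp only [dif_pos hvn, dif_pos hvn'] at he
    have h3 : sameB n h A v v' = true := by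
      have := sameB_fin (n := n) (h := h) (A := A) (u := ⟨v, hvn⟩) (v := ⟨v', hvn'⟩)
      refine this.2 fun z hz => ?_
      have h4 : z ∈ nb (CG n h) (⟨v, hvn⟩ : Fin n) (toS n A)ᶜ ↔
          z ∈ nb (CG n h) (⟨v', hvn'⟩ : Fin n) (toS n A)ᶜ := by rw [he]
      rw [mem_nb, mem_nb, mem_compl] at h4
      have h5 : (⟨v, hvn⟩ : Fin n) ≠ z := by
        rintro rfl
        exact hz (mem_toS.2 hvA)
      have h6 : (⟨v', hvn'⟩ : Fin n) ≠ z := by
        rintro rfl
        exact hz (mem_toS.2 hvA')
      simp only [CG, SimpleGraph.compl_adj, hz, not_false_eq_true, true_and, h5, h6, ne_eq] at h4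
      exact not_iff_not.1 h4
    rw [← hvf, ← hvf']
    exact firstB_of_same h3

/-- the type of `u` as an element of `Fin (2 ^ W)` -/
noncomputable def tauS (W n : ℕ) (h : List Bool) (A : Finset (Fin n)) (u : Fin n) :
    Fin (2 ^ W) :=
  if hlt : tauB n h (ind n A) u < 2 ^ W then ⟨tauB n h (ind n A) u, hlt⟩
  else ⟨0, by positivity⟩

theorem tauS_val {W n : ℕ} {h A : List Bool} (hc : cut (CG n h) (toS n A) ≤ W) {u : Fin n}
    (hu : u ∈ toS n A) : (tauS W n h (toS n A) u : ℕ) = tauB n h A u := by
  have h1 : tauB n h (ind n (toS n A)) u = tauB n h A u := tauB_congr (toS_ind n _) u.2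
  have h2 : tauB n h (ind n (toS n A)) u < 2 ^ W := by
    rw [h1]
    exact tauB_lt hc hu
  unfold tauS
  rw [dif_pos h2]
  exact h1

theorem tauS_eq_iff {W n : ℕ} {h : List Bool} {A : Finset (Fin n)}
    (hc : cut (CG n h) A ≤ W) {u v : Fin n} (hu : u ∈ A) (hv : v ∈ A) :
    tauS W n h A u = tauS W n h A v ↔
      ∀ z : Fin n, z ∉ A → ((HG n h).Adj u z ↔ (HG n h).Adj v z) := by
  obtain ⟨B, rfl⟩ : ∃ B, toS n B = A := ⟨ind n A, toS_ind n A⟩
  rw [← tauB_eq_iff hu hv, ← tauS_val hc hu, ← tauS_val hc hv, Fin.ext_iff]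

theorem tauS_singleton {W n : ℕ} {h : List Bool} (u : Fin n) :
    (tauS W n h {u} u : ℕ) = 0 := by
  have h1 : tauB n h (ind n {u}) u = 0 := by
    unfold tauB
    have hmem : ∀ i (hi : i < n), (ind n {u}).getD i false = true ↔ (⟨i, hi⟩ : Fin n) = u := by
      intro i hi
      have := mem_toS (n := n) (A := ind n {u}) (i := ⟨i, hi⟩)
      rw [toS_ind, mem_singleton] at this
      exact this.symm
    have h2 : firstB n h (ind n {u}) u ≤ u := firstB_le_self ((hmem u u.2).2 rfl)
    rw [cnt_eq_card, Finset.card_eq_zero, Finset.filter_eq_empty_iff]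
    intro i hi hcon
    rw [Finset.mem_range] at hi
    rw [Bool.and_eq_true] at hcon
    have hiu : i < u := lt_of_lt_of_le hi h2
    have h3 := (hmem i (hiu.trans u.2)).1 hcon.1
    rw [← h3] at hiu
    exact lt_irrefl _ hiu
  unfold tauS
  split_ifs
  · exact h1
  · rfl

/-- membership of the type in a set of types -/
theorem tinB_iff {W n : ℕ} {h A : List Bool} (hc : cut (CG n h) (toS n A) ≤ W) {u : Fin n}
    (hu : u ∈ toS n A) (S : Finset (Fin (2 ^ W))) :
    tinB S n h A u = true ↔ tauS W n h (toS n A) u ∈ S := by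
  unfold tinB
  rw [exF_iff]
  simp only [Bool.and_eq_true, decide_eq_true_eq]
  rw [← tauS_val hc hu]
  constructor
  · rintro ⟨t, ht, he⟩
    rwa [Fin.ext he]
  · intro ht
    exact ⟨_, ht, rfl⟩

end GemCW
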