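import Pool.Agent.Lib.GemCW.Tfour
import Pool.Agent.Lib.GemCW.Kfour
import Pool.Agent.Lib.GemCW.Transfer

/-!
# Well-linked induced matchings, V: flips

`flips`: for `c` there is `N` such that in a clean system `TCl G S R J y₀` with `S` `WL G c`, for each
`i : Fin 3` there is `B ⊆ S` with `|B| ≤ N` such that for all `y, w ∉ R` of type `i` and `s ∈ S \ B`:
`Dev y s`, `¬ Dev w s` imply `y ≁ w`.

For the type `i ≠ 1` there are in every `J t` two adjacent vertices `σ t`, `τ t` such that a vertex of type `i` which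
does not deviate at `t` is adjacent to `τ t` and not to `σ t`, and a flip at `t` is adjacent to `σ t` and not to `τ t`.
-/

namespace GemCW

open Finset

namespace TfiveAux

variable {V : Type*} [Fintype V] [DecidableEq V]

/-- choice of the two vertices in each `J t` -/
structure ST (G : SimpleGraph V) (S R : Finset V) (J : V → Finset V) (y₀ : V) (i : Fin 3)
    (σ τ : V → V) : Prop where
  mσ : ∀ t ∈ S, σ t ∈ J t
  mτ : ∀ t ∈ S, τ t ∈ J t
  typ : ∀ v, v ∉ R → ty G S y₀ v = i → ∀ t ∈ S, ¬ Dev G S J y₀ v t → G.Adj v (τ t) ∧ ¬ G.Adj v (σ t)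
  flp : ∀ v, v ∉ R → ty G S y₀ v = i → ∀ t ∈ S, Flip G S J y₀ v t → G.Adj v (σ t) ∧ ¬ G.Adj v (τ t)
  dev : ∀ v, v ∉ R → ty G S y₀ v = i → ∀ t ∈ S, Flip G S J y₀ v t → Dev G S J y₀ v t

theorem nb_of_not_dev {G : SimpleGraph V} {S : Finset V} {J : V → Finset V} {y₀ v t : V}
    (h : ¬ Dev G S J y₀ v t) : nb G v (J t) = Tr₀ J (ty G S y₀ v) t := by
  by_contra hn
  exact h (Or.inl hn)

theorem exists_st {G : SimpleGraph V} {S R : Finset V} {J : V → Finset V} {y₀ : V}
    (h : TCl G S R J y₀) {i : Fin 3} (hi : i ≠ 1) :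
    ∃ σ τ : V → V, ST G S R J y₀ i σ τ ∧ ((i = 0 ∧ ∀ t, σ t = t) ∨ (i = 2 ∧ ∀ t, τ t = t)) := by
  have hother : ∀ t, ∃ q, t ∈ S → q ∈ J t ∧ q ≠ t := by
    intro t
    by_cases ht : t ∈ S
    · obtain ⟨q, hq, hqt⟩ := exists_mem_ne (show 1 < (J t).card from h.sys.two t ht) t
      exact ⟨q, fun _ => ⟨hq, hqt⟩⟩
    · exact ⟨t, fun h' => absurd h' ht⟩
  choose o ho using hother
  have hi' : i = 0 ∨ i = 2 := by
    fin_cases i
    · exact Or.inl rfl
    · exact absurd rfl hi
    · exact Or.inr rfl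
  rcases hi' with rfl | rfl
  · refine ⟨fun t => t, o, ⟨fun t ht => h.sys.mem t ht, fun t ht => (ho t ht).1, ?_, ?_, ?_⟩,
      Or.inl ⟨rfl, fun t => rfl⟩⟩
    · intro v hv hty t ht hnd
      have h1 := nb_of_not_dev hnd
      rw [hty] at h1
      have h2 : nb G v (J t) = (J t).erase t := h1
      constructor
      · have h3 : o t ∈ nb G v (J t) := by
          rw [h2, mem_erase]
          exact ⟨(ho t ht).2, (ho t ht).1⟩
        exact (mem_nb.1 h3).2
      · intro hadj
        have h3 : t ∈ nb G v (J t) := mem_nb.2 ⟨h.sys.mem t ht, hadj⟩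
        rw [h2, mem_erase] at h3
        exact h3.1 rfl
    · intro v hv hty t ht hf
      obtain ⟨_, h1 | h1⟩ := hf
      · have h2 := h1.2
        constructor
        · have h3 : t ∈ nb G v (J t) := by
            rw [h2]
            exact mem_singleton_self t
          exact (mem_nb.1 h3).2
        · intro hadj
          have h3 : o t ∈ nb G v (J t) := mem_nb.2 ⟨(ho t ht).1, hadj⟩
          rw [h2, mem_singleton] at h3
          exact (ho t ht).2 h3
      · rw [hty] at h1
        exact absurd h1.1 (by decide)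
    · intro v hv hty t ht hf
      obtain ⟨_, h1 | h1⟩ := hf
      · refine Or.inl ?_
        rw [hty, h1.2]
        intro h3
        have h4 : t ∈ Tr₀ J 0 t := by
          rw [← h3]
          exact mem_singleton_self t
        have h5 : t ∈ (J t).erase t := h4
        exact (mem_erase.1 h5).1 rfl
      · rw [hty] at h1
        exact absurd h1.1 (by decide)
  · refine ⟨o, fun t => t, ⟨fun t ht => (ho t ht).1, fun t ht => h.sys.mem t ht, ?_, ?_, ?_⟩,
      Or.inr ⟨rfl, fun t => rfl⟩⟩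
    · intro v hv hty t ht hnd
      have h1 := nb_of_not_dev hnd
      rw [hty] at h1
      have h2 : nb G v (J t) = {t} := h1
      constructor
      · have h3 : t ∈ nb G v (J t) := by
          rw [h2]
          exact mem_singleton_self t
        exact (mem_nb.1 h3).2
      · intro hadj
        have h3 : o t ∈ nb G v (J t) := mem_nb.2 ⟨(ho t ht).1, hadj⟩
        rw [h2, mem_singleton] at h3
        exact (ho t ht).2 h3
    · intro v hv hty t ht hf
      obtain ⟨_, h1 | h1⟩ := hf
      · rw [hty] at h1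
        exact absurd h1.1 (by decide)
      · have h2 := h1.2
        constructor
        · have h3 : o t ∈ nb G v (J t) := by
            rw [h2, mem_erase]
            exact ⟨(ho t ht).2, (ho t ht).1⟩
          exact (mem_nb.1 h3).2
        · intro hadj
          have h3 : t ∈ nb G v (J t) := mem_nb.2 ⟨h.sys.mem t ht, hadj⟩
          rw [h2, mem_erase] at h3
          exact h3.1 rfl
    · intro v hv hty t ht hf
      obtain ⟨_, h1 | h1⟩ := hf
      · rw [hty] at h1
        exact absurd h1.1 (by decide)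
      · refine Or.inl ?_
        rw [hty, h1.2]
        intro h3
        have h4 : t ∈ (J t).erase t := by
          rw [h3]
          exact mem_singleton_self t
        exact (mem_erase.1 h4).1 rfl

theorem bound {G : SimpleGraph V} {S R : Finset V} {J : V → Finset V} {y₀ : V}
    (h : TCl G S R J y₀) {i : Fin 3} {σ τ : V → V} (hst : ST G S R J y₀ i σ τ)
    (hστ : (i = 0 ∧ ∀ t, σ t = t) ∨ (i = 2 ∧ ∀ t, τ t = t)) {c N : ℕ} (hWL : WL G c S)
    (hK : ∀ S : Finset V, WL G (c + 1) S → Clq G S → S.card < N)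
    {v : V} (hv : v ∉ R) (hvt : ty G S y₀ v = i) (C : Finset V) (hC : C ⊆ S) (f : V → V)
    (hf1 : ∀ t ∈ C, f t ∉ R) (hf2 : ∀ t ∈ C, ty G S y₀ (f t) = i)
    (hf3 : ∀ t ∈ C, Flip G S J y₀ (f t) t) (hvC : ∀ t ∈ C, ¬ Dev G S J y₀ v t)
    (hvf : ∀ t ∈ C, G.Adj v (f t)) : C.card < N := by
  classical
  have hdev : ∀ t ∈ C, ∀ u ∈ S, u ≠ t → ¬ Dev G S J y₀ (f t) u := by
    intro t ht u hu hut hd
    exact hut (h.dev_unique (hf1 t ht) hu (hC ht) hd
      (hst.dev _ (hf1 t ht) (hf2 t ht) t (hC ht) (hf3 t ht)))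
  have hinj : ∀ s ∈ C, ∀ t ∈ C, f s = f t → s = t := by
    intro s hs t ht hst'
    by_contra hne
    refine hdev t ht s (hC hs) hne ?_
    rw [← hst']
    exact hst.dev _ (hf1 s hs) (hf2 s hs) s (hC hs) (hf3 s hs)
  -- the clique
  have hclq : ∀ t ∈ C, ∀ u ∈ C, t ≠ u → G.Adj (f t) (f u) := by
    intro t ht u hu htu
    by_contra hn
    -- a further index
    have hdv : (S.filter (fun r => Dev G S J y₀ v r)).card ≤ 1 := by
      rw [card_le_one]
      intro a ha b hb
      rw [mem_filter] at ha hb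
      exact h.dev_unique hv ha.1 hb.1 ha.2 hb.2
    have hlt : ({t, u} ∪ S.filter (fun r => Dev G S J y₀ v r)).card < S.card := by
      have h1 := card_union_le ({t, u} : Finset V) (S.filter (fun r => Dev G S J y₀ v r))
      have h2 : ({t, u} : Finset V).card ≤ 2 := card_le_two
      have h3 := h.card
      omega
    obtain ⟨r, hr, hrn⟩ := exists_mem_notMem_of_card_lt_card hlt
    rw [mem_union, mem_insert, mem_singleton, mem_filter] at hrn
    push Not at hrn
    obtain ⟨⟨hrt, hru⟩, hrd⟩ := hrn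
    have hrd' := hrd hr
    have htS := hC ht
    have huS := hC hu
    have hA1 := hst.typ (f u) (hf1 u hu) (hf2 u hu) t htS (hdev u hu t htS htu)
    have hA2 := hst.typ (f u) (hf1 u hu) (hf2 u hu) r hr (hdev u hu r hr hru)
    have hA3 := hst.typ (f t) (hf1 t ht) (hf2 t ht) r hr (hdev t ht r hr hrt)
    have hF := hst.flp (f t) (hf1 t ht) (hf2 t ht) t htS (hf3 t ht)
    have hV1 := hst.typ v hv hvt t htS (hvC t ht)
    have hV2 := hst.typ v hv hvt r hr hrd'
    have hJ : ¬ G.Adj (τ t) (τ r) := by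
      refine h.sys.anti r hr (τ t) (h.sys.sub t htS (hst.mτ t htS)) ?_ (τ r) (hst.mτ r hr)
      exact fun hq => (disjoint_left.1 (h.sys.disj t htS r hr (fun e => hrt e.symm)))
        (hst.mτ t htS) hq
    exact h.sys.cls.gem (τ t) (f u) (τ r) (f t) v hA1.1.symm hA2.1 hA3.1.symm hJ
      (fun e => hn e.symm) (fun e => hF.2 e.symm) hV1.1 (hvf u hu) hV2.1 (hvf t ht)
  have hcl : Clq G (C.image f) := by
    intro a ha b hb hab
    obtain ⟨t, ht, rfl⟩ := mem_image.1 ha
    obtain ⟨u, hu, rfl⟩ := mem_image.1 hb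
    exact hclq t ht u hu (fun e => hab (by rw [e]))
  have hwl : WL G (c + 1) (C.image f) := by
    rcases hστ with ⟨hi, hσ⟩ | ⟨hi, hτ⟩
    · refine transfer_set C f False hinj (fun s hs => ?_) (fun s hs t ht hst' => ?_) (hWL.sub hC)
      · have h1 := hst.flp (f s) (hf1 s hs) (hf2 s hs) s (hC hs) (hf3 s hs)
        rw [hσ] at h1
        exact fun hiff => hiff.1 h1.1.symm
      · have h1 := hst.typ (f t) (hf1 t ht) (hf2 t ht) s (hC hs) (hdev t ht s (hC hs) hst')
        rw [hσ] at h1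
        exact ⟨fun e => h1.2 e.symm, fun e => e.elim⟩
    · refine transfer_set C f True hinj (fun s hs => ?_) (fun s hs t ht hst' => ?_) (hWL.sub hC)
      · have h1 := hst.flp (f s) (hf1 s hs) (hf2 s hs) s (hC hs) (hf3 s hs)
        rw [hτ] at h1
        exact fun hiff => h1.2 (hiff.2 trivial).symm
      · have h1 := hst.typ (f t) (hf1 t ht) (hf2 t ht) s (hC hs) (hdev t ht s (hC hs) hst')
        rw [hτ] at h1
        exact ⟨fun _ => trivial, fun _ => h1.1.symm⟩
  have hfin := hK _ hwl hcl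
  rwa [card_image_of_injOn (fun s hs t ht e => hinj s hs t ht e)] at hfin

end TfiveAux

open TfiveAux

theorem flips (c : ℕ) : ∃ N : ℕ, ∀ (V : Type) [Fintype V] [DecidableEq V] (G : SimpleGraph V)
    (S R : Finset V) (J : V → Finset V) (y₀ : V), TCl G S R J y₀ → WL G c S → ∀ i : Fin 3,
    ∃ B ⊆ S, B.card ≤ N ∧ ∀ y, y ∉ R → ∀ w, w ∉ R → ty G S y₀ y = i → ty G S y₀ w = i →
      ∀ s ∈ S, s ∉ B → Dev G S J y₀ y s → ¬ Dev G S J y₀ w s → ¬ G.Adj y w := by
  classical
  obtain ⟨N, hN⟩ := K_main (c + 1)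
  refine ⟨2 * N + 2, ?_⟩
  intro V _ _ G S R J y₀ h hWL i
  by_cases hex : ∃ y, y ∉ R ∧ ∃ w, w ∉ R ∧ ty G S y₀ y = i ∧ ty G S y₀ w = i ∧ ∃ s ∈ S,
      Dev G S J y₀ y s ∧ ¬ Dev G S J y₀ w s ∧ G.Adj y w
  swap
  · refine ⟨∅, empty_subset _, by simp, ?_⟩
    intro y hy w hw hty htw s hs _ hd hnd hadj
    exact hex ⟨y, hy, w, hw, hty, htw, s, hs, hd, hnd, hadj⟩
  obtain ⟨y, hy, w, hw, hty, htw, s, hs, hd, hnd, hadj⟩ := hex
  have hflip : Flip G S J y₀ y s := h.same hy hw hs (hty.trans htw.symm) hd hnd hadj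
  have hi : i ≠ 1 := by
    rintro rfl
    obtain ⟨_, h1 | h1⟩ := hflip
    · rw [hty] at h1
      exact absurd h1.1 (by decide)
    · rw [hty] at h1
      exact absurd h1.1 (by decide)
  obtain ⟨σ, τ, hst, hστ⟩ := exists_st h hi
  set B : Finset V := S.filter (fun t => ∃ f, f ∉ R ∧ ty G S y₀ f = i ∧ Flip G S J y₀ f t) with hB
  refine ⟨B, filter_subset _ _, ?_, ?_⟩
  swap
  · intro a ha b hb hta htb t ht htB hda hndb hab
    refine htB ?_
    rw [hB, mem_filter]
    exact ⟨ht, a, ha, hta, h.same ha hb ht (hta.trans htb.symm) hda hndb hab⟩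
  have hBf : ∀ t, ∃ f, t ∈ B → f ∉ R ∧ ty G S y₀ f = i ∧ Flip G S J y₀ f t := by
    intro t
    by_cases ht : t ∈ B
    · obtain ⟨f, hf⟩ := (mem_filter.1 ht).2
      exact ⟨f, fun _ => hf⟩
    · exact ⟨t, fun h' => absurd h' ht⟩
  choose f hf using hBf
  set B' : Finset V := B.filter (fun t => t ≠ s ∧ ¬ Dev G S J y₀ w t) with hB'
  have hB'B : B' ⊆ B := filter_subset _ _
  have hBS : B ⊆ S := filter_subset _ _
  have hcardB : B.card ≤ B'.card + 2 := by
    have h1 : B ⊆ (B' ∪ {s}) ∪ S.filter (fun r => Dev G S J y₀ w r) := by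
      intro t ht
      by_cases hts : t = s
      · exact mem_union_left _ (mem_union_right _ (mem_singleton.2 hts))
      · by_cases hdt : Dev G S J y₀ w t
        · exact mem_union_right _ (mem_filter.2 ⟨hBS ht, hdt⟩)
        · exact mem_union_left _ (mem_union_left _ (mem_filter.2 ⟨ht, hts, hdt⟩))
    have h2 := card_le_card h1
    have h3 := card_union_le (B' ∪ {s}) (S.filter (fun r => Dev G S J y₀ w r))
    have h4 := card_union_le B' {s}
    have h5 : (S.filter (fun r => Dev G S J y₀ w r)).card ≤ 1 := by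
      rw [card_le_one]
      intro a ha b hb
      rw [mem_filter] at ha hb
      exact h.dev_unique hw ha.1 hb.1 ha.2 hb.2
    rw [card_singleton] at h4
    omega
  have hyB' : ∀ t ∈ B', ¬ Dev G S J y₀ y t := by
    intro t ht hdt
    rw [hB', mem_filter] at ht
    exact ht.2.1 (h.dev_unique hy (hBS ht.1) hs hdt hd)
  have hwB' : ∀ t ∈ B', ¬ Dev G S J y₀ w t := by
    intro t ht
    rw [hB', mem_filter] at ht
    exact ht.2.2
  have hB's : ∀ t ∈ B', t ≠ s := by
    intro t ht
    rw [hB', mem_filter] at ht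
    exact ht.2.1
  -- (1)
  have hone : ∀ t ∈ B', G.Adj y (f t) ∨ G.Adj w (f t) := by
    intro t ht
    by_contra hno
    push Not at hno
    obtain ⟨hn1, hn2⟩ := hno
    have htB := hB'B ht
    have htS := hBS htB
    obtain ⟨hf1, hf2, hf3⟩ := hf t htB
    have hts := hB's t ht
    have hY := hst.flp y hy hty s hs hflip
    have hW := hst.typ w hw htw s hs hnd
    have hFt := hst.flp (f t) hf1 hf2 t htS hf3
    have hFd := hst.dev (f t) hf1 hf2 t htS hf3
    have hFs := hst.typ (f t) hf1 hf2 s hs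
      (fun hds => hts (h.dev_unique hf1 htS hs hFd hds))
    have hYt := hst.typ y hy hty t htS (hyB' t ht)
    have hWt := hst.typ w hw htw t htS (hwB' t ht)
    have hJ : ¬ G.Adj (σ t) (σ s) := by
      refine h.sys.anti s hs (σ t) (h.sys.sub t htS (hst.mσ t htS)) ?_ (σ s) (hst.mσ s hs)
      exact fun hq => (disjoint_left.1 (h.sys.disj t htS s hs hts)) (hst.mσ t htS) hq
    have hne : σ s ≠ w := by
      rintro e
      exact hw (e ▸ h.sys.sub s hs (hst.mσ s hs))
    exact h.sys.cls.pp (σ t) (f t) (σ s) y w hFt.1.symm hY.1.symm hadj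
      (fun e => hW.2 e.symm) hne hJ (fun e => hYt.2 e.symm) (fun e => hWt.2 e.symm)
      hFs.2 (fun e => hn1 e.symm) (fun e => hn2 e.symm)
  have hb1 : (B'.filter (fun t => G.Adj y (f t))).card < N := by
    refine bound h hst hστ hWL (hN V G h.sys.cls) hy hty (B'.filter (fun t => G.Adj y (f t)))
      ((filter_subset _ _).trans (hB'B.trans hBS)) f ?_ ?_ ?_ ?_ ?_
    · exact fun t ht => (hf t (hB'B (mem_filter.1 ht).1)).1
    · exact fun t ht => (hf t (hB'B (mem_filter.1 ht).1)).2.1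
    · exact fun t ht => (hf t (hB'B (mem_filter.1 ht).1)).2.2
    · exact fun t ht => hyB' t (mem_filter.1 ht).1
    · exact fun t ht => (mem_filter.1 ht).2
  have hb2 : (B'.filter (fun t => G.Adj w (f t))).card < N := by
    refine bound h hst hστ hWL (hN V G h.sys.cls) hw htw (B'.filter (fun t => G.Adj w (f t)))
      ((filter_subset _ _).trans (hB'B.trans hBS)) f ?_ ?_ ?_ ?_ ?_
    · exact fun t ht => (hf t (hB'B (mem_filter.1 ht).1)).1
    · exact fun t ht => (hf t (hB'B (mem_filter.1 ht).1)).2.1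
    · exact fun t ht => (hf t (hB'B (mem_filter.1 ht).1)).2.2
    · exact fun t ht => hwB' t (mem_filter.1 ht).1
    · exact fun t ht => (mem_filter.1 ht).2
  have hcov : B' ⊆ B'.filter (fun t => G.Adj y (f t)) ∪ B'.filter (fun t => G.Adj w (f t)) := by
    intro t ht
    rcases hone t ht with h1 | h1
    · exact mem_union_left _ (mem_filter.2 ⟨ht, h1⟩)
    · exact mem_union_right _ (mem_filter.2 ⟨ht, h1⟩)
  have h6 := card_le_card hcov
  have h7 := card_union_le (B'.filter (fun t => G.Adj y (f t)))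
    (B'.filter (fun t => G.Adj w (f t)))
  omega

end GemCW
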