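import Pool.Agent.Lib.GemCW.Tone

/-!
# Well-linked induced matchings, IV: types of vertices

Context `TCl G S R J y₀`: a `TSys G S R J`, `8 ≤ |S|`, `y₀ ∉ R` is nonadjacent to every `s ∈ S` (so it
is adjacent to every other vertex of `J s`), and every vertex `w` has at most one neighbour in `S`
or at most one non-neighbour in `S`.

Types of `y ∉ R`: `ty y = 0` if `|N(y) ∩ S| ≤ 1`; otherwise `ty y = 2` if `y ~ y₀`, and
`ty y = 1` if `y ≁ y₀`.  `Tr₀ i s`: the typical trace on `J s`: `i = 0`: `J s \ {s}`; `i = 1`: `J s`;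
`i = 2`: `{s}`.  `Dev y s`: `nb G y (J s) ≠` typical trace, or `ty y = 2` and `|J s| ≠ 2`.

* `dense_of`: `ty y ≠ 0` ⇒ at most one `s ∈ S` is nonadjacent to `y`.
* `typeB`: `y ∉ R`, `ty y = 1`, `s ∈ S`, `p ∈ J s`, `p ≠ s` ⇒ `y ~ p`.
  Proof.  Suppose `y ≁ p`.  Choose `t ≠ u` in `S \ {s}` adjacent to `y`.  `t2`-configuration: path
  `t - y - u` (`t ≁ u`), edge `p y₀` (`y₀ ~ p`; `y₀ ≁ t, u, y`; `p ≁ t, u, y`).
* `typeX`: `y ∉ R`, `ty y = 2`: all `s ∈ S` but at most one are *good*: `|J s| = 2`, `y ~ s`, and `y` is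
  nonadjacent to the other vertex of `J s` (i.e. `¬ Dev y s`).
  Proof.  If `t ∈ S` is bad then `y` has a neighbour `c ∈ J t`, `c ≠ t` (if `y ≁ t`: `miss`, all others; if
  `y ~ t` and `|J t| ≥ 3`: `miss`; if `|J t| = 2`, `y ~ t` and bad then the other vertex is a neighbour);
  `y₀ ~ c`.  Let `s ≠ t` be both bad.  Then `c ∈ J t \ {t}` is a common neighbour of `y ~ y₀` outside
  `J s`.  If `y ~ s`: by `t1` (`y` in the role of `y`, `w = y₀`, `y₀ ≁ s`): no `p ∈ J s` adjacent to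
  both `y` and `y₀`; so `y` is nonadjacent to all of `J s \ {s}`, which by `miss` has one element: `s` is
  good.  So `y ≁ s`, and likewise `y ≁ t`; but `y` has at most one non-neighbour in `S`.
* `dev_unique`: `Dev y s`, `Dev y t` (`s, t ∈ S`, `y ∉ R`) ⇒ `s = t`.  (type 0: `Dev y s` iff `y ~ s` (by
  `miss`, if `y ≁ s`, `nb G y (J s) = J s \ {s}`); type 1: `Dev y s` iff `y ≁ s` by `typeB`; type 2:
  `typeX`.)
* `dev0`, `dev1`: the characterisations just given.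
* `rel02`: types 0 and 2: `y ~ w`.  Proof: suppose `y ≁ w`, `ty y = 0`, `ty w = 2`.  Take `s, t, u ∈ S`
  distinct, not deviating for `y` nor `w` (`8 ≤ |S|`).  `J s = {s, s'}`, `J t = {t, t'}`: `y ~ s', t'`,
  `w ≁ s', t'`; `u ~ w`, `u ≁ y`.  `t2`: path `s' - y - t'`, edge `u w`.
* `rel01`, `rel21`: types 0 (or 2) and 1: `y ≁ w`.  Proof: `ty w = 1`, `y ~ w`.  Take `s ≠ t` not deviating for
  both.  In `J t` there is `c ~ y` (type 0: any `c ≠ t`; type 2: `c = t`), `w ~ c`.  `w` is adjacent to all of `J s`,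
  `y` to some `p ∈ J s` and not to some `q ∈ J s`: contradiction to `t1` (with `w` in the role of `y`).
* `same`: `y, w ∉ R` of the same type `i`, `s ∈ S`, `Dev y s`, `¬ Dev w s`, `y ~ w`.  Then `i ≠ 1`, `|J s| = 2` and
  `y` is a *flip* at `s`: type 0: `y ~ s` and `y ≁` the other vertex; type 2: `y ≁ s`, `y ~` the other.
  Proof.  Take `t ∈ S`, `t ≠ s` not deviating for both; there is a common neighbour `c ∈ J t`.
  Type 1: `w` adjacent to all of `J s`, `y ≁ s` only: contradiction to `t1`.  Type 0: `y ~ s`, `w ≁ s`, so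
  by `t1` `w` is nonadjacent to all neighbours of `y` in `J s`; but `w` is adjacent to all of `J s \ {s}`; so `y`
  is nonadjacent to all of `J s \ {s}`, so `|J s| = 2` (`miss`).  Type 2: `|J s| = 2` (`¬ Dev w s`),
  `J s = {s, s'}`, `w ~ s`, `w ≁ s'`; `Dev y s` and `miss`: `y ~ s'`; if `y ~ s` then `t1` gives `w ~ s'`,
  contradiction.
* `diff`: `y, w ∉ R` of the same type, `Dev y s`, `Dev w t`, `s ≠ t` (in `S`), `y ≁ w`, `z ∈ R`,
  `z ∉ J s`, `z ∉ J t`: `z ~ y ↔ z ~ w`.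
  Proof.  There are `p ∈ J s`, `q ∈ J t` such that (`y ~ p`, `w ≁ p`, `w ~ q`, `y ≁ q`) or
  (`y ≁ p`, `w ~ p`, `w ≁ q`, `y ~ q`): type 0: `p = s`, `q = t` (first); type 1: `p = s`, `q = t` (second);
  type 2: `J s = {s,s'}` (as `¬ Dev w s`), `J t = {t, t'}`, `p = s'`, `q = t'` (first).
  Suppose `z ~ w`, `z ≁ y`.  First case: path `q - w - z`, edge `p y`.  Second case: path `p - w - z`, edge
  `q y`.  (`t2`.)  Symmetrically for `z ~ y`, `z ≁ w`.
-/

namespace GemCW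

open Finset

variable {V : Type*} [Fintype V] [DecidableEq V]

structure TCl (G : SimpleGraph V) (S R : Finset V) (J : V → Finset V) (y₀ : V) : Prop where
  sys : TSys G S R J
  card : 8 ≤ S.card
  y₀R : y₀ ∉ R
  y₀S : ∀ s ∈ S, ¬ G.Adj y₀ s
  clean : ∀ w, (nb G w S).card ≤ 1 ∨ (S \ nb G w S).card ≤ 1

open scoped Classical in
/-- type of a vertex -/
noncomputable def ty (G : SimpleGraph V) (S : Finset V) (y₀ y : V) : Fin 3 :=
  if (nb G y S).card ≤ 1 then 0 else if G.Adj y y₀ then 2 else 1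

/-- typical trace of type `i` on `J s` -/
def Tr₀ (J : V → Finset V) (i : Fin 3) (s : V) : Finset V :=
  if i = 0 then (J s).erase s else if i = 1 then J s else {s}

/-- `y` deviates at `s` -/
def Dev (G : SimpleGraph V) (S : Finset V) (J : V → Finset V) (y₀ y s : V) : Prop :=
  nb G y (J s) ≠ Tr₀ J (ty G S y₀ y) s ∨ (ty G S y₀ y = 2 ∧ (J s).card ≠ 2)

/-- `y` is a flip at `s` -/
def Flip (G : SimpleGraph V) (S : Finset V) (J : V → Finset V) (y₀ y s : V) : Prop :=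
  (J s).card = 2 ∧ ((ty G S y₀ y = 0 ∧ nb G y (J s) = {s}) ∨
    (ty G S y₀ y = 2 ∧ nb G y (J s) = (J s).erase s))

section
variable {G : SimpleGraph V} {S R : Finset V} {J : V → Finset V} {y₀ : V}

theorem TCl.dense_of (h : TCl G S R J y₀) {y : V} (hy : ty G S y₀ y ≠ 0) :
    (S \ nb G y S).card ≤ 1 := by
  rcases h.clean y with h1 | h1
  · exact absurd (by rw [ty, if_pos h1]) hy
  · exact h1

theorem TCl.nonadj_unique (h : TCl G S R J y₀) {y s t : V} (hy : ty G S y₀ y ≠ 0) (hs : s ∈ S)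
    (ht : t ∈ S) (hys : ¬ G.Adj y s) (hyt : ¬ G.Adj y t) : s = t := by
  refine card_le_one.1 (h.dense_of hy) s ?_ t ?_ <;> simp [*]

theorem TCl.adj_unique (_h : TCl G S R J y₀) {y s t : V} (hy : ty G S y₀ y = 0) (hs : s ∈ S)
    (ht : t ∈ S) (hys : G.Adj y s) (hyt : G.Adj y t) : s = t := by
  have h1 : (nb G y S).card ≤ 1 := by
    by_contra hc
    rw [ty, if_neg hc] at hy
    split_ifs at hy
    · exact absurd hy (by decide)
    · exact absurd hy (by decide)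
  refine card_le_one.1 h1 s ?_ t ?_ <;> simp [*]

theorem TCl.ty_two (_h : TCl G S R J y₀) {y : V} (hy : ty G S y₀ y = 2) : G.Adj y y₀ := by
  unfold ty at hy
  split_ifs at hy with h1 h2
  · exact absurd hy (by decide)
  · exact h2
  · exact absurd hy (by decide)

theorem TCl.ty_one (_h : TCl G S R J y₀) {y : V} (hy : ty G S y₀ y = 1) : ¬ G.Adj y y₀ := by
  unfold ty at hy
  split_ifs at hy with h1 h2
  · exact absurd hy (by decide)
  · exact absurd hy (by decide)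
  · exact h2

theorem TCl.yp (h : TCl G S R J y₀) {s p : V} (hs : s ∈ S) (hp : p ∈ J s) (hps : p ≠ s) :
    G.Adj y₀ p := by
  by_contra hc
  exact hps (h.sys.miss y₀ h.y₀R s hs p hp s (h.sys.mem s hs) hc (h.y₀S s hs))

theorem TCl.ne_of (h : TCl G S R J y₀) {s t p : V} (hs : s ∈ S) (ht : t ∈ S) (hst : s ≠ t)
    (hp : p ∈ J s) : p ∉ J t := disjoint_left.1 (h.sys.disj s hs t ht hst) hp

theorem TCl.nadj (h : TCl G S R J y₀) {s t p q : V} (hs : s ∈ S) (ht : t ∈ S) (hst : s ≠ t)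
    (hp : p ∈ J s) (hq : q ∈ J t) : ¬ G.Adj p q :=
  h.sys.anti t ht p (h.sys.sub s hs hp) (h.ne_of hs ht hst hp) q hq

theorem TCl.ne_of' (h : TCl G S R J y₀) {s t p q : V} (hs : s ∈ S) (ht : t ∈ S) (hst : s ≠ t)
    (hp : p ∈ J s) (hq : q ∈ J t) : p ≠ q := fun he => h.ne_of hs ht hst hp (he ▸ hq)

theorem TCl.other (h : TCl G S R J y₀) {s : V} (hs : s ∈ S) : ∃ c ∈ J s, c ≠ s :=
  exists_mem_ne (by have := h.sys.two s hs; omega) s

theorem TCl.typeB (h : TCl G S R J y₀) {y s p : V} (hy : y ∉ R) (ht : ty G S y₀ y = 1)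
    (hs : s ∈ S) (hp : p ∈ J s) (hps : p ≠ s) : G.Adj y p := by
  by_contra hc
  have hd := h.dense_of (y := y) (by rw [ht]; decide)
  have hc8 := h.card
  obtain ⟨t, htS, htn⟩ : ∃ t ∈ S, t ∉ insert s (S \ nb G y S) :=
    exists_mem_notMem_of_card_lt_card (by
      have := card_insert_le s (S \ nb G y S); omega)
  obtain ⟨u, huS, hun⟩ : ∃ t' ∈ S, t' ∉ insert t (insert s (S \ nb G y S)) :=
    exists_mem_notMem_of_card_lt_card (by
      have h1 := card_insert_le s (S \ nb G y S)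
      have h2 := card_insert_le t (insert s (S \ nb G y S)); omega)
  simp only [mem_insert, not_or] at htn hun
  have hyt : G.Adj y t := by
    by_contra h'
    exact htn.2 (mem_sdiff.2 ⟨htS, fun h'' => h' (mem_nb.1 h'').2⟩)
  have hyu : G.Adj y u := by
    by_contra h'
    exact hun.2.2 (mem_sdiff.2 ⟨huS, fun h'' => h' (mem_nb.1 h'').2⟩)
  exact t2 h.sys.cls (h.ty_one ht) (h.yp hs hp hps).symm (fun h' => hc h'.symm) (Ne.symm hun.1)
    (h.sys.indep t htS u huS) hyt hyu (h.y₀S t htS) (h.y₀S u huS)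
    (h.nadj hs htS (Ne.symm htn.1) hp (h.sys.mem t htS))
    (h.nadj hs huS (Ne.symm hun.2.1) hp (h.sys.mem u huS))

/-- a deviating vertex of type two has a neighbour different from `t` -/
theorem TCl.devc (h : TCl G S R J y₀) {y t : V} (hy : y ∉ R) (hty : ty G S y₀ y = 2)
    (ht : t ∈ S) (hd : Dev G S J y₀ y t) : ∃ c ∈ J t, c ≠ t ∧ G.Adj y c := by
  by_contra hno
  push Not at hno
  obtain ⟨c0, hc0, hc0t⟩ := h.other ht
  have hyt : G.Adj y t := by
    by_contra hyt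
    exact hc0t (h.sys.miss y hy t ht c0 hc0 t (h.sys.mem t ht) (hno c0 hc0 hc0t) hyt)
  have hJ : J t = {t, c0} := by
    ext x
    simp only [mem_insert, mem_singleton]
    constructor
    · intro hx
      by_cases hxt : x = t
      · exact Or.inl hxt
      · exact Or.inr (h.sys.miss y hy t ht x hx c0 hc0 (hno x hx hxt) (hno c0 hc0 hc0t))
    · rintro (rfl | rfl)
      · exact h.sys.mem _ ht
      · exact hc0
  have hcard : (J t).card = 2 := by rw [hJ, card_pair (Ne.symm hc0t)]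
  have hnb : nb G y (J t) = {t} := by
    ext x
    simp only [mem_nb, mem_singleton]
    constructor
    · rintro ⟨hx, hyx⟩
      by_contra hxt
      exact hno x hx hxt hyx
    · rintro rfl
      exact ⟨h.sys.mem _ ht, hyt⟩
  rcases hd with hd | hd
  · apply hd
    rw [hty, hnb, Tr₀, if_neg (by decide), if_neg (by decide)]
  · exact hd.2 hcard

theorem TCl.typeX (h : TCl G S R J y₀) {y s t : V} (hy : y ∉ R) (hty : ty G S y₀ y = 2)
    (hs : s ∈ S) (ht : t ∈ S) (hds : Dev G S J y₀ y s) (hdt : Dev G S J y₀ y t) : s = t := by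
  by_contra hst
  have hyy := h.ty_two hty
  obtain ⟨c, hc, hct, hyc⟩ := h.devc hy hty ht hdt
  obtain ⟨c', hc', hcs', hyc'⟩ := h.devc hy hty hs hds
  have h1 : ¬ G.Adj y s := fun hys => h.y₀S s hs
    (h.sys.t1 hyy hs (h.sys.sub t ht hc) (h.ne_of ht hs (Ne.symm hst) hc) hyc (h.yp ht hc hct)
      hc' (h.sys.mem s hs) hyc' hys (h.yp hs hc' hcs'))
  have h2 : ¬ G.Adj y t := fun hyt => h.y₀S t ht
    (h.sys.t1 hyy ht (h.sys.sub s hs hc') (h.ne_of hs ht hst hc') hyc' (h.yp hs hc' hcs')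
      hc (h.sys.mem t ht) hyc hyt (h.yp ht hc hct))
  exact hst (h.nonadj_unique (by rw [hty]; decide) hs ht h1 h2)

theorem TCl.dev0 (h : TCl G S R J y₀) {y s : V} (hy : y ∉ R) (ht : ty G S y₀ y = 0)
    (hs : s ∈ S) : Dev G S J y₀ y s ↔ G.Adj y s := by
  constructor
  · rintro (hd | hd)
    · by_contra hys
      apply hd
      rw [ht, Tr₀, if_pos rfl]
      ext x
      simp only [mem_nb, mem_erase]
      constructor
      · rintro ⟨hx, hyx⟩
        exact ⟨fun he => hys (he ▸ hyx), hx⟩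
      · rintro ⟨hxs, hx⟩
        refine ⟨hx, ?_⟩
        by_contra hyx
        exact hxs (h.sys.miss y hy s hs x hx s (h.sys.mem s hs) hyx hys)
    · rw [ht] at hd
      exact absurd hd.1 (by decide)
  · intro hys
    left
    rw [ht, Tr₀, if_pos rfl]
    intro he
    have h1 : s ∈ nb G y (J s) := mem_nb.2 ⟨h.sys.mem s hs, hys⟩
    rw [he] at h1
    exact (mem_erase.1 h1).1 rfl

theorem TCl.dev1 (h : TCl G S R J y₀) {y s : V} (hy : y ∉ R) (ht : ty G S y₀ y = 1)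
    (hs : s ∈ S) : Dev G S J y₀ y s ↔ ¬ G.Adj y s := by
  constructor
  · rintro (hd | hd)
    · intro hys
      apply hd
      rw [ht, Tr₀, if_neg (by decide), if_pos rfl]
      ext x
      simp only [mem_nb]
      constructor
      · exact fun hx => hx.1
      · intro hx
        refine ⟨hx, ?_⟩
        by_cases hxs : x = s
        · rw [hxs]; exact hys
        · exact h.typeB hy ht hs hx hxs
    · rw [ht] at hd
      exact absurd hd.1 (by decide)
  · intro hys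
    left
    rw [ht, Tr₀, if_neg (by decide), if_pos rfl]
    intro he
    have h1 : s ∈ nb G y (J s) := by rw [he]; exact h.sys.mem s hs
    exact hys (mem_nb.1 h1).2

theorem ty_cases (i : Fin 3) : i = 0 ∨ i = 1 ∨ i = 2 := by
  fin_cases i <;> simp

theorem TCl.dev_unique (h : TCl G S R J y₀) {y s t : V} (hy : y ∉ R)
    (hs : s ∈ S) (ht : t ∈ S) (hds : Dev G S J y₀ y s) (hdt : Dev G S J y₀ y t) : s = t := by
  rcases ty_cases (ty G S y₀ y) with h0 | h0 | h0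
  · exact h.adj_unique h0 hs ht ((h.dev0 hy h0 hs).1 hds) ((h.dev0 hy h0 ht).1 hdt)
  · exact h.nonadj_unique (by rw [h0]; decide) hs ht ((h.dev1 hy h0 hs).1 hds)
      ((h.dev1 hy h0 ht).1 hdt)
  · exact h.typeX hy h0 hs ht hds hdt

theorem TCl.pickF (h : TCl G S R J y₀) {y w : V} (hy : y ∉ R) (hw : w ∉ R) (F : Finset V)
    (hF : F.card ≤ 5) : ∃ t ∈ S, t ∉ F ∧ ¬ Dev G S J y₀ y t ∧ ¬ Dev G S J y₀ w t := by
  classical
  have hb : ∀ y, y ∉ R → (S.filter fun t => Dev G S J y₀ y t).card ≤ 1 := by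
    intro y hy
    rw [card_le_one]
    intro a ha b hb
    rw [mem_filter] at ha hb
    exact h.dev_unique hy ha.1 hb.1 ha.2 hb.2
  have h1 := hb y hy
  have h2 := hb w hw
  have h8 := h.card
  obtain ⟨t, ht, htn⟩ : ∃ t ∈ S, t ∉ (F ∪ S.filter fun t => Dev G S J y₀ y t) ∪
      S.filter fun t => Dev G S J y₀ w t :=
    exists_mem_notMem_of_card_lt_card (by
      have h3 := card_union_le (F ∪ S.filter fun t => Dev G S J y₀ y t)
        (S.filter fun t => Dev G S J y₀ w t)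
      have h4 := card_union_le F (S.filter fun t => Dev G S J y₀ y t)
      omega)
  simp only [mem_union, mem_filter, not_or, not_and] at htn
  exact ⟨t, ht, htn.1.1, htn.1.2 ht, htn.2 ht⟩

theorem nd_two {y s : V} (hty : ty G S y₀ y = 2) (hd : ¬ Dev G S J y₀ y s) :
    nb G y (J s) = {s} ∧ (J s).card = 2 := by
  unfold Dev at hd
  push Not at hd
  have h1 := hd.1
  rw [hty, Tr₀, if_neg (by decide), if_neg (by decide)] at h1
  exact ⟨h1, hd.2 hty⟩

theorem TCl.nd_two' (h : TCl G S R J y₀) {y s : V} (hs : s ∈ S) (hty : ty G S y₀ y = 2)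
    (hd : ¬ Dev G S J y₀ y s) : G.Adj y s ∧ ∀ p ∈ J s, p ≠ s → ¬ G.Adj y p := by
  obtain ⟨h1, -⟩ := nd_two hty hd
  constructor
  · have : s ∈ nb G y (J s) := by rw [h1]; exact mem_singleton_self s
    exact (mem_nb.1 this).2
  · intro p hp hps hyp
    have : p ∈ nb G y (J s) := mem_nb.2 ⟨hp, hyp⟩
    rw [h1, mem_singleton] at this
    exact hps this

theorem TCl.nd_zero (h : TCl G S R J y₀) {y s : V} (hy : y ∉ R) (hs : s ∈ S)
    (hty : ty G S y₀ y = 0) (hd : ¬ Dev G S J y₀ y s) :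
    ¬ G.Adj y s ∧ ∀ p ∈ J s, p ≠ s → G.Adj y p := by
  have h1 : ¬ G.Adj y s := fun h' => hd ((h.dev0 hy hty hs).2 h')
  refine ⟨h1, fun p hp hps => ?_⟩
  by_contra hyp
  exact hps (h.sys.miss y hy s hs p hp s (h.sys.mem s hs) hyp h1)

theorem TCl.nd_one (h : TCl G S R J y₀) {y s : V} (hy : y ∉ R) (hs : s ∈ S)
    (hty : ty G S y₀ y = 1) (hd : ¬ Dev G S J y₀ y s) : ∀ p ∈ J s, G.Adj y p := by
  have h1 : G.Adj y s := by
    by_contra h'
    exact hd ((h.dev1 hy hty hs).2 h')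
  intro p hp
  by_cases hps : p = s
  · rw [hps]; exact h1
  · exact h.typeB hy hty hs hp hps

theorem TCl.rel02 (h : TCl G S R J y₀) {y w : V} (hy : y ∉ R) (hw : w ∉ R)
    (hty : ty G S y₀ y = 0) (htw : ty G S y₀ w = 2) : G.Adj y w := by
  by_contra hyw
  obtain ⟨s, hs, -, hys, hws⟩ := h.pickF hy hw ∅ (by simp)
  obtain ⟨t, ht, hts, hyt, hwt⟩ := h.pickF hy hw {s} (by simp)
  obtain ⟨u, hu, hun, hyu, hwu⟩ := h.pickF hy hw {s, t} (by
    have := card_insert_le s ({t} : Finset V); simp at this; omega)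
  simp only [mem_singleton] at hts
  simp only [mem_insert, mem_singleton, not_or] at hun
  obtain ⟨s', hs', hss'⟩ := h.other hs
  obtain ⟨t', ht', htt'⟩ := h.other ht
  have ys := (h.nd_zero hy hs hty hys).2 s' hs' hss'
  have yt := (h.nd_zero hy ht hty hyt).2 t' ht' htt'
  have yu := (h.nd_zero hy hu hty hyu).1
  have ws := (h.nd_two' hs htw hws).2 s' hs' hss'
  have wt := (h.nd_two' ht htw hwt).2 t' ht' htt'
  have wu := (h.nd_two' hu htw hwu).1
  exact t2 h.sys.cls hyw wu.symm (fun h' => yu h'.symm) (h.ne_of' hs ht (Ne.symm hts) hs' ht')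
    (h.nadj hs ht (Ne.symm hts) hs' ht') ys yt ws wt
    (h.nadj hu hs hun.1 (h.sys.mem u hu) hs') (h.nadj hu ht hun.2 (h.sys.mem u hu) ht')

theorem TCl.rel01 (h : TCl G S R J y₀) {y w : V} (hy : y ∉ R) (hw : w ∉ R)
    (hty : ty G S y₀ y ≠ 1) (htw : ty G S y₀ w = 1) : ¬ G.Adj y w := by
  intro hyw
  obtain ⟨s, hs, -, hys, hws⟩ := h.pickF hy hw ∅ (by simp)
  obtain ⟨t, ht, hts, hyt, hwt⟩ := h.pickF hy hw {s} (by simp)
  simp only [mem_singleton] at hts
  have w1 := h.nd_one hw hs htw hws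
  have w2 := h.nd_one hw ht htw hwt
  obtain ⟨s', hs', hss'⟩ := h.other hs
  obtain ⟨t', ht', htt'⟩ := h.other ht
  have hs0 := h.sys.mem s hs
  have ht0 := h.sys.mem t ht
  rcases ty_cases (ty G S y₀ y) with h0 | h0 | h0
  · have a1 := h.nd_zero hy hs h0 hys
    have a2 := h.nd_zero hy ht h0 hyt
    exact a1.1 (h.sys.t1 hyw.symm hs (h.sys.sub t ht ht') (h.ne_of ht hs hts ht')
      (w2 t' ht') (a2.2 t' ht' htt') hs' hs0 (w1 s' hs') (w1 s hs0) (a1.2 s' hs' hss'))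
  · exact hty h0
  · have a1 := h.nd_two' hs h0 hys
    have a2 := h.nd_two' ht h0 hyt
    exact a1.2 s' hs' hss' (h.sys.t1 hyw.symm hs (h.sys.sub t ht ht0) (h.ne_of ht hs hts ht0)
      (w2 t ht0) a2.1 hs0 hs' (w1 s hs0) (w1 s' hs') a1.1)

theorem TCl.same (h : TCl G S R J y₀) {y w s : V} (hy : y ∉ R) (hw : w ∉ R) (hs : s ∈ S)
    (htt : ty G S y₀ y = ty G S y₀ w) (hdy : Dev G S J y₀ y s) (hdw : ¬ Dev G S J y₀ w s)
    (hyw : G.Adj y w) : Flip G S J y₀ y s := by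
  obtain ⟨t, ht, hts, hyt, hwt⟩ := h.pickF hy hw {s} (by simp)
  simp only [mem_singleton] at hts
  obtain ⟨s', hs', hss'⟩ := h.other hs
  obtain ⟨t', ht', htt'⟩ := h.other ht
  have hs0 := h.sys.mem s hs
  have ht0 := h.sys.mem t ht
  rcases ty_cases (ty G S y₀ y) with h0 | h0 | h0
  · have h0w : ty G S y₀ w = 0 := htt ▸ h0
    have a1 := (h.dev0 hy h0 hs).1 hdy
    have b1 := h.nd_zero hw hs h0w hdw
    have a2 := h.nd_zero hy ht h0 hyt
    have b2 := h.nd_zero hw ht h0w hwt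
    have key : ∀ x ∈ J s, x ≠ s → ¬ G.Adj y x := by
      intro x hx hxs hyx
      exact b1.1 (h.sys.t1 hyw hs (h.sys.sub t ht ht') (h.ne_of ht hs hts ht')
        (a2.2 t' ht' htt') (b2.2 t' ht' htt') hx hs0 hyx a1 (b1.2 x hx hxs))
    have hJ : J s = {s, s'} := by
      ext x
      simp only [mem_insert, mem_singleton]
      constructor
      · intro hx
        by_cases hxs : x = s
        · exact Or.inl hxs
        · exact Or.inr (h.sys.miss y hy s hs x hx s' hs' (key x hx hxs) (key s' hs' hss'))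
      · rintro (rfl | rfl)
        · exact hs0
        · exact hs'
    refine ⟨by rw [hJ, card_pair (Ne.symm hss')], Or.inl ⟨h0, ?_⟩⟩
    ext x
    simp only [mem_nb, mem_singleton]
    constructor
    · rintro ⟨hx, hyx⟩
      by_contra hxs
      exact key x hx hxs hyx
    · rintro rfl
      exact ⟨hs0, a1⟩
  · exfalso
    have h0w : ty G S y₀ w = 1 := htt ▸ h0
    have a1 := (h.dev1 hy h0 hs).1 hdy
    have b1 := h.nd_one hw hs h0w hdw
    have a2 := h.nd_one hy ht h0 hyt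
    have b2 := h.nd_one hw ht h0w hwt
    exact a1 (h.sys.t1 hyw.symm hs (h.sys.sub t ht ht0) (h.ne_of ht hs hts ht0)
      (b2 t ht0) (a2 t ht0) hs' hs0 (b1 s' hs') (b1 s hs0) (h.typeB hy h0 hs hs' hss'))
  · have h0w : ty G S y₀ w = 2 := htt ▸ h0
    obtain ⟨c, hc, hcs, hyc⟩ := h.devc hy h0 hs hdy
    have b1 := h.nd_two' hs h0w hdw
    have b3 := nd_two h0w hdw
    have a2 := h.nd_two' ht h0 hyt
    have b2 := h.nd_two' ht h0w hwt
    have hys : ¬ G.Adj y s := fun hys => b1.2 c hc hcs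
      (h.sys.t1 hyw hs (h.sys.sub t ht ht0) (h.ne_of ht hs hts ht0) a2.1 b2.1 hs0 hc hys hyc b1.1)
    refine ⟨b3.2, Or.inr ⟨h0, ?_⟩⟩
    ext x
    simp only [mem_nb, mem_erase]
    constructor
    · rintro ⟨hx, hyx⟩
      exact ⟨fun he => hys (he ▸ hyx), hx⟩
    · rintro ⟨hxs, hx⟩
      refine ⟨hx, ?_⟩
      by_contra hyx
      exact hxs (h.sys.miss y hy s hs x hx s hs0 hyx hys)

theorem TCl.diff_aux (h : TCl G S R J y₀) {y w s t z p q : V} (hs : s ∈ S)
    (ht : t ∈ S) (hst : s ≠ t) (hyw : ¬ G.Adj y w) (hz : z ∈ R) (hzs : z ∉ J s) (hzt : z ∉ J t)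
    (hp : p ∈ J s) (hq : q ∈ J t)
    (hpq : (G.Adj y p ∧ ¬ G.Adj w p ∧ G.Adj w q ∧ ¬ G.Adj y q) ∨
      (¬ G.Adj y p ∧ G.Adj w p ∧ ¬ G.Adj w q ∧ G.Adj y q)) (hzw : G.Adj z w) : G.Adj z y := by
  by_contra hzy
  have hzp : ¬ G.Adj z p := h.sys.anti s hs z hz hzs p hp
  have hzq : ¬ G.Adj z q := h.sys.anti t ht z hz hzt q hq
  have hpq' : ¬ G.Adj p q := h.nadj hs ht hst hp hq
  rcases hpq with ⟨h1, h2, h3, h4⟩ | ⟨h1, h2, h3, h4⟩
  · exact h.sys.cls.pp p y q w z h1.symm h3.symm hzw.symm (fun h' => hzq h'.symm)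
      (fun he => hzt (he ▸ hq)) hpq' (fun h' => h2 h'.symm) (fun h' => hzp h'.symm) h4 hyw
      (fun h' => hzy h'.symm)
  · exact h.sys.cls.pp q y p w z h4.symm h2.symm hzw.symm (fun h' => hzp h'.symm)
      (fun he => hzs (he ▸ hp)) (fun h' => hpq' h'.symm) (fun h' => h3 h'.symm)
      (fun h' => hzq h'.symm) h1 hyw (fun h' => hzy h'.symm)

theorem TCl.diff (h : TCl G S R J y₀) {y w s t z : V} (hy : y ∉ R) (hw : w ∉ R) (hs : s ∈ S)
    (ht : t ∈ S) (hst : s ≠ t) (htt : ty G S y₀ y = ty G S y₀ w) (hdy : Dev G S J y₀ y s)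
    (hdw : Dev G S J y₀ w t) (hyw : ¬ G.Adj y w) (hz : z ∈ R) (hzs : z ∉ J s) (hzt : z ∉ J t) :
    G.Adj z y ↔ G.Adj z w := by
  have hdy' : ¬ Dev G S J y₀ y t := fun h' => hst (h.dev_unique hy hs ht hdy h')
  have hdw' : ¬ Dev G S J y₀ w s := fun h' => hst (h.dev_unique hw hs ht h' hdw)
  have key : ∃ p ∈ J s, ∃ q ∈ J t, (G.Adj y p ∧ ¬ G.Adj w p ∧ G.Adj w q ∧ ¬ G.Adj y q) ∨
      (¬ G.Adj y p ∧ G.Adj w p ∧ ¬ G.Adj w q ∧ G.Adj y q) := by
    have hs0 := h.sys.mem s hs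
    have ht0 := h.sys.mem t ht
    rcases ty_cases (ty G S y₀ y) with h0 | h0 | h0
    · have h0w : ty G S y₀ w = 0 := htt ▸ h0
      exact ⟨s, hs0, t, ht0, Or.inl ⟨(h.dev0 hy h0 hs).1 hdy, (h.nd_zero hw hs h0w hdw').1,
        (h.dev0 hw h0w ht).1 hdw, (h.nd_zero hy ht h0 hdy').1⟩⟩
    · have h0w : ty G S y₀ w = 1 := htt ▸ h0
      exact ⟨s, hs0, t, ht0, Or.inr ⟨(h.dev1 hy h0 hs).1 hdy, h.nd_one hw hs h0w hdw' s hs0,
        (h.dev1 hw h0w ht).1 hdw, h.nd_one hy ht h0 hdy' t ht0⟩⟩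
    · have h0w : ty G S y₀ w = 2 := htt ▸ h0
      obtain ⟨p, hp, hps, hyp⟩ := h.devc hy h0 hs hdy
      obtain ⟨q, hq, hqt, hwq⟩ := h.devc hw h0w ht hdw
      exact ⟨p, hp, q, hq, Or.inl ⟨hyp, (h.nd_two' hs h0w hdw').2 p hp hps, hwq,
        (h.nd_two' ht h0 hdy').2 q hq hqt⟩⟩
  obtain ⟨p, hp, q, hq, hpq⟩ := key
  constructor
  · refine h.diff_aux ht hs (Ne.symm hst) (fun h' => hyw h'.symm) hz hzt hzs hq hp ?_
    rcases hpq with ⟨h1, h2, h3, h4⟩ | ⟨h1, h2, h3, h4⟩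
    · exact Or.inl ⟨h3, h4, h1, h2⟩
    · exact Or.inr ⟨h3, h4, h1, h2⟩
  · exact h.diff_aux hs ht hst hyw hz hzs hzt hp hq hpq

end

end GemCW
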