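import Pool.Agent.Lib.GemCW.Defs

/-!
# Well-linked induced matchings, I: the structure around an induced matching

`TSys G S R J`: `R` is a set of vertices, for each `s ∈ S` `J s ⊆ R` is a clique with at least two
elements containing `s`, no vertex of `R \ J s` is adjacent to `J s`, the `J s` are disjoint, and
every `y ∉ R` misses (is nonadjacent to) at most one vertex of each `J s`.

* `exists_tsys`: if `s ~ x s` (`s ∈ S`) is an induced matching with `|S| ≥ 4`, then there is a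
  `TSys G S R J`.
  Proof.  `R = {v : v is nonadjacent to s and to x s, for some s ∈ S}`,
  `J s = {v ∈ R : v = s ∨ v = x s ∨ (v ~ s ∧ v ~ x s)}`.
  `t, x t ∈ R` for `t ∈ S` (take `s ≠ t`).
  (a) `v ∈ R` (nonadjacent to `s, x s`), `t ∈ S`, `v ≠ t, x t`: `v` is adjacent to both or none of `t, x t`:
      otherwise `v` with `t, x t` is a path and `s (x s)` an edge: `P₂+P₃`.
  (b) `v ∈ R` is adjacent to at most one pair: if `v` is adjacent to `t` and `u`, `t ≠ u`, (both full):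
      path `t - v - u` and the edge `s (x s)`.  (Also for `v = t`: it is adjacent to `x t` only.)
  clique: `a, b ∈ J s` both full on `s`, `a ≁ b`: path `a - s - b` and an edge `t (x t)`, `t ≠ s`.
  anti: `v ∈ R \ J s`, `p ∈ J s`, `v ~ p`.  If `p ∈ {s, x s}`: `v` is full on `s` by (a), so `v ∈ J s`.
  Otherwise `p` is full on `s`, and by (a) `v ≁ s`; path `v - p - s` and an edge `t (x t)` with `t ≠ s`
  nonadjacent to `v` (exists by (b), `|S| ≥ 4`).
  miss: `y ∉ R`, `p ≠ q ∈ J s` nonadjacent to `y`.  Take `t ≠ u` in `S \ {s}`.  `y` touches `{t, x t}`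
  (as `y ∉ R`); if it is adjacent to exactly one of them: path + edge `p q`.  So it is adjacent to
  `t, x t` and likewise `u, x u`: path `t - y - u`, edge `p q`.
* `t1`: `y, w ∉ R`, `y ~ w`, `s ∈ S`, `c ∈ R \ J s` adjacent to `y` and `w`, `p, q ∈ J s` adjacent to `y`,
  `w ~ p`: then `w ~ q`.  Otherwise the path `q - p - w - c` is dominated by `y`: gem.
* `t2`: `y ≁ w`, `z ~ w`, `z ≁ y`, `p ≠ p'` nonadjacent, both adjacent to `y`, nonadjacent to `w` and `z`:
  contradiction (path `p - y - p'`, edge `z w`).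
-/

namespace GemCW

open Finset

variable {V : Type*} [Fintype V] [DecidableEq V]

structure TSys (G : SimpleGraph V) (S R : Finset V) (J : V → Finset V) : Prop where
  cls : Cls G
  mem : ∀ s ∈ S, s ∈ J s
  sub : ∀ s ∈ S, J s ⊆ R
  two : ∀ s ∈ S, 2 ≤ (J s).card
  clq : ∀ s ∈ S, Clq G (J s)
  disj : ∀ s ∈ S, ∀ t ∈ S, s ≠ t → Disjoint (J s) (J t)
  anti : ∀ s ∈ S, ∀ v ∈ R, v ∉ J s → ∀ p ∈ J s, ¬ G.Adj v p
  miss : ∀ y, y ∉ R → ∀ s ∈ S, ∀ p ∈ J s, ∀ q ∈ J s, ¬ G.Adj y p → ¬ G.Adj y q → p = q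

theorem TSys.restrict {G : SimpleGraph V} {S R : Finset V} {J : V → Finset V}
    (h : TSys G S R J) {T : Finset V} (hT : T ⊆ S) : TSys G T R J where
  cls := h.cls
  mem := fun s hs => h.mem s (hT hs)
  sub := fun s hs => h.sub s (hT hs)
  two := fun s hs => h.two s (hT hs)
  clq := fun s hs => h.clq s (hT hs)
  disj := fun s hs t ht => h.disj s (hT hs) t (hT ht)
  anti := fun s hs => h.anti s (hT hs)
  miss := fun y hy s hs => h.miss y hy s (hT hs)

theorem TSys.indep {G : SimpleGraph V} {S R : Finset V} {J : V → Finset V}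
    (h : TSys G S R J) : Indep G S := by
  intro s hs t ht hst
  rcases eq_or_ne s t with rfl | hne
  · exact G.loopless.irrefl _ hst
  · have h1 : s ∉ J t := fun h1 => (disjoint_left.1 (h.disj s hs t ht hne)) (h.mem s hs) h1
    exact h.anti t ht s (h.sub s hs (h.mem s hs)) h1 t (h.mem t ht) hst

/-- Four different elements: there is one avoiding three given ones. -/
theorem tone_avoid {S : Finset V} (hcard : 4 ≤ S.card) (a b c : V) :
    ∃ t ∈ S, t ≠ a ∧ t ≠ b ∧ t ≠ c := by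
  have h1 : ({a, b, c} : Finset V).card ≤ 3 := Finset.card_le_three
  obtain ⟨t, ht, ht'⟩ := Finset.exists_mem_notMem_of_card_lt_card
    (show ({a, b, c} : Finset V).card < S.card by omega)
  simp only [mem_insert, mem_singleton, not_or] at ht'
  exact ⟨t, ht, ht'.1, ht'.2.1, ht'.2.2⟩

theorem exists_tsys {G : SimpleGraph V} (hG : Cls G) {S : Finset V} (x : V → V)
    (hcard : 4 ≤ S.card) (hS : ∀ s ∈ S, ∀ t ∈ S, ¬ G.Adj s t)
    (hx : ∀ s ∈ S, ∀ t ∈ S, ¬ G.Adj (x s) (x t))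
    (hsx : ∀ s ∈ S, ∀ t ∈ S, (G.Adj s (x t) ↔ s = t)) :
    ∃ (R : Finset V) (J : V → Finset V), TSys G S R J := by
  classical
  have hxs : ∀ s ∈ S, ∀ t ∈ S, (G.Adj (x s) t ↔ s = t) := by
    intro s hs t ht
    rw [G.adj_comm, hsx t ht s hs, eq_comm]
  have hsx' : ∀ s ∈ S, G.Adj s (x s) := fun s hs => (hsx s hs s hs).2 rfl
  set R : Finset V := univ.filter (fun v => ∃ s ∈ S, ¬ G.Adj v s ∧ ¬ G.Adj v (x s)) with hR
  set J : V → Finset V := fun s => R.filter (fun v => v = s ∨ v = x s ∨ (G.Adj v s ∧ G.Adj v (x s)))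
    with hJ
  have memR : ∀ v, v ∈ R ↔ ∃ s ∈ S, ¬ G.Adj v s ∧ ¬ G.Adj v (x s) := by
    intro v
    simp [hR]
  have memJ : ∀ s v, v ∈ J s ↔ v ∈ R ∧ (v = s ∨ v = x s ∨ (G.Adj v s ∧ G.Adj v (x s))) := by
    intro s v
    simp [hJ]
  have tR : ∀ t ∈ S, t ∈ R := by
    intro t ht
    obtain ⟨s, hs, hst, _⟩ := tone_avoid hcard t t t
    exact (memR t).2 ⟨s, hs, hS t ht s hs, fun h => hst ((hsx t ht s hs).1 h).symm⟩
  have xR : ∀ t ∈ S, x t ∈ R := by
    intro t ht
    obtain ⟨s, hs, hst, _⟩ := tone_avoid hcard t t t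
    exact (memR (x t)).2 ⟨s, hs, fun h => hst ((hxs t ht s hs).1 h).symm, hx t ht s hs⟩
  -- (a)
  have fa : ∀ v ∈ R, ∀ t ∈ S, v ≠ t → v ≠ x t → (G.Adj v t ↔ G.Adj v (x t)) := by
    intro v hv t ht hvt hvx
    obtain ⟨s, hs, h1, h2⟩ := (memR v).1 hv
    by_cases hst : s = t
    · subst hst
      exact ⟨fun h => absurd h h1, fun h => absurd h h2⟩
    · constructor
      · intro h
        by_contra h'
        exact hG.pp s (x s) v t (x t) (hsx' s hs) h (hsx' t ht) h' hvx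
          (fun hh => h1 hh.symm) (hS s hs t ht) (fun hh => hst ((hsx s hs t ht).1 hh))
          (fun hh => h2 hh.symm) (fun hh => hst ((hxs s hs t ht).1 hh)) (hx s hs t ht)
      · intro h
        by_contra h'
        exact hG.pp s (x s) v (x t) t (hsx' s hs) h (hsx' t ht).symm h' hvt
          (fun hh => h1 hh.symm) (fun hh => hst ((hsx s hs t ht).1 hh)) (hS s hs t ht)
          (fun hh => h2 hh.symm) (hx s hs t ht) (fun hh => hst ((hxs s hs t ht).1 hh))
  -- (b)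
  have fb : ∀ v ∈ R, ∀ t ∈ S, ∀ u ∈ S, G.Adj v t → G.Adj v u → t = u := by
    intro v hv t ht u hu hvt hvu
    by_contra htu
    obtain ⟨s, hs, h1, h2⟩ := (memR v).1 hv
    have hst : s ≠ t := fun e => h1 (e ▸ hvt)
    have hsu : s ≠ u := fun e => h1 (e ▸ hvu)
    exact hG.pp s (x s) t v u (hsx' s hs) hvt.symm hvu (hS t ht u hu) htu
      (hS s hs t ht) (fun hh => h1 hh.symm) (hS s hs u hu)
      (fun hh => hst ((hxs s hs t ht).1 hh)) (fun hh => h2 hh.symm)
      (fun hh => hsu ((hxs s hs u hu).1 hh))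
  -- (d)
  have fd : ∀ s ∈ S, ∀ p ∈ J s, ∀ t ∈ S, t ≠ s → ¬ G.Adj p t ∧ ¬ G.Adj p (x t) := by
    intro s hs p hp t ht hts
    obtain ⟨hpR, rfl | rfl | ⟨h1, h2⟩⟩ := (memJ s p).1 hp
    · exact ⟨hS p hs t ht, fun h => hts ((hsx p hs t ht).1 h).symm⟩
    · exact ⟨fun h => hts ((hxs s hs t ht).1 h).symm, hx s hs t ht⟩
    · have hpt : ¬ G.Adj p t := fun h => hts (fb p hpR t ht s hs h h1)
      refine ⟨hpt, fun h => hpt ((fa p hpR t ht ?_ ?_).2 h)⟩
      · rintro rfl
        exact hS p ht s hs h1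
      · rintro rfl
        exact hts ((hxs t ht s hs).1 h1)
  have hJsub : ∀ s, J s ⊆ R := fun s => filter_subset _ _
  -- clique
  have hclq : ∀ s ∈ S, Clq G (J s) := by
    intro s hs a ha b hb hab
    have ha' := (memJ s a).1 ha
    have hb' := (memJ s b).1 hb
    obtain ⟨haR, rfl | rfl | ⟨h1, h2⟩⟩ := ha'
    · obtain ⟨hbR, rfl | rfl | ⟨h3, h4⟩⟩ := hb'
      · exact absurd rfl hab
      · exact hsx' a hs
      · exact h3.symm
    · obtain ⟨hbR, rfl | rfl | ⟨h3, h4⟩⟩ := hb'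
      · exact (hsx' b hs).symm
      · exact absurd rfl hab
      · exact h4.symm
    · obtain ⟨hbR, rfl | rfl | ⟨h3, h4⟩⟩ := hb'
      · exact h1
      · exact h2
      · by_contra hnab
        obtain ⟨t, ht, hts, _⟩ := tone_avoid hcard s s s
        obtain ⟨k1, k2⟩ := fd s hs a ha t ht hts
        obtain ⟨k3, k4⟩ := fd s hs b hb t ht hts
        exact hG.pp t (x t) a s b (hsx' t ht) h1 h3.symm hnab hab
          (fun hh => k1 hh.symm) (hS t ht s hs) (fun hh => k3 hh.symm)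
          (fun hh => k2 hh.symm) (fun hh => hts ((hxs t ht s hs).1 hh)) (fun hh => k4 hh.symm)
  refine ⟨R, J, ⟨hG, ?_, fun s _ => hJsub s, ?_, hclq, ?_, ?_, ?_⟩⟩
  · intro s hs
    exact (memJ s s).2 ⟨tR s hs, Or.inl rfl⟩
  · intro s hs
    have h1 : ({s, x s} : Finset V) ⊆ J s := by
      intro v hv
      simp only [mem_insert, mem_singleton] at hv
      rcases hv with rfl | rfl
      · exact (memJ v v).2 ⟨tR v hs, Or.inl rfl⟩
      · exact (memJ s (x s)).2 ⟨xR s hs, Or.inr (Or.inl rfl)⟩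
    have h2 : ({s, x s} : Finset V).card = 2 := Finset.card_pair (hsx' s hs).ne
    rw [← h2]
    exact card_le_card h1
  · intro s hs t ht hst
    rw [Finset.disjoint_left]
    intro v hvs hvt
    obtain ⟨k1, k2⟩ := fd s hs v hvs t ht (Ne.symm hst)
    obtain ⟨k3, k4⟩ := fd t ht v hvt s hs hst
    obtain ⟨_, rfl | rfl | ⟨h1, h2⟩⟩ := (memJ s v).1 hvs
    · exact k4 (hsx' v hs)
    · exact k3 (hsx' s hs).symm
    · exact k3 h1
  · intro s hs v hvR hvJ p hp hvp
    have hvs : v ≠ s := by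
      rintro rfl
      exact hvJ ((memJ v v).2 ⟨hvR, Or.inl rfl⟩)
    have hvx : v ≠ x s := by
      rintro rfl
      exact hvJ ((memJ s _).2 ⟨hvR, Or.inr (Or.inl rfl)⟩)
    have hvns : ¬ G.Adj v s := by
      intro h
      exact hvJ ((memJ s v).2 ⟨hvR, Or.inr (Or.inr ⟨h, (fa v hvR s hs hvs hvx).1 h⟩)⟩)
    have hvnx : ¬ G.Adj v (x s) := fun h => hvns ((fa v hvR s hs hvs hvx).2 h)
    obtain ⟨hpR, rfl | rfl | ⟨h1, h2⟩⟩ := (memJ s p).1 hp
    · exact hvns hvp
    · exact hvnx hvp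
    · have hex : ∃ t ∈ S, t ≠ s ∧ ¬ G.Adj v t ∧ ¬ G.Adj v (x t) := by
        by_cases hN : ∃ u ∈ S, G.Adj v u
        · obtain ⟨u, hu, hvu⟩ := hN
          obtain ⟨t, ht, h3, h4, h5⟩ := tone_avoid hcard s u v
          have h6 : ¬ G.Adj v t := fun h => h4 (fb v hvR t ht u hu h hvu)
          refine ⟨t, ht, h3, h6, fun h => h6 ((fa v hvR t ht (Ne.symm h5) ?_).2 h)⟩
          rintro rfl
          exact h4 ((hxs t ht u hu).1 hvu)
        · obtain ⟨t, ht, h3, _, h5⟩ := tone_avoid hcard s s v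
          have h6 : ¬ G.Adj v t := fun h => hN ⟨t, ht, h⟩
          refine ⟨t, ht, h3, h6, fun h => h6 ((fa v hvR t ht (Ne.symm h5) ?_).2 h)⟩
          rintro rfl
          exact h6 (hsx' t ht).symm
      obtain ⟨t, ht, hts, h3, h4⟩ := hex
      obtain ⟨k1, k2⟩ := fd s hs p hp t ht hts
      exact hG.pp t (x t) v p s (hsx' t ht) hvp h1 hvns hvs
        (fun hh => h3 hh.symm) (fun hh => k1 hh.symm) (hS t ht s hs)
        (fun hh => h4 hh.symm) (fun hh => k2 hh.symm) (fun hh => hts ((hxs t ht s hs).1 hh))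
  · intro y hyR s hs p hp q hq hyp hyq
    by_contra hpq
    have hpq' : G.Adj p q := hclq s hs p hp q hq hpq
    have hfull : ∀ t ∈ S, t ≠ s → G.Adj y t := by
      intro t ht hts
      obtain ⟨k1, k2⟩ := fd s hs p hp t ht hts
      obtain ⟨k3, k4⟩ := fd s hs q hq t ht hts
      by_contra hyt
      have hyx : G.Adj y (x t) := by
        by_contra h
        exact hyR ((memR y).2 ⟨t, ht, hyt, h⟩)
      refine hG.pp p q y (x t) t hpq' hyx (hsx' t ht).symm hyt ?_
        (fun hh => hyp hh.symm) k2 k1 (fun hh => hyq hh.symm) k4 k3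
      rintro rfl
      exact hyR (tR y ht)
    obtain ⟨t, ht, hts, _⟩ := tone_avoid hcard s s s
    obtain ⟨u, hu, hus, hut, _⟩ := tone_avoid hcard s t t
    obtain ⟨k1, k2⟩ := fd s hs p hp t ht hts
    obtain ⟨k3, k4⟩ := fd s hs q hq t ht hts
    obtain ⟨k5, k6⟩ := fd s hs p hp u hu hus
    obtain ⟨k7, k8⟩ := fd s hs q hq u hu hus
    exact hG.pp p q t y u hpq' (hfull t ht hts).symm (hfull u hu hus) (hS t ht u hu)
      (Ne.symm hut) k1 (fun hh => hyp hh.symm) k5 k3 (fun hh => hyq hh.symm) k7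

theorem TSys.t1 {G : SimpleGraph V} {S R : Finset V} {J : V → Finset V}
    (h : TSys G S R J) {y w s c p q : V} (hyw : G.Adj y w) (hs : s ∈ S) (hcR : c ∈ R)
    (hcJ : c ∉ J s) (hcy : G.Adj y c) (hcw : G.Adj w c) (hp : p ∈ J s) (hq : q ∈ J s)
    (hyp : G.Adj y p) (hyq : G.Adj y q) (hwp : G.Adj w p) : G.Adj w q := by
  by_contra hwq
  have hpq : q ≠ p := by
    rintro rfl
    exact hwq hwp
  exact h.cls.gem q p w c y (h.clq s hs q hq p hp hpq) hwp.symm hcw (fun hh => hwq hh.symm)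
    (fun hh => h.anti s hs c hcR hcJ p hp hh.symm) (fun hh => h.anti s hs c hcR hcJ q hq hh.symm)
    hyq hyp hyw hcy

theorem t2 {G : SimpleGraph V} (hG : Cls G) {y w z p p' : V} (hyw : ¬ G.Adj y w)
    (hzw : G.Adj z w) (hzy : ¬ G.Adj z y) (hpp : p ≠ p') (hpp' : ¬ G.Adj p p')
    (hyp : G.Adj y p) (hyp' : G.Adj y p') (hwp : ¬ G.Adj w p) (hwp' : ¬ G.Adj w p')
    (hzp : ¬ G.Adj z p) (hzp' : ¬ G.Adj z p') : False :=
  hG.pp z w p y p' hzw hyp.symm hyp' hpp' hpp hzp hzy hzp' hwp (fun h => hyw h.symm) hwp'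

end GemCW
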