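import Pool.Agent.Lib.GemCW.Tone
import Pool.Agent.Lib.GemCW.RkA

/-!
# Well-linked induced matchings, II: the final cut

In a `TSys G S R J` let `τ : V → Fin 3` (types), `Tr : Fin 3 → Finset V`, `dev y s` (`y` deviates at
`s`), `P : Fin 3 → Fin 3 → Prop`, `I₀ ⊆ S`, such that for `y, w ∉ R`:
* `h1`: `s ∈ S`, `y` does not deviate at `s`: `nb G y (J s) = J s ∩ Tr (τ y)`;
* `hU`: `y` deviates at at most one `s ∈ S`;
* `h2`: `s ∈ I₀`, `dev y s`, `¬ dev w s`: `y ~ w ↔ P (τ y) (τ w)`;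
* `h3`: `s, t ∈ I₀`, `dev y s`, `dev w t`, `τ y = τ w`: every `z ∈ R` outside all `J u` (`u ∈ S`) is adjacent to
  `y` iff to `w`.
Then for every `I ⊆ I₀` the set `X = ⋃_{s ∈ I} (J s ∪ D_s)`, `D_s = {y ∉ R : dev y s}`, has cut rank
`≤ 6`, and `S ∩ X = I`.

Proof.  `S ∩ X = I`: `D_s ∩ S = ∅` (`S ⊆ R`), `s ∈ J t` only for `s = t`.
Let `JI = ⋃_{s ∈ I} J s`, `DI = ⋃_{s ∈ I} D_s`.
Rows `JI`, columns `v ∉ X`: if `v ∈ R` then `v ∉ J s` for all `s ∈ I`: no neighbour.  If `v ∉ R` then `v` does not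
deviate at any `s ∈ I`, so `nb G v JI = JI ∩ Tr (τ v)`: at most three sets: rank `≤ 3` (`rk_le_cols`).
Rows `y ∈ DI` (say `dev y s`, `s ∈ I`), columns `v ∉ X`: if `v ∉ R`: `¬ dev v s`, so `y ~ v ↔ P (τ y) (τ v)`.  If
`v ∈ J u`, `u ∈ S`: then `u ∉ I`, `u ≠ s`, so `y` does not deviate at `u` (`hU`): `y ~ v ↔ v ∈ Tr (τ y)`.
If `v ∈ R` is in no `J u`: by `h3` adjacency to `v` depends only on `τ y`.  So at most three distinct
rows: rank `≤ 3` (`rk_le_rows`).

`t_final`: if moreover `S` is `WL G c` then `|I₀| ≤ 14 c + 1`: take `I ⊆ I₀` with `|I| = ⌊|I₀|/2⌋`; `WL` for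
the subset `I₀` of `S`: `⌊|I₀|/2⌋ ≤ 7 c`.
-/

namespace GemCW

open Finset

variable {V : Type*} [Fintype V] [DecidableEq V]

/-- types, traces and deviations in a `TSys` -/
structure TType (G : SimpleGraph V) (S R : Finset V) (J : V → Finset V) (I₀ : Finset V)
    (τ : V → Fin 3) (Tr : Fin 3 → Finset V) (dev : V → V → Prop)
    (P : Fin 3 → Fin 3 → Prop) : Prop where
  sys : TSys G S R J
  sub : I₀ ⊆ S
  h1 : ∀ y, y ∉ R → ∀ s ∈ S, ¬ dev y s → nb G y (J s) = J s ∩ Tr (τ y)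
  hU : ∀ y, y ∉ R → ∀ s ∈ S, ∀ t ∈ S, dev y s → dev y t → s = t
  h2 : ∀ y, y ∉ R → ∀ w, w ∉ R → ∀ s ∈ I₀, dev y s → ¬ dev w s → (G.Adj y w ↔ P (τ y) (τ w))
  h3 : ∀ y, y ∉ R → ∀ w, w ∉ R → ∀ s ∈ I₀, ∀ t ∈ I₀, dev y s → dev w t → τ y = τ w →
    ∀ z ∈ R, (∀ u ∈ S, z ∉ J u) → (G.Adj z y ↔ G.Adj z w)

theorem TType.exists_cut {G : SimpleGraph V} {S R : Finset V} {J : V → Finset V}
    {I₀ : Finset V} {τ : V → Fin 3} {Tr : Fin 3 → Finset V} {dev : V → V → Prop}
    {P : Fin 3 → Fin 3 → Prop} (h : TType G S R J I₀ τ Tr dev P) (I : Finset V) (hI : I ⊆ I₀) :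
    ∃ X : Finset V, S ∩ X = I ∧ cut G X ≤ 6 := by
  classical
  have hIS : I ⊆ S := hI.trans h.sub
  set JI : Finset V := I.biUnion J with hJI
  set DI : Finset V := univ.filter (fun y => y ∉ R ∧ ∃ s ∈ I, dev y s) with hDI
  have memJI : ∀ v, v ∈ JI ↔ ∃ s ∈ I, v ∈ J s := fun v => by rw [hJI, Finset.mem_biUnion]
  have memDI : ∀ v, v ∈ DI ↔ v ∉ R ∧ ∃ s ∈ I, dev v s := fun v => by
    rw [hDI, Finset.mem_filter]
    exact ⟨fun h => h.2, fun h => ⟨Finset.mem_univ _, h⟩⟩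
  refine ⟨JI ∪ DI, ?_, ?_⟩
  · ext t
    rw [Finset.mem_inter, Finset.mem_union, memJI, memDI]
    constructor
    · rintro ⟨ht, ⟨s, hs, hts⟩ | ⟨htR, _⟩⟩
      · by_contra hcon
        have hne : t ≠ s := fun e => hcon (e ▸ hs)
        exact Finset.disjoint_left.1 (h.sys.disj t ht s (hIS hs) hne) (h.sys.mem t ht) hts
      · exact absurd (h.sys.sub t ht (h.sys.mem t ht)) htR
    · intro ht
      exact ⟨hIS ht, Or.inl ⟨t, ht, h.sys.mem t (hIS ht)⟩⟩
  · have hcol : rk G JI (JI ∪ DI)ᶜ ≤ 3 := by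
      refine (rk_le_cols ((univ : Finset (Fin 3)).image fun i => JI ∩ Tr i) ?_).trans ?_
      · intro v hv
        rw [Finset.mem_compl, Finset.mem_union, not_or, memJI, memDI] at hv
        by_cases hvR : v ∈ R
        · left
          rw [Finset.eq_empty_iff_forall_notMem]
          intro p hp
          rw [mem_nb, memJI] at hp
          obtain ⟨⟨s, hs, hps⟩, hadj⟩ := hp
          exact h.sys.anti s (hIS hs) v hvR (fun hvs => hv.1 ⟨s, hs, hvs⟩) p hps hadj
        · right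
          rw [Finset.mem_image]
          refine ⟨τ v, Finset.mem_univ _, ?_⟩
          ext p
          rw [mem_nb, Finset.mem_inter, memJI]
          constructor
          · rintro ⟨⟨s, hs, hps⟩, hT⟩
            refine ⟨⟨s, hs, hps⟩, ?_⟩
            have h1 := h.h1 v hvR s (hIS hs) (fun hd => hv.2 ⟨hvR, s, hs, hd⟩)
            have h2 : p ∈ nb G v (J s) := by
              rw [h1]; exact Finset.mem_inter.2 ⟨hps, hT⟩
            exact (mem_nb.1 h2).2
          · rintro ⟨⟨s, hs, hps⟩, hadj⟩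
            refine ⟨⟨s, hs, hps⟩, ?_⟩
            have h1 := h.h1 v hvR s (hIS hs) (fun hd => hv.2 ⟨hvR, s, hs, hd⟩)
            have h2 : p ∈ nb G v (J s) := mem_nb.2 ⟨hps, hadj⟩
            rw [h1] at h2
            exact (Finset.mem_inter.1 h2).2
      · exact Finset.card_image_le.trans (by simp)
    have hrow : rk G DI (JI ∪ DI)ᶜ ≤ 3 := by
      have hsame : ∀ y ∈ DI, ∀ w ∈ DI, τ y = τ w →
          nb G y (JI ∪ DI)ᶜ = nb G w (JI ∪ DI)ᶜ := by
        have hhalf : ∀ y ∈ DI, ∀ w ∈ DI, τ y = τ w → ∀ v ∈ (JI ∪ DI)ᶜ,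
            G.Adj y v → G.Adj w v := by
          intro y hy w hw hyw v hv hadj
          rw [memDI] at hy hw
          obtain ⟨hyR, s, hs, hys⟩ := hy
          obtain ⟨hwR, t, ht, hwt⟩ := hw
          rw [Finset.mem_compl, Finset.mem_union, not_or, memJI, memDI] at hv
          by_cases hvR : v ∈ R
          · by_cases hvJ : ∃ u ∈ S, v ∈ J u
            · obtain ⟨u, hu, hvu⟩ := hvJ
              have huI : u ∉ I := fun huI => hv.1 ⟨u, huI, hvu⟩
              have hyu : ¬ dev y u := fun hd => huI ((h.hU y hyR u hu s (hIS hs) hd hys) ▸ hs)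
              have hwu : ¬ dev w u := fun hd => huI ((h.hU w hwR u hu t (hIS ht) hd hwt) ▸ ht)
              have e1 := h.h1 y hyR u hu hyu
              have e2 := h.h1 w hwR u hu hwu
              have m1 : v ∈ nb G y (J u) := mem_nb.2 ⟨hvu, hadj⟩
              rw [e1, hyw, ← e2] at m1
              exact (mem_nb.1 m1).2
            · push Not at hvJ
              have := h.h3 y hyR w hwR s (hI hs) t (hI ht) hys hwt hyw v hvR hvJ
              exact (this.1 hadj.symm).symm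
          · have e1 := h.h2 y hyR v hvR s (hI hs) hys (fun hd => hv.2 ⟨hvR, s, hs, hd⟩)
            have e2 := h.h2 w hwR v hvR t (hI ht) hwt (fun hd => hv.2 ⟨hvR, t, ht, hd⟩)
            rw [e2, ← hyw, ← e1]
            exact hadj
        intro y hy w hw hyw
        ext v
        rw [mem_nb, mem_nb]
        exact ⟨fun hv => ⟨hv.1, hhalf y hy w hw hyw v hv.1 hv.2⟩,
          fun hv => ⟨hv.1, hhalf w hw y hy hyw.symm v hv.1 hv.2⟩⟩
      refine (rk_le_rows ((univ : Finset (Fin 3)).image fun i =>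
        if hi : ∃ y ∈ DI, τ y = i then nb G hi.choose (JI ∪ DI)ᶜ else ∅) ?_).trans ?_
      · intro y hy
        right
        rw [Finset.mem_image]
        refine ⟨τ y, Finset.mem_univ _, ?_⟩
        have hi : ∃ w ∈ DI, τ w = τ y := ⟨y, hy, rfl⟩
        rw [dif_pos hi]
        exact hsame _ hi.choose_spec.1 y hy hi.choose_spec.2
      · exact Finset.card_image_le.trans (by simp)
    unfold cut
    have := rk_union_left G JI DI (JI ∪ DI)ᶜ
    omega

theorem t_final {G : SimpleGraph V} {S R : Finset V} {J : V → Finset V}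
    {I₀ : Finset V} {τ : V → Fin 3} {Tr : Fin 3 → Finset V} {dev : V → V → Prop}
    {P : Fin 3 → Fin 3 → Prop} (h : TType G S R J I₀ τ Tr dev P) {c : ℕ} (hWL : WL G c S) :
    I₀.card ≤ 14 * c + 1 := by
  obtain ⟨I, hI, hcard⟩ := Finset.exists_subset_card_eq (s := I₀) (n := I₀.card / 2)
    (Nat.div_le_self _ _)
  obtain ⟨X, hX, hcut⟩ := h.exists_cut I hI
  have h1 := (hWL.sub h.sub) X
  have h2 : I₀ ∩ X = I := by
    ext v
    rw [Finset.mem_inter]
    constructor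
    · rintro ⟨hv, hvX⟩
      rw [← hX]
      exact Finset.mem_inter.2 ⟨h.sub hv, hvX⟩
    · intro hv
      refine ⟨hI hv, ?_⟩
      rw [← hX] at hv
      exact (Finset.mem_inter.1 hv).2
  have h3 := Finset.card_sdiff_add_card_inter I₀ X
  rw [h2] at h1 h3
  have h4 : c * (cut G X + 1) ≤ c * 7 := Nat.mul_le_mul_left _ (by omega)
  rcases min_le_iff.1 h1 with h5 | h5 <;> omega

end GemCW
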