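import Pool.Agent.Lib.GemCW.Tfive
import Pool.Agent.Lib.GemCW.Ttwo
import Pool.Agent.Lib.GemCW.Clean

/-!
# Well-linked induced matchings, VI: a vertex missing all `s ∈ S`

`T_S`: for `c` there is `N` such that there is no `TSys G S R J` with `S` `WL G c`, `|S| ≥ N`, and a vertex
`y₀ ∉ R` nonadjacent to all `s ∈ S`.

Proof.  By `clean` (`S` is independent: `TSys.indep`) pass to a subset `S` of cardinality
`n = 3 N_F + 14 c + 20` (`N_F` from `flips c`) with the cleaning property: `TCl G S R J y₀`.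
Let `B_i`, `i = 0,1,2`, from `flips`, and `I₁ = S \ (B_0 ∪ B_1 ∪ B_2)`.  For each type `i` let
`T_i = {s ∈ I₁ : some y ∉ R of type i deviates at s}`; if `|T_i| = 1` remove its element: `I₀` is `I₁` minus
at most three elements.  So for every type `i` and `s ∈ I₀`: if some `y ∉ R` of type `i` deviates at
`s` then there is `s' ∈ I₁`, `s' ≠ s`, and `y' ∉ R` of type `i` deviating at `s'`.
`|I₀| ≥ 14 c + 2`.  Apply `t_final` to the `TType` with `τ = ty G S y₀`,
`Tr i = ⋃_{s ∈ S} Tr₀ J i s`, `dev = Dev`, `P i j ↔ {i, j} = {0, 2}`.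
`h1`: `¬ Dev y s`: `nb G y (J s) = Tr₀ J (ty y) s = J s ∩ Tr (ty y)` (the `J`'s are disjoint,
`Tr₀ J i s ⊆ J s`).  `hU`: `dev_unique`.  `h2`: types `0, 2`: `rel02`; type `1` and another: `rel01`;
equal types: `flips`.
`h3`: `Dev y s`, `Dev w t`, same type `i`, `s, t ∈ I₀`, `z ∈ R` outside all `J u`.  If `s ≠ t`: `¬ Dev w s`
(`dev_unique`), so `y ≁ w` (`flips`, `s ∉ B_i`), and `diff`.  If `s = t`: take `s' ≠ s`, `y'`; compare `y` with
`y'` and `w` with `y'` (both by the first case; `y ≁ y'` as `s ∉ B_i`).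
-/

namespace GemCW

open Finset

/-- The adjacency table of the types. -/
theorem tsix_aux (A : Prop) (i j : Fin 3) (hsame : i = j → ¬ A) (h02 : i = 0 → j = 2 → A)
    (h20 : j = 0 → i = 2 → A) (h01 : i ≠ 1 → j = 1 → ¬ A) (h10 : j ≠ 1 → i = 1 → ¬ A) :
    A ↔ (i = 0 ∧ j = 2) ∨ (i = 2 ∧ j = 0) := by
  fin_cases i <;> fin_cases j <;> simp_all

theorem T_S (c : ℕ) : ∃ N : ℕ, ∀ (V : Type) [Fintype V] [DecidableEq V] (G : SimpleGraph V)
    (S R : Finset V) (J : V → Finset V) (y₀ : V), TSys G S R J → WL G c S → y₀ ∉ R →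
    (∀ s ∈ S, ¬ G.Adj y₀ s) → S.card < N := by
  classical
  obtain ⟨NF, hF⟩ := flips c
  obtain ⟨N, hN⟩ := clean c (3 * NF + 14 * c + 20)
  refine ⟨N, ?_⟩
  intro V _ _ G S R J y₀ hsys hWL hy₀ hy₀S
  by_contra hlt
  obtain ⟨T, hTS, hTc, hT⟩ := hN V G hsys.cls S hWL hsys.indep (not_lt.1 hlt)
  have htcl : TCl G T R J y₀ :=
    ⟨hsys.restrict hTS, by omega, hy₀, fun s hs => hy₀S s (hTS hs), hT⟩
  have hsysT := htcl.sys
  have hWLT : WL G c T := hWL.sub hTS
  choose B hBS hBc hB using hF V G T R J y₀ htcl hWLT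
  set I₁ : Finset V := T \ (B 0 ∪ B 1 ∪ B 2) with hI₁
  have hI₁T : I₁ ⊆ T := sdiff_subset
  have hI₁B : ∀ i : Fin 3, ∀ s ∈ I₁, s ∉ B i := by
    intro i s hs hsB
    rw [hI₁, mem_sdiff] at hs
    apply hs.2
    simp only [mem_union]
    fin_cases i
    · exact Or.inl (Or.inl hsB)
    · exact Or.inl (Or.inr hsB)
    · exact Or.inr hsB
  have hI₁c : T.card ≤ I₁.card + 3 * NF := by
    have h1 := le_card_sdiff (B 0 ∪ B 1 ∪ B 2) T
    have h2 := card_union_le (B 0 ∪ B 1) (B 2)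
    have h3 := card_union_le (B 0) (B 1)
    have h4 := hBc 0
    have h5 := hBc 1
    have h6 := hBc 2
    rw [← hI₁] at h1
    omega
  set Ti : Fin 3 → Finset V := fun i =>
    I₁.filter (fun s => ∃ y, y ∉ R ∧ ty G T y₀ y = i ∧ Dev G T J y₀ y s) with hTi
  set E : Fin 3 → Finset V := fun i => if (Ti i).card = 1 then Ti i else ∅ with hE
  have hEc : ∀ i, (E i).card ≤ 1 := by
    intro i
    simp only [hE]
    split_ifs with h
    · omega
    · simp
  set I₀ : Finset V := I₁ \ (E 0 ∪ E 1 ∪ E 2) with hI₀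
  have hI₀I₁ : I₀ ⊆ I₁ := sdiff_subset
  have hI₀E : ∀ i : Fin 3, ∀ s ∈ I₀, s ∉ E i := by
    intro i s hs hsB
    rw [hI₀, mem_sdiff] at hs
    apply hs.2
    simp only [mem_union]
    fin_cases i
    · exact Or.inl (Or.inl hsB)
    · exact Or.inl (Or.inr hsB)
    · exact Or.inr hsB
  have hI₀c : I₁.card ≤ I₀.card + 3 := by
    have h1 := le_card_sdiff (E 0 ∪ E 1 ∪ E 2) I₁
    have h2 := card_union_le (E 0 ∪ E 1) (E 2)
    have h3 := card_union_le (E 0) (E 1)
    have h4 := hEc 0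
    have h5 := hEc 1
    have h6 := hEc 2
    rw [← hI₀] at h1
    omega
  -- another deviation index of the same type
  have hother : ∀ s ∈ I₀, ∀ y, y ∉ R → Dev G T J y₀ y s →
      ∃ s' ∈ I₁, s' ≠ s ∧ ∃ y', y' ∉ R ∧ ty G T y₀ y' = ty G T y₀ y ∧ Dev G T J y₀ y' s' := by
    intro s hs y hy hdev
    have hmem : s ∈ Ti (ty G T y₀ y) := by
      simp only [hTi, mem_filter]
      exact ⟨hI₀I₁ hs, y, hy, rfl, hdev⟩
    have hne : (Ti (ty G T y₀ y)).card ≠ 1 := by
      intro h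
      apply hI₀E (ty G T y₀ y) s hs
      simp only [hE, h, if_true]
      exact hmem
    have hpos : 0 < (Ti (ty G T y₀ y)).card := Finset.card_pos.2 ⟨s, hmem⟩
    obtain ⟨s', hs', hss'⟩ := Finset.exists_mem_ne (show 1 < (Ti (ty G T y₀ y)).card by omega) s
    simp only [hTi, mem_filter] at hs'
    obtain ⟨h1, y', h2, h3, h4⟩ := hs'
    exact ⟨s', h1, hss', y', h2, h3, h4⟩
  -- different deviation indices
  have hdiff : ∀ y, y ∉ R → ∀ w, w ∉ R → ∀ s ∈ I₁, ∀ t ∈ I₁, s ≠ t → Dev G T J y₀ y s →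
      Dev G T J y₀ w t → ty G T y₀ y = ty G T y₀ w → ∀ z ∈ R, (∀ u ∈ T, z ∉ J u) →
      (G.Adj z y ↔ G.Adj z w) := by
    intro y hy w hw s hs t ht hst hdy hdw htt z hz hzJ
    have hdws : ¬ Dev G T J y₀ w s := fun h =>
      hst (htcl.dev_unique hw (hI₁T hs) (hI₁T ht) h hdw)
    have hyw : ¬ G.Adj y w := hB (ty G T y₀ y) y hy w hw rfl htt.symm s (hI₁T hs)
      (hI₁B _ s hs) hdy hdws
    exact htcl.diff hy hw (hI₁T hs) (hI₁T ht) hst htt hdy hdw hyw hz (hzJ s (hI₁T hs))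
      (hzJ t (hI₁T ht))
  have hTr : ∀ i : Fin 3, ∀ s ∈ T, Tr₀ J i s ⊆ J s := by
    intro i s hs
    unfold Tr₀
    split_ifs
    · exact erase_subset _ _
    · exact Subset.refl _
    · exact singleton_subset_iff.2 (hsysT.mem s hs)
  have hTT : TType G T R J I₀ (ty G T y₀) (fun i => T.biUnion (fun s => Tr₀ J i s))
      (Dev G T J y₀) (fun i j => (i = 0 ∧ j = 2) ∨ (i = 2 ∧ j = 0)) := by
    refine ⟨hsysT, fun s hs => hI₁T (hI₀I₁ hs), ?_, ?_, ?_, ?_⟩
    · intro y hy s hs hdev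
      have h1 : nb G y (J s) = Tr₀ J (ty G T y₀ y) s := by
        by_contra h
        exact hdev (Or.inl h)
      rw [h1]
      ext v
      simp only [mem_inter, mem_biUnion]
      constructor
      · intro hv
        exact ⟨hTr _ s hs hv, s, hs, hv⟩
      · rintro ⟨hv, t, ht, hvt⟩
        by_cases hst : s = t
        · subst hst
          exact hvt
        · exact absurd (hTr _ t ht hvt) (disjoint_left.1 (hsysT.disj s hs t ht hst) hv)
    · intro y hy s hs t ht hds hdt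
      exact htcl.dev_unique hy hs ht hds hdt
    · intro y hy w hw s hs hdy hdw
      have hsT : s ∈ T := hI₁T (hI₀I₁ hs)
      have hsame : ty G T y₀ y = ty G T y₀ w → ¬ G.Adj y w := fun e =>
        hB (ty G T y₀ y) y hy w hw rfl e.symm s hsT (hI₁B _ s (hI₀I₁ hs)) hdy hdw
      exact tsix_aux _ _ _ hsame (fun h1 h2 => htcl.rel02 hy hw h1 h2)
        (fun h1 h2 => (htcl.rel02 hw hy h1 h2).symm) (fun h1 h2 => htcl.rel01 hy hw h1 h2)
        (fun h1 h2 h3 => htcl.rel01 hw hy h1 h2 h3.symm)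
    · intro y hy w hw s hs t ht hdy hdw htt z hz hzJ
      by_cases hst : s = t
      · subst hst
        obtain ⟨s', hs', hss', y', hy', hty', hdy'⟩ := hother s hs y hy hdy
        rw [hdiff y hy y' hy' s (hI₀I₁ hs) s' hs' (Ne.symm hss') hdy hdy' hty'.symm z hz hzJ,
          hdiff y' hy' w hw s' hs' s (hI₀I₁ hs) hss' hdy' hdw (hty'.trans htt) z hz hzJ]
      · exact hdiff y hy w hw s (hI₀I₁ hs) t (hI₀I₁ ht) hst hdy hdw htt z hz hzJ
  have := t_final hTT hWLT
  omega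

end GemCW
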