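import Pool.Agent.Lib.GemCW.Tthree
import Pool.Agent.Lib.GemCW.Tsix

/-!
# No large well-linked matching pattern

`T_main`: for `c` there is `N` such that there are no `WL G c` set `S`, `|S| ≥ N`, and `x : V → V` with
`s ~ x t ↔ s = t` for `s, t ∈ S`.

Proof.  By `exists_indep` pass to an independent subset of `S`.  `x` is injective on `S`; `x(S)` is
`WL G (c+1)` by `transfer_set` (`a = False`); by `exists_indep (c+1)` a large subset of `x(S)` is
independent; pass to the corresponding subset of `S`.  `exists_tsys` gives a `TSys G S R J`.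
Let `N₁ = T_B c`'s bound, `N₂ = T_S (c+1)`'s bound; suppose `|S| ≥ N₁, 4 N₂ + 8`.
By `T_B` there is `y₀ ∉ R` with `2 |S₁| + 2 > |S|`, `S₁ = {s ∈ S : y₀ ≁ p for some p ∈ J s}`; for
`s ∈ S₁` let `f s ∈ J s` be nonadjacent to `y₀`.
Case `f s = s` for at least half of the `s ∈ S₁`: `S₂` = these `s`: `T_S` (constant `c+1`) for
`TSys.restrict` and `S₂ ⊆ S`: contradiction.
Case `f s ≠ s` for at least half of the `s ∈ S₁` (`S₂`): `s ~ f t ↔ s = t` on `S₂` (clique `J s`; `anti`), so
`f(S₂)` is `WL G (c+1)` (`transfer_set`).  `TSys G (f(S₂)) R J'` with `J' v = J s` for `v = f s`.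
`T_S (c+1)`: contradiction (`|f(S₂)| = |S₂| ≥ N₂`).
-/

namespace GemCW

open Finset

/-- a system indexed by other representatives of the cliques -/
theorem TsevenAux.reindex {V : Type*} [Fintype V] [DecidableEq V] {G : SimpleGraph V}
    {S R B : Finset V} {J : V → Finset V} (h : TSys G S R J) (hB : B ⊆ S) (f g : V → V)
    (hf : ∀ s ∈ B, f s ∈ J s) (hg : ∀ v ∈ B.image f, g v ∈ B ∧ f (g v) = v) :
    TSys G (B.image f) R (fun v => J (g v)) where
  cls := h.cls
  mem := fun v hv => by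
    have h1 := hf _ (hg v hv).1
    rwa [(hg v hv).2] at h1
  sub := fun v hv => h.sub _ (hB (hg v hv).1)
  two := fun v hv => h.two _ (hB (hg v hv).1)
  clq := fun v hv => h.clq _ (hB (hg v hv).1)
  disj := fun v hv w hw hne => h.disj _ (hB (hg v hv).1) _ (hB (hg w hw).1) fun he => hne (by
    rw [← (hg v hv).2, ← (hg w hw).2, he])
  anti := fun v hv => h.anti _ (hB (hg v hv).1)
  miss := fun y hy v hv => h.miss y hy _ (hB (hg v hv).1)

open scoped Classical in
theorem TsevenAux.sys_bound (c : ℕ) : ∃ N : ℕ, 4 ≤ N ∧ ∀ (V : Type) [Fintype V] [DecidableEq V]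
    (G : SimpleGraph V) (S R : Finset V) (J : V → Finset V), TSys G S R J → WL G c S →
      S.card < N := by
  obtain ⟨N₁, hN₁⟩ := T_B c
  obtain ⟨N₂, hN₂⟩ := T_S (c + 1)
  refine ⟨max N₁ (4 * N₂ + 8), le_max_of_le_right (by omega), ?_⟩
  intro V _ _ G S R J hsys hWL
  by_contra hcon
  push Not at hcon
  have hm1 : N₁ ≤ S.card := (le_max_left _ _).trans hcon
  have hm2 : 4 * N₂ + 8 ≤ S.card := (le_max_right _ _).trans hcon
  obtain ⟨y₀, hy₀, hlt⟩ : ∃ y₀, y₀ ∉ R ∧
      S.card < 2 * (S.filter (fun s => ∃ p ∈ J s, ¬ G.Adj y₀ p)).card + 2 := by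
    by_contra h
    push Not at h
    exact absurd (hN₁ V G S R J hsys hWL h) (not_lt.mpr hm1)
  set S₁ := S.filter (fun s => ∃ p ∈ J s, ¬ G.Adj y₀ p) with hS₁
  have hch : ∀ s : V, ∃ p : V, s ∈ S₁ → p ∈ J s ∧ ¬ G.Adj y₀ p := by
    intro s
    by_cases hs : s ∈ S₁
    · obtain ⟨p, hp, hp'⟩ := (mem_filter.mp hs).2
      exact ⟨p, fun _ => ⟨hp, hp'⟩⟩
    · exact ⟨s, fun h => absurd h hs⟩
  choose f hf using hch
  have hS₁S : S₁ ⊆ S := filter_subset _ _
  have hsum := card_filter_add_card_filter_not (s := S₁) (fun s => f s = s)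
  have hA : (S₁.filter (fun s => f s = s)).card < N₂ := by
    have hsub : S₁.filter (fun s => f s = s) ⊆ S := (filter_subset _ _).trans hS₁S
    refine hN₂ V G _ R J y₀ (hsys.restrict hsub) ((hWL.sub hsub).mono (by omega)) hy₀ ?_
    intro s hs
    obtain ⟨h1, h2⟩ := mem_filter.mp hs
    have := (hf s h1).2
    rwa [h2] at this
  have hB : (S₁.filter (fun s => ¬ f s = s)).card < N₂ := by
    set B := S₁.filter (fun s => ¬ f s = s) with hBdef
    have hBS₁ : B ⊆ S₁ := filter_subset _ _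
    have hBS : B ⊆ S := hBS₁.trans hS₁S
    have hinj : ∀ s ∈ B, ∀ t ∈ B, f s = f t → s = t := by
      intro s hs t ht he
      by_contra hne
      have h1 := (hf s (hBS₁ hs)).1
      have h2 := (hf t (hBS₁ ht)).1
      rw [he] at h1
      exact (disjoint_left.mp (hsys.disj s (hBS hs) t (hBS ht) hne)) h1 h2
    have hcard : (B.image f).card = B.card :=
      card_image_of_injOn fun s hs t ht he => hinj s hs t ht he
    have hWL' : WL G (c + 1) (B.image f) := by
      refine transfer_set B f False hinj ?_ ?_ (hWL.sub hBS)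
      · intro s hs
        have hne : ¬ f s = s := (mem_filter.mp hs).2
        have hadj : G.Adj s (f s) := hsys.clq s (hBS hs) s (hsys.mem s (hBS hs)) (f s)
          (hf s (hBS₁ hs)).1 fun h => hne h.symm
        exact fun h => h.mp hadj
      · intro s hs t ht hne
        rw [iff_false]
        have hsJ : s ∉ J t := fun h1 =>
          (disjoint_left.mp (hsys.disj s (hBS hs) t (hBS ht) hne)) (hsys.mem s (hBS hs)) h1
        exact hsys.anti t (hBS ht) s (hsys.sub s (hBS hs) (hsys.mem s (hBS hs))) hsJ _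
          (hf t (hBS₁ ht)).1
    have hg : ∀ v : V, ∃ s : V, v ∈ B.image f → s ∈ B ∧ f s = v := by
      intro v
      by_cases hv : v ∈ B.image f
      · obtain ⟨s, hs, he⟩ := mem_image.mp hv
        exact ⟨s, fun _ => ⟨hs, he⟩⟩
      · exact ⟨v, fun h => absurd h hv⟩
    choose g hg using hg
    have := hN₂ V G (B.image f) R (fun v => J (g v)) y₀
      (TsevenAux.reindex hsys hBS f g (fun s hs => (hf s (hBS₁ hs)).1) hg) hWL' hy₀ (by
        intro v hv
        obtain ⟨s, hs, rfl⟩ := mem_image.mp hv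
        exact (hf s (hBS₁ hs)).2)
    rwa [hcard] at this
  omega

theorem T_main (c : ℕ) : ∃ N : ℕ, ∀ (V : Type) [Fintype V] [DecidableEq V] (G : SimpleGraph V),
    Cls G → ∀ (S : Finset V) (x : V → V), WL G c S →
      (∀ s ∈ S, ∀ t ∈ S, (G.Adj s (x t) ↔ s = t)) → S.card < N := by
  obtain ⟨m, hm4, hm⟩ := TsevenAux.sys_bound c
  obtain ⟨N₃, hN₃⟩ := exists_indep (c + 1) m
  obtain ⟨N₄, hN₄⟩ := exists_indep c N₃
  refine ⟨N₄, ?_⟩
  intro V _ _ G hG S x hWL hx
  by_contra hcon
  push Not at hcon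
  obtain ⟨T, hTS, hTc, hTi⟩ := hN₄ V G hG S hWL hcon
  have hinj : ∀ s ∈ T, ∀ t ∈ T, x s = x t → s = t := by
    intro s hs t ht he
    have h1 : G.Adj s (x s) := (hx s (hTS hs) s (hTS hs)).mpr rfl
    rw [he] at h1
    exact (hx s (hTS hs) t (hTS ht)).mp h1
  have hWL' : WL G (c + 1) (T.image x) := by
    refine transfer_set T x False hinj ?_ ?_ (hWL.sub hTS)
    · intro s hs h
      exact h.mp ((hx s (hTS hs) s (hTS hs)).mpr rfl)
    · intro s hs t ht hne
      rw [iff_false]
      exact fun h => hne ((hx s (hTS hs) t (hTS ht)).mp h)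
  have hcard : (T.image x).card = N₃ := by
    rw [← hTc]
    exact card_image_of_injOn fun s hs t ht he => hinj s hs t ht he
  obtain ⟨U, hU, hUc, hUi⟩ := hN₃ V G hG (T.image x) hWL' hcard.ge
  set S' := T.filter (fun s => x s ∈ U) with hS'
  have hS'T : S' ⊆ T := filter_subset _ _
  have himg : S'.image x = U := by
    ext v
    constructor
    · intro hv
      obtain ⟨s, hs, rfl⟩ := mem_image.mp hv
      exact (mem_filter.mp hs).2
    · intro hv
      obtain ⟨s, hs, rfl⟩ := mem_image.mp (hU hv)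
      exact mem_image_of_mem x (mem_filter.mpr ⟨hs, hv⟩)
  have hS'c : S'.card = m := by
    rw [← hUc, ← himg]
    exact (card_image_of_injOn fun s hs t ht he => hinj s (hS'T hs) t (hS'T ht) he).symm
  obtain ⟨R, J, hsys⟩ := exists_tsys hG x (S := S') (by rw [hS'c]; exact hm4)
    (fun s hs t ht => hTi s (hS'T hs) t (hS'T ht))
    (fun s hs t ht => hUi _ (mem_filter.mp hs).2 _ (mem_filter.mp ht).2)
    (fun s hs t ht => hx s (hTS (hS'T hs)) t (hTS (hS'T ht)))
  have := hm V G S' R J hsys (hWL.sub (hS'T.trans hTS))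
  omega

end GemCW
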