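import Pool.Agent.Lib.GemCW.Ttwo

/-!
# Well-linked induced matchings, III: few missing indices

`T_B`: for `c` there is `N` such that in a `TSys G S R J` with `S` `WL G c`, if every `y ∉ R` misses
some vertex of `J s` for at most `(|S| - 2) / 2` indices `s ∈ S`, then `|S| < N`.

`Mis G J y s`: `y` misses a vertex of `J s`; (1) `mis_sub`, (2) `mis_two`, (3) `far`.
-/

namespace GemCW

open Finset

namespace TthreeAux

variable {V : Type*} [Fintype V] [DecidableEq V]

/-- `y` misses a vertex of `J s` -/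
def Mis (G : SimpleGraph V) (J : V → Finset V) (y s : V) : Prop := ∃ p ∈ J s, ¬ G.Adj y p

theorem notMem {G : SimpleGraph V} {S R : Finset V} {J : V → Finset V} (h : TSys G S R J)
    {s t p : V} (hs : s ∈ S) (ht : t ∈ S) (hst : s ≠ t) (hp : p ∈ J s) : p ∉ J t :=
  fun hq => (disjoint_left.1 (h.disj s hs t ht hst)) hp hq

theorem nadj {G : SimpleGraph V} {S R : Finset V} {J : V → Finset V} (h : TSys G S R J)
    {s t p q : V} (hs : s ∈ S) (ht : t ∈ S) (hst : s ≠ t) (hp : p ∈ J s) (hq : q ∈ J t) :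
    ¬ G.Adj p q :=
  h.anti t ht p (h.sub s hs hp) (notMem h hs ht hst hp) q hq

theorem adj_of_not_mis {G : SimpleGraph V} {J : V → Finset V} {y s p : V}
    (h : ¬ Mis G J y s) (hp : p ∈ J s) : G.Adj y p := by
  by_contra hn
  exact h ⟨p, hp, hn⟩

theorem mis_sub {G : SimpleGraph V} {S R : Finset V} {J : V → Finset V} (h : TSys G S R J)
    {y w s t : V} (hy : y ∉ R) (hyw : G.Adj y w) (hs : s ∈ S)
    (ht : t ∈ S) (hty : ¬ Mis G J y t) (htw : ¬ Mis G J w t) (hsy : Mis G J y s) :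
    Mis G J w s := by
  by_contra hsw
  obtain ⟨p, hp, hyp⟩ := hsy
  have hst : s ≠ t := by
    rintro rfl
    exact hty ⟨p, hp, hyp⟩
  obtain ⟨q, hq, hqp⟩ := exists_mem_ne (show 1 < (J s).card from h.two s hs) p
  have hyq : G.Adj y q := by
    by_contra hn
    exact hqp (h.miss y hy s hs q hq p hp hn hyp)
  have htR : t ∈ R := h.sub t ht (h.mem t ht)
  have htJ : t ∉ J s := notMem h ht hs hst.symm (h.mem t ht)
  exact hyp (h.t1 hyw.symm hs htR htJ (adj_of_not_mis htw (h.mem t ht))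
    (adj_of_not_mis hty (h.mem t ht)) hq hp (adj_of_not_mis hsw hq) (adj_of_not_mis hsw hp) hyq)

theorem mis_two {G : SimpleGraph V} {S R : Finset V} {J : V → Finset V} (h : TSys G S R J)
    {y w s s' t : V} (hyw : ¬ G.Adj y w) (hs : s ∈ S) (hs' : s' ∈ S)
    (hss : s ≠ s') (ht : t ∈ S) (h1 : Mis G J y s) (h1' : Mis G J y s') (h2 : ¬ Mis G J w s)
    (h2' : ¬ Mis G J w s') (h3 : Mis G J w t) (h4 : ¬ Mis G J y t) : False := by
  obtain ⟨p, hp, hyp⟩ := h1
  obtain ⟨p', hp', hyp'⟩ := h1'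
  obtain ⟨z, hz, hwz⟩ := h3
  have hts : t ≠ s := by
    rintro rfl
    exact h2 ⟨z, hz, hwz⟩
  have hts' : t ≠ s' := by
    rintro rfl
    exact h2' ⟨z, hz, hwz⟩
  refine t2 h.cls (y := w) (w := y) (z := z) (p := p) (p' := p') (fun e => hyw e.symm)
    (adj_of_not_mis h4 hz).symm (fun e => hwz e.symm) ?_ (nadj h hs hs' hss hp hp')
    (adj_of_not_mis h2 hp) (adj_of_not_mis h2' hp') hyp hyp' (nadj h ht hs hts hz hp)
    (nadj h ht hs' hts' hz hp')
  rintro rfl
  exact notMem h hs hs' hss hp hp'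

theorem far {G : SimpleGraph V} {S R : Finset V} {J : V → Finset V} (h : TSys G S R J)
    (hU : ∀ y, y ∉ R → ∀ s ∈ S, ∀ t ∈ S, Mis G J y s → Mis G J y t → s = t)
    (hA : ∀ y, y ∉ R → ∀ w, w ∉ R → G.Adj y w → ∀ s ∈ S, Mis G J y s → Mis G J w s)
    {y w s t z : V} (hy : y ∉ R) (hw : w ∉ R) (hs : s ∈ S) (ht : t ∈ S) (hst : s ≠ t)
    (hys : Mis G J y s) (hwt : Mis G J w t) (hz : z ∈ R) (hzs : z ∉ J s) (hzt : z ∉ J t)
    (hzw : G.Adj z w) : G.Adj z y := by
  by_contra hzy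
  have hyw : ¬ G.Adj y w := fun e => hst (hU w hw s hs t ht (hA y hy w hw e s hs hys) hwt)
  obtain ⟨p, hp, hyp⟩ := hys
  obtain ⟨q, hq, hwq⟩ := hwt
  have hwp : G.Adj w p := by
    by_contra hn
    exact hst (hU w hw s hs t ht ⟨p, hp, hn⟩ ⟨q, hq, hwq⟩)
  have hyq : G.Adj y q := by
    by_contra hn
    exact hst (hU y hy s hs t ht ⟨p, hp, hyp⟩ ⟨q, hq, hn⟩)
  have hzp : ¬ G.Adj z p := h.anti s hs z hz hzs p hp
  have hzq : ¬ G.Adj z q := h.anti t ht z hz hzt q hq
  refine t2 h.cls (y := w) (w := y) (z := q) (p := p) (p' := z) (fun e => hyw e.symm)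
    hyq.symm (fun e => hwq e.symm) ?_ (fun e => hzp e.symm) hwp hzw.symm hyp
    (fun e => hzy e.symm) (nadj h ht hs hst.symm hq hp) (fun e => hzq e.symm)
  rintro rfl
  exact hzs hp

end TthreeAux

open TthreeAux

open scoped Classical in
theorem T_B (c : ℕ) : ∃ N : ℕ, ∀ (V : Type) [Fintype V] [DecidableEq V] (G : SimpleGraph V)
    (S R : Finset V) (J : V → Finset V), TSys G S R J → WL G c S →
    (∀ y, y ∉ R → 2 * (S.filter (fun s => ∃ p ∈ J s, ¬ G.Adj y p)).card + 2 ≤ S.card) →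
    S.card < N := by
  refine ⟨28 * c + 10, ?_⟩
  intro V _ _ G S R J h hWL hcard
  set Gm : V → Finset V := fun y => S.filter (fun s => ∃ p ∈ J s, ¬ G.Adj y p) with hGm
  have hmem : ∀ y s, s ∈ Gm y ↔ s ∈ S ∧ Mis G J y s := fun y s => by
    rw [hGm]
    simp only [mem_filter]
    rfl
  have hcard' : ∀ y, y ∉ R → 2 * (Gm y).card + 2 ≤ S.card := hcard
  by_cases hex : ∃ y, y ∉ R
  swap
  · push Not at hex
    have htt : TType G S R J S (fun _ => 0) (fun _ => univ) (fun _ _ => False)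
        (fun _ _ => False) := {
      sys := h
      sub := Subset.refl S
      h1 := fun y hy => absurd (hex y) hy
      hU := fun y hy => absurd (hex y) hy
      h2 := fun y hy => absurd (hex y) hy
      h3 := fun y hy => absurd (hex y) hy }
    have := t_final htt hWL
    omega
  -- (1)
  have hA : ∀ y, y ∉ R → ∀ w, w ∉ R → G.Adj y w → ∀ s ∈ S, Mis G J y s → Mis G J w s := by
    intro y hy w hw hyw s hs hsy
    have h1 : (Gm y ∪ Gm w).card < S.card := by
      have h2 := hcard' y hy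
      have h3 := hcard' w hw
      have h4 := card_union_le (Gm y) (Gm w)
      omega
    obtain ⟨t, htS, htn⟩ := exists_mem_notMem_of_card_lt_card h1
    rw [mem_union, hmem, hmem] at htn
    push Not at htn
    exact mis_sub h hy hyw hs htS (htn.1 htS) (htn.2 htS) hsy
  -- the vertex with most missing indices
  obtain ⟨y₀, hy₀⟩ := hex
  obtain ⟨y₁, hy₁m, hmax⟩ := exists_max_image (univ.filter (fun y => y ∉ R))
    (fun y => (Gm y).card) ⟨y₀, by simp [hy₀]⟩
  have hy₁ : y₁ ∉ R := by simpa using hy₁m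
  have hmax' : ∀ y, y ∉ R → (Gm y).card ≤ (Gm y₁).card := fun y hy => hmax y (by simp [hy])
  set S' := S \ Gm y₁ with hS'
  have hS'S : S' ⊆ S := sdiff_subset
  have hS'm : ∀ s, s ∈ S' → ¬ Mis G J y₁ s := by
    intro s hs hm
    rw [hS', mem_sdiff, hmem] at hs
    exact hs.2 ⟨hs.1, hm⟩
  have hS'card : S.card + 2 ≤ 2 * S'.card := by
    have h2 := hcard' y₁ hy₁
    have h3 : S'.card = S.card - (Gm y₁).card := by
      rw [hS']
      exact card_sdiff_of_subset (by rw [hGm]; exact filter_subset _ _)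
    omega
  have hU : ∀ y, y ∉ R → ∀ s ∈ S', ∀ t ∈ S', Mis G J y s → Mis G J y t → s = t := by
    intro y hy s hs t ht hys hyt
    by_contra hst
    have hnadj : ¬ G.Adj y y₁ := fun e => hS'm s hs (hA y hy y₁ hy₁ e s (hS'S hs) hys)
    have hsub : Gm y₁ ⊆ Gm y := by
      intro u hu
      rw [hmem] at hu ⊢
      refine ⟨hu.1, ?_⟩
      by_contra hn
      exact mis_two h hnadj (hS'S hs) (hS'S ht) hst hu.1 hys hyt (hS'm s hs) (hS'm t ht) hu.2 hn
    have hss : Gm y₁ ⊂ Gm y := by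
      refine ⟨hsub, fun hle => ?_⟩
      have : s ∈ Gm y₁ := hle ((hmem y s).2 ⟨hS'S hs, hys⟩)
      exact hS'm s hs ((hmem y₁ s).1 this).2
    exact absurd (card_lt_card hss) (not_lt.2 (hmax' y hy))
  have hsys : TSys G S' R J := h.restrict hS'S
  have hA' : ∀ y, y ∉ R → ∀ w, w ∉ R → G.Adj y w → ∀ s ∈ S', Mis G J y s → Mis G J w s :=
    fun y hy w hw e s hs => hA y hy w hw e s (hS'S hs)
  have hfar : ∀ {y w s t z : V}, y ∉ R → w ∉ R → s ∈ S' → t ∈ S' → s ≠ t →
      Mis G J y s → Mis G J w t → z ∈ R → (∀ u ∈ S', z ∉ J u) → (G.Adj z y ↔ G.Adj z w) := by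
    intro y w s t z hy hw hs ht hst hys hwt hz hzu
    exact ⟨fun e => far hsys hU hA' hw hy ht hs hst.symm hwt hys hz (hzu t ht) (hzu s hs) e,
      fun e => far hsys hU hA' hy hw hs ht hst hys hwt hz (hzu s hs) (hzu t ht) e⟩
  have hmk : ∀ I₀ ⊆ S', (∀ y, y ∉ R → ∀ w, w ∉ R → ∀ s ∈ I₀, ∀ t ∈ I₀, Mis G J y s →
      Mis G J w t → ∀ z ∈ R, (∀ u ∈ S', z ∉ J u) → (G.Adj z y ↔ G.Adj z w)) →
      I₀.card ≤ 14 * c + 1 := by
    intro I₀ hI₀ h3
    have htt : TType G S' R J I₀ (fun _ => 0) (fun _ => univ) (Mis G J) (fun _ _ => False) := {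
      sys := hsys
      sub := hI₀
      h1 := by
        intro y hy s hs hn
        rw [inter_univ]
        ext p
        rw [mem_nb]
        exact ⟨fun hp => hp.1, fun hp => ⟨hp, adj_of_not_mis hn hp⟩⟩
      hU := hU
      h2 := by
        intro y hy w hw s hs hys hws
        exact ⟨fun e => hws (hA' y hy w hw e s (hI₀ hs) hys), fun e => e.elim⟩
      h3 := by
        intro y hy w hw s hs t ht hys hwt _ z hz hzu
        exact h3 y hy w hw s hs t ht hys hwt z hz hzu }
    exact t_final htt (hWL.sub hS'S)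
  by_cases hcase : ∃ y, y ∉ R ∧ ∃ w, w ∉ R ∧ ∃ s ∈ S', ∃ t ∈ S', s ≠ t ∧ Mis G J y s ∧ Mis G J w t
  · obtain ⟨a, ha, b, hb, s₁, hs₁, t₁, ht₁, hst₁, has, hbt⟩ := hcase
    have h5 := hmk S' (Subset.refl S') (by
      intro y hy w hw s hs t ht hys hwt z hz hzu
      by_cases hst : s = t
      · subst hst
        by_cases hs1 : s = s₁
        · have hst' : s ≠ t₁ := by
            rw [hs1]
            exact hst₁
          exact (hfar hy hb hs ht₁ hst' hys hbt hz hzu).trans
            (hfar hw hb hs ht₁ hst' hwt hbt hz hzu).symm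
        · exact (hfar hy ha hs hs₁ hs1 hys has hz hzu).trans
            (hfar hw ha hs hs₁ hs1 hwt has hz hzu).symm
      · exact hfar hy hw hs ht hst hys hwt hz hzu)
    omega
  · push Not at hcase
    by_cases hdev : ∃ y, y ∉ R ∧ ∃ s ∈ S', Mis G J y s
    · obtain ⟨a, ha, s₀, hs₀, has⟩ := hdev
      have h5 := hmk (S'.erase s₀) (erase_subset _ _) (by
        intro y hy w hw s hs t ht hys hwt z hz hzu
        rw [mem_erase] at hs
        exact absurd has (hcase y hy a ha s hs.2 s₀ hs₀ hs.1 hys))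
      rw [card_erase_of_mem hs₀] at h5
      omega
    · push Not at hdev
      have h5 := hmk S' (Subset.refl S') (by
        intro y hy w hw s hs t ht hys
        exact absurd hys (hdev y hy s hs))
      omega

end GemCW
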